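import Pool.Agent.DL.E.Spec2
import Pool.Agent.DL.R1A.Spec

/-!
# MP_3ff0f8_gt, ALGEBRA HALF, YR (helper92): `U (G - up)` for a rigid nonapex vertex `u` of degree 4

Module `XXX` = file `DL/Y/XXX.lean`, theorem `specXXX (hYYY : SpecYYY) … : SpecXXX`; the hypotheses may be any other Specs
named in the docstring (also of DL/EX, DL/K, DL/NP, DL/G4, DL/E); own lemmas in the namespace `DL.XXXM`.  Base library: DL/PC, PC2, MENG, KC.  The docstrings are self-contained.

`G` is 4-connected, `n ≥ 8`, `u` is rigid of degree 4, `J = del G {u}` is nonplanar.  R1A needs `U (delE G u p)` for all `p ~ u`.  This is the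
induction hypothesis if `delE G u p ∈ C1`; otherwise there is a (3,3)-pair `P33 G u v z p a c`: `N(u) = {v, p, a, c}`, `N(v) = {u, z, a, c}` (YRJ).  Here we prove it in this case
if `z` is adjacent neither to `a` nor to `c` (this is so if `E4` holds for all (3,3)-pairs).
NOTATION: `H = delE G u p` (`N_H(u) = {v, a, c}`), `N = del G {u, v}`, `X = contr H c u` (it is `J` plus the edge `ac`).  For a path `P` of `N` from `a` to `c` the four cycles
`Lf v u a c i j P` of `H`: `a v c + P` (`i = j = false`), `a u c + P` (`i = j = true`), `a u v c + P` (`i = true, j = false`), `a v u c + P` (`i = false, j = true`).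
-/

open SimpleGraph Finset

namespace DL

/-- the data -/
structure YRData {α : Type} [Fintype α] [DecidableEq α] (G : SimpleGraph α) (u v z p a c : α) : Prop where
  k48 : K48 G
  ih : IH G
  cj : C1 (del G {u})
  npj : NP (del G {u})
  p33 : P33 G u v z p a c
  za : ¬ G.Adj z a
  zc : ¬ G.Adj z c

/-- the cycle `a w w' c + P`, `w = u` if `i`, `w = v` otherwise, `w' = u` if `j`, `w' = v` otherwise -/
def Lf {α : Type} [DecidableEq α] (v u a c : α) (i j : Bool) (P : Finset (Sym2 α)) : Finset (Sym2 α) :=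
  P ∪ {s(if i then u else v, a), s(if j then u else v, c)} ∪ if i = j then ∅ else {s(v, u)}

/-- a `D_4`-even function on `H` which vanishes on `CycM H v z` -/
structure YRFun {α : Type} [Fintype α] [DecidableEq α] (G : SimpleGraph α) (u v z p a c : α)
    (f : Finset (Sym2 α) → ZMod 2) : Prop where
  dat : YRData G u v z p a c
  ev : D4even (delE G u p) f
  zr : ∀ C, CycM (delE G u p) v z C → f C = 0

/-- the path function `A` is local at `z`: on an `a`-`c` path `P` of `N` which passes `… y z y' …` (from `a` to `c`) it is `g y y'`, and `g y y' + g y' y` is a sum `κ y + κ y'` -/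
def LocZ {α : Type} [Fintype α] [DecidableEq α] (G : SimpleGraph α) (u v z a c : α)
    (A : Finset (Sym2 α) → ZMod 2) (g : α → α → ZMod 2) (κ : α → ZMod 2) : Prop :=
  (∀ y y', g y y' + g y' y = κ y + κ y') ∧
    ∀ P y y', IsPth (del G {u, v}) a c P → dirn a y z P = 1 → dirn a z y' P = 1 → A P = g y y'

/-- **YRA** (from CRL, DST, XC3, C20, NPC, TRC, KUR, VKA, KC, PC; 300 lines).  `hx`: `N_H(u) = {v, a, c}` and `c ~ v`, so contracting `u` into `c` adds only the edge `ac`.  `ux`: `X = J + ac` is in C1 (CRL.add), nonplanar (NPC.mono), `sz X < sz H < sz G` (DST.sz2, sz1).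
`cn`: `N_X(v) = {z, a, c}`, and `z ≁ a, c` in `X`.  `vz`: `R' = contr X v z`.  C1: XC3.c1 for `X`, `v`, `z`: let `(T, P, Q)` be a separation of `X` with `v, z ∈ T`, `P`, `Q` nonempty; `a ~ c` in `X`, so (names) `a, c ∈ T ∪ P`; then `v` has no neighbour in `Q` and `(T - v, insert v P, Q)` is a
separation of `X`; `|T| = 3`: order 2, `X` is 3-connected: contradiction.  `|T| = 4`, `|P|, |Q| ≥ 2`: order 3 with two sides `≥ 2`: `X ∈ C1`: contradiction.  NP: let `w ∈ Z_2(X)`, `vk w ≠ 0`.  The row `w (va) ·` has an even trace at `z` (boundary at `z`), without edges at `v, a, c` (`z ≁ a, c`); for an edge `zy` (`y ≠ v`) the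
boundary of the row `w (zy) ·` at `v` gives `w (va) (zy) = w (vc) (zy)` (`w (vz) (zy) = 0`: not disjoint).  `X - {v, a, c, z}` is connected (C20.three, third part: `G - {u, v, z, a, c}`), so TRC gives `Z ∈ Z1 (X - {v, a, c})` with this trace.  Add the torus `tor (tri v a c) Z` (KUR.tor, VKA.tor, VKA.add; lemma F1NM.addtor): the rows `va`, `vc` are
now `0` at `z`: `Zab v z`; NPC.down.  `sz R' < sz X < sz G`: IH.  `N_X(v)`: VS X = VS G - u (at least 7 vertices; XC3 needs 6). -/
structure SpecYRA : Prop where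
  hx : ∀ {α : Type} [Fintype α] [DecidableEq α] {G : SimpleGraph α} {u v z p a c : α}, P33 G u v z p a c →
    contr (delE G u p) c u = del G {u} ⊔ fromEdgeSet {s(a, c)}
  ux : ∀ {α : Type} [Fintype α] [DecidableEq α] {G : SimpleGraph α} {u v z p a c : α}, YRData G u v z p a c →
    U (contr (delE G u p) c u)
  cn : ∀ {α : Type} [Fintype α] [DecidableEq α] {G : SimpleGraph α} {u v z p a c : α}, YRData G u v z p a c →
    (contr (delE G u p) c u).Adj v z ∧ NoCN (contr (delE G u p) c u) v z
  vz : ∀ {α : Type} [Fintype α] [DecidableEq α] {G : SimpleGraph α} {u v z p a c : α}, YRData G u v z p a c →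
    KConn 3 (contr (contr (delE G u p) c u) v z) ∧ KZ (contr (contr (delE G u p) c u) v z)

/-- **YRB** (from ISO, CRL, NPC, DST, KC; 150 lines).  `G' = contr H v z` is isomorphic to `J'' = J + za + zc`: for the permutation `σ = (swap u v).trans (swap v z)` (`v ↦ u`, `z ↦ v`, `u ↦ z`) `J''.map σ = G'` (map_equiv_adj): `N_{G'}(u) = {v, a, c}` is the image of `N_{J''}(v) = {z, a, c}`; `N_{G'}(v) = {u, a, c} ∪ (N_G(z) - v)`
is the image of `N_{J''}(z) = {v, a, c} ∪ (N_G(z) - v)`; `z` is no vertex of `G'`, `u` none of `J''`.  `J'' ∈ C1` (CRL.add twice; `a`, `c`, `z` are vertices of `J`), NP (NPC.mono), so `G' ∈ C1`, NP (ISO.c1, np); `sz G' < sz H < sz G` (DST.sz2, sz1): IH. -/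
def SpecYRB : Prop := ∀ {α : Type} [Fintype α] [DecidableEq α] {G : SimpleGraph α} {u v z p a c : α},
  YRData G u v z p a c → KConn 3 (contr (delE G u p) v z) ∧ U (contr (delE G u p) v z)

/-- **YRC** (from PC, PC2; 250 lines).  Cycles of `H`.  `cyc`: a path of `N` from `a` to `c` closed by `a w w' c`.  `cls`: `C` has exactly two of the edges `vu, va, vc` at `v`.  (1) `va, vc`: if `u ∈ vs C` then `ua, uc ∈ C` and `C` is the 4-cycle `a v c u`, without `z`; so `u ∉ vs C` and `C` without `va`, `vc` is an `a`-`c` path of `H - u - v =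
N`.  (2) `vu, vc`: the second edge of `C` at `u` is `ua` (if it is `uc`, `C` is the triangle): `C` without `ua, uv, vc` is an `a`-`c` path of `N`.  (3) `vu, va`: the same, `uc`.  `z ∈ vs P` because `z ∈ vs C`, `z ≠ u, v, a, c`.  `tri`: `C` contains `vc` and `ua`, not `uc`: then `uv ∈ C` and as in (2) (`z ∈ vs C` not needed).
`uc`: if `C` contains `vc`, `uc` and `uv` it is the triangle.  `yy`: an inner vertex of a path has a predecessor `y` and a successor `y'`, different. -/
structure SpecYRC : Prop where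
  cyc : ∀ {α : Type} [Fintype α] [DecidableEq α] {G : SimpleGraph α} {u v z p a c : α}, P33 G u v z p a c →
    ∀ i j P, IsPth (del G {u, v}) a c P → IsCyc (delE G u p) (Lf v u a c i j P)
  cls : ∀ {α : Type} [Fintype α] [DecidableEq α] {G : SimpleGraph α} {u v z p a c : α}, P33 G u v z p a c →
    ∀ C, IsCyc (delE G u p) C → v ∈ vs C → z ∈ vs C → s(v, z) ∉ C →
    ∃ P i j, IsPth (del G {u, v}) a c P ∧ z ∈ vs P ∧ (i = false ∨ j = false) ∧ C = Lf v u a c i j P
  tri : ∀ {α : Type} [Fintype α] [DecidableEq α] {G : SimpleGraph α} {u v z p a c : α}, P33 G u v z p a c →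
    ∀ C, IsCyc (delE G u p) C → s(v, c) ∈ C → s(u, a) ∈ C → s(u, c) ∉ C →
    ∃ P, IsPth (del G {u, v}) a c P ∧ C = Lf v u a c true false P
  uc : ∀ {α : Type} [Fintype α] [DecidableEq α] {G : SimpleGraph α} {u v z p a c : α}, P33 G u v z p a c →
    ∀ C, IsCyc (delE G u p) C → s(v, c) ∈ C → s(u, c) ∈ C → s(u, v) ∈ C → C = {s(v, c), s(u, c), s(u, v)}
  yy : ∀ {α : Type} [Fintype α] [DecidableEq α] {N : SimpleGraph α} {z a c : α} {P : Finset (Sym2 α)},
    IsPth N a c P → z ∈ vs P → z ≠ a → z ≠ c → ∃ y y', dirn a y z P = 1 ∧ dirn a z y' P = 1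

/-- **YRD** (from MEA, CTA, CTF, SEF, YRA, YRC, GLU, PC; 300 lines).  Transfer to `X = contr H c u`.  `K = {a}` if `j = false`, `K = {a, v}` if `j = true`; `S = sel H c u K`: the common neighbours of `c` and `u` in `H` are `v`, and `a` if `a ~ c`; `S` is `H` without `ca` (if it is an edge) and without `uv` (`j = false`), resp. without `cv` (`j = true`).
MEA for `H`, `c`, `u`, `K` (YRA.ux): `f = φ` on `CycM S c u`, `φ ∈ F(H)`.  For a cycle `D` of `X = contr S c u` (SEF.adj) let `C_D` be its lift to `S` (CTA.cl, `chi C_D = lft S c u (chi D)`), `f' D := φ C_D = f C_D`; `f' ∈ F(X)` by CTF.down (for `S`; `φ ∈ F(S)` by GLU.mono).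
`zr`: let `D ∈ CycM X v z`, `C = C_D`.  If `v, z ∈ vs C` then `v, z ∈ vs D` (an edge `vx ∈ C` is not `cu`, so `chi C (vx) = chi D (v, mrg c u x)`), so `vz ∈ D`, `vz ∈ C` (`mrg` fixes `v`, `z`): `C ∈ CycM H v z`, `f C = 0`.  `val`: `D = Lf v u a c false false P = P ∪ {va, vc}`, `z ∈ vs P` (so `ac ∉ P`: a path from `a` to `c` through the edge `ac` is `{ac}`); it is a cycle of
`H - u ≤ X`.  `lft S c u (chi D)` is the chain of `Lf v u a c false j P`: edges not at `u`, not `cu`: the same (`j = true`: `vc ∉ S`); `uv`: not in `S` if `j = false`, `mrg`: `vc ∈ D` if `j = true`; `ua`: `mrg`: `ac ∉ D`; `cu`: the number of the edges of `D` at `c` which are in `S` mod 2: `vc` and the last edge of `P` if `j = false`, only the last edge of `P` if `j = true`. -/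
def SpecYRD : Prop := ∀ {α : Type} [Fintype α] [DecidableEq α] {G : SimpleGraph α} {u v z p a c : α}
  {f : Finset (Sym2 α) → ZMod 2}, YRFun G u v z p a c f → ∀ j : Bool,
  ∃ f' : Finset (Sym2 α) → ZMod 2, InF (contr (delE G u p) c u) f' ∧
    (∀ D, CycM (contr (delE G u p) c u) v z D → f' D = 0) ∧
    ∀ P, IsPth (del G {u, v}) a c P → z ∈ vs P → f' (Lf v u a c false false P) = f (Lf v u a c false j P)

/-- **YRE** (from EXM, TRA, YRA, YRC, PC2; 250 lines).  Evaluation of EXM for `X`, `v`, `z` (YRA.cn: no common neighbours, so the `cnp` term is an empty sum): `f' D = Σ_{x, w} ν x w (x_{vx} x_{zw} + coh x v z w D) + ρ (chi D)`.  Let `D = Lf v u a c false false P = P ∪ {va, vc}`, `P` passing `y z y'`.  The edges of `D` at `v` are `va`, `vc`, at `z` `zy`, `zy'`, `y ≠ y'`.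
`D` runs `c v a … y z y' … c`: `coh c v z y' D = 1` (`Rch` of `D - {vc, zy'}` from `v` to `z`: the edge `va`, then `P` up to `z`: `dirn a z y' P = 1`), `coh c v y z D = 1` in the same way (`dirn a y z P = 1`), so `coh c v z y D = 0` (coh_add_swap); in the other direction `coh a v z y D = 1`, `coh a v z y' D = 0`.  So `x_{vc} x_{zw} + coh c v z w D = [w = y]` and `x_{va}
x_{zw} + coh a v z w D = [w = y']` for the neighbours `w ≠ v` of `z`; only `x = a, c` occur (`x ≠ z`).  `ρ (chi D) = ρ (chi {va, vc, zy, zy'})` (TRA.loc).  So `f' D = g y y' := ν c y + ν a y' + ρ (chi {va, vc, zy, zy'})`, and `g y y' + g y' y = κ y + κ y'` for `κ y := ν c y + ν a y`.  [`ν x w` is to be read as `0` if it is not supported: EXM gives the support.] -/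
def SpecYRE : Prop := ∀ {α : Type} [Fintype α] [DecidableEq α] {G : SimpleGraph α} {u v z p a c : α},
  YRData G u v z p a c → ∀ f' : Finset (Sym2 α) → ZMod 2, InF (contr (delE G u p) c u) f' →
  (∀ D, CycM (contr (delE G u p) c u) v z D → f' D = 0) →
  ∃ g κ, LocZ G u v z a c (fun P => f' (Lf v u a c false false P)) g κ

/-- **YRG** (from D4C, RT1, YRC, GLU, POL, DCB; 200 lines).  `ψ P := Σ_{i, j} f (Lf v u a c i j P)`.  For a chain `K` of `del H {v, u} = N` from `a` to `c` D4C (`a := v`, `b := u`, `x := a`, `y := c`) gives a `D_4` minor of `H` with the 16 cycles `Lf v u a c (e 3) (e 2) (K.pth ![e 0, e 1])`: the sum of `ψ` over the four paths of `K` is `0`; RT1: `ψ P = w0 + Σ_{h ∈ P} w h`.  Let `w' h := 0` if `u ∈ h` or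
`v ∈ h`, `w' h := w h` otherwise, and `φ C := (x_{ua} + x_{uc}) x_{vc} (w0 + Σ_{h ∈ C} w' h) + w0 x_{uc} x_{vc} x_{uv}` (`∈ F(H)`: GLU.quad, add).  Let `C` be a cycle of `H` with `φ C ≠ 0`: `vc ∈ C`, `ua` or `uc` in `C`.  Both: the first part is `0`, `uv ∉ C`: no.  Only `uc`: `uv ∈ C` (degree of `u`), `C` is the triangle (YRC.uc), `φ C = w0 + w0`: no.  Only `ua`: YRC.tri: `C = Lf v u a c true false P`,
`φ C = w0 + Σ_{h ∈ P} w h = ψ P`. -/
def SpecYRG : Prop := ∀ {α : Type} [Fintype α] [DecidableEq α] {G : SimpleGraph α} {u v z p a c : α},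
  P33 G u v z p a c → ∀ f, D4even (delE G u p) f → ∃ φ, InF (delE G u p) φ ∧
    (∀ C, IsCyc (delE G u p) C → (∀ P, IsPth (del G {u, v}) a c P → C ≠ Lf v u a c true false P) → φ C = 0) ∧
    ∀ P, IsPth (del G {u, v}) a c P → ∑ i : Bool, ∑ j : Bool, f (Lf v u a c i j P) = φ (Lf v u a c true false P)

/-- **YRH** (from GLU, POL, YRC, PC2; 300 lines).  The elements.  Let `o : α → ℕ` be injective.  `c`: `E C := Σ_w κ' w (x_{vc} x_{zw} + coh c v z w C) + Σ_{o w < o w'} s' w w' x_{vc} x_{zw} x_{zw'}`, where `w`, `w'` run over the neighbours `≠ v` of `z` in `G` (`κ'`, `s'` are `0` otherwise), `κ' = κ`, `s' w w' := g w w' + κ w` (symmetric).  In `F(H)`: GLU.quad, coh1, sum, add.  Zero on `CycM H v z`: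
let `C` be in it.  If `v` or `z ∉ vs C` or `vc ∉ C` every term is `0`.  Otherwise `vz ∈ C`, so `C` has the edges `vc`, `vz` at `v` and `vz`, `zy` at `z`: no two edges `zw`, `zw'`, and if `zw ∈ C` then `w = y` and `coh c v z y C = 1` (the part between is the edge `vz`).  Values: `C = Lf v u a c i false P` runs `c v (u) a … y z y' … c`: `x_{vc} = 1`, `coh c v z y' C = 1`, `coh c v z y C = 0` (as in YRE; for `i = true`
between `v` and `a` there is `u`), so `E C = κ y + s' y y' = g y y'`.  `vc ∉ Lf v u a c false true P`: `E = 0`.  `a`: the same with `x_{va}`, `coh a v z w`, `s' w w' := g w w' + κ w'`: `C = Lf v u a c false j P` runs `a v (u) c … y' z y … a`: `coh a v z y = 1`, `coh a v z y' = 0`, `E C = κ y' + s' y y' = g y y'`; `va ∉ Lf v u a c true false P`. -/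
structure SpecYRH : Prop where
  c : ∀ {α : Type} [Fintype α] [DecidableEq α] {G : SimpleGraph α} {u v z p a c : α}, YRData G u v z p a c →
    ∀ (g : α → α → ZMod 2) (κ : α → ZMod 2), (∀ y y', g y y' + g y' y = κ y + κ y') →
    ∃ E, InF (delE G u p) E ∧ (∀ C, CycM (delE G u p) v z C → E C = 0) ∧
      ∀ P y y', IsPth (del G {u, v}) a c P → dirn a y z P = 1 → dirn a z y' P = 1 →
        E (Lf v u a c false false P) = g y y' ∧ E (Lf v u a c true false P) = g y y' ∧
          E (Lf v u a c false true P) = 0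
  a : ∀ {α : Type} [Fintype α] [DecidableEq α] {G : SimpleGraph α} {u v z p a c : α}, YRData G u v z p a c →
    ∀ (g : α → α → ZMod 2) (κ : α → ZMod 2), (∀ y y', g y y' + g y' y = κ y + κ y') →
    ∃ E, InF (delE G u p) E ∧ (∀ C, CycM (delE G u p) v z C → E C = 0) ∧
      ∀ P y y', IsPth (del G {u, v}) a c P → dirn a y z P = 1 → dirn a z y' P = 1 →
        E (Lf v u a c false false P) = g y y' ∧ E (Lf v u a c false true P) = g y y' ∧
          E (Lf v u a c true false P) = 0

/-- **YRI** (from ME, YRB, YRC, YRD, YRE, YRG, YRH, GLU; 200 lines).  Let `f` be `D_4`-even on `H`.  ME for `vz` (no common neighbours: `N_H(v) = {u, z, a, c}`, `z ≁ u, a, c`; YRB): `f = φ₀` on `CycM H v z`; `f₁ = f + φ₀`: YRFun.  YRG for `f₁`: `φ₁`; `f₂ = f₁ + φ₁` vanishes on `CycM H v z` (a cycle of it which is `Lf v u a c true false P` does not contain `z`, then the four `Lf v u a c i j P` are in CycM and `φ₁ = 0`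
there), and for every `P` through `z` `f₂ (Lf true false P) = f₂ (Lf false false P) + f₂ (Lf false true P)` (`φ₁ = 0` on the other three: they are not of the form `Lf true false P'`, compare the edges at `v` and `u`; `Lf true true P` does not contain `v`: `f₂ = 0`).  YRD (`j = false, true`), YRE: `f₂ (Lf false false P)`, `f₂ (Lf false true P)` are `g₀`, `g₁` (LocZ; `z ∈ vs P` from `dirn`).
YRH.c for `g₀ + g₁`, `κ₀ + κ₁`: `E`, YRH.a for `g₁`, `κ₁`: `E'`.  `f₂ = E + E'` on all cycles `C` of `H`: both sides are `0` on `CycM`; otherwise YRC.cls, YRC.yy: `Lf false false`: `g₀ = (g₀ + g₁) + g₁`; `Lf false true`: `g₁ = 0 + g₁`; `Lf true false`: `g₀ + g₁ = (g₀ + g₁) + 0`.  So `f = φ₀ + φ₁ + E + E'` on the cycles of `H` (GLU.congr). -/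
def SpecYRI : Prop := ∀ {α : Type} [Fintype α] [DecidableEq α] {G : SimpleGraph α} {u v z p a c : α},
  YRData G u v z p a c → U (delE G u p)

/-- **YRJ** (from CRL, DST, NBF, S3F, KC; 200 lines).  `cj`: `u` rigid: `J` is 3-connected (KConn.del_vertex); a separation `(S, P, Q)` of `J`, `|S| = 3`, gives the 4-separation `(insert u S, P, Q)` of `G` (copy of the proof in R1A/CJ1.lean).  `p33`: `delE G u p = dst G u {p}` (DST.one); let `N(u) = {p, x, y, z}`.  CRL.rig (with `P = {p}`): there is `v ~ u` with `dg G v = 4` such that all `w ~ u`, `w ≠ v`, `w ≠ p` are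
neighbours of `v`.  `v` has at most three neighbours outside `N[u]`..: if `v = p`, or if `v ≠ p` and `v ~ p`, then `v` is adjacent to the three other neighbours of `u` and to `u`, so `NB G {u, v}` has three elements: contradiction to KConn 4 (`n ≥ 8`).  So `v ≠ p`, `v ≁ p`, `N(u) = {v, p, a, c}`, `v ~ a, c`, and the fourth neighbour `z` of `v` is not in `{u, v, p, a, c}`: `P33 G u v z p a c`. -/
structure SpecYRJ : Prop where
  cj : ∀ {α : Type} [Fintype α] [DecidableEq α] {G : SimpleGraph α} {u : α}, K48 G → Rig G u → u ∈ VS G →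
    C1 (del G {u})
  p33 : ∀ {α : Type} [Fintype α] [DecidableEq α] {G : SimpleGraph α} {u p : α}, K48 G → Rig G u → dg G u = 4 →
    G.Adj u p → C1 (delE G u p) ∨ ∃ v z a c, P33 G u v z p a c

/-- **YR** (from YRI, YRJ, NPC, DST; 40 lines).  If `delE G u p ∈ C1`: nonplanar (`del G {u} ≤ delE G u p`), smaller: IH.  Otherwise YRJ.p33, the hypothesis on the (3,3)-pairs, YRI. -/
def SpecYR : Prop := ∀ {α : Type} [Fintype α] [DecidableEq α] {G : SimpleGraph α} {u p : α}, K48 G → IH G →
  (∀ x y s₁ s₂ s₃ s₄, P33 G x y s₁ s₂ s₃ s₄ → E4 G s₁ s₂ s₃ s₄) → Rig G u → dg G u = 4 → NP (del G {u}) →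
  G.Adj u p → U (delE G u p)

end DL
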