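import Pool.Agent.DL.Y.SpecYR
import Pool.Agent.DL.K.KY3
import Pool.Agent.DL.NP.TRC
import Pool.Agent.DL.PC

section
/-!
# MP_3ff0f8_gt, ALGEBRA HALF: `KZ (G - up)` for a rigid nonapex vertex `u` of degree 4 (helper25)
-/
open SimpleGraph Finset

namespace DL

/-- **RKZ**.  `u` rigid of degree 4, `G - u` nonplanar, all (3,3)-pairs satisfy `E4`: `KZ (delE G u p)`. -/
def SpecRKZ : Prop := ∀ {α : Type} [Fintype α] [DecidableEq α] {G : SimpleGraph α} {u p : α}, K48 G → IH G →
  (∀ x y s₁ s₂ s₃ s₄, P33 G x y s₁ s₂ s₃ s₄ → E4 G s₁ s₂ s₃ s₄) → Rig G u → dg G u = 4 → NP (del G {u}) →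
  G.Adj u p → KZ (delE G u p)

namespace RKZM

variable {α : Type} [Fintype α] [DecidableEq α]

theorem card3 {a b c : α} : ({a, b, c} : Finset α).card ≤ 3 := card_le_three

/-- a vertex with neighbours in a set of four -/
theorem deg4 (hS3F : SpecS3F) {G : SimpleGraph α} (hG : KConn 4 G) {v b₁ b₂ b₃ b₄ : α} (hv : v ∈ VS G)
    (h : ∀ w, G.Adj v w → w = b₁ ∨ w = b₂ ∨ w = b₃ ∨ w = b₄) : G.Adj v b₁ ∧ G.Adj v b₂ ∧ G.Adj v b₃ ∧ G.Adj v b₄ := by
  classical
  have key : ∀ (x y z w : α), (∀ t, G.Adj v t → t = x ∨ t = y ∨ t = z ∨ t = w) → G.Adj v w := by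
    intro x y z w h
    by_contra hc
    have := hS3F.deg hG v hv {x, y, z} (by
      intro t ht
      simp only [mem_insert, mem_singleton]
      rcases h t ht with h | h | h | rfl
      · exact Or.inl h
      · exact Or.inr (Or.inl h)
      · exact Or.inr (Or.inr h)
      · exact absurd ht hc)
    have h3 : ({x, y, z} : Finset α).card ≤ 3 := card3
    omega
  refine ⟨key b₂ b₃ b₄ b₁ fun t ht => ?_, key b₁ b₃ b₄ b₂ fun t ht => ?_, key b₁ b₂ b₄ b₃ fun t ht => ?_,
    key b₁ b₂ b₃ b₄ h⟩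
  · have := h t ht; tauto
  · have := h t ht; tauto
  · have := h t ht; tauto

/-- no three neighbours -/
theorem no3 (hS3F : SpecS3F) {G : SimpleGraph α} (hG : KConn 4 G) {v b₁ b₂ b₃ : α} (hv : v ∈ VS G)
    (h : ∀ w, G.Adj v w → w = b₁ ∨ w = b₂ ∨ w = b₃) : False := by
  have := hS3F.deg hG v hv {b₁, b₂, b₃} (by
    intro t ht
    simp only [mem_insert, mem_singleton]
    exact h t ht)
  have h3 : ({b₁, b₂, b₃} : Finset α).card ≤ 3 := card3
  omega

/-- adjacency in `J + ac` -/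
theorem adjS {G : SimpleGraph α} {u a c x y : α} :
    (del G {u} ⊔ fromEdgeSet {s(a, c)}).Adj x y ↔
      (G.Adj x y ∧ x ≠ u ∧ y ≠ u) ∨ (((x = a ∧ y = c) ∨ (x = c ∧ y = a)) ∧ x ≠ y) := by
  rw [sup_adj, fromEdgeSet_adj, Set.mem_singleton_iff, Sym2.eq_iff]
  show (G.Adj x y ∧ x ∉ ({u} : Finset α) ∧ y ∉ ({u} : Finset α)) ∨ _ ↔ _
  rw [mem_singleton, mem_singleton]

/-- a neighbour `a` of the pair which has degree 3 in `J + ac` -/
theorem tri3 (hS3F : SpecS3F) {G : SimpleGraph α} (hG : KConn 4 G) {u v z p a c q : α}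
    (hp : P33 G u v z p a c) (hE : ∀ x y s₁ s₂ s₃ s₄, P33 G x y s₁ s₂ s₃ s₄ → E4 G s₁ s₂ s₃ s₄)
    (h : ∀ w, G.Adj a w → w = u ∨ w = v ∨ w = c ∨ w = q) : ¬ G.Adj c q ∧ ¬ G.Adj v q := by
  classical
  have hnd := hp.nd
  simp only [List.nodup_cons, List.mem_cons, List.not_mem_nil, or_false, not_or, List.nodup_nil, and_true,
    not_false_eq_true] at hnd
  have hau : G.Adj u a := (hp.nx a).2 (Or.inr (Or.inr (Or.inl rfl)))
  have hav : a ∈ VS G := right_mem_VS hau
  obtain ⟨h1, h2, h3, h4⟩ := deg4 hS3F hG hav h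
  have hE1 := hE _ _ _ _ _ _ hp
  have hqc : q ≠ c := by
    rintro rfl
    exact no3 hS3F hG hav fun w hw => by have := h w hw; tauto
  have hqu : q ≠ u := by
    rintro rfl
    exact no3 hS3F hG hav fun w hw => by have := h w hw; tauto
  have hqv : q ≠ v := by
    rintro rfl
    exact no3 hS3F hG hav fun w hw => by have := h w hw; tauto
  have hqp : q ≠ p := by
    rintro rfl
    exact hE1.2.2.1 h4.symm
  have hP : P33 G u a q p v c := by
    refine ⟨?_, ?_, ?_⟩
    · simp only [List.nodup_cons, List.mem_cons, List.not_mem_nil, or_false, not_or, List.nodup_nil, and_true,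
        not_false_eq_true]
      refine ⟨⟨hau.ne, hqu.symm, ?_, ?_, ?_⟩, ⟨h4.ne, ?_, ?_, h3.ne⟩, ⟨hqp, hqv, hqc⟩, ⟨?_, ?_⟩, ?_⟩
      all_goals first | tauto | (intro h; simp_all)
    · intro w
      rw [hp.nx]
      tauto
    · intro w
      constructor
      · intro hw
        have := h w hw
        tauto
      · rintro (rfl | rfl | rfl | rfl)
        · exact h1
        · exact h4
        · exact h2
        · exact h3
  have hE2 := hE _ _ _ _ _ _ hP
  exact ⟨fun h => hE2.2.1 h.symm, fun h => hE2.1 h.symm⟩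

/-- S3S of the contraction without an edge -/
theorem s3s (hS3F : SpecS3F) (hC1L : SpecC1L) {G : SimpleGraph α} (hK : K48 G) {u v z p a c : α}
    (hp : P33 G u v z p a c) (hE : ∀ x y s₁ s₂ s₃ s₄, P33 G x y s₁ s₂ s₃ s₄ → E4 G s₁ s₂ s₃ s₄)
    (hC : C1 (del G {u} ⊔ fromEdgeSet {s(a, c)})) (h7 : 7 ≤ (VS (del G {u} ⊔ fromEdgeSet {s(a, c)})).card)
    {x : α} (hx : x = v ∨ x = c ∧ G.Adj a c) :
    S3S (delE (del G {u} ⊔ fromEdgeSet {s(a, c)}) a x) := by
  classical
  have hnd := hp.nd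
  simp only [List.nodup_cons, List.mem_cons, List.not_mem_nil, or_false, not_or, List.nodup_nil, and_true,
    not_false_eq_true] at hnd
  obtain ⟨⟨huv, huz, hup, hua, huc⟩, ⟨hvz, hvp, hva, hvc⟩, ⟨hzp, hza, hzc⟩, ⟨hpa, hpc⟩, hac⟩ := hnd
  replace hua : u ≠ a := hua
  replace huc : u ≠ c := huc
  replace huv : u ≠ v := huv
  replace huz : u ≠ z := huz
  replace hva : v ≠ a := hva
  replace hvc : v ≠ c := hvc
  have aua : G.Adj u a := (hp.nx a).2 (Or.inr (Or.inr (Or.inl rfl)))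
  have auc : G.Adj u c := (hp.nx c).2 (Or.inr (Or.inr (Or.inr rfl)))
  have ava : G.Adj v a := (hp.ny a).2 (Or.inr (Or.inr (Or.inl rfl)))
  have avc : G.Adj v c := (hp.ny c).2 (Or.inr (Or.inr (Or.inr rfl)))
  have hE1 := hE _ _ _ _ _ _ hp
  have hVa : a ∈ VS G := right_mem_VS aua
  have hVc : c ∈ VS G := right_mem_VS auc
  -- the neighbours of `a` in `S`
  have hSa : ∀ y, y ≠ c → y ≠ u → ((del G {u} ⊔ fromEdgeSet {s(a, c)}).Adj a y ↔ G.Adj a y) := by
    intro y h1 h2
    rw [adjS]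
    constructor
    · rintro (h | ⟨h | h, _⟩)
      · exact h.1
      · exact absurd h.2 h1
      · exact absurd h.1 hac
    · intro h
      exact Or.inl ⟨h, hua.symm, h2⟩
  have hSc : ∀ y, y ≠ a → y ≠ u → ((del G {u} ⊔ fromEdgeSet {s(a, c)}).Adj c y ↔ G.Adj c y) := by
    intro y h1 h2
    rw [adjS]
    constructor
    · rintro (h | ⟨h | h, _⟩)
      · exact h.1
      · exact absurd h.1.symm hac
      · exact absurd h.2 h1
    · intro h
      exact Or.inl ⟨h, huc.symm, h2⟩
  have hac' : (del G {u} ⊔ fromEdgeSet {s(a, c)}).Adj a c := adjS.2 (Or.inr ⟨Or.inl ⟨rfl, rfl⟩, hac⟩)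
  have hav' : (del G {u} ⊔ fromEdgeSet {s(a, c)}).Adj a v := (hSa v hvc huv.symm).2 ava.symm
  have hcv' : (del G {u} ⊔ fromEdgeSet {s(a, c)}).Adj c v := (hSc v hva huv.symm).2 avc.symm
  -- neighbours of `a`, `c` in `G`
  have hGa : ∀ q, (∀ y, (del G {u} ⊔ fromEdgeSet {s(a, c)}).Adj a y → y = c ∨ y = q ∨ y = v) →
      ∀ w, G.Adj a w → w = u ∨ w = v ∨ w = c ∨ w = q := by
    intro q h w hw
    by_cases h1 : w = u
    · exact Or.inl h1
    by_cases h2 : w = c
    · exact Or.inr (Or.inr (Or.inl h2))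
    have := h w ((hSa w h2 h1).2 hw)
    tauto
  have hGc : ∀ q, (∀ y, (del G {u} ⊔ fromEdgeSet {s(a, c)}).Adj c y → y = a ∨ y = q ∨ y = v) →
      ∀ w, G.Adj c w → w = u ∨ w = v ∨ w = a ∨ w = q := by
    intro q h w hw
    by_cases h1 : w = u
    · exact Or.inl h1
    by_cases h2 : w = a
    · exact Or.inr (Or.inr (Or.inl h2))
    have := h w ((hSc w h2 h1).2 hw)
    tauto
  -- nonadjacency in `S`
  have hnS : ∀ {y w : α}, ¬ G.Adj y w → ¬ ((y = a ∧ w = c) ∨ (y = c ∧ w = a)) →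
      ¬ (del G {u} ⊔ fromEdgeSet {s(a, c)}).Adj y w := by
    intro y w h1 h2 h3
    rcases adjS.1 h3 with h | h
    · exact h1 h.1
    · exact h2 h.1
  have hp' := hp.sym2
  rcases hx with rfl | ⟨rfl, hacG⟩
  · -- the edge `a v`
    refine hC1L _ a x hC h7 hav' ?_ ?_
    · intro p' q' h
      have hc : c = p' ∨ c = q' := by
        rcases (h c).1 hac' with h1 | h1 | h1
        · exact Or.inl h1
        · exact Or.inr h1
        · exact absurd h1.symm hvc
      rcases hc with rfl | rfl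
      · have h1 := tri3 hS3F hK.1 hp hE (hGa q' fun y hy => (h y).1 hy)
        refine hnS h1.1 ?_
        rintro (⟨h2, _⟩ | ⟨_, h2⟩)
        · exact hac h2.symm
        · subst h2
          exact ((h q').2 (Or.inr (Or.inl rfl))).ne rfl
      · have h1 := tri3 hS3F hK.1 hp hE (hGa p' fun y hy => by have := (h y).1 hy; tauto)
        refine hnS (fun h2 => h1.1 h2.symm) ?_
        rintro (⟨h2, _⟩ | ⟨_, h2⟩)
        · subst h2
          exact ((h p').2 (Or.inl rfl)).ne rfl
        · exact hac h2.symm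
    · intro p' q' h
      -- the neighbours of `v` are `z, a, c`
      have hzv : (del G {u} ⊔ fromEdgeSet {s(a, c)}).Adj x z :=
        adjS.2 (Or.inl ⟨(hp.ny z).2 (Or.inr (Or.inl rfl)), huv.symm, huz.symm⟩)
      have hz := (h z).1 hzv
      have hc := (h c).1 hcv'.symm
      have hzc' : ¬ G.Adj z c := fun h => hE1.2.1 h
      rcases hz with rfl | rfl | h1
      · rcases hc with h2 | rfl | h2
        · exact absurd h2.symm hzc
        · refine hnS hzc' ?_
          rintro (⟨h2, _⟩ | ⟨h2, _⟩)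
          · exact hza h2
          · exact hzc h2
        · exact absurd h2.symm hac
      · rcases hc with rfl | h2 | h2
        · refine hnS (fun h2 => hzc' h2.symm) ?_
          rintro (⟨_, h2⟩ | ⟨_, h2⟩)
          · exact hzc h2
          · exact hza h2
        · exact absurd h2.symm hzc
        · exact absurd h2.symm hac
      · exact absurd h1 hza
  · -- the edge `a c`
    refine hC1L _ a x hC h7 hac' ?_ ?_
    · intro p' q' h
      have hv : v = p' ∨ v = q' := by
        rcases (h v).1 hav' with h1 | h1 | h1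
        · exact Or.inl h1
        · exact Or.inr h1
        · exact absurd h1 hvc
      rcases hv with rfl | rfl
      · have h1 := tri3 hS3F hK.1 hp hE (hGa q' fun y hy => by have := (h y).1 hy; tauto)
        refine hnS h1.2 ?_
        rintro (⟨h2, _⟩ | ⟨h2, _⟩)
        · exact hva h2
        · exact hvc h2
      · have h1 := tri3 hS3F hK.1 hp hE (hGa p' fun y hy => by have := (h y).1 hy; tauto)
        refine hnS (fun h2 => h1.2 h2.symm) ?_
        rintro (⟨_, h2⟩ | ⟨_, h2⟩)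
        · exact hvc h2
        · exact hva h2
    · intro p' q' h
      have hv : v = p' ∨ v = q' := by
        rcases (h v).1 hcv' with h1 | h1 | h1
        · exact Or.inl h1
        · exact Or.inr h1
        · exact absurd h1 hva
      rcases hv with rfl | rfl
      · have h1 := tri3 hS3F hK.1 hp' hE (hGc q' fun y hy => by have := (h y).1 hy; tauto)
        refine hnS h1.2 ?_
        rintro (⟨h2, _⟩ | ⟨h2, _⟩)
        · exact hva h2
        · exact hvc h2
      · have h1 := tri3 hS3F hK.1 hp' hE (hGc p' fun y hy => by have := (h y).1 hy; tauto)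
        refine hnS (fun h2 => h1.2 h2.symm) ?_
        rintro (⟨_, h2⟩ | ⟨_, h2⟩)
        · exact hvc h2
        · exact hva h2

end RKZM

open RKZM in
theorem specRKZ (hKY4 : SpecKY4) (hYRA : SpecYRA) (hYRJ : SpecYRJ) (hDST : SpecDST) (hCRL : SpecCRL)
    (hNPC : SpecNPC) (hS3F : SpecS3F) (hC1L : SpecC1L) (hC20 : SpecC20) : SpecRKZ := by
  classical
  intro α _ _ G u p hK hIH hE hR hd hN hup
  have hle : del G {u} ≤ delE G u p := by
    rw [← hDST.one]
    exact hDST.dle G u {p}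
  have hleG : delE G u p ≤ G := by
    rw [← hDST.one]
    exact hDST.le G u {p}
  have hszE : sz (delE G u p) < sz G := by
    rw [← hDST.one]
    exact hDST.sz4 hup (mem_singleton_self p)
  have huV : u ∈ VS G := left_mem_VS hup
  rcases hYRJ.p33 hK hR hd hup with hC | ⟨v, z, a, c, hp⟩
  · exact (hIH _ hszE hC (hNPC.mono hle hN)).2
  have hJ := hYRJ.cj hK hR huV
  have hnd := hp.nd
  simp only [List.nodup_cons, List.mem_cons, List.not_mem_nil, or_false, not_or, List.nodup_nil, and_true,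
    not_false_eq_true] at hnd
  obtain ⟨⟨huv, huz, hup', hua, huc⟩, ⟨hvz, hvp, hva, hvc⟩, ⟨hzp, hza, hzc⟩, ⟨hpa, hpc⟩, hac⟩ := hnd
  replace hua : u ≠ a := hua
  replace huc : u ≠ c := huc
  replace huv : u ≠ v := huv
  replace huz : u ≠ z := huz
  replace hva : v ≠ a := hva
  replace hvc : v ≠ c := hvc
  have aua : G.Adj u a := (hp.nx a).2 (Or.inr (Or.inr (Or.inl rfl)))
  have auc : G.Adj u c := (hp.nx c).2 (Or.inr (Or.inr (Or.inr rfl)))
  have auv : G.Adj u v := (hp.nx v).2 (Or.inl rfl)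
  have ava : G.Adj v a := (hp.ny a).2 (Or.inr (Or.inr (Or.inl rfl)))
  have avc : G.Adj v c := (hp.ny c).2 (Or.inr (Or.inr (Or.inr rfl)))
  have hA : ∀ x y, (delE G u p).Adj x y ↔ G.Adj x y ∧ ¬ (x = u ∧ y = p) ∧ ¬ (y = u ∧ x = p) := by
    intro x y
    rw [← hDST.one, hDST.adj]
    simp only [mem_singleton]
  have hVJ : VS (del G {u}) = (VS G).erase u := (hS3F.del (k := 3) u (by norm_num) hK.1).2
  have hmJ : ∀ {x}, x ∈ VS G → x ≠ u → x ∈ VS (del G {u}) := by
    intro x h1 h2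
    rw [hVJ]
    exact mem_erase.2 ⟨h2, h1⟩
  have haJ : a ∈ VS (del G {u}) := hmJ (right_mem_VS aua) hua.symm
  have hcJ : c ∈ VS (del G {u}) := hmJ (right_mem_VS auc) huc.symm
  have hvJ : v ∈ VS (del G {u}) := hmJ (right_mem_VS auv) huv.symm
  have hS1 : contr (delE G u p) c u = del G {u} ⊔ fromEdgeSet {s(a, c)} := hYRA.hx hp
  have hS2 : contr (delE G u p) a u = del G {u} ⊔ fromEdgeSet {s(a, c)} := by
    rw [hYRA.hx hp.sym2, Sym2.eq_swap]
  obtain ⟨hC1S, hVS⟩ := hCRL.add hJ haJ hcJ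
  have hNS : NP (del G {u} ⊔ fromEdgeSet {s(a, c)}) := hNPC.mono le_sup_left hN
  have hszS : sz (del G {u} ⊔ fromEdgeSet {s(a, c)}) < sz G := by
    rw [← hS1]
    exact (hDST.sz2 ((hA c u).2 ⟨auc.symm, fun h => huc h.1.symm, fun h => hpc h.2.symm⟩)).trans hszE
  have hKS : KZ (del G {u} ⊔ fromEdgeSet {s(a, c)}) := (hIH _ hszS hC1S hNS).2
  have h7 : 7 ≤ (VS (del G {u} ⊔ fromEdgeSet {s(a, c)})).card := by
    rw [hVS, hVJ, card_erase_of_mem huV]
    have := hK.2
    omega
  have hdel : del (delE G u p) {u} = del G {u} := by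
    rw [← hDST.one]
    exact hDST.dld G u {p}
  refine hKY4 (u := u) (t₁ := a) (t₂ := c) (t₃ := v) hac hva.symm hvc.symm ?_ ?_ ?_ ?_ ?_ ?_ ?_ ?_ ?_ ?_ ?_
  · intro x
    rw [hA, hp.nx]
    constructor
    · rintro ⟨h1 | h1 | h1 | h1, h2, -⟩
      · exact Or.inr (Or.inr h1)
      · exact absurd ⟨rfl, h1⟩ h2
      · exact Or.inl h1
      · exact Or.inr (Or.inl h1)
    · rintro (rfl | rfl | rfl)
      · exact ⟨Or.inr (Or.inr (Or.inl rfl)), fun h => hpa h.2.symm, fun h => hua h.1.symm⟩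
      · exact ⟨Or.inr (Or.inr (Or.inr rfl)), fun h => hpc h.2.symm, fun h => huc h.1.symm⟩
      · exact ⟨Or.inl rfl, fun h => hvp h.2, fun h => huv h.1.symm⟩
  · rw [hdel]
    exact hS3F.k3 hJ.1
  · rw [hdel]; exact hcJ
  · rw [hdel]; exact hvJ
  · -- `G - {u, v, a, c}` is connected
    have h1 := (hC20.two hK hp).2.1
    have h2 : ({u, a, c, v} : Finset α) = {u, v, a, c} := by
      ext w
      simp only [mem_insert, mem_singleton]
      tauto
    intro x hx y hy hxS hyS
    have h3 : del (delE G u p) {u, a, c, v} = del G {u, v, a, c} := by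
      rw [h2]
      ext x y
      show ((delE G u p).Adj x y ∧ x ∉ ({u, v, a, c} : Finset α) ∧ y ∉ ({u, v, a, c} : Finset α)) ↔
        (G.Adj x y ∧ x ∉ ({u, v, a, c} : Finset α) ∧ y ∉ ({u, v, a, c} : Finset α))
      rw [hA]
      constructor
      · rintro ⟨h, h'⟩
        exact ⟨h.1, h'⟩
      · rintro ⟨h, h', h''⟩
        refine ⟨⟨h, fun e => h' ?_, fun e => h'' ?_⟩, h', h''⟩
        · rw [e.1]; simp
        · rw [e.1]; simp
    rw [h3]
    have hmono : VS (delE G u p) ⊆ VS G := by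
      intro w hw
      obtain ⟨w', hw'⟩ := mem_VS.1 hw
      exact mem_VS.2 ⟨w', hleG hw'⟩
    rw [h2] at hxS hyS
    exact h1 x (hmono hx) y (hmono hy) hxS hyS
  · rw [hS2]; exact hKS
  · rw [hS1]; exact hKS
  · rw [hS2]; exact Or.inr hC1S.1
  · rw [hS1]; exact Or.inr hC1S.1
  · intro x h1 h2
    rw [hS2]
    refine s3s hS3F hC1L hK hp hE hC1S h7 ?_
    rw [hA] at h1 h2
    rcases (hp.nx x).1 h2.1 with h3 | h3 | h3 | h3
    · exact Or.inl h3
    · exact absurd ⟨rfl, h3⟩ h2.2.1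
    · exact absurd h3.symm h1.1.ne
    · refine Or.inr ⟨h3, ?_⟩
      rw [← h3]
      exact h1.1
  · intro x h1 h2
    have e : (del G {u} ⊔ fromEdgeSet {s(a, c)} : SimpleGraph α) = del G {u} ⊔ fromEdgeSet {s(c, a)} := by
      rw [Sym2.eq_swap]
    rw [hS1, e]
    refine s3s hS3F hC1L hK hp.sym2 hE (e ▸ hC1S) (e ▸ h7) ?_
    rw [hA] at h1 h2
    rcases (hp.nx x).1 h2.1 with h3 | h3 | h3 | h3
    · exact Or.inl h3
    · exact absurd ⟨rfl, h3⟩ h2.2.1
    · refine Or.inr ⟨h3, ?_⟩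
      rw [← h3]
      exact h1.1
    · exact absurd h3.symm h1.1.ne

end DL
end

section
/-!
# YR: `U (delE G u p)` for a rigid vertex `u` of degree 4 with `G - u` nonplanar
-/
open SimpleGraph Finset

namespace DL

theorem specYR (hYRI : SpecYRI) (hYRJ : SpecYRJ) (hNPC : SpecNPC) (hDST : SpecDST) : SpecYR := by
  classical
  intro α _ _ G u p hK hIH hE hR hd hN hup
  have hne : delE G u p ≠ G := by
    intro he
    have h1 : (delE G u p).Adj u p := by rw [he]; exact hup
    unfold delE at h1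
    rw [deleteEdges_adj] at h1
    exact h1.2 rfl
  have hle : delE G u p ≤ G := deleteEdges_le _
  rcases hYRJ.p33 hK hR hd hup with hC | ⟨v, z, a, c, hp⟩
  · have hNP : NP (delE G u p) := by
      refine hNPC.mono ?_ hN
      have := hDST.dle G u {p}
      rwa [hDST.one] at this
    exact (hIH _ (hDST.sz1 hle hne) hC hNP).1
  · have h4 := hE _ _ _ _ _ _ hp
    exact hYRI ⟨hK, hIH, hYRJ.cj hK hR (by rw [mem_VS]; exact ⟨p, hup⟩), hN, hp, h4.1, h4.2.1⟩

end DL
end

section
/-!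
# YRA: graph facts
-/
open SimpleGraph Finset

set_option linter.unusedSectionVars false

namespace DL

namespace YRAM

variable {α : Type} [Fintype α] [DecidableEq α] {G : SimpleGraph α} {u v z p a c : α}

theorem nes (h : P33 G u v z p a c) : u ≠ v ∧ u ≠ z ∧ u ≠ p ∧ u ≠ a ∧ u ≠ c ∧ v ≠ z ∧ v ≠ p ∧
    v ≠ a ∧ v ≠ c ∧ z ≠ p ∧ z ≠ a ∧ z ≠ c ∧ p ≠ a ∧ p ≠ c ∧ a ≠ c := by
  have hnd' := h.nd
  simp only [List.nodup_cons, List.mem_cons, List.not_mem_nil, or_false, not_or, List.nodup_nil, and_true,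
    not_false_eq_true] at hnd'
  obtain ⟨⟨h1, h2, h3, h4, h5⟩, ⟨h6, h7, h8, h9⟩, ⟨h10, h11, h12⟩, ⟨h13, h14⟩, h15⟩ := hnd'
  exact ⟨h1, h2, h3, h4, h5, h6, h7, h8, h9, h10, h11, h12, h13, h14, h15⟩

/-- the graph `X = J + ac` -/
abbrev XX (G : SimpleGraph α) (u a c : α) : SimpleGraph α := del G {u} ⊔ fromEdgeSet {s(a, c)}

theorem xx_adj {x y : α} : (XX G u a c).Adj x y ↔ (G.Adj x y ∧ x ≠ u ∧ y ≠ u) ∨ (s(x, y) = s(a, c) ∧ x ≠ y) := by
  simp only [XX, SimpleGraph.sup_adj, fromEdgeSet_adj, Set.mem_singleton_iff]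
  simp only [del, mem_singleton]

/-- the neighbours of `v` in `X` -/
theorem xx_v (h : P33 G u v z p a c) {x : α} : (XX G u a c).Adj v x ↔ x = z ∨ x = a ∨ x = c := by
  obtain ⟨nuv, nuz, nup, nua, nuc, nvz, nvp, nva, nvc, nzp, nza, nzc, npa, npc, nac⟩ := nes h
  rw [xx_adj, h.ny]
  constructor
  · rintro (⟨h1, h2, h3⟩ | ⟨h1, h2⟩)
    · tauto
    · rw [Sym2.eq_iff] at h1
      rcases h1 with ⟨h1, -⟩ | ⟨h1, -⟩
      · exact absurd h1 nva
      · exact absurd h1 nvc
  · rintro (rfl | rfl | rfl)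
    · exact Or.inl ⟨Or.inr (Or.inl rfl), nuv.symm, nuz.symm⟩
    · exact Or.inl ⟨Or.inr (Or.inr (Or.inl rfl)), nuv.symm, nua.symm⟩
    · exact Or.inl ⟨Or.inr (Or.inr (Or.inr rfl)), nuv.symm, nuc.symm⟩

theorem xx_ac (h : P33 G u v z p a c) : (XX G u a c).Adj a c :=
  xx_adj.2 (Or.inr ⟨rfl, (nes h).2.2.2.2.2.2.2.2.2.2.2.2.2.2⟩)

/-- the neighbours of `z` in `X` -/
theorem xx_z (h : P33 G u v z p a c) {x : α} (hx : (XX G u a c).Adj z x) : G.Adj z x := by
  obtain ⟨nuv, nuz, nup, nua, nuc, nvz, nvp, nva, nvc, nzp, nza, nzc, npa, npc, nac⟩ := nes h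
  rw [xx_adj] at hx
  rcases hx with ⟨h1, -⟩ | ⟨h1, -⟩
  · exact h1
  · rw [Sym2.eq_iff] at h1
    rcases h1 with ⟨h1, -⟩ | ⟨h1, -⟩
    · exact absurd h1 nza
    · exact absurd h1 nzc

theorem hx_eq (h : P33 G u v z p a c) : contr (delE G u p) c u = XX G u a c := by
  obtain ⟨nuv, nuz, nup, nua, nuc, nvz, nvp, nva, nvc, nzp, nza, nzc, npa, npc, nac⟩ := nes h
  ext x y
  rw [contr_adj, xx_adj, delE_adj, delE_adj, delE_adj]
  constructor
  · rintro ⟨hx, hy, hxy, ⟨h1, -⟩ | ⟨rfl, h1, h2⟩ | ⟨rfl, h1, h2⟩⟩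
    · exact Or.inl ⟨h1, hx, hy⟩
    · rcases (h.nx y).1 h1 with rfl | rfl | rfl | rfl
      · exact Or.inl ⟨((h.ny _).2 (Or.inr (Or.inr (Or.inr rfl)))).symm, hx, hy⟩
      · exact absurd rfl h2
      · exact Or.inr ⟨Sym2.eq_swap, hxy⟩
      · exact absurd rfl hxy
    · rcases (h.nx x).1 h1.symm with rfl | rfl | rfl | rfl
      · exact Or.inl ⟨(h.ny _).2 (Or.inr (Or.inr (Or.inr rfl))), hx, hy⟩
      · exact absurd Sym2.eq_swap h2
      · exact Or.inr ⟨rfl, hxy⟩
      · exact absurd rfl hxy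
  · rintro (⟨h1, hx, hy⟩ | ⟨h1, hxy⟩)
    · refine ⟨hx, hy, h1.ne, Or.inl ⟨h1, ?_⟩⟩
      intro he
      rw [Sym2.eq_iff] at he
      rcases he with ⟨he, -⟩ | ⟨-, he⟩
      · exact hx he
      · exact hy he
    · have hua : G.Adj u a := (h.nx a).2 (Or.inr (Or.inr (Or.inl rfl)))
      have hne : s(u, a) ≠ s(u, p) := by
        intro he
        rw [Sym2.eq_iff] at he
        rcases he with ⟨-, he⟩ | ⟨he, -⟩
        · exact npa he.symm
        · exact nup he
      rw [Sym2.eq_iff] at h1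
      rcases h1 with ⟨rfl, rfl⟩ | ⟨rfl, rfl⟩
      · exact ⟨nua.symm, nuc.symm, hxy, Or.inr (Or.inr ⟨rfl, hua.symm, by rw [Sym2.eq_swap]; exact hne⟩)⟩
      · exact ⟨nuc.symm, nua.symm, hxy, Or.inr (Or.inl ⟨rfl, hua, hne⟩)⟩

theorem zmod2_eq_of_add {x y : ZMod 2} (h : x + y = 0) : x = y := by
  revert h; revert x y; decide

theorem ua (h : P33 G u v z p a c) : G.Adj u a := (h.nx a).2 (Or.inr (Or.inr (Or.inl rfl)))
theorem uc (h : P33 G u v z p a c) : G.Adj u c := (h.nx c).2 (Or.inr (Or.inr (Or.inr rfl)))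
theorem up (h : P33 G u v z p a c) : G.Adj u p := (h.nx p).2 (Or.inr (Or.inl rfl))
theorem va (h : P33 G u v z p a c) : G.Adj v a := (h.ny a).2 (Or.inr (Or.inr (Or.inl rfl)))
theorem vc (h : P33 G u v z p a c) : G.Adj v c := (h.ny c).2 (Or.inr (Or.inr (Or.inr rfl)))
theorem vz (h : P33 G u v z p a c) : G.Adj v z := (h.ny z).2 (Or.inr (Or.inl rfl))

theorem vs_J (hG : K48 G) : VS (del G {u}) = VS G \ {u} :=
  hG.1.VS_del (by rw [card_singleton]; norm_num)

theorem mem_J (hG : K48 G) {w : α} (hw : w ∈ VS G) (hwu : w ≠ u) : w ∈ VS (del G {u}) := by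
  rw [vs_J hG, mem_sdiff, mem_singleton]
  exact ⟨hw, hwu⟩

/-- `X` is in C1 and smaller than `G` -/
theorem xx_facts (hCRL : SpecCRL) (hDST : SpecDST) (hNPC : SpecNPC) (hd : YRData G u v z p a c) :
    C1 (XX G u a c) ∧ VS (XX G u a c) = VS G \ {u} ∧ NP (XX G u a c) ∧ sz (XX G u a c) < sz G := by
  obtain ⟨nuv, nuz, nup, nua, nuc, nvz, nvp, nva, nvc, nzp, nza, nzc, npa, npc, nac⟩ := nes hd.p33
  have h1 := hCRL.add hd.cj (mem_J hd.k48 (right_mem_VS (ua hd.p33)) nua.symm)
    (mem_J hd.k48 (right_mem_VS (uc hd.p33)) nuc.symm)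
  refine ⟨h1.1, h1.2.trans (vs_J hd.k48), hNPC.mono le_sup_left hd.npj, ?_⟩
  rw [← hx_eq hd.p33]
  have hHc : (delE G u p).Adj c u := by
    rw [delE_adj]
    refine ⟨(uc hd.p33).symm, ?_⟩
    intro he
    rw [Sym2.eq_iff] at he
    rcases he with ⟨he, -⟩ | ⟨he, -⟩
    · exact nuc he.symm
    · exact npc he.symm
  refine (hDST.sz2 hHc).trans (hDST.sz1 (delE_le _ _ _) ?_)
  intro he
  have h2 : (delE G u p).Adj u p := by rw [he]; exact up hd.p33
  rw [delE_adj] at h2
  exact h2.2 rfl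

theorem xx_cn (hd : YRData G u v z p a c) : (XX G u a c).Adj v z ∧ NoCN (XX G u a c) v z := by
  refine ⟨(xx_v hd.p33).2 (Or.inl rfl), ?_⟩
  rintro x ⟨h1, h2⟩
  rcases (xx_v hd.p33).1 h1 with rfl | rfl | rfl
  · exact h2.ne rfl
  · exact hd.za (xx_z hd.p33 h2)
  · exact hd.zc (xx_z hd.p33 h2)

/-- moving `v` in a separation of `X` -/
theorem sep_move (hd : YRData G u v z p a c) {T P Q : Finset α} (hS : Sep (XX G u a c) T P Q) (hv : v ∈ T)
    (hz : z ∈ T) (ha : a ∉ Q) (hc : c ∉ Q) : Sep (XX G u a c) (T.erase v) Q (insert v P) := by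
  refine hS.symm.move hv fun w hw hwv => ?_
  rcases (xx_v hd.p33).1 hwv.symm with rfl | rfl | rfl
  · exact Finset.disjoint_left.1 hS.2.2.1 hz hw
  · exact ha hw
  · exact hc hw

theorem ac_side (hd : YRData G u v z p a c) {T P Q : Finset α} (hS : Sep (XX G u a c) T P Q) :
    (a ∉ Q ∧ c ∉ Q) ∨ (a ∉ P ∧ c ∉ P) := by
  have hac := xx_ac hd.p33
  have h1 := hS.2.2.2.2
  have h2 := Finset.disjoint_left.1 hS.2.2.2.1
  by_cases ha : a ∈ Q
  · right
    refine ⟨fun h => h2 h ha, fun h => h1 c h a ha hac.symm⟩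
  · by_cases hc : c ∈ Q
    · right
      exact ⟨fun h => h1 a h c hc hac, fun h => h2 h hc⟩
    · exact Or.inl ⟨ha, hc⟩

theorem vz_c1 (hXC3 : SpecXC3) (hd : YRData G u v z p a c) (hX : C1 (XX G u a c))
    (hV : VS (XX G u a c) = VS G \ {u}) : C1 (contr (XX G u a c) v z) := by
  refine hXC3.c1 hX ?_ (xx_cn hd).1 ?_ ?_
  · rw [hV]
    have h1 := card_sdiff_add_card (VS G) {u}
    have h2 : (VS G).card ≤ (VS G ∪ {u}).card := card_le_card subset_union_left
    rw [card_singleton] at h1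
    have h3 := hd.k48.2
    omega
  · -- three vertices
    have key : ∀ T P Q, Sep (XX G u a c) T P Q → T.card = 3 → v ∈ T → z ∈ T → a ∉ Q → c ∉ Q → Q = ∅ := by
      intro T P Q hS hT hv hz ha hc
      by_contra hQ
      have h1 := hX.1.le_of_sep (sep_move hd hS hv hz ha hc) (nonempty_iff_ne_empty.2 hQ) (insert_nonempty _ _)
      rw [card_erase_of_mem hv, hT] at h1
      omega
    intro T P Q hS hT hv hz
    rcases ac_side hd hS with ⟨ha, hc⟩ | ⟨ha, hc⟩
    · exact Or.inr (key T P Q hS hT hv hz ha hc)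
    · exact Or.inl (key T Q P hS.symm hT hv hz ha hc)
  · have key : ∀ T P Q, Sep (XX G u a c) T P Q → T.card = 4 → v ∈ T → z ∈ T → a ∉ Q → c ∉ Q →
        P.card ≤ 1 ∨ Q.card ≤ 1 := by
      intro T P Q hS hT hv hz ha hc
      rcases hX.2 _ _ _ (sep_move hd hS hv hz ha hc) (by rw [card_erase_of_mem hv, hT]) with h | h
      · exact Or.inr h
      · exact Or.inl ((card_le_card (subset_insert _ _)).trans h)
    intro T P Q hS hT hv hz
    rcases ac_side hd hS with ⟨ha, hc⟩ | ⟨ha, hc⟩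
    · exact key T P Q hS hT hv hz ha hc
    · exact (key T Q P hS.symm hT hv hz ha hc).symm

theorem vz_conn (hC20 : SpecC20) (hd : YRData G u v z p a c) (hV : VS (XX G u a c) = VS G \ {u}) :
    ConnOff (XX G u a c) (insert z {v, a, c}) := by
  intro s hs t ht hs' ht'
  rw [hV, mem_sdiff, mem_singleton] at hs ht
  have h1 := (hC20.three hd.k48 hd.p33).2.2.1
  simp only [mem_insert, mem_singleton, not_or] at hs' ht'
  refine (h1 s hs.1 t ht.1 ?_ ?_).mono ?_
  · simp only [mem_insert, mem_singleton, not_or]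
    exact ⟨hs.2, hs'.2.1, hs'.1, hs'.2.2.1, hs'.2.2.2⟩
  · simp only [mem_insert, mem_singleton, not_or]
    exact ⟨ht.2, ht'.2.1, ht'.1, ht'.2.2.1, ht'.2.2.2⟩
  · intro x y hxy
    have h2 : G.Adj x y ∧ x ∉ ({u, v, z, a, c} : Finset α) ∧ y ∉ ({u, v, z, a, c} : Finset α) := hxy
    simp only [mem_insert, mem_singleton, not_or] at h2
    obtain ⟨h3, ⟨x1, x2, x3, x4, x5⟩, ⟨y1, y2, y3, y4, y5⟩⟩ := h2
    refine ⟨xx_adj.2 (Or.inl ⟨h3, x1, y1⟩), ?_, ?_⟩
    · simp only [mem_insert, mem_singleton, not_or]; exact ⟨x3, x2, x4, x5⟩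
    · simp only [mem_insert, mem_singleton, not_or]; exact ⟨y3, y2, y4, y5⟩

open F1NM in
theorem vz_np (hVKA : SpecVKA) (hKUR : SpecKUR) (hNPC : SpecNPC) (hTRC : SpecTRC) (hd : YRData G u v z p a c)
    (hconn : ConnOff (XX G u a c) (insert z {v, a, c})) (hNP : NP (XX G u a c)) :
    NP (contr (XX G u a c) v z) := by
  classical
  obtain ⟨nuv, nuz, nup, nua, nuc, nvz, nvp, nva, nvc, nzp, nza, nzc, npa, npc, nac⟩ := nes hd.p33
  obtain ⟨r, hr, w, hw, hv⟩ := hNP
  have hXa : (XX G u a c).Adj v a := (xx_v hd.p33).2 (Or.inr (Or.inl rfl))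
  have hXc : (XX G u a c).Adj v c := (xx_v hd.p33).2 (Or.inr (Or.inr rfl))
  have hXac := xx_ac hd.p33
  have hz : z ∉ ({v, a, c} : Finset α) := by
    simp only [mem_insert, mem_singleton, not_or]
    exact ⟨nvz.symm, nza, nzc⟩
  have hT1 : ∀ e, (if z ∈ e then w s(v, a) e else 0) ≠ 0 →
      e ∈ (del (XX G u a c) {v, a, c}).edgeSet ∧ z ∈ e := by
    intro e he
    have hze : z ∈ e := by
      by_contra h
      exact he (if_neg h)
    rw [if_pos hze] at he
    obtain ⟨-, h2, h3⟩ := hw.2.1 _ _ he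
    refine ⟨?_, hze⟩
    obtain ⟨t, rfl⟩ := Sym2.mem_iff_exists.1 hze
    rw [mem_edgeSet] at h2
    rw [mem_edgeSet, del_adj]
    refine ⟨h2, hz, ?_⟩
    simp only [mem_insert, mem_singleton, not_or]
    refine ⟨?_, ?_, ?_⟩
    · rintro rfl; exact h3 t ⟨by simp, by simp⟩
    · rintro rfl; exact h3 t ⟨by simp, by simp⟩
    · rintro rfl; exact hd.zc (xx_z hd.p33 h2)
  have hT2 : ∑ e, (if z ∈ e then w s(v, a) e else 0) = 0 := by
    rw [← sum_filter]
    have := hw.2.2 s(v, a) z (by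
      rw [Sym2.mem_iff]
      rintro (h | h)
      · exact nvz h.symm
      · exact nza h)
    convert this using 2
  obtain ⟨Z, hZ, hZe⟩ := hTRC (XX G u a c) {v, a, c} z hz hconn
    (fun e => if z ∈ e then w s(v, a) e else 0) hT1 hT2
  have hZz : ∀ e, z ∈ e → Z e = w s(v, a) e := fun e he => by rw [hZe e he, if_pos he]
  obtain ⟨hz1, hv1⟩ := addtor hVKA hKUR hr hw {v, a, c} (tri_mem hXa hXac hXc)
    (fun e x he hx => tri_supp e x he hx) hZ
  set w' : Sym2 α → Sym2 α → ZMod 2 := fun e f => w e f + tor (tri v a c) Z e f with hw'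
  have hZv : ∀ t, Z s(v, t) = 0 := by
    intro t
    by_contra h
    exact notMem_of_mem_del ((mem_Z1.1 hZ).1 _ h) (Sym2.mem_mk_left v t) (by simp)
  have ta : tri v a c s(v, a) = 1 := by unfold tri; rw [chi_of_mem]; simp
  have tc : tri v a c s(v, c) = 1 := by unfold tri; rw [chi_of_mem]; simp
  have ka : ∀ f, z ∈ f → w' s(v, a) f = 0 := by
    intro f hf
    simp only [hw', tor, ta, hZv, hZz f hf]
    ring_nf
    rw [show (2 : ZMod 2) = 0 from rfl, mul_zero]
  have eac : ∀ f, z ∈ f → w s(v, a) f = w s(v, c) f := by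
    intro f hf
    by_cases hvf : v ∈ f
    · rw [show w s(v, a) f = 0 from ?_, show w s(v, c) f = 0 from ?_]
      · by_contra h; exact (hw.2.1 _ _ h).2.2 v ⟨by simp, hvf⟩
      · by_contra h; exact (hw.2.1 _ _ h).2.2 v ⟨by simp, hvf⟩
    · have hb := hw.2.2 f v hvf
      have hne : s(v, a) ≠ s(v, c) := by
        intro he
        rw [Sym2.eq_iff] at he
        rcases he with ⟨-, he⟩ | ⟨he, -⟩
        · exact nac he
        · exact nvc he
      rw [← Finset.sum_subset (s₁ := {s(v, a), s(v, c)}), Finset.sum_pair hne] at hb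
      · rw [hw.1 s(v, a) f, hw.1 s(v, c) f]
        exact (zmod2_eq_of_add hb)
      · intro e he
        simp only [mem_insert, mem_singleton] at he
        rw [mem_filter]
        rcases he with rfl | rfl <;> exact ⟨mem_univ _, by simp⟩
      · intro e he hne'
        simp only [mem_insert, mem_singleton, not_or] at hne'
        by_contra h0
        obtain ⟨-, heX, hdj⟩ := hw.2.1 _ _ h0
        obtain ⟨t, rfl, ht⟩ := vs_adj heX (mem_filter.1 he).2
        rcases (xx_v hd.p33).1 ht with rfl | rfl | rfl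
        · exact hdj t ⟨hf, by simp⟩
        · exact hne'.1 rfl
        · exact hne'.2 rfl
  have kc : ∀ f, z ∈ f → w' s(v, c) f = 0 := by
    intro f hf
    simp only [hw', tor, tc, hZv, hZz f hf, eac f hf]
    ring_nf
    rw [show (2 : ZMod 2) = 0 from rfl, mul_zero]
  have hzab : Zab v z w' := by
    intro e f hve hzf hne hnf
    by_contra h0
    obtain ⟨he, hf, hdj⟩ := hz1.2.1 e f h0
    obtain ⟨t, rfl, ht⟩ := vs_adj he hve
    rcases (xx_v hd.p33).1 ht with rfl | rfl | rfl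
    · exact hne rfl
    · exact h0 (ka f hzf)
    · exact h0 (kc f hzf)
  exact (hNPC.down (r := r) hr hz1 (by rw [hv1]; exact hv) (xx_cn hd).1 hzab).1

end YRAM

open YRAM in
theorem specYRA (hCRL : SpecCRL) (hDST : SpecDST) (hXC3 : SpecXC3) (hC20 : SpecC20) (hNPC : SpecNPC)
    (hTRC : SpecTRC) (hKUR : SpecKUR) (hVKA : SpecVKA) : SpecYRA where
  hx := fun h => hx_eq h
  ux := fun {α} _ _ {G u v z p a c} hd => by
    rw [hx_eq hd.p33]
    obtain ⟨h1, -, h3, h4⟩ := xx_facts hCRL hDST hNPC hd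
    exact (hd.ih _ h4 h1 h3).1
  cn := fun {α} _ _ {G u v z p a c} hd => by
    rw [hx_eq hd.p33]
    exact xx_cn hd
  vz := fun {α} _ _ {G u v z p a c} hd => by
    rw [hx_eq hd.p33]
    obtain ⟨h1, h2, h3, h4⟩ := xx_facts hCRL hDST hNPC hd
    have h5 := vz_c1 hXC3 hd h1 h2
    have h6 := vz_np hVKA hKUR hNPC hTRC hd (vz_conn hC20 hd h2) h3
    exact ⟨h5.1, (hd.ih _ ((hDST.sz2 (xx_cn hd).1).trans h4) h5 h6).2⟩

end DL
end

section
/-!
# MP_3ff0f8_gt, module YRC: the cycles of `H` through `v` and `z` which do not contain `vz`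
-/
open SimpleGraph Finset

namespace DL

namespace YRCM

variable {α : Type} [Fintype α] [DecidableEq α]

/-- the situation in `H` -/
structure HD (H : SimpleGraph α) (u v z a c : α) : Prop where
  uv : u ≠ v
  uz : u ≠ z
  ua : u ≠ a
  uc : u ≠ c
  vz : v ≠ z
  va : v ≠ a
  vc : v ≠ c
  za : z ≠ a
  zc : z ≠ c
  ac : a ≠ c
  nu : ∀ w, H.Adj u w ↔ w = v ∨ w = a ∨ w = c
  nv : ∀ w, H.Adj v w ↔ w = u ∨ w = z ∨ w = a ∨ w = c

lemma HD.swap {H : SimpleGraph α} {u v z a c : α} (h : HD H u v z a c) : HD H u v z c a where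
  uv := h.uv
  uz := h.uz
  ua := h.uc
  uc := h.ua
  vz := h.vz
  va := h.vc
  vc := h.va
  za := h.zc
  zc := h.za
  ac := h.ac.symm
  nu := fun w => by rw [h.nu]; tauto
  nv := fun w => by rw [h.nv]; tauto

omit [Fintype α] in
lemma delE_adj {G : SimpleGraph α} {x y s t : α} :
    (delE G s t).Adj x y ↔ G.Adj x y ∧ s(x, y) ≠ s(s, t) := by
  rw [delE, deleteEdges_adj, Set.mem_singleton_iff]

lemma hd {G : SimpleGraph α} {u v z p a c : α} (h : P33 G u v z p a c) :
    HD (delE G u p) u v z a c := by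
  have hnd := h.nd
  simp only [List.nodup_cons, List.mem_cons, List.not_mem_nil, or_false, not_or,
    not_false_eq_true, List.nodup_nil, and_true] at hnd
  obtain ⟨⟨h1, h2, h3, h4, h5⟩, ⟨h6, h7, h8, h9⟩, ⟨h10, h11, h12⟩, ⟨h13, h14⟩, h15⟩ := hnd
  refine ⟨h1, h2, h4, h5, h6, h8, h9, h11, h12, h15, ?_, ?_⟩
  · intro w
    rw [delE_adj, h.nx]
    constructor
    · rintro ⟨rfl | rfl | rfl | rfl, h0⟩
      · exact Or.inl rfl
      · exact absurd rfl h0
      · exact Or.inr (Or.inl rfl)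
      · exact Or.inr (Or.inr rfl)
    · intro hw
      refine ⟨?_, ?_⟩
      · tauto
      · intro h0
        rw [Sym2.eq_iff] at h0
        rcases h0 with ⟨-, h0⟩ | ⟨h0, -⟩
        · rcases hw with rfl | rfl | rfl
          · exact h7 h0
          · exact h13 h0.symm
          · exact h14 h0.symm
        · exact h3 h0
  · intro w
    rw [delE_adj, h.ny]
    constructor
    · rintro ⟨hw, -⟩
      exact hw
    · intro hw
      refine ⟨hw, ?_⟩
      intro h0
      rw [Sym2.eq_iff] at h0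
      rcases h0 with ⟨h0, -⟩ | ⟨h0, -⟩
      · exact h1 h0.symm
      · exact h7 h0

lemma toH {G : SimpleGraph α} {u v p a c : α} {P : Finset (Sym2 α)}
    (hP : IsPth (del G {u, v}) a c P) :
    IsPth (delE G u p) a c P ∧ u ∉ vs P ∧ v ∉ vs P := by
  rw [isPth_del] at hP
  obtain ⟨h1, h2⟩ := hP
  have hu : u ∉ vs P := fun h => Finset.disjoint_left.1 h2 h (by simp)
  have hv : v ∉ vs P := fun h => Finset.disjoint_left.1 h2 h (by simp)
  exact ⟨isPth_delE.2 ⟨h1, fun h => hu (left_mem_vs h)⟩, hu, hv⟩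

lemma ofH {G : SimpleGraph α} {u v p a c : α} {P : Finset (Sym2 α)}
    (hP : IsPth (delE G u p) a c P) (hu : u ∉ vs P) (hv : v ∉ vs P) :
    IsPth (del G {u, v}) a c P := by
  rw [isPth_del]
  refine ⟨(isPth_delE.1 hP).1, ?_⟩
  rw [Finset.disjoint_left]
  intro x hx hx'
  rw [mem_insert, mem_singleton] at hx'
  rcases hx' with rfl | rfl
  · exact hu hx
  · exact hv hx

/-- the cycle `a w c` + `P` -/
lemma cyc1 {H : SimpleGraph α} {w a c : α} {P : Finset (Sym2 α)} (ha : H.Adj w a) (hc : H.Adj w c)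
    (hac : a ≠ c) (hP : IsPth H a c P) (hw : w ∉ vs P) :
    IsCyc H (P ∪ {s(w, a), s(w, c)} ∪ ∅) := by
  have h1 := isCyc_of_isPth_del ha hc hac
    (isPth_del.2 ⟨hP, by rw [disjoint_singleton_right]; exact hw⟩)
  have e : P ∪ {s(w, a), s(w, c)} ∪ ∅ = insert s(w, a) (insert s(w, c) P) := by
    ext e
    simp only [mem_union, mem_insert, mem_singleton, notMem_empty, or_false]
    tauto
  rw [e]
  exact h1

/-- the cycle `a u v c` + `P` -/
lemma cyc2 {H : SimpleGraph α} {u v a c : α} {P : Finset (Sym2 α)} (hua : H.Adj u a)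
    (hvc : H.Adj v c) (huv : H.Adj v u) (huc : u ≠ c) (hva : v ≠ a) (hP : IsPth H a c P)
    (hu : u ∉ vs P) (hv : v ∉ vs P) :
    IsCyc H (P ∪ {s(u, a), s(v, c)} ∪ {s(v, u)}) := by
  have h1 := isCyc_of_isPth_del huv hvc huc
    (isPth_del.2 ⟨IsPth.cons hua hP hu, by
      rw [disjoint_singleton_right, vs_insert]
      simp only [mem_union, mem_insert, mem_singleton]
      rintro ((h | h) | h)
      · exact huv.ne h
      · exact hva h
      · exact hv h⟩)
  have e : P ∪ {s(u, a), s(v, c)} ∪ {s(v, u)} =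
      insert s(v, u) (insert s(v, c) (insert s(u, a) P)) := by
    ext e
    simp only [mem_union, mem_insert, mem_singleton]
    tauto
  rw [e]
  exact h1

/-- a cycle which contains `vc`, `vu`, `ua` -/
lemma mix {H : SimpleGraph α} {u v z a c : α} (h : HD H u v z a c) {C : Finset (Sym2 α)}
    (hC : IsCyc H C) (hvc : s(v, c) ∈ C) (hvu : s(v, u) ∈ C) (hua : s(u, a) ∈ C) :
    ∃ P, IsPth H a c P ∧ u ∉ vs P ∧ v ∉ vs P ∧ C = P ∪ {s(u, a), s(v, c)} ∪ {s(v, u)} := by
  have h1 := hC.isPth_del hvu hvc h.uc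
  obtain ⟨x, -, hx1, hx2, hx3⟩ := h1.uncons h.uc
  have n1 : s(u, a) ≠ s(v, u) := by
    intro h0
    rw [Sym2.eq_iff] at h0
    rcases h0 with ⟨h0, -⟩ | ⟨-, h0⟩
    · exact h.uv h0
    · exact h.va h0.symm
  have n2 : s(u, a) ≠ s(v, c) := by
    intro h0
    rw [Sym2.eq_iff] at h0
    rcases h0 with ⟨h0, -⟩ | ⟨h0, -⟩
    · exact h.uv h0
    · exact h.uc h0
  have hua' : s(u, a) ∈ C \ {s(v, u), s(v, c)} := by
    simp only [mem_sdiff, mem_insert, mem_singleton, not_or]
    exact ⟨hua, n1, n2⟩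
  have hxa : a = x := h1.left_unique hua' hx1
  subst hxa
  obtain ⟨h2, h3⟩ := isPth_del.1 hx3
  refine ⟨_, h2, hx2, ?_, ?_⟩
  · rw [disjoint_singleton_right] at h3
    exact h3
  · ext e
    simp only [mem_union, mem_insert, mem_singleton, mem_sdiff, not_or]
    constructor
    · intro he
      by_cases e1 : e = s(v, u)
      · exact Or.inr e1
      by_cases e2 : e = s(v, c)
      · exact Or.inl (Or.inr (Or.inr e2))
      by_cases e3 : e = s(u, a)
      · exact Or.inl (Or.inr (Or.inl e3))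
      exact Or.inl (Or.inl ⟨⟨he, e1, e2⟩, e3⟩)
    · rintro ((h4 | h4 | h4) | h4)
      · exact h4.1.1
      · rw [h4]; exact hua
      · rw [h4]; exact hvc
      · rw [h4]; exact hvu

/-- the triangle -/
lemma tri {H : SimpleGraph α} {u v z a c : α} (h : HD H u v z a c) {C : Finset (Sym2 α)}
    (hC : IsCyc H C) (hvc : s(v, c) ∈ C) (hvu : s(v, u) ∈ C) (huc : s(u, c) ∈ C) :
    C = {s(v, c), s(u, c), s(u, v)} := by
  have hD : IsCyc H (insert s(c, v) (insert s(c, u) {s(v, u)})) := by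
    refine isCyc_of_isPth_del ?_ ?_ h.uv.symm ?_
    · exact ((h.nv c).2 (by tauto)).symm
    · exact ((h.nu c).2 (by tauto)).symm
    · refine IsPth.edge ⟨(h.nv u).2 (by tauto), ?_, ?_⟩
      · rw [mem_singleton]; exact h.vc
      · rw [mem_singleton]; exact h.uc
  have e : insert s(c, v) (insert s(c, u) {s(v, u)}) = ({s(v, c), s(u, c), s(u, v)} :
      Finset (Sym2 α)) := by
    rw [Sym2.eq_swap (a := c) (b := v), Sym2.eq_swap (a := c) (b := u),
      Sym2.eq_swap (a := v) (b := u)]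
  rw [e] at hD
  refine (hC.eq_of_subset hD ?_).symm
  intro x hx
  simp only [mem_insert, mem_singleton] at hx
  rcases hx with rfl | rfl | rfl
  · exact hvc
  · exact huc
  · rw [Sym2.eq_swap]; exact hvu

/-- the case `va, vc` -/
lemma case1 {H : SimpleGraph α} {u v z a c : α} (h : HD H u v z a c) {C : Finset (Sym2 α)}
    (hC : IsCyc H C) (hz : z ∈ vs C) (hva : s(v, a) ∈ C) (hvc : s(v, c) ∈ C) : u ∉ vs C := by
  intro hu
  have nuv : s(v, u) ∉ C := by
    intro h0
    rcases hC.eq_or_eq hva hvc h.ac h0 with h1 | h1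
    · exact h.ua h1
    · exact h.uc h1
  have hu' : ∀ x, s(u, x) ∈ C → x = a ∨ x = c := by
    intro x hx
    rcases (h.nu x).1 (hC.adj_of_mem hx) with rfl | h1 | h1
    · rw [Sym2.eq_swap] at hx
      exact absurd hx nuv
    · exact Or.inl h1
    · exact Or.inr h1
  obtain ⟨i, j, hij, hi, hj, -⟩ := hC.two_edges hu
  have hboth : s(u, a) ∈ C ∧ s(u, c) ∈ C := by
    rcases hu' i hi with rfl | rfl <;> rcases hu' j hj with rfl | rfl
    · exact absurd rfl hij
    · exact ⟨hi, hj⟩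
    · exact ⟨hj, hi⟩
    · exact absurd rfl hij
  have hD : IsCyc H (insert s(v, a) (insert s(v, c) (insert s(a, u) {s(u, c)}))) := by
    refine isCyc_of_isPth_del ((h.nv a).2 (by tauto)) ((h.nv c).2 (by tauto)) h.ac ?_
    refine IsPth.cons ⟨((h.nu a).2 (by tauto)).symm, ?_, ?_⟩
      (IsPth.edge ⟨(h.nu c).2 (by tauto), ?_, ?_⟩) ?_
    · rw [mem_singleton]; exact h.va.symm
    · rw [mem_singleton]; exact h.uv
    · rw [mem_singleton]; exact h.uv
    · rw [mem_singleton]; exact h.vc.symm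
    · rw [vs_singleton, mem_insert, mem_singleton]
      rintro (h1 | h1)
      · exact h.ua h1.symm
      · exact h.ac h1
  have hsub := hC.eq_of_subset hD (by
    intro x hx
    simp only [mem_insert, mem_singleton] at hx
    rcases hx with rfl | rfl | rfl | rfl
    · exact hva
    · exact hvc
    · rw [Sym2.eq_swap]; exact hboth.1
    · exact hboth.2)
  rw [← hsub, vs_insert, vs_insert, vs_insert, vs_singleton] at hz
  simp only [mem_union, mem_insert, mem_singleton] at hz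
  rcases hz with (h1 | h1) | (h1 | h1) | (h1 | h1) | (h1 | h1)
  · exact h.vz h1.symm
  · exact h.za h1
  · exact h.vz h1.symm
  · exact h.zc h1
  · exact h.za h1
  · exact h.uz h1.symm
  · exact h.uz h1.symm
  · exact h.zc h1

/-- the case `vu, vc` -/
lemma case2 {H : SimpleGraph α} {u v z a c : α} (h : HD H u v z a c) {C : Finset (Sym2 α)}
    (hC : IsCyc H C) (hz : z ∈ vs C) (hvu : s(v, u) ∈ C) (hvc : s(v, c) ∈ C) :
    ∃ P, IsPth H a c P ∧ u ∉ vs P ∧ v ∉ vs P ∧ z ∈ vs P ∧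
      C = P ∪ {s(u, a), s(v, c)} ∪ {s(v, u)} := by
  have huv : s(u, v) ∈ C := by rw [Sym2.eq_swap]; exact hvu
  obtain ⟨w, hw1, hw2⟩ := hC.exists_other huv
  rcases (h.nu w).1 (hC.adj_of_mem hw2) with h1 | h1 | h1
  · exact absurd h1 hw1
  · subst h1
    obtain ⟨P, hP, hu, hv, he⟩ := mix h hC hvc hvu hw2
    refine ⟨P, hP, hu, hv, ?_, he⟩
    rw [he, vs_union, vs_union, vs_insert, vs_singleton, vs_singleton] at hz
    simp only [mem_union, mem_insert, mem_singleton] at hz
    rcases hz with (h1 | (h1 | h1) | (h1 | h1)) | (h1 | h1)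
    · exact h1
    · exact absurd h1.symm h.uz
    · exact absurd h1 h.za
    · exact absurd h1.symm h.vz
    · exact absurd h1 h.zc
    · exact absurd h1.symm h.vz
    · exact absurd h1.symm h.uz
  · subst h1
    have he := tri h hC hvc hvu hw2
    rw [he, vs_insert, vs_insert, vs_singleton] at hz
    simp only [mem_union, mem_insert, mem_singleton] at hz
    rcases hz with (h1 | h1) | (h1 | h1) | (h1 | h1)
    · exact absurd h1.symm h.vz
    · exact absurd h1 h.zc
    · exact absurd h1.symm h.uz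
    · exact absurd h1 h.zc
    · exact absurd h1.symm h.uz
    · exact absurd h1.symm h.vz

lemma Lf_ff (v u a c : α) (P : Finset (Sym2 α)) :
    Lf v u a c false false P = P ∪ {s(v, a), s(v, c)} ∪ ∅ := by
  simp [Lf]

lemma Lf_tt (v u a c : α) (P : Finset (Sym2 α)) :
    Lf v u a c true true P = P ∪ {s(u, a), s(u, c)} ∪ ∅ := by
  simp [Lf]

lemma Lf_tf (v u a c : α) (P : Finset (Sym2 α)) :
    Lf v u a c true false P = P ∪ {s(u, a), s(v, c)} ∪ {s(v, u)} := by
  simp [Lf]

lemma Lf_ft (v u a c : α) (P : Finset (Sym2 α)) :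
    Lf v u a c false true P = P ∪ {s(v, a), s(u, c)} ∪ {s(v, u)} := by
  simp [Lf]

lemma pair_swap (P : Finset (Sym2 α)) (e f : Sym2 α) (Q : Finset (Sym2 α)) :
    P ∪ {e, f} ∪ Q = P ∪ {f, e} ∪ Q := by
  rw [Finset.pair_comm]

end YRCM

open YRCM in
theorem specYRC : SpecYRC where
  cyc := by
    intro α _ _ G u v z p a c h i j P hP
    have hd := hd h
    obtain ⟨h1, h2, h3⟩ := toH (p := p) hP
    cases i <;> cases j
    · rw [Lf_ff]
      exact cyc1 ((hd.nv a).2 (by tauto)) ((hd.nv c).2 (by tauto)) hd.ac h1 h3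
    · rw [Lf_ft, pair_swap]
      exact cyc2 ((hd.nu c).2 (by tauto)) ((hd.nv a).2 (by tauto)) ((hd.nv u).2 (by tauto))
        hd.ua hd.vc h1.symm h2 h3
    · rw [Lf_tf]
      exact cyc2 ((hd.nu a).2 (by tauto)) ((hd.nv c).2 (by tauto)) ((hd.nv u).2 (by tauto))
        hd.uc hd.va h1 h2 h3
    · rw [Lf_tt]
      exact cyc1 ((hd.nu a).2 (by tauto)) ((hd.nu c).2 (by tauto)) hd.ac h1 h2
  cls := by
    intro α _ _ G u v z p a c h C hC hv hz hvz
    have hd := hd h
    have hE : ∀ x, s(v, x) ∈ C → x = u ∨ x = a ∨ x = c := by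
      intro x hx
      rcases (hd.nv x).1 (hC.adj_of_mem hx) with h1 | rfl | h1 | h1
      · exact Or.inl h1
      · exact absurd hx hvz
      · exact Or.inr (Or.inl h1)
      · exact Or.inr (Or.inr h1)
    obtain ⟨i, j, hij, hi, hj, -⟩ := hC.two_edges hv
    have hcases : (s(v, a) ∈ C ∧ s(v, c) ∈ C) ∨ (s(v, u) ∈ C ∧ s(v, c) ∈ C) ∨
        (s(v, u) ∈ C ∧ s(v, a) ∈ C) := by
      rcases hE i hi with rfl | rfl | rfl <;> rcases hE j hj with rfl | rfl | rfl
      · exact absurd rfl hij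
      · exact Or.inr (Or.inr ⟨hi, hj⟩)
      · exact Or.inr (Or.inl ⟨hi, hj⟩)
      · exact Or.inr (Or.inr ⟨hj, hi⟩)
      · exact absurd rfl hij
      · exact Or.inl ⟨hi, hj⟩
      · exact Or.inr (Or.inl ⟨hj, hi⟩)
      · exact Or.inl ⟨hj, hi⟩
      · exact absurd rfl hij
    rcases hcases with ⟨ha, hc⟩ | ⟨hu, hc⟩ | ⟨hu, ha⟩
    · have hu := case1 hd hC hz ha hc
      have h1 := isPth_del.1 (hC.isPth_del ha hc hd.ac)
      have hu' : u ∉ vs (C \ {s(v, a), s(v, c)}) := fun h0 => hu (vs_mono sdiff_subset h0)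
      have hv' : v ∉ vs (C \ {s(v, a), s(v, c)}) := by
        have := h1.2
        rw [disjoint_singleton_right] at this
        exact this
      have he : C = C \ {s(v, a), s(v, c)} ∪ {s(v, a), s(v, c)} ∪ ∅ := by
        ext e
        simp only [mem_union, mem_insert, mem_singleton, mem_sdiff, not_or, notMem_empty, or_false]
        constructor
        · intro he
          by_cases e1 : e = s(v, a)
          · exact Or.inr (Or.inl e1)
          by_cases e2 : e = s(v, c)
          · exact Or.inr (Or.inr e2)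
          exact Or.inl ⟨he, e1, e2⟩
        · rintro (h4 | h4 | h4)
          · exact h4.1
          · rw [h4]; exact ha
          · rw [h4]; exact hc
      refine ⟨C \ {s(v, a), s(v, c)}, false, false, ofH h1.1 hu' hv', ?_, Or.inl rfl, ?_⟩
      · rw [he, vs_union, vs_union, vs_insert, vs_singleton] at hz
        simp only [mem_union, mem_insert, mem_singleton] at hz
        rcases hz with (h1 | (h1 | h1) | (h1 | h1)) | h1
        · exact h1
        · exact absurd h1.symm hd.vz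
        · exact absurd h1 hd.za
        · exact absurd h1.symm hd.vz
        · exact absurd h1 hd.zc
        · rw [vs_eq_empty.2 rfl] at h1
          exact absurd h1 (notMem_empty _)
      · rw [Lf_ff]
        exact he
    · obtain ⟨P, hP, hu', hv', hzP, he⟩ := case2 hd hC hz hu hc
      exact ⟨P, true, false, ofH hP hu' hv', hzP, Or.inr rfl, by rw [Lf_tf]; exact he⟩
    · obtain ⟨P, hP, hu', hv', hzP, he⟩ := case2 hd.swap hC hz hu ha
      exact ⟨P, false, true, ofH hP.symm hu' hv', hzP, Or.inl rfl, by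
        rw [Lf_ft, pair_swap]; exact he⟩
  tri := by
    intro α _ _ G u v z p a c h C hC hvc hua huc
    have hd := hd h
    obtain ⟨w, hw1, hw2⟩ := hC.exists_other hua
    rcases (hd.nu w).1 (hC.adj_of_mem hw2) with h1 | h1 | h1
    · subst h1
      rw [Sym2.eq_swap] at hw2
      obtain ⟨P, hP, hu, hv, he⟩ := mix hd hC hvc hw2 hua
      exact ⟨P, ofH hP hu hv, by rw [Lf_tf]; exact he⟩
    · exact absurd h1 hw1
    · subst h1
      exact absurd hw2 huc
  uc := by
    intro α _ _ G u v z p a c h C hC hvc huc huv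
    rw [Sym2.eq_swap (a := u) (b := v)] at huv
    exact YRCM.tri (hd h) hC hvc huv huc
  yy := by
    intro α _ _ N z a c P hP hz hza hzc
    obtain ⟨P1, P2, h1, h2, h3, h4, h5⟩ := hP.split (Or.inr hz)
    obtain ⟨y, -, hy1, hy2, hy3⟩ := h1.symm.uncons hza
    obtain ⟨y', -, hy1', hy2', hy3'⟩ := h2.uncons hzc
    have hr : ∀ {x t : α} {e : Sym2 α} {R : Finset (Sym2 α)}, IsPth N x t R → R ⊆ P → e ∉ R →
        Rch (P \ {e}) x t := by
      intro x t e R hR hRP heR
      refine hR.rch ?_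
      intro f hf
      rw [mem_sdiff, mem_singleton]
      exact ⟨hRP hf, fun h0 => heR (h0 ▸ hf)⟩
    refine ⟨y, y', ?_, ?_⟩
    · refine dirn_eq_one ?_ ?_
      · rw [← h3, mem_union]
        left
        rw [Sym2.eq_swap]
        exact hy1
      · refine hr hy3.symm ?_ ?_
        · exact sdiff_subset.trans (h3 ▸ subset_union_left)
        · rw [mem_sdiff, mem_singleton, Sym2.eq_swap]
          exact fun h0 => h0.2 rfl
    · refine dirn_eq_one ?_ ?_
      · rw [← h3, mem_union]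
        exact Or.inr hy1'
      · refine hr h1 (h3 ▸ subset_union_left) ?_
        exact fun h0 => Finset.disjoint_left.1 h4 h0 hy1'

end DL
end

section
/-!
MP_3ff0f8_gt, ALGEBRA HALF, module YRD (helper49): transfer of a function on the cycles of `H` to `X = contr H c u`
-/
open SimpleGraph Finset

namespace DL

namespace YRDM

variable {α : Type} [Fintype α] [DecidableEq α]

open YRCM

omit [Fintype α] [DecidableEq α] in
theorem mem_sel {G : SimpleGraph α} {a b : α} {K : Finset α} {e : Sym2 α} :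
    e ∈ (sel G a b K).edgeSet ↔ e ∈ G.edgeSet ∧ ∀ x, G.Adj a x → G.Adj b x →
      (x ∈ K → e ≠ s(a, x)) ∧ (x ∉ K → e ≠ s(b, x)) := by
  unfold sel
  rw [edgeSet_deleteEdges, Set.mem_sdiff, Set.mem_ofPred_eq]
  constructor
  · rintro ⟨h1, h2⟩
    refine ⟨h1, fun x ha hb => ⟨fun hK he => h2 ⟨x, ha, hb, Or.inl ⟨hK, he⟩⟩,
      fun hK he => h2 ⟨x, ha, hb, Or.inr ⟨hK, he⟩⟩⟩⟩
  · rintro ⟨h1, h2⟩
    refine ⟨h1, ?_⟩
    rintro ⟨x, ha, hb, ⟨hK, he⟩ | ⟨hK, he⟩⟩
    · exact (h2 x ha hb).1 hK he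
    · exact (h2 x ha hb).2 hK he

omit [Fintype α] in
theorem mrg_ne {a b v : α} (h : v ≠ b) : mrg a b v = v := by simp [mrg, h]

omit [Fintype α] in
theorem mrg_self (a b : α) : mrg a b b = a := by simp [mrg]

/-- the lift away from `ab` -/
theorem lft_mem {G : SimpleGraph α} {a b : α} {C D : Finset (Sym2 α)}
    (h : chi C = lft G a b (chi D)) {e : Sym2 α} (he : e ≠ s(a, b)) :
    e ∈ C ↔ e ∈ G.edgeSet ∧ e.map (mrg a b) ∈ D := by
  rw [← chi_ne_zero, h, lft, if_neg he]
  by_cases h1 : e ∈ G.edgeSet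
  · rw [if_pos h1, chi_ne_zero]
    exact ⟨fun h2 => ⟨h1, h2⟩, fun h2 => h2.2⟩
  · rw [if_neg h1]
    exact ⟨fun h2 => absurd rfl h2, fun h2 => absurd h2.1 h1⟩

/-- a vertex of the lift off `a`, `b` is a vertex of the cycle below -/
theorem vs_down {G : SimpleGraph α} {a b v : α} {C D : Finset (Sym2 α)}
    (h : chi C = lft G a b (chi D)) (ha : v ≠ a) (hb : v ≠ b) (hv : v ∈ vs C) : v ∈ vs D := by
  obtain ⟨e, he, hve⟩ := mem_vs.1 hv
  obtain ⟨x, rfl⟩ := Sym2.mem_iff_exists.1 hve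
  have hne : s(v, x) ≠ s(a, b) := by
    intro h0
    rw [Sym2.eq_iff] at h0
    rcases h0 with ⟨h0, -⟩ | ⟨h0, -⟩
    · exact ha h0
    · exact hb h0
  have h1 := ((lft_mem h hne).1 he).2
  rw [Sym2.map_mk, mrg_ne hb] at h1
  exact left_mem_vs h1

/-- the function below -/
noncomputable def fd (S : SimpleGraph α) (c u : α) (φ : Finset (Sym2 α) → ZMod 2)
    (D : Finset (Sym2 α)) : ZMod 2 := φ (csupp (lft S c u (chi D)))

theorem fd_eq {S : SimpleGraph α} {c u : α} {φ : Finset (Sym2 α) → ZMod 2}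
    {C D : Finset (Sym2 α)} (h : chi C = lft S c u (chi D)) : fd S c u φ D = φ C := by
  rw [fd, ← h, csupp_chi]

/-- the set `K` -/
def KK (v a : α) (j : Bool) : Finset α := if j then {a, v} else {a}

omit [Fintype α] in
theorem mem_KK {v a x : α} {j : Bool} : x ∈ KK v a j ↔ x = a ∨ (j = true ∧ x = v) := by
  cases j <;> simp [KK]

/-- the cycle `Lf v u a c false j P` is in `S` -/
theorem lfS {H : SimpleGraph α} {u v z a c : α} (h : HD H u v z a c) {j : Bool}
    {P : Finset (Sym2 α)} (hP : IsPth H a c P) (hu : u ∉ vs P) (hv : v ∉ vs P) (hz : z ∈ vs P) :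
    ∀ e ∈ Lf v u a c false j P, e ∈ (sel H c u (KK v a j)).edgeSet := by
  have hac : s(a, c) ∉ P := by
    intro h0
    have h1 := hP.eq_singleton h0
    rw [h1, vs_singleton, mem_insert, mem_singleton] at hz
    rcases hz with hz | hz
    · exact h.za hz
    · exact h.zc hz
  intro e he
  have hcu : ¬ H.Adj c c := H.irrefl
  rw [mem_sel]
  rw [Lf, mem_union, mem_union, mem_insert, mem_singleton] at he
  rcases he with (he | he | he) | he
  · refine ⟨hP.subset e he, fun x hcx hux => ⟨?_, ?_⟩⟩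
    · rintro hK rfl
      rw [mem_KK] at hK
      rcases hK with rfl | ⟨-, rfl⟩
      · exact hac (by rw [Sym2.eq_swap]; exact he)
      · exact hv (right_mem_vs he)
    · rintro - rfl
      exact hu (left_mem_vs he)
  · rw [if_neg (by simp)] at he
    subst he
    refine ⟨(h.nv a).2 (by tauto), fun x hcx hux => ⟨?_, ?_⟩⟩
    · intro _ h0
      rw [Sym2.eq_iff] at h0
      rcases h0 with ⟨h0, -⟩ | ⟨-, h0⟩
      · exact h.vc h0
      · exact h.ac h0
    · intro _ h0
      rw [Sym2.eq_iff] at h0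
      rcases h0 with ⟨h0, -⟩ | ⟨-, h0⟩
      · exact h.uv h0.symm
      · exact h.ua h0.symm
  · cases j with
    | false =>
      rw [if_neg (by simp)] at he
      subst he
      refine ⟨(h.nv c).2 (by tauto), fun x hcx hux => ⟨?_, ?_⟩⟩
      · intro hK h0
        rw [Sym2.eq_iff] at h0
        rcases h0 with ⟨h0, -⟩ | ⟨h0, -⟩
        · exact h.vc h0
        · rw [mem_KK, ← h0] at hK
          rcases hK with hK | ⟨hK, -⟩
          · exact h.va hK
          · exact absurd hK (by simp)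
      · intro _ h0
        rw [Sym2.eq_iff] at h0
        rcases h0 with ⟨h0, -⟩ | ⟨-, h0⟩
        · exact h.uv h0.symm
        · exact h.uc h0.symm
    | true =>
      rw [if_pos rfl] at he
      subst he
      refine ⟨(h.nu c).2 (by tauto), fun x hcx hux => ⟨?_, ?_⟩⟩
      · intro _ h0
        rw [Sym2.eq_iff] at h0
        rcases h0 with ⟨h0, -⟩ | ⟨h0, -⟩
        · exact h.uc h0
        · exact hux.ne h0
      · intro _ h0
        rw [Sym2.eq_iff] at h0
        rcases h0 with ⟨-, h0⟩ | ⟨h0, -⟩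
        · exact hcx.ne h0
        · exact hux.ne h0
  · cases j with
    | false => simp at he
    | true =>
      rw [if_neg (by simp), mem_singleton] at he
      subst he
      refine ⟨(h.nv u).2 (by tauto), fun x hcx hux => ⟨?_, ?_⟩⟩
      · intro _ h0
        rw [Sym2.eq_iff] at h0
        rcases h0 with ⟨h0, -⟩ | ⟨-, h0⟩
        · exact h.vc h0
        · exact h.uc h0
      · intro hK h0
        rw [Sym2.eq_iff] at h0
        rcases h0 with ⟨h0, -⟩ | ⟨h0, -⟩
        · exact h.uv h0.symm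
        · exact hK (mem_KK.2 (Or.inr ⟨rfl, h0.symm⟩))

/-- it is in `CycM S c u` -/
theorem lfM {H : SimpleGraph α} {u v z a c : α} (h : HD H u v z a c) {j : Bool}
    {P : Finset (Sym2 α)} (hP : IsPth H a c P) (hu : u ∉ vs P) (hv : v ∉ vs P) (hz : z ∈ vs P)
    (hC : IsCyc H (Lf v u a c false j P)) :
    CycM (sel H c u (KK v a j)) c u (Lf v u a c false j P) := by
  refine ⟨hC.transfer (lfS h hP hu hv hz), ?_⟩
  intro _ h1
  cases j with
  | false =>
    exfalso
    rw [Lf, if_pos rfl, union_empty, mem_vs_union] at h1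
    rcases h1 with h1 | h1
    · exact hu h1
    · obtain ⟨e, he, hue⟩ := mem_vs.1 h1
      rw [mem_insert, mem_singleton] at he
      simp only [Bool.false_eq_true, if_false] at he
      rcases he with rfl | rfl
      · rw [Sym2.mem_iff] at hue
        rcases hue with hue | hue
        · exact h.uv hue
        · exact h.ua hue
      · rw [Sym2.mem_iff] at hue
        rcases hue with hue | hue
        · exact h.uv hue
        · exact h.uc hue
  | true =>
    rw [Sym2.eq_swap, Lf]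
    simp

/-- the projection of it contains `Lf v u a c false false P` -/
theorem lfD {H : SimpleGraph α} {u v z a c : α} (h : HD H u v z a c) {j : Bool}
    {P D : Finset (Sym2 α)} {S : SimpleGraph α} (hu : u ∉ vs P)
    (hD : chi (Lf v u a c false j P) = lft S c u (chi D)) :
    Lf v u a c false false P ⊆ D := by
  have n1 : ∀ x y, x ≠ u → y ≠ u → s(x, y) ≠ s(c, u) := by
    intro x y hx hy h0
    rw [Sym2.eq_iff] at h0
    rcases h0 with ⟨-, h0⟩ | ⟨h0, -⟩
    · exact hy h0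
    · exact hx h0
  have key : ∀ x y, x ≠ u → y ≠ u → s(x, y) ∈ Lf v u a c false j P → s(x, y) ∈ D := by
    intro x y hx hy hm
    have h1 := ((lft_mem hD (n1 x y hx hy)).1 hm).2
    rwa [Sym2.map_mk, mrg_ne hx, mrg_ne hy] at h1
  intro e he
  rw [Lf, mem_union, mem_union, mem_insert, mem_singleton] at he
  rcases he with (he | he | he) | he
  · induction e using Sym2.ind with
    | _ x y =>
      refine key x y ?_ ?_ ?_
      · rintro rfl; exact hu (left_mem_vs he)
      · rintro rfl; exact hu (right_mem_vs he)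
      · rw [Lf]; simp [he]
  · rw [if_neg (by simp)] at he
    subst he
    refine key v a h.uv.symm h.ua.symm ?_
    rw [Lf]; simp
  · rw [if_neg (by simp)] at he
    subst he
    cases j with
    | false =>
      refine key v c h.uv.symm h.uc.symm ?_
      rw [Lf]; simp
    | true =>
      have h1 : s(v, u) ∈ Lf v u a c false true P := by rw [Lf]; simp
      have hne : s(v, u) ≠ s(c, u) := by
        intro h0
        rw [Sym2.eq_iff] at h0
        rcases h0 with ⟨h0, -⟩ | ⟨h0, -⟩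
        · exact h.vc h0
        · exact h.uv h0.symm
      have h2 := ((lft_mem hD hne).1 h1).2
      rwa [Sym2.map_mk, mrg_ne h.uv.symm, mrg_self] at h2
  · simp at he

/-- `Lf v u a c false false P` is a cycle of `X` -/
theorem lfX {H : SimpleGraph α} {u v z a c : α} (h : HD H u v z a c)
    {P : Finset (Sym2 α)} (hu : u ∉ vs P) (hC : IsCyc H (Lf v u a c false false P)) :
    IsCyc (contr H c u) (Lf v u a c false false P) := by
  refine hC.transfer ?_
  intro e he
  have h1 := hC.subset e he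
  induction e using Sym2.ind with
  | _ x y =>
    have hxy : H.Adj x y := h1
    have hux : ∀ w, s(u, w) ∉ Lf v u a c false false P := by
      intro w hw
      rw [Lf, mem_union, mem_union, mem_insert, mem_singleton] at hw
      simp only [Bool.false_eq_true, if_false, if_true, notMem_empty, or_false] at hw
      rcases hw with hw | hw | hw
      · exact hu (left_mem_vs hw)
      · rw [Sym2.eq_iff] at hw
        rcases hw with ⟨hw, -⟩ | ⟨hw, -⟩
        · exact h.uv hw
        · exact h.ua hw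
      · rw [Sym2.eq_iff] at hw
        rcases hw with ⟨hw, -⟩ | ⟨hw, -⟩
        · exact h.uv hw
        · exact h.uc hw
    refine ⟨?_, ?_, hxy.ne, Or.inl hxy⟩
    · rintro rfl; exact hux _ he
    · rintro rfl
      rw [Sym2.eq_swap] at he
      exact hux _ he

end YRDM

open YRDM YRCM in
theorem specYRD (hMEA : SpecMEA) (hCTA : SpecCTA) (hCTF : SpecCTF) (hSEF : SpecSEF)
    (hYRA : SpecYRA) (hYRC : SpecYRC) (hGLU : SpecGLU) : SpecYRD := by
  intro α _ _ G u v z p a c f hf j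
  have h33 := hf.dat.p33
  have h := hd h33
  have hcu : (delE G u p).Adj c u := ((h.nu c).2 (by tauto)).symm
  obtain ⟨φ, hφ, hfφ⟩ := hMEA hcu (hYRA.ux hf.dat) f hf.ev (KK v a j)
  obtain ⟨hS1, hS2, hS3⟩ := hSEF.adj (KK v a j) hcu
  have hle := hSEF.le (delE G u p) c u (KK v a j)
  refine ⟨fd (sel (delE G u p) c u (KK v a j)) c u φ, ?_, ?_, ?_⟩
  · rw [← hS3]
    exact hCTF.down hS1 hS2 φ _ (hGLU.mono hle hφ) fun C D _ _ hCD => fd_eq hCD
  · intro D hD
    obtain ⟨C, hC, hCD⟩ := hCTA.cl hS1 hS2 D (by rw [hS3]; exact hD.1)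
    rw [fd_eq hCD, ← hfφ C hC]
    refine hf.zr C ⟨hC.1.mono hle, ?_⟩
    intro hv hz
    have h1 := vs_down hCD h.vc h.uv.symm hv
    have h2 := vs_down hCD h.zc h.uz.symm hz
    have h3 := hD.2 h1 h2
    have hne : s(v, z) ≠ s(c, u) := by
      intro h0
      rw [Sym2.eq_iff] at h0
      rcases h0 with ⟨h0, -⟩ | ⟨h0, -⟩
      · exact h.vc h0
      · exact h.uv h0.symm
    rw [lft_mem hCD hne, Sym2.map_mk, mrg_ne h.uv.symm, mrg_ne h.uz.symm]
    refine ⟨?_, h3⟩
    rw [SimpleGraph.mem_edgeSet, hSEF.off (KK v a j) v z h.vc h.uv.symm h.zc h.uz.symm]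
    exact (h.nv z).2 (by tauto)
  · intro P hP hz
    obtain ⟨hPH, hu, hv⟩ := toH (p := p) hP
    have hcy := hYRC.cyc h33 false j P hP
    have hM := lfM h hPH hu hv hz hcy
    obtain ⟨D', hD', hCD', -⟩ := hCTA.cp hS1 hS2 _ hM
    have hsub := lfD (z := z) h hu hCD'
    rw [hS3] at hD'
    have hDX := lfX h hu (hYRC.cyc h33 false false P hP)
    have heq := hD'.eq_of_subset hDX hsub
    rw [heq, fd_eq hCD', hfφ _ hM]

end DL
end

section
/-!
# YRE: evaluation of EXM for `X`, `v`, `z`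
-/
open SimpleGraph Finset

set_option linter.unusedSectionVars false

namespace DL

namespace YREM

variable {α : Type} [Fintype α] [DecidableEq α] {G : SimpleGraph α} {u v z p a c : α}

theorem nes (h : P33 G u v z p a c) : u ≠ v ∧ u ≠ z ∧ u ≠ p ∧ u ≠ a ∧ u ≠ c ∧ v ≠ z ∧ v ≠ p ∧
    v ≠ a ∧ v ≠ c ∧ z ≠ p ∧ z ≠ a ∧ z ≠ c ∧ p ≠ a ∧ p ≠ c ∧ a ≠ c := by
  have hnd' := h.nd
  simp only [List.nodup_cons, List.mem_cons, List.not_mem_nil, or_false, not_or, List.nodup_nil, and_true,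
    not_false_eq_true] at hnd'
  obtain ⟨⟨h1, h2, h3, h4, h5⟩, ⟨h6, h7, h8, h9⟩, ⟨h10, h11, h12⟩, ⟨h13, h14⟩, h15⟩ := hnd'
  exact ⟨h1, h2, h3, h4, h5, h6, h7, h8, h9, h10, h11, h12, h13, h14, h15⟩

/-- the graph `X = J + ac` -/
abbrev XX (G : SimpleGraph α) (u a c : α) : SimpleGraph α := del G {u} ⊔ fromEdgeSet {s(a, c)}

theorem xx_adj {x y : α} : (XX G u a c).Adj x y ↔ (G.Adj x y ∧ x ≠ u ∧ y ≠ u) ∨ (s(x, y) = s(a, c) ∧ x ≠ y) := by
  simp only [XX, SimpleGraph.sup_adj, fromEdgeSet_adj, Set.mem_singleton_iff]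
  simp only [del, mem_singleton]

/-- the neighbours of `v` in `X` -/
theorem xx_v (h : P33 G u v z p a c) {x : α} : (XX G u a c).Adj v x ↔ x = z ∨ x = a ∨ x = c := by
  obtain ⟨nuv, nuz, nup, nua, nuc, nvz, nvp, nva, nvc, nzp, nza, nzc, npa, npc, nac⟩ := nes h
  rw [xx_adj, h.ny]
  constructor
  · rintro (⟨h1, h2, h3⟩ | ⟨h1, h2⟩)
    · tauto
    · rw [Sym2.eq_iff] at h1
      rcases h1 with ⟨h1, -⟩ | ⟨h1, -⟩
      · exact absurd h1 nva
      · exact absurd h1 nvc
  · rintro (rfl | rfl | rfl)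
    · exact Or.inl ⟨Or.inr (Or.inl rfl), nuv.symm, nuz.symm⟩
    · exact Or.inl ⟨Or.inr (Or.inr (Or.inl rfl)), nuv.symm, nua.symm⟩
    · exact Or.inl ⟨Or.inr (Or.inr (Or.inr rfl)), nuv.symm, nuc.symm⟩

theorem lf_ff (P : Finset (Sym2 α)) : Lf v u a c false false P = insert s(v, a) (insert s(v, c) P) := by
  unfold Lf
  ext e
  simp only [if_true, mem_union, mem_insert, mem_singleton, Bool.false_eq_true, if_false, notMem_empty, or_false]
  tauto

theorem pth_x {P : Finset (Sym2 α)} (hP : IsPth (del G {u, v}) a c P) : IsPth (del (XX G u a c) {v}) a c P := by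
  refine hP.mono ?_
  intro x y hxy
  have h1 : G.Adj x y ∧ x ∉ ({u, v} : Finset α) ∧ y ∉ ({u, v} : Finset α) := hxy
  simp only [mem_insert, mem_singleton, not_or] at h1
  refine ⟨xx_adj.2 (Or.inl ⟨h1.1, h1.2.1.1, h1.2.2.1⟩), ?_, ?_⟩
  · rw [mem_singleton]; exact h1.2.1.2
  · rw [mem_singleton]; exact h1.2.2.2

theorem eval (h : P33 G u v z p a c) (hza : ¬ G.Adj z a) (hzc : ¬ G.Adj z c) (ν : α → α → ZMod 2)
    (hν : ∀ x y, ν x y ≠ 0 → (XX G u a c).Adj v x ∧ (XX G u a c).Adj z y ∧ x ≠ y ∧ x ≠ z ∧ y ≠ v)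
    {P : Finset (Sym2 α)} (hP : IsPth (del G {u, v}) a c P) {y y' : α} (h1 : dirn a y z P = 1)
    (h2 : dirn a z y' P = 1) (D : Finset (Sym2 α)) (hD : D = insert s(v, a) (insert s(v, c) P)) :
    ∑ x, ∑ w, ν x w * (chi D s(v, x) * chi D s(z, w) + coh x v z w D) = ν c y + ν a y' := by
  obtain ⟨nuv, nuz, nup, nua, nuc, nvz, nvp, nva, nvc, nzp, nza, nzc, npa, npc, nac⟩ := nes h
  have hPX := pth_x hP
  have hva : (XX G u a c).Adj v a := (xx_v h).2 (Or.inr (Or.inl rfl))
  have hvc : (XX G u a c).Adj v c := (xx_v h).2 (Or.inr (Or.inr rfl))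
  have hcyc : IsCyc (XX G u a c) D := by
    rw [hD]; exact isCyc_of_isPth_del hva hvc nac hPX
  have hD' : D = insert s(v, c) (insert s(v, a) P) := by
    rw [hD, Finset.insert_comm]
  have hyzP : s(y, z) ∈ P := by
    by_contra hn
    rw [dirn_eq_zero_of_notMem hn] at h1
    exact zero_ne_one h1
  have hzyP : s(z, y') ∈ P := by
    by_contra hn
    rw [dirn_eq_zero_of_notMem hn] at h2
    exact zero_ne_one h2
  have hPD : ∀ e ∈ P, e ∈ D := by
    intro e he
    rw [hD]
    exact mem_insert_of_mem (mem_insert_of_mem he)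
  have hzy : s(z, y) ∈ D := hPD _ (by rw [Sym2.eq_swap]; exact hyzP)
  have hzy' : s(z, y') ∈ D := hPD _ hzyP
  have hvaD : s(v, a) ∈ D := by rw [hD]; exact mem_insert_self _ _
  have hvcD : s(v, c) ∈ D := by rw [hD']; exact mem_insert_self _ _
  -- directions
  have d1 : dirn a z y P = 0 := by
    have := hP.dirn_add_swap y z
    rw [h1, chi_of_mem hyzP] at this
    exact (add_eq_left.1 this)
  have d2 : dirn a y' z P = 0 := by
    have := hP.dirn_add_swap z y'
    rw [h2, chi_of_mem hzyP] at this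
    exact (add_eq_left.1 this)
  have hyy : y ≠ y' := by
    rintro rfl
    rw [h2] at d1
    exact one_ne_zero d1
  have hw : ∀ w, s(z, w) ∈ D → w = y ∨ w = y' := fun w hw => hcyc.eq_or_eq hzy hzy' hyy hw
  have hnw : ∀ w, w ≠ v → s(z, w) ≠ s(v, a) ∧ s(z, w) ≠ s(v, c) := by
    intro w hw
    refine ⟨fun e => ?_, fun e => ?_⟩
    · rw [Sym2.eq_iff] at e
      rcases e with ⟨e, -⟩ | ⟨e, -⟩
      · exact nvz e.symm
      · exact nza e
    · rw [Sym2.eq_iff] at e
      rcases e with ⟨e, -⟩ | ⟨e, -⟩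
      · exact nvz e.symm
      · exact nzc e
  have ca : ∀ w, w ≠ v → coh a v z w D = dirn a w z P := by
    intro w hw
    rw [hD, coh_two' hPX hvc nac (hnw w hw).1 (hnw w hw).2, hP.dirn_reverse]
  have cc : ∀ w, w ≠ v → coh c v z w D = dirn a z w P := by
    intro w hw
    rw [hD', coh_two' hPX.symm hva nac.symm (hnw w hw).2 (hnw w hw).1]
  have hterm : ∀ x w, ν x w * (chi D s(v, x) * chi D s(z, w) + coh x v z w D) =
      (if x = c then (if w = y then ν c y else 0) else 0) +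
        (if x = a then (if w = y' then ν a y' else 0) else 0) := by
    intro x w
    by_cases hn : ν x w = 0
    · rw [hn, zero_mul]
      by_cases hxc : x = c
      · subst hxc
        rw [if_pos rfl, if_neg nac.symm, add_zero]
        split_ifs with hwy
        · rw [← hwy, hn]
        · rfl
      · rw [if_neg hxc, zero_add]
        split_ifs with hxa hwy
        · rw [← hwy, ← hxa, hn]
        · rfl
        · rfl
    · obtain ⟨a1, a2, a3, a4, a5⟩ := hν x w hn
      rw [xx_v h] at a1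
      by_cases hwD : s(z, w) ∈ D
      · rcases a1 with rfl | rfl | rfl
        · exact absurd rfl a4
        · rw [if_neg nac, if_pos rfl, zero_add, ca w a5, chi_of_mem hvaD, chi_of_mem hwD, mul_one]
          rcases hw w hwD with rfl | rfl
          · rw [h1, if_neg hyy, zmod2_add_self, mul_zero]
          · rw [d2, if_pos rfl, add_zero, mul_one]
        · rw [if_neg nac.symm, if_pos rfl, add_zero, cc w a5, chi_of_mem hvcD, chi_of_mem hwD, mul_one]
          rcases hw w hwD with rfl | rfl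
          · rw [d1, if_pos rfl, add_zero, mul_one]
          · rw [h2, if_neg hyy.symm, zmod2_add_self, mul_zero]
      · rw [chi_of_notMem hwD, coh_eq_zero_right hwD, mul_zero, add_zero, mul_zero]
        have hwy : w ≠ y := fun e => hwD (e ▸ hzy)
        have hwy' : w ≠ y' := fun e => hwD (e ▸ hzy')
        simp [hwy, hwy']
  simp only [hterm, Finset.sum_add_distrib]
  simp

end YREM

open YREM in
theorem specYRE (hYRA : SpecYRA) (hEXM : SpecEXM) (hTRA : SpecTRA) : SpecYRE := by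
  intro α _ _ G u v z p a c hdat f' hF hzero
  obtain ⟨nuv, nuz, nup, nua, nuc, nvz, nvp, nva, nvc, nzp, nza, nzc, npa, npc, nac⟩ := nes hdat.p33
  have hcn := hYRA.cn hdat
  have hvz := hYRA.vz hdat
  obtain ⟨ν, ρ, l, hν, hρ, hl, hf⟩ := hEXM hcn.1 hvz.1 hvz.2 (fun x h1 h2 => absurd ⟨h1, h2⟩ (hcn.2 x)) f' hF hzero
  have hX : contr (delE G u p) c u = XX G u a c := hYRA.hx hdat.p33
  rw [hX] at hν hρ hf hcn
  have hcnp : ∀ D, cnp (XX G u a c) v z l D = 0 := by
    intro D
    unfold cnp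
    refine Finset.sum_eq_zero fun x hx => ?_
    simp only [cmn, mem_filter, mem_univ, true_and] at hx
    exact absurd hx (hcn.2 x)
  refine ⟨fun y y' => ν c y + ν a y' + ρ (chi {s(v, a), s(v, c), s(z, y), s(z, y')}), fun y => ν c y + ν a y,
    fun y y' => ?_, fun P y y' hP h1 h2 => ?_⟩
  · have : ({s(v, a), s(v, c), s(z, y'), s(z, y)} : Finset (Sym2 α)) = {s(v, a), s(v, c), s(z, y), s(z, y')} := by
      ext e
      simp only [mem_insert, mem_singleton]
      tauto
    simp only [this]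
    have h2 := zmod2_add_self (ρ (chi {s(v, a), s(v, c), s(z, y), s(z, y')}))
    linear_combination h2
  · have hPX := pth_x hP
    have hva : (XX G u a c).Adj v a := (xx_v hdat.p33).2 (Or.inr (Or.inl rfl))
    have hvc : (XX G u a c).Adj v c := (xx_v hdat.p33).2 (Or.inr (Or.inr rfl))
    have hcyc : IsCyc (XX G u a c) (insert s(v, a) (insert s(v, c) P)) := isCyc_of_isPth_del hva hvc nac hPX
    simp only [lf_ff]
    rw [hf _ hcyc, hcnp, add_zero, eval hdat.p33 hdat.za hdat.zc ν hν hP h1 h2 _ rfl]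
    congr 1
    refine hTRA.loc hρ _ _ ?_
    rintro e ⟨heX, hve, hne⟩
    have hyzP : s(y, z) ∈ P := by
      by_contra hn
      rw [dirn_eq_zero_of_notMem hn] at h1
      exact zero_ne_one h1
    have hzyP : s(z, y') ∈ P := by
      by_contra hn
      rw [dirn_eq_zero_of_notMem hn] at h2
      exact zero_ne_one h2
    have hzy : s(z, y) ∈ insert s(v, a) (insert s(v, c) P) :=
      mem_insert_of_mem (mem_insert_of_mem (by rw [Sym2.eq_swap]; exact hyzP))
    have hzy' : s(z, y') ∈ insert s(v, a) (insert s(v, c) P) := mem_insert_of_mem (mem_insert_of_mem hzyP)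
    have hyy : y ≠ y' := by
      rintro rfl
      have := hP.dirn_add_swap y z
      rw [h1, h2, chi_of_mem hyzP] at this
      exact absurd this (by decide)
    have hiff : e ∈ insert s(v, a) (insert s(v, c) P) ↔ e ∈ ({s(v, a), s(v, c), s(z, y), s(z, y')} : Finset (Sym2 α)) := by
      constructor
      · intro he
        rcases hve with hve | hve
        · obtain ⟨w, rfl⟩ := Sym2.mem_iff_exists.1 hve
          have hadj : (XX G u a c).Adj v w := heX
          rcases (xx_v hdat.p33).1 hadj with rfl | rfl | rfl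
          · exact absurd rfl hne
          · simp
          · simp
        · obtain ⟨w, rfl⟩ := Sym2.mem_iff_exists.1 hve
          rcases hcyc.eq_or_eq hzy hzy' hyy he with rfl | rfl
          · simp
          · simp
      · intro he
        simp only [mem_insert, mem_singleton] at he
        rcases he with rfl | rfl | rfl | rfl
        · exact mem_insert_self _ _
        · exact mem_insert_of_mem (mem_insert_self _ _)
        · exact hzy
        · exact hzy'
    rw [chi_apply, chi_apply]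
    simp only [hiff]

end DL
end

section
/-!
# MP_3ff0f8_gt, ALGEBRA HALF: module YRG (helper32), the sum over the four cycles of a path
-/
set_option autoImplicit false

open SimpleGraph Finset

namespace DL

namespace YRGM

variable {α : Type} [Fintype α] [DecidableEq α] {G : SimpleGraph α} {u v z p a c : α}

/-- the cube -/
def cube : Bool × Bool × Bool × Bool ≃ (Fin 4 → Bool) where
  toFun x := ![x.1, x.2.1, x.2.2.1, x.2.2.2]
  invFun e := (e 0, e 1, e 2, e 3)
  left_inv _ := rfl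
  right_inv e := by
    funext i
    fin_cases i <;> rfl

def sq : Bool × Bool ≃ (Fin 2 → Bool) where
  toFun x := ![x.1, x.2]
  invFun e := (e 0, e 1)
  left_inv _ := rfl
  right_inv e := by
    funext i
    fin_cases i <;> rfl

theorem sum16 (H : Bool → Bool → Bool → Bool → ZMod 2) :
    ∑ e : Fin 4 → Bool, H (e 0) (e 1) (e 2) (e 3) =
      ∑ e : Fin 2 → Bool, ∑ b3 : Bool, ∑ b2 : Bool, H (e 0) (e 1) b2 b3 := by
  have h1 : ∑ e : Fin 4 → Bool, H (e 0) (e 1) (e 2) (e 3) =
      ∑ b0 : Bool, ∑ b1 : Bool, ∑ b2 : Bool, ∑ b3 : Bool, H b0 b1 b2 b3 := by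
    rw [← cube.sum_comp (fun e => H (e 0) (e 1) (e 2) (e 3))]
    simp only [Fintype.sum_prod_type]
    rfl
  have h2 : ∑ e : Fin 2 → Bool, ∑ b3 : Bool, ∑ b2 : Bool, H (e 0) (e 1) b2 b3 =
      ∑ b0 : Bool, ∑ b1 : Bool, ∑ b3 : Bool, ∑ b2 : Bool, H b0 b1 b2 b3 := by
    rw [← sq.sum_comp (fun e => ∑ b3 : Bool, ∑ b2 : Bool, H (e 0) (e 1) b2 b3)]
    simp only [Fintype.sum_prod_type]
    rfl
  rw [h1, h2]
  simp only [Fintype.sum_bool]
  ring

omit [Fintype α] [DecidableEq α] in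
theorem nes (h : P33 G u v z p a c) : (u ≠ v ∧ u ≠ z ∧ u ≠ p ∧ u ≠ a ∧ u ≠ c) ∧
    (v ≠ z ∧ v ≠ p ∧ v ≠ a ∧ v ≠ c) ∧ (z ≠ p ∧ z ≠ a ∧ z ≠ c) ∧ (p ≠ a ∧ p ≠ c) ∧ a ≠ c := by
  have := h.nd
  simp only [List.nodup_cons, List.mem_cons, List.not_mem_nil, or_false, not_or, List.nodup_nil,
    and_true, not_false_eq_true] at this
  exact this

theorem h_adj {x y : α} : (delE G u p).Adj x y ↔ G.Adj x y ∧ ¬ (x = u ∧ y = p) ∧ ¬ (x = p ∧ y = u) := by
  rw [delE_adj, ne_eq, Sym2.eq_iff, not_or]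

theorem hu (h : P33 G u v z p a c) (w : α) : (delE G u p).Adj u w ↔ w = v ∨ w = a ∨ w = c := by
  obtain ⟨⟨n1, n2, n3, n4, n5⟩, ⟨n6, n7, n8, n9⟩, ⟨n10, n11, n12⟩, ⟨n13, n14⟩, n15⟩ := nes h
  rw [h_adj, h.nx]
  constructor
  · rintro ⟨h1 | h1 | h1 | h1, h2, _⟩
    · tauto
    · exact absurd ⟨rfl, h1⟩ h2
    · tauto
    · tauto
  · rintro (rfl | rfl | rfl)
    · exact ⟨by tauto, fun h => n7 h.2, fun h => n3 h.1⟩
    · exact ⟨by tauto, fun h => n13 h.2.symm, fun h => n3 h.1⟩
    · exact ⟨by tauto, fun h => n14 h.2.symm, fun h => n3 h.1⟩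

theorem hv (h : P33 G u v z p a c) (w : α) : (delE G u p).Adj v w ↔ w = u ∨ w = z ∨ w = a ∨ w = c := by
  obtain ⟨⟨n1, n2, n3, n4, n5⟩, ⟨n6, n7, n8, n9⟩, ⟨n10, n11, n12⟩, ⟨n13, n14⟩, n15⟩ := nes h
  rw [h_adj, h.ny]
  constructor
  · exact fun h => h.1
  · exact fun h1 => ⟨h1, fun h => n1 h.1.symm, fun h => n7 h.1⟩

theorem del_eq (G : SimpleGraph α) (u v p : α) : del (delE G u p) {v, u} = del G {u, v} := by
  ext x y
  simp only [del, mem_insert, mem_singleton, not_or]
  rw [h_adj]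
  constructor
  · rintro ⟨⟨h1, _⟩, h2, h3⟩
    exact ⟨h1, ⟨h2.2, h2.1⟩, h3.2, h3.1⟩
  · rintro ⟨h1, h2, h3⟩
    exact ⟨⟨h1, fun h => h2.1 h.1, fun h => h3.1 h.2⟩, ⟨h2.2, h2.1⟩, h3.2, h3.1⟩

/-- the four cycles of a path -/
def psi (f : Finset (Sym2 α) → ZMod 2) (v u a c : α) (P : Finset (Sym2 α)) : ZMod 2 :=
  ∑ i : Bool, ∑ j : Bool, f (Lf v u a c i j P)

theorem psi_sum (hD4C : SpecD4C) (h : P33 G u v z p a c) {f : Finset (Sym2 α) → ZMod 2}
    (hf : D4even (delE G u p) f) (K : Ch2 (del (delE G u p) {v, u}) a c) :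
    ∑ e : Fin 2 → Bool, psi f v u a c (K.pth e) = 0 := by
  obtain ⟨⟨n1, n2, n3, n4, n5⟩, ⟨n6, n7, n8, n9⟩, ⟨n10, n11, n12⟩, ⟨n13, n14⟩, n15⟩ := nes h
  obtain ⟨D, hD⟩ := hD4C (G := delE G u p) (a := v) (b := u) (x := a) (y := c)
    ((hv h u).2 (by tauto)) ((hv h a).2 (by tauto)) ((hu h a).2 (by tauto)) ((hv h c).2 (by tauto))
    ((hu h c).2 (by tauto)) n15 K
  have h1 := hf D
  have h2 : ∀ e : Fin 4 → Bool, D.cyc e = Lf v u a c (e 3) (e 2) (K.pth ![e 0, e 1]) := by
    intro e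
    rw [hD e]
    rfl
  simp only [h2] at h1
  rw [sum16 (fun b0 b1 b2 b3 => f (Lf v u a c b3 b2 (K.pth ![b0, b1])))] at h1
  rw [← h1]
  refine Finset.sum_congr rfl fun e _ => ?_
  have h3 : ![e 0, e 1] = e := by
    funext i
    fin_cases i <;> rfl
  simp only [h3]
  rfl

end YRGM

open YRGM in
/-- **YRG** -/
theorem specYRG (hD4C : SpecD4C) (hRT1 : SpecRT1) (hYRC : SpecYRC) (hGLU : SpecGLU) : SpecYRG := by
  intro α _ _ G u v z p a c h f hf
  obtain ⟨⟨n1, n2, n3, n4, n5⟩, ⟨n6, n7, n8, n9⟩, ⟨n10, n11, n12⟩, ⟨n13, n14⟩, n15⟩ := nes h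
  obtain ⟨w0, w, hw⟩ := hRT1 (del (delE G u p) {v, u}) a c n15 (psi f v u a c)
    (fun K => psi_sum hD4C h hf K)
  rw [del_eq] at hw
  obtain ⟨w', hw'⟩ : ∃ w' : Chain α, w' = fun e => if u ∈ e ∨ v ∈ e then 0 else w e := ⟨_, rfl⟩
  obtain ⟨w2, hw2⟩ : ∃ w2 : Chain α, w2 = fun e => if e = s(u, v) then w0 else 0 := ⟨_, rfl⟩
  have hs2 : ∀ C : Finset (Sym2 α), ∑ e ∈ C, w2 e = if s(u, v) ∈ C then w0 else 0 := by
    intro C
    rw [hw2, Finset.sum_ite_eq']
  refine ⟨fun C => (chi C s(u, a) * chi C s(v, c) * (w0 + ∑ h ∈ C, w' h) +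
      chi C s(u, c) * chi C s(v, c) * (w0 + ∑ h ∈ C, w' h)) +
      chi C s(u, c) * chi C s(v, c) * (0 + ∑ h ∈ C, w2 h), ?_, ?_, ?_⟩
  · exact hGLU.add (hGLU.add (hGLU.quad _ _ _ _ _) (hGLU.quad _ _ _ _ _)) (hGLU.quad _ _ _ _ _)
  · intro C hC hno
    simp only
    by_cases hvc : s(v, c) ∈ C
    · rw [chi_of_mem hvc, mul_one, mul_one]
      by_cases hua : s(u, a) ∈ C
      · by_cases huc : s(u, c) ∈ C
        · have huv : s(u, v) ∉ C := by
            intro huv
            rcases hC.eq_or_eq hua huc n15 huv with e | e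
            · exact n8 e
            · exact n9 e
          rw [chi_of_mem hua, chi_of_mem huc, hs2, if_neg huv, zmod2_add_self]
          simp
        · obtain ⟨P, hP, hCP⟩ := hYRC.tri h C hC hvc hua huc
          exact absurd hCP (hno P hP)
      · by_cases huc : s(u, c) ∈ C
        · have huv : s(u, v) ∈ C := by
            obtain ⟨j, hj, hjC⟩ := hC.exists_other huc
            rcases (hu h j).1 (hC.adj_of_mem hjC) with rfl | rfl | rfl
            · exact hjC
            · exact absurd hjC hua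
            · exact absurd rfl hj
          have hCe := hYRC.uc h C hC hvc huc huv
          have h0 : ∑ e ∈ C, w' e = 0 := by
            refine Finset.sum_eq_zero fun e he => ?_
            rw [hCe] at he
            simp only [mem_insert, mem_singleton] at he
            rw [hw']
            rcases he with rfl | rfl | rfl
            · exact if_pos (Or.inr (by simp))
            · exact if_pos (Or.inl (by simp))
            · exact if_pos (Or.inl (by simp))
          rw [chi_of_notMem hua, chi_of_mem huc, hs2, if_pos huv, h0]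
          simp only [zero_mul, zero_add, one_mul, add_zero]
          exact zmod2_add_self _
        · rw [chi_of_notMem hua, chi_of_notMem huc]
          simp
    · rw [chi_of_notMem hvc]
      simp
  · intro P hP
    show psi f v u a c P = _
    have hPu : ∀ e ∈ P, u ∉ e ∧ v ∉ e := by
      intro e he
      have h1 := (isPth_del.1 hP).2
      constructor
      · intro h2
        exact Finset.disjoint_left.1 h1 (mem_vs.2 ⟨e, he, h2⟩) (by simp)
      · intro h2
        exact Finset.disjoint_left.1 h1 (mem_vs.2 ⟨e, he, h2⟩) (by simp)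
    have hL : Lf v u a c true false P = P ∪ {s(u, a), s(v, c), s(v, u)} := by
      unfold Lf
      simp only [if_true, Bool.false_eq_true, if_false, reduceCtorEq]
      ext e
      simp only [mem_union, mem_insert, mem_singleton]
      tauto
    have m1 : s(u, a) ∈ Lf v u a c true false P := by rw [hL]; simp
    have m2 : s(v, c) ∈ Lf v u a c true false P := by rw [hL]; simp
    have m3 : s(u, c) ∉ Lf v u a c true false P := by
      rw [hL]
      simp only [mem_union, mem_insert, mem_singleton, Sym2.eq_iff, not_or]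
      refine ⟨fun he => (hPu _ he).1 (by simp), ?_, ?_, ?_⟩
      · exact ⟨fun e => n15 e.2.symm, fun e => n4 e.1⟩
      · exact ⟨fun e => n1 e.1, fun e => n5 e.1⟩
      · exact ⟨fun e => n1 e.1, fun e => n9 e.2.symm⟩
    beta_reduce
    rw [chi_of_mem m1, chi_of_mem m2, chi_of_notMem m3]
    simp only [mul_one, one_mul, zero_mul, add_zero]
    rw [hw P hP]
    congr 1
    rw [hL, Finset.sum_union]
    · have e2 : ∑ e ∈ ({s(u, a), s(v, c), s(v, u)} : Finset (Sym2 α)), w' e = 0 := by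
        refine Finset.sum_eq_zero fun e he => ?_
        simp only [mem_insert, mem_singleton] at he
        rw [hw']
        rcases he with rfl | rfl | rfl
        · exact if_pos (Or.inl (by simp))
        · exact if_pos (Or.inr (by simp))
        · exact if_pos (Or.inl (by simp))
      rw [e2, add_zero]
      refine Finset.sum_congr rfl fun e he => ?_
      rw [hw']
      exact (if_neg (by rw [not_or]; exact hPu e he)).symm
    · rw [Finset.disjoint_left]
      intro e he he'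
      simp only [mem_insert, mem_singleton] at he'
      rcases he' with rfl | rfl | rfl
      · exact (hPu _ he).1 (by simp)
      · exact (hPu _ he).2 (by simp)
      · exact (hPu _ he).1 (by simp)

end DL
end

section
/-!
# YRI: assembly of `U (delE G u p)` in the case of a (3,3)-pair with `z` adjacent neither to `a` nor to `c`
-/
open SimpleGraph Finset

set_option linter.unusedSectionVars false

namespace DL

namespace YRIM

variable {α : Type} [Fintype α] [DecidableEq α] {G : SimpleGraph α} {u v z p a c : α}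

theorem nes (h : P33 G u v z p a c) : u ≠ v ∧ u ≠ z ∧ u ≠ p ∧ u ≠ a ∧ u ≠ c ∧ v ≠ z ∧ v ≠ p ∧
    v ≠ a ∧ v ≠ c ∧ z ≠ p ∧ z ≠ a ∧ z ≠ c ∧ p ≠ a ∧ p ≠ c ∧ a ≠ c := by
  have hnd' := h.nd
  simp only [List.nodup_cons, List.mem_cons, List.not_mem_nil, or_false, not_or, List.nodup_nil, and_true,
    not_false_eq_true] at hnd'
  obtain ⟨⟨h1, h2, h3, h4, h5⟩, ⟨h6, h7, h8, h9⟩, ⟨h10, h11, h12⟩, ⟨h13, h14⟩, h15⟩ := hnd'
  exact ⟨h1, h2, h3, h4, h5, h6, h7, h8, h9, h10, h11, h12, h13, h14, h15⟩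

theorem notMem_pth {P : Finset (Sym2 α)} (hP : IsPth (del G {u, v}) a c P) {x y : α}
    (hx : x = u ∨ x = v) : s(x, y) ∉ P := by
  intro h
  have h1 := hP.adj_of_mem h
  have h2 : G.Adj x y ∧ x ∉ ({u, v} : Finset α) ∧ y ∉ ({u, v} : Finset α) := h1
  simp only [mem_insert, mem_singleton, not_or] at h2
  rcases hx with rfl | rfl
  · exact h2.2.1.1 rfl
  · exact h2.2.1.2 rfl

theorem lf_tt (P : Finset (Sym2 α)) : Lf v u a c true true P = P ∪ {s(u, a), s(u, c)} := by
  unfold Lf; simp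

theorem lf_tf (P : Finset (Sym2 α)) :
    Lf v u a c true false P = P ∪ {s(u, a), s(v, c)} ∪ {s(v, u)} := by
  unfold Lf; simp

theorem lf_ft (P : Finset (Sym2 α)) :
    Lf v u a c false true P = P ∪ {s(v, a), s(u, c)} ∪ {s(v, u)} := by
  unfold Lf; simp

theorem lf_ff (P : Finset (Sym2 α)) : Lf v u a c false false P = P ∪ {s(v, a), s(v, c)} := by
  unfold Lf; simp

theorem z_mem {P : Finset (Sym2 α)} {y : α} (h : dirn a y z P = 1) : z ∈ vs P := by
  have h1 : s(y, z) ∈ P := by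
    by_contra hn
    unfold dirn at h
    rw [if_neg (fun h' => hn h'.1)] at h
    exact zero_ne_one h
  exact right_mem_vs h1

/-- the lifts which are not `a u v c + P` -/
theorem lf_ne (h : P33 G u v z p a c) {P P' : Finset (Sym2 α)} (hP : IsPth (del G {u, v}) a c P)
    {i j : Bool} (hij : ¬ (i = true ∧ j = false)) : Lf v u a c i j P ≠ Lf v u a c true false P' := by
  obtain ⟨nuv, nuz, nup, nua, nuc, nvz, nvp, nva, nvc, nzp, nza, nzc, npa, npc, nac⟩ := nes h
  intro he
  have h1 : s(u, a) ∈ Lf v u a c true false P' := by rw [lf_tf]; simp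
  have h2 : s(v, c) ∈ Lf v u a c true false P' := by rw [lf_tf]; simp
  rw [← he] at h1 h2
  have m1 : s(u, a) ∉ P := notMem_pth hP (Or.inl rfl)
  have m2 : s(v, c) ∉ P := notMem_pth hP (Or.inr rfl)
  cases i <;> cases j
  · rw [lf_ff] at h1
    simp only [mem_union, mem_insert, mem_singleton, Sym2.eq_iff] at h1
    rcases h1 with h1 | ⟨h1, -⟩ | ⟨-, h1⟩ | ⟨h1, -⟩ | ⟨h1, -⟩
    all_goals first | exact m1 h1 | grind
  · rw [lf_ft] at h1
    simp only [mem_union, mem_insert, mem_singleton, Sym2.eq_iff] at h1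
    grind
  · exact hij ⟨rfl, rfl⟩
  · rw [lf_tt] at h2
    simp only [mem_union, mem_insert, mem_singleton, Sym2.eq_iff] at h2
    grind

/-- `vz` is in no lift -/
theorem vz_notMem (h : P33 G u v z p a c) {P : Finset (Sym2 α)} (hP : IsPth (del G {u, v}) a c P)
    (i j : Bool) : s(v, z) ∉ Lf v u a c i j P := by
  obtain ⟨nuv, nuz, nup, nua, nuc, nvz, nvp, nva, nvc, nzp, nza, nzc, npa, npc, nac⟩ := nes h
  have m2 : s(v, z) ∉ P := notMem_pth hP (Or.inr rfl)
  intro h1
  cases i <;> cases j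
  · rw [lf_ff] at h1
    simp only [mem_union, mem_insert, mem_singleton, Sym2.eq_iff] at h1
    grind
  · rw [lf_ft] at h1
    simp only [mem_union, mem_insert, mem_singleton, Sym2.eq_iff] at h1
    grind
  · rw [lf_tf] at h1
    simp only [mem_union, mem_insert, mem_singleton, Sym2.eq_iff] at h1
    grind
  · rw [lf_tt] at h1
    simp only [mem_union, mem_insert, mem_singleton, Sym2.eq_iff] at h1
    grind

theorem mem_vs_lf (h : P33 G u v z p a c) {P : Finset (Sym2 α)} {i j : Bool}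
    (hz : z ∈ vs (Lf v u a c i j P)) : z ∈ vs P := by
  obtain ⟨nuv, nuz, nup, nua, nuc, nvz, nvp, nva, nvc, nzp, nza, nzc, npa, npc, nac⟩ := nes h
  obtain ⟨e, he, hze⟩ := mem_vs.1 hz
  by_cases heP : e ∈ P
  · exact mem_vs.2 ⟨e, heP, hze⟩
  exfalso
  unfold Lf at he
  simp only [mem_union, mem_insert, mem_singleton] at he
  rcases he with (he | he | he) | he
  · exact heP he
  · rw [he, Sym2.mem_iff] at hze
    cases i <;> simp at hze <;> rcases hze with hze | hze <;> grind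
  · rw [he, Sym2.mem_iff] at hze
    cases j <;> simp at hze <;> rcases hze with hze | hze <;> grind
  · cases i <;> cases j <;> simp at he
    all_goals rw [he, Sym2.mem_iff] at hze; rcases hze with hze | hze <;> grind

theorem v_notMem_tt (h : P33 G u v z p a c) {P : Finset (Sym2 α)} (hP : IsPth (del G {u, v}) a c P) :
    v ∉ vs (Lf v u a c true true P) := by
  obtain ⟨nuv, nuz, nup, nua, nuc, nvz, nvp, nva, nvc, nzp, nza, nzc, npa, npc, nac⟩ := nes h
  intro hv
  obtain ⟨e, he, hve⟩ := mem_vs.1 hv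
  rw [lf_tt] at he
  simp only [mem_union, mem_insert, mem_singleton] at he
  obtain ⟨x, rfl⟩ := Sym2.mem_iff_exists.1 hve
  rcases he with he | he | he
  · exact notMem_pth hP (Or.inr rfl) he
  · rw [Sym2.eq_iff] at he; grind
  · rw [Sym2.eq_iff] at he; grind

end YRIM

open YRIM in
theorem specYRI (hME : SpecME) (hYRB : SpecYRB) (hYRC : SpecYRC) (hYRD : SpecYRD) (hYRE : SpecYRE)
    (hYRG : SpecYRG) (hYRH : SpecYRH) (hGLU : SpecGLU) : SpecYRI := by
  classical
  intro α _ _ G u v z p a c hD f hf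
  have h := hD.p33
  obtain ⟨nuv, nuz, nup, nua, nuc, nvz, nvp, nva, nvc, nzp, nza, nzc, npa, npc, nac⟩ := nes h
  -- `v ~ z` in `H`, no common neighbours
  have hadj : ∀ x y, (delE G u p).Adj x y ↔ G.Adj x y ∧ s(x, y) ≠ s(u, p) := by
    intro x y
    unfold delE
    rw [deleteEdges_adj, Set.mem_singleton_iff]
  have hvz : (delE G u p).Adj v z := by
    rw [hadj]
    refine ⟨(h.ny z).2 (by tauto), ?_⟩
    rw [Ne, Sym2.eq_iff]; grind
  have hcn : ∀ x, (delE G u p).Adj v x → (delE G u p).Adj z x → False := by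
    intro x h1 h2
    rw [hadj] at h1 h2
    rcases (h.ny x).1 h1.1 with rfl | rfl | rfl | rfl
    · have h3 := (h.nx z).1 h2.1.symm
      grind
    · exact h2.1.ne rfl
    · exact hD.za h2.1
    · exact hD.zc h2.1
  obtain ⟨hk3, hU⟩ := hYRB hD
  obtain ⟨φ₀, hφ₀, h0⟩ := hME hvz hk3 hU (fun x h1 h2 => (hcn x h1 h2).elim) f hf
  have ev1 : D4even (delE G u p) (fun C => f C + φ₀ C) := hGLU.dadd hf hφ₀
  have zr1 : ∀ C, CycM (delE G u p) v z C → f C + φ₀ C = 0 := by
    intro C hC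
    rw [h0 C hC, zmod2_add_self]
  obtain ⟨φ₁, hφ₁, z1, v1⟩ := hYRG h (fun C => f C + φ₀ C) ev1
  -- normalized function
  have ev2 : D4even (delE G u p) (fun C => (f C + φ₀ C) + φ₁ C) := hGLU.dadd ev1 hφ₁
  have zr2 : ∀ C, CycM (delE G u p) v z C → (f C + φ₀ C) + φ₁ C = 0 := by
    intro C hC
    rw [zr1 C hC, zero_add]
    by_cases hex : ∃ P, IsPth (del G {u, v}) a c P ∧ C = Lf v u a c true false P
    · obtain ⟨P, hP, rfl⟩ := hex
      have hvC : v ∈ vs (Lf v u a c true false P) := by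
        refine mem_vs.2 ⟨s(v, c), ?_, by simp⟩
        rw [lf_tf]; simp
      have hzC : z ∉ vs (Lf v u a c true false P) := fun hz =>
        vz_notMem h hP true false (hC.2 hvC hz)
      have hzP : z ∉ vs P := by
        intro hz
        refine hzC (vs_mono ?_ hz)
        rw [lf_tf]
        intro e he
        simp only [mem_union]
        exact Or.inl (Or.inl he)
      rw [← v1 P hP]
      refine sum_eq_zero fun i _ => sum_eq_zero fun j _ => ?_
      refine zr1 _ ⟨hYRC.cyc h i j P hP, fun _ hz => ?_⟩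
      exact absurd (mem_vs_lf h hz) hzP
    · exact z1 C hC.1 (fun P hP he => hex ⟨P, hP, he⟩)
  have hF : YRFun G u v z p a c (fun C => (f C + φ₀ C) + φ₁ C) := ⟨hD, ev2, zr2⟩
  -- relation between the lifts
  have rel : ∀ P, IsPth (del G {u, v}) a c P → z ∈ vs P →
      (f (Lf v u a c true false P) + φ₀ (Lf v u a c true false P)) + φ₁ (Lf v u a c true false P) =
      ((f (Lf v u a c false false P) + φ₀ (Lf v u a c false false P)) + φ₁ (Lf v u a c false false P)) +
      ((f (Lf v u a c false true P) + φ₀ (Lf v u a c false true P)) + φ₁ (Lf v u a c false true P)) := by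
    intro P hP hz
    have e1 := v1 P hP
    simp only [Fintype.sum_bool] at e1
    have e2 : φ₁ (Lf v u a c false false P) = 0 :=
      z1 _ (hYRC.cyc h _ _ P hP) (fun P' _ => lf_ne h hP (by simp))
    have e3 : φ₁ (Lf v u a c false true P) = 0 :=
      z1 _ (hYRC.cyc h _ _ P hP) (fun P' _ => lf_ne h hP (by simp))
    have e4 : f (Lf v u a c true true P) + φ₀ (Lf v u a c true true P) = 0 :=
      zr1 _ ⟨hYRC.cyc h _ _ P hP, fun hv => absurd hv (v_notMem_tt h hP)⟩
    rw [e4, zero_add] at e1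
    rw [← e1, e2, e3]
    have := zmod2_add_self (f (Lf v u a c true false P) + φ₀ (Lf v u a c true false P))
    linear_combination this
  -- the two local forms
  obtain ⟨f₀, hf₀, hz₀, hv₀⟩ := hYRD hF false
  obtain ⟨f₁, hf₁, hz₁, hv₁⟩ := hYRD hF true
  obtain ⟨g₀, κ₀, sy₀, hg₀⟩ := hYRE hD f₀ hf₀ hz₀
  obtain ⟨g₁, κ₁, sy₁, hg₁⟩ := hYRE hD f₁ hf₁ hz₁
  obtain ⟨E, hE, zE, vE⟩ := hYRH.c hD (fun y y' => g₀ y y' + g₁ y y') (fun y => κ₀ y + κ₁ y) (by
    intro y y'
    linear_combination sy₀ y y' + sy₁ y y')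
  obtain ⟨E', hE', zE', vE'⟩ := hYRH.a hD g₁ κ₁ sy₁
  refine hGLU.congr (g := fun C => φ₀ C + (φ₁ C + (E C + E' C))) ?_ (hGLU.add hφ₀ (hGLU.add hφ₁ (hGLU.add hE hE')))
  intro C hC
  suffices hs : ((f C + φ₀ C) + φ₁ C) + (E C + E' C) = 0 by
    have e1 := zmod2_add_self (φ₀ C + (φ₁ C + (E C + E' C)))
    linear_combination hs - e1
  by_cases hM : CycM (delE G u p) v z C
  · rw [zr2 C hM, zE C hM, zE' C hM]; simp
  · have hM' : v ∈ vs C ∧ z ∈ vs C ∧ s(v, z) ∉ C := by
      unfold CycM at hM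
      push Not at hM
      exact hM hC
    obtain ⟨P, i, j, hP, hzP, hij, rfl⟩ := hYRC.cls h C hC hM'.1 hM'.2.1 hM'.2.2
    obtain ⟨y, y', hy, hy'⟩ := hYRC.yy hP hzP nza nzc
    obtain ⟨a1, a2, a3⟩ := vE P y y' hP hy hy'
    obtain ⟨b1, b2, b3⟩ := vE' P y y' hP hy hy'
    have c0 := hg₀ P y y' hP hy hy'
    have c1 := hg₁ P y y' hP hy hy'
    have d0 := hv₀ P hP hzP
    have d1 := hv₁ P hP hzP
    simp only at c0 c1 d0 d1 a1 a2 a3
    have s0 := zmod2_add_self (g₀ y y')
    have s1 := zmod2_add_self (g₁ y y')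
    have r := rel P hP hzP
    cases i <;> cases j
    · rw [a1, b1, ← d0, c0]
      linear_combination s0 + s1
    · rw [a3, b2, ← d1, c1]
      linear_combination s1
    · rw [a2, b3, r, ← d0, ← d1, c0, c1]
      linear_combination s0 + s1
    · simp at hij

end DL
end

section
/-!
MP_3ff0f8_gt, ALGEBRA HALF, module YRJ (helper49): the two facts on a rigid vertex of degree 4
-/
open SimpleGraph Finset

namespace DL

namespace YRJM

variable {α : Type} [Fintype α] [DecidableEq α]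

theorem mem_NB1 {G : SimpleGraph α} {u w : α} : w ∈ NB G {u} ↔ G.Adj u w := by
  classical
  simp only [NB, mem_filter, mem_univ, true_and, mem_singleton, exists_eq_left]
  exact ⟨fun h => h.2, fun h => ⟨h.ne.symm, h⟩⟩

theorem mem_NB2 {G : SimpleGraph α} {u v w : α} :
    w ∈ NB G {u, v} ↔ w ≠ u ∧ w ≠ v ∧ (G.Adj u w ∨ G.Adj v w) := by
  classical
  simp only [NB, mem_filter, mem_univ, true_and, mem_insert, mem_singleton, exists_eq_or_imp,
    exists_eq_left, not_or]
  tauto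

/-- two vertices with at most three outer neighbours: impossible -/
theorem few (hNBF : SpecNBF) {G : SimpleGraph α} {u v : α} {B : Finset α} (hG : K48 G)
    (hu : u ∈ VS G) (hv : v ∈ VS G) (hB : B.card ≤ 3)
    (h : ∀ w, w ≠ u → w ≠ v → G.Adj u w ∨ G.Adj v w → w ∈ B) : False := by
  have hsub : NB G {u, v} ⊆ B := by
    intro w hw
    rw [mem_NB2] at hw
    exact h w hw.1 hw.2.1 hw.2.2
  have hc : (NB G {u, v}).card ≤ 3 := (card_le_card hsub).trans hB
  have h1 := hNBF.nb (A := {u, v}) hG.1 (by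
    intro w hw
    rw [mem_insert, mem_singleton] at hw
    rcases hw with rfl | rfl <;> assumption) ⟨u, mem_insert_self _ _⟩ (by omega)
  have h2 := card_le_card h1
  have h3 := card_union_le ({u, v} : Finset α) (NB G {u, v})
  have h4 : ({u, v} : Finset α).card ≤ 2 := card_le_two
  have h5 := hG.2
  omega

theorem cj {G : SimpleGraph α} {u : α} (hG : K48 G) (hr : Rig G u) (hu : u ∈ VS G) :
    C1 (del G {u}) := by
  have hK : KConn 3 (del G {u}) := hG.1.del_vertex (by omega) u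
  have hV : VS (del G {u}) = (VS G).erase u := by
    rw [hG.1.VS_del (S := {u}) (by rw [card_singleton]; omega), sdiff_singleton_eq_erase]
  refine ⟨hK, ?_⟩
  intro S P Q hs hS
  have huV : u ∉ VS (del G {u}) := by rw [hV]; exact notMem_erase _ _
  have huS : u ∉ S := fun e => huV (hs.subS e)
  have huP : u ∉ P := fun e => huV (hs.subP e)
  have huQ : u ∉ Q := fun e => huV (hs.subQ e)
  refine hr (insert u S) P Q ⟨?_, ?_, ?_, hs.2.2.2.1, ?_⟩ ?_ (mem_insert_self _ _)
  · rw [insert_union, insert_union, hs.1, hV, insert_erase hu]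
  · rw [disjoint_insert_left]; exact ⟨huP, hs.2.1⟩
  · rw [disjoint_insert_left]; exact ⟨huQ, hs.2.2.1⟩
  · intro a ha b hb hab
    refine hs.2.2.2.2 a ha b hb ⟨hab, ?_, ?_⟩
    · rw [mem_singleton]; exact fun e => huP (e ▸ ha)
    · rw [mem_singleton]; exact fun e => huQ (e ▸ hb)
  · rw [card_insert_of_notMem huS, hS]

/-- names of the neighbours of a vertex of degree 4, one is given -/
theorem nb4 {G : SimpleGraph α} {u p : α} (hd : dg G u = 4) (hp : G.Adj u p) :
    ∃ x y z, x ≠ y ∧ x ≠ z ∧ y ≠ z ∧ x ≠ p ∧ y ≠ p ∧ z ≠ p ∧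
      ∀ w, G.Adj u w ↔ w = p ∨ w = x ∨ w = y ∨ w = z := by
  have h1 : ((NB G {u}).erase p).card = 3 := by
    rw [card_erase_of_mem (mem_NB1.2 hp)]
    have h2 : (NB G {u}).card = 4 := hd
    omega
  obtain ⟨x, y, z, hxy, hxz, hyz, h3⟩ := card_eq_three.1 h1
  have h4 : ∀ w, w ≠ p ∧ G.Adj u w ↔ w = x ∨ w = y ∨ w = z := by
    intro w
    rw [← mem_NB1, ← mem_erase, h3]
    simp only [mem_insert, mem_singleton]
  refine ⟨x, y, z, hxy, hxz, hyz, ((h4 x).2 (by tauto)).1, ((h4 y).2 (by tauto)).1,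
    ((h4 z).2 (by tauto)).1, ?_⟩
  intro w
  by_cases hw : w = p
  · subst hw; simp [hp]
  · rw [← h4 w]
    simp [hw]

/-- the case distinction of `p33`: `N(u) = {v, p, a, c}`, `v` is adjacent to `a`, `c` -/
theorem fin (hNBF : SpecNBF) {G : SimpleGraph α} {u v p a c : α} (hG : K48 G)
    (hva : v ≠ a) (hvc : v ≠ c) (hvp : v ≠ p) (hac : a ≠ c) (hap : a ≠ p) (hcp : c ≠ p)
    (hu : ∀ w, G.Adj u w ↔ w = v ∨ w = p ∨ w = a ∨ w = c) (hd : dg G v = 4)
    (ha : G.Adj v a) (hc : G.Adj v c) : ∃ v z a c, P33 G u v z p a c := by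
  have huv : G.Adj u v := (hu v).2 (Or.inl rfl)
  have hup : G.Adj u p := (hu p).2 (by tauto)
  have hua : G.Adj u a := (hu a).2 (by tauto)
  have huc : G.Adj u c := (hu c).2 (by tauto)
  have h0 : (NB G {v}).card = 4 := hd
  have h1 : ((NB G {v}).erase u).card = 3 := by
    rw [card_erase_of_mem (mem_NB1.2 huv.symm)]
    omega
  have h2 : (((NB G {v}).erase u).erase a).card = 2 := by
    rw [card_erase_of_mem (mem_erase.2 ⟨hua.ne.symm, mem_NB1.2 ha⟩)]
    omega
  have h3 : ((((NB G {v}).erase u).erase a).erase c).card = 1 := by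
    rw [card_erase_of_mem (mem_erase.2 ⟨hac.symm, mem_erase.2 ⟨huc.ne.symm, mem_NB1.2 hc⟩⟩)]
    omega
  obtain ⟨z, hz⟩ := card_eq_one.1 h3
  have h4 : ∀ w, (w ≠ c ∧ w ≠ a ∧ w ≠ u ∧ G.Adj v w) ↔ w = z := by
    intro w
    rw [← mem_NB1, ← mem_erase, ← mem_erase, ← mem_erase, hz, mem_singleton]
  obtain ⟨hzc, hza, hzu, hvz⟩ := (h4 z).2 rfl
  have hv : ∀ w, G.Adj v w ↔ w = u ∨ w = z ∨ w = a ∨ w = c := by
    intro w
    by_cases e1 : w = u
    · subst e1; simp [huv.symm]
    by_cases e2 : w = a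
    · subst e2; simp [ha]
    by_cases e3 : w = c
    · subst e3; simp [hc]
    rw [← h4 w]
    tauto
  by_cases hzp : z = p
  · exfalso
    subst hzp
    refine few hNBF (u := u) (v := v) (B := {z, a, c}) hG (left_mem_VS huv) (right_mem_VS huv)
      card_le_three ?_
    intro w hwu hwv hw
    rw [hu, hv] at hw
    simp only [mem_insert, mem_singleton]
    tauto
  · refine ⟨v, z, a, c, ?_, hu, hv⟩
    simp only [List.nodup_cons, List.mem_cons, List.not_mem_nil, or_false, not_or, List.nodup_nil,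
      and_true, not_false_eq_true]
    exact ⟨⟨huv.ne, hzu.symm, hup.ne, hua.ne, huc.ne⟩, ⟨hvz.ne, hvp, hva, hvc⟩, ⟨hzp, hza, hzc⟩,
      ⟨hap.symm, hcp.symm⟩, hac⟩

theorem p33 (hCRL : SpecCRL) (hDST : SpecDST) (hNBF : SpecNBF) {G : SimpleGraph α} {u p : α}
    (hG : K48 G) (hr : Rig G u) (hd : dg G u = 4) (hp : G.Adj u p) :
    C1 (delE G u p) ∨ ∃ v z a c, P33 G u v z p a c := by
  obtain ⟨x, y, z, hxy, hxz, hyz, hxp, hyp, hzp, hu⟩ := nb4 hd hp
  by_cases hcase : ∀ v, G.Adj u v → dg G v = 4 → ∃ w, G.Adj u w ∧ w ≠ v ∧ ¬ G.Adj v w ∧ w ∉ ({p} : Finset α)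
  · left
    rw [← hDST.one]
    refine hCRL.rig hG hr hxy hxz hyz ?_ hcase
    intro w hw
    refine ⟨(hu w).2 (by tauto), ?_⟩
    rw [mem_singleton]
    rintro rfl
    rcases hw with e | e | e
    · exact hxp e.symm
    · exact hyp e.symm
    · exact hzp e.symm
  · right
    push Not at hcase
    obtain ⟨v, hv, hdv, hall⟩ := hcase
    have hall' : ∀ w, G.Adj u w → w ≠ v → w ≠ p → G.Adj v w := by
      intro w h1 h2 h3
      by_contra h4
      exact h3 (mem_singleton.1 (hall w h1 h2 h4))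
    have hux : G.Adj u x := (hu x).2 (by tauto)
    have huy : G.Adj u y := (hu y).2 (by tauto)
    have huz : G.Adj u z := (hu z).2 (by tauto)
    rcases (hu v).1 hv with rfl | rfl | rfl | rfl
    · exfalso
      have hvx := hall' x hux hxp hxp
      have hvy := hall' y huy hyp hyp
      have hvz := hall' z huz hzp hzp
      have h0 : (NB G {v}).card = 4 := hdv
      have hsub : ({u, x, y, z} : Finset α) ⊆ NB G {v} := by
        intro w hw
        rw [mem_NB1]
        simp only [mem_insert, mem_singleton] at hw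
        rcases hw with rfl | rfl | rfl | rfl
        · exact hv.symm
        · exact hvx
        · exact hvy
        · exact hvz
      have hcard : ({u, x, y, z} : Finset α).card = 4 := by
        rw [card_insert_of_notMem (by
          simp only [mem_insert, mem_singleton, not_or]
          exact ⟨hux.ne, huy.ne, huz.ne⟩), card_eq_three.2 ⟨x, y, z, hxy, hxz, hyz, rfl⟩]
      have heq := eq_of_subset_of_card_le hsub (by omega)
      refine few hNBF (u := u) (v := v) (B := {x, y, z}) hG (left_mem_VS hv) (right_mem_VS hv)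
        card_le_three ?_
      intro w hwu hwv hw
      rw [← mem_NB1 (u := v), ← heq, hu] at hw
      simp only [mem_insert, mem_singleton] at hw ⊢
      tauto
    · refine fin hNBF (a := y) (c := z) hG hxy hxz hxp hyz hyp hzp ?_ hdv
        (hall' y huy hxy.symm hyp) (hall' z huz hxz.symm hzp)
      intro w; rw [hu]; tauto
    · refine fin hNBF (a := x) (c := z) hG hxy.symm hyz hyp hxz hxp hzp ?_ hdv
        (hall' x hux hxy hxp) (hall' z huz hyz.symm hzp)
      intro w; rw [hu]; tauto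
    · refine fin hNBF (a := x) (c := y) hG hxz.symm hyz.symm hzp hxy hxp hyp ?_ hdv
        (hall' x hux hxz hxp) (hall' y huy hyz hyp)
      intro w; rw [hu]; tauto

end YRJM

theorem specYRJ (hCRL : SpecCRL) (hDST : SpecDST) (hNBF : SpecNBF) : SpecYRJ where
  cj := YRJM.cj
  p33 := YRJM.p33 hCRL hDST hNBF

end DL
end
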