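import Pool.Agent.DL.Y.SpecV
import Pool.Agent.DL.TREE
import Pool.Agent.DL.KC
import Pool.Agent.DL.PC
import Pool.Agent.DL.PC2
import Pool.Agent.DL.MENG

section
/-!
MP_3ff0f8_gt, STEP Y, LEMMA IV: module V3L (the R3 lemma).  (helper34)
-/
open SimpleGraph Finset

namespace DL

namespace V3LM

set_option linter.unusedSectionVars false
set_option linter.unusedFintypeInType false
set_option linter.unusedDecidableInType false

variable {α : Type} [Fintype α] [DecidableEq α] {N : SimpleGraph α}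

theorem Tou.symm {X Y : Finset α} (h : Tou N X Y) : Tou N Y X := by
  obtain ⟨x, hx, y, hy, h⟩ := h
  exact ⟨y, hy, x, hx, h.symm⟩

theorem Tou.mono {X Y X' Y' : Finset α} (h : Tou N X Y) (hX : X ⊆ X') (hY : Y ⊆ Y') : Tou N X' Y' := by
  obtain ⟨x, hx, y, hy, h⟩ := h
  exact ⟨x, hX hx, y, hY hy, h⟩

theorem cset_single (a : α) : CSet N {a} := by
  refine ⟨⟨a, mem_singleton_self a⟩, ?_⟩
  intro u hu v hv
  rw [mem_singleton] at hu hv
  rw [hu, hv]

theorem exb_mem {a b : α} {S : Finset α} (h : a ∈ S) : exb a b S = insert b S := by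
  rw [exb, if_pos h]

theorem exb_notMem {a b : α} {S : Finset α} (h : a ∉ S) : exb a b S = S := by
  rw [exb, if_neg h]

theorem subset_exb (a b : α) (S : Finset α) : S ⊆ exb a b S := by
  by_cases h : a ∈ S
  · rw [exb_mem h]
    exact subset_insert _ _
  · rw [exb_notMem h]

theorem exb_erase {a b : α} {S : Finset α} (ha : a ∈ S) (hb : b ∈ S) (hab : a ≠ b) :
    exb a b (S.erase b) = S := by
  rw [exb_mem (mem_erase.2 ⟨hab, ha⟩), insert_erase hb]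

theorem exb_disjoint {a b : α} {S S' : Finset α} (h : Disjoint S S') (hb : b ∉ S) (hb' : b ∉ S') :
    Disjoint (exb a b S) (exb a b S') := by
  by_cases ha : a ∈ S
  · have ha' : a ∉ S' := disjoint_left.1 h ha
    rw [exb_mem ha, exb_notMem ha', disjoint_insert_left]
    exact ⟨hb', h⟩
  · rw [exb_notMem ha]
    by_cases ha' : a ∈ S'
    · rw [exb_mem ha', disjoint_insert_right]
      exact ⟨hb, h⟩
    · rw [exb_notMem ha']
      exact h

/-- `b` is isolated in `contr N a b` -/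
theorem notMem_contr {a b s : α} {S : Finset α} (h : CSet (contr N a b) S) (hs : s ∈ S) (hsb : s ≠ b) : b ∉ S := by
  intro hb
  obtain ⟨w, hw⟩ := exists_adj_of_reachable (h.2 b hb s hs) (Ne.symm hsb)
  exact hw.1.1 rfl

/-- the conclusion -/
def Good (N : SimpleGraph α) (t₁ t₂ v₁ v₂ v₃ : α) : Prop := ∃ (x u w : α) (T₁ T₂ X U W : Finset α),
    ((x = v₁ ∧ u = v₂ ∧ w = v₃) ∨ (x = v₂ ∧ u = v₁ ∧ w = v₃) ∨ (x = v₃ ∧ u = v₁ ∧ w = v₂)) ∧
    K23 N t₁ t₂ x u w T₁ T₂ X U W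

theorem K23.swap {t₁ t₂ x u w : α} {T₁ T₂ X U W : Finset α} (h : K23 N t₁ t₂ x u w T₁ T₂ X U W) :
    K23 N t₁ t₂ x w u T₁ T₂ X W U where
  c := ⟨h.c.1, h.c.2.1, h.c.2.2.1, h.c.2.2.2.2, h.c.2.2.2.1⟩
  m := ⟨h.m.1, h.m.2.1, h.m.2.2.1, h.m.2.2.2.2, h.m.2.2.2.1⟩
  dT := ⟨h.dT.1, h.dT.2.1, h.dT.2.2.2, h.dT.2.2.1⟩
  dS := ⟨h.dS.1, h.dS.2.2, h.dS.2.1⟩
  dX := ⟨h.dX.2.1, h.dX.1, h.dX.2.2.symm⟩
  tU := h.tW
  tW := h.tU

theorem K23.swapT {t₁ t₂ x u w : α} {T₁ T₂ X U W : Finset α} (h : K23 N t₁ t₂ x u w T₁ T₂ X U W) :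
    K23 N t₂ t₁ x u w T₂ T₁ X U W where
  c := ⟨h.c.2.1, h.c.1, h.c.2.2⟩
  m := ⟨h.m.2.1, h.m.1, h.m.2.2⟩
  dT := ⟨h.dT.1.symm, h.dS.1, h.dS.2.1, h.dS.2.2⟩
  dS := ⟨h.dT.2.1, h.dT.2.2.1, h.dT.2.2.2⟩
  dX := h.dX
  tU := ⟨h.tU.2.1, h.tU.1, h.tU.2.2⟩
  tW := ⟨h.tW.2.1, h.tW.1, h.tW.2.2⟩

theorem Good.swap {t₁ t₂ v₁ v₂ v₃ : α} (h : Good N t₁ t₂ v₁ v₃ v₂) : Good N t₁ t₂ v₁ v₂ v₃ := by
  obtain ⟨x, u, w, T₁, T₂, X, U, W, h1, h2⟩ := h
  rcases h1 with ⟨hx, hu, hw⟩ | ⟨hx, hu, hw⟩ | ⟨hx, hu, hw⟩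
  · exact ⟨x, w, u, T₁, T₂, X, W, U, Or.inl ⟨hx, hw, hu⟩, K23.swap h2⟩
  · exact ⟨x, u, w, T₁, T₂, X, U, W, Or.inr (Or.inr ⟨hx, hu, hw⟩), h2⟩
  · exact ⟨x, u, w, T₁, T₂, X, U, W, Or.inr (Or.inl ⟨hx, hu, hw⟩), h2⟩

theorem Good.swapT {t₁ t₂ v₁ v₂ v₃ : α} (h : Good N t₂ t₁ v₁ v₂ v₃) : Good N t₁ t₂ v₁ v₂ v₃ := by
  obtain ⟨x, u, w, T₁, T₂, X, U, W, h1, h2⟩ := h
  exact ⟨x, u, w, T₂, T₁, X, U, W, h1, K23.swapT h2⟩

theorem R3D.swap {t₁ t₂ v₁ v₂ v₃ : α} {P Q P' Q' : Finset α} (h : R3D N t₁ t₂ v₁ v₂ v₃ P Q P' Q') :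
    R3D N t₁ t₂ v₁ v₃ v₂ P' Q' P Q where
  n12 := h.n12
  h1 := h.un ▸ h.h1
  h2 := h.un ▸ h.h2
  un := h.un.symm
  dj := h.dj'
  dj' := h.dj
  c := ⟨h.c.2.2.1, h.c.2.2.2, h.c.1, h.c.2.1⟩
  a1 := ⟨h.a1.2.2.1, h.a1.2.2.2, h.a1.1, h.a1.2.1⟩
  a2 := ⟨h.a2.2.2.1, h.a2.2.2.2, h.a2.1, h.a2.2.1⟩
  m1 := ⟨h.m1.2, h.m1.1⟩
  m2 := ⟨h.m3.2, h.m3.1⟩
  m3 := ⟨h.m2.2, h.m2.1⟩

theorem R3D.swapT {t₁ t₂ v₁ v₂ v₃ : α} {P Q P' Q' : Finset α} (h : R3D N t₁ t₂ v₁ v₂ v₃ P Q P' Q') :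
    R3D N t₂ t₁ v₁ v₂ v₃ P Q P' Q' :=
  { n12 := h.n12.symm, h1 := h.h2, h2 := h.h1, un := h.un, dj := h.dj, dj' := h.dj', c := h.c, a1 := h.a2,
    a2 := h.a1, m1 := h.m1, m2 := h.m2, m3 := h.m3 }

/-- contraction of `ab`, conditions in `N` -/
theorem r3d_contr (hVCS : SpecVCS) {a b t₁ t₂ v₁ v₂ v₃ : α} {P Q P' Q' : Finset α} (hab : N.Adj a b) (n12 : t₁ ≠ t₂)
    (hb1 : b ≠ t₁) (hb2 : b ≠ t₂) (hbP : b ∉ P) (hbQ : b ∉ Q) (hbP' : b ∉ P') (hbQ' : b ∉ Q')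
    (h1 : t₁ ∉ P ∪ Q) (h2 : t₂ ∉ P ∪ Q) (un : P ∪ Q = P' ∪ Q') (dj : Disjoint P Q) (dj' : Disjoint P' Q')
    (cP : CSet N (exb a b P)) (cQ : CSet N (exb a b Q)) (cP' : CSet N (exb a b P')) (cQ' : CSet N (exb a b Q'))
    (a1P : Tou N (exb a b {t₁}) (exb a b P)) (a1Q : Tou N (exb a b {t₁}) (exb a b Q))
    (a1P' : Tou N (exb a b {t₁}) (exb a b P')) (a1Q' : Tou N (exb a b {t₁}) (exb a b Q'))
    (a2P : Tou N (exb a b {t₂}) (exb a b P)) (a2Q : Tou N (exb a b {t₂}) (exb a b Q))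
    (a2P' : Tou N (exb a b {t₂}) (exb a b P')) (a2Q' : Tou N (exb a b {t₂}) (exb a b Q'))
    (m1 : v₁ ∈ P ∧ v₁ ∈ P') (m2 : v₂ ∈ Q ∧ v₂ ∈ P') (m3 : v₃ ∈ P ∧ v₃ ∈ Q') :
    R3D (contr N a b) t₁ t₂ v₁ v₂ v₃ P Q P' Q' := by
  have e1 : b ∉ ({t₁} : Finset α) := by
    rw [mem_singleton]
    exact hb1
  have e2 : b ∉ ({t₂} : Finset α) := by
    rw [mem_singleton]
    exact hb2
  rw [mem_union, not_or] at h1 h2
  have h1' : t₁ ∉ P' ∧ t₁ ∉ Q' := by
    rw [← not_or, ← mem_union, ← un, mem_union, not_or]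
    exact h1
  have h2' : t₂ ∉ P' ∧ t₂ ∉ Q' := by
    rw [← not_or, ← mem_union, ← un, mem_union, not_or]
    exact h2
  refine ⟨n12, ?_, ?_, un, dj, dj', ⟨(hVCS.ctr hab hbP).2 cP, (hVCS.ctr hab hbQ).2 cQ, (hVCS.ctr hab hbP').2 cP',
    (hVCS.ctr hab hbQ').2 cQ'⟩, ⟨?_, ?_, ?_, ?_⟩, ⟨?_, ?_, ?_, ?_⟩, m1, m2, m3⟩
  · rw [mem_union, not_or]
    exact h1
  · rw [mem_union, not_or]
    exact h2
  · exact (hVCS.tou hab e1 hbP (disjoint_singleton_left.2 h1.1)).2 a1P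
  · exact (hVCS.tou hab e1 hbQ (disjoint_singleton_left.2 h1.2)).2 a1Q
  · exact (hVCS.tou hab e1 hbP' (disjoint_singleton_left.2 h1'.1)).2 a1P'
  · exact (hVCS.tou hab e1 hbQ' (disjoint_singleton_left.2 h1'.2)).2 a1Q'
  · exact (hVCS.tou hab e2 hbP (disjoint_singleton_left.2 h2.1)).2 a2P
  · exact (hVCS.tou hab e2 hbQ (disjoint_singleton_left.2 h2.2)).2 a2Q
  · exact (hVCS.tou hab e2 hbP' (disjoint_singleton_left.2 h2'.1)).2 a2P'
  · exact (hVCS.tou hab e2 hbQ' (disjoint_singleton_left.2 h2'.2)).2 a2Q'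

/-- the conclusion lifts -/
theorem Good.lift (hVCS : SpecVCS) {a b t₁ t₂ v₁ v₂ v₃ : α} (hab : N.Adj a b) (hb1 : b ≠ t₁) (hb2 : b ≠ t₂)
    (hv1 : b ≠ v₁) (hv2 : b ≠ v₂) (hv3 : b ≠ v₃) (h : Good (contr N a b) t₁ t₂ v₁ v₂ v₃) :
    Good N t₁ t₂ v₁ v₂ v₃ := by
  obtain ⟨x, u, w, T₁, T₂, X, U, W, h1, h2⟩ := h
  have hx : x ≠ b ∧ u ≠ b ∧ w ≠ b := by
    rcases h1 with ⟨rfl, rfl, rfl⟩ | ⟨rfl, rfl, rfl⟩ | ⟨rfl, rfl, rfl⟩
    · exact ⟨hv1.symm, hv2.symm, hv3.symm⟩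
    · exact ⟨hv2.symm, hv1.symm, hv3.symm⟩
    · exact ⟨hv3.symm, hv1.symm, hv2.symm⟩
  have b1 : b ∉ T₁ := notMem_contr h2.c.1 h2.m.1 hb1.symm
  have b2 : b ∉ T₂ := notMem_contr h2.c.2.1 h2.m.2.1 hb2.symm
  have bX : b ∉ X := notMem_contr h2.c.2.2.1 h2.m.2.2.1 hx.1
  have bU : b ∉ U := notMem_contr h2.c.2.2.2.1 h2.m.2.2.2.1 hx.2.1
  have bW : b ∉ W := notMem_contr h2.c.2.2.2.2 h2.m.2.2.2.2 hx.2.2
  refine ⟨x, u, w, exb a b T₁, exb a b T₂, exb a b X, exb a b U, exb a b W, h1, ?_⟩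
  constructor
  · exact ⟨(hVCS.ctr hab b1).1 h2.c.1, (hVCS.ctr hab b2).1 h2.c.2.1, (hVCS.ctr hab bX).1 h2.c.2.2.1,
      (hVCS.ctr hab bU).1 h2.c.2.2.2.1, (hVCS.ctr hab bW).1 h2.c.2.2.2.2⟩
  · exact ⟨subset_exb _ _ _ h2.m.1, subset_exb _ _ _ h2.m.2.1, subset_exb _ _ _ h2.m.2.2.1,
      subset_exb _ _ _ h2.m.2.2.2.1, subset_exb _ _ _ h2.m.2.2.2.2⟩
  · exact ⟨exb_disjoint h2.dT.1 b1 b2, exb_disjoint h2.dT.2.1 b1 bX, exb_disjoint h2.dT.2.2.1 b1 bU,
      exb_disjoint h2.dT.2.2.2 b1 bW⟩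
  · exact ⟨exb_disjoint h2.dS.1 b2 bX, exb_disjoint h2.dS.2.1 b2 bU, exb_disjoint h2.dS.2.2 b2 bW⟩
  · exact ⟨exb_disjoint h2.dX.1 bX bU, exb_disjoint h2.dX.2.1 bX bW, exb_disjoint h2.dX.2.2 bU bW⟩
  · exact ⟨(hVCS.tou hab bU b1 h2.dT.2.2.1.symm).1 h2.tU.1, (hVCS.tou hab bU b2 h2.dS.2.1.symm).1 h2.tU.2.1,
      (hVCS.tou hab bU bX h2.dX.1.symm).1 h2.tU.2.2⟩
  · exact ⟨(hVCS.tou hab bW b1 h2.dT.2.2.2.symm).1 h2.tW.1, (hVCS.tou hab bW b2 h2.dS.2.2.symm).1 h2.tW.2.1,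
      (hVCS.tou hab bW bX h2.dX.2.1.symm).1 h2.tW.2.2⟩

/-- induction hypothesis -/
def IHn (α : Type) [Fintype α] [DecidableEq α] (n : ℕ) : Prop :=
  ∀ (N : SimpleGraph α) (t₁ t₂ v₁ v₂ v₃ : α) (P Q P' Q' : Finset α), (P ∪ Q).card < n →
    R3D N t₁ t₂ v₁ v₂ v₃ P Q P' Q' → Good N t₁ t₂ v₁ v₂ v₃

theorem mem_PQ' {t₁ t₂ v₁ v₂ v₃ : α} {P Q P' Q' : Finset α} (h : R3D N t₁ t₂ v₁ v₂ v₃ P Q P' Q') {a : α}
    (ha : a ∈ P ∪ Q) : (a ∈ Q ↔ a ∉ P) ∧ (a ∈ Q' ↔ a ∉ P') := by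
  have ha' := ha
  rw [h.un] at ha'
  rw [mem_union] at ha ha'
  refine ⟨⟨fun h1 h2 => disjoint_left.1 h.dj h2 h1, fun h1 => ha.resolve_left h1⟩,
    ⟨fun h1 h2 => disjoint_left.1 h.dj' h2 h1, fun h1 => ha'.resolve_left h1⟩⟩

/-- contraction of an edge in a cell, one end is no `v i` -/
theorem cell_aux (hVCS : SpecVCS) {n : ℕ} (ih : IHn α n) {t₁ t₂ v₁ v₂ v₃ : α} {P Q P' Q' : Finset α}
    (h : R3D N t₁ t₂ v₁ v₂ v₃ P Q P' Q') (hn : (P ∪ Q).card ≤ n) {a b : α} (hab : N.Adj a b) (ha : a ∈ P ∪ Q)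
    (hb : b ∈ P ∪ Q) (hP : a ∈ P ↔ b ∈ P) (hP' : a ∈ P' ↔ b ∈ P') (hv1 : b ≠ v₁) (hv2 : b ≠ v₂) (hv3 : b ≠ v₃) :
    Good N t₁ t₂ v₁ v₂ v₃ := by
  have hb1 : b ≠ t₁ := fun e => h.h1 (e ▸ hb)
  have hb2 : b ≠ t₂ := fun e => h.h2 (e ▸ hb)
  have ha1 : a ≠ t₁ := fun e => h.h1 (e ▸ ha)
  have ha2 : a ≠ t₂ := fun e => h.h2 (e ▸ ha)
  have ma := mem_PQ' h ha
  have mb := mem_PQ' h hb
  have hQ : a ∈ Q ↔ b ∈ Q := by rw [ma.1, mb.1, hP]
  have hQ' : a ∈ Q' ↔ b ∈ Q' := by rw [ma.2, mb.2, hP']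
  have key : ∀ S : Finset α, (a ∈ S ↔ b ∈ S) → exb a b (S.erase b) = S := by
    intro S hS
    by_cases haS : a ∈ S
    · exact exb_erase haS (hS.1 haS) hab.ne
    · have hbS : b ∉ S := fun e => haS (hS.2 e)
      rw [erase_eq_of_notMem hbS, exb_notMem haS]
  have k1 : exb a b ({t₁} : Finset α) = {t₁} := exb_notMem (by rw [mem_singleton]; exact ha1)
  have k2 : exb a b ({t₂} : Finset α) = {t₂} := exb_notMem (by rw [mem_singleton]; exact ha2)
  refine Good.lift hVCS hab hb1 hb2 hv1 hv2 hv3 (ih _ t₁ t₂ v₁ v₂ v₃ (P.erase b) (Q.erase b) (P'.erase b) (Q'.erase b) ?_ ?_)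
  · have : P.erase b ∪ Q.erase b = (P ∪ Q).erase b := (erase_union_distrib P Q b).symm
    rw [this]
    exact (card_erase_lt_of_mem hb).trans_le hn
  · apply r3d_contr hVCS hab h.n12 hb1 hb2 (notMem_erase _ _) (notMem_erase _ _) (notMem_erase _ _) (notMem_erase _ _)
    · rw [← erase_union_distrib]
      exact fun e => h.h1 (mem_of_mem_erase e)
    · rw [← erase_union_distrib]
      exact fun e => h.h2 (mem_of_mem_erase e)
    · rw [← erase_union_distrib, ← erase_union_distrib, h.un]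
    · exact h.dj.mono (erase_subset _ _) (erase_subset _ _)
    · exact h.dj'.mono (erase_subset _ _) (erase_subset _ _)
    · rw [key _ hP]
      exact h.c.1
    · rw [key _ hQ]
      exact h.c.2.1
    · rw [key _ hP']
      exact h.c.2.2.1
    · rw [key _ hQ']
      exact h.c.2.2.2
    · rw [key _ hP, k1]
      exact h.a1.1
    · rw [key _ hQ, k1]
      exact h.a1.2.1
    · rw [key _ hP', k1]
      exact h.a1.2.2.1
    · rw [key _ hQ', k1]
      exact h.a1.2.2.2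
    · rw [key _ hP, k2]
      exact h.a2.1
    · rw [key _ hQ, k2]
      exact h.a2.2.1
    · rw [key _ hP', k2]
      exact h.a2.2.2.1
    · rw [key _ hQ', k2]
      exact h.a2.2.2.2
    · exact ⟨mem_erase.2 ⟨hv1.symm, h.m1.1⟩, mem_erase.2 ⟨hv1.symm, h.m1.2⟩⟩
    · exact ⟨mem_erase.2 ⟨hv2.symm, h.m2.1⟩, mem_erase.2 ⟨hv2.symm, h.m2.2⟩⟩
    · exact ⟨mem_erase.2 ⟨hv3.symm, h.m3.1⟩, mem_erase.2 ⟨hv3.symm, h.m3.2⟩⟩

/-- contraction of an edge in a cell -/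
theorem cell (hVCS : SpecVCS) {n : ℕ} (ih : IHn α n) {t₁ t₂ v₁ v₂ v₃ : α} {P Q P' Q' : Finset α}
    (h : R3D N t₁ t₂ v₁ v₂ v₃ P Q P' Q') (hn : (P ∪ Q).card ≤ n) {a b : α} (hab : N.Adj a b) (ha : a ∈ P ∪ Q)
    (hb : b ∈ P ∪ Q) (hP : a ∈ P ↔ b ∈ P) (hP' : a ∈ P' ↔ b ∈ P') : Good N t₁ t₂ v₁ v₂ v₃ := by
  by_cases hbv : b ≠ v₁ ∧ b ≠ v₂ ∧ b ≠ v₃
  · exact cell_aux hVCS ih h hn hab ha hb hP hP' hbv.1 hbv.2.1 hbv.2.2
  · have q2 : v₂ ∉ P := fun e => disjoint_left.1 h.dj e h.m2.1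
    have q3 : v₃ ∉ P' := fun e => disjoint_left.1 h.dj' e h.m3.2
    refine cell_aux hVCS ih h hn hab.symm hb ha hP.symm hP'.symm ?_ ?_ ?_
    · rintro rfl
      apply hbv
      refine ⟨hab.ne.symm, ?_, ?_⟩
      · rintro rfl
        exact q2 (hP.1 h.m1.1)
      · rintro rfl
        exact q3 (hP'.1 h.m1.2)
    · rintro rfl
      apply hbv
      refine ⟨?_, hab.ne.symm, ?_⟩
      · rintro rfl
        exact q2 (hP.2 h.m1.1)
      · rintro rfl
        exact q2 (hP.2 h.m3.1)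
    · rintro rfl
      apply hbv
      refine ⟨?_, ?_, hab.ne.symm⟩
      · rintro rfl
        exact q3 (hP'.2 h.m1.2)
      · rintro rfl
        exact q2 (hP.1 h.m3.1)

/-- absorbing `z` into `t₁` -/
theorem absorb (hVCS : SpecVCS) {n : ℕ} (ih : IHn α n) {t₁ t₂ v₁ v₂ v₃ : α} {P Q P' Q' : Finset α}
    (h : R3D N t₁ t₂ v₁ v₂ v₃ P Q P' Q') (hn : (P ∪ Q).card ≤ n) {z : α} (hz : z ∈ P ∪ Q) (hz1 : N.Adj t₁ z)
    (hv1 : z ≠ v₁) (hv2 : z ≠ v₂) (hv3 : z ≠ v₃)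
    (hP : z ∈ P → CSet N (P.erase z) ∧ Tou N {t₂} (P.erase z))
    (hQ : z ∈ Q → CSet N (Q.erase z) ∧ Tou N {t₂} (Q.erase z))
    (hP' : z ∈ P' → CSet N (P'.erase z) ∧ Tou N {t₂} (P'.erase z))
    (hQ' : z ∈ Q' → CSet N (Q'.erase z) ∧ Tou N {t₂} (Q'.erase z)) : Good N t₁ t₂ v₁ v₂ v₃ := by
  have hb1 : z ≠ t₁ := fun e => h.h1 (e ▸ hz)
  have hb2 : z ≠ t₂ := fun e => h.h2 (e ▸ hz)
  have n1 : t₁ ∉ P ∧ t₁ ∉ Q ∧ t₁ ∉ P' ∧ t₁ ∉ Q' := by
    have e1 := h.h1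
    have e2 := h.h1
    rw [h.un] at e2
    rw [mem_union, not_or] at e1 e2
    exact ⟨e1.1, e1.2, e2.1, e2.2⟩
  have key : ∀ S : Finset α, t₁ ∉ S → exb t₁ z (S.erase z) = S.erase z := fun S hS =>
    exb_notMem fun e => hS (mem_of_mem_erase e)
  have k1 : exb t₁ z ({t₁} : Finset α) = {z, t₁} := exb_mem (mem_singleton_self _)
  have k2 : exb t₁ z ({t₂} : Finset α) = {t₂} := exb_notMem (by rw [mem_singleton]; exact h.n12)
  have cc : ∀ S : Finset α, CSet N S → (z ∈ S → CSet N (S.erase z) ∧ Tou N {t₂} (S.erase z)) → CSet N (S.erase z) := by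
    intro S hS hzS
    by_cases e : z ∈ S
    · exact (hzS e).1
    · rw [erase_eq_of_notMem e]
      exact hS
  have t2 : ∀ S : Finset α, Tou N {t₂} S → (z ∈ S → CSet N (S.erase z) ∧ Tou N {t₂} (S.erase z)) →
      Tou N {t₂} (S.erase z) := by
    intro S hS hzS
    by_cases e : z ∈ S
    · exact (hzS e).2
    · rw [erase_eq_of_notMem e]
      exact hS
  have t1 : ∀ S : Finset α, CSet N S → Tou N {t₁} S → (z ∈ S → CSet N (S.erase z) ∧ Tou N {t₂} (S.erase z)) →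
      Tou N {z, t₁} (S.erase z) := by
    intro S hc hS hzS
    by_cases e : z ∈ S
    · have hcard : 2 ≤ S.card := by
        obtain ⟨y, hy⟩ := (hzS e).1.1
        have := card_erase_add_one e
        have h2 : 0 < (S.erase z).card := card_pos.2 ⟨y, hy⟩
        omega
      obtain ⟨y, hy, hyz, hadj⟩ := hVCS.nbr hc e hcard
      exact ⟨z, mem_insert_self _ _, y, mem_erase.2 ⟨hyz, hy⟩, hadj⟩
    · rw [erase_eq_of_notMem e]
      exact Tou.mono hS (by intro x hx; rw [mem_singleton] at hx; rw [hx]; exact mem_insert_of_mem (mem_singleton_self _)) subset_rfl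
  refine Good.lift hVCS hz1 hb1 hb2 hv1 hv2 hv3
    (ih _ t₁ t₂ v₁ v₂ v₃ (P.erase z) (Q.erase z) (P'.erase z) (Q'.erase z) ?_ ?_)
  · rw [← erase_union_distrib]
    exact (card_erase_lt_of_mem hz).trans_le hn
  · apply r3d_contr hVCS hz1 h.n12 hb1 hb2 (notMem_erase _ _) (notMem_erase _ _) (notMem_erase _ _) (notMem_erase _ _)
    · rw [← erase_union_distrib]
      exact fun e => h.h1 (mem_of_mem_erase e)
    · rw [← erase_union_distrib]
      exact fun e => h.h2 (mem_of_mem_erase e)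
    · rw [← erase_union_distrib, ← erase_union_distrib, h.un]
    · exact h.dj.mono (erase_subset _ _) (erase_subset _ _)
    · exact h.dj'.mono (erase_subset _ _) (erase_subset _ _)
    · rw [key _ n1.1]
      exact cc _ h.c.1 hP
    · rw [key _ n1.2.1]
      exact cc _ h.c.2.1 hQ
    · rw [key _ n1.2.2.1]
      exact cc _ h.c.2.2.1 hP'
    · rw [key _ n1.2.2.2]
      exact cc _ h.c.2.2.2 hQ'
    · rw [key _ n1.1, k1]
      exact t1 _ h.c.1 h.a1.1 hP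
    · rw [key _ n1.2.1, k1]
      exact t1 _ h.c.2.1 h.a1.2.1 hQ
    · rw [key _ n1.2.2.1, k1]
      exact t1 _ h.c.2.2.1 h.a1.2.2.1 hP'
    · rw [key _ n1.2.2.2, k1]
      exact t1 _ h.c.2.2.2 h.a1.2.2.2 hQ'
    · rw [key _ n1.1, k2]
      exact t2 _ h.a2.1 hP
    · rw [key _ n1.2.1, k2]
      exact t2 _ h.a2.2.1 hQ
    · rw [key _ n1.2.2.1, k2]
      exact t2 _ h.a2.2.2.1 hP'
    · rw [key _ n1.2.2.2, k2]
      exact t2 _ h.a2.2.2.2 hQ'
    · exact ⟨mem_erase.2 ⟨hv1.symm, h.m1.1⟩, mem_erase.2 ⟨hv1.symm, h.m1.2⟩⟩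
    · exact ⟨mem_erase.2 ⟨hv2.symm, h.m2.1⟩, mem_erase.2 ⟨hv2.symm, h.m2.2⟩⟩
    · exact ⟨mem_erase.2 ⟨hv3.symm, h.m3.1⟩, mem_erase.2 ⟨hv3.symm, h.m3.2⟩⟩

/-! ### components -/

theorem del_le_del {S T : Finset α} (h : T ⊆ S) : del N S ≤ del N T := by
  intro a b hab
  exact ⟨hab.1, fun h1 => hab.2.1 (h h1), fun h1 => hab.2.2 (h h1)⟩

theorem reach_mono {X Y : Finset α} (h : X ⊆ Y) {u v : α} (hr : (del N (univ \ X)).Reachable u v) :
    (del N (univ \ Y)).Reachable u v :=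
  hr.mono (del_le_del (sdiff_subset_sdiff (subset_refl _) h))

open Classical in
/-- the component of `k` in `N[Y]` -/
noncomputable def comp (N : SimpleGraph α) (Y : Finset α) (k : α) : Finset α :=
  univ.filter fun v => (del N (univ \ Y)).Reachable k v

theorem mem_comp {Y : Finset α} {k v : α} : v ∈ comp N Y k ↔ (del N (univ \ Y)).Reachable k v := by
  classical
  simp [comp]

theorem self_mem_comp (Y : Finset α) (k : α) : k ∈ comp N Y k := mem_comp.2 (Reachable.refl k)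

theorem comp_subset {Y : Finset α} {k : α} (hk : k ∈ Y) : comp N Y k ⊆ Y := by
  intro v hv
  have := mem_of_reachable (X := {v | v ∈ Y}) (mem_comp.1 hv) hk (fun a b hab _ => by
    have := hab.2.2
    rw [mem_sdiff, not_and_not_right] at this
    exact this (mem_univ _))
  exact this

theorem comp_closed {Y : Finset α} {k v w : α} (hk : k ∈ Y) (hv : v ∈ comp N Y k) (hw : w ∈ Y)
    (h : N.Adj v w) : w ∈ comp N Y k := by
  rw [mem_comp]
  refine (mem_comp.1 hv).trans (Adj.reachable ⟨h, ?_, ?_⟩)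
  · rw [mem_sdiff, not_and_not_right]; intro _; exact comp_subset hk hv
  · rw [mem_sdiff, not_and_not_right]; intro _; exact hw

theorem cset_comp {Y : Finset α} {k : α} (hk : k ∈ Y) : CSet N (comp N Y k) := by
  refine ⟨⟨k, self_mem_comp Y k⟩, ?_⟩
  have key : ∀ a ∈ comp N Y k, (del N (univ \ comp N Y k)).Reachable k a := by
    intro a ha
    refine mem_of_reachable (X := {v | (del N (univ \ comp N Y k)).Reachable k v}) (mem_comp.1 ha)
      (Reachable.refl k) ?_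
    intro u v huv hu
    have hu1 : u ∈ comp N Y k := mem_comp.2 (reach_mono (comp_subset hk) hu)
    have hv1 : v ∈ comp N Y k := mem_comp.2 ((mem_comp.1 hu1).trans huv.reachable)
    refine Reachable.trans hu (Adj.reachable ⟨huv.1, ?_, ?_⟩)
    · rw [mem_sdiff, not_and_not_right]; intro _; exact hu1
    · rw [mem_sdiff, not_and_not_right]; intro _; exact hv1
  intro a ha b hb
  exact (key a ha).symm.trans (key b hb)

/-! ### building `K23` -/

theorem mk23 {t₁ t₂ x u w : α} {X U W : Finset α} (n12 : t₁ ≠ t₂) (cX : CSet N X) (cU : CSet N U) (cW : CSet N W)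
    (hx : x ∈ X) (hu : u ∈ U) (hw : w ∈ W) (hX : t₁ ∉ X ∧ t₂ ∉ X) (hU : t₁ ∉ U ∧ t₂ ∉ U) (hW : t₁ ∉ W ∧ t₂ ∉ W)
    (dX : Disjoint X U ∧ Disjoint X W ∧ Disjoint U W) (tU : Tou N {t₁} U ∧ Tou N {t₂} U ∧ Tou N X U)
    (tW : Tou N {t₁} W ∧ Tou N {t₂} W ∧ Tou N X W) : K23 N t₁ t₂ x u w {t₁} {t₂} X U W where
  c := ⟨cset_single t₁, cset_single t₂, cX, cU, cW⟩
  m := ⟨mem_singleton_self _, mem_singleton_self _, hx, hu, hw⟩
  dT := ⟨disjoint_singleton.2 n12, disjoint_singleton_left.2 hX.1, disjoint_singleton_left.2 hU.1,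
    disjoint_singleton_left.2 hW.1⟩
  dS := ⟨disjoint_singleton_left.2 hX.2, disjoint_singleton_left.2 hU.2, disjoint_singleton_left.2 hW.2⟩
  dX := dX
  tU := ⟨Tou.symm tU.1, Tou.symm tU.2.1, Tou.symm tU.2.2⟩
  tW := ⟨Tou.symm tW.1, Tou.symm tW.2.1, Tou.symm tW.2.2⟩

theorem nt {t₁ t₂ v₁ v₂ v₃ : α} {P Q P' Q' : Finset α} (h : R3D N t₁ t₂ v₁ v₂ v₃ P Q P' Q') :
    (t₁ ∉ P ∧ t₂ ∉ P) ∧ (t₁ ∉ Q ∧ t₂ ∉ Q) ∧ (t₁ ∉ P' ∧ t₂ ∉ P') ∧ (t₁ ∉ Q' ∧ t₂ ∉ Q') := by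
  have e1 := h.h1
  have e2 := h.h2
  have e3 := h.h1
  have e4 := h.h2
  rw [h.un] at e3 e4
  rw [mem_union, not_or] at e1 e2 e3 e4
  exact ⟨⟨e1.1, e2.1⟩, ⟨e1.2, e2.2⟩, ⟨e3.1, e4.1⟩, ⟨e3.2, e4.2⟩⟩

theorem nv {t₁ t₂ v₁ v₂ v₃ : α} {P Q P' Q' : Finset α} (h : R3D N t₁ t₂ v₁ v₂ v₃ P Q P' Q') :
    v₁ ≠ v₂ ∧ v₁ ≠ v₃ ∧ v₂ ≠ v₃ := by
  refine ⟨?_, ?_, ?_⟩
  · rintro rfl
    exact disjoint_left.1 h.dj h.m1.1 h.m2.1
  · rintro rfl
    exact disjoint_left.1 h.dj' h.m1.2 h.m3.2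
  · rintro rfl
    exact disjoint_left.1 h.dj h.m3.1 h.m2.1

/-- a component of `v₁` in `P ∩ P'` touches the rest of `P` -/
theorem comp_tou (hVCS : SpecVCS) {P A : Finset α} {v₁ v₃ : α} (hP : CSet N P) (hA : A ⊆ P) (h1 : v₁ ∈ A)
    (h3 : v₃ ∈ P) (h3A : v₃ ∉ A) : Tou N (comp N A v₁) (P \ A) := by
  have hsub : comp N A v₁ ⊆ P := (comp_subset h1).trans hA
  obtain ⟨x, hx, y, hy, hxy⟩ := hVCS.part hP hsub ⟨v₁, self_mem_comp A v₁⟩
    ⟨v₃, mem_sdiff.2 ⟨h3, fun e => h3A (comp_subset h1 e)⟩⟩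
  rw [mem_sdiff] at hy
  refine ⟨x, hx, y, mem_sdiff.2 ⟨hy.1, fun e => hy.2 (comp_closed h1 hx e hxy)⟩, hxy⟩

/-- case `E = ∅` -/
theorem baseE (hVCS : SpecVCS) {t₁ t₂ v₁ v₂ v₃ : α} {P Q P' Q' : Finset α}
    (h : R3D N t₁ t₂ v₁ v₂ v₃ P Q P' Q') (hE : ¬ (Q ∩ Q').Nonempty) : Good N t₁ t₂ v₁ v₂ v₃ := by
  have h1 : v₁ ∈ P ∩ P' := mem_inter.2 h.m1
  have ht := nt h
  have hsub : comp N (P ∩ P') v₁ ⊆ P ∩ P' := comp_subset h1
  have q2 : v₂ ∉ P := fun e => disjoint_left.1 h.dj e h.m2.1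
  have q3 : v₃ ∉ P' := fun e => disjoint_left.1 h.dj' e h.m3.2
  have dQ : Disjoint (P ∩ P') Q := h.dj.mono_left inter_subset_left
  have dQ' : Disjoint (P ∩ P') Q' := h.dj'.mono_left inter_subset_right
  have tQ' : Tou N (comp N (P ∩ P') v₁) Q' := by
    obtain ⟨x, hx, y, hy, hxy⟩ := comp_tou hVCS h.c.1 (inter_subset_left : P ∩ P' ⊆ P) h1 h.m3.1
      (fun e => q3 (mem_inter.1 e).2)
    refine ⟨x, hx, y, ?_, hxy⟩
    rw [mem_sdiff, mem_inter, not_and] at hy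
    exact ((mem_PQ' h (mem_union_left _ hy.1)).2).2 (hy.2 hy.1)
  have tQ : Tou N (comp N (P ∩ P') v₁) Q := by
    obtain ⟨x, hx, y, hy, hxy⟩ := comp_tou hVCS h.c.2.2.1 (inter_subset_right : P ∩ P' ⊆ P') h1 h.m2.2
      (fun e => q2 (mem_inter.1 e).1)
    refine ⟨x, hx, y, ?_, hxy⟩
    rw [mem_sdiff, mem_inter, not_and'] at hy
    have hyP : y ∉ P := hy.2 hy.1
    have : y ∈ P ∪ Q := by
      rw [h.un]
      exact mem_union_left _ hy.1
    exact ((mem_PQ' h this).1).2 hyP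
  refine ⟨v₁, v₂, v₃, {t₁}, {t₂}, comp N (P ∩ P') v₁, Q, Q', Or.inl ⟨rfl, rfl, rfl⟩, ?_⟩
  refine mk23 h.n12 (cset_comp h1) h.c.2.1 h.c.2.2.2 (self_mem_comp _ _) h.m2.1 h.m3.2
    ⟨fun e => ht.1.1 (mem_inter.1 (hsub e)).1, fun e => ht.1.2 (mem_inter.1 (hsub e)).1⟩ ht.2.1 ht.2.2.2
    ⟨dQ.mono_left hsub, dQ'.mono_left hsub, ?_⟩ ⟨h.a1.2.1, h.a2.2.1, tQ⟩ ⟨h.a1.2.2.2, h.a2.2.2.2, tQ'⟩
  rw [Finset.disjoint_left]
  intro z hz hz'
  exact hE ⟨z, mem_inter.2 ⟨hz, hz'⟩⟩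

/-- the cells are independent and `Q ∩ Q'` is not empty -/
structure Ind (N : SimpleGraph α) (P Q P' Q' : Finset α) : Prop where
  ind : ∀ a b, N.Adj a b → a ∈ P ∪ Q → b ∈ P ∪ Q → (a ∈ P ↔ b ∈ P) → (a ∈ P' ↔ b ∈ P') → False
  ne : (Q ∩ Q').Nonempty

theorem Ind.swap {P Q P' Q' : Finset α} (h : Ind N P Q P' Q') (hun : P ∪ Q = P' ∪ Q') : Ind N P' Q' P Q where
  ind := fun a b hab ha hb h1 h2 => h.ind a b hab (hun ▸ ha) (hun ▸ hb) h2 h1
  ne := by
    rw [inter_comm]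
    exact h.ne

theorem nb1 (hVCS : SpecVCS) {t₁ t₂ v₁ v₂ v₃ : α} {P Q P' Q' : Finset α}
    (h : R3D N t₁ t₂ v₁ v₂ v₃ P Q P' Q') (hi : Ind N P Q P' Q') {x : α} (hx : x ∈ P ∪ Q) :
    ∃ y, N.Adj x y ∧ y ∈ P ∪ Q ∧ (y ∈ P ↔ x ∈ P) ∧ (y ∈ P' ↔ x ∉ P') := by
  have key : ∀ S : Finset α, CSet N S → S ⊆ P ∪ Q → x ∈ S → 2 ≤ S.card → (∀ y ∈ S, (y ∈ P ↔ x ∈ P)) →
      ∃ y, N.Adj x y ∧ y ∈ P ∪ Q ∧ (y ∈ P ↔ x ∈ P) ∧ (y ∈ P' ↔ x ∉ P') := by
    intro S hS hsub hxS hc hsame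
    obtain ⟨y, hy, _, hadj⟩ := hVCS.nbr hS hxS hc
    refine ⟨y, hadj, hsub hy, hsame y hy, ?_⟩
    by_contra hcon
    apply hi.ind x y hadj hx (hsub hy) (hsame y hy).symm
    tauto
  by_cases hxP : x ∈ P
  · refine key P h.c.1 subset_union_left hxP (one_lt_card.2 ⟨v₁, h.m1.1, v₃, h.m3.1, (nv h).2.1⟩) ?_
    intro y hy
    exact ⟨fun _ => hxP, fun _ => hy⟩
  · obtain ⟨e, he⟩ := hi.ne
    rw [mem_inter] at he
    have hxQ : x ∈ Q := ((mem_PQ' h hx).1).2 hxP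
    refine key Q h.c.2.1 subset_union_right hxQ (one_lt_card.2 ⟨v₂, h.m2.1, e, he.1, ?_⟩) ?_
    · rintro rfl
      exact disjoint_left.1 h.dj' h.m2.2 he.2
    · intro y hy
      exact ⟨fun hyP => (disjoint_left.1 h.dj hyP hy).elim, fun h1 => (hxP h1).elim⟩

theorem nb2 (hVCS : SpecVCS) {t₁ t₂ v₁ v₂ v₃ : α} {P Q P' Q' : Finset α}
    (h : R3D N t₁ t₂ v₁ v₂ v₃ P Q P' Q') (hi : Ind N P Q P' Q') {x : α} (hx : x ∈ P ∪ Q) :
    ∃ y, N.Adj x y ∧ y ∈ P ∪ Q ∧ (y ∈ P' ↔ x ∈ P') ∧ (y ∈ P ↔ x ∉ P) := by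
  obtain ⟨y, h1, h2, h3, h4⟩ := nb1 hVCS (R3D.swap h) (hi.swap h.un) (h.un ▸ hx : x ∈ P' ∪ Q')
  exact ⟨y, h1, h.un ▸ h2, h3, h4⟩

/-- STEP (3), the set `P` -/
theorem step3P (hVCS : SpecVCS) {n : ℕ} (ih : IHn α n) {t₁ t₂ v₁ v₂ v₃ : α} {P Q P' Q' : Finset α}
    (h : R3D N t₁ t₂ v₁ v₂ v₃ P Q P' Q') (hn : (P ∪ Q).card ≤ n) (hi : Ind N P Q P' Q') {x : α} (hx : x ∈ P)
    (hc : CSet N (P.erase x)) (h1 : Tou N {t₁} (P.erase x)) (h2 : Tou N {t₂} (P.erase x)) :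
    Good N t₁ t₂ v₁ v₂ v₃ := by
  have ht := nt h
  have hv := nv h
  have hcP : 2 ≤ P.card := one_lt_card.2 ⟨v₁, h.m1.1, v₃, h.m3.1, hv.2.1⟩
  obtain ⟨y, hxy, hyU, hy1, hy2⟩ := nb2 hVCS h hi (mem_union_left Q hx)
  have hyP : y ∉ P := fun e => (hy2.1 e) hx
  have hyQ : y ∈ Q := ((mem_PQ' h hyU).1).2 hyP
  have txQ : Tou N {x} Q := ⟨x, mem_singleton_self _, y, hyQ, hxy⟩
  have txP : Tou N {x} (P.erase x) := by
    obtain ⟨z, hz, hzx, hxz⟩ := hVCS.nbr h.c.1 hx hcP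
    exact ⟨x, mem_singleton_self _, z, mem_erase.2 ⟨hzx, hz⟩, hxz⟩
  have hXt : t₁ ∉ ({x} : Finset α) ∧ t₂ ∉ ({x} : Finset α) := by
    rw [mem_singleton, mem_singleton]
    exact ⟨fun e => ht.1.1 (e ▸ hx), fun e => ht.1.2 (e ▸ hx)⟩
  have hxQ : x ∉ Q := fun e => disjoint_left.1 h.dj hx e
  have hPe : t₁ ∉ P.erase x ∧ t₂ ∉ P.erase x := ⟨fun e => ht.1.1 (mem_of_mem_erase e), fun e => ht.1.2 (mem_of_mem_erase e)⟩
  by_cases hx1 : x = v₁
  · subst hx1
    refine ⟨x, v₂, v₃, {t₁}, {t₂}, {x}, Q, P.erase x, Or.inl ⟨rfl, rfl, rfl⟩, ?_⟩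
    exact mk23 h.n12 (cset_single x) h.c.2.1 hc (mem_singleton_self _) h.m2.1 (mem_erase.2 ⟨hv.2.1.symm, h.m3.1⟩) hXt
      ht.2.1 hPe ⟨disjoint_singleton_left.2 hxQ, disjoint_singleton_left.2 (notMem_erase _ _),
        h.dj.symm.mono_right (erase_subset _ _)⟩ ⟨h.a1.2.1, h.a2.2.1, txQ⟩ ⟨h1, h2, txP⟩
  by_cases hx3 : x = v₃
  · subst hx3
    refine ⟨x, v₁, v₂, {t₁}, {t₂}, {x}, P.erase x, Q, Or.inr (Or.inr ⟨rfl, rfl, rfl⟩), ?_⟩
    exact mk23 h.n12 (cset_single x) hc h.c.2.1 (mem_singleton_self _) (mem_erase.2 ⟨hv.2.1, h.m1.1⟩) h.m2.1 hXt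
      hPe ht.2.1 ⟨disjoint_singleton_left.2 (notMem_erase _ _), disjoint_singleton_left.2 hxQ,
        h.dj.mono_left (erase_subset _ _)⟩ ⟨h1, h2, txP⟩ ⟨h.a1.2.1, h.a2.2.1, txQ⟩
  have hun : P.erase x ∪ insert x Q = P ∪ Q := by
    ext z
    rw [mem_union, mem_erase, mem_insert, mem_union]
    by_cases hz : z = x
    · subst hz
      tauto
    · tauto
  have h' : R3D N t₁ t₂ v₁ v₂ v₃ (P.erase x) (insert x Q) P' Q' :=
    { n12 := h.n12
      h1 := by rw [hun]; exact h.h1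
      h2 := by rw [hun]; exact h.h2
      un := by rw [hun]; exact h.un
      dj := by
        rw [disjoint_insert_right]
        exact ⟨notMem_erase _ _, h.dj.mono_left (erase_subset _ _)⟩
      dj' := h.dj'
      c := ⟨hc, hVCS.ins h.c.2.1 hyQ hxy.symm, h.c.2.2⟩
      a1 := ⟨h1, Tou.mono h.a1.2.1 subset_rfl (subset_insert _ _), h.a1.2.2⟩
      a2 := ⟨h2, Tou.mono h.a2.2.1 subset_rfl (subset_insert _ _), h.a2.2.2⟩
      m1 := ⟨mem_erase.2 ⟨Ne.symm hx1, h.m1.1⟩, h.m1.2⟩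
      m2 := ⟨mem_insert_of_mem h.m2.1, h.m2.2⟩
      m3 := ⟨mem_erase.2 ⟨Ne.symm hx3, h.m3.1⟩, h.m3.2⟩ }
  refine cell hVCS ih h' (by rw [hun]; exact hn) hxy (by rw [hun]; exact mem_union_left _ hx)
    (by rw [hun]; exact hyU) ?_ hy1.symm
  exact ⟨fun e => (notMem_erase x P e).elim, fun e => (hyP (mem_of_mem_erase e)).elim⟩

/-- STEP (3), the set `Q` -/
theorem step3Q (hVCS : SpecVCS) {n : ℕ} (ih : IHn α n) {t₁ t₂ v₁ v₂ v₃ : α} {P Q P' Q' : Finset α}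
    (h : R3D N t₁ t₂ v₁ v₂ v₃ P Q P' Q') (hn : (P ∪ Q).card ≤ n) (hi : Ind N P Q P' Q') {x : α} (hx : x ∈ Q)
    (hx2 : x ≠ v₂) (hc : CSet N (Q.erase x)) (h1 : Tou N {t₁} (Q.erase x)) (h2 : Tou N {t₂} (Q.erase x)) :
    Good N t₁ t₂ v₁ v₂ v₃ := by
  obtain ⟨y, hxy, hyU, hy1, hy2⟩ := nb2 hVCS h hi (mem_union_right P hx)
  have hxP : x ∉ P := fun e => disjoint_left.1 h.dj e hx
  have hyP : y ∈ P := hy2.2 hxP
  have hyQ : y ∉ Q := fun e => disjoint_left.1 h.dj hyP e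
  have hx1 : x ≠ v₁ := by
    rintro rfl
    exact hxP h.m1.1
  have hx3 : x ≠ v₃ := by
    rintro rfl
    exact hxP h.m3.1
  have hun : insert x P ∪ Q.erase x = P ∪ Q := by
    ext z
    rw [mem_union, mem_erase, mem_insert, mem_union]
    by_cases hz : z = x
    · subst hz
      tauto
    · tauto
  have h' : R3D N t₁ t₂ v₁ v₂ v₃ (insert x P) (Q.erase x) P' Q' :=
    { n12 := h.n12
      h1 := by rw [hun]; exact h.h1
      h2 := by rw [hun]; exact h.h2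
      un := by rw [hun]; exact h.un
      dj := by
        rw [disjoint_insert_left]
        exact ⟨notMem_erase _ _, h.dj.mono_right (erase_subset _ _)⟩
      dj' := h.dj'
      c := ⟨hVCS.ins h.c.1 hyP hxy.symm, hc, h.c.2.2⟩
      a1 := ⟨Tou.mono h.a1.1 subset_rfl (subset_insert _ _), h1, h.a1.2.2⟩
      a2 := ⟨Tou.mono h.a2.1 subset_rfl (subset_insert _ _), h2, h.a2.2.2⟩
      m1 := ⟨mem_insert_of_mem h.m1.1, h.m1.2⟩
      m2 := ⟨mem_erase.2 ⟨Ne.symm hx2, h.m2.1⟩, h.m2.2⟩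
      m3 := ⟨mem_insert_of_mem h.m3.1, h.m3.2⟩ }
  refine cell hVCS ih h' (by rw [hun]; exact hn) hxy (by rw [hun]; exact mem_union_right _ hx)
    (by rw [hun]; exact hyU) ?_ hy1.symm
  exact ⟨fun _ => mem_insert_of_mem hyP, fun _ => mem_insert_self _ _⟩

/-- `p` is the only neighbour of `t` in `S` -/
def Onl (N : SimpleGraph α) (t : α) (S : Finset α) (p : α) : Prop := p ∈ S ∧ N.Adj t p ∧ ∀ x ∈ S, N.Adj t x → x = p

theorem onl_of {t x : α} {S : Finset α} (hx : x ∈ S) (h : Tou N {t} S) (h' : ¬ Tou N {t} (S.erase x)) : Onl N t S x := by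
  obtain ⟨t', ht', y, hy, hty⟩ := h
  rw [mem_singleton] at ht'
  subst ht'
  have key : ∀ z ∈ S, N.Adj t' z → z = x := by
    intro z hz hadj
    by_contra hne
    exact h' ⟨t', mem_singleton_self _, z, mem_erase.2 ⟨hne, hz⟩, hadj⟩
  have := key y hy hty
  subst this
  exact ⟨hx, hty, key⟩

theorem tou_erase {t p q : α} {S : Finset α} (h : Onl N t S p) (hne : p ≠ q) : Tou N {t} (S.erase q) :=
  ⟨t, mem_singleton_self _, p, mem_erase.2 ⟨hne, h.1⟩, h.2.1⟩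

/-- the two ends of `P` -/
theorem ends (hVCS : SpecVCS) {n : ℕ} (ih : IHn α n) {t₁ t₂ v₁ v₂ v₃ : α} {P Q P' Q' : Finset α}
    (h : R3D N t₁ t₂ v₁ v₂ v₃ P Q P' Q') (hn : (P ∪ Q).card ≤ n) (hi : Ind N P Q P' Q')
    (hbad : ¬ Good N t₁ t₂ v₁ v₂ v₃) :
    ∃ p₁ p₂, Onl N t₁ P p₁ ∧ Onl N t₂ P p₂ ∧ p₁ ≠ p₂ ∧ CSet N (P.erase p₁) ∧ CSet N (P.erase p₂) := by
  have hv := nv h
  have hcP : 2 ≤ P.card := one_lt_card.2 ⟨v₁, h.m1.1, v₃, h.m3.1, hv.2.1⟩
  obtain ⟨x, hx, y, hy, hxy, cx, cy⟩ := hVCS.nc h.c.1 hcP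
  have key : ∀ z ∈ P, CSet N (P.erase z) → Onl N t₁ P z ∨ Onl N t₂ P z := by
    intro z hz hc
    by_cases h1 : Tou N {t₁} (P.erase z)
    · right
      apply onl_of hz h.a2.1
      intro h2
      exact hbad (step3P hVCS ih h hn hi hz hc h1 h2)
    · exact Or.inl (onl_of hz h.a1.1 h1)
  rcases key x hx cx with h1 | h1
  · rcases key y hy cy with h2 | h2
    · exact absurd (h2.2.2 x hx h1.2.1) hxy
    · exact ⟨x, y, h1, h2, hxy, cx, cy⟩
  · rcases key y hy cy with h2 | h2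
    · exact ⟨y, x, h2, h1, hxy.symm, cy, cx⟩
    · exact absurd (h2.2.2 x hx h1.2.1) hxy

/-- a non-cut vertex of `Q` -/
theorem endQ (hVCS : SpecVCS) {n : ℕ} (ih : IHn α n) {t₁ t₂ v₁ v₂ v₃ : α} {P Q P' Q' : Finset α}
    (h : R3D N t₁ t₂ v₁ v₂ v₃ P Q P' Q') (hn : (P ∪ Q).card ≤ n) (hi : Ind N P Q P' Q')
    (hbad : ¬ Good N t₁ t₂ v₁ v₂ v₃) :
    ∃ q, q ≠ v₂ ∧ (Onl N t₁ Q q ∨ Onl N t₂ Q q) ∧ CSet N (Q.erase q) := by
  obtain ⟨e, he⟩ := hi.ne
  rw [mem_inter] at he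
  have hne : v₂ ≠ e := by
    rintro rfl
    exact disjoint_left.1 h.dj' h.m2.2 he.2
  obtain ⟨x, hx, y, hy, hxy, cx, cy⟩ := hVCS.nc h.c.2.1 (one_lt_card.2 ⟨v₂, h.m2.1, e, he.1, hne⟩)
  have key : ∀ z ∈ Q, z ≠ v₂ → CSet N (Q.erase z) → Onl N t₁ Q z ∨ Onl N t₂ Q z := by
    intro z hz hz2 hc
    by_cases h1 : Tou N {t₁} (Q.erase z)
    · right
      apply onl_of hz h.a2.2.1
      intro h2
      exact hbad (step3Q hVCS ih h hn hi hz hz2 hc h1 h2)
    · exact Or.inl (onl_of hz h.a1.2.1 h1)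
  by_cases h2 : x = v₂
  · have hy2 : y ≠ v₂ := fun e => hxy (h2.trans e.symm)
    exact ⟨y, hy2, key y hy hy2 cy, cy⟩
  · exact ⟨x, h2, key x hx h2 cx, cx⟩

/-- STEP (5) -/
theorem step5 (hVCS : SpecVCS) {n : ℕ} (ih : IHn α n) {t₁ t₂ v₁ v₂ v₃ : α} {P Q P' Q' : Finset α}
    (h : R3D N t₁ t₂ v₁ v₂ v₃ P Q P' Q') (hn : (P ∪ Q).card ≤ n) {p₁ p₂ p₂' : α}
    (o1 : Onl N t₁ P p₁) (o2 : Onl N t₂ P p₂) (hne : p₁ ≠ p₂) (c1 : CSet N (P.erase p₁))
    (o1' : Onl N t₁ P' p₁) (o2' : Onl N t₂ P' p₂') (hne' : p₁ ≠ p₂') (c1' : CSet N (P'.erase p₁))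
    (h1 : p₁ ≠ v₁) : Good N t₁ t₂ v₁ v₂ v₃ := by
  have q2 : v₂ ∉ P := fun e => disjoint_left.1 h.dj e h.m2.1
  have q3 : v₃ ∉ P' := fun e => disjoint_left.1 h.dj' e h.m3.2
  refine absorb hVCS ih h hn (mem_union_left _ o1.1) o1.2.1 h1 (fun e => q2 (e ▸ o1.1)) (fun e => q3 (e ▸ o1'.1))
    (fun _ => ⟨c1, tou_erase o2 hne.symm⟩) (fun e => (disjoint_left.1 h.dj o1.1 e).elim)
    (fun _ => ⟨c1', tou_erase o2' hne'.symm⟩) (fun e => (disjoint_left.1 h.dj' o1'.1 e).elim)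

/-- STEP (6), `q` the only neighbour of `t₁` -/
theorem step6 (hVCS : SpecVCS) {n : ℕ} (ih : IHn α n) {t₁ t₂ v₁ v₂ v₃ : α} {P Q P' Q' : Finset α}
    (h : R3D N t₁ t₂ v₁ v₂ v₃ P Q P' Q') (hn : (P ∪ Q).card ≤ n) {p₁' p₂' q : α}
    (o1' : Onl N t₁ P' p₁') (o2' : Onl N t₂ P' p₂') (hne' : p₁' ≠ p₂') (c1' : CSet N (P'.erase p₁'))
    (m1 : p₁' ∈ Q) (m2 : p₂' ∈ Q) (hq : q ≠ v₂) (oq : Onl N t₁ Q q) (cq : CSet N (Q.erase q)) :
    Good N t₁ t₂ v₁ v₂ v₃ := by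
  have e : p₁' = q := oq.2.2 _ m1 o1'.2.1
  subst e
  have q1 : v₁ ∉ Q := fun e => disjoint_left.1 h.dj h.m1.1 e
  have q3 : v₃ ∉ P' := fun e => disjoint_left.1 h.dj' e h.m3.2
  refine absorb hVCS ih h hn (mem_union_right _ m1) oq.2.1 (fun e => q1 (e ▸ m1)) hq (fun e => q3 (e ▸ o1'.1))
    (fun e => (disjoint_left.1 h.dj e m1).elim) (fun _ => ⟨cq, ?_⟩) (fun _ => ⟨c1', tou_erase o2' hne'.symm⟩)
    (fun e => (disjoint_left.1 h.dj' o1'.1 e).elim)
  exact ⟨t₂, mem_singleton_self _, p₂', mem_erase.2 ⟨hne'.symm, m2⟩, o2'.2.1⟩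

/-- STEP (7a) -/
theorem step7a (hVCS : SpecVCS) {n : ℕ} (ih : IHn α n) {t₁ t₂ v₁ v₂ v₃ : α} {P Q P' Q' : Finset α}
    (h : R3D N t₁ t₂ v₁ v₂ v₃ P Q P' Q') (hn : (P ∪ Q).card ≤ n) {p₂' q : α}
    (o1' : Onl N t₁ P' v₁) (o2' : Onl N t₂ P' p₂') (hne' : v₁ ≠ p₂') (c2' : CSet N (P'.erase p₂'))
    (m2 : p₂' ∈ Q) (hq : q ≠ v₂) (oq : Onl N t₂ Q q) (cq : CSet N (Q.erase q)) : Good N t₁ t₂ v₁ v₂ v₃ := by
  have e : p₂' = q := oq.2.2 _ m2 o2'.2.1
  subst e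
  have q1 : v₁ ∉ Q := fun e => disjoint_left.1 h.dj h.m1.1 e
  have q3 : v₃ ∉ P' := fun e => disjoint_left.1 h.dj' e h.m3.2
  apply Good.swapT
  refine absorb hVCS ih (R3D.swapT h) hn (mem_union_right _ m2) oq.2.1 (fun e => q1 (e ▸ m2)) hq (fun e => q3 (e ▸ o2'.1))
    (fun e => (disjoint_left.1 h.dj e m2).elim) (fun _ => ⟨cq, ?_⟩) (fun _ => ⟨c2', tou_erase o1' hne'⟩)
    (fun e => (disjoint_left.1 h.dj' o2'.1 e).elim)
  obtain ⟨t, ht, y, hy, hty⟩ := h.a1.2.1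
  rw [mem_singleton] at ht
  subst ht
  refine ⟨t, mem_singleton_self _, y, mem_erase.2 ⟨?_, hy⟩, hty⟩
  rintro rfl
  exact hne' (o1'.2.2 _ o2'.1 hty).symm

/-- STEP (7) -/
theorem step7 (hVCS : SpecVCS) {n : ℕ} (ih : IHn α n) {t₁ t₂ v₁ v₂ v₃ : α} {P Q P' Q' : Finset α}
    (h : R3D N t₁ t₂ v₁ v₂ v₃ P Q P' Q') (hn : (P ∪ Q).card ≤ n) {p₂ p₂' q q' : α}
    (o1 : Onl N t₁ P v₁) (o2 : Onl N t₂ P p₂) (c2 : CSet N (P.erase p₂))
    (o1' : Onl N t₁ P' v₁) (o2' : Onl N t₂ P' p₂') (c2' : CSet N (P'.erase p₂'))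
    (m2 : p₂ ∈ Q') (m2' : p₂' ∈ Q) (hq : q ≠ v₂) (oq : Onl N t₁ Q q ∨ Onl N t₂ Q q) (cq : CSet N (Q.erase q))
    (hq' : q' ≠ v₃) (oq' : Onl N t₁ Q' q' ∨ Onl N t₂ Q' q') (cq' : CSet N (Q'.erase q')) :
    Good N t₁ t₂ v₁ v₂ v₃ := by
  have hne : v₁ ≠ p₂ := by
    rintro rfl
    exact disjoint_left.1 h.dj' h.m1.2 m2
  have hne' : v₁ ≠ p₂' := by
    rintro rfl
    exact disjoint_left.1 h.dj h.m1.1 m2'
  rcases oq with oq | oq
  · rcases oq' with oq' | oq'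
    · have hqE : q ∈ Q' := by
        have hU : q ∈ P ∪ Q := mem_union_right _ oq.1
        refine ((mem_PQ' h hU).2).2 fun e => ?_
        have := o1'.2.2 q e oq.2.1
        subst this
        exact disjoint_left.1 h.dj h.m1.1 oq.1
      have e : q = q' := oq'.2.2 q hqE oq.2.1
      subst e
      have q1 : v₁ ∉ Q := fun e => disjoint_left.1 h.dj h.m1.1 e
      refine absorb hVCS ih h hn (mem_union_right _ oq.1) oq.2.1 (fun e => q1 (e ▸ oq.1)) hq hq'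
        (fun e => (disjoint_left.1 h.dj e oq.1).elim) (fun _ => ⟨cq, ?_⟩)
        (fun e => (disjoint_left.1 h.dj' e hqE).elim) (fun _ => ⟨cq', ?_⟩)
      · refine ⟨t₂, mem_singleton_self _, p₂', mem_erase.2 ⟨?_, m2'⟩, o2'.2.1⟩
        rintro rfl
        exact disjoint_left.1 h.dj' o2'.1 hqE
      · refine ⟨t₂, mem_singleton_self _, p₂, mem_erase.2 ⟨?_, m2⟩, o2.2.1⟩
        rintro rfl
        exact disjoint_left.1 h.dj o2.1 oq.1
    · exact Good.swap (step7a hVCS ih (R3D.swap h) (h.un ▸ hn) o1 o2 hne c2 m2 hq' oq' cq')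
  · exact step7a hVCS ih h hn o1' o2' hne' c2' m2' hq oq cq

theorem main (hVCS : SpecVCS) (n : ℕ) : IHn α n := by
  induction n with
  | zero =>
    intro N t₁ t₂ v₁ v₂ v₃ P Q P' Q' hn
    exact (Nat.not_lt_zero _ hn).elim
  | succ n ih =>
    intro N t₁ t₂ v₁ v₂ v₃ P Q P' Q' hn h
    have hn' : (P ∪ Q).card ≤ n := Nat.lt_succ_iff.1 hn
    by_contra hbad
    by_cases hE : (Q ∩ Q').Nonempty
    swap
    · exact hbad (baseE hVCS h hE)
    have hi : Ind N P Q P' Q' := ⟨fun a b hab ha hb h1 h2 => hbad (cell hVCS ih h hn' hab ha hb h1 h2), hE⟩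
    have hbad' : ¬ Good N t₁ t₂ v₁ v₃ v₂ := fun e => hbad (Good.swap e)
    have hn'' : (P' ∪ Q').card ≤ n := h.un ▸ hn'
    obtain ⟨p₁, p₂, o1, o2, hne, c1, c2⟩ := ends hVCS ih h hn' hi hbad
    obtain ⟨p₁', p₂', o1', o2', hne', c1', c2'⟩ := ends hVCS ih (R3D.swap h) hn'' (hi.swap h.un) hbad'
    obtain ⟨q, hq, oq, cq⟩ := endQ hVCS ih h hn' hi hbad
    obtain ⟨q', hq', oq', cq'⟩ := endQ hVCS ih (R3D.swap h) hn'' (hi.swap h.un) hbad'
    -- `p₁`
    have k1 : (p₁ = v₁ ∧ p₁' = v₁) ∨ (p₁ ∈ Q' ∧ p₁' ∈ Q) := by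
      by_cases e : p₁ ∈ P'
      · have e1 : p₁ = p₁' := o1'.2.2 _ e o1.2.1
        subst e1
        left
        by_contra hcon
        exact hbad (step5 hVCS ih h hn' o1 o2 hne c1 o1' o2' hne' c1' fun e => hcon ⟨e, e⟩)
      · right
        refine ⟨((mem_PQ' h (mem_union_left _ o1.1)).2).2 e, ?_⟩
        have hU : p₁' ∈ P ∪ Q := by
          rw [h.un]
          exact mem_union_left _ o1'.1
        refine ((mem_PQ' h hU).1).2 fun e' => e ?_
        rw [← o1.2.2 _ e' o1'.2.1]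
        exact o1'.1
    have k2 : (p₂ = v₁ ∧ p₂' = v₁) ∨ (p₂ ∈ Q' ∧ p₂' ∈ Q) := by
      by_cases e : p₂ ∈ P'
      · have e1 : p₂ = p₂' := o2'.2.2 _ e o2.2.1
        subst e1
        left
        by_contra hcon
        exact hbad (Good.swapT (step5 hVCS ih (R3D.swapT h) hn' o2 o1 hne.symm c2 o2' o1' hne'.symm c2' fun e => hcon ⟨e, e⟩))
      · right
        refine ⟨((mem_PQ' h (mem_union_left _ o2.1)).2).2 e, ?_⟩
        have hU : p₂' ∈ P ∪ Q := by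
          rw [h.un]
          exact mem_union_left _ o2'.1
        refine ((mem_PQ' h hU).1).2 fun e' => e ?_
        rw [← o2.2.2 _ e' o2'.2.1]
        exact o2'.1
    rcases k1 with ⟨e1, e1'⟩ | ⟨m1, m1'⟩
    · subst e1
      subst e1'
      rcases k2 with ⟨e2, _⟩ | ⟨m2, m2'⟩
      · exact hne e2.symm
      · exact hbad (step7 hVCS ih h hn' o1 o2 c2 o1' o2' c2' m2 m2' hq oq cq hq' oq' cq')
    · rcases k2 with ⟨e2, e2'⟩ | ⟨m2, m2'⟩
      · subst e2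
        subst e2'
        exact hbad (Good.swapT (step7 hVCS ih (R3D.swapT h) hn' o2 o1 c1 o2' o1' c1' m1 m1' hq oq.symm cq hq' oq'.symm cq'))
      · rcases oq with oq | oq
        · exact hbad (step6 hVCS ih h hn' o1' o2' hne' c1' m1' m2' hq oq cq)
        · exact hbad (Good.swapT (step6 hVCS ih (R3D.swapT h) hn' o2' o1' hne'.symm c2' m2' m1' hq oq cq))

end V3LM

/-- **V3L** -/
theorem specV3L (hVCS : SpecVCS) : SpecV3L := by
  intro α _ _ N t₁ t₂ v₁ v₂ v₃ P Q P' Q' h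
  exact V3LM.main hVCS ((P ∪ Q).card + 1) N t₁ t₂ v₁ v₂ v₃ P Q P' Q' (Nat.lt_succ_self _) h

end DL
end

section
/-!
# MP_3ff0f8_gt, STEP Y, part V, module VCS (helper49): connected sets and contraction
-/
open SimpleGraph Finset

namespace DL

namespace VCSM

set_option linter.unusedSectionVars false

variable {α : Type} [Fintype α] [DecidableEq α] {N : SimpleGraph α}

theorem adj_in {S : Finset α} {a b : α} : (del N (univ \ S)).Adj a b ↔ N.Adj a b ∧ a ∈ S ∧ b ∈ S := by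
  rw [del_adj, mem_sdiff, not_and_not_right, mem_sdiff, not_and_not_right]
  simp

theorem le_in {X Y : Finset α} (h : X ⊆ Y) : del N (univ \ X) ≤ del N (univ \ Y) := fun a b hab => by
  rw [adj_in] at hab ⊢
  exact ⟨hab.1, h hab.2.1, h hab.2.2⟩

theorem reach_mono {X Y : Finset α} (h : X ⊆ Y) {u v : α} (hr : (del N (univ \ X)).Reachable u v) :
    (del N (univ \ Y)).Reachable u v :=
  hr.mono (le_in h)

theorem single (v : α) : CSet N {v} := by
  refine ⟨singleton_nonempty v, ?_⟩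
  intro a ha b hb
  rw [mem_singleton] at ha hb
  rw [ha, hb]

/-- connected from a root -/
theorem of_root {S : Finset α} {r : α} (hr : r ∈ S) (h : ∀ a ∈ S, (del N (univ \ S)).Reachable r a) : CSet N S :=
  ⟨⟨r, hr⟩, fun a ha b hb => (h a ha).symm.trans (h b hb)⟩

theorem union_adj {X Y : Finset α} (hX : CSet N X) (hY : CSet N Y) {u v : α} (hu : u ∈ X) (hv : v ∈ Y)
    (huv : N.Adj u v) : CSet N (X ∪ Y) := by
  have hXY : (del N (univ \ (X ∪ Y))).Reachable u v :=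
    Adj.reachable (adj_in.2 ⟨huv, mem_union_left _ hu, mem_union_right _ hv⟩)
  refine of_root (mem_union_left _ hu) fun a ha => ?_
  rcases mem_union.1 ha with ha | ha
  · exact reach_mono subset_union_left (hX.2 u hu a ha)
  · exact hXY.trans (reach_mono subset_union_right (hY.2 v hv a ha))

theorem union_inter {X Y : Finset α} (hX : CSet N X) (hY : CSet N Y) {u : α} (hu : u ∈ X) (hv : u ∈ Y) :
    CSet N (X ∪ Y) := by
  refine of_root (mem_union_left _ hu) fun a ha => ?_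
  rcases mem_union.1 ha with ha | ha
  · exact reach_mono subset_union_left (hX.2 u hu a ha)
  · exact reach_mono subset_union_right (hY.2 u hv a ha)

theorem ins {S : Finset α} {x y : α} (hS : CSet N S) (hy : y ∈ S) (h : N.Adj y x) : CSet N (insert x S) := by
  have := union_adj hS (single x) hy (mem_singleton_self x) h
  rwa [union_comm, ← insert_eq] at this

theorem nbr {S : Finset α} {x : α} (hS : CSet N S) (hx : x ∈ S) (h2 : 2 ≤ S.card) :
    ∃ y ∈ S, y ≠ x ∧ N.Adj x y := by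
  obtain ⟨z, hz, hzx⟩ := exists_mem_ne (by omega : 1 < S.card) x
  obtain ⟨u, hu⟩ := exists_adj_of_reachable (hS.2 x hx z hz) hzx.symm
  rw [adj_in] at hu
  exact ⟨u, hu.2.2, hu.1.ne.symm, hu.1⟩

theorem part {S X : Finset α} (hS : CSet N S) (hX : X ⊆ S) (h1 : X.Nonempty) (h2 : (S \ X).Nonempty) :
    Tou N X (S \ X) := by
  obtain ⟨x, hx⟩ := h1
  obtain ⟨y, hy⟩ := h2
  rw [mem_sdiff] at hy
  by_contra hc
  have : y ∈ {v | v ∈ X} := mem_of_reachable (X := {v | v ∈ X}) (hS.2 x (hX hx) y hy.1) hx (by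
    intro u v huv hu
    rw [adj_in] at huv
    by_contra hv
    exact hc ⟨u, hu, v, mem_sdiff.2 ⟨huv.2.2, hv⟩, huv.1⟩)
  exact hy.2 this

/-- a non-cut vertex different from `r` -/
theorem nc1 {S : Finset α} {r : α} (hS : CSet N S) (hr : r ∈ S) (h2 : 2 ≤ S.card) :
    ∃ x ∈ S, x ≠ r ∧ CSet N (S.erase x) := by
  classical
  obtain ⟨Y, hY, hmax⟩ := exists_max_image (S.powerset.filter fun Y => r ∈ Y ∧ Y ≠ S ∧ CSet N Y) card
    ⟨{r}, mem_filter.2 ⟨mem_powerset.2 (singleton_subset_iff.2 hr), mem_singleton_self _, by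
      rintro h
      rw [← h, card_singleton] at h2
      omega, single r⟩⟩
  rw [mem_filter, mem_powerset] at hY
  obtain ⟨hYS, hrY, hne, hY⟩ := hY
  have hn : (S \ Y).Nonempty := by
    rw [sdiff_nonempty]
    exact fun h => hne (Subset.antisymm hYS h)
  obtain ⟨y, hy, x, hx, hyx⟩ := part hS hYS hY.1 hn
  rw [mem_sdiff] at hx
  have h1 : CSet N (insert x Y) := ins hY hy hyx
  have h3 : insert x Y = S := by
    by_contra h
    have := hmax (insert x Y) (mem_filter.2 ⟨mem_powerset.2 (insert_subset hx.1 hYS), mem_insert_of_mem hrY, h, h1⟩)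
    rw [card_insert_of_notMem hx.2] at this
    omega
  refine ⟨x, hx.1, fun h => hx.2 (h ▸ hrY), ?_⟩
  rw [← h3, erase_insert hx.2]
  exact hY

theorem nc {S : Finset α} (hS : CSet N S) (h2 : 2 ≤ S.card) :
    ∃ x ∈ S, ∃ y ∈ S, x ≠ y ∧ CSet N (S.erase x) ∧ CSet N (S.erase y) := by
  obtain ⟨r, hr⟩ := hS.1
  obtain ⟨x, hx, -, hcx⟩ := nc1 hS hr h2
  obtain ⟨y, hy, hyx, hcy⟩ := nc1 hS hx h2
  exact ⟨x, hx, y, hy, hyx.symm, hcx, hcy⟩

open Classical in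
/-- the component of `k` in `N[Y]` -/
noncomputable def comp (N : SimpleGraph α) (Y : Finset α) (k : α) : Finset α :=
  univ.filter fun v => (del N (univ \ Y)).Reachable k v

theorem mem_comp {Y : Finset α} {k v : α} : v ∈ comp N Y k ↔ (del N (univ \ Y)).Reachable k v := by
  classical
  simp [comp]

theorem self_mem (Y : Finset α) (k : α) : k ∈ comp N Y k := mem_comp.2 (Reachable.refl k)

theorem comp_subset {Y : Finset α} {k : α} (hk : k ∈ Y) : comp N Y k ⊆ Y := by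
  intro v hv
  have := mem_of_reachable (X := {v | v ∈ Y}) (mem_comp.1 hv) hk (fun a b hab _ => (adj_in.1 hab).2.2)
  exact this

theorem comp_closed {Y : Finset α} {k v w : α} (hk : k ∈ Y) (hv : v ∈ comp N Y k) (hw : w ∈ Y)
    (h : N.Adj v w) : w ∈ comp N Y k :=
  mem_comp.2 ((mem_comp.1 hv).trans (Adj.reachable (adj_in.2 ⟨h, comp_subset hk hv, hw⟩)))

theorem cset_comp {Y : Finset α} {k : α} (hk : k ∈ Y) : CSet N (comp N Y k) := by
  refine of_root (self_mem Y k) fun a ha => ?_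
  refine mem_of_reachable (X := {v | (del N (univ \ comp N Y k)).Reachable k v}) (mem_comp.1 ha)
    (Reachable.refl k) ?_
  intro u v huv hu
  have hu1 : u ∈ comp N Y k := mem_comp.2 (reach_mono (comp_subset hk) hu)
  have hv1 : v ∈ comp N Y k := mem_comp.2 ((mem_comp.1 hu1).trans huv.reachable)
  exact Reachable.trans hu (Adj.reachable (adj_in.2 ⟨(adj_in.1 huv).1, hu1, hv1⟩))

/-- a connected subset containing `k` is in the component -/
theorem sub_comp {Y Z : Finset α} {k : α} (hZ : CSet N Z) (hk : k ∈ Z) (h : Z ⊆ Y) : Z ⊆ comp N Y k :=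
  fun a ha => mem_comp.2 (reach_mono h (hZ.2 k hk a ha))

theorem dsc {S : Finset α} {r : α} (hS : CSet N S) (hr : r ∈ S) :
    ∃ D : α → Finset α, (∀ x ∈ S, x ≠ r → x ∈ D x ∧ D x ⊆ S ∧ r ∉ D x ∧ CSet N (D x) ∧ CSet N (S \ D x)) ∧
      ∀ x ∈ S, ∀ y ∈ S, x ≠ r → y ≠ r → y ∈ D x → x ∈ D y → x = y := by
  classical
  refine ⟨fun x => S \ comp N (S.erase x) r, ?_, ?_⟩
  · intro x hx hxr
    have hrx : r ∈ S.erase x := mem_erase.2 ⟨hxr.symm, hr⟩
    have hK : comp N (S.erase x) r ⊆ S.erase x := comp_subset hrx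
    have hKS : comp N (S.erase x) r ⊆ S := hK.trans (erase_subset _ _)
    have hxK : x ∉ comp N (S.erase x) r := fun h => (notMem_erase x S) (hK h)
    have hxD : x ∈ S \ comp N (S.erase x) r := mem_sdiff.2 ⟨hx, hxK⟩
    refine ⟨hxD, sdiff_subset, fun h => (mem_sdiff.1 h).2 (self_mem _ _), ?_, ?_⟩
    · refine of_root hxD fun u hu => ?_
      by_contra hc
      -- the component of `u` in `D`
      have hxC : x ∉ comp N (S \ comp N (S.erase x) r) u := fun h => hc (mem_comp.1 h).symm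
      have hCD : comp N (S \ comp N (S.erase x) r) u ⊆ S \ comp N (S.erase x) r := comp_subset hu
      obtain ⟨c, hcC, d, hd, hcd⟩ := part hS (hCD.trans sdiff_subset) ⟨u, self_mem _ _⟩
        ⟨x, mem_sdiff.2 ⟨hx, hxC⟩⟩
      rw [mem_sdiff] at hd
      have hdK : d ∈ comp N (S.erase x) r := by
        by_contra hdK
        exact hd.2 (comp_closed hu hcC (mem_sdiff.2 ⟨hd.1, hdK⟩) hcd)
      have hcx : c ≠ x := fun h => hxC (h ▸ hcC)
      have hcS := mem_sdiff.1 (hCD hcC)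
      exact hcS.2 (comp_closed hrx hdK (mem_erase.2 ⟨hcx, hcS.1⟩) hcd.symm)
    · rw [Finset.sdiff_sdiff_eq_self hKS]
      exact cset_comp hrx
  · intro x hx y hy hxr hyr hyD hxD
    by_contra hxy
    have hrx : r ∈ S.erase x := mem_erase.2 ⟨hxr.symm, hr⟩
    have hry : r ∈ S.erase y := mem_erase.2 ⟨hyr.symm, hr⟩
    have hyK : y ∉ comp N (S.erase x) r := (mem_sdiff.1 hyD).2
    have hxK : x ∉ comp N (S.erase y) r := (mem_sdiff.1 hxD).2
    have hx1 : comp N (S.erase x) r ⊆ S.erase x := comp_subset hrx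
    have hy1 : comp N (S.erase y) r ⊆ S.erase y := comp_subset hry
    have h1 : comp N (S.erase x) r ⊆ comp N (S.erase y) r :=
      sub_comp (cset_comp hrx) (self_mem _ _) fun a ha =>
        mem_erase.2 ⟨fun h => hyK (h ▸ ha), (mem_erase.1 (hx1 ha)).2⟩
    have h2 : comp N (S.erase y) r ⊆ comp N (S.erase x) r :=
      sub_comp (cset_comp hry) (self_mem _ _) fun a ha =>
        mem_erase.2 ⟨fun h => hxK (h ▸ ha), (mem_erase.1 (hy1 ha)).2⟩
    obtain ⟨c, hc, d, hd, hcd⟩ := part hS (hx1.trans (erase_subset _ _)) ⟨r, self_mem _ _⟩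
      ⟨x, mem_sdiff.2 ⟨hx, fun h => (notMem_erase x S) (hx1 h)⟩⟩
    rw [mem_sdiff] at hd
    by_cases hdx : d = x
    · have hdy : d ≠ y := fun h => hxy (hdx ▸ h)
      exact hd.2 (h2 (comp_closed hry (h1 hc) (mem_erase.2 ⟨hdy, hd.1⟩) hcd))
    · exact hd.2 (comp_closed hrx hc (mem_erase.2 ⟨hdx, hd.1⟩) hcd)

theorem ctr {a b : α} {S : Finset α} (hab : N.Adj a b) (hb : b ∉ S) :
    CSet (contr N a b) S ↔ CSet N (exb a b S) := by
  by_cases ha : a ∈ S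
  · rw [exb, if_pos ha]
    constructor
    · intro h
      refine of_root (mem_insert_of_mem ha) fun u hu => ?_
      rcases mem_insert.1 hu with rfl | hu
      · exact Adj.reachable (adj_in.2 ⟨hab, mem_insert_of_mem ha, mem_insert_self _ _⟩)
      · refine mem_of_reachable (X := {v | (del N (univ \ insert b S)).Reachable a v}) (h.2 a ha u hu)
          (Reachable.refl a) ?_
        intro p q hpq hp
        rw [adj_in, contr_adj] at hpq
        obtain ⟨⟨-, -, -, h4⟩, hpS, hqS⟩ := hpq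
        have hab' : (del N (univ \ insert b S)).Reachable a b :=
          Adj.reachable (adj_in.2 ⟨hab, mem_insert_of_mem ha, mem_insert_self _ _⟩)
        rcases h4 with h4 | ⟨-, h4⟩ | ⟨h5, -⟩
        · exact Reachable.trans hp (Adj.reachable
            (adj_in.2 ⟨h4, mem_insert_of_mem hpS, mem_insert_of_mem hqS⟩))
        · exact hab'.trans (Adj.reachable
            (adj_in.2 ⟨h4, mem_insert_self _ _, mem_insert_of_mem hqS⟩))
        · rw [h5]
          exact Reachable.refl a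
    · intro h
      refine of_root ha fun u hu => ?_
      have haT : a ∉ univ \ insert b S := by
        rw [mem_sdiff, not_and_not_right]
        exact fun _ => mem_insert_of_mem ha
      have h1 := contr_reach hab.ne haT (h.2 a (mem_insert_of_mem ha) u (mem_insert_of_mem hu))
      have hub : u ≠ b := fun h2 => hb (h2 ▸ hu)
      rw [cpr_of_ne hab.ne, cpr_of_ne hub] at h1
      refine h1.mono fun p q hpq => ?_
      rw [adj_in] at hpq ⊢
      obtain ⟨h2, h3, h4⟩ := hpq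
      exact ⟨h2, (mem_insert.1 h3).resolve_left h2.1, (mem_insert.1 h4).resolve_left h2.2.1⟩
  · rw [exb, if_neg ha]
    have e : del (contr N a b) (univ \ S) = del N (univ \ S) := by
      ext p q
      rw [adj_in, adj_in, contr_adj]
      constructor
      · rintro ⟨⟨-, -, -, h4⟩, hp, hq⟩
        rcases h4 with h4 | ⟨h5, -⟩ | ⟨h5, -⟩
        · exact ⟨h4, hp, hq⟩
        · exact absurd (h5 ▸ hp) ha
        · exact absurd (h5 ▸ hq) ha
      · rintro ⟨h4, hp, hq⟩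
        exact ⟨⟨fun h => hb (h ▸ hp), fun h => hb (h ▸ hq), h4.ne, Or.inl h4⟩, hp, hq⟩
    rw [CSet, CSet, e]

theorem mem_exb {a b x : α} {S : Finset α} : x ∈ exb a b S ↔ x ∈ S ∨ (x = b ∧ a ∈ S) := by
  rw [exb]
  split_ifs with h
  · rw [mem_insert]
    constructor
    · rintro (h1 | h1)
      · exact Or.inr ⟨h1, h⟩
      · exact Or.inl h1
    · rintro (h1 | h1)
      · exact Or.inr h1
      · exact Or.inl h1.1
  · constructor
    · exact Or.inl
    · rintro (h1 | h1)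
      · exact h1
      · exact absurd h1.2 h

theorem tou {a b : α} {S S' : Finset α} (hab : N.Adj a b) (hb : b ∉ S) (hb' : b ∉ S') (hd : Disjoint S S') :
    Tou (contr N a b) S S' ↔ Tou N (exb a b S) (exb a b S') := by
  constructor
  · rintro ⟨x, hx, y, hy, h⟩
    rw [contr_adj] at h
    obtain ⟨-, -, -, h4⟩ := h
    rcases h4 with h4 | ⟨h5, h4⟩ | ⟨h5, h4⟩
    · exact ⟨x, mem_exb.2 (Or.inl hx), y, mem_exb.2 (Or.inl hy), h4⟩
    · exact ⟨b, mem_exb.2 (Or.inr ⟨rfl, h5 ▸ hx⟩), y, mem_exb.2 (Or.inl hy), h4⟩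
    · exact ⟨x, mem_exb.2 (Or.inl hx), b, mem_exb.2 (Or.inr ⟨rfl, h5 ▸ hy⟩), h4⟩
  · rintro ⟨x, hx, y, hy, h⟩
    rw [mem_exb] at hx hy
    have dj : ∀ z, z ∈ S → z ∈ S' → False := fun z h1 h2 => Finset.disjoint_left.1 hd h1 h2
    rcases hx with hx | ⟨rfl, hx⟩
    · rcases hy with hy | ⟨rfl, hy⟩
      · exact ⟨x, hx, y, hy, fun h1 => hb (h1 ▸ hx), fun h1 => hb' (h1 ▸ hy), h.ne, Or.inl h⟩
      · exact ⟨x, hx, a, hy, fun h1 => hb (h1 ▸ hx), hab.ne, fun h1 => dj x hx (h1 ▸ hy), Or.inr (Or.inr ⟨rfl, h⟩)⟩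
    · rcases hy with hy | ⟨rfl, hy⟩
      · exact ⟨a, hx, y, hy, hab.ne, fun h1 => hb' (h1 ▸ hy), fun h1 => dj a hx (h1 ▸ hy), Or.inr (Or.inl ⟨rfl, h⟩)⟩
      · exact absurd rfl h.ne

theorem pth {S : Finset α} {x y : α} (hS : CSet N S) (hx : x ∈ S) (hy : y ∈ S) : ∃ P, IsPth N x y P ∧ vs P ⊆ S := by
  obtain ⟨P, hP⟩ := exists_isPth (hS.2 x hx y hy)
  obtain ⟨h1, h2⟩ := DL.isPth_del.1 hP
  refine ⟨P, h1, fun z hz => ?_⟩
  have := Finset.disjoint_left.1 h2 hz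
  rw [mem_sdiff, not_and_not_right] at this
  exact this (mem_univ _)

theorem cpth {x y : α} {P : Finset (Sym2 α)} (h : IsPth N x y P) : CSet N (insert x (vs P)) := by
  refine of_root (mem_insert_self _ _) fun v hv => ?_
  obtain ⟨P1, P2, h1, -, h3, -, -⟩ := h.split (mem_insert.1 hv)
  refine h1.reachable_del fun z hz hz' => ?_
  refine (mem_sdiff.1 hz').2 ?_
  rcases mem_insert.1 hz with rfl | hz
  · exact mem_insert_self _ _
  · exact mem_insert_of_mem (vs_mono (h3 ▸ subset_union_left) hz)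

theorem ext_aux (n : ℕ) : ∀ {T : SimpleGraph α} {S Y : Finset α}, (S \ Y).card = n → CSet N S → RTree Y T → Y ⊆ S →
    Y.Nonempty → T ≤ N → ∃ T', T ≤ T' ∧ T' ≤ N ∧ RTree S T' := by
  induction n with
  | zero =>
    intro T S Y hn _ hT hYS _ hTN
    have : S ⊆ Y := by
      rw [← sdiff_eq_empty_iff_subset]
      exact card_eq_zero.1 hn
    have e : Y = S := Subset.antisymm hYS this
    subst e
    exact ⟨T, le_refl _, hTN, hT⟩
  | succ n ih =>
    intro T S Y hn hS hT hYS hY hTN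
    have hne : (S \ Y).Nonempty := by
      rw [← card_pos]
      omega
    obtain ⟨y, hy, x, hx, hyx⟩ := part hS hYS hY hne
    rw [mem_sdiff] at hx
    have h1 := hT.add_leaf hy hx.2
    have h2 : T ⊔ gr {s(y, x)} ≤ N := sup_le hTN (gr_le fun e he => by
      rw [mem_singleton] at he
      rw [he]
      exact hyx)
    have h3 : (S \ insert x Y).card = n := by
      have : S \ insert x Y = (S \ Y).erase x := by
        ext z
        simp only [mem_sdiff, mem_insert, mem_erase, not_or]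
        tauto
      rw [this, card_erase_of_mem (mem_sdiff.2 hx), hn]
      rfl
    obtain ⟨T', h4, h5, h6⟩ := ih h3 hS h1 (insert_subset hx.1 hYS) (insert_nonempty _ _) h2
    exact ⟨T', le_trans le_sup_left h4, h5, h6⟩

theorem ext {T : SimpleGraph α} {S Y : Finset α} (hS : CSet N S) (hT : TreeOn T Y) (hYS : Y ⊆ S)
    (hY : Y.Nonempty) (hTN : T ≤ N) : ∃ T', T ≤ T' ∧ T' ≤ N ∧ TreeOn T' S := by
  obtain ⟨T', h1, h2, h3⟩ := ext_aux _ rfl hS ⟨hT.inX, hT.conn, hT.acyc⟩ hYS hY hTN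
  exact ⟨T', h1, h2, ⟨h3.inY, h3.conn, h3.acyc⟩⟩

end VCSM

open VCSM in
theorem specVCS : SpecVCS where
  nbr := nbr
  ins := ins
  uni := by
    rintro α _ _ N S S' h h' (⟨u, hu, v, hv, huv⟩ | ⟨u, hu⟩)
    · exact union_adj h h' hu hv huv
    · rw [mem_inter] at hu
      exact union_inter h h' hu.1 hu.2
  part := part
  nc := nc
  dsc := dsc
  ctr := ctr
  tou := tou
  pth := pth
  cpth := cpth
  ext := VCSM.ext

end DL
end

section
/-!
# MP_3ff0f8_gt, algebra half, Step Y, module VCV (helper6): the value of a linkage depends only on `v`, `w`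
-/
set_option autoImplicit false

open SimpleGraph Finset

namespace DL

namespace VCVM

variable {α : Type} [Fintype α] [DecidableEq α] {R : SimpleGraph α} {t₁ t₂ t₃ v w : α}
  {ψ : Finset (Sym2 α) → ZMod 2}

/-- the linkage `(A, B)` lies inside `(S₁, S₂)` -/
def InS (R : SimpleGraph α) (t₁ t₂ t₃ v w : α) (S₁ S₂ : Finset α) (A B : Finset (Sym2 α)) : Prop :=
  LNK R t₁ t₂ t₃ v w A B ∧ vs A ⊆ S₁ ∧ vs B ⊆ S₂

open Classical in
/-- the value of the linkages inside `(S₁, S₂)` -/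
noncomputable def kap (R : SimpleGraph α) (t₁ t₂ t₃ v w : α) (ψ : Finset (Sym2 α) → ZMod 2) (S₁ S₂ : Finset α) :
    ZMod 2 :=
  if h : ∃ A B, InS R t₁ t₂ t₃ v w S₁ S₂ A B then ψ (c4c t₁ t₂ t₃ v w h.choose h.choose_spec.choose) else 0

theorem kap_eq (hVFD : SpecVFD) (hC1 : C1 R) (hco : ConnOff R {t₁, t₂, t₃}) (hT : Trg R t₁ t₂ t₃)
    (hk : KCH R t₁ t₂ t₃ ψ) (hIV : IV R t₁ t₂ t₃ ψ) {S₁ S₂ : Finset α} (hd : Disjoint S₁ S₂)
    {A B : Finset (Sym2 α)} (h : InS R t₁ t₂ t₃ v w S₁ S₂ A B) :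
    kap R t₁ t₂ t₃ v w ψ S₁ S₂ = ψ (c4c t₁ t₂ t₃ v w A B) := by
  have hex : ∃ A B, InS R t₁ t₂ t₃ v w S₁ S₂ A B := ⟨A, B, h⟩
  unfold kap
  rw [dif_pos hex]
  obtain ⟨hl', hA', hB'⟩ := hex.choose_spec.choose_spec
  generalize hex.choose_spec.choose = B' at hl' hB' ⊢
  generalize hex.choose = A' at hl' hA' ⊢
  obtain ⟨hl, hA, hB⟩ := h
  have hm : LNK R t₁ t₂ t₃ v w A' B :=
    ⟨hl.av, hl.aw, hl.nv, hl.nw, hl'.pA, hl.pB, disjoint_of_subset_left hA' (disjoint_of_subset_right hB hd)⟩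
  rw [hVFD.B hC1 hco hT hk hIV hl' hm]
  exact hVFD.A hC1 hco hT hk hIV hm hl

/-- a linkage inside a pair of connected sets -/
theorem ex (hVCS : SpecVCS) (hav : R.Adj t₃ v) (haw : R.Adj t₃ w) (hnv : v ≠ t₁) (hnw : w ≠ t₂)
    {S₁ S₂ : Finset α} (h : LPR (del R {t₃}) t₁ v t₂ w S₁ S₂) : ∃ A B, InS R t₁ t₂ t₃ v w S₁ S₂ A B := by
  obtain ⟨A, hA, hAS⟩ := hVCS.pth h.c1 h.m1 h.mv
  obtain ⟨B, hB, hBS⟩ := hVCS.pth h.c2 h.m2 h.mw
  obtain ⟨hA1, hA2⟩ := isPth_del.1 hA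
  obtain ⟨hB1, hB2⟩ := isPth_del.1 hB
  refine ⟨A, B, ⟨hav, haw, hnv, hnw, ?_, ?_, disjoint_of_subset_left hAS (disjoint_of_subset_right hBS h.dj)⟩,
    hAS, hBS⟩
  · refine isPth_del.2 ⟨hA1, ?_⟩
    rw [Finset.disjoint_left]
    intro x hx hx'
    rw [mem_insert] at hx'
    rcases hx' with rfl | hx'
    · exact Finset.disjoint_left.1 h.dj (hAS hx) h.m2
    · exact Finset.disjoint_left.1 hA2 hx hx'
  · refine isPth_del.2 ⟨hB1, ?_⟩
    rw [Finset.disjoint_left]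
    intro x hx hx'
    rw [mem_insert] at hx'
    rcases hx' with rfl | hx'
    · exact Finset.disjoint_left.1 h.dj h.m1 (hBS hx)
    · exact Finset.disjoint_left.1 hB2 hx hx'

/-- the vertex sets of a linkage -/
theorem lpr (hVCS : SpecVCS) (hVLC : SpecVLC) {A B : Finset (Sym2 α)} (h : LNK R t₁ t₂ t₃ v w A B) :
    LPR (del R {t₃}) t₁ v t₂ w (vs A) (vs B) := by
  obtain ⟨-, m1, mv, m2, mw⟩ := hVLC.ne h
  have hA : IsPth (del R {t₃}) t₁ v A := by
    obtain ⟨hA1, hA2⟩ := isPth_del.1 h.pA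
    exact isPth_del.2 ⟨hA1, disjoint_of_subset_right (by simp) hA2⟩
  have hB : IsPth (del R {t₃}) t₂ w B := by
    obtain ⟨hB1, hB2⟩ := isPth_del.1 h.pB
    exact isPth_del.2 ⟨hB1, disjoint_of_subset_right (by simp) hB2⟩
  have h1 := hVCS.cpth hA
  have h2 := hVCS.cpth hB
  rw [insert_eq_of_mem m1] at h1
  rw [insert_eq_of_mem m2] at h2
  exact ⟨h1, h2, m1, mv, m2, mw, h.dj⟩

theorem const (hVFD : SpecVFD) (hVK2 : SpecVK2) (hVRE : SpecVRE) (hVLC : SpecVLC) (hVCS : SpecVCS)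
    (hC1 : C1 R) (hco : ConnOff R {t₁, t₂, t₃}) (hT : Trg R t₁ t₂ t₃) (hF : InF R ψ)
    (hk : KCH R t₁ t₂ t₃ ψ) (hIV : IV R t₁ t₂ t₃ ψ) {A B A' B' : Finset (Sym2 α)}
    (h : LNK R t₁ t₂ t₃ v w A B) (h' : LNK R t₁ t₂ t₃ v w A' B') :
    ψ (c4c t₁ t₂ t₃ v w A B) = ψ (c4c t₁ t₂ t₃ v w A' B') := by
  have hp := lpr hVCS hVLC h
  have hp' := lpr hVCS hVLC h'
  have e := hVRE (κ := kap R t₁ t₂ t₃ v w ψ) h.nv.symm h.nw.symm ?_ ?_ _ _ _ _ hp hp'
  · rw [← kap_eq hVFD hC1 hco hT hk hIV hp.dj ⟨h, Subset.refl _, Subset.refl _⟩, e,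
      kap_eq hVFD hC1 hco hT hk hIV hp'.dj ⟨h', Subset.refl _, Subset.refl _⟩]
  · intro S₁ S₂ S₁' S₂' hS hS' h1 h2
    obtain ⟨P, Q, hPQ, hP, hQ⟩ := ex hVCS h.av h.aw h.nv h.nw hS
    rw [kap_eq hVFD hC1 hco hT hk hIV hS.dj ⟨hPQ, hP, hQ⟩,
      kap_eq hVFD hC1 hco hT hk hIV hS'.dj ⟨hPQ, hP.trans h1, hQ.trans h2⟩]
  · intro L X Y hH
    obtain ⟨A₁, B₁, A₂, B₂, l1, l2, a1, b1, a2, b2, e⟩ := hVK2 hT h.av h.aw h.nv h.nw hF hIV hH
    have dj : ∀ {X' Y' : Finset α}, (∀ i, Disjoint (L i) X') → (∀ i, Disjoint (L i) Y') → Disjoint X' Y' →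
        Disjoint (L 0 ∪ X' ∪ L 1) (L 2 ∪ Y' ∪ L 3) := by
      intro X' Y' hX hY hXY
      simp only [Finset.disjoint_union_left, Finset.disjoint_union_right]
      exact ⟨⟨⟨⟨hH.dL 0 2 (by decide), (hX 2).symm⟩, hH.dL 1 2 (by decide)⟩, ⟨hY 0, hXY⟩, hY 1⟩,
        ⟨hH.dL 0 3 (by decide), (hX 3).symm⟩, hH.dL 1 3 (by decide)⟩
    rw [kap_eq hVFD hC1 hco hT hk hIV (dj hH.dA hH.dB hH.dAB) ⟨l1, a1, b1⟩,
      kap_eq hVFD hC1 hco hT hk hIV (dj hH.dB hH.dA hH.dAB.symm) ⟨l2, a2, b2⟩, e]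

end VCVM

open VCVM in
/-- module VCV -/
theorem specVCV (hVFD : SpecVFD) (hVK2 : SpecVK2) (hVRE : SpecVRE) (hVLC : SpecVLC) (hVCS : SpecVCS) : SpecVCV := by
  classical
  intro α _ _ R t₁ t₂ t₃ ψ hC1 hco hT hF hk hIV
  refine ⟨fun v w => if h : ∃ A B, LNK R t₁ t₂ t₃ v w A B then
    ψ (c4c t₁ t₂ t₃ v w h.choose h.choose_spec.choose) else 0, fun v w A B hl => ?_⟩
  have hex : ∃ A B, LNK R t₁ t₂ t₃ v w A B := ⟨A, B, hl⟩
  simp only [dif_pos hex]
  exact const hVFD hVK2 hVRE hVLC hVCS hC1 hco hT hF hk hIV hl hex.choose_spec.choose_spec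

end DL
end

section
/-!
# Module VF1 (helper76)
-/
open SimpleGraph Finset

namespace DL

namespace VF1M

variable {α : Type} [Fintype α] [DecidableEq α] {R : SimpleGraph α}

theorem two_sum {M : Type} [AddCommMonoid M] (f : (Fin 2 → Bool) → M) :
    ∑ e : Fin 2 → Bool, f e =
      f ![false, false] + f ![true, false] + f ![false, true] + f ![true, true] := by
  have : (univ : Finset (Fin 2 → Bool)) =
      {![false, false], ![true, false], ![false, true], ![true, true]} := by decide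
  rw [this, sum_insert (by decide), sum_insert (by decide), sum_insert (by decide),
    sum_singleton]
  simp only [add_assoc]

theorem three_sum {M : Type} [AddCommMonoid M] (f : (Fin 3 → Bool) → M) :
    ∑ e : Fin 3 → Bool, f e =
      (f ![false, false, false] + f ![true, false, false] + f ![false, true, false] +
      f ![true, true, false]) + (f ![false, false, true] + f ![true, false, true] +
      f ![false, true, true] + f ![true, true, true]) := by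
  have : (univ : Finset (Fin 3 → Bool)) =
      {![false, false, false], ![true, false, false], ![false, true, false],
      ![true, true, false], ![false, false, true], ![true, false, true], ![false, true, true],
      ![true, true, true]} := by decide
  rw [this, sum_insert (by decide), sum_insert (by decide), sum_insert (by decide),
    sum_insert (by decide), sum_insert (by decide), sum_insert (by decide),
    sum_insert (by decide), sum_singleton]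
  simp only [add_assoc]

omit [Fintype α] [DecidableEq α] in
/-- the sets of a chain of `del R S` avoid `S` -/
theorem avoid {S : Finset α} {s t : α} (K : Ch2 (del R S) s t) (i : Fin 3) {v : α}
    (hv : v ∈ K.X i) : v ∉ S := by
  obtain ⟨u, hu, huS⟩ : ∃ u ∈ K.X i, u ∉ S := by
    fin_cases i
    · exact ⟨_, K.pX 0 false, (K.adj 0 false).2.1⟩
    · exact ⟨_, K.qX 0 false, (K.adj 0 false).2.2⟩
    · exact ⟨_, K.qX 1 false, (K.adj 1 false).2.2⟩
  obtain ⟨p⟩ := K.conn i v hv u hu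
  cases p with
  | nil => exact huS
  | cons h p => exact (K.sub i h).2.1

/-- a third bead -/
theorem third {t₁ t₂ t₃ w : α} {B : Finset (Sym2 α)} (hT : Trg R t₁ t₂ t₃) (hw : R.Adj t₃ w)
    (hw2 : w ≠ t₂) (hB : IsPth (del R {t₁, t₃}) t₂ w B)
    (K : Ch2 (del R (insert t₂ (vs B))) t₁ t₃) :
    ∃ K' : Ch3 (delE R t₁ t₂) t₁ t₂, K'.p 2 false = t₃ ∧ K'.q 2 false = t₂ ∧
      ∀ a b, K'.pth ![a, b, false] = K.pth ![a, b] ∪ {s(t₃, t₂)} ∧
        K'.pth ![a, b, true] = K.pth ![a, b] ∪ {s(t₃, w)} ∪ B := by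
  obtain ⟨h12, h13, h23⟩ := hT
  have hn12 := h12.ne
  have hn13 := h13.ne
  have hn23 := h23.ne
  have hBt := hB.treeOn
  have hdis : ∀ i, Disjoint (K.X i) (insert t₂ (vs B)) := fun i =>
    Finset.disjoint_left.2 fun x hx hx' => avoid K i hx hx'
  have hle : ∀ {x y}, (del R (insert t₂ (vs B))).Adj x y → (delE R t₁ t₂).Adj x y := by
    intro x y hxy
    rw [delE, deleteEdges_adj]
    refine ⟨hxy.1, fun h => ?_⟩
    rw [Set.mem_singleton_iff, Sym2.eq_iff] at h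
    rcases h with ⟨-, rfl⟩ | ⟨rfl, -⟩
    · exact hxy.2.2 (mem_insert_self _ _)
    · exact hxy.2.1 (mem_insert_self _ _)
  have hgr : gr B ≤ delE R t₁ t₂ := by
    intro x y hxy
    have h1 : (del R {t₁, t₃}).Adj x y := gr_le hB.subset hxy
    rw [delE, deleteEdges_adj]
    refine ⟨h1.1, fun h => ?_⟩
    rw [Set.mem_singleton_iff, Sym2.eq_iff] at h
    rcases h with ⟨rfl, -⟩ | ⟨-, rfl⟩
    · exact h1.2.1 (mem_insert_self _ _)
    · exact h1.2.2 (mem_insert_self _ _)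
  have hwB : w ∈ insert t₂ (vs B) := mem_insert_of_mem (hB.right_mem hw2.symm)
  have hb2 : (delE R t₁ t₂).Adj t₃ t₂ := by
    rw [delE, deleteEdges_adj]
    refine ⟨h23.symm, fun h => ?_⟩
    rw [Set.mem_singleton_iff, Sym2.eq_iff] at h
    rcases h with ⟨h, -⟩ | ⟨h, -⟩
    · exact hn13 h.symm
    · exact hn23 h.symm
  have hbw : (delE R t₁ t₂).Adj t₃ w := by
    rw [delE, deleteEdges_adj]
    refine ⟨hw, fun h => ?_⟩
    rw [Set.mem_singleton_iff, Sym2.eq_iff] at h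
    rcases h with ⟨h, -⟩ | ⟨h, -⟩
    · exact hn13 h.symm
    · exact hn23 h.symm
  let K' : Ch3 (delE R t₁ t₂) t₁ t₂ :=
    { X := ![K.X 0, K.X 1, K.X 2, insert t₂ (vs B)]
      disj := by
        intro i j hij
        fin_cases i <;> fin_cases j <;>
          first
          | exact absurd rfl hij
          | exact K.disj _ _ (by decide)
          | exact hdis _
          | exact (hdis _).symm
      T := ![K.T 0, K.T 1, K.T 2, gr B]
      sub := by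
        intro i
        fin_cases i
        · exact fun x y h => hle (K.sub 0 h)
        · exact fun x y h => hle (K.sub 1 h)
        · exact fun x y h => hle (K.sub 2 h)
        · exact hgr
      inX := by
        intro i
        fin_cases i
        · exact K.inX 0
        · exact K.inX 1
        · exact K.inX 2
        · exact hBt.inY
      conn := by
        intro i
        fin_cases i
        · exact K.conn 0
        · exact K.conn 1
        · exact K.conn 2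
        · exact hBt.conn
      acyc := by
        intro i
        fin_cases i
        · exact K.acyc 0
        · exact K.acyc 1
        · exact K.acyc 2
        · exact hBt.acyc
      sX := K.sX
      tX := mem_insert_self _ _
      p := ![K.p 0, K.p 1, fun _ => t₃]
      q := ![K.q 0, K.q 1, fun b => if b then w else t₂]
      pX := by
        intro i b
        fin_cases i
        · exact K.pX 0 b
        · exact K.pX 1 b
        · exact K.tX
      qX := by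
        intro i b
        fin_cases i
        · exact K.qX 0 b
        · exact K.qX 1 b
        · cases b
          · exact mem_insert_self _ _
          · exact hwB
      adj := by
        intro i b
        fin_cases i
        · exact hle (K.adj 0 b)
        · exact hle (K.adj 1 b)
        · cases b
          · exact hb2
          · exact hbw
      ne := by
        intro i
        fin_cases i
        · exact K.ne 0
        · exact K.ne 1
        · show s(t₃, t₂) ≠ s(t₃, w)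
          intro h
          rw [Sym2.eq_iff] at h
          rcases h with ⟨-, h⟩ | ⟨-, h⟩
          · exact hw2 h.symm
          · exact hn23 h }
  refine ⟨K', rfl, rfl, fun a b => ⟨?_, ?_⟩⟩
  · show K.pth ![a, b] ∪ {s(t₃, t₂)} ∪ tp (gr B) t₂ t₂ = _
    rw [tp_self hBt.acyc, union_empty]
  · show K.pth ![a, b] ∪ {s(t₃, w)} ∪ tp (gr B) w t₂ = _
    have h1 : IsPth (gr B) w t₂ B := by
      refine hB.symm.transfer fun e he => ?_
      induction e with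
      | h x y => exact gr_adj.2 ⟨he, (hB.adj_of_mem he).ne⟩
    rw [tp_eq hBt.acyc h1]

end VF1M

open VF1M

theorem specVF1 (hRT1 : SpecRT1) (hYC3 : SpecYC3) : SpecVF1 := by
  intro α _ _ R t₁ t₂ t₃ w ψ B hT hK hIV hw hw2 hB
  obtain ⟨w0, ω, hω⟩ := hRT1 (del R (insert t₂ (vs B))) t₁ t₃ hT.2.1.ne
    (fun Q => ψ (insert s(t₁, t₂) (insert s(t₃, w) (Q ∪ B)))) (by
      intro K
      obtain ⟨K', hp, hq, hpth⟩ := third hT hw hw2 hB K
      have h1 := hK.1 K' hp hq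
      rw [three_sum] at h1
      have h0 : ∀ a b, ψ (insert s(t₁, t₂) (K'.pth ![a, b, false])) = 0 := by
        intro a b
        by_contra hne
        have hc : IsCyc R (insert s(t₁, t₂) (K'.pth ![a, b, false])) := by
          obtain ⟨h2, h3⟩ := isPth_delE.1 (hYC3.pth K' ![a, b, false]).1
          exact h2.isCyc hT.1 h3
        obtain ⟨-, -, h4, -⟩ := hIV _ hc hne
        apply h4
        rw [(hpth a b).1]
        refine mem_insert_of_mem (mem_union_right _ ?_)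
        rw [mem_singleton, Sym2.eq_swap]
      have h2 : ∀ a b, ψ (insert s(t₁, t₂) (K'.pth ![a, b, true])) =
          ψ (insert s(t₁, t₂) (insert s(t₃, w) (K.pth ![a, b] ∪ B))) := by
        intro a b
        rw [(hpth a b).2]
        congr 2
        ext x
        simp only [mem_union, mem_insert, mem_singleton]
        tauto
      rw [h0, h0, h0, h0, h2, h2, h2, h2] at h1
      rw [two_sum]
      simpa using h1)
  exact ⟨w0, ω, hT, hK, hIV, hw, hw2, hB, hω⟩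

end DL
end

section
/-!
MP_3ff0f8_gt, DL/Y, module VF2: one 3-bead chain.  (helper32)
-/
open SimpleGraph Finset

namespace DL.VF2M

variable {α : Type} [Fintype α] [DecidableEq α]

theorem le_delE {R T : SimpleGraph α} {X : Finset α} {t₁ t₂ : α} (hT : TreeOn T X) (hle : T ≤ R)
    (h : t₁ ∉ X ∨ t₂ ∉ X) : T ≤ delE R t₁ t₂ := by
  intro a b hab
  rw [delE, deleteEdges_adj]
  refine ⟨hle hab, fun h' => ?_⟩
  rw [Set.mem_singleton_iff, Sym2.eq_iff] at h'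
  have ha := hT.inX a b hab
  have hb := hT.inX b a hab.symm
  rcases h' with ⟨rfl, rfl⟩ | ⟨rfl, rfl⟩
  · rcases h with h | h
    · exact h ha
    · exact h hb
  · rcases h with h | h
    · exact h hb
    · exact h ha

theorem adj_delE {R : SimpleGraph α} {t₁ t₂ a b : α} (hab : R.Adj a b)
    (h : (a ≠ t₁ ∧ b ≠ t₁) ∨ (a ≠ t₂ ∧ b ≠ t₂)) : (delE R t₁ t₂).Adj a b := by
  rw [delE, deleteEdges_adj]
  refine ⟨hab, fun h' => ?_⟩
  rw [Set.mem_singleton_iff, Sym2.eq_iff] at h'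
  rcases h' with ⟨rfl, rfl⟩ | ⟨rfl, rfl⟩
  · rcases h with h | h
    · exact h.1 rfl
    · exact h.2 rfl
  · rcases h with h | h
    · exact h.2 rfl
    · exact h.1 rfl

theorem tree_vs {T : SimpleGraph α} {X : Finset α} (hT : TreeOn T X) {a b : α} (ha : a ∈ X)
    (hb : b ∈ X) : vs (tp T a b) ⊆ X := by
  have h : RTree X T := ⟨hT.inX, hT.conn, hT.acyc⟩
  exact h.vs_tp ha hb

theorem un8 {β : Type} [DecidableEq β] (A C T V W P Y S : Finset β) :
    A ∪ C ∪ T ∪ V ∪ (W ∪ P) ∪ Y ∪ S = W ∪ (A ∪ (V ∪ (C ∪ T)) ∪ ((Y ∪ S) ∪ P)) := by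
  ac_rfl

theorem dec8 : ∀ x : Fin 3 → Bool,
    x ∉ ({![false, false, true], ![true, false, true]} : Finset (Fin 3 → Bool)) →
      x 2 = false ∨ (x 2 = true ∧ x 1 = true) := by
  decide

end DL.VF2M

namespace DL

open VF2M

theorem specVF2 (hYC3 : SpecYC3) (hVCS : SpecVCS) (hTRE : SpecTRE) : SpecVF2 := by
  intro α _ _ R t₁ t₂ t₃ w ψ B w0 ω hF c y σ Z D hσ hDc hDσ hDB ht3D hZ hcZ hZD hD3 hyB hyt hDy
  obtain ⟨a12, a13, a23⟩ := hF.tri
  have n12 := a12.ne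
  have n13 := a13.ne
  have n23 := a23.ne
  -- the path `B`
  obtain ⟨hB, hBd⟩ := DL.isPth_del.1 hF.pB
  have h1B : t₁ ∉ vs B := fun h => Finset.disjoint_left.1 hBd h (by simp)
  have h3B : t₃ ∉ vs B := fun h => Finset.disjoint_left.1 hBd h (by simp)
  have h2B : t₂ ∈ vs B := hB.left_mem hF.nw.symm
  have hwB : w ∈ vs B := hB.right_mem hF.nw.symm
  have hy1 : y ≠ t₁ := fun e => h1B (e ▸ hyB)
  have hy3 : y ≠ t₃ := fun e => h3B (e ▸ hyB)
  -- the path `σ`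
  obtain ⟨hσ', hσd⟩ := DL.isPth_del.1 hσ
  have hσ3 : t₃ ∉ vs σ := fun h => Finset.disjoint_left.1 hσd h (mem_insert_self _ _)
  have hσB : ∀ x ∈ vs σ, x ∉ vs B := fun x h h' =>
    Finset.disjoint_left.1 hσd h (mem_insert_of_mem h')
  have hD1 : t₁ ∉ D := fun h => Finset.disjoint_left.1 hDσ h (mem_insert_self _ _)
  have hDσ' : ∀ x ∈ D, x ∉ vs σ := fun x h h' =>
    Finset.disjoint_left.1 hDσ h (mem_insert_of_mem h')
  have hDB' : ∀ x ∈ D, x ∉ vs B := fun x h h' => Finset.disjoint_left.1 hDB h h'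
  have hD2 : t₂ ∉ D := fun h => hDB' _ h h2B
  have hcσ : c ∈ insert t₁ (vs σ) := by
    by_cases h : t₁ = c
    · rw [← h]; exact mem_insert_self _ _
    · exact mem_insert_of_mem (hσ'.right_mem h)
  have hcD : c ∉ D := fun h => Finset.disjoint_left.1 hDσ h hcσ
  have hσall : ∀ x ∈ insert t₁ (vs σ), x ≠ t₃ ∧ x ∉ vs B ∧ x ∉ D := by
    intro x hx
    rw [mem_insert] at hx
    rcases hx with rfl | hx
    · exact ⟨n13, h1B, hD1⟩
    · exact ⟨fun e => hσ3 (e ▸ hx), hσB x hx, fun h => hDσ' x h hx⟩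
  have hc3 : c ≠ t₃ := (hσall c hcσ).1
  have hcB : c ∉ vs B := (hσall c hcσ).2.1
  have hc2 : c ≠ t₂ := fun e => hcB (e ▸ h2B)
  -- the cycle at `c`
  obtain ⟨z₁, z₂, hz, hz1, hz2, -⟩ := hZ.two_edges hcZ
  have hP := hZ.isPth_del hz1 hz2 hz
  obtain ⟨hP', hPc⟩ := DL.isPth_del.1 hP
  rw [disjoint_singleton_right] at hPc
  have hcz1 := hZ.adj_of_mem hz1
  have hcz2 := hZ.adj_of_mem hz2
  have hz1D : z₁ ∈ D := hZD z₁ (right_mem_vs hz1) hcz1.ne.symm
  have hz2D : z₂ ∈ D := hZD z₂ (right_mem_vs hz2) hcz2.ne.symm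
  have hPD : insert z₁ (vs (Z \ {s(c, z₁), s(c, z₂)})) ⊆ D := by
    intro x hx
    rw [mem_insert] at hx
    rcases hx with rfl | hx
    · exact hz1D
    · exact hZD x (vs_mono sdiff_subset hx) fun e => hPc (e ▸ hx)
  obtain ⟨hT0, hT0p⟩ := hTRE.pth hP'
  obtain ⟨TD, hTT, hTR, hTD⟩ := hVCS.ext hDc hT0 hPD (insert_nonempty _ _) (gr_le hP'.subset)
  have htp : tp TD z₁ z₂ = Z \ {s(c, z₁), s(c, z₂)} := by
    rw [hTRE.tpm hT0 hTD hTT hPD z₁ (mem_insert_self _ _) z₂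
      (mem_insert_of_mem (hP'.right_mem hz)), hT0p]
  -- the edges from `D`
  obtain ⟨v', hv'D, x3, hx3, hv'3⟩ := hD3
  rw [mem_singleton] at hx3
  rw [hx3] at hv'3
  obtain ⟨y', hy'D, xy, hxy, hy'y⟩ := hDy
  rw [mem_singleton] at hxy
  rw [hxy] at hy'y
  -- the split of `B` at `y`
  obtain ⟨P1, P2, hp1, hp2, hpu, hpd, hpi⟩ := hB.split (v := y) (Or.inr hyB)
  obtain ⟨yp, hyyp, hyypm, hynot, hB2⟩ := hp1.symm.uncons hyt
  have hP1B : vs P1 ⊆ vs B := vs_mono (hpu ▸ subset_union_left)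
  have hP2B : vs P2 ⊆ vs B := vs_mono (hpu ▸ subset_union_right)
  have hypP1 : yp ∈ vs P1 := right_mem_vs hyypm
  have hyp1 : yp ≠ t₁ := fun e => h1B (e ▸ hP1B hypP1)
  have hyp3 : yp ≠ t₃ := fun e => h3B (e ▸ hP1B hypP1)
  have hP1e : P1 = insert s(y, yp) (P1 \ {s(y, yp)}) := by
    rw [insert_sdiff_self_of_mem hyypm]
  have hBt : IsPth R t₃ y (insert s(t₃, w) P2) := hp2.symm.cons hF.aw fun h => h3B (hP2B h)
  obtain ⟨hT2, hT2p⟩ := hTRE.pth hBt
  obtain ⟨hT3, hT3p⟩ := hTRE.pth hB2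
  obtain ⟨hTs, hTsp⟩ := hTRE.pth hσ'
  -- the sets
  have hX2 : ∀ x ∈ insert t₃ (vs (insert s(t₃, w) P2)), x = t₃ ∨ (x ∈ vs B ∧ (x = w ∨ x ∈ vs P2)) := by
    intro x hx
    rw [vs_insert, mem_insert, mem_union, mem_insert, mem_singleton] at hx
    rcases hx with hx | (hx | hx) | hx
    · exact Or.inl hx
    · exact Or.inl hx
    · exact Or.inr ⟨hx ▸ hwB, Or.inl hx⟩
    · exact Or.inr ⟨hP2B hx, Or.inr hx⟩
  have hX3 : ∀ x ∈ insert yp (vs (P1 \ {s(y, yp)})), x ∈ vs P1 ∧ x ≠ y := by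
    intro x hx
    rw [mem_insert] at hx
    rcases hx with hx | hx
    · exact ⟨hx ▸ hypP1, hx ▸ hyyp.ne.symm⟩
    · exact ⟨vs_mono sdiff_subset hx, fun e => hynot (e ▸ hx)⟩
  have hyX2 : y ∈ insert t₃ (vs (insert s(t₃, w) P2)) := by
    by_cases h : y = w
    · rw [vs_insert, h]
      simp
    · rw [vs_insert]
      exact mem_insert_of_mem (mem_union_right _ (hp2.left_mem h))
  have ht2X3 : t₂ ∈ insert yp (vs (P1 \ {s(y, yp)})) := by
    by_cases h : yp = t₂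
    · rw [h]; exact mem_insert_self _ _
    · exact mem_insert_of_mem (hB2.right_mem h)
  have d01 : Disjoint (insert t₁ (vs σ)) D := hDσ.symm
  have d02 : Disjoint (insert t₁ (vs σ)) (insert t₃ (vs (insert s(t₃, w) P2))) := by
    rw [Finset.disjoint_left]
    intro x hx hx'
    obtain ⟨q1, q2, q3⟩ := hσall x hx
    rcases hX2 x hx' with h | h
    · exact q1 h
    · exact q2 h.1
  have d03 : Disjoint (insert t₁ (vs σ)) (insert yp (vs (P1 \ {s(y, yp)}))) := by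
    rw [Finset.disjoint_left]
    intro x hx hx'
    exact (hσall x hx).2.1 (hP1B (hX3 x hx').1)
  have d12 : Disjoint D (insert t₃ (vs (insert s(t₃, w) P2))) := by
    rw [Finset.disjoint_left]
    intro x hx hx'
    rcases hX2 x hx' with h | h
    · exact ht3D (h ▸ hx)
    · exact hDB' x hx h.1
  have d13 : Disjoint D (insert yp (vs (P1 \ {s(y, yp)}))) := by
    rw [Finset.disjoint_left]
    intro x hx hx'
    exact hDB' x hx (hP1B (hX3 x hx').1)
  have d23 : Disjoint (insert t₃ (vs (insert s(t₃, w) P2))) (insert yp (vs (P1 \ {s(y, yp)}))) := by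
    rw [Finset.disjoint_left]
    intro x hx hx'
    obtain ⟨q1, q2⟩ := hX3 x hx'
    have key : x ∈ vs P2 → False := fun h => q2 (by
      have := hpi (mem_inter.2 ⟨q1, h⟩)
      rwa [mem_singleton] at this)
    rcases hX2 x hx with h | ⟨h1, h | h⟩
    · exact h3B (h ▸ hP1B q1)
    · by_cases hyw : y = w
      · exact q2 (h.trans hyw.symm)
      · exact key (h ▸ hp2.right_mem hyw)
    · exact key h
  -- the chain
  let Xf : Fin 4 → Finset α := ![insert t₁ (vs σ), D, insert t₃ (vs (insert s(t₃, w) P2)),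
    insert yp (vs (P1 \ {s(y, yp)}))]
  let Tf : Fin 4 → SimpleGraph α := ![fromEdgeSet (σ : Set (Sym2 α)), TD,
    fromEdgeSet ((insert s(t₃, w) P2 : Finset (Sym2 α)) : Set (Sym2 α)),
    fromEdgeSet ((P1 \ {s(y, yp)} : Finset (Sym2 α)) : Set (Sym2 α))]
  have hTX : ∀ i, TreeOn (Tf i) (Xf i) := by
    intro i
    fin_cases i
    exacts [hTs, hTD, hT2, hT3]
  have hdisj : ∀ i j, i ≠ j → Disjoint (Xf i) (Xf j) := by
    intro i j hij
    fin_cases i <;> fin_cases j <;> first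
      | exact absurd rfl hij
      | exact d01
      | exact d02
      | exact d03
      | exact d12
      | exact d13
      | exact d23
      | exact d01.symm
      | exact d02.symm
      | exact d03.symm
      | exact d12.symm
      | exact d13.symm
      | exact d23.symm
  have h2X0 : t₂ ∉ insert t₁ (vs σ) := fun h => (hσall _ h).2.1 h2B
  have h1X2 : t₁ ∉ insert t₃ (vs (insert s(t₃, w) P2)) := fun h =>
    Finset.disjoint_left.1 d02 (mem_insert_self _ _) h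
  have h1X3 : t₁ ∉ insert yp (vs (P1 \ {s(y, yp)})) := fun h =>
    Finset.disjoint_left.1 d03 (mem_insert_self _ _) h
  have hsub : ∀ i, Tf i ≤ delE R t₁ t₂ := by
    intro i
    fin_cases i
    · exact le_delE hTs (gr_le hσ'.subset) (Or.inr h2X0)
    · exact le_delE hTD hTR (Or.inl hD1)
    · exact le_delE hT2 (gr_le hBt.subset) (Or.inl h1X2)
    · exact le_delE hT3 (gr_le hB2.subset) (Or.inl h1X3)
  let pf : Fin 3 → Bool → α := ![fun _ => c, fun b => cond b y' v', fun b => cond b y t₃]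
  let qf : Fin 3 → Bool → α := ![fun b => cond b z₂ z₁, fun b => cond b y t₃, fun b => cond b yp t₂]
  have hv'1 : v' ≠ t₁ := fun e => hD1 (e ▸ hv'D)
  have hy'1 : y' ≠ t₁ := fun e => hD1 (e ▸ hy'D)
  have hpX : ∀ (i : Fin 3) b, pf i b ∈ Xf i.castSucc := by
    intro i b
    fin_cases i
    · exact hcσ
    · cases b
      exacts [hv'D, hy'D]
    · cases b
      exacts [mem_insert_self _ _, hyX2]
  have hqX : ∀ (i : Fin 3) b, qf i b ∈ Xf i.succ := by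
    intro i b
    fin_cases i
    · cases b
      exacts [hz1D, hz2D]
    · cases b
      exacts [mem_insert_self _ _, hyX2]
    · cases b
      exacts [ht2X3, mem_insert_self _ _]
  have hadj : ∀ i b, (delE R t₁ t₂).Adj (pf i b) (qf i b) := by
    intro i b
    fin_cases i
    · cases b
      · exact adj_delE hcz1 (Or.inr ⟨hc2, fun e => hD2 (e ▸ hz1D)⟩)
      · exact adj_delE hcz2 (Or.inr ⟨hc2, fun e => hD2 (e ▸ hz2D)⟩)
    · cases b
      · exact adj_delE hv'3 (Or.inl ⟨hv'1, n13.symm⟩)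
      · exact adj_delE hy'y (Or.inl ⟨hy'1, hy1⟩)
    · cases b
      · exact adj_delE a23.symm (Or.inl ⟨n13.symm, n12.symm⟩)
      · exact adj_delE hyyp (Or.inl ⟨hy1, hyp1⟩)
  have hne : ∀ i, s(pf i false, qf i false) ≠ s(pf i true, qf i true) := by
    intro i e
    fin_cases i
    · have e' : s(c, z₁) = s(c, z₂) := e
      rw [Sym2.eq_iff] at e'
      rcases e' with ⟨_, e'⟩ | ⟨e', _⟩
      · exact hz e'
      · exact hcD (e' ▸ hz2D)
    · have e' : s(v', t₃) = s(y', y) := e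
      rw [Sym2.eq_iff] at e'
      rcases e' with ⟨_, e'⟩ | ⟨_, e'⟩
      · exact hy3 e'.symm
      · exact ht3D (e' ▸ hy'D)
    · have e' : s(t₃, t₂) = s(y, yp) := e
      rw [Sym2.eq_iff] at e'
      rcases e' with ⟨e', _⟩ | ⟨e', _⟩
      · exact hy3 e'.symm
      · exact hyp3 e'.symm
  let K : Ch3 (delE R t₁ t₂) t₁ t₂ :=
    { X := Xf
      disj := hdisj
      T := Tf
      sub := hsub
      inX := fun i => (hTX i).inX
      conn := fun i => (hTX i).conn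
      acyc := fun i => (hTX i).acyc
      sX := mem_insert_self _ _
      tX := ht2X3
      p := pf
      q := qf
      pX := hpX
      qX := hqX
      adj := hadj
      ne := hne }
  have hsum := hF.kch.1 K rfl rfl
  have hcyc : ∀ e, IsCyc R (insert s(t₁, t₂) (K.pth e)) := by
    intro e
    obtain ⟨h1, h2⟩ := isPth_delE.1 (hYC3.pth K e).1
    exact h1.isCyc a12 h2
  -- the vanishing terms
  have hzero : ∀ x : Fin 3 → Bool,
      x ∉ ({![false, false, true], ![true, false, true]} : Finset (Fin 3 → Bool)) →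
      ψ (insert s(t₁, t₂) (K.pth x)) = 0 := by
    intro x hx
    by_contra hne0
    obtain ⟨g1, g2, g3, g4⟩ := hF.iv _ (hcyc x) hne0
    rcases dec8 x hx with h | ⟨h, h'⟩
    · refine g3 (mem_insert_of_mem ?_)
      have : s(K.p 2 (x 2), K.q 2 (x 2)) ∈ K.pth x := by
        rw [Ch3.pth]
        simp
      rw [h] at this
      have e : s(K.p 2 false, K.q 2 false) = s(t₂, t₃) := Sym2.eq_swap
      rwa [e] at this
    · have hp : K.pth x = tp (Tf 0) t₁ c ∪ {s(c, qf 0 (x 0))} ∪ tp TD (qf 0 (x 0)) y' ∪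
          {s(y', y)} ∪ tp (Tf 2) y y ∪ {s(y, yp)} ∪ tp (Tf 3) yp t₂ := by
        rw [Ch3.pth, h, h']
        rfl
      have hself : tp (Tf 2) y y = ∅ := DL.tp_self hT2.acyc y
      have hq0 : qf 0 (x 0) ∈ D := by
        rcases x 0 with _ | _
        exacts [hz1D, hz2D]
      rw [hp, hself, vs_insert, mem_union, mem_insert, mem_singleton] at g4
      rcases g4 with (g4 | g4) | g4
      · exact n13 g4.symm
      · exact n23 g4.symm
      simp only [vs_union, vs_singleton, mem_union, mem_insert, mem_singleton, union_empty] at g4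
      rcases g4 with (((((g4 | g4 | g4) | g4) | g4 | g4) | g4 | g4) | g4)
      · exact (hσall _ (tree_vs hTs (mem_insert_self _ _) hcσ g4)).1 rfl
      · exact hc3 g4.symm
      · exact ht3D (g4 ▸ hq0)
      · exact ht3D (tree_vs hTD hq0 hy'D g4)
      · exact ht3D (g4 ▸ hy'D)
      · exact hy3 g4.symm
      · exact hy3 g4.symm
      · exact hyp3 g4.symm
      · exact h3B (hP1B (hX3 _ (tree_vs hT3 (mem_insert_self _ _) ht2X3 g4)).1)
  -- the two remaining ones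
  have hQ : ∀ b : Bool, ∃ Q, ψ (insert s(t₁, t₂) (K.pth ![b, false, true])) = w0 + ∑ h ∈ Q, ω h ∧
      chi Q = chi σ + (chi {s(v', t₃)} + (chi {s(c, qf 0 b)} + chi (tp TD (qf 0 b) v'))) := by
    intro b
    have hq0 : qf 0 b ∈ D := by
      rcases b with _ | _
      exacts [hz1D, hz2D]
    have hcq : R.Adj c (qf 0 b) := by
      rcases b with _ | _
      exacts [hcz1, hcz2]
    have htpp : IsPth R (qf 0 b) v' (tp TD (qf 0 b) v') := ((hTRE.tp hTD _ hq0 _ hv'D).1).mono hTR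
    have htpv : vs (tp TD (qf 0 b) v') ⊆ D := tree_vs hTD hq0 hv'D
    have h1 := htpp.cons hcq fun h => hcD (htpv h)
    have h3n : t₃ ∉ vs (insert s(c, qf 0 b) (tp TD (qf 0 b) v')) := by
      rw [vs_insert, mem_union, mem_insert, mem_singleton]
      rintro ((h | h) | h)
      · exact hc3 h.symm
      · exact ht3D (h ▸ hq0)
      · exact ht3D (htpv h)
    have h2 := h1.concat hv'3 h3n
    have hvs2 : ∀ x ∈ vs (insert s(v', t₃) (insert s(c, qf 0 b) (tp TD (qf 0 b) v'))),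
        x = t₃ ∨ x = c ∨ x ∈ D := by
      intro x hx
      rw [vs_insert, mem_union, mem_insert, mem_singleton, vs_insert, mem_union, mem_insert,
        mem_singleton] at hx
      rcases hx with (hx | hx) | (hx | hx) | hx
      · exact Or.inr (Or.inr (hx ▸ hv'D))
      · exact Or.inl hx
      · exact Or.inr (Or.inl hx)
      · exact Or.inr (Or.inr (hx ▸ hq0))
      · exact Or.inr (Or.inr (htpv hx))
    have hint : vs σ ∩ vs (insert s(v', t₃) (insert s(c, qf 0 b) (tp TD (qf 0 b) v'))) ⊆ {c} := by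
      intro x hx
      rw [mem_inter] at hx
      rw [mem_singleton]
      rcases hvs2 x hx.2 with h | h | h
      · exact absurd (h ▸ hx.1) hσ3
      · exact h
      · exact absurd hx.1 (hDσ' x h)
    have h3 := hσ'.append h2 hint
    refine ⟨σ ∪ insert s(v', t₃) (insert s(c, qf 0 b) (tp TD (qf 0 b) v')), ?_, ?_⟩
    · have hdel : IsPth (del R (insert t₂ (vs B))) t₁ t₃
          (σ ∪ insert s(v', t₃) (insert s(c, qf 0 b) (tp TD (qf 0 b) v'))) := by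
        rw [DL.isPth_del]
        refine ⟨h3, ?_⟩
        rw [Finset.disjoint_left]
        intro x hx hx'
        have hx'' : x ∈ vs B := by
          rw [mem_insert] at hx'
          rcases hx' with hx' | hx'
          · exact hx' ▸ h2B
          · exact hx'
        rw [mem_vs_union] at hx
        rcases hx with hx | hx
        · exact hσB x hx hx''
        · rcases hvs2 x hx with h | h | h
          · exact h3B (h ▸ hx'')
          · exact hcB (h ▸ hx'')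
          · exact hDB' x h hx''
      rw [← hF.aff _ hdel]
      congr 2
      have hp : K.pth ![b, false, true] = tp (fromEdgeSet (σ : Set (Sym2 α))) t₁ c ∪
          {s(c, qf 0 b)} ∪ tp TD (qf 0 b) v' ∪ {s(v', t₃)} ∪
          tp (fromEdgeSet ((insert s(t₃, w) P2 : Finset (Sym2 α)) : Set (Sym2 α))) t₃ y ∪
          {s(y, yp)} ∪ tp (fromEdgeSet ((P1 \ {s(y, yp)} : Finset (Sym2 α)) : Set (Sym2 α))) yp t₂ :=
        rfl
      rw [hp, hTsp, hT2p, hT3p, ← hpu]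
      conv_rhs => rw [hP1e]
      simp only [insert_eq]
      exact un8 _ _ _ _ _ _ _ _
    · rw [chi_union (disjoint_of_vs_subset hσ'.not_isDiag hint),
        chi_insert (fun h => h3n (right_mem_vs h)), chi_insert (fun h => hcD (htpv (left_mem_vs h)))]
  obtain ⟨Q1, hQ1, hQ1c⟩ := hQ false
  obtain ⟨Q2, hQ2, hQ2c⟩ := hQ true
  rw [← Finset.sum_subset (subset_univ
    ({![false, false, true], ![true, false, true]} : Finset (Fin 3 → Bool)))
    fun x _ hx => hzero x hx, Finset.sum_pair (by decide), hQ1, hQ2] at hsum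
  have hchi : chi Q1 + chi Q2 = chi Z := by
    have hsub2 : ({s(c, z₁), s(c, z₂)} : Finset (Sym2 α)) ⊆ Z := by
      intro e he
      rw [mem_insert, mem_singleton] at he
      rcases he with rfl | rfl
      exacts [hz1, hz2]
    have e1 := chi_sdiff hsub2
    have e2 : chi ({s(c, z₁), s(c, z₂)} : Finset (Sym2 α)) = chi {s(c, z₁)} + chi {s(c, z₂)} :=
      chi_insert (by
        rw [mem_singleton]
        exact hne 0)
    have e3 := hTRE.four hTD v' hv'D z₁ hz1D z₂ hz2D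
    rw [DL.tp_comm hTD.acyc v' z₁, DL.tp_comm hTD.acyc v' z₂, htp, e1, e2] at e3
    rw [hQ1c, hQ2c]
    funext e
    have e3' := congrFun e3 e
    simp only [Pi.add_apply] at e3' ⊢
    have h1 : qf 0 false = z₁ := rfl
    have h2 : qf 0 true = z₂ := rfl
    rw [h1, h2]
    generalize chi σ e = a at *
    generalize chi {s(v', t₃)} e = b at *
    generalize chi {s(c, z₁)} e = c1 at *
    generalize chi {s(c, z₂)} e = c2 at *
    generalize chi (tp TD z₁ v') e = d1 at *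
    generalize chi (tp TD z₂ v') e = d2 at *
    generalize chi Z e = z at *
    revert e3'
    revert a b c1 c2 d1 d2 z
    decide
  have s1 : ∑ h ∈ Q1, ω h = ∑ e, ω e * chi Q1 e := (sum_mul_chi ω Q1).symm
  have s2 : ∑ h ∈ Q2, ω h = ∑ e, ω e * chi Q2 e := (sum_mul_chi ω Q2).symm
  have s3 : ∑ h ∈ Z, ω h = ∑ e, ω e * chi Z e := (sum_mul_chi ω Z).symm
  have s4 : ∑ h ∈ Z, ω h = ∑ h ∈ Q1, ω h + ∑ h ∈ Q2, ω h := by
    rw [s1, s2, s3, ← hchi]
    simp only [Pi.add_apply, mul_add, sum_add_distrib]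
  rw [s4]
  generalize (∑ h ∈ Q1, ω h) = a at hsum
  generalize (∑ h ∈ Q2, ω h) = b at hsum
  have key : ∀ w0 a b : ZMod 2, w0 + a + (w0 + b) = 0 → a + b = 0 := by decide
  exact key _ _ _ hsum

end DL
end

section
/-!
# MP_3ff0f8_gt, algebra half, STEP Y, module VF3 (helper98): induction with C1
-/
set_option autoImplicit false
set_option linter.unusedSectionVars false

open SimpleGraph Finset

namespace DL

namespace VF3M

variable {α : Type} [Fintype α] [DecidableEq α] {R : SimpleGraph α}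

open Classical in
/-- the component of `z` in `R - S` -/
noncomputable def cmp (R : SimpleGraph α) (S : Finset α) (z : α) : Finset α :=
  univ.filter fun x => (del R S).Reachable z x

theorem mem_cmp {S : Finset α} {z x : α} : x ∈ cmp R S z ↔ (del R S).Reachable z x := by
  classical
  simp [cmp]

theorem cset_cmp (S : Finset α) (z : α) : CSet R (cmp R S z) := by
  refine ⟨⟨z, mem_cmp.2 (Reachable.refl z)⟩, ?_⟩
  have key : ∀ a ∈ cmp R S z, (del R (univ \ cmp R S z)).Reachable z a := by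
    intro a ha
    obtain ⟨P, hP⟩ := exists_isPth (mem_cmp.1 ha)
    obtain ⟨hP1, hP2⟩ := DL.isPth_del.1 hP
    refine hP1.reachable_del fun x hx => ?_
    rw [mem_sdiff, not_and_not_right]
    intro _
    -- `x` is on the path
    have hx' : x = z ∨ x ∈ vs P := by rwa [mem_insert] at hx
    obtain ⟨P1, P2, h1, _, _, _, _⟩ := hP.split hx'
    exact mem_cmp.2 h1.reachable
  intro a ha b hb
  exact (key a ha).symm.trans (key b hb)

theorem cmp_closed {S : Finset α} {z x y : α} (hz : z ∉ S) (hx : x ∈ cmp R S z) (h : R.Adj x y)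
    (hy : y ∉ S) : y ∈ cmp R S z := by
  rw [mem_cmp] at hx ⊢
  exact hx.trans (Adj.reachable ⟨h, reachable_del_notMem_right hx hz, hy⟩)

/-- an arc of a cycle avoiding a vertex -/
theorem arc {C : Finset (Sym2 α)} (hC : IsCyc R C) {c x y : α} (hx : x ∈ vs C)
    (hy : y ∈ vs C) (hxc : x ≠ c) (hyc : y ≠ c) : ∃ P, IsPth R x y P ∧ P ⊆ C ∧ c ∉ vs P := by
  by_cases hxy : x = y
  · subst hxy
    exact ⟨∅, IsPth.nil x, empty_subset _, by simp⟩
  obtain ⟨P, Q, hP, hQ, hPQ, _, hi⟩ := hC.split hx hy hxy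
  by_cases h : c ∈ vs P
  · refine ⟨Q, hQ, hPQ ▸ subset_union_right, fun h' => ?_⟩
    have := mem_inter.2 ⟨h, h'⟩
    rw [hi, mem_insert, mem_singleton] at this
    rcases this with h1 | h1
    · exact hxc h1.symm
    · exact hyc h1.symm
  · exact ⟨P, hP, hPQ ▸ subset_union_left, h⟩

theorem exit_edge {H : SimpleGraph α} {a b : α} {D : Finset α} (h : H.Reachable a b) (ha : a ∈ D)
    (hb : b ∉ D) : ∃ x ∈ D, ∃ y, y ∉ D ∧ H.Adj x y := by
  obtain ⟨p⟩ := h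
  induction p with
  | nil => exact absurd ha hb
  | @cons x y _ hxy _ ih =>
    by_cases hy : y ∈ D
    · exact ih hy hb
    · exact ⟨x, ha, y, hy, hxy⟩

/-- the separation of order three -/
theorem c1_sep (hC1 : C1 R) {S D : Finset α} (hS : S.card = 3) (hSV : S ⊆ VS R) (hDV : D ⊆ VS R)
    (hSD : Disjoint S D) (hD2 : 2 ≤ D.card) {p q : α} (hp : p ∈ VS R) (hq : q ∈ VS R) (hpq : p ≠ q)
    (hpS : p ∉ S) (hqS : q ∉ S) (hpD : p ∉ D) (hqD : q ∉ D)
    (hnb : ∀ x ∈ D, ∀ y, R.Adj x y → y ∉ D → y ∈ S) : False := by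
  have hsep : Sep R S D (VS R \ (S ∪ D)) := by
    refine ⟨?_, hSD, ?_, ?_, ?_⟩
    · exact union_sdiff_of_subset (union_subset hSV hDV)
    · exact disjoint_sdiff.mono_left subset_union_left
    · exact disjoint_sdiff.mono_left subset_union_right
    · intro a ha b hb hab
      rw [mem_sdiff, mem_union, not_or] at hb
      exact hb.2.1 (hnb a ha b hab hb.2.2)
  rcases hC1.2 S D _ hsep hS with h | h
  · omega
  · have h1 : ({p, q} : Finset α) ⊆ VS R \ (S ∪ D) := by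
      intro x hx
      rw [mem_insert, mem_singleton] at hx
      rw [mem_sdiff, mem_union, not_or]
      rcases hx with rfl | rfl
      · exact ⟨hp, hpS, hpD⟩
      · exact ⟨hq, hqS, hqD⟩
    have h2 := card_le_card h1
    rw [card_pair hpq] at h2
    omega

end VF3M

open VF3M in
theorem specVF3 (hVF2 : SpecVF2) : SpecVF3 := by
  intro α _ _ R t₁ t₂ t₃ w ψ B w0 ω hC1 hcon hF c z v σ
  -- induction on the number of vertices of `σ`
  induction hn : (insert t₁ (vs σ)).card using Nat.strong_induction_on generalizing c z v σ with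
  | _ n ih =>
  intro Z hσ hZ hcZ hZσ hzZ hzc hv hzv hvσ
  obtain ⟨hZR, hZd⟩ := DL.isCyc_del.1 hZ
  obtain ⟨hσR, hσd⟩ := DL.isPth_del.1 hσ
  obtain ⟨hBR, hBd⟩ := DL.isPth_del.1 hF.pB
  have htri := hF.tri
  have n12 : t₁ ≠ t₂ := htri.1.ne
  have n13 : t₁ ≠ t₃ := htri.2.1.ne
  have n23 : t₂ ≠ t₃ := htri.2.2.ne
  have ht2B : t₂ ∈ vs B := hBR.left_mem hF.nw.symm
  have hwB : w ∈ vs B := hBR.right_mem hF.nw.symm
  have ht1B : t₁ ∉ vs B := fun h => Finset.disjoint_left.1 hBd h (by simp)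
  have ht3B : t₃ ∉ vs B := fun h => Finset.disjoint_left.1 hBd h (by simp)
  have hcS : c ∉ insert t₃ (vs B) := Finset.disjoint_left.1 hZd hcZ
  rw [mem_insert, not_or] at hcS
  set S := insert t₃ (insert t₁ (vs σ ∪ vs B)) with hS
  have mS : ∀ x, x ∈ S ↔ x = t₃ ∨ x ∈ insert t₁ (vs σ) ∨ x ∈ vs B := by
    intro x
    rw [hS]
    simp only [mem_insert, mem_union, or_assoc]
  have hZS : ∀ x ∈ vs Z, x ≠ c → x ∉ S := by
    intro x hx hxc h
    rw [mS] at h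
    have h1 : x ∉ insert t₃ (vs B) := Finset.disjoint_left.1 hZd hx
    rw [mem_insert, not_or] at h1
    rcases h with h | h | h
    · exact h1.1 h
    · exact hxc (hZσ x hx h)
    · exact h1.2 h
  have hzS : z ∉ S := hZS z hzZ hzc
  set D := cmp R S z with hD
  have hDc : CSet R D := cset_cmp S z
  have hDS : ∀ x ∈ D, x ∉ S := fun x hx => reachable_del_notMem_right (mem_cmp.1 hx) hzS
  have hzD : z ∈ D := mem_cmp.2 (Reachable.refl z)
  have hZD : ∀ x ∈ vs Z, x ≠ c → x ∈ D := by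
    intro x hx hxc
    obtain ⟨P, hP, hPZ, hcP⟩ := arc hZR hzZ hx hzc hxc
    rw [hD, mem_cmp]
    refine hP.reachable_del fun y hy => ?_
    have hy' : y ∈ vs Z ∧ y ≠ c := by
      rw [mem_insert] at hy
      rcases hy with rfl | hy
      · exact ⟨hzZ, hzc⟩
      · exact ⟨vs_mono hPZ hy, fun h => hcP (h ▸ hy)⟩
    exact hZS y hy'.1 hy'.2
  have hvD : v ∈ D := mem_cmp.2 hzv
  have hDcl : ∀ x ∈ D, ∀ y, R.Adj x y → y ∉ S → y ∈ D := fun x hx y hxy hy =>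
    cmp_closed hzS hx hxy hy
  have ht3D : Tou R D {t₃} := ⟨v, hvD, t₃, mem_singleton_self _, hv.symm⟩
  have hDσ : Disjoint D (insert t₁ (vs σ)) := by
    rw [Finset.disjoint_left]
    exact fun x hx h => hDS x hx ((mS x).2 (Or.inr (Or.inl h)))
  have hDB : Disjoint D (vs B) := by
    rw [Finset.disjoint_left]
    exact fun x hx h => hDS x hx ((mS x).2 (Or.inr (Or.inr h)))
  have ht3nD : t₃ ∉ D := fun h => hDS t₃ h ((mS t₃).2 (Or.inl rfl))
  by_cases hcase : ∃ y ∈ vs B, y ≠ t₂ ∧ Tou R D {y}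
  · obtain ⟨y, hy, hy2, hyt⟩ := hcase
    exact hVF2 hF c y σ Z D hσ hDc hDσ hDB ht3nD hZR hcZ hZD ht3D hy hy2 hyt
  -- the neighbours of `D`
  have hnb : ∀ x ∈ D, ∀ y, R.Adj x y → y ∉ D → y = t₃ ∨ y ∈ insert t₁ (vs σ) ∨ y = t₂ := by
    intro x hx y hxy hy
    have h1 : y ∈ S := by
      by_contra h
      exact hy (hDcl x hx y hxy h)
    rw [mS] at h1
    rcases h1 with h1 | h1 | h1
    · exact Or.inl h1
    · exact Or.inr (Or.inl h1)
    · right; right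
      by_contra h2
      exact hcase ⟨y, h1, h2, x, hx, y, mem_singleton_self _, hxy⟩
  have hcσ : c ∈ insert t₁ (vs σ) := hσR.end_mem
  have hσD : ∀ x ∈ insert t₁ (vs σ), x ∉ D := fun x hx h => Finset.disjoint_left.1 hDσ h hx
  have hcD : c ∉ D := hσD c hcσ
  have ht1D : t₁ ∉ D := hσD t₁ (mem_insert_self _ _)
  have hDVS : D ⊆ VS R := by
    intro x hx
    by_cases hxz : x = z
    · subst hxz
      obtain ⟨e, he, hxe⟩ := mem_vs.1 hzZ
      obtain ⟨y, rfl⟩ := Sym2.mem_iff_exists.1 hxe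
      exact left_mem_VS (hZR.adj_of_mem he)
    · obtain ⟨P, hP⟩ := exists_isPth (mem_cmp.1 hx)
      obtain ⟨e, he, hxe⟩ := mem_vs.1 (hP.right_mem (Ne.symm hxz))
      obtain ⟨y, rfl⟩ := Sym2.mem_iff_exists.1 hxe
      exact left_mem_VS ((DL.isPth_del.1 hP).1.adj_of_mem he)
  -- the vertex `c₁`
  have hc1 : ∃ c₁ ∈ insert t₁ (vs σ), c₁ ≠ c ∧ ∃ u ∈ D, R.Adj u c₁ := by
    by_contra hno
    push Not at hno
    have hwD : w ∉ D := fun h => Finset.disjoint_left.1 hDB h hwB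
    have ht2D : t₂ ∉ D := fun h => Finset.disjoint_left.1 hDB h ht2B
    have hw1 : w ≠ t₁ := fun h => ht1B (h ▸ hwB)
    have hz123 : z ∉ ({t₁, t₂, t₃} : Finset α) := by
      rw [mem_insert, mem_insert, mem_singleton]
      rintro (rfl | rfl | rfl)
      · exact ht1D hzD
      · exact ht2D hzD
      · exact ht3nD hzD
    have hw123 : w ∉ ({t₁, t₂, t₃} : Finset α) := by
      rw [mem_insert, mem_insert, mem_singleton]
      rintro (h | h | h)
      · exact hw1 h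
      · exact hF.nw h
      · exact hF.aw.ne h.symm
    obtain ⟨x, hx, y, hy, hxy⟩ := exit_edge
      (hcon z (hDVS hzD) w (right_mem_VS hF.aw) hz123 hw123) hzD hwD
    have hy123 := hxy.2.2
    rw [mem_insert, mem_insert, mem_singleton, not_or, not_or] at hy123
    have hyc : y = c := by
      rcases hnb x hx y hxy.1 hy with h | h | h
      · exact absurd h hy123.2.2
      · by_contra hyc
        exact hno y h hyc x hx hxy.1
      · exact absurd h hy123.2.1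
    subst hyc
    obtain ⟨i, j, hij, hi, hj, _⟩ := hZR.two_edges hcZ
    have hiD : i ∈ D := hZD i (right_mem_vs hi) (hZR.adj_of_mem hi).ne'
    have hjD : j ∈ D := hZD j (right_mem_vs hj) (hZR.adj_of_mem hj).ne'
    refine c1_sep hC1 (S := {y, t₂, t₃}) (D := D) ?_ ?_ hDVS ?_ ?_ (p := t₁) (q := w)
      (left_mem_VS htri.1) (right_mem_VS hF.aw) hw1.symm ?_ ?_ ht1D hwD ?_
    · rw [card_insert_of_notMem, card_pair n23]
      rw [mem_insert, mem_singleton, not_or]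
      exact ⟨hy123.2.1, hy123.2.2⟩
    · intro a ha
      rw [mem_insert, mem_insert, mem_singleton] at ha
      rcases ha with rfl | rfl | rfl
      · exact right_mem_VS hxy.1
      · exact right_mem_VS htri.1
      · exact right_mem_VS htri.2.1
    · rw [Finset.disjoint_left]
      intro a ha
      rw [mem_insert, mem_insert, mem_singleton] at ha
      rcases ha with rfl | rfl | rfl
      · exact hcD
      · exact ht2D
      · exact ht3nD
    · have : ({i, j} : Finset α) ⊆ D := by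
        intro a ha
        rw [mem_insert, mem_singleton] at ha
        rcases ha with rfl | rfl
        · exact hiD
        · exact hjD
      have h2 := card_le_card this
      rwa [card_pair hij] at h2
    · rw [mem_insert, mem_insert, mem_singleton, not_or, not_or]
      exact ⟨Ne.symm hy123.1, n12, n13⟩
    · rw [mem_insert, mem_insert, mem_singleton, not_or, not_or]
      exact ⟨fun h => hcS.2 (h ▸ hwB), hF.nw, hF.aw.ne'⟩
    · intro a ha b hab hb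
      rw [mem_insert, mem_insert, mem_singleton]
      rcases hnb a ha b hab hb with h | h | h
      · exact Or.inr (Or.inr h)
      · left
        by_contra hbc
        exact hno b h hbc a ha hab
      · exact Or.inr (Or.inl h)
  obtain ⟨c₁, hc₁, hc₁c, u, huD, huc₁⟩ := hc1
  have hc₁D : c₁ ∉ D := hσD c₁ hc₁
  obtain ⟨σ₁, σ₂, hσ₁, hσ₂, hσu, hσdj, hσi⟩ := hσ.split (by rwa [mem_insert] at hc₁)
  have hσ₁s : vs σ₁ ⊆ vs σ := vs_mono (hσu ▸ subset_union_left)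
  have hσ₂s : vs σ₂ ⊆ vs σ := vs_mono (hσu ▸ subset_union_right)
  have hcσ₂ : c ∈ vs σ₂ := hσ₂.right_mem hc₁c
  have hc₁σ₂ : c₁ ∈ vs σ₂ := hσ₂.left_mem hc₁c
  -- a vertex of `σ₂` in `V(σ₁)` is `c₁`
  have h12 : ∀ x ∈ vs σ₂, x ∈ insert t₁ (vs σ₁) → x = c₁ := by
    intro x hx2 hx1
    have hx1' : x ∈ vs σ₁ ∨ x = c₁ := by
      rw [mem_insert] at hx1
      rcases hx1 with rfl | hx1
      · by_cases h : x = c₁
        · exact Or.inr h
        · exact Or.inl (hσ₁.left_mem h)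
      · exact Or.inl hx1
    rcases hx1' with h | h
    · simpa using hσi (mem_inter.2 ⟨h, hx2⟩)
    · exact h
  have hcσ₁ : c ∉ insert t₁ (vs σ₁) := fun h => hc₁c (h12 c hcσ₂ h).symm
  have hcard : (insert t₁ (vs σ₁)).card < n := by
    rw [← hn]
    refine card_lt_card ⟨insert_subset_insert _ hσ₁s, fun h => hcσ₁ (h hcσ)⟩
  -- the path in `D`
  obtain ⟨P, hP⟩ := exists_isPth (hDc.2 u huD z hzD)
  obtain ⟨hPR, hPd⟩ := DL.isPth_del.1 hP
  have hPD : ∀ x ∈ vs P, x ∈ D := by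
    intro x hx
    by_contra h
    exact Finset.disjoint_left.1 hPd hx (mem_sdiff.2 ⟨mem_univ _, h⟩)
  obtain ⟨z', P1, P2, hz'Z, hP1, hP2, hPu, _, _, hP1Z, huZ⟩ := hPR.first (X := {x | x ∈ vs Z}) (by
    by_cases huz : u = z
    · left; rw [huz]; exact hzZ
    · right; exact ⟨z, hPR.right_mem huz, hzZ⟩)
  have hz'Z' : z' ∈ vs Z := hz'Z
  have hP1D : ∀ x ∈ vs P1, x ∈ D := fun x hx => hPD x (vs_mono (hPu ▸ subset_union_left) hx)
  have hz'D : z' ∈ D := by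
    have := hP1.end_mem
    rw [mem_insert] at this
    rcases this with h | h
    · rw [h]; exact huD
    · exact hP1D _ h
  have hz'c : z' ≠ c := fun h => hcD (h ▸ hz'D)
  have hz'c₁ : z' ≠ c₁ := fun h => hc₁D (h ▸ hz'D)
  have hρ : IsPth R c₁ z' (insert s(c₁, u) P1) := hP1.cons huc₁.symm fun h => hc₁D (hP1D _ h)
  have hρv : ∀ x ∈ vs (insert s(c₁, u) P1), x = c₁ ∨ x ∈ D := by
    intro x hx
    rw [vs_insert, mem_union, mem_insert, mem_singleton] at hx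
    rcases hx with (h | h) | h
    · exact Or.inl h
    · right; rw [h]; exact huD
    · exact Or.inr (hP1D x h)
  have hρZ : ∀ x ∈ vs (insert s(c₁, u) P1), x ∈ vs Z → x = z' := by
    intro x hx hxZ
    rw [vs_insert, mem_union, mem_insert, mem_singleton] at hx
    rcases hx with (rfl | rfl) | h
    · exact absurd (hZσ x hxZ hc₁) hc₁c
    · exact (huZ hxZ).symm
    · exact hP1Z x h hxZ
  set ρ := insert s(c₁, u) P1 with hρdef
  have hσS : ∀ x ∈ insert t₁ (vs σ), x ∉ insert t₃ (vs B) := by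
    intro x hx
    rw [mem_insert] at hx
    rcases hx with rfl | hx
    · rw [mem_insert, not_or]
      exact ⟨n13, ht1B⟩
    · exact Finset.disjoint_left.1 hσd hx
  have hρN : IsPth (del R (insert t₃ (vs B))) c₁ z' ρ := by
    refine DL.isPth_del.2 ⟨hρ, ?_⟩
    rw [Finset.disjoint_left]
    intro x hx hx'
    rcases hρv x hx with rfl | h
    · exact hσS x hc₁ hx'
    · refine hDS x h ((mS x).2 ?_)
      rw [mem_insert] at hx'
      rcases hx' with h' | h'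
      · exact Or.inl h'
      · exact Or.inr (Or.inr h')
  obtain ⟨Z₁, Z₂, hZ₁, hZ₂, hZu, hZdj, _⟩ := hZ.split hcZ hz'Z' (Ne.symm hz'c)
  -- the step for one arc
  have step : ∀ Y, IsPth (del R (insert t₃ (vs B))) c z' Y → Y ⊆ Z →
      ∑ h ∈ σ₂, ω h + ∑ h ∈ Y, ω h + ∑ h ∈ ρ, ω h = 0 := by
    intro Y hY hYZ
    have hYv := vs_mono hYZ
    have hi1 : vs σ₂ ∩ vs Y ⊆ {c} := by
      intro x hx
      rw [mem_inter] at hx
      rw [mem_singleton]
      exact hZσ x (hYv hx.2) (mem_insert_of_mem (hσ₂s hx.1))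
    have hap := hσ₂.append hY hi1
    have hi2 : vs (σ₂ ∪ Y) ∩ vs ρ ⊆ {c₁, z'} := by
      intro x hx
      rw [mem_inter, mem_vs_union] at hx
      rw [mem_insert, mem_singleton]
      rcases hρv x hx.2 with h | h
      · exact Or.inl h
      · rcases hx.1 with h1 | h1
        · exact absurd h (hσD x (mem_insert_of_mem (hσ₂s h1)))
        · exact Or.inr (hρZ x hx.2 (hYv h1))
    have hne : σ₂ ∪ Y ≠ ρ := by
      intro h
      have h1 : c ∈ vs ρ := by rw [← h]; exact mem_vs_union.2 (Or.inl hcσ₂)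
      rcases hρv c h1 with h2 | h2
      · exact hc₁c h2.symm
      · exact hcD h2
    have hW := hap.isCyc_union hρN (Ne.symm hz'c₁) hi2 hne
    have hWsum := ih _ hcard c₁ z' v σ₁ rfl (σ₂ ∪ Y ∪ ρ) hσ₁ hW
      (mem_vs_union.2 (Or.inl (mem_vs_union.2 (Or.inl hc₁σ₂)))) ?_
      (mem_vs_union.2 (Or.inr (hρ.right_mem (Ne.symm hz'c₁)))) hz'c₁ hv ?_ ?_
    · rw [sum_union (hap.disjoint_of_inter hρN hi2 hne),
        sum_union (hσ₂.append_disjoint hi1)] at hWsum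
      exact hWsum
    · intro x hx hx1
      rw [mem_vs_union, mem_vs_union] at hx
      rcases hx with (h | h) | h
      · exact h12 x h hx1
      · have := hZσ x (hYv h) (insert_subset_insert _ hσ₁s hx1)
        exact absurd (this ▸ hx1) hcσ₁
      · rcases hρv x h with h' | h'
        · exact h'
        · exact absurd h' (hσD x (insert_subset_insert _ hσ₁s hx1))
    · refine ((mem_cmp.1 hz'D).symm.trans (mem_cmp.1 hvD)).mono (del_anti ?_)
      rw [hS]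
      exact insert_subset_insert _ (insert_subset_insert _ (union_subset_union_left hσ₁s))
    · exact fun h => hvσ (insert_subset_insert _ hσ₁s h)
  have e1 := step Z₁ hZ₁ (hZu ▸ subset_union_left)
  have e2 := step Z₂ hZ₂ (hZu ▸ subset_union_right)
  rw [← hZu, sum_union hZdj]
  have e3 : ∑ h ∈ Z₁, ω h + ∑ h ∈ Z₂, ω h =
      (∑ h ∈ σ₂, ω h + ∑ h ∈ Z₁, ω h + ∑ h ∈ ρ, ω h) +
      (∑ h ∈ σ₂, ω h + ∑ h ∈ Z₂, ω h + ∑ h ∈ ρ, ω h) := by
    have k1 := zmod2_add_self (∑ h ∈ σ₂, ω h)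
    have k2 := zmod2_add_self (∑ h ∈ ρ, ω h)
    linear_combination (-1 : ZMod 2) * k1 - k2
  rw [e3, e1, e2, add_zero]

end DL
end
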