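import Pool.Agent.DL.Y.SpecV
import Pool.Agent.DL.EX.Spec
import Pool.Agent.DL.BASE.K11

/-!
MP_3ff0f8_gt, ALGEBRA HALF, STEP Y, part V, module VKR: one relation of `F(K_{3,4} + e)` (helper74).
-/

open SimpleGraph Finset

namespace DL

namespace VKRM

open BASE

instance : DecidableRel K7 := fun i j => by unfold K7; infer_instance

/-- the 24 cycles: reversed vertex lists -/
def C24 : List (List (Fin 7)) := [[5, 3, 4, 0], [6, 3, 5, 0], [5, 2, 4, 1], [6, 2, 5, 1],
  [5, 1, 4, 2, 0], [6, 1, 4, 2, 0], [6, 3, 4, 2, 0], [4, 3, 5, 2, 0], [6, 3, 5, 2, 0],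
  [4, 1, 6, 2, 0], [5, 1, 6, 2, 0], [4, 3, 6, 2, 0], [5, 2, 6, 1, 4, 0], [5, 3, 6, 1, 4, 0],
  [5, 2, 6, 3, 4, 0], [6, 1, 4, 2, 5, 0], [6, 3, 4, 2, 5, 0], [6, 1, 4, 3, 5, 0],
  [5, 2, 6, 3, 4, 1], [6, 3, 4, 2, 5, 1], [0, 5, 1, 6, 3, 4, 2], [6, 1, 4, 3, 5, 2, 0],
  [0, 4, 1, 6, 3, 5, 2], [5, 1, 4, 3, 6, 2, 0]]

/-- the table of the directed edges -/
def TT : ℕ := 108796528882893541857555609397343011562667070466633592501574157829192649005379277445987561633448445335242218731671902456429932642983199146084470184109807487342698196298766764764432404892160631299910057858860181528045972449269326247484942877118663383742204282258176298572402647397752474180925028500612496197101213401344704942000046080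

/-- the cycles through the directed edge `ij` -/
def N (i j : ℕ) : ℕ :=
  Nat.land (Nat.shiftRight TT (Nat.mul 24 (Nat.add (Nat.mul 7 i) j))) 16777215

/-- the cycles through the edge `ij` -/
def M (i j : ℕ) : ℕ := Nat.xor (N i j) (N j i)

/-- the step from `i` to `j` occurs in the path -/
def st : List (Fin 7) → Fin 7 → Fin 7 → Bool
  | w :: v :: l, i, j => (decide (i = v) && decide (j = w)) ^^ st (v :: l) i j
  | [_], _, _ => false
  | [], _, _ => false

/-- the list is a path -/
def ok : List (Fin 7) → Bool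
  | w :: v :: l => decide (K7 v w) && (!(decide (w ∈ v :: l)) && ok (v :: l))
  | [_] => true
  | [] => false

/-- the last vertex -/
def lst : Fin 7 → List (Fin 7) → Fin 7
  | w, [] => w
  | _, v :: l => lst v l

/-- the step from `i` to `j` occurs in the cycle -/
def sc : List (Fin 7) → Fin 7 → Fin 7 → Bool
  | w :: l, i, j => st (w :: l) i j ^^ (decide (i = w) && decide (j = lst w l))
  | [], _, _ => false

/-- the list is a cycle -/
def good : List (Fin 7) → Bool
  | w :: l => ok (w :: l) && (decide (K7 w (lst w l)) &&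
      (!(st (w :: l) w (lst w l)) && !(st (w :: l) (lst w l) w)))
  | [] => false

/-- the `k`-th cycle -/
def cy (k : ℕ) : List (Fin 7) := C24.getD k []

theorem chk_good : ∀ k : Fin 24, good (cy k) = true := by decide +kernel

theorem chk_N : ∀ (i j : Fin 7) (k : Fin 32), (N i j).testBit k = sc (cy k) i j := by
  decide +kernel

theorem chk_coh : (allB 7 fun i => allB 7 fun j => allB 7 fun k => allB 7 fun l =>
    (Nat.beq i l && Nat.beq j k) || !(par 5 (Nat.xor (Nat.land (N i j) (N k l))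
      (Nat.land (N j i) (N l k))))) = true := by
  decide +kernel

theorem chk_cub : (allB 7 fun i => allB 7 fun j => fc (M i j) fun a => Nat.beq a 0 ||
    allB 7 fun k => allB 7 fun l => fc (M k l) fun b => Nat.beq b 0 ||
      allB 7 fun m => allB 7 fun n => fc (M m n) fun c => Nat.beq c 0 ||
        !(par 5 (Nat.land a (Nat.land b c)))) = true := by
  decide +kernel

theorem good_nil : good [] = false := rfl

/-- the numbers and the cycles -/
theorem bit_N (i j : Fin 7) {k : ℕ} (hk : k < 32) : (N i j).testBit k = sc (cy k) i j :=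
  chk_N i j ⟨k, hk⟩

theorem cy_big {k : ℕ} (hk : 24 ≤ k) : cy k = [] := by
  rw [cy, List.getD_eq_default]
  exact hk

theorem sc_big {k : ℕ} (hk : 24 ≤ k) (i j : Fin 7) : sc (cy k) i j = false := by
  rw [cy_big hk]; rfl

theorem bxor (x y k : ℕ) : z2 ((Nat.xor x y).testBit k) = z2 (x.testBit k) + z2 (y.testBit k) := by
  rw [xor_eq, Nat.testBit_xor, z2_xor]

theorem band (x y k : ℕ) : z2 ((Nat.land x y).testBit k) = z2 (x.testBit k) * z2 (y.testBit k) := by
  rw [land_eq, Nat.testBit_and, z2_and]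

theorem sum_big (f : ℕ → ZMod 2) (hf : ∀ k, 24 ≤ k → k < 32 → f k = 0) :
    ∑ k ∈ range 24, f k = ∑ k ∈ range (2 ^ 5), f k := by
  refine sum_subset (fun k hk => ?_) fun k hk hk' => ?_
  · rw [mem_range] at hk ⊢; omega
  · rw [mem_range] at hk hk'; exact hf k (by omega) (by omega)

theorem coh_rel {i j k l : Fin 7} (h : ¬ (i = l ∧ j = k)) :
    ∑ t ∈ range 24, (z2 (sc (cy t) i j) * z2 (sc (cy t) k l) +
      z2 (sc (cy t) j i) * z2 (sc (cy t) l k)) = 0 := by
  have h1 := allB_iff.1 (allB_iff.1 (allB_iff.1 (allB_iff.1 chk_coh i.val i.isLt) j.val j.isLt)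
    k.val k.isLt) l.val l.isLt
  rw [Bool.or_eq_true, Bool.and_eq_true, nbeq, nbeq, decide_eq_true_iff, decide_eq_true_iff,
    Bool.not_eq_true'] at h1
  have h2 := h1.resolve_left fun h' => h ⟨Fin.ext h'.1, Fin.ext h'.2⟩
  have h3 := par_eq 5 (Nat.xor (Nat.land (N i j) (N k l)) (Nat.land (N j i) (N l k)))
  rw [h2, z2_false] at h3
  rw [sum_big, h3]
  · refine sum_congr rfl fun t ht => ?_
    rw [mem_range] at ht
    have ht' : t < 32 := ht
    rw [bxor, band, band, bit_N i j ht', bit_N k l ht', bit_N j i ht', bit_N l k ht']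
  · intro t ht _
    simp only [sc_big ht, z2_false, mul_zero, add_zero]

/-- the edge `ij` is on the cycle -/
def xx (t : ℕ) (i j : Fin 7) : ZMod 2 := z2 (sc (cy t) i j) + z2 (sc (cy t) j i)

theorem bit_M (i j : Fin 7) {k : ℕ} (hk : k < 32) : z2 ((M i j).testBit k) = xx k i j := by
  rw [M, bxor, bit_N i j hk, bit_N j i hk, xx]

theorem xx_zero {i j : Fin 7} (h : M i j = 0) {k : ℕ} (hk : k < 32) : xx k i j = 0 := by
  rw [← bit_M i j hk, h, Nat.zero_testBit]; rfl

theorem cub_rel (i j k l m n : Fin 7) :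
    ∑ t ∈ range 24, xx t i j * (xx t k l * xx t m n) = 0 := by
  by_cases h0 : M i j = 0
  · exact sum_eq_zero fun t ht => by rw [xx_zero h0 (by rw [mem_range] at ht; omega), zero_mul]
  by_cases h1 : M k l = 0
  · exact sum_eq_zero fun t ht => by
      rw [xx_zero h1 (by rw [mem_range] at ht; omega), zero_mul, mul_zero]
  by_cases h2 : M m n = 0
  · exact sum_eq_zero fun t ht => by
      rw [xx_zero h2 (by rw [mem_range] at ht; omega), mul_zero, mul_zero]
  have h3 := allB_iff.1 (allB_iff.1 chk_cub i.val i.isLt) j.val j.isLt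
  rw [fc_eq, Bool.or_eq_true, nbeq, decide_eq_true_iff] at h3
  have h4 := allB_iff.1 (allB_iff.1 (h3.resolve_left h0) k.val k.isLt) l.val l.isLt
  rw [fc_eq, Bool.or_eq_true, nbeq, decide_eq_true_iff] at h4
  have h5 := allB_iff.1 (allB_iff.1 (h4.resolve_left h1) m.val m.isLt) n.val n.isLt
  rw [fc_eq, Bool.or_eq_true, nbeq, decide_eq_true_iff, Bool.not_eq_true'] at h5
  have h6 := par_eq 5 (Nat.land (M i j) (Nat.land (M k l) (M m n)))
  rw [h5.resolve_left h2, z2_false] at h6
  rw [sum_big, h6]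
  · refine sum_congr rfl fun t ht => ?_
    rw [mem_range] at ht
    have ht' : t < 32 := ht
    rw [band, band, bit_M i j ht', bit_M k l ht', bit_M m n ht']
  · intro t ht _
    simp only [xx, sc_big ht, z2_false, mul_zero, add_zero]

/-! ## The cycles -/

variable {α : Type} [Fintype α] [DecidableEq α] {G : SimpleGraph α}

/-- the edges of a path -/
def pe (a : Fin 7 → α) : List (Fin 7) → Finset (Sym2 α)
  | w :: v :: l => insert s(a v, a w) (pe a (v :: l))
  | [_] => ∅
  | [] => ∅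

/-- the edges of a cycle -/
def cc (a : Fin 7 → α) : List (Fin 7) → Finset (Sym2 α)
  | w :: l => insert s(a w, a (lst w l)) (pe a (w :: l))
  | [] => ∅

theorem path {a : Fin 7 → α} (ha : Function.Injective a)
    (hG : ∀ x y, G.Adj x y ↔ ∃ i j, K7 i j ∧ x = a i ∧ y = a j) (l : List (Fin 7)) :
    ∀ w, ok (w :: l) = true → IsPth G (a (lst w l)) (a w) (pe a (w :: l)) ∧
      (∀ x ∈ vs (pe a (w :: l)), ∃ i ∈ w :: l, x = a i) ∧
      ∀ i j, dirn (a (lst w l)) (a i) (a j) (pe a (w :: l)) = z2 (st (w :: l) i j) := by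
  induction l with
  | nil =>
    intro w _
    refine ⟨IsPth.nil _, fun x hx => ?_, fun i j => ?_⟩
    · rw [mem_vs] at hx
      obtain ⟨e, he, _⟩ := hx
      exact absurd he (notMem_empty _)
    · have e0 : s(a i, a j) ∉ pe a [w] := notMem_empty _
      rw [dirn_eq_zero_of_notMem e0]; rfl
  | cons v l ih =>
    intro w h
    rw [ok, Bool.and_eq_true, Bool.and_eq_true, decide_eq_true_iff, Bool.not_eq_true',
      decide_eq_false_iff_not] at h
    obtain ⟨h1, h2, h3⟩ := h
    obtain ⟨i1, i2, i3⟩ := ih v h3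
    have hadj : G.Adj (a v) (a w) := (hG _ _).2 ⟨v, w, h1, rfl, rfl⟩
    have hw : a w ∉ vs (pe a (v :: l)) := by
      intro h
      obtain ⟨i, hi, hi'⟩ := i2 _ h
      exact h2 (ha hi' ▸ hi)
    refine ⟨i1.concat hadj hw, fun x hx => ?_, fun i j => ?_⟩
    · rw [pe, vs_insert, mem_union, mem_insert, mem_singleton] at hx
      rcases hx with (rfl | rfl) | hx
      · exact ⟨v, List.mem_cons_of_mem _ List.mem_cons_self, rfl⟩
      · exact ⟨w, List.mem_cons_self, rfl⟩
      · obtain ⟨i, hi, hi'⟩ := i2 _ hx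
        exact ⟨i, List.mem_cons_of_mem _ hi, hi'⟩
    · have e := dirn_concat i1 hadj hw (a i) (a j)
      simp only [ha.eq_iff] at e
      change dirn (a (lst v l)) (a i) (a j) (insert s(a v, a w) (pe a (v :: l))) = _
      rw [e, i3 i j, st, z2_xor, add_comm]
      congr 1
      by_cases hi : i = v <;> by_cases hj : j = w <;> simp [hi, hj]

theorem K7_ne {i j : Fin 7} (h : K7 i j) : i ≠ j := by
  rintro rfl
  revert h; revert i; decide

/-- facts on a cycle -/
structure CF (G : SimpleGraph α) (a : Fin 7 → α) (r : List (Fin 7)) : Prop where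
  cyc : IsCyc G (cc a r)
  ed : ∀ i j, chi (cc a r) s(a i, a j) = z2 (sc r i j) + z2 (sc r j i)
  co : ∀ i j k l, ¬ (i = l ∧ j = k) → coh (a i) (a j) (a k) (a l) (cc a r) =
    z2 (sc r i j) * z2 (sc r k l) + z2 (sc r j i) * z2 (sc r l k)

theorem cf {a : Fin 7 → α} (ha : Function.Injective a)
    (hG : ∀ x y, G.Adj x y ↔ ∃ i j, K7 i j ∧ x = a i ∧ y = a j) {r : List (Fin 7)}
    (h : good r = true) : CF G a r := by
  cases r with
  | nil => rw [good_nil] at h; exact absurd h (by decide)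
  | cons w l =>
    rw [good, Bool.and_eq_true, Bool.and_eq_true, Bool.and_eq_true, decide_eq_true_iff,
      Bool.not_eq_true', Bool.not_eq_true'] at h
    obtain ⟨h1, h2, h3, h4⟩ := h
    obtain ⟨p1, _, p3⟩ := path ha hG l w h1
    have hadj : G.Adj (a w) (a (lst w l)) := (hG _ _).2 ⟨w, _, h2, rfl, rfl⟩
    have hn : s(a w, a (lst w l)) ∉ pe a (w :: l) := by
      intro hm
      have e := p1.dirn_add_swap (a w) (a (lst w l))
      rw [chi_of_mem hm, p3, p3, h3, h4] at e
      exact absurd e (by decide)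
    have hD : ∀ i j, dirn (a (lst w l)) (a i) (a j) (pe a (w :: l)) +
        (if a i = a w ∧ a j = a (lst w l) then 1 else 0) = z2 (sc (w :: l) i j) := by
      intro i j
      rw [p3, sc, z2_xor]
      simp only [ha.eq_iff]
      congr 1
      by_cases hi : i = w <;> by_cases hj : j = lst w l <;> simp [hi, hj]
    refine ⟨?_, fun i j => ?_, fun i j k m hne => ?_⟩
    · rw [cc]
      exact p1.symm.isCyc hadj hn
    · rw [cc, chi_insert hn, Pi.add_apply, ← p1.dirn_add_swap, ← hD, ← hD]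
      have e : chi ({s(a w, a (lst w l))} : Finset (Sym2 α)) s(a i, a j) =
          (if a i = a w ∧ a j = a (lst w l) then 1 else 0) +
            (if a j = a w ∧ a i = a (lst w l) then 1 else 0) := by
        simp only [chi_apply, mem_singleton, Sym2.eq_iff]
        have hne : a w ≠ a (lst w l) := hadj.ne
        by_cases c1 : a i = a w ∧ a j = a (lst w l)
        · rw [if_pos (Or.inl c1), if_pos c1, if_neg, add_zero]
          rintro ⟨c2, -⟩
          exact hne (c2.symm.trans c1.2)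
        · by_cases c2 : a j = a w ∧ a i = a (lst w l)
          · rw [if_pos (Or.inr ⟨c2.2, c2.1⟩), if_neg c1, if_pos c2, zero_add]
          · rw [if_neg, if_neg c1, if_neg c2, add_zero]
            rintro (c | c)
            · exact c1 c
            · exact c2 ⟨c.2, c.1⟩
      rw [e]
      ring
    · have e := coh_closing p1 hadj hn (D := fun x y => dirn (a (lst w l)) x y (pe a (w :: l)) +
        if x = a w ∧ y = a (lst w l) then 1 else 0) (fun _ _ => rfl) (a i) (a j) (a k) (a m)
        (fun h => hne ⟨ha h.1, ha h.2⟩)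
      rw [cc, ← e]
      simp only [hD]

/-! ## The relation -/

theorem chk_sp : ∀ (k : Fin 24) (j : Fin 7), (k.val = 20 ∨ k.val = 22) ∨
    ¬ (xx k 0 2 = 1 ∧ xx k 0 6 = 0 ∧ xx k 2 6 = 0 ∧ xx k 6 j = 1) := by decide +kernel

theorem chi_sum (C : Finset (Sym2 α)) : ∑ e ∈ C, chi ({e} : Finset (Sym2 α)) = chi C := by
  funext f
  rw [Finset.sum_apply]
  simp [chi_apply]

theorem ite_three (C : Finset (Sym2 α)) (e f h : Sym2 α) :
    (if ({e, f, h} : Finset (Sym2 α)) ⊆ C then (1 : ZMod 2) else 0) =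
      chi C e * (chi C f * chi C h) := by
  simp only [chi_apply, insert_subset_iff, singleton_subset_iff]
  by_cases h1 : e ∈ C <;> by_cases h2 : f ∈ C <;> by_cases h3 : h ∈ C <;> simp [h1, h2, h3]

variable {a : Fin 7 → α}

theorem cub (ha : Function.Injective a)
    (hG : ∀ x y, G.Adj x y ↔ ∃ i j, K7 i j ∧ x = a i ∧ y = a j) (e f h : Sym2 α) :
    ∑ k ∈ range 24, chi (cc a (cy k)) e * (chi (cc a (cy k)) f * chi (cc a (cy k)) h) = 0 := by
  have hcf : ∀ k ∈ range 24, CF G a (cy k) := fun k hk => cf ha hG (chk_good ⟨k, mem_range.1 hk⟩)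
  have hout : ∀ e : Sym2 α, (¬ ∃ i j, e = s(a i, a j)) → ∀ k ∈ range 24, chi (cc a (cy k)) e = 0 := by
    intro e he k hk
    refine chi_of_notMem fun hm => he ?_
    induction e using Sym2.ind with
    | _ x y =>
      obtain ⟨i, j, _, rfl, rfl⟩ := (hG x y).1 ((hcf k hk).cyc.adj_of_mem hm)
      exact ⟨i, j, rfl⟩
  by_cases he : ∃ i j, e = s(a i, a j)
  swap
  · exact sum_eq_zero fun k hk => by rw [hout e he k hk, zero_mul]
  by_cases hf : ∃ i j, f = s(a i, a j)
  swap
  · exact sum_eq_zero fun k hk => by rw [hout f hf k hk, zero_mul, mul_zero]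
  by_cases hh : ∃ i j, h = s(a i, a j)
  swap
  · exact sum_eq_zero fun k hk => by rw [hout h hh k hk, mul_zero, mul_zero]
  obtain ⟨i, j, rfl⟩ := he
  obtain ⟨k, l, rfl⟩ := hf
  obtain ⟨m, n, rfl⟩ := hh
  rw [← cub_rel i j k l m n]
  refine sum_congr rfl fun t ht => ?_
  rw [(hcf t ht).ed, (hcf t ht).ed, (hcf t ht).ed]
  rfl

theorem few {C : ℕ → Finset (Sym2 α)} (hC : ∀ e f h : Sym2 α,
    ∑ k ∈ range 24, chi (C k) e * (chi (C k) f * chi (C k) h) = 0) (T : Finset (Sym2 α))
    (hT : T.card ≤ 3) : ∑ k ∈ range 24, (if T ⊆ C k then (1 : ZMod 2) else 0) = 0 := by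
  have key : ∀ e f h : Sym2 α,
      ∑ k ∈ range 24, (if ({e, f, h} : Finset (Sym2 α)) ⊆ C k then (1 : ZMod 2) else 0) = 0 := by
    intro e f h
    exact (sum_congr rfl fun k _ => ite_three (C k) e f h).trans (hC e f h)
  have h0 : T.card = 0 ∨ T.card = 1 ∨ T.card = 2 ∨ T.card = 3 := by omega
  rcases h0 with h0 | h0 | h0 | h0
  · rw [card_eq_zero] at h0
    subst h0
    simp only [empty_subset, if_true, sum_const, card_range]
    decide
  · obtain ⟨e, rfl⟩ := card_eq_one.1 h0
    have := key e e e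
    simpa using this
  · obtain ⟨e, f, _, rfl⟩ := card_eq_two.1 h0
    have := key e f f
    simpa using this
  · obtain ⟨e, f, h, _, _, _, rfl⟩ := card_eq_three.1 h0
    exact key e f h

theorem pol (hPOL : SpecPOL) {C : ℕ → Finset (Sym2 α)} (hC : ∀ e f h : Sym2 α,
    ∑ k ∈ range 24, chi (C k) e * (chi (C k) f * chi (C k) h) = 0) {p : Chain α → ZMod 2}
    (hp : DegLE 3 p) : ∑ k ∈ range 24, p (chi (C k)) = 0 := by
  have h1 : ∀ C : Finset (Sym2 α), p (chi C) =
      ∑ T ∈ (univ : Finset (Finset (Sym2 α))).filter (fun T => T.card ≤ 3),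
        (∑ T' ∈ T.powerset, p (∑ e ∈ T', chi ({e} : Finset (Sym2 α)))) *
          (if T ⊆ C then (1 : ZMod 2) else 0) := by
    intro C
    have e := hPOL.exp (f := p) (fun e : Sym2 α => chi ({e} : Finset (Sym2 α))) C hp
    rw [chi_sum] at e
    rw [e]
    have e2 : C.powerset.filter (fun T => T.card ≤ 3) =
        ((univ : Finset (Finset (Sym2 α))).filter (fun T => T.card ≤ 3)).filter (fun T => T ⊆ C) := by
      ext T
      simp only [mem_filter, mem_powerset, mem_univ, true_and]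
      exact and_comm
    rw [e2, sum_filter]
    refine sum_congr rfl fun T _ => ?_
    split_ifs
    · rw [mul_one]
    · rw [mul_zero]
  rw [sum_congr rfl fun k _ => h1 (C k), sum_comm]
  refine sum_eq_zero fun T hT => ?_
  rw [← mul_sum, few hC T (mem_filter.1 hT).2, mul_zero]

theorem cohr (ha : Function.Injective a)
    (hG : ∀ x y, G.Adj x y ↔ ∃ i j, K7 i j ∧ x = a i ∧ y = a j) (x y z w : α) :
    ∑ k ∈ range 24, coh x y z w (cc a (cy k)) = 0 := by
  have hcf : ∀ k ∈ range 24, CF G a (cy k) := fun k hk => cf ha hG (chk_good ⟨k, mem_range.1 hk⟩)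
  by_cases h1 : ∃ i j, x = a i ∧ y = a j
  swap
  · refine sum_eq_zero fun k hk => coh_eq_zero_left fun hm => h1 ?_
    obtain ⟨i, j, _, h⟩ := (hG x y).1 ((hcf k hk).cyc.adj_of_mem hm)
    exact ⟨i, j, h⟩
  by_cases h2 : ∃ i j, z = a i ∧ w = a j
  swap
  · refine sum_eq_zero fun k hk => coh_eq_zero_right fun hm => h2 ?_
    obtain ⟨i, j, _, h⟩ := (hG z w).1 ((hcf k hk).cyc.adj_of_mem hm)
    exact ⟨i, j, h⟩
  obtain ⟨i, j, rfl, rfl⟩ := h1
  obtain ⟨k, l, rfl, rfl⟩ := h2
  by_cases hne : i = l ∧ j = k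
  · obtain ⟨rfl, rfl⟩ := hne
    rw [← cub ha hG s(a i, a j) s(a i, a j) s(a i, a j)]
    refine sum_congr rfl fun t _ => ?_
    rw [coh_self_rev]
    have e : ∀ x : ZMod 2, x = x * (x * x) := by decide
    exact e _
  · rw [← coh_rel hne]
    exact sum_congr rfl fun t ht => (hcf t ht).co i j k l hne

end VKRM

open VKRM in
theorem specVKR (hPOL : SpecPOL) : SpecVKR := by
  rintro α _ _ G a ha hG g ⟨p, hp, -, l, hf⟩ hz
  have hcf : ∀ k ∈ range 24, CF G a (cy k) := fun k hk => cf ha hG (chk_good ⟨k, mem_range.1 hk⟩)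
  have h1 : ∑ k ∈ range 24, g (cc a (cy k)) = 0 := by
    rw [sum_congr rfl fun k hk => hf (cc a (cy k)) (hcf k hk).cyc, sum_add_distrib,
      pol hPOL (C := fun k => cc a (cy k)) (cub ha hG) hp, zero_add, sum_comm]
    refine sum_eq_zero fun x _ => ?_
    rw [sum_comm]
    refine sum_eq_zero fun y _ => ?_
    rw [sum_comm]
    refine sum_eq_zero fun z _ => ?_
    rw [sum_comm]
    refine sum_eq_zero fun w _ => ?_
    rw [← mul_sum, cohr ha hG, mul_zero]
  have h2 : ∀ k ∈ range 24, k ∉ ({20, 22} : Finset ℕ) → g (cc a (cy k)) = 0 := by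
    intro k hk hk'
    by_contra hg
    obtain ⟨m1, m2, m3, m4⟩ := hz _ (hcf k hk).cyc hg
    rw [mem_vs] at m4
    obtain ⟨e, he, m4⟩ := m4
    obtain ⟨y, rfl⟩ := m4
    obtain ⟨i, j, _, hi, rfl⟩ := (hG _ y).1 ((hcf k hk).cyc.adj_of_mem he)
    have := (chk_sp ⟨k, mem_range.1 hk⟩ j).resolve_left (by
      intro h
      apply hk'
      rw [mem_insert, mem_singleton]
      exact h)
    apply this
    have q : ∀ i j, xx k i j = chi (cc a (cy k)) s(a i, a j) := fun i j => ((hcf k hk).ed i j).symm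
    refine ⟨?_, ?_, ?_, ?_⟩
    · exact (q 0 2).trans (chi_of_mem m1)
    · exact (q 0 6).trans (chi_of_notMem m2)
    · exact (q 2 6).trans (chi_of_notMem m3)
    · exact (q 6 j).trans (chi_of_mem he)
  have h3 : ∑ k ∈ ({20, 22} : Finset ℕ), g (cc a (cy k)) = 0 := by
    rw [← h1]
    refine sum_subset (fun k hk => ?_) h2
    rw [mem_insert, mem_singleton] at hk
    rw [mem_range]; omega
  rw [sum_pair (by decide)] at h3
  have e20 : cc a (cy 20) =
      {s(a 0, a 5), s(a 5, a 1), s(a 1, a 6), s(a 6, a 3), s(a 3, a 4), s(a 4, a 2), s(a 0, a 2)} := by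
    change insert s(a 0, a 2) (insert s(a 5, a 0) (insert s(a 1, a 5) (insert s(a 6, a 1)
      (insert s(a 3, a 6) (insert s(a 4, a 3) (insert s(a 2, a 4) ∅)))))) = _
    rw [Sym2.eq_swap (a := a 5) (b := a 0), Sym2.eq_swap (a := a 1) (b := a 5),
      Sym2.eq_swap (a := a 6) (b := a 1), Sym2.eq_swap (a := a 3) (b := a 6),
      Sym2.eq_swap (a := a 4) (b := a 3), Sym2.eq_swap (a := a 2) (b := a 4)]
    ext e
    simp only [mem_insert, mem_singleton, notMem_empty]
    tauto
  have e22 : cc a (cy 22) =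
      {s(a 0, a 4), s(a 4, a 1), s(a 1, a 6), s(a 6, a 3), s(a 3, a 5), s(a 5, a 2), s(a 0, a 2)} := by
    change insert s(a 0, a 2) (insert s(a 4, a 0) (insert s(a 1, a 4) (insert s(a 6, a 1)
      (insert s(a 3, a 6) (insert s(a 5, a 3) (insert s(a 2, a 5) ∅)))))) = _
    rw [Sym2.eq_swap (a := a 4) (b := a 0), Sym2.eq_swap (a := a 1) (b := a 4),
      Sym2.eq_swap (a := a 6) (b := a 1), Sym2.eq_swap (a := a 3) (b := a 6),
      Sym2.eq_swap (a := a 5) (b := a 3), Sym2.eq_swap (a := a 2) (b := a 5)]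
    ext e
    simp only [mem_insert, mem_singleton, notMem_empty]
    tauto
  rw [e20, e22] at h3
  exact (CharTwo.add_eq_zero.1 h3).symm

end DL
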