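import Pool.Agent.DL.Y.SpecV
import Pool.Agent.DL.MENG
import Pool.Agent.DL.KC
import Pool.Agent.DL.PC2
import Pool.Agent.DL.TREE
import Pool.Agent.DL.EX.VRS
import Pool.Agent.DL.EX.TRE

section
/-!
# MP_3ff0f8_gt, algebra half, STEP Y, module VFD (helper98): the value does not depend on the path
-/
set_option autoImplicit false
set_option linter.unusedSectionVars false

open SimpleGraph Finset

namespace DL

namespace VFDM

variable {α : Type} [Fintype α] [DecidableEq α] {R : SimpleGraph α}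

/-- one bead move does not change the sum -/
theorem bead_sum (hVF3 : SpecVF3) {t₁ t₂ t₃ v w : α} {ψ : Finset (Sym2 α) → ZMod 2}
    {B : Finset (Sym2 α)} {w0 : ZMod 2} {ω : Sym2 α → ZMod 2} (hC1 : C1 R)
    (hcon : ConnOff R {t₁, t₂, t₃}) (hF : FDB R t₁ t₂ t₃ ψ w B w0 ω) (hv : R.Adj t₃ v)
    {E Q Q' : Finset (Sym2 α)} (h : Bead (del R (insert t₃ (vs B))) t₁ v E Q Q') :
    ∑ e ∈ Q, ω e = ∑ e ∈ Q', ω e := by
  obtain ⟨x, y, A, P, S, D, hxy, hA, hP, hS, hD, rfl, rfl, h1, h2, h3, h4, h5, h6, h7, hne⟩ := h.data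
  have hAP : Disjoint A P := disjoint_of_vs_subset hA.not_isDiag h1
  have hAS : Disjoint A S := disjoint_of_vs_subset hA.not_isDiag h2
  have hAPD : Disjoint (A ∪ P) D := disjoint_of_vs_subset (hA.append hP h1).not_isDiag h5
  have hASD : Disjoint (A ∪ S) D := disjoint_of_vs_subset (hA.append hS h2).not_isDiag h6
  have hPS := hP.disjoint_of_inter hS h7 hne
  -- vertices of `D`
  have hyP : y ∈ vs P := hP.right_mem hxy
  have hyA : y ∉ vs A := by
    intro h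
    have := h1 (mem_inter.2 ⟨h, hyP⟩)
    rw [mem_singleton] at this
    exact hxy this.symm
  have hAP' := hA.append hP h1
  have ht1y : t₁ ≠ y := by
    rintro rfl
    have h0 := hAP'.eq_empty
    rw [union_eq_empty] at h0
    rw [h0.2] at hyP
    simp at hyP
  have ht1 : t₁ ∈ vs (A ∪ P) := hAP'.left_mem ht1y
  have hDA : ∀ u ∈ insert y (vs D), u ∉ insert t₁ (vs A) := by
    intro u hu hu'
    rw [mem_insert] at hu hu'
    rcases hu with rfl | hu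
    · rcases hu' with h | h
      · exact ht1y h.symm
      · exact hyA h
    · have hu2 : u ∈ vs (A ∪ P) := by
        rcases hu' with rfl | h
        · exact ht1
        · exact mem_vs_union.2 (Or.inl h)
      have := h5 (mem_inter.2 ⟨hu2, hu⟩)
      rw [mem_singleton] at this
      rcases hu' with h | h
      · exact ht1y (h.symm.trans this)
      · exact hyA (this ▸ h)
  have hDN : ∀ u ∈ insert y (vs D), u ∉ insert t₃ (vs B) := by
    intro u hu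
    rw [mem_insert] at hu
    rcases hu with rfl | hu
    · exact Finset.disjoint_left.1 (DL.isPth_del.1 hP).2 hyP
    · exact Finset.disjoint_left.1 (DL.isPth_del.1 hD).2 hu
  have hsum := hVF3 hC1 hcon hF x y v A (P ∪ S) hA (hP.isCyc_union hS hxy h7 hne)
    (mem_vs_union.2 (Or.inl (hP.left_mem hxy))) ?_ (mem_vs_union.2 (Or.inl hyP)) hxy.symm hv ?_
    (hDA v hD.end_mem)
  · rw [sum_union hPS] at hsum
    rw [sum_union hAPD, sum_union hASD, sum_union hAP, sum_union hAS]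
    have k1 := zmod2_add_self (∑ e ∈ S, ω e)
    linear_combination hsum - k1
  · intro u hu hu'
    have hux : u ∈ vs A ∨ u = x := by
      rw [mem_insert] at hu'
      rcases hu' with rfl | h
      · by_cases h : u = x
        · exact Or.inr h
        · exact Or.inl (hA.left_mem h)
      · exact Or.inl h
    rcases hux with h | h
    · rw [mem_vs_union] at hu
      rcases hu with hu | hu
      · simpa using h1 (mem_inter.2 ⟨h, hu⟩)
      · simpa using h2 (mem_inter.2 ⟨h, hu⟩)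
    · exact h
  · refine (DL.isPth_del.1 hD).1.reachable_del fun u hu => ?_
    have e1 := hDA u hu
    have e2 := hDN u hu
    rw [mem_insert, not_or] at e1 e2
    rw [mem_insert, mem_insert, mem_union, not_or, not_or, not_or]
    exact ⟨e2.1, e1.1, e1.2, e2.2⟩

/-- the value of a linkage -/
theorem value {t₁ t₂ t₃ v w : α} {ψ : Finset (Sym2 α) → ZMod 2} {A B : Finset (Sym2 α)}
    {w0 : ZMod 2} {ω : Sym2 α → ZMod 2} (hF : FDB R t₁ t₂ t₃ ψ w B w0 ω)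
    (h : LNK R t₁ t₂ t₃ v w A B) :
    ψ (c4c t₁ t₂ t₃ v w A B) = w0 + ω s(v, t₃) + ∑ e ∈ A, ω e := by
  obtain ⟨hA, hAd⟩ := DL.isPth_del.1 h.pA
  obtain ⟨hB, hBd⟩ := DL.isPth_del.1 h.pB
  have ht3A : t₃ ∉ vs A := fun hx => Finset.disjoint_left.1 hAd hx (by simp)
  have ht3B : t₃ ∉ vs B := fun hx => Finset.disjoint_left.1 hBd hx (by simp)
  have hQ := hA.concat h.av.symm ht3A
  have hn : s(v, t₃) ∉ A := fun hx => ht3A (right_mem_vs hx)
  have hQ' : IsPth (del R (insert t₂ (vs B))) t₁ t₃ (insert s(v, t₃) A) := by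
    refine DL.isPth_del.2 ⟨hQ, ?_⟩
    rw [Finset.disjoint_left]
    intro x hx hx'
    have ht2B : t₂ ∈ vs B := hB.left_mem h.nw.symm
    have hx'' : x ∈ vs B := by
      rw [mem_insert] at hx'
      rcases hx' with rfl | h'
      · exact ht2B
      · exact h'
    rw [vs_insert, mem_union, mem_insert, mem_singleton] at hx
    rcases hx with (rfl | rfl) | hx
    · exact Finset.disjoint_left.1 h.dj (hA.right_mem h.nv.symm) hx''
    · exact ht3B hx''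
    · exact Finset.disjoint_left.1 h.dj hx hx''
  have e := hF.aff _ hQ'
  rw [sum_insert hn] at e
  have hc : insert s(t₁, t₂) (insert s(t₃, w) (insert s(v, t₃) A ∪ B)) = c4c t₁ t₂ t₃ v w A B := by
    rw [c4c, Sym2.eq_swap (a := v) (b := t₃), insert_union, Finset.insert_comm s(t₃, w) s(t₃, v)]
  rw [hc] at e
  rw [e]
  ring

theorem partA (hVF1 : SpecVF1) (hVF3 : SpecVF3) {t₁ t₂ t₃ v w : α}
    {ψ : Finset (Sym2 α) → ZMod 2} {A A' B : Finset (Sym2 α)} (hC1 : C1 R)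
    (hcon : ConnOff R {t₁, t₂, t₃}) (ht : Trg R t₁ t₂ t₃) (hk : KCH R t₁ t₂ t₃ ψ)
    (hiv : IV R t₁ t₂ t₃ ψ) (h : LNK R t₁ t₂ t₃ v w A B) (h' : LNK R t₁ t₂ t₃ v w A' B) :
    ψ (c4c t₁ t₂ t₃ v w A B) = ψ (c4c t₁ t₂ t₃ v w A' B) := by
  obtain ⟨w0, ω, hF⟩ := hVF1 ht hk hiv h.aw h.nw h.pB
  rw [value hF h, value hF h']
  have key : ∀ {C}, LNK R t₁ t₂ t₃ v w C B → IsPth (del R (insert t₃ (vs B))) t₁ v C := by
    intro C hC
    obtain ⟨hA, hAd⟩ := DL.isPth_del.1 hC.pA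
    refine DL.isPth_del.2 ⟨hA, ?_⟩
    rw [Finset.disjoint_left]
    intro x hx hx'
    rw [mem_insert] at hx'
    rcases hx' with rfl | hx'
    · exact Finset.disjoint_left.1 hAd hx (by simp)
    · exact Finset.disjoint_left.1 hC.dj hx hx'
  have hb := bead_moves (key h) (key h')
  have hs : ∑ e ∈ A, ω e = ∑ e ∈ A', ω e := by
    have hav := h.av
    generalize A ∪ A' = E at hb
    clear h h'
    induction hb with
    | refl => rfl
    | tail _ h1 ih => exact ih.trans (bead_sum hVF3 hC1 hcon hF hav h1)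
  rw [hs]

end VFDM

open VFDM in
theorem specVFD (hVF1 : SpecVF1) (hVF3 : SpecVF3) (hVLC : SpecVLC) : SpecVFD where
  A := fun hC1 hcon ht hk hiv h h' => partA hVF1 hVF3 hC1 hcon ht hk hiv h h'
  B := by
    intro α _ _ R t₁ t₂ t₃ v w ψ A B B' hC1 hcon ht hk hiv h h'
    obtain ⟨s1, e1⟩ := hVLC.symm h
    obtain ⟨s2, e2⟩ := hVLC.symm h'
    rw [← e1, ← e2]
    refine partA hVF1 hVF3 hC1 ?_ ⟨ht.1.symm, ht.2.2, ht.2.1⟩ ⟨hk.2, hk.1⟩ ?_ s1 s2
    · rwa [Finset.insert_comm]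
    · intro C hC hne
      obtain ⟨a, b, c, d⟩ := hiv C hC hne
      exact ⟨by rwa [Sym2.eq_swap], c, b, d⟩

end DL
end

section
/-!
# VHP: from a 4-cycle of connected sets to an H-partition
-/
open SimpleGraph Finset

namespace DL

namespace VHPM

variable {α : Type} [Fintype α] [DecidableEq α] {N R : SimpleGraph α}

omit [Fintype α] [DecidableEq α] in
theorem Tou.symm {X Y : Finset α} (h : Tou N X Y) : Tou N Y X := by
  obtain ⟨x, hx, y, hy, h⟩ := h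
  exact ⟨y, hy, x, hx, h.symm⟩

omit [Fintype α] [DecidableEq α] in
theorem Tou.mono {X Y X' Y' : Finset α} (h : Tou N X Y) (hX : X ⊆ X') (hY : Y ⊆ Y') :
    Tou N X' Y' := by
  obtain ⟨x, hx, y, hy, h⟩ := h
  exact ⟨x, hX hx, y, hY hy, h⟩

theorem rot {t₁ v t₂ w : α} {T₁ P T₂ Q : Finset α} (h : C4M N t₁ v t₂ w T₁ P T₂ Q) :
    C4M N v t₂ w t₁ P T₂ Q T₁ :=
  ⟨h.cP, h.c2, h.cQ, h.c1, h.mv, h.m2, h.mw, h.m1, h.dP2, h.dPQ, h.d1P.symm, h.d2Q, h.d12.symm,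
    h.d1Q.symm, h.tP2, h.t2Q, h.tQ1, h.t1P⟩

theorem rfl' {t₁ v t₂ w : α} {T₁ P T₂ Q : Finset α} (h : C4M N t₁ v t₂ w T₁ P T₂ Q) :
    C4M N t₁ w t₂ v T₁ Q T₂ P :=
  ⟨h.c1, h.cQ, h.c2, h.cP, h.m1, h.mw, h.m2, h.mv, h.d1Q, h.d12, h.d1P, h.d2Q.symm, h.dPQ.symm,
    h.dP2.symm, Tou.symm h.tQ1, Tou.symm h.t2Q, Tou.symm h.tP2, Tou.symm h.t1P⟩

/-- enlarge the first set -/
theorem add (hV : SpecVCS) {t₁ v t₂ w : α} {T₁ P T₂ Q : Finset α}
    (h : C4M N t₁ v t₂ w T₁ P T₂ Q) {u z : α} (hu : u ∈ T₁) (huz : N.Adj u z) (hP : z ∉ P)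
    (h2 : z ∉ T₂) (hQ : z ∉ Q) : C4M N t₁ v t₂ w (insert z T₁) P T₂ Q :=
  ⟨hV.ins h.c1 hu huz, h.cP, h.c2, h.cQ, mem_insert_of_mem h.m1, h.mv, h.m2, h.mw,
    disjoint_insert_left.2 ⟨hP, h.d1P⟩, disjoint_insert_left.2 ⟨h2, h.d12⟩,
    disjoint_insert_left.2 ⟨hQ, h.d1Q⟩, h.dP2, h.dPQ, h.d2Q,
    Tou.mono h.t1P (subset_insert _ _) subset_rfl, h.tP2, h.t2Q,
    Tou.mono h.tQ1 subset_rfl (subset_insert _ _)⟩

theorem nb1 (hV : SpecVCS) {S S' : Finset α} (hS : CSet N S) (ht : Tou N S S') {x : α}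
    (hx : x ∈ S) : ∃ y, N.Adj x y := by
  by_cases h : 2 ≤ S.card
  · obtain ⟨y, -, -, h⟩ := hV.nbr hS hx h
    exact ⟨y, h⟩
  · obtain ⟨x', hx', y, -, h'⟩ := ht
    have : x = x' := card_le_one.1 (by omega) x hx x' hx'
    rw [this]
    exact ⟨y, h'⟩

theorem nb (hV : SpecVCS) {t₁ v t₂ w : α} {T₁ P T₂ Q : Finset α}
    (h : C4M N t₁ v t₂ w T₁ P T₂ Q) {x : α} (hx : x ∈ T₁ ∪ P ∪ T₂ ∪ Q) : ∃ y, N.Adj x y := by
  simp only [mem_union] at hx
  rcases hx with ((hx | hx) | hx) | hx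
  · exact nb1 hV h.c1 h.t1P hx
  · exact nb1 hV h.cP h.tP2 hx
  · exact nb1 hV h.c2 h.t2Q hx
  · exact nb1 hV h.cQ h.tQ1 hx

/-- covering models -/
theorem cover (hV : SpecVCS) {W : Finset α} {t₁ v t₂ w : α}
    (hW : ∀ x y, N.Adj x y → x ∈ W) (hc : ∀ a ∈ W, ∀ b ∈ W, N.Reachable a b) :
    ∀ (n : ℕ) (T₁ P T₂ Q : Finset α), C4M N t₁ v t₂ w T₁ P T₂ Q →
      (W \ (T₁ ∪ P ∪ T₂ ∪ Q)).card = n →
      ∃ T₁' P' T₂' Q', C4M N t₁ v t₂ w T₁' P' T₂' Q' ∧ T₁' ∪ P' ∪ T₂' ∪ Q' = W := by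
  intro n
  induction n with
  | zero =>
    intro T₁ P T₂ Q h h0
    refine ⟨T₁, P, T₂, Q, h, ?_⟩
    rw [card_eq_zero, sdiff_eq_empty_iff_subset] at h0
    refine Subset.antisymm ?_ h0
    intro x hx
    obtain ⟨y, hy⟩ := nb hV h hx
    exact hW x y hy
  | succ n ih =>
    intro T₁ P T₂ Q h h0
    have hne : (W \ (T₁ ∪ P ∪ T₂ ∪ Q)).Nonempty := by rw [← card_pos]; omega
    obtain ⟨y, hy⟩ := hne
    rw [mem_sdiff] at hy
    have h1U : t₁ ∈ T₁ ∪ P ∪ T₂ ∪ Q := by simp [h.m1]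
    have h1W : t₁ ∈ W := by
      obtain ⟨y, hy⟩ := nb hV h h1U
      exact hW _ _ hy
    obtain ⟨u, z, huz, hu, hz⟩ : ∃ u z, N.Adj u z ∧ u ∈ T₁ ∪ P ∪ T₂ ∪ Q ∧
        z ∉ T₁ ∪ P ∪ T₂ ∪ Q := by
      by_contra hc'
      push Not at hc'
      have := mem_of_reachable (X := ((T₁ ∪ P ∪ T₂ ∪ Q : Finset α) : Set α)) (hc t₁ h1W y hy.1)
        (mem_coe.2 h1U) (fun u v huv hu => mem_coe.2 (hc' u v huv (mem_coe.1 hu)))
      exact hy.2 (mem_coe.1 this)
    have hzW : z ∈ W := hW _ _ huz.symm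
    have card : ∀ U : Finset α, U = insert z (T₁ ∪ P ∪ T₂ ∪ Q) → (W \ U).card = n := by
      intro U hU
      rw [hU, sdiff_insert, card_erase_of_mem (mem_sdiff.2 ⟨hzW, hz⟩), h0]
      rfl
    have hz' : z ∉ T₁ ∧ z ∉ P ∧ z ∉ T₂ ∧ z ∉ Q := by
      simp only [mem_union, not_or] at hz
      exact ⟨hz.1.1.1, hz.1.1.2, hz.1.2, hz.2⟩
    obtain ⟨z1, z2, z3, z4⟩ := hz'
    simp only [mem_union] at hu
    rcases hu with ((hu | hu) | hu) | hu
    · refine ih _ _ _ _ (add hV h hu huz z2 z3 z4) (card _ ?_)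
      ext x; simp only [mem_union, mem_insert]; tauto
    · refine ih T₁ (insert z P) T₂ Q (rot (rot (rot (add hV (rot h) hu huz z3 z4 z1)))) (card _ ?_)
      ext x; simp only [mem_union, mem_insert]; tauto
    · refine ih T₁ P (insert z T₂) Q (rot (rot (add hV (rot (rot h)) hu huz z4 z1 z2))) (card _ ?_)
      ext x; simp only [mem_union, mem_insert]; tauto
    · refine ih T₁ P T₂ (insert z Q) (rot (add hV (rot (rot (rot h))) hu huz z1 z2 z3)) (card _ ?_)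
      ext x; simp only [mem_union, mem_insert]; tauto

/-- minimality -/
def Mini (N : SimpleGraph α) (t₁ v t₂ w : α) (T₁ P T₂ Q : Finset α) : Prop :=
  ∀ T₁' P' T₂' Q', C4M N t₁ v t₂ w T₁' P' T₂' Q' →
    T₁' ∪ P' ∪ T₂' ∪ Q' = T₁ ∪ P ∪ T₂ ∪ Q → T₁.card + T₂.card ≤ T₁'.card + T₂'.card

theorem Mini.rfl {t₁ v t₂ w : α} {T₁ P T₂ Q : Finset α} (h : Mini N t₁ v t₂ w T₁ P T₂ Q) :
    Mini N t₁ w t₂ v T₁ Q T₂ P := by
  intro T₁' P' T₂' Q' h1 h2
  refine h T₁' Q' T₂' P' (rfl' h1) ?_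
  ext x
  have := congrArg (x ∈ ·) h2
  simp only [mem_union, eq_iff_iff] at this ⊢
  tauto

theorem Mini.rot2 {t₁ v t₂ w : α} {T₁ P T₂ Q : Finset α} (h : Mini N t₁ v t₂ w T₁ P T₂ Q) :
    Mini N t₂ w t₁ v T₂ Q T₁ P := by
  intro T₁' P' T₂' Q' h1 h2
  have := h T₂' Q' T₁' P' (rot (rot h1)) (by
    ext x
    have := congrArg (x ∈ ·) h2
    simp only [mem_union, eq_iff_iff] at this ⊢
    tauto)
  omega

/-- (a) -/
theorem stepA (hV : SpecVCS) {t₁ v t₂ w : α} {T₁ P T₂ Q : Finset α}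
    (h : C4M N t₁ v t₂ w T₁ P T₂ Q) (hm : Mini N t₁ v t₂ w T₁ P T₂ Q) {D : Finset α} {x y : α}
    (hx : x ∈ T₁) (hxP : ∃ z ∈ P, N.Adj x z) (hxD : x ∈ D) (hDT : D ⊆ T₁) (hrD : t₁ ∉ D)
    (hcD : CSet N D) (hcD' : CSet N (T₁ \ D)) (hy : y ∈ T₁) (hyQ : ∃ z ∈ Q, N.Adj y z) :
    y ∈ D := by
  by_contra hyD
  obtain ⟨z, hz, hxz⟩ := hxP
  obtain ⟨z', hz', hyz⟩ := hyQ
  have dis : ∀ {X : Finset α}, Disjoint T₁ X → Disjoint D X := fun h => h.mono_left hDT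
  have hnew : C4M N t₁ v t₂ w (T₁ \ D) (P ∪ D) T₂ Q := by
    refine ⟨hcD', hV.uni h.cP hcD (Or.inl ⟨z, hz, x, hxD, hxz.symm⟩), h.c2, h.cQ,
      mem_sdiff.2 ⟨h.m1, hrD⟩, mem_union_left _ h.mv, h.m2, h.mw, ?_, ?_, ?_, ?_, ?_, h.d2Q, ?_,
      ?_, h.t2Q, ?_⟩
    · rw [disjoint_union_right]
      exact ⟨h.d1P.mono_left sdiff_subset, sdiff_disjoint⟩
    · exact h.d12.mono_left sdiff_subset
    · exact h.d1Q.mono_left sdiff_subset
    · rw [disjoint_union_left]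
      exact ⟨h.dP2, dis h.d12⟩
    · rw [disjoint_union_left]
      exact ⟨h.dPQ, dis h.d1Q⟩
    · exact Tou.mono (Tou.symm (hV.part h.c1 hDT ⟨x, hxD⟩ ⟨t₁, mem_sdiff.2 ⟨h.m1, hrD⟩⟩))
        subset_rfl subset_union_right
    · exact Tou.mono h.tP2 subset_union_left subset_rfl
    · exact ⟨z', hz', y, mem_sdiff.2 ⟨hy, hyD⟩, hyz.symm⟩
  have h1 := hm _ _ _ _ hnew (by
    ext a
    have := @hDT a
    simp only [mem_union, mem_sdiff]
    tauto)
  have h2 : (T₁ \ D).card < T₁.card :=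
    card_lt_card ⟨sdiff_subset, fun hs => (mem_sdiff.1 (hs hx)).2 hxD⟩
  omega

/-- (b) -/
theorem stepB (hV : SpecVCS) {t₁ v t₂ w : α} {T₁ P T₂ Q : Finset α}
    (h : C4M N t₁ v t₂ w T₁ P T₂ Q) (hm : Mini N t₁ v t₂ w T₁ P T₂ Q) :
    ∃ s ∈ T₁, ∀ x ∈ T₁, ∀ z ∈ P ∪ Q, N.Adj x z → x = s := by
  obtain ⟨D, hD, anti⟩ := hV.dsc h.c1 h.m1
  have a1 : ∀ x ∈ T₁, x ≠ t₁ → (∃ z ∈ P, N.Adj x z) → ∀ y ∈ T₁, (∃ z ∈ Q, N.Adj y z) →
      y ∈ D x := by
    intro x hx hxt hxP y hy hyQ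
    obtain ⟨d1, d2, d3, d4, d5⟩ := hD x hx hxt
    exact stepA hV h hm hx hxP d1 d2 d3 d4 d5 hy hyQ
  have a2 : ∀ x ∈ T₁, x ≠ t₁ → (∃ z ∈ Q, N.Adj x z) → ∀ y ∈ T₁, (∃ z ∈ P, N.Adj y z) →
      y ∈ D x := by
    intro x hx hxt hxP y hy hyQ
    obtain ⟨d1, d2, d3, d4, d5⟩ := hD x hx hxt
    exact stepA hV (rfl' h) hm.rfl hx hxP d1 d2 d3 d4 d5 hy hyQ
  have hr : ∀ x ∈ T₁, x ≠ t₁ → t₁ ∉ D x := fun x hx hxt => (hD x hx hxt).2.2.1
  have b : ∀ x ∈ T₁, x ≠ t₁ → (∃ z ∈ P, N.Adj x z) → ∀ y ∈ T₁, (∃ z ∈ Q, N.Adj y z) →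
      x = y := by
    intro x hx hxt hxP y hy hyQ
    have h1 := a1 x hx hxt hxP y hy hyQ
    have hyt : y ≠ t₁ := fun e => hr x hx hxt (e ▸ h1)
    have h2 := a2 y hy hyt hyQ x hx hxP
    exact anti x hx y hy hxt hyt h1 h2
  obtain ⟨p, hp, p', hp', hpp⟩ := h.t1P
  obtain ⟨q', hq', q, hq, hqq⟩ := h.tQ1
  by_cases hpt : p = t₁
  · refine ⟨t₁, h.m1, fun x hx z hz hxz => ?_⟩
    by_contra hxt
    rcases mem_union.1 hz with hz | hz
    · -- `x ∈ C_P`, `x ≠ t₁`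
      have h1 := b x hx hxt ⟨z, hz, hxz⟩ q hq ⟨q', hq', hqq.symm⟩
      have h2 := a2 q hq (h1 ▸ hxt) ⟨q', hq', hqq.symm⟩ p hp ⟨p', hp', hpp⟩
      rw [hpt] at h2
      exact hr q hq (h1 ▸ hxt) h2
    · have h2 := a2 x hx hxt ⟨z, hz, hxz⟩ p hp ⟨p', hp', hpp⟩
      rw [hpt] at h2
      exact hr x hx hxt h2
  · refine ⟨p, hp, fun x hx z hz hxz => ?_⟩
    have hpq : p = q := b p hp hpt ⟨p', hp', hpp⟩ q hq ⟨q', hq', hqq.symm⟩
    rcases mem_union.1 hz with hz | hz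
    · have hqt : q ≠ t₁ := hpq ▸ hpt
      have h2 := a2 q hq hqt ⟨q', hq', hqq.symm⟩ x hx ⟨z, hz, hxz⟩
      have hxt : x ≠ t₁ := fun e => hr q hq hqt (e ▸ h2)
      exact (b x hx hxt ⟨z, hz, hxz⟩ q hq ⟨q', hq', hqq.symm⟩).trans hpq.symm
    · exact (b p hp hpt ⟨p', hp', hpp⟩ x hx ⟨z, hz, hxz⟩).symm

/-- (c) -/
theorem stepC {t₁ t₂ t₃ v w : α} {T₁ P T₂ Q : Finset α} (hcon : ConnOff R {t₁, t₂, t₃})
    (hd1 : 4 ≤ dg R t₁) (h : C4M (del R {t₃}) t₁ v t₂ w T₁ P T₂ Q)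
    (hU : T₁ ∪ P ∪ T₂ ∪ Q = VS R \ {t₃}) {s₁ s₂ : α} (hs₁ : s₁ ∈ T₁) (hs₂ : s₂ ∈ T₂)
    (h1 : ∀ x ∈ T₁, ∀ z ∈ P ∪ Q, (del R {t₃}).Adj x z → x = s₁)
    (hc : ((T₁ ∪ T₂) \ {s₁, s₂}).card ≤ 1) : ∀ l ∈ T₁, l = s₁ := by
  intro l hl
  by_contra hls
  have hnot : ∀ {a b : α}, a ∈ T₁ → b ∈ T₂ → a ≠ b := fun ha hb e =>
    Finset.disjoint_left.1 h.d12 ha (e ▸ hb)
  have hmem : l ∈ (T₁ ∪ T₂) \ {s₁, s₂} := by
    simp only [mem_sdiff, mem_union, mem_insert, mem_singleton, not_or]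
    exact ⟨Or.inl hl, hls, hnot hl hs₂⟩
  have hT1 : ∀ x ∈ T₁, x = s₁ ∨ x = l := by
    intro x hx
    by_contra hc'
    rw [not_or] at hc'
    refine hc'.2 (card_le_one.1 hc x ?_ l hmem)
    simp only [mem_sdiff, mem_union, mem_insert, mem_singleton, not_or]
    exact ⟨Or.inl hx, hc'.1, hnot hx hs₂⟩
  have hT2 : ∀ x ∈ T₂, x = s₂ := by
    intro x hx
    by_contra hc'
    refine hnot hl hx (card_le_one.1 hc l hmem x ?_)
    simp only [mem_sdiff, mem_union, mem_insert, mem_singleton, not_or]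
    exact ⟨Or.inr hx, fun e => hnot hs₁ hx e.symm, hc'⟩
  have hst2 : s₂ = t₂ := (hT2 t₂ h.m2).symm
  have hU3 : ∀ x ∈ T₁ ∪ P ∪ T₂ ∪ Q, x ≠ t₃ ∧ x ∈ VS R := by
    intro x hx
    rw [hU, mem_sdiff, mem_singleton] at hx
    exact ⟨hx.2, hx.1⟩
  have hl3 := hU3 l (by simp [hl])
  -- neighbours of `l`
  have hln : ∀ z, R.Adj l z → z = s₁ ∨ z = t₂ ∨ z = t₃ := by
    intro z hz
    by_cases hz3 : z = t₃
    · exact Or.inr (Or.inr hz3)
    have hzN : (del R {t₃}).Adj l z := ⟨hz, by simpa using hl3.1, by simpa using hz3⟩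
    have hzU : z ∈ T₁ ∪ P ∪ T₂ ∪ Q := by
      rw [hU, mem_sdiff, mem_singleton]
      exact ⟨right_mem_VS hz, hz3⟩
    simp only [mem_union] at hzU
    rcases hzU with ((hzU | hzU) | hzU) | hzU
    · rcases hT1 z hzU with h | h
      · exact Or.inl h
      · exact absurd h hz.ne'
    · exact absurd (h1 l hl z (mem_union_left _ hzU) hzN) hls
    · exact Or.inr (Or.inl ((hT2 z hzU).trans hst2))
    · exact absurd (h1 l hl z (mem_union_right _ hzU) hzN) hls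
  by_cases hlt : l = t₁
  · subst hlt
    have hsub : NB R {l} ⊆ {s₁, t₂, t₃} := by
      intro z hz
      unfold NB at hz
      simp only [mem_filter, mem_univ, true_and, mem_singleton, exists_eq_left] at hz
      simpa using hln z hz.2
    have := (card_le_card hsub).trans card_le_three
    unfold dg at hd1
    omega
  · have hs1t : s₁ = t₁ := by
      rcases hT1 t₁ h.m1 with h | h
      · exact h.symm
      · exact absurd h.symm hlt
    have hv3 := hU3 v (by simp [h.mv])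
    have hvl : l ≠ v := fun e => Finset.disjoint_left.1 h.d1P hl (e ▸ h.mv)
    have hl2 : l ≠ t₂ := hnot hl h.m2
    have hv1 : v ≠ t₁ := fun e => Finset.disjoint_left.1 h.d1P h.m1 (e ▸ h.mv)
    have hv2 : v ≠ t₂ := fun e => Finset.disjoint_left.1 h.dP2 h.mv (e ▸ h.m2)
    have hr := hcon l hl3.2 v hv3.2 (by simp [hlt, hl2, hl3.1]) (by simp [hv1, hv2, hv3.1])
    obtain ⟨u, hu⟩ := exists_adj_of_reachable hr hvl
    have hu3 := hu.2.2
    simp only [mem_insert, mem_singleton, not_or] at hu3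
    rcases hln u hu.1 with e | e | e
    · exact hu3.1 (e.trans hs1t)
    · exact hu3.2.1 e
    · exact hu3.2.2 e

theorem cset_mono {S : Finset α} (h : CSet N S) (hN : N ≤ R) : CSet R S :=
  ⟨h.1, fun u hu v hv => (h.2 u hu v hv).mono (del_mono_graph hN _)⟩

end VHPM

open VHPM in
theorem specVHP (hV : SpecVCS) : SpecVHP := by
  intro α _ _ R t₁ t₂ t₃ v w T₁ P T₂ Q hC1 hT hcon hd1 hd2 h0
  have hN : del R {t₃} ≤ R := del_le _ _
  have hW : ∀ x y, (del R {t₃}).Adj x y → x ∈ VS R \ {t₃} := fun x y hxy =>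
    mem_sdiff.2 ⟨left_mem_VS hxy.1, hxy.2.1⟩
  have hc : ∀ a ∈ VS R \ {t₃}, ∀ b ∈ VS R \ {t₃}, (del R {t₃}).Reachable a b := by
    intro a ha b hb
    rw [mem_sdiff] at ha hb
    exact hC1.1.reach (by simp) ha.1 hb.1 ha.2 hb.2
  obtain ⟨T₁', P', T₂', Q', h', hU'⟩ := cover hV hW hc _ T₁ P T₂ Q h0 rfl
  -- a minimal one
  have hex : ∃ n, ∃ T₁ P T₂ Q : Finset α, C4M (del R {t₃}) t₁ v t₂ w T₁ P T₂ Q ∧
      T₁ ∪ P ∪ T₂ ∪ Q = VS R \ {t₃} ∧ T₁.card + T₂.card = n := ⟨_, T₁', P', T₂', Q', h', hU', rfl⟩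
  classical
  obtain ⟨T₁, P, T₂, Q, h, hU, hn⟩ := Nat.find_spec hex
  have hm : Mini (del R {t₃}) t₁ v t₂ w T₁ P T₂ Q := by
    intro A B C D hA hAU
    rw [hn]
    exact Nat.find_min' hex ⟨A, B, C, D, hA, hAU.trans hU, rfl⟩
  obtain ⟨s₁, hs₁, h1⟩ := stepB hV h hm
  obtain ⟨s₂, hs₂, h2⟩ := stepB hV (rot (rot h)) hm.rot2
  have hU3 : ∀ x ∈ T₁ ∪ P ∪ T₂ ∪ Q, x ≠ t₃ ∧ x ∈ VS R := by
    intro x hx
    rw [hU, mem_sdiff, mem_singleton] at hx
    exact ⟨hx.2, hx.1⟩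
  have h12 : s₁ ≠ s₂ := fun e => Finset.disjoint_left.1 h.d12 hs₁ (e ▸ hs₂)
  have h13 : s₁ ≠ t₃ := (hU3 s₁ (by simp [hs₁])).1
  have h23 : s₂ ≠ t₃ := (hU3 s₂ (by simp [hs₂])).1
  have ht3 : t₃ ∈ VS R := right_mem_VS hT.2.1
  have hsep : Sep R {s₁, s₂, t₃} (P ∪ Q) ((T₁ ∪ T₂) \ {s₁, s₂}) := by
    have dPQ1 : ∀ x ∈ P ∪ Q, x ∉ T₁ ∧ x ∉ T₂ := by
      intro x hx
      rcases mem_union.1 hx with hx | hx
      · exact ⟨fun h' => Finset.disjoint_left.1 h.d1P h' hx,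
          fun h' => Finset.disjoint_left.1 h.dP2 hx h'⟩
      · exact ⟨fun h' => Finset.disjoint_left.1 h.d1Q h' hx,
          fun h' => Finset.disjoint_left.1 h.d2Q h' hx⟩
    refine ⟨?_, ?_, ?_, ?_, ?_⟩
    · ext x
      have hx := congrArg (x ∈ ·) hU
      simp only [mem_union, mem_sdiff, mem_singleton, eq_iff_iff] at hx
      simp only [mem_union, mem_sdiff, mem_insert, mem_singleton]
      by_cases e1 : x = s₁
      · subst e1
        have := (hU3 x (by simp [hs₁])).2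
        tauto
      by_cases e2 : x = s₂
      · subst e2
        have := (hU3 x (by simp [hs₂])).2
        tauto
      by_cases e3 : x = t₃
      · subst e3
        tauto
      tauto
    · rw [Finset.disjoint_left]
      intro x hx hx'
      have h3 := dPQ1 x hx'
      simp only [mem_insert, mem_singleton] at hx
      rcases hx with rfl | rfl | rfl
      · exact h3.1 hs₁
      · exact h3.2 hs₂
      · refine (hU3 x ?_).1 rfl
        simp only [mem_union] at hx' ⊢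
        tauto
    · rw [Finset.disjoint_left]
      intro x hx hx'
      simp only [mem_sdiff, mem_union, mem_insert, mem_singleton, not_or] at hx hx'
      rcases hx with rfl | rfl | rfl
      · exact hx'.2.1 rfl
      · exact hx'.2.2 rfl
      · refine (hU3 x ?_).1 rfl
        simp only [mem_union]
        tauto
    · rw [Finset.disjoint_left]
      intro x hx hx'
      have h3 := dPQ1 x hx
      simp only [mem_sdiff, mem_union] at hx'
      tauto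
    · intro a ha b hb hab
      simp only [mem_sdiff, mem_union, mem_insert, mem_singleton, not_or] at hb
      have ha3 : a ≠ t₃ := (hU3 a (by simp only [mem_union] at ha ⊢; tauto)).1
      have hb3 : b ≠ t₃ := (hU3 b (by simp only [mem_union]; tauto)).1
      have hN' : (del R {t₃}).Adj b a := ⟨hab.symm, by simpa using hb3, by simpa using ha3⟩
      rcases hb.1 with hb1 | hb1
      · exact hb.2.1 (h1 b hb1 a ha hN')
      · exact hb.2.2 (h2 b hb1 a (by rw [union_comm]; exact ha) hN')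
  have hc3 : ({s₁, s₂, t₃} : Finset α).card = 3 := card_eq_three.2 ⟨_, _, _, h12, h13, h23, rfl⟩
  have hPQ : 2 ≤ (P ∪ Q).card := by
    have : 1 < (P ∪ Q).card := one_lt_card.2 ⟨v, by simp [h.mv], w, by simp [h.mw],
      fun e => Finset.disjoint_left.1 h.dPQ h.mv (e ▸ h.mw)⟩
    exact this
  have hle : ((T₁ ∪ T₂) \ {s₁, s₂}).card ≤ 1 := by
    rcases hC1.2 _ _ _ hsep hc3 with h | h
    · omega
    · exact h
  have e1 : ∀ l ∈ T₁, l = s₁ := stepC hcon hd1 h hU hs₁ hs₂ h1 hle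
  have e2 : ∀ l ∈ T₂, l = s₂ := by
    refine stepC (t₁ := t₂) (t₂ := t₁) (by rw [Finset.insert_comm]; exact hcon) hd2 (rot (rot h)) ?_ hs₂ hs₁
      h2 ?_
    · rw [← hU]
      ext x
      simp only [mem_union]
      tauto
    · rw [union_comm, pair_comm]
      exact hle
  have f1 : T₁ = {t₁} := by
    ext x
    rw [mem_singleton]
    exact ⟨fun hx => (e1 x hx).trans (e1 t₁ h.m1).symm, fun e => e ▸ h.m1⟩
  have f2 : T₂ = {t₂} := by
    ext x
    rw [mem_singleton]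
    exact ⟨fun hx => (e2 x hx).trans (e2 t₂ h.m2).symm, fun e => e ▸ h.m2⟩
  subst f1 f2
  have tm : ∀ {X Y : Finset α}, Tou (del R {t₃}) X Y → Tou R X Y := by
    rintro X Y ⟨x, hx, y, hy, hxy⟩
    exact ⟨x, hx, y, hy, hxy.1⟩
  refine ⟨P, Q, ⟨cset_mono h.cP hN, cset_mono h.cQ hN, ?_, h.dPQ, tm h.t1P, tm (Tou.symm h.tP2),
    tm (Tou.symm h.tQ1), tm h.t2Q⟩, h.mv, h.mw⟩
  ext x
  have hx := congrArg (x ∈ ·) hU
  simp only [mem_union, mem_sdiff, mem_singleton, eq_iff_iff] at hx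
  simp only [mem_union, mem_sdiff, mem_insert, mem_singleton, not_or]
  have p1 : x ∈ P → x ≠ t₁ := fun hx e =>
    Finset.disjoint_left.1 h.d1P (mem_singleton_self t₁) (e ▸ hx)
  have p2 : x ∈ P → x ≠ t₂ := fun hx e =>
    Finset.disjoint_right.1 h.dP2 (mem_singleton_self t₂) (e ▸ hx)
  have q1 : x ∈ Q → x ≠ t₁ := fun hx e =>
    Finset.disjoint_left.1 h.d1Q (mem_singleton_self t₁) (e ▸ hx)
  have q2 : x ∈ Q → x ≠ t₂ := fun hx e =>
    Finset.disjoint_left.1 h.d2Q (mem_singleton_self t₂) (e ▸ hx)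
  tauto

end DL
end

section
/-!
# MP_3ff0f8_gt, algebra half, Step Y, module VK2 (helper57): the two cycles of VKQ are cycles of linkages
-/
set_option autoImplicit false

open SimpleGraph Finset

namespace DL

namespace VK2M

variable {α : Type} [Fintype α] [DecidableEq α] {R G : SimpleGraph α} {t₁ t₂ t₃ v w : α}

/-- a set closed under the edges of a path -/
theorem closed {s t : α} {P : Finset (Sym2 α)} {X : Finset α} (h : IsPth G s t P) (hs : s ∈ X)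
    (hE : ∀ x y, s(x, y) ∈ P → x ∈ X → y ∈ X) : vs P ⊆ X := by
  obtain ⟨w, -, rfl⟩ := h
  have key : ∀ x ∈ w.support, x ∈ X := by
    have hE' : ∀ x y, s(x, y) ∈ w.edges → x ∈ X → y ∈ X :=
      fun x y h => hE x y (List.mem_toFinset.2 h)
    clear hE
    induction w with
    | nil =>
      intro x hx
      rw [Walk.support_nil, List.mem_singleton] at hx
      exact hx ▸ hs
    | @cons u v w' huv p ih =>
      intro x hx
      rw [Walk.support_cons, List.mem_cons] at hx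
      rcases hx with rfl | hx
      · exact hs
      · refine ih (hE' u v (by rw [Walk.edges_cons]; exact List.mem_cons_self) hs) ?_ x hx
        intro a b hab
        exact hE' a b (by rw [Walk.edges_cons]; exact List.mem_cons_of_mem _ hab)
  intro x hx
  exact key x ((mem_support_iff_vs w x).2 (Or.inr hx))

theorem key (hVLC : SpecVLC) (hT : Trg R t₁ t₂ t₃) (hv1 : v ≠ t₁) (hw2 : w ≠ t₂)
    {X Y : Finset α} (hd : Disjoint X Y) (h1 : t₁ ∈ X) (hv : v ∈ X) (h2 : t₂ ∈ Y) (hw : w ∈ Y)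
    {C : Finset (Sym2 α)} (hC : IsCyc R C) (h12 : s(t₁, t₂) ∈ C) (h3v : s(t₃, v) ∈ C)
    (h3w : s(t₃, w) ∈ C)
    (hE : ∀ x y, s(x, y) ∈ C → s(x, y) ≠ s(t₁, t₂) → x ≠ t₃ → y ≠ t₃ →
      (x ∈ X ∧ y ∈ X) ∨ (x ∈ Y ∧ y ∈ Y)) :
    ∃ A B, LNK R t₁ t₂ t₃ v w A B ∧ vs A ⊆ X ∧ vs B ⊆ Y ∧ C = c4c t₁ t₂ t₃ v w A B := by
  have hXY : ∀ x, x ∈ X → x ∉ Y := fun x hx hy => disjoint_left.1 hd hx hy
  have hvw : v ≠ w := fun h => hXY v hv (h ▸ hw)
  have e13 : s(t₁, t₃) ∉ C := by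
    intro h
    rw [Sym2.eq_swap] at h
    rcases hC.eq_or_eq h3v h3w hvw h with h | h
    · exact hv1 h.symm
    · exact hXY t₁ h1 (h ▸ hw)
  have e23 : s(t₂, t₃) ∉ C := by
    intro h
    rw [Sym2.eq_swap] at h
    rcases hC.eq_or_eq h3v h3w hvw h with h | h
    · exact hXY v hv (h ▸ h2)
    · exact hw2 h.symm
  obtain ⟨v', w', A, B, hL, hCe⟩ := hVLC.dec hT hC h12 e13 e23 (left_mem_vs h3v)
  have hne := (hVLC.ne hL).1
  have hv' : s(t₃, v') ∈ C := by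
    rw [hCe, c4c]; exact mem_insert_of_mem (mem_insert_self _ _)
  have hw' : s(t₃, w') ∈ C := by
    rw [hCe, c4c]; exact mem_insert_of_mem (mem_insert_of_mem (mem_insert_self _ _))
  have hAC : A ⊆ C := by
    rw [hCe, c4c]
    intro e he
    exact mem_insert_of_mem (mem_insert_of_mem (mem_insert_of_mem (mem_union_left _ he)))
  have hBC : B ⊆ C := by
    rw [hCe, c4c]
    intro e he
    exact mem_insert_of_mem (mem_insert_of_mem (mem_insert_of_mem (mem_union_right _ he)))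
  have hAX : vs A ⊆ X := by
    refine closed hL.pA h1 ?_
    intro x y hxy hx
    have h3 := hL.pA.adj_of_mem hxy
    have h4 : R.Adj x y ∧ x ∉ ({t₂, t₃} : Finset α) ∧ y ∉ ({t₂, t₃} : Finset α) := h3
    simp only [mem_insert, mem_singleton, not_or] at h4
    have h5 : s(x, y) ≠ s(t₁, t₂) := by
      intro h
      have : t₂ ∈ s(x, y) := h ▸ Sym2.mem_mk_right _ _
      rw [Sym2.mem_iff] at this
      rcases this with h | h
      · exact h4.2.1.1 h.symm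
      · exact h4.2.2.1 h.symm
    rcases hE x y (hAC hxy) h5 h4.2.1.2 h4.2.2.2 with h | h
    · exact h.2
    · exact absurd h.1 (hXY x hx)
  have hBY : vs B ⊆ Y := by
    refine closed hL.pB h2 ?_
    intro x y hxy hx
    have h3 := hL.pB.adj_of_mem hxy
    have h4 : R.Adj x y ∧ x ∉ ({t₁, t₃} : Finset α) ∧ y ∉ ({t₁, t₃} : Finset α) := h3
    simp only [mem_insert, mem_singleton, not_or] at h4
    have h5 : s(x, y) ≠ s(t₁, t₂) := by
      intro h
      have : t₁ ∈ s(x, y) := h ▸ Sym2.mem_mk_left _ _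
      rw [Sym2.mem_iff] at this
      rcases this with h | h
      · exact h4.2.1.1 h.symm
      · exact h4.2.2.1 h.symm
    rcases hE x y (hBC hxy) h5 h4.2.1.2 h4.2.2.2 with h | h
    · exact absurd hx (hXY x h.1)
    · exact h.2
  obtain ⟨-, -, hvA, -, hwB⟩ := hVLC.ne hL
  have ev : v' = v := by
    rcases hC.eq_or_eq h3v h3w hvw hv' with h | h
    · exact h
    · exact absurd hw (hXY w (h ▸ hAX hvA))
  have ew : w' = w := by
    rcases hC.eq_or_eq h3v h3w hvw hw' with h | h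
    · exact absurd (h ▸ hBY hwB) (hXY v hv)
    · exact h
  subst ev
  subst ew
  exact ⟨A, B, hL, hAX, hBY, hCe⟩

end VK2M

/-- **VK2.** -/
theorem specVK2 (hVKQ : SpecVKQ) (hVLC : SpecVLC) : SpecVK2 := by
  intro α _ _ R t₁ t₂ t₃ v w ψ L A B hT hv hw hv1 hw2 hF hIV hH
  obtain ⟨C₁, C₂, hC₁, hC₂, he, ⟨a1, a2, a3, a4⟩, ⟨b1, b2, b3, b4⟩⟩ :=
    hVKQ hT hv hw hF hIV hH
  have m0 : t₁ ∈ L 0 := hH.m 0
  have m1 : v ∈ L 1 := hH.m 1
  have m2 : t₂ ∈ L 2 := hH.m 2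
  have m3 : w ∈ L 3 := hH.m 3
  have hd1 : Disjoint (L 0 ∪ A ∪ L 1) (L 2 ∪ B ∪ L 3) := by
    simp only [disjoint_union_left, disjoint_union_right]
    exact ⟨⟨⟨⟨hH.dL 0 2 (by decide), (hH.dA 2).symm⟩, hH.dL 1 2 (by decide)⟩,
      ⟨⟨hH.dB 0, hH.dAB⟩, hH.dB 1⟩⟩, ⟨⟨hH.dL 0 3 (by decide), (hH.dA 3).symm⟩,
      hH.dL 1 3 (by decide)⟩⟩
  have hd2 : Disjoint (L 0 ∪ B ∪ L 1) (L 2 ∪ A ∪ L 3) := by
    simp only [disjoint_union_left, disjoint_union_right]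
    exact ⟨⟨⟨⟨hH.dL 0 2 (by decide), (hH.dB 2).symm⟩, hH.dL 1 2 (by decide)⟩,
      ⟨⟨hH.dA 0, hH.dAB.symm⟩, hH.dA 1⟩⟩, ⟨⟨hH.dL 0 3 (by decide), (hH.dB 3).symm⟩,
      hH.dL 1 3 (by decide)⟩⟩
  obtain ⟨A₁, B₁, c1, c2, c3, c4⟩ := VK2M.key hVLC hT hv1 hw2 hd1
    (mem_union_left _ (mem_union_left _ m0)) (mem_union_right _ m1)
    (mem_union_left _ (mem_union_left _ m2)) (mem_union_right _ m3) hC₁ a1 a2 a3 a4
  obtain ⟨A₂, B₂, d1, d2, d3, d4⟩ := VK2M.key hVLC hT hv1 hw2 hd2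
    (mem_union_left _ (mem_union_left _ m0)) (mem_union_right _ m1)
    (mem_union_left _ (mem_union_left _ m2)) (mem_union_right _ m3) hC₂ b1 b2 b3 b4
  exact ⟨A₁, B₁, A₂, B₂, c1, d1, c2, c3, d2, d3, by rw [← c4, ← d4, he]⟩

end DL
end

section
set_option autoImplicit false

/-!
# VKQ: a `K_{3,4}` in `R` with the hubs `A`, `B`, `{t₃}`
-/

open SimpleGraph Finset

namespace DL

namespace VKQM

theorem K7.symm {i j : Fin 7} (h : K7 i j) : K7 j i := by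
  unfold K7 at *
  tauto

theorem K7.ne {i j : Fin 7} (h : K7 i j) : i ≠ j := by
  rintro rfl
  unfold K7 at h
  omega

/-- a closed path with seven different vertices -/
theorem cyc7 {α : Type} [Fintype α] [DecidableEq α] {G : SimpleGraph α} {b0 b1 b2 b3 b4 b5 b6 : α}
    (nd : [b0, b1, b2, b3, b4, b5, b6].Nodup) (h0 : G.Adj b0 b1) (h1 : G.Adj b1 b2)
    (h2 : G.Adj b2 b3) (h3 : G.Adj b3 b4) (h4 : G.Adj b4 b5) (h5 : G.Adj b5 b6) (h6 : G.Adj b0 b6) :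
    IsCyc G {s(b0, b1), s(b1, b2), s(b2, b3), s(b3, b4), s(b4, b5), s(b5, b6), s(b0, b6)} := by
  simp only [List.nodup_cons, List.mem_cons, not_or, List.not_mem_nil, not_false_eq_true,
    List.nodup_nil, and_true] at nd
  obtain ⟨⟨n01, n02, n03, n04, n05, n06⟩, ⟨n12, n13, n14, n15, n16⟩, ⟨n23, n24, n25, n26⟩,
    ⟨n34, n35, n36⟩, ⟨n45, n46⟩, n56⟩ := nd
  have p5 := IsPth.edge h5
  have p4 := p5.cons h4 (by
    simp only [vs_singleton, mem_insert, mem_singleton, not_or]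
    exact ⟨n45, n46⟩)
  have p3 := p4.cons h3 (by
    simp only [vs_insert, vs_singleton, mem_union, mem_insert, mem_singleton, not_or]
    exact ⟨⟨n34, n35⟩, n35, n36⟩)
  have p2 := p3.cons h2 (by
    simp only [vs_insert, vs_singleton, mem_union, mem_insert, mem_singleton, not_or]
    exact ⟨⟨n23, n24⟩, ⟨n24, n25⟩, n25, n26⟩)
  have p1 := p2.cons h1 (by
    simp only [vs_insert, vs_singleton, mem_union, mem_insert, mem_singleton, not_or]
    exact ⟨⟨n12, n13⟩, ⟨n13, n14⟩, ⟨n14, n15⟩, n15, n16⟩)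
  have p0 := p1.cons h0 (by
    simp only [vs_insert, vs_singleton, mem_union, mem_insert, mem_singleton, not_or]
    exact ⟨⟨n01, n02⟩, ⟨n02, n03⟩, ⟨n03, n04⟩, ⟨n04, n05⟩, n05, n06⟩)
  have hc := p0.isCyc h6 (by
    simp only [mem_insert, mem_singleton, Sym2.eq_iff, not_or, not_and_or]
    exact ⟨⟨Or.inr (Ne.symm n16), Or.inl n01⟩, ⟨Or.inl n01, Or.inl n02⟩, ⟨Or.inl n02, Or.inl n03⟩,
      ⟨Or.inl n03, Or.inl n04⟩, ⟨Or.inl n04, Or.inl n05⟩, ⟨Or.inl n05, Or.inl n06⟩⟩)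
  convert hc using 1
  ext e
  simp only [mem_insert, mem_singleton]
  tauto

/-- seven disjoint trees and the edges of `K_{3,4}` + `02` between them -/
structure KM {α : Type} [Fintype α] [DecidableEq α] (R : SimpleGraph α) (a : Fin 7 → α)
    (X : Fin 7 → Finset α) (T : Fin 7 → SimpleGraph α) (p : Fin 7 → Fin 7 → α) : Prop where
  dis : ∀ i j, i ≠ j → Disjoint (X i) (X j)
  tree : ∀ i, TreeOn (T i) (X i)
  sub : ∀ i, T i ≤ R
  ma : ∀ i, a i ∈ X i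
  mp : ∀ i j, p i j ∈ X i
  adj : ∀ i j, K7 i j → R.Adj (p i j) (p j i)

/-- the graph of the trees and the edges between them -/
def G0 {α : Type} (T : Fin 7 → SimpleGraph α) (p : Fin 7 → Fin 7 → α) : SimpleGraph α where
  Adj x y := x ≠ y ∧ ((∃ i, (T i).Adj x y) ∨ ∃ i j, K7 i j ∧ x = p i j ∧ y = p j i)
  symm := ⟨fun _ _ h => ⟨h.1.symm, by
    rcases h.2 with ⟨i, hi⟩ | ⟨i, j, h1, h2, h3⟩
    · exact Or.inl ⟨i, hi.symm⟩
    · exact Or.inr ⟨j, i, K7.symm h1, h3, h2⟩⟩⟩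
  loopless := ⟨fun _ h => h.1 rfl⟩

open Classical in
/-- the contraction -/
noncomputable def cc {α : Type} (a : Fin 7 → α) (X : Fin 7 → Finset α) (x : α) : α :=
  if h : ∃ i, x ∈ X i then a h.choose else x

variable {α : Type} [Fintype α] [DecidableEq α] {R : SimpleGraph α} {a : Fin 7 → α}
  {X : Fin 7 → Finset α} {T : Fin 7 → SimpleGraph α} {p : Fin 7 → Fin 7 → α}

theorem KM.uniq (h : KM R a X T p) {i j : Fin 7} {x : α} (hi : x ∈ X i) (hj : x ∈ X j) : i = j := by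
  by_contra hne
  exact Finset.disjoint_left.1 (h.dis i j hne) hi hj

theorem KM.cc_mem (h : KM R a X T p) {i : Fin 7} {x : α} (hi : x ∈ X i) : cc a X x = a i := by
  have h1 : ∃ i, x ∈ X i := ⟨i, hi⟩
  rw [cc, dif_pos h1, h.uniq h1.choose_spec hi]

omit [Fintype α] [DecidableEq α] in
theorem cc_not {x : α} (hx : ¬ ∃ i, x ∈ X i) : cc a X x = x := by
  rw [cc, dif_neg hx]

theorem KM.inj (h : KM R a X T p) : Function.Injective a := fun i j hij =>
  h.uniq (h.ma i) (hij ▸ h.ma j)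

theorem KM.cca (h : KM R a X T p) (i : Fin 7) : cc a X (a i) = a i := h.cc_mem (h.ma i)

theorem KM.idem (h : KM R a X T p) (x : α) : cc a X (cc a X x) = cc a X x := by
  by_cases hx : ∃ i, x ∈ X i
  · obtain ⟨i, hi⟩ := hx
    rw [h.cc_mem hi, h.cca]
  · rw [cc_not hx, cc_not hx]

theorem KM.p_ne (h : KM R a X T p) {i j : Fin 7} (hij : K7 i j) : p i j ≠ p j i := by
  intro e
  exact K7.ne hij (h.uniq (h.mp i j) (e ▸ h.mp j i))

theorem KM.G0_K (h : KM R a X T p) {i j : Fin 7} (hij : K7 i j) : (G0 T p).Adj (p i j) (p j i) :=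
  ⟨h.p_ne hij, Or.inr ⟨i, j, hij, rfl, rfl⟩⟩

omit [Fintype α] [DecidableEq α] in
theorem T_le (i : Fin 7) : T i ≤ G0 T p := fun _ _ hxy => ⟨hxy.ne, Or.inl ⟨i, hxy⟩⟩

theorem KM.le (h : KM R a X T p) : G0 T p ≤ R := by
  rintro x y ⟨-, ⟨i, hi⟩ | ⟨i, j, hij, rfl, rfl⟩⟩
  · exact h.sub i hi
  · exact h.adj i j hij

/-- edges between different fibres -/
theorem KM.cross (h : KM R a X T p) {x y : α} (hxy : (G0 T p).Adj x y)
    (hc : cc a X x ≠ cc a X y) : ∃ i j, K7 i j ∧ x = p i j ∧ y = p j i := by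
  rcases hxy.2 with ⟨i, hi⟩ | h1
  · exact absurd ((h.cc_mem ((h.tree i).inX _ _ hi)).trans
      (h.cc_mem ((h.tree i).inX _ _ hi.symm)).symm) hc
  · exact h1

/-- edges inside a fibre -/
theorem KM.inside (h : KM R a X T p) {x y : α} {i : Fin 7} (hxy : (G0 T p).Adj x y) (hx : x ∈ X i)
    (hc : cc a X x = cc a X y) : (T i).Adj x y ∧ y ∈ X i := by
  rcases hxy.2 with ⟨j, hj⟩ | ⟨j, k, h1, rfl, rfl⟩
  · have h2 := h.uniq hx ((h.tree j).inX _ _ hj)
    subst h2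
    exact ⟨hj, (h.tree i).inX _ _ hj.symm⟩
  · rw [h.cc_mem (h.mp j k), h.cc_mem (h.mp k j)] at hc
    exact absurd (h.inj hc) (K7.ne h1)

theorem KM.quo_adj (h : KM R a X T p) (x y : α) :
    (quo (G0 T p) (cc a X)).Adj x y ↔ ∃ i j, K7 i j ∧ x = a i ∧ y = a j := by
  constructor
  · rintro ⟨hne, x', y', rfl, rfl, hadj⟩
    obtain ⟨i, j, hij, rfl, rfl⟩ := h.cross hadj hne
    exact ⟨i, j, hij, h.cc_mem (h.mp i j), h.cc_mem (h.mp j i)⟩
  · rintro ⟨i, j, hij, rfl, rfl⟩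
    exact ⟨fun e => K7.ne hij (h.inj e), p i j, p j i, h.cc_mem (h.mp i j), h.cc_mem (h.mp j i),
      h.G0_K hij⟩

theorem KM.acyc (h : KM R a X T p) : (fib (G0 T p) (cc a X)).IsAcyclic := by
  intro v w hw
  -- all vertices of the walk are in the same fibre
  have hv : ∃ i, v ∈ X i := by
    cases w with
    | nil => exact absurd hw Walk.not_isCycle_nil
    | cons hadj q =>
      rcases hadj.1.2 with ⟨j, hj⟩ | ⟨j, k, _, rfl, _⟩
      · exact ⟨j, (h.tree j).inX _ _ hj⟩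
      · exact ⟨j, h.mp j k⟩
  obtain ⟨i, hi⟩ := hv
  have hm : ∀ x ∈ w.support, x ∈ X i := by
    intro x hx
    have hr : (fib (G0 T p) (cc a X)).Reachable v x := ⟨w.takeUntil x hx⟩
    exact mem_of_reachable (X := {x | x ∈ X i}) hr hi fun u u' huu' hu =>
      (h.inside huu'.1 hu huu'.2).2
  have hT : ∀ e ∈ w.edges, e ∈ (T i).edgeSet := by
    intro e he
    induction e using Sym2.ind with
    | _ x y =>
      have h1 : (fib (G0 T p) (cc a X)).Adj x y := w.edges_subset_edgeSet he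
      exact (h.inside h1.1 (hm x (w.fst_mem_support_of_mem_edges he)) h1.2).1
  exact (h.tree i).acyc _ (hw.transfer hT)

theorem KM.reach (h : KM R a X T p) (x : α) :
    (fib (G0 T p) (cc a X)).Reachable x (cc a X x) := by
  by_cases hx : ∃ i, x ∈ X i
  · obtain ⟨i, hi⟩ := hx
    rw [h.cc_mem hi]
    refine ((h.tree i).conn x hi (a i) (h.ma i)).mono ?_
    intro u u' huu'
    exact ⟨T_le i huu', (h.cc_mem ((h.tree i).inX _ _ huu')).trans
      (h.cc_mem ((h.tree i).inX _ _ huu'.symm)).symm⟩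
  · rw [cc_not hx]

theorem KM.unique (h : KM R a X T p) (x y x' y' : α) (h1 : (G0 T p).Adj x y)
    (h2 : (G0 T p).Adj x' y') (h3 : cc a X x = cc a X x') (h4 : cc a X y = cc a X y')
    (h5 : cc a X x ≠ cc a X y) : x = x' ∧ y = y' := by
  obtain ⟨i, j, hij, rfl, rfl⟩ := h.cross h1 h5
  obtain ⟨i', j', hij', rfl, rfl⟩ := h.cross h2 (by rw [← h3, ← h4]; exact h5)
  rw [h.cc_mem (h.mp i j), h.cc_mem (h.mp i' j')] at h3
  rw [h.cc_mem (h.mp j i), h.cc_mem (h.mp j' i')] at h4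
  have e1 := h.inj h3
  have e2 := h.inj h4
  subst e1 e2
  exact ⟨rfl, rfl⟩

/-- a `K7` edge is in `C` iff it is in `D` -/
theorem KM.iffK (h : KM R a X T p) {C D : Finset (Sym2 α)}
    (hCD : ∀ x y, (G0 T p).Adj x y → cc a X x ≠ cc a X y →
      (s(x, y) ∈ C ↔ s(cc a X x, cc a X y) ∈ D)) {i j : Fin 7} (hij : K7 i j) :
    s(p i j, p j i) ∈ C ↔ s(a i, a j) ∈ D := by
  have h1 := hCD _ _ (h.G0_K hij) (by
    rw [h.cc_mem (h.mp i j), h.cc_mem (h.mp j i)]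
    exact fun e => K7.ne hij (h.inj e))
  rwa [h.cc_mem (h.mp i j), h.cc_mem (h.mp j i)] at h1

/-- the edges of the lift of a cycle -/
theorem KM.edges (h : KM R a X T p) {C D : Finset (Sym2 α)} (hC : IsCyc (G0 T p) C)
    (hCD : ∀ x y, (G0 T p).Adj x y → cc a X x ≠ cc a X y →
      (s(x, y) ∈ C ↔ s(cc a X x, cc a X y) ∈ D)) {x y : α} (hxy : s(x, y) ∈ C) :
    (∃ i, x ∈ X i ∧ y ∈ X i) ∨ ∃ i j, K7 i j ∧ x = p i j ∧ y = p j i ∧ s(a i, a j) ∈ D := by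
  have h1 := hC.adj_of_mem hxy
  rcases h1.2 with ⟨i, hi⟩ | ⟨i, j, hij, rfl, rfl⟩
  · exact Or.inl ⟨i, (h.tree i).inX _ _ hi, (h.tree i).inX _ _ hi.symm⟩
  · exact Or.inr ⟨i, j, hij, rfl, rfl, (h.iffK hCD hij).1 hxy⟩

theorem k04 : K7 0 4 := by unfold K7; simp
theorem k14 : K7 1 4 := by unfold K7; simp
theorem k16 : K7 1 6 := by unfold K7; simp
theorem k36 : K7 3 6 := by unfold K7; simp
theorem k35 : K7 3 5 := by unfold K7; simp
theorem k25 : K7 2 5 := by unfold K7; simp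
theorem k05 : K7 0 5 := by unfold K7; simp
theorem k15 : K7 1 5 := by unfold K7; simp
theorem k34 : K7 3 4 := by unfold K7; simp
theorem k24 : K7 2 4 := by unfold K7; simp
theorem k02 : K7 0 2 := by unfold K7; simp
theorem k06 : K7 0 6 := by unfold K7; simp
theorem k26 : K7 2 6 := by unfold K7; simp

/-- the edges of a 7-cycle through `6` and `02`: indices -/
def CB (l : List (Fin 7 × Fin 7)) (P Q : List (Fin 7)) : Prop :=
  ∀ i j : Fin 7, i ≠ 6 → j ≠ 6 → ((i, j) ∈ l ∨ (j, i) ∈ l) →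
    (i = 0 ∧ j = 2) ∨ (i = 2 ∧ j = 0) ∨ (i ∈ P ∧ j ∈ P) ∨ (i ∈ Q ∧ j ∈ Q)

theorem comb1 : CB [(0, 4), (4, 1), (1, 6), (6, 3), (3, 5), (5, 2), (0, 2)] [0, 4, 1] [2, 5, 3] := by
  unfold CB; decide

theorem comb2 : CB [(0, 5), (5, 1), (1, 6), (6, 3), (3, 4), (4, 2), (0, 2)] [0, 5, 1] [2, 4, 3] := by
  unfold CB; decide

omit [Fintype α] in
theorem mem3 {i j k l : Fin 7} {x : α} (h : i ∈ [j, k, l]) (hx : x ∈ X i) :
    x ∈ X j ∪ X k ∪ X l := by
  simp only [List.mem_cons, List.not_mem_nil, or_false] at h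
  simp only [mem_union]
  rcases h with rfl | rfl | rfl
  · exact Or.inl (Or.inl hx)
  · exact Or.inl (Or.inr hx)
  · exact Or.inr hx

theorem KM.fin6 (h : KM R a X T p) {C : Finset (Sym2 α)} {l : List (Fin 7 × Fin 7)}
    {j0 j1 j2 k0 k1 k2 : Fin 7}
    (hC : IsCyc (G0 T p) C)
    (hCD : ∀ x y, (G0 T p).Adj x y → cc a X x ≠ cc a X y →
      (s(x, y) ∈ C ↔ s(cc a X x, cc a X y) ∈ (l.map fun q => s(a q.1, a q.2)).toFinset))
    (h6' : ∀ i, p 6 i = a 6) (h02 : p 0 2 = a 0) (h20 : p 2 0 = a 2) (hX6 : X 6 = {a 6})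
    (hl : CB l [j0, j1, j2] [k0, k1, k2]) (hall : ∀ i, i ≠ 6 → i ∈ [j0, j1, j2] ∨ i ∈ [k0, k1, k2])
    {x y : α} (hxy : s(x, y) ∈ C) (hne : s(x, y) ≠ s(a 0, a 2)) (hx : x ≠ a 6) (hy : y ≠ a 6) :
    (x ∈ X j0 ∪ X j1 ∪ X j2 ∧ y ∈ X j0 ∪ X j1 ∪ X j2) ∨
      (x ∈ X k0 ∪ X k1 ∪ X k2 ∧ y ∈ X k0 ∪ X k1 ∪ X k2) := by
  rcases h.edges hC hCD hxy with ⟨i, hi, hi'⟩ | ⟨i, j, hij, rfl, rfl, hD⟩
  · have hi6 : i ≠ 6 := by
      rintro rfl
      rw [hX6, mem_singleton] at hi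
      exact hx hi
    rcases hall i hi6 with h1 | h1
    · exact Or.inl ⟨mem3 h1 hi, mem3 h1 hi'⟩
    · exact Or.inr ⟨mem3 h1 hi, mem3 h1 hi'⟩
  · have hi6 : i ≠ 6 := by rintro rfl; exact hx (h6' j)
    have hj6 : j ≠ 6 := by rintro rfl; exact hy (h6' i)
    have hin := h.inj
    have h1 : (i, j) ∈ l ∨ (j, i) ∈ l := by
      rw [List.mem_toFinset, List.mem_map] at hD
      obtain ⟨⟨u, v⟩, hq, he⟩ := hD
      simp only [Sym2.eq_iff, hin.eq_iff] at he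
      rcases he with ⟨rfl, rfl⟩ | ⟨rfl, rfl⟩
      · exact Or.inl hq
      · exact Or.inr hq
    rcases hl i j hi6 hj6 h1 with ⟨rfl, rfl⟩ | ⟨rfl, rfl⟩ | ⟨h2, h3⟩ | ⟨h2, h3⟩
    · rw [h02, h20] at hne; exact absurd rfl hne
    · rw [h02, h20] at hne; exact absurd Sym2.eq_swap hne
    · exact Or.inl ⟨mem3 h2 (h.mp _ _), mem3 h3 (h.mp _ _)⟩
    · exact Or.inr ⟨mem3 h2 (h.mp _ _), mem3 h3 (h.mp _ _)⟩

/-- the abstract form -/
theorem core (hVMC : SpecVMC) (hVKR : SpecVKR) (h : KM R a X T p)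
    {ψ : Finset (Sym2 α) → ZMod 2} (hF : InF R ψ) (hIV : IV R (a 0) (a 2) (a 6) ψ)
    (h6 : ∀ i, p i 6 = a i) (h6' : ∀ i, p 6 i = a 6) (h02 : p 0 2 = a 0) (h20 : p 2 0 = a 2)
    (hX6 : X 6 = {a 6}) :
    ∃ C₁ C₂, IsCyc R C₁ ∧ IsCyc R C₂ ∧ ψ C₁ = ψ C₂ ∧
    (s(a 0, a 2) ∈ C₁ ∧ s(a 6, a 1) ∈ C₁ ∧ s(a 6, a 3) ∈ C₁ ∧ ∀ x y, s(x, y) ∈ C₁ →
      s(x, y) ≠ s(a 0, a 2) → x ≠ a 6 → y ≠ a 6 →
      (x ∈ X 0 ∪ X 4 ∪ X 1 ∧ y ∈ X 0 ∪ X 4 ∪ X 1) ∨ (x ∈ X 2 ∪ X 5 ∪ X 3 ∧ y ∈ X 2 ∪ X 5 ∪ X 3)) ∧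
    (s(a 0, a 2) ∈ C₂ ∧ s(a 6, a 1) ∈ C₂ ∧ s(a 6, a 3) ∈ C₂ ∧ ∀ x y, s(x, y) ∈ C₂ →
      s(x, y) ≠ s(a 0, a 2) → x ≠ a 6 → y ≠ a 6 →
      (x ∈ X 0 ∪ X 5 ∪ X 1 ∧ y ∈ X 0 ∪ X 5 ∪ X 1) ∨ (x ∈ X 2 ∪ X 4 ∪ X 3 ∧ y ∈ X 2 ∪ X 4 ∪ X 3)) := by
  have hF0 : InF (G0 T p) ψ := by
    obtain ⟨q, hq, q0, l, hl⟩ := hF
    exact ⟨q, hq, q0, l, fun C hC => hl C (hC.mono h.le)⟩
  obtain ⟨g, hg, hlift⟩ := hVMC h.idem h.acyc h.reach h.unique ψ hF0
  have hsup : ∀ D, IsCyc (quo (G0 T p) (cc a X)) D → g D ≠ 0 →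
      s(a 0, a 2) ∈ D ∧ s(a 0, a 6) ∉ D ∧ s(a 2, a 6) ∉ D ∧ a 6 ∈ vs D := by
    intro D hD hgD
    obtain ⟨C, hC, hgC, hCD⟩ := hlift D hD
    obtain ⟨i1, i2, i3, i4⟩ := hIV C (hC.mono h.le) (by rw [← hgC]; exact hgD)
    have e02 := h.iffK hCD k02
    rw [h02, h20] at e02
    have e06 := h.iffK hCD k06
    rw [h6, h6'] at e06
    have e26 := h.iffK hCD k26
    rw [h6, h6'] at e26
    refine ⟨e02.1 i1, fun hh => i2 (e06.2 hh), fun hh => i3 (e26.2 hh), ?_⟩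
    rw [mem_vs] at i4
    obtain ⟨e, he, hae⟩ := i4
    obtain ⟨y, rfl⟩ := Sym2.mem_iff_exists.1 hae
    rcases h.edges hC hCD he with ⟨i, hi, hi'⟩ | ⟨i, j, hij, hx, -, hD'⟩
    · have : i = 6 := h.uniq hi (h.ma 6)
      subst this
      rw [hX6, mem_singleton] at hi'
      exact absurd hi'.symm (hC.adj_of_mem he).ne
    · have : i = 6 := h.uniq (by rw [hx]; exact h.mp i j) (h.ma 6)
      subst this
      exact left_mem_vs hD'
  have hinj := h.inj
  have hnd : ∀ l : List (Fin 7), l.Nodup → (l.map a).Nodup := fun l hl => hl.map hinj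
  have hadj : ∀ i j, K7 i j → (quo (G0 T p) (cc a X)).Adj (a i) (a j) := fun i j hij =>
    (h.quo_adj _ _).2 ⟨i, j, hij, rfl, rfl⟩
  have hD1 : IsCyc (quo (G0 T p) (cc a X)) {s(a 0, a 4), s(a 4, a 1), s(a 1, a 6), s(a 6, a 3),
      s(a 3, a 5), s(a 5, a 2), s(a 0, a 2)} :=
    cyc7 (hnd [0, 4, 1, 6, 3, 5, 2] (by decide)) (hadj _ _ k04) (hadj _ _ (K7.symm k14))
      (hadj _ _ k16) (hadj _ _ (K7.symm k36)) (hadj _ _ k35) (hadj _ _ (K7.symm k25))
      (hadj _ _ k02)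
  have hD2 : IsCyc (quo (G0 T p) (cc a X)) {s(a 0, a 5), s(a 5, a 1), s(a 1, a 6), s(a 6, a 3),
      s(a 3, a 4), s(a 4, a 2), s(a 0, a 2)} :=
    cyc7 (hnd [0, 5, 1, 6, 3, 4, 2] (by decide)) (hadj _ _ k05) (hadj _ _ (K7.symm k15))
      (hadj _ _ k16) (hadj _ _ (K7.symm k36)) (hadj _ _ k34) (hadj _ _ (K7.symm k24))
      (hadj _ _ k02)
  have key := hVKR a hinj h.quo_adj g hg hsup
  obtain ⟨C₁, hC1, hg1, hCD1⟩ := hlift _ hD1
  obtain ⟨C₂, hC2, hg2, hCD2⟩ := hlift _ hD2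
  rw [hg1, hg2] at key
  have e02 := h.iffK hCD1 k02
  have e61 := h.iffK hCD1 (K7.symm k16)
  have e63 := h.iffK hCD1 (K7.symm k36)
  have f02 := h.iffK hCD2 k02
  have f61 := h.iffK hCD2 (K7.symm k16)
  have f63 := h.iffK hCD2 (K7.symm k36)
  rw [h02, h20] at e02 f02
  rw [h6, h6'] at e61 e63 f61 f63
  refine ⟨C₁, C₂, hC1.mono h.le, hC2.mono h.le, key, ⟨e02.2 (by simp), e61.2 ?_, e63.2 (by simp),
    ?_⟩, f02.2 (by simp), f61.2 ?_, f63.2 (by simp), ?_⟩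
  · rw [Sym2.eq_swap]; simp
  · intro x y hxy hne hx hy
    refine h.fin6 hC1 (l := [(0, 4), (4, 1), (1, 6), (6, 3), (3, 5), (5, 2), (0, 2)]) ?_ h6' h02
      h20 hX6 comb1 (by decide) hxy hne hx hy
    intro x y h1 h2
    rw [hCD1 x y h1 h2]
    simp only [List.map_cons, List.map_nil, List.mem_toFinset, List.mem_cons, List.not_mem_nil,
      or_false, mem_insert, mem_singleton]
  · rw [Sym2.eq_swap]; simp
  · intro x y hxy hne hx hy
    refine h.fin6 hC2 (l := [(0, 5), (5, 1), (1, 6), (6, 3), (3, 4), (4, 2), (0, 2)]) ?_ h6' h02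
      h20 hX6 comb2 (by decide) hxy hne hx hy
    intro x y h1 h2
    rw [hCD2 x y h1 h2]
    simp only [List.map_cons, List.map_nil, List.mem_toFinset, List.mem_cons, List.not_mem_nil,
      or_false, mem_insert, mem_singleton]

theorem notMem {t₃ : α} {S S' : Finset α} (hS : CSet (del R {t₃}) S)
    (hT : Tou (del R {t₃}) S S') : t₃ ∉ S := by
  intro h3
  obtain ⟨x, hx, y, -, hxy⟩ := hT
  have hr := hS.2 x hx t₃ h3
  have h1 : t₃ ∈ {z | z ≠ t₃} := mem_of_reachable (X := {z | z ≠ t₃}) hr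
    (fun e => hxy.2.1 (mem_singleton.2 e)) fun u u' huu' _ e =>
      huu'.1.2.2 (mem_singleton.2 e)
  exact h1 rfl

omit [Fintype α] [DecidableEq α] in
theorem tou_symm {N : SimpleGraph α} {S S' : Finset α} (h : Tou N S S') : Tou N S' S := by
  obtain ⟨x, hx, y, hy, hxy⟩ := h
  exact ⟨y, hy, x, hx, hxy.symm⟩

theorem exists_tree (hVCS : SpecVCS) {t₃ : α} {S : Finset α} (hS : CSet (del R {t₃}) S) :
    ∃ T, T ≤ R ∧ TreeOn T S := by
  obtain ⟨x, hx⟩ := hS.1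
  have h1 := RTree.single x
  obtain ⟨T, -, hT2, hT3⟩ := hVCS.ext hS ⟨h1.inY, h1.conn, h1.acyc⟩ (singleton_subset_iff.2 hx)
    (singleton_nonempty x) bot_le
  exact ⟨T, fun _ _ hxy => (hT2 hxy).1, hT3⟩

end VKQM

open VKQM in
theorem specVKQ (hVMC : SpecVMC) (hVKR : SpecVKR) (hVCS : SpecVCS) : SpecVKQ := by
  intro α _ _ R t₁ t₂ t₃ v w ψ L A B htrg hv hw hF hIV h
  obtain ⟨g12, g13, g23⟩ := htrg
  obtain ⟨rA, hrA⟩ := h.cA.1
  obtain ⟨rB, hrB⟩ := h.cB.1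
  choose lA hlA hA hhA adA using h.tA
  choose lB hlB hB hhB adB using h.tB
  have hL3 : ∀ i, t₃ ∉ L i := fun i => notMem (h.cL i) (h.tA i)
  have hA3 : t₃ ∉ A := notMem h.cA (tou_symm (h.tA 0))
  have hB3 : t₃ ∉ B := notMem h.cB (tou_symm (h.tB 0))
  set X : Fin 7 → Finset α := ![L 0, L 1, L 2, L 3, A, B, {t₃}] with hX
  have hdis : ∀ i j, i ≠ j → Disjoint (X i) (X j) := by
    intro i j hij
    fin_cases i <;> fin_cases j <;>
      first
        | exact absurd rfl hij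
        | exact h.dL _ _ (by decide)
        | exact h.dA _
        | exact (h.dA _).symm
        | exact h.dB _
        | exact (h.dB _).symm
        | exact h.dAB
        | exact h.dAB.symm
        | exact disjoint_singleton_right.2 (hL3 _)
        | exact disjoint_singleton_left.2 (hL3 _)
        | exact disjoint_singleton_right.2 hA3
        | exact disjoint_singleton_left.2 hA3
        | exact disjoint_singleton_right.2 hB3
        | exact disjoint_singleton_left.2 hB3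
  have htr : ∀ i, ∃ T, T ≤ R ∧ TreeOn T (X i) := by
    intro i
    fin_cases i
    · exact exists_tree hVCS (h.cL 0)
    · exact exists_tree hVCS (h.cL 1)
    · exact exists_tree hVCS (h.cL 2)
    · exact exists_tree hVCS (h.cL 3)
    · exact exists_tree hVCS h.cA
    · exact exists_tree hVCS h.cB
    · have h1 := RTree.single t₃
      exact ⟨⊥, bot_le, h1.inY, h1.conn, h1.acyc⟩
  choose T hT hT' using htr
  have m0 : t₁ ∈ L 0 := h.m 0
  have m1 : v ∈ L 1 := h.m 1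
  have m2 : t₂ ∈ L 2 := h.m 2
  have m3 : w ∈ L 3 := h.m 3
  set a : Fin 7 → α := ![t₁, v, t₂, w, rA, rB, t₃] with ha
  set p : Fin 7 → Fin 7 → α := ![![t₁, t₁, t₁, t₁, lA 0, lB 0, t₁], ![v, v, v, v, lA 1, lB 1, v],
    ![t₂, t₂, t₂, t₂, lA 2, lB 2, t₂], ![w, w, w, w, lA 3, lB 3, w],
    ![hA 0, hA 1, hA 2, hA 3, rA, rA, rA], ![hB 0, hB 1, hB 2, hB 3, rB, rB, rB], fun _ => t₃]
    with hp
  have hmp : ∀ i j, p i j ∈ X i := by
    intro i
    fin_cases i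
    · change ∀ j, (![t₁, t₁, t₁, t₁, lA 0, lB 0, t₁] : Fin 7 → α) j ∈ L 0
      intro j
      fin_cases j
      exacts [m0, m0, m0, m0, hlA 0, hlB 0, m0]
    · change ∀ j, (![v, v, v, v, lA 1, lB 1, v] : Fin 7 → α) j ∈ L 1
      intro j
      fin_cases j
      exacts [m1, m1, m1, m1, hlA 1, hlB 1, m1]
    · change ∀ j, (![t₂, t₂, t₂, t₂, lA 2, lB 2, t₂] : Fin 7 → α) j ∈ L 2
      intro j
      fin_cases j
      exacts [m2, m2, m2, m2, hlA 2, hlB 2, m2]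
    · change ∀ j, (![w, w, w, w, lA 3, lB 3, w] : Fin 7 → α) j ∈ L 3
      intro j
      fin_cases j
      exacts [m3, m3, m3, m3, hlA 3, hlB 3, m3]
    · change ∀ j, (![hA 0, hA 1, hA 2, hA 3, rA, rA, rA] : Fin 7 → α) j ∈ A
      intro j
      fin_cases j
      exacts [hhA 0, hhA 1, hhA 2, hhA 3, hrA, hrA, hrA]
    · change ∀ j, (![hB 0, hB 1, hB 2, hB 3, rB, rB, rB] : Fin 7 → α) j ∈ B
      intro j
      fin_cases j
      exacts [hhB 0, hhB 1, hhB 2, hhB 3, hrB, hrB, hrB]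
    · exact fun _ => mem_singleton_self _
  have hma : ∀ i, a i ∈ X i := by
    intro i
    fin_cases i
    exacts [m0, m1, m2, m3, hrA, hrB, mem_singleton_self _]
  have hadj : ∀ i j, K7 i j → R.Adj (p i j) (p j i) := by
    have h1 : ∀ i j : Fin 7, i.val < 4 → 4 ≤ j.val → R.Adj (p i j) (p j i) := by
      intro i j hi hj
      have hi' : i = 0 ∨ i = 1 ∨ i = 2 ∨ i = 3 := by
        revert hi; revert i; decide
      have hj' : j = 4 ∨ j = 5 ∨ j = 6 := by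
        revert hj; revert j; decide
      rcases hi' with rfl | rfl | rfl | rfl <;> rcases hj' with rfl | rfl | rfl
      exacts [(adA 0).1, (adB 0).1, g13, (adA 1).1, (adB 1).1, hv.symm, (adA 2).1, (adB 2).1, g23,
        (adA 3).1, (adB 3).1, hw.symm]
    intro i j hij
    rcases hij with ⟨hi, hj⟩ | ⟨hj, hi⟩ | ⟨rfl, rfl⟩ | ⟨rfl, rfl⟩
    · exact h1 i j hi hj
    · exact (h1 j i hj hi).symm
    · exact g12
    · exact g12.symm
  have hKM : KM R a X T p := ⟨hdis, hT', hT, hma, hmp, hadj⟩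
  exact core hVMC hVKR hKM hF hIV (fun i => by fin_cases i <;> rfl) (fun _ => rfl) rfl rfl rfl

end DL
end

section
/-!
# MP_3ff0f8_gt, STEP Y, part V, module VLC: type IV cycles and linkages (helper45)
-/
open SimpleGraph Finset

namespace DL

namespace VLCM

variable {α : Type} [Fintype α] [DecidableEq α] {R : SimpleGraph α} {t₁ t₂ t₃ v w : α} {A B : Finset (Sym2 α)}

theorem pAR (h : LNK R t₁ t₂ t₃ v w A B) : IsPth R t₁ v A := (isPth_del.1 h.pA).1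
theorem pBR (h : LNK R t₁ t₂ t₃ v w A B) : IsPth R t₂ w B := (isPth_del.1 h.pB).1
theorem m1A (h : LNK R t₁ t₂ t₃ v w A B) : t₁ ∈ vs A := (pAR h).left_mem h.nv.symm
theorem mvA (h : LNK R t₁ t₂ t₃ v w A B) : v ∈ vs A := (pAR h).right_mem h.nv.symm
theorem m2B (h : LNK R t₁ t₂ t₃ v w A B) : t₂ ∈ vs B := (pBR h).left_mem h.nw.symm
theorem mwB (h : LNK R t₁ t₂ t₃ v w A B) : w ∈ vs B := (pBR h).right_mem h.nw.symm

theorem n2A (h : LNK R t₁ t₂ t₃ v w A B) : t₂ ∉ vs A := fun hx =>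
  Finset.disjoint_left.1 (isPth_del.1 h.pA).2 hx (by simp)
theorem n3A (h : LNK R t₁ t₂ t₃ v w A B) : t₃ ∉ vs A := fun hx =>
  Finset.disjoint_left.1 (isPth_del.1 h.pA).2 hx (by simp)
theorem n1B (h : LNK R t₁ t₂ t₃ v w A B) : t₁ ∉ vs B := fun hx =>
  Finset.disjoint_left.1 (isPth_del.1 h.pB).2 hx (by simp)
theorem n3B (h : LNK R t₁ t₂ t₃ v w A B) : t₃ ∉ vs B := fun hx =>
  Finset.disjoint_left.1 (isPth_del.1 h.pB).2 hx (by simp)
theorem nvB (h : LNK R t₁ t₂ t₃ v w A B) : v ∉ vs B := fun hx => Finset.disjoint_left.1 h.dj (mvA h) hx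
theorem nwA (h : LNK R t₁ t₂ t₃ v w A B) : w ∉ vs A := fun hx => Finset.disjoint_left.1 h.dj hx (mwB h)

theorem ne12 (h : LNK R t₁ t₂ t₃ v w A B) : t₁ ≠ t₂ := fun e => n2A h (e ▸ m1A h)
theorem ne1w (h : LNK R t₁ t₂ t₃ v w A B) : t₁ ≠ w := fun e => n1B h (e ▸ mwB h)
theorem ne2v (h : LNK R t₁ t₂ t₃ v w A B) : t₂ ≠ v := fun e => n2A h (e ▸ mvA h)
theorem nevw (h : LNK R t₁ t₂ t₃ v w A B) : v ≠ w := fun e => nwA h (e ▸ mvA h)
theorem ne13 (h : LNK R t₁ t₂ t₃ v w A B) : t₁ ≠ t₃ := fun e => n3A h (e ▸ m1A h)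
theorem ne23 (h : LNK R t₁ t₂ t₃ v w A B) : t₂ ≠ t₃ := fun e => n3B h (e ▸ m2B h)

/-- the path from `t₁` to `t₃` -/
theorem pA' (h : LNK R t₁ t₂ t₃ v w A B) : IsPth R t₁ t₃ (insert s(v, t₃) A) :=
  (pAR h).concat h.av.symm (n3A h)

theorem pB' (h : LNK R t₁ t₂ t₃ v w A B) : IsPth R t₃ t₂ (insert s(t₃, w) B) := by
  have h1 := (pBR h).symm
  exact h1.cons h.aw (n3B h)

theorem vsAB' (h : LNK R t₁ t₂ t₃ v w A B) : vs (insert s(v, t₃) A) ∩ vs (insert s(t₃, w) B) ⊆ {t₃} := by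
  intro x hx
  rw [mem_inter, vs_insert, vs_insert, mem_union, mem_union] at hx
  simp only [mem_insert, mem_singleton] at hx
  rw [mem_singleton]
  obtain ⟨(rfl | rfl) | h1, (h2 | rfl) | h2⟩ := hx
  · exact h2
  · exact absurd rfl (nevw h)
  · exact absurd h2 (nvB h)
  · rfl
  · rfl
  · rfl
  · exact h2
  · exact absurd h1 (nwA h)
  · exact absurd h2 (Finset.disjoint_left.1 h.dj h1)

theorem pth' (h : LNK R t₁ t₂ t₃ v w A B) : IsPth R t₁ t₂ (insert s(v, t₃) A ∪ insert s(t₃, w) B) :=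
  (pA' h).append (pB' h) (vsAB' h)

omit [Fintype α] in
theorem c4c_eq (t₁ t₂ t₃ v w : α) (A B : Finset (Sym2 α)) :
    c4c t₁ t₂ t₃ v w A B = insert s(t₁, t₂) (insert s(v, t₃) A ∪ insert s(t₃, w) B) := by
  unfold c4c
  ext e
  simp only [mem_insert, mem_union]
  rw [Sym2.eq_swap (a := v) (b := t₃)]
  tauto

theorem n12 (h : LNK R t₁ t₂ t₃ v w A B) : s(t₁, t₂) ∉ insert s(v, t₃) A ∪ insert s(t₃, w) B := by
  rw [mem_union, mem_insert, mem_insert]
  rintro ((e | e) | (e | e))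
  · rw [Sym2.eq_iff] at e
    rcases e with ⟨_, e⟩ | ⟨e, _⟩
    · exact ne23 h e
    · exact ne13 h e
  · exact n2A h (right_mem_vs e)
  · rw [Sym2.eq_iff] at e
    rcases e with ⟨e, _⟩ | ⟨_, e⟩
    · exact ne13 h e
    · exact ne23 h e
  · exact n1B h (left_mem_vs e)

theorem mem_at3 (h : LNK R t₁ t₂ t₃ v w A B) (x : α) :
    s(t₃, x) ∈ c4c t₁ t₂ t₃ v w A B ↔ x = v ∨ x = w := by
  unfold c4c
  simp only [mem_insert, mem_union]
  constructor
  · rintro (e | e | e | e | e)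
    · rw [Sym2.eq_iff] at e
      rcases e with ⟨e, _⟩ | ⟨e, _⟩
      · exact absurd e.symm (ne13 h)
      · exact absurd e.symm (ne23 h)
    · rw [Sym2.eq_iff] at e
      rcases e with ⟨_, e⟩ | ⟨e, e'⟩
      · exact Or.inl e
      · exact Or.inl (e'.trans e)
    · rw [Sym2.eq_iff] at e
      rcases e with ⟨_, e⟩ | ⟨e, e'⟩
      · exact Or.inr e
      · exact Or.inr (e'.trans e)
    · exact absurd (left_mem_vs e) (n3A h)
    · exact absurd (left_mem_vs e) (n3B h)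
  · rintro (rfl | rfl)
    · exact Or.inr (Or.inl rfl)
    · exact Or.inr (Or.inr (Or.inl rfl))

theorem symm (h : LNK R t₁ t₂ t₃ v w A B) :
    LNK R t₂ t₁ t₃ w v B A ∧ c4c t₂ t₁ t₃ w v B A = c4c t₁ t₂ t₃ v w A B := by
  refine ⟨⟨h.aw, h.av, h.nw, h.nv, h.pB, h.pA, h.dj.symm⟩, ?_⟩
  unfold c4c
  ext e
  simp only [mem_insert, mem_union]
  rw [Sym2.eq_swap (a := t₂) (b := t₁)]
  tauto

theorem cyc (ht : Trg R t₁ t₂ t₃) (h : LNK R t₁ t₂ t₃ v w A B) : IsCyc R (c4c t₁ t₂ t₃ v w A B) ∧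
      s(t₁, t₂) ∈ c4c t₁ t₂ t₃ v w A B ∧ s(t₁, t₃) ∉ c4c t₁ t₂ t₃ v w A B ∧ s(t₂, t₃) ∉ c4c t₁ t₂ t₃ v w A B ∧
      t₃ ∈ vs (c4c t₁ t₂ t₃ v w A B) := by
  refine ⟨?_, ?_, ?_, ?_, ?_⟩
  · rw [c4c_eq]
    exact (pth' h).isCyc ht.1 (n12 h)
  · exact mem_insert_self _ _
  · rw [Sym2.eq_swap, mem_at3 h]
    rintro (e | e)
    · exact h.nv e.symm
    · exact ne1w h e
  · rw [Sym2.eq_swap, mem_at3 h]
    rintro (e | e)
    · exact ne2v h e
    · exact h.nw e.symm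
  · exact left_mem_vs ((mem_at3 h v).2 (Or.inl rfl))

theorem dec {C : Finset (Sym2 α)} (ht : Trg R t₁ t₂ t₃) (hC : IsCyc R C) (h12 : s(t₁, t₂) ∈ C)
    (h13 : s(t₁, t₃) ∉ C) (h23 : s(t₂, t₃) ∉ C) (h3 : t₃ ∈ vs C) :
    ∃ v w A B, LNK R t₁ t₂ t₃ v w A B ∧ C = c4c t₁ t₂ t₃ v w A B := by
  have n12 := ht.1.ne
  have n13 := ht.2.1.ne
  have n23 := ht.2.2.ne
  have hP := hC.isPth h12
  have h3' : t₃ ∈ vs (C \ {s(t₁, t₂)}) := by
    obtain ⟨e, he, h3e⟩ := mem_vs.1 h3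
    refine mem_vs.2 ⟨e, ?_, h3e⟩
    rw [mem_sdiff, mem_singleton]
    refine ⟨he, ?_⟩
    rintro rfl
    rw [Sym2.mem_iff] at h3e
    rcases h3e with e | e
    · exact n13 e.symm
    · exact n23 e.symm
  obtain ⟨P1, P2, hP1, hP2, hU, hD, hI⟩ := hP.split (Or.inr h3')
  have hP1C : P1 ⊆ C := (subset_union_left.trans hU.subset).trans sdiff_subset
  have hP2C : P2 ⊆ C := (subset_union_right.trans hU.subset).trans sdiff_subset
  obtain ⟨v, hv, hv1, hv2, hv3⟩ := hP1.symm.uncons n13.symm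
  obtain ⟨w, hw, hw1, hw2, hw3⟩ := hP2.uncons n23.symm
  have m1 : t₁ ∈ vs P1 := hP1.left_mem n13
  have m2 : t₂ ∈ vs P2 := hP2.right_mem n23.symm
  have hAP : vs (P1 \ {s(t₃, v)}) ⊆ vs P1 := vs_mono sdiff_subset
  have hBP : vs (P2 \ {s(t₃, w)}) ⊆ vs P2 := vs_mono sdiff_subset
  refine ⟨v, w, P1 \ {s(t₃, v)}, P2 \ {s(t₃, w)}, ⟨hv, hw, ?_, ?_, ?_, ?_, ?_⟩, ?_⟩
  · rintro rfl
    exact h13 (by rw [Sym2.eq_swap]; exact hP1C hv1)
  · rintro rfl
    exact h23 (by rw [Sym2.eq_swap]; exact hP2C hw1)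
  · rw [isPth_del]
    refine ⟨hv3.symm, ?_⟩
    rw [Finset.disjoint_left]
    intro x hx hx'
    rw [mem_insert, mem_singleton] at hx'
    rcases hx' with rfl | rfl
    · exact n23 (by simpa using hI (mem_inter.2 ⟨hAP hx, m2⟩))
    · exact hv2 hx
  · rw [isPth_del]
    refine ⟨hw3.symm, ?_⟩
    rw [Finset.disjoint_left]
    intro x hx hx'
    rw [mem_insert, mem_singleton] at hx'
    rcases hx' with rfl | rfl
    · exact n13 (by simpa using hI (mem_inter.2 ⟨m1, hBP hx⟩))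
    · exact hw2 hx
  · rw [Finset.disjoint_left]
    intro x hx hx'
    have : x = t₃ := by simpa using hI (mem_inter.2 ⟨hAP hx, hBP hx'⟩)
    rw [this] at hx
    exact hv2 hx
  · ext e
    unfold c4c
    have hU' : e ∈ P1 ∪ P2 ↔ e ∈ C \ {s(t₁, t₂)} := by rw [hU]
    rw [mem_union, mem_sdiff, mem_singleton] at hU'
    simp only [mem_insert, mem_union, mem_sdiff, mem_singleton]
    by_cases e1 : e = s(t₁, t₂)
    · subst e1; simp [h12]
    · by_cases e2 : e = s(t₃, v)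
      · subst e2; simp [hP1C hv1]
      · by_cases e3 : e = s(t₃, w)
        · subst e3; simp [hP2C hw1]
        · simp only [e1, e2, e3, not_false_eq_true, and_true, false_or] at hU' ⊢
          exact hU'.symm

theorem coh_at3 (h : LNK R t₁ t₂ t₃ v w A B) (u : α) :
    coh t₂ t₁ t₃ u (c4c t₁ t₂ t₃ v w A B) = if u = w then 1 else 0 := by
  have e0 : c4c t₁ t₂ t₃ v w A B = insert s(t₂, t₁) (insert s(v, t₃) A ∪ insert s(t₃, w) B) := by
    rw [c4c_eq, Sym2.eq_swap (a := t₂) (b := t₁)]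
  have hnot : s(t₂, t₁) ∉ insert s(v, t₃) A ∪ insert s(t₃, w) B := by
    rw [Sym2.eq_swap (a := t₂) (b := t₁)]; exact n12 h
  have hne : s(t₃, u) ≠ s(t₂, t₁) := by
    intro e
    rw [Sym2.eq_iff] at e
    rcases e with ⟨e, _⟩ | ⟨e, _⟩
    · exact ne23 h e.symm
    · exact ne13 h e.symm
  rw [e0, coh_insert hnot hne, (pA' h).dirn_append (pB' h) (vsAB' h), (pA' h).dirn_from_end, zero_add,
    dirn_start, chi_apply]
  congr 1
  rw [mem_insert, eq_iff_iff]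
  constructor
  · rintro (e | e)
    · rw [Sym2.eq_iff] at e
      rcases e with ⟨_, e⟩ | ⟨e, e'⟩
      · exact e
      · exact e'.trans e
    · exact absurd (left_mem_vs e) (n3B h)
  · rintro rfl
    exact Or.inl rfl

theorem loc (h : LNK R t₁ t₂ t₃ v w A B) (s : α → α → ZMod 2) (ν : α → ZMod 2) :
    loc3 t₁ t₂ t₃ s ν (c4c t₁ t₂ t₃ v w A B) = s v v + s w w + s v w + s w v + ν w := by
  have hc : ∀ x, chi (c4c t₁ t₂ t₃ v w A B) s(t₃, x) = (if x = v then 1 else 0) + (if x = w then 1 else 0) := by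
    intro x
    rw [chi_apply]
    simp only [mem_at3 h x]
    by_cases e1 : x = v
    · subst e1; simp [nevw h]
    · simp [e1]
  have hg : ∀ g : α → ZMod 2, ∑ y, g y * ((if y = v then (1 : ZMod 2) else 0) + (if y = w then 1 else 0)) =
      g v + g w := by
    intro g
    simp [mul_add, sum_add_distrib]
  have e1 : ∀ x : α, ∑ y, s x y * (((if x = v then (1 : ZMod 2) else 0) + (if x = w then 1 else 0)) *
      ((if y = v then 1 else 0) + (if y = w then 1 else 0))) =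
      (s x v + s x w) * ((if x = v then (1 : ZMod 2) else 0) + (if x = w then 1 else 0)) := by
    intro x
    rw [← hg (fun y => s x y), sum_mul]
    exact sum_congr rfl fun y _ => by ring
  have e2 : ∑ u, ν u * (if u = w then (1 : ZMod 2) else 0) = ν w := by simp
  unfold loc3
  simp only [hc, coh_at3 h]
  rw [e2, sum_congr rfl fun x _ => e1 x, hg (fun x => s x v + s x w)]
  ring

end VLCM

theorem specVLC : SpecVLC where
  ne := fun h => ⟨by
    simp only [List.nodup_cons, List.mem_cons, List.not_mem_nil, or_false, not_or, List.nodup_nil, and_true, not_false_eq_true]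
    exact ⟨⟨VLCM.ne12 h, h.nv.symm, VLCM.ne1w h⟩, ⟨VLCM.ne2v h, h.nw.symm⟩, VLCM.nevw h⟩,
    VLCM.m1A h, VLCM.mvA h, VLCM.m2B h, VLCM.mwB h⟩
  symm := fun h => VLCM.symm h
  cyc := fun ht h => VLCM.cyc ht h
  dec := fun ht hC h1 h2 h3 h4 => VLCM.dec ht hC h1 h2 h3 h4
  loc := fun _ h s ν => VLCM.loc h s ν

end DL
end

section
/-!
# MP_3ff0f8_gt, algebra half, Step Y, module VLI (helper57): LEMMA IV, assembly
-/
set_option autoImplicit false

open SimpleGraph Finset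

namespace DL

namespace VLIM

variable {α : Type} [Fintype α] [DecidableEq α] {R : SimpleGraph α} {t₁ t₂ t₃ : α}

theorem hpr_symm {P Q : Finset α} (h : HPR R t₁ t₂ t₃ P Q) : HPR R t₁ t₂ t₃ Q P :=
  ⟨h.cQ, h.cP, by rw [union_comm]; exact h.un, h.dj.symm, h.q1, h.q2, h.p1, h.p2⟩

theorem cset_pth (hVCS : SpecVCS) {s t u : α} {P : Finset (Sym2 α)}
    (h : IsPth (del R {u, t₃}) s t P) (hs : s ∈ vs P) : CSet (del R {t₃}) (vs P) := by
  have hle : del R {u, t₃} ≤ del R {t₃} := by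
    intro a b hab
    have h1 : R.Adj a b ∧ a ∉ ({u, t₃} : Finset α) ∧ b ∉ ({u, t₃} : Finset α) := hab
    simp only [mem_insert, mem_singleton, not_or] at h1
    exact ⟨h1.1, fun h => h1.2.1.2 (mem_singleton.1 h), fun h => h1.2.2.2 (mem_singleton.1 h)⟩
  have h2 := hVCS.cpth (h.mono hle)
  rwa [insert_eq_of_mem hs] at h2

/-- two opposite linkages separate -/
theorem sepa (hVLC : SpecVLC) (hVCS : SpecVCS) (hVRG : SpecVRG) (hVHP : SpecVHP)
    (hR : HIV R t₁ t₂ t₃) {v w : α} {A B A' B' : Finset (Sym2 α)} (h : LNK R t₁ t₂ t₃ v w A B)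
    (h' : LNK R t₁ t₂ t₃ w v A' B') : ∃ P Q, HPR R t₁ t₂ t₃ P Q ∧ v ∈ P ∧ w ∈ Q := by
  have key : ∀ {v w : α} {A B : Finset (Sym2 α)}, LNK R t₁ t₂ t₃ v w A B →
      LPR (del R {t₃}) t₁ v t₂ w (vs A) (vs B) := by
    intro v w A B h
    obtain ⟨-, h1, h2, h3, h4⟩ := hVLC.ne h
    exact ⟨cset_pth hVCS h.pA h1, cset_pth hVCS h.pB h3, h1, h2, h3, h4, h.dj⟩
  obtain ⟨T₁, P, T₂, Q, h4⟩ := hVRG (key h) (key h')
  exact hVHP hR.c1 hR.tri hR.con hR.d1 hR.d2 h4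

open scoped Classical in
/-- the function `s` -/
noncomputable def sf (R : SimpleGraph α) (t₁ t₂ t₃ : α) (r : α → ℕ) (c : α → α → ZMod 2)
    (μ : α → ZMod 2) (v w : α) : ZMod 2 :=
  if r v < r w then
    (if ∃ A B, LNK R t₁ t₂ t₃ v w A B then c v w + μ w
      else if ∃ A B, LNK R t₁ t₂ t₃ w v A B then c w v + μ v else 0)
  else 0

end VLIM

open scoped Classical in
/-- **VLI.** -/
theorem specVLI (hVCV : SpecVCV) (hVRG : SpecVRG) (hVHP : SpecVHP) (hVSQ : SpecVSQ)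
    (hVTT : SpecVTT) (hVMU : SpecVMU) (hVLC : SpecVLC) (hVCS : SpecVCS) : SpecVLI := by
  intro α _ _ R t₁ t₂ t₃ hR _ ψ hF hK1 hK2 hIV
  obtain ⟨c, hc⟩ := hVCV hR.c1 hR.con hR.tri hF ⟨hK1, hK2⟩ hIV
  have hT := hR.tri
  -- the neighbours of `t₃`
  set S : Finset α := univ.filter fun v => R.Adj t₃ v ∧ v ≠ t₁ ∧ v ≠ t₂ with hS
  have hmS : ∀ v, v ∈ S ↔ R.Adj t₃ v ∧ v ≠ t₁ ∧ v ≠ t₂ := by
    intro v
    rw [hS, mem_filter]
    simp only [mem_univ, true_and]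
  have hLS : ∀ {v w A B}, LNK R t₁ t₂ t₃ v w A B → v ∈ S ∧ w ∈ S ∧ v ≠ w := by
    intro v w A B h
    have hn := (hVLC.ne h).1
    simp only [List.nodup_cons, List.mem_cons, List.not_mem_nil, or_false, not_or,
      not_false_eq_true, List.nodup_nil, and_true] at hn
    refine ⟨(hmS v).2 ⟨h.av, h.nv, fun e => hn.2.1.1 e.symm⟩,
      (hmS w).2 ⟨h.aw, fun e => hn.1.2.2 e.symm, h.nw⟩, hn.2.2⟩
  obtain ⟨μ₀, hμ₀⟩ := hVMU S (HPR R t₁ t₂ t₃) (fun v w => c v w + c w v)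
    (fun v w => add_comm _ _) (fun P Q h => VLIM.hpr_symm h)
    (fun P Q h v hv => by
      rw [h.un, mem_sdiff]
      obtain ⟨h1, h2, h3⟩ := (hmS v).1 hv
      refine ⟨?_, ?_⟩
      · rw [VS, mem_filter]
        exact ⟨mem_univ _, t₃, h1.symm⟩
      · simp only [mem_insert, mem_singleton, not_or]
        exact ⟨h2, h3, h1.ne.symm⟩)
    (fun P Q h => h.dj)
    (fun P Q a x b y h ha hx hb hy ha' hx' hb' hy' =>
      hVSQ hT hF hIV hc h ha hx hb hy ((hmS a).1 ha').1 ((hmS x).1 hx').1 ((hmS b).1 hb').1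
        ((hmS y).1 hy').1)
    (fun v₁ v₂ v₃ h1 h2 h3 s12 s23 s13 =>
      hVTT hT hF hIV hc ((hmS v₁).1 h1).1 ((hmS v₂).1 h2).1 ((hmS v₃).1 h3).1 s12 s23 s13)
  set μ : α → ZMod 2 := fun v => if v ∈ S then μ₀ v else 0 with hμ
  have hμS : ∀ v, v ∈ S → μ v = μ₀ v := fun v hv => by rw [hμ]; exact if_pos hv
  have hstar : ∀ {v w A B A' B'}, LNK R t₁ t₂ t₃ v w A B → LNK R t₁ t₂ t₃ w v A' B' →
      c v w + c w v = μ v + μ w := by
    intro v w A B A' B' h h'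
    obtain ⟨hv, hw, -⟩ := hLS h
    rw [hμS v hv, hμS w hw]
    exact hμ₀ v hv w hw (VLIM.sepa hVLC hVCS hVRG hVHP hR h h')
  set r : α → ℕ := fun v => (Fintype.equivFin α v).val with hr
  have hrinj : ∀ v w, r v = r w → v = w := by
    intro v w h
    exact (Fintype.equivFin α).injective (Fin.ext h)
  refine ⟨VLIM.sf R t₁ t₂ t₃ r c μ, μ, ?_, ?_, ?_⟩
  · -- support of `s`
    intro v w h
    have h2 : v ∈ S ∧ w ∈ S := by
      unfold VLIM.sf at h
      split_ifs at h with h1 h2 h3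
      · obtain ⟨A, B, hL⟩ := h2
        exact ⟨(hLS hL).1, (hLS hL).2.1⟩
      · obtain ⟨A, B, hL⟩ := h3
        exact ⟨(hLS hL).2.1, (hLS hL).1⟩
      · exact absurd rfl h
      · exact absurd rfl h
    obtain ⟨a1, a2, a3⟩ := (hmS v).1 h2.1
    obtain ⟨b1, b2, b3⟩ := (hmS w).1 h2.2
    exact ⟨a1, b1, a2, a3, b2, b3⟩
  · intro v h
    have : v ∈ S := by
      by_contra hv
      apply h
      rw [hμ]
      exact if_neg hv
    exact (hmS v).1 this
  · intro C hC h12 h13 h23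
    by_cases h3 : t₃ ∈ vs C
    · obtain ⟨v, w, A, B, hL, rfl⟩ := hVLC.dec hT hC h12 h13 h23 h3
      rw [hVLC.loc hT hL, hc v w A B hL]
      have hne := (hLS hL).2.2
      have e0 : ∀ u, VLIM.sf R t₁ t₂ t₃ r c μ u u = 0 := fun u => if_neg (lt_irrefl _)
      rw [e0, e0]
      rcases Nat.lt_trichotomy (r v) (r w) with h | h | h
      · have e1 : VLIM.sf R t₁ t₂ t₃ r c μ w v = 0 := if_neg (not_lt.2 h.le)
        have e2 : VLIM.sf R t₁ t₂ t₃ r c μ v w = c v w + μ w := by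
          unfold VLIM.sf
          rw [if_pos h, if_pos ⟨A, B, hL⟩]
        rw [e1, e2]
        have := zmod2_add_self (μ w)
        linear_combination -this
      · exact absurd (hrinj v w h) hne
      · have e1 : VLIM.sf R t₁ t₂ t₃ r c μ v w = 0 := if_neg (not_lt.2 h.le)
        rw [e1]
        by_cases hL' : ∃ A B, LNK R t₁ t₂ t₃ w v A B
        · have e2 : VLIM.sf R t₁ t₂ t₃ r c μ w v = c w v + μ v := by
            unfold VLIM.sf
            rw [if_pos h, if_pos hL']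
          obtain ⟨A', B', hL'⟩ := hL'
          have h5 := hstar hL hL'
          rw [e2]
          have h6 := zmod2_add_self (c w v)
          have h7 := zmod2_add_self (μ v)
          have h8 := zmod2_add_self (μ w)
          linear_combination h5 - h6
        · have e2 : VLIM.sf R t₁ t₂ t₃ r c μ w v = c v w + μ w := by
            unfold VLIM.sf
            rw [if_pos h, if_neg hL', if_pos ⟨A, B, hL⟩]
          rw [e2]
          have := zmod2_add_self (μ w)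
          linear_combination -this
    · have h0 : ψ C = 0 := by
        by_contra h
        exact h3 (hIV C hC h).2.2.2
      have hn : ∀ u, s(t₃, u) ∉ C := fun u h => h3 (left_mem_vs h)
      have hchi : ∀ u, chi C s(t₃, u) = 0 := fun u => if_neg (hn u)
      rw [h0, loc3]
      rw [sum_eq_zero (fun v _ => sum_eq_zero fun w _ => by rw [hchi, zero_mul, mul_zero]),
        sum_eq_zero (fun v _ => by rw [coh_eq_zero_right (hn v), mul_zero]), add_zero]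

end DL
end

section
/-!
# MP_3ff0f8_gt, STEP Y, part V, module VMC: contraction of trees (helper45)
-/
open SimpleGraph Finset

namespace DL

namespace VMCM

set_option linter.unusedSectionVars false

open CTAM

variable {α : Type} [Fintype α] [DecidableEq α] {G : SimpleGraph α} {a b : α}

theorem contr_mrg {x y : α} (hab : a ≠ b) (h : G.Adj x y) (hne : mrg a b x ≠ mrg a b y) :
    (contr G a b).Adj (mrg a b x) (mrg a b y) := by
  by_cases hx : x = b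
  · subst hx
    have hy : y ≠ x := h.ne.symm
    rw [mrg_b, mrg_of_ne a hy] at *
    exact ⟨hab, hy, hne, Or.inr (Or.inl ⟨rfl, h⟩)⟩
  · by_cases hy : y = b
    · subst hy
      rw [mrg_b, mrg_of_ne a hx] at *
      exact ⟨hx, hab, hne, Or.inr (Or.inr ⟨rfl, h⟩)⟩
    · rw [mrg_of_ne a hx, mrg_of_ne a hy] at *
      exact ⟨hx, hy, hne, Or.inl h⟩

theorem of_contr {x y : α} (h : (contr G a b).Adj x y) :
    ∃ u w, G.Adj u w ∧ mrg a b u = x ∧ mrg a b w = y := by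
  obtain ⟨hx, hy, _, h | ⟨rfl, h⟩ | ⟨rfl, h⟩⟩ := h
  · exact ⟨x, y, h, mrg_of_ne a hx, mrg_of_ne a hy⟩
  · exact ⟨b, y, h, mrg_b _ _, mrg_of_ne _ hy⟩
  · exact ⟨x, b, h, mrg_of_ne _ hx, mrg_b _ _⟩

theorem reach_mrg {x y : α} (hab : a ≠ b) (h : G.Reachable x y) :
    (contr G a b).Reachable (mrg a b x) (mrg a b y) := by
  obtain ⟨w⟩ := h
  induction w with
  | nil => exact Reachable.refl _
  | @cons u v z huv _ ih =>
    refine Reachable.trans ?_ ih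
    by_cases he : mrg a b u = mrg a b v
    · rw [he]
    · exact (contr_mrg hab huv he).reachable

/-- a forest has no cycles -/
theorem no_cyc (hTRE : SpecTRE) {T : SimpleGraph α} (hT : T.IsAcyclic) {C : Finset (Sym2 α)} (hC : IsCyc T C) :
    False := by
  have h1 := (hTRE.z1 T).1 hT _ hC.chi_mem
  obtain ⟨e, he⟩ := hC.nonempty
  have h2 := congrFun h1 e
  rw [chi_of_mem he] at h2
  exact one_ne_zero h2

theorem no_tri (hTRE : SpecTRE) {T : SimpleGraph α} (hT : T.IsAcyclic) {x y z : α} (h1 : T.Adj x y)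
    (h2 : T.Adj x z) (h3 : T.Adj y z) : False := by
  have hp : IsPth T x y (insert s(x, z) {s(z, y)}) := by
    refine (IsPth.edge h3.symm).cons h2 ?_
    rw [vs_singleton, mem_insert, mem_singleton, not_or]
    exact ⟨h2.ne, h1.ne⟩
  refine no_cyc hTRE hT (hp.isCyc h1 ?_)
  rw [mem_insert, mem_singleton, not_or]
  constructor
  · intro e
    exact h3.ne (Sym2.congr_right.1 e)
  · intro e
    exact h2.ne (Sym2.congr_left.1 e)

theorem acyc_contr (hCTA : SpecCTA) (hTRE : SpecTRE) {T : SimpleGraph α} (hT : T.IsAcyclic) (hab : T.Adj a b) :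
    (contr T a b).IsAcyclic := by
  have hN : NoCN T a b := fun x hx => no_tri hTRE hT hab hx.1 hx.2
  rw [hTRE.z1]
  intro c hc
  have h1 := (hTRE.z1 T).1 hT _ (hCTA.lz hab hN c hc)
  have h2 := hCTA.pl hab hN c hc
  rw [h1] at h2
  rw [← h2]
  funext e
  by_contra h
  obtain ⟨f, _, _, hf⟩ := prj_supp (c := (0 : Chain α)) (a := a) (b := b) (e := e) h
  exact hf rfl

/-- the new map of fibres -/
def nc (b : α) (c : α → α) (x : α) : α := if x = b then b else c x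

theorem nc_b (b : α) (c : α → α) : nc b c b = b := by simp [nc]
theorem nc_ne {b x : α} (c : α → α) (h : x ≠ b) : nc b c x = c x := by simp [nc, h]

theorem cx_ne {c : α → α} (hc : ∀ x, c (c x) = c x) (hb : c b ≠ b) (x : α) : c x ≠ b := by
  intro h
  have := hc x
  rw [h] at this
  exact hb this

theorem c_mrg {c : α → α} (hab : c a = c b) (x : α) : c (mrg a b x) = c x := by
  by_cases h : x = b
  · rw [h, mrg_b, hab]
  · rw [mrg_of_ne a h]

theorem mrg_ne_b (hab : a ≠ b) (x : α) : mrg a b x ≠ b := by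
  by_cases h : x = b
  · rw [h, mrg_b]; exact hab
  · rw [mrg_of_ne a h]; exact h

theorem nc_mrg {c : α → α} (hne : a ≠ b) (hab : c a = c b) (x : α) : nc b c (mrg a b x) = c x := by
  rw [nc_ne c (mrg_ne_b hne x), c_mrg hab]

theorem fib_eq {c : α → α} (hne : a ≠ b) (hab : c a = c b) :
    fib (contr G a b) (nc b c) = contr (fib G c) a b := by
  ext u w
  constructor
  · rintro ⟨⟨hu, hw, huw, h⟩, hc⟩
    rw [nc_ne c hu, nc_ne c hw] at hc
    refine ⟨hu, hw, huw, ?_⟩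
    rcases h with h | ⟨h1, h⟩ | ⟨h1, h⟩
    · exact Or.inl ⟨h, hc⟩
    · refine Or.inr (Or.inl ⟨h1, h, ?_⟩)
      rw [← hab, ← h1, hc]
    · refine Or.inr (Or.inr ⟨h1, h, ?_⟩)
      rw [← hab, ← h1, hc]
  · rintro ⟨hu, hw, huw, h⟩
    refine ⟨⟨hu, hw, huw, ?_⟩, ?_⟩
    · rcases h with h | ⟨h1, h⟩ | ⟨h1, h⟩
      · exact Or.inl h.1
      · exact Or.inr (Or.inl ⟨h1, h.1⟩)
      · exact Or.inr (Or.inr ⟨h1, h.1⟩)
    · rw [nc_ne c hu, nc_ne c hw]
      rcases h with h | ⟨h1, h⟩ | ⟨h1, h⟩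
      · exact h.2
      · rw [h1, hab]; exact h.2
      · rw [h1, hab]; exact h.2

theorem quo_eq {c : α → α} (hc : ∀ x, c (c x) = c x) (hne : a ≠ b) (hab : c a = c b) :
    quo (contr G a b) (nc b c) = quo G c := by
  ext u w
  constructor
  · rintro ⟨huw, x, y, hx, hy, h⟩
    have hxb := h.1
    have hyb := h.2.1
    obtain ⟨x', y', h', rfl, rfl⟩ := of_contr h
    rw [nc_mrg hne hab] at hx hy
    exact ⟨huw, x', y', hx, hy, h'⟩
  · rintro ⟨huw, x, y, hx, hy, h⟩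
    refine ⟨huw, mrg a b x, mrg a b y, ?_, ?_, contr_mrg hne h ?_⟩
    · rw [nc_mrg hne hab, hx]
    · rw [nc_mrg hne hab, hy]
    · intro e
      apply huw
      rw [← hx, ← hy, ← c_mrg hab x, ← c_mrg hab y, e]

theorem main (hCTA : SpecCTA) (hCTF : SpecCTF) (hTRE : SpecTRE) : ∀ (n : ℕ) (G : SimpleGraph α) (c : α → α),
    (univ.filter fun x => c x ≠ x).card = n →
    (∀ x, c (c x) = c x) → (fib G c).IsAcyclic → (∀ x, (fib G c).Reachable x (c x)) →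
    (∀ x y x' y', G.Adj x y → G.Adj x' y' → c x = c x' → c y = c y' → c x ≠ c y → x = x' ∧ y = y') →
    ∀ f, InF G f → ∃ g, InF (quo G c) g ∧ ∀ D, IsCyc (quo G c) D → ∃ C, IsCyc G C ∧ g D = f C ∧
      ∀ x y, G.Adj x y → c x ≠ c y → (s(x, y) ∈ C ↔ s(c x, c y) ∈ D) := by
  intro n
  induction n with
  | zero =>
    intro G c hn _ _ _ _ f hf
    have hid : ∀ x, c x = x := by
      intro x
      by_contra h
      have : x ∈ univ.filter fun x => c x ≠ x := by simp [h]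
      rw [Finset.card_eq_zero] at hn
      rw [hn] at this
      simp at this
    have hq : quo G c = G := by
      ext u w
      constructor
      · rintro ⟨_, x, y, hx, hy, h⟩
        rw [hid] at hx hy
        rw [← hx, ← hy]; exact h
      · intro h
        exact ⟨h.ne, u, w, hid u, hid w, h⟩
    rw [hq]
    refine ⟨f, hf, fun D hD => ⟨D, hD, rfl, fun x y _ _ => ?_⟩⟩
    rw [hid, hid]
  | succ n ih =>
    intro G c hn hc hac hre hun f hf
    obtain ⟨b, hb⟩ : ∃ b, c b ≠ b := by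
      by_contra h
      push Not at h
      rw [Finset.filter_eq_empty_iff.2 (fun x _ => by simp [h x])] at hn
      simp at hn
    -- the neighbour of `b` in its fibre
    obtain ⟨a, hba, hcab⟩ : ∃ a, G.Adj b a ∧ c b = c a := by
      obtain ⟨w⟩ := hre b
      generalize hz : c b = z at w
      cases w with
      | nil => exact absurd hz hb
      | @cons _ v _ h _ => exact ⟨v, h.1, hz.symm.trans h.2⟩
    have hab : G.Adj a b := hba.symm
    have hne : a ≠ b := hab.ne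
    have hcab' : c a = c b := hcab.symm
    have hN : NoCN G a b := by
      rintro x ⟨h1, h2⟩
      by_cases hx : c x = c a
      · exact no_tri hTRE hac (x := a) (y := b) (z := x) ⟨hab, hcab'⟩ ⟨h1, hx.symm⟩ ⟨h2, by rw [hx, hcab']⟩
      · exact hne (hun a x b x h1 h2 hcab' rfl (Ne.symm hx)).1
    classical
    set f' : Finset (Sym2 α) → ZMod 2 := fun D =>
      if h : IsCyc (contr G a b) D then f (hCTA.cl hab hN D h).choose else 0 with hf'
    have hf'D : ∀ D (hD : IsCyc (contr G a b) D), ∃ C, CycM G a b C ∧ chi C = lft G a b (chi D) ∧ f' D = f C := by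
      intro D hD
      refine ⟨_, (hCTA.cl hab hN D hD).choose_spec.1, (hCTA.cl hab hN D hD).choose_spec.2, ?_⟩
      rw [hf']
      simp only [hD, dif_pos]
    have hF' : InF (contr G a b) f' := by
      refine hCTF.down hab hN f f' hf ?_
      intro C D _ hD hCD
      obtain ⟨C', _, h2, h3⟩ := hf'D D hD
      rw [h3, chi_injective (h2.trans hCD.symm)]
    have hcard : (univ.filter fun x => nc b c x ≠ x).card = n := by
      have : (univ.filter fun x => c x ≠ x) = insert b (univ.filter fun x => nc b c x ≠ x) := by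
        ext x
        simp only [mem_filter, mem_univ, true_and, mem_insert]
        by_cases hx : x = b
        · rw [hx]; simp [hb]
        · rw [nc_ne c hx]; simp [hx]
      rw [this, card_insert_of_notMem (by simp [nc_b])] at hn
      omega
    have hfr : ∀ x, (fib (contr G a b) (nc b c)).Reachable x (nc b c x) := by
      intro x
      by_cases hx : x = b
      · rw [hx, nc_b]
      · have h1 := reach_mrg (a := a) hne (hre x)
        rw [mrg_of_ne a hx, mrg_of_ne a (cx_ne hc hb x)] at h1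
        rw [fib_eq hne hcab', nc_ne c hx]
        exact h1
    obtain ⟨g, hg1, hg2⟩ := ih (contr G a b) (nc b c) hcard (by
        intro x
        by_cases hx : x = b
        · rw [hx, nc_b, nc_b]
        · rw [nc_ne c hx, nc_ne c (cx_ne hc hb x), hc]) (by
        rw [fib_eq hne hcab']
        exact acyc_contr hCTA hTRE hac ⟨hab, hcab'⟩) hfr (by
        intro x y x' y' h h' hx hy hxy
        obtain ⟨u, w, h1, rfl, rfl⟩ := of_contr h
        obtain ⟨u', w', h1', rfl, rfl⟩ := of_contr h'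
        rw [nc_mrg hne hcab', nc_mrg hne hcab'] at hx hy hxy
        obtain ⟨rfl, rfl⟩ := hun u w u' w' h1 h1' hx hy hxy
        exact ⟨rfl, rfl⟩) f' hF'
    rw [quo_eq hc hne hcab'] at hg1 hg2
    refine ⟨g, hg1, fun D hD => ?_⟩
    obtain ⟨C', hC', hgf, hCD⟩ := hg2 D hD
    obtain ⟨C, hC1, hC2, hC3⟩ := hf'D C' hC'
    refine ⟨C, hC1.1, hgf.trans hC3, fun x y hxy hcxy => ?_⟩
    have hme : mrg a b x ≠ mrg a b y := by
      intro e
      apply hcxy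
      rw [← c_mrg hcab' x, ← c_mrg hcab' y, e]
    have h1 := hCD (mrg a b x) (mrg a b y) (contr_mrg hne hxy hme) (by
      rw [nc_mrg hne hcab', nc_mrg hne hcab']; exact hcxy)
    rw [nc_mrg hne hcab', nc_mrg hne hcab'] at h1
    rw [← h1, ← chi_ne_zero, ← chi_ne_zero, hC2, lft_ne (fun e => ?_) (by simpa using hxy), Sym2.map_mk]
    rw [Sym2.eq_iff] at e
    rcases e with ⟨rfl, rfl⟩ | ⟨rfl, rfl⟩
    · exact hcxy hcab'
    · exact hcxy hcab

end VMCM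

theorem specVMC (hCTA : SpecCTA) (hCTF : SpecCTF) (hTRE : SpecTRE) : SpecVMC := by
  intro α _ _ G c h1 h2 h3 h4 f hf
  exact VMCM.main hCTA hCTF hTRE _ G c rfl h1 h2 h3 h4 f hf

end DL
end
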