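import Pool.Agent.DL.Y.SpecV
import Pool.Agent.DL.TREE

/-!
# MP_3ff0f8_gt, STEP Y part V, module VTR (helper23): the triangle relation
-/

open SimpleGraph Finset

namespace DL.VTRM

set_option linter.unusedSectionVars false

/-- all ends in `S` -/
def Inn {α : Type} (e : Sym2 α) (S : Finset α) : Prop := ∀ v ∈ e, v ∈ S

section basic

variable {α : Type} [Fintype α] [DecidableEq α]

theorem Inn.mono {e : Sym2 α} {S S' : Finset α} (h : Inn e S) (h1 : S ⊆ S') : Inn e S' :=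
  fun v hv => h1 (h v hv)

theorem inn_mk {a b : α} {S : Finset α} (ha : a ∈ S) (hb : b ∈ S) : Inn s(a, b) S := by
  intro v hv
  rw [Sym2.mem_iff] at hv
  rcases hv with rfl | rfl
  · exact ha
  · exact hb

theorem Inn.ex {e : Sym2 α} {S : Finset α} (h : Inn e S) : ∃ v ∈ e, v ∈ S := by
  induction e using Sym2.ind with
  | _ a b => exact ⟨a, Sym2.mem_mk_left a b, h a (Sym2.mem_mk_left a b)⟩

theorem vs_tp (hTRE : SpecTRE) {T : SimpleGraph α} {X : Finset α} {a b : α} (hT : TreeOn T X)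
    (ha : a ∈ X) (hb : b ∈ X) : vs (tp T a b) ⊆ X := by
  intro v hv
  obtain ⟨e, he, hve⟩ := mem_vs.1 hv
  have h1 := (hTRE.tp hT a ha b hb).1.subset e he
  obtain ⟨w, rfl⟩ := Sym2.mem_iff_exists.1 hve
  exact hT.inX v w h1

theorem tp_in (hTRE : SpecTRE) {T : SimpleGraph α} {X : Finset α} {a b : α} (hT : TreeOn T X)
    (ha : a ∈ X) (hb : b ∈ X) : ∀ e ∈ tp T a b, Inn e X :=
  fun e he _ hv => vs_tp hTRE hT ha hb (mem_vs.2 ⟨e, he, hv⟩)

theorem tp_edge (hTRE : SpecTRE) {T : SimpleGraph α} {X : Finset α} {a b : α} (hT : TreeOn T X)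
    (ha : a ∈ X) (hb : b ∈ X) : ∀ e ∈ tp T a b, e ∈ T.edgeSet :=
  (hTRE.tp hT a ha b hb).1.subset

theorem un4 {β : Type} [DecidableEq β] (E : Fin 4 → β) (P : Fin 4 → Finset β) :
    univ.image E ∪ univ.biUnion P = {E 0, E 1, E 2, E 3} ∪ (P 0 ∪ P 1 ∪ P 2 ∪ P 3) := by
  ext x
  constructor
  · intro h
    rw [mem_union, mem_image, mem_biUnion] at h
    rcases h with ⟨i, _, rfl⟩ | ⟨i, _, hi⟩
    · fin_cases i <;> simp
    · fin_cases i <;> simp at hi <;> simp [hi]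
  · intro h
    rw [mem_union, mem_image, mem_biUnion]
    simp only [mem_insert, mem_union, mem_singleton] at h
    rcases h with (rfl | rfl | rfl | rfl) | (((h | h) | h) | h)
    · exact Or.inl ⟨0, mem_univ _, rfl⟩
    · exact Or.inl ⟨1, mem_univ _, rfl⟩
    · exact Or.inl ⟨2, mem_univ _, rfl⟩
    · exact Or.inl ⟨3, mem_univ _, rfl⟩
    · exact Or.inr ⟨0, mem_univ _, h⟩
    · exact Or.inr ⟨1, mem_univ _, h⟩
    · exact Or.inr ⟨2, mem_univ _, h⟩
    · exact Or.inr ⟨3, mem_univ _, h⟩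

/-- the cube -/
def cube : Bool × Bool × Bool × Bool ≃ (Fin 4 → Bool) where
  toFun x := ![x.1, x.2.1, x.2.2.1, x.2.2.2]
  invFun e := (e 0, e 1, e 2, e 3)
  left_inv _ := rfl
  right_inv e := by
    funext i
    fin_cases i <;> rfl

theorem sum16 (H : (Fin 4 → Bool) → ZMod 2) :
    ∑ e : Fin 4 → Bool, H e = ∑ b0 : Bool, ∑ b1 : Bool, ∑ b2 : Bool, ∑ b3 : Bool, H ![b0, b1, b2, b3] := by
  rw [← cube.sum_comp H]
  simp only [Fintype.sum_prod_type]
  rfl

/-- only six of the sixteen terms are not zero -/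
theorem six_terms {H : (Fin 4 → Bool) → ZMod 2} (h0 : ∑ e : Fin 4 → Bool, H e = 0)
    (h3 : ∀ e, e 0 = e 3 → H e = 0) (h2 : ∀ e, e 1 = false → e 2 = false → H e = 0) :
    (H ![false, false, true, true] + H ![true, false, true, false]) +
      (H ![false, true, false, true] + H ![true, true, false, false]) +
      (H ![false, true, true, true] + H ![true, true, true, false]) = 0 := by
  rw [sum16] at h0
  simp only [Fintype.sum_bool] at h0
  simp only [h3 ![true, _, _, true] rfl, h3 ![false, _, _, false] rfl, h2 ![_, false, false, _] rfl rfl,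
    add_zero, zero_add] at h0
  linear_combination h0

/-- a path stays in `S` -/
theorem stay {G : SimpleGraph α} {s t : α} {P : Finset (Sym2 α)} (h : IsPth G s t P)
    {S S' : Finset α} (hd : Disjoint S S') (hs : s ∈ S) (hcl : ∀ e ∈ P, Inn e S ∨ Inn e S') :
    t ∈ S := by
  obtain ⟨p, -, rfl⟩ := h
  induction p with
  | nil => exact hs
  | @cons a b c hadj p ih =>
    have hb : b ∈ S := by
      rcases hcl s(a, b) (by simp) with h | h
      · exact h b (Sym2.mem_mk_right a b)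
      · exact absurd (h a (Sym2.mem_mk_left a b)) (Finset.disjoint_left.1 hd hs)
    refine ih hb fun e he => hcl e ?_
    simp only [Walk.edges_cons, List.toFinset_cons, mem_insert]
    exact Or.inr he

/-- the value of a type IV cycle from the position of its vertices -/
theorem val (hVLC : SpecVLC) {R : SimpleGraph α} {t₁ t₂ t₃ : α} {ψ : Finset (Sym2 α) → ZMod 2}
    {c : α → α → ZMod 2} (tri : Trg R t₁ t₂ t₃)
    (hc : ∀ v w A B, LNK R t₁ t₂ t₃ v w A B → ψ (c4c t₁ t₂ t₃ v w A B) = c v w)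
    {C : Finset (Sym2 α)} (hC : IsCyc R C) (h12 : s(t₁, t₂) ∈ C) (h13 : s(t₁, t₃) ∉ C)
    (h23 : s(t₂, t₃) ∉ C) {S₁ S₂ : Finset α} (hd : Disjoint S₁ S₂) (m1 : t₁ ∈ S₁) (m2 : t₂ ∈ S₂)
    {y₁ y₂ : α} (hy1 : y₁ ∈ S₁) (hy2 : y₂ ∈ S₂) (e1 : s(t₃, y₁) ∈ C) (e2 : s(t₃, y₂) ∈ C)
    (hcl : ∀ e ∈ C, e = s(t₁, t₂) ∨ t₃ ∈ e ∨ Inn e S₁ ∨ Inn e S₂) : ψ C = c y₁ y₂ := by
  obtain ⟨v, w, A, B, hL, rfl⟩ := hVLC.dec tri hC h12 h13 h23 (left_mem_vs e1)
  have dA := vs_of_isPth_del hL.pA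
  have dB := vs_of_isPth_del hL.pB
  have hAC : ∀ e ∈ A, e ∈ c4c t₁ t₂ t₃ v w A B := fun e he => by
    unfold c4c
    simp only [mem_insert, mem_union]
    exact Or.inr (Or.inr (Or.inr (Or.inl he)))
  have hBC : ∀ e ∈ B, e ∈ c4c t₁ t₂ t₃ v w A B := fun e he => by
    unfold c4c
    simp only [mem_insert, mem_union]
    exact Or.inr (Or.inr (Or.inr (Or.inr he)))
  have hv : v ∈ S₁ := by
    refine stay hL.pA hd m1 fun e he => ?_
    rcases hcl e (hAC e he) with h | h | h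
    · exfalso
      subst h
      exact Finset.disjoint_left.1 dA (right_mem_vs he) (by simp)
    · exfalso
      exact Finset.disjoint_left.1 dA (mem_vs.2 ⟨e, he, h⟩) (by simp)
    · exact h
  have hw : w ∈ S₂ := by
    refine stay hL.pB hd.symm m2 fun e he => ?_
    rcases hcl e (hBC e he) with h | h | h
    · exfalso
      subst h
      exact Finset.disjoint_left.1 dB (left_mem_vs he) (by simp)
    · exfalso
      exact Finset.disjoint_left.1 dB (mem_vs.2 ⟨e, he, h⟩) (by simp)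
    · exact h.symm
  have key : ∀ y, s(t₃, y) ∈ c4c t₁ t₂ t₃ v w A B → y = v ∨ y = w := by
    intro y hy
    unfold c4c at hy
    simp only [mem_insert, mem_union] at hy
    rcases hy with h | h | h | h | h
    · exfalso
      rw [Sym2.eq_iff] at h
      rcases h with h | h
      · exact tri.2.1.ne h.1.symm
      · exact tri.2.2.ne h.1.symm
    · exact Or.inl (Sym2.congr_right.1 h)
    · exact Or.inr (Sym2.congr_right.1 h)
    · exact absurd (show t₃ ∈ ({t₂, t₃} : Finset α) by simp)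
        (Finset.disjoint_left.1 dA (left_mem_vs h))
    · exact absurd (show t₃ ∈ ({t₁, t₃} : Finset α) by simp)
        (Finset.disjoint_left.1 dB (left_mem_vs h))
  have hy1' : y₁ = v := (key y₁ e1).resolve_right fun h => Finset.disjoint_left.1 hd hy1 (h ▸ hw)
  have hy2' : y₂ = w := (key y₂ e2).resolve_left fun h => Finset.disjoint_left.1 hd hv (h ▸ hy2)
  rw [hc v w A B hL, hy1', hy2']

end basic

/-- the configuration -/
structure Cf {α : Type} [Fintype α] [DecidableEq α] (R : SimpleGraph α) (t₁ t₂ t₃ x u w : α)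
    (T₁ T₂ X U W : Finset α) (τ₁ τ₂ τX τU τW : SimpleGraph α)
    (a₁ a₂ b₁ b₂ c₁ d₁ c₂ d₂ f₁ f₂ g₁ g₂ : α) : Prop where
  tri : Trg R t₁ t₂ t₃
  h1 : TreeOn τ₁ T₁
  h2 : TreeOn τ₂ T₂
  hX : TreeOn τX X
  hU : TreeOn τU U
  hW : TreeOn τW W
  l1 : τ₁ ≤ R
  l2 : τ₂ ≤ R
  lX : τX ≤ R
  lU : τU ≤ R
  lW : τW ≤ R
  m1 : t₁ ∈ T₁
  m2 : t₂ ∈ T₂
  mx : x ∈ X
  mu : u ∈ U
  mw : w ∈ W
  n1 : t₃ ∉ T₁
  n2 : t₃ ∉ T₂
  nX : t₃ ∉ X
  nU : t₃ ∉ U
  nW : t₃ ∉ W
  d12 : Disjoint T₁ T₂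
  d1X : Disjoint T₁ X
  d1U : Disjoint T₁ U
  d1W : Disjoint T₁ W
  d2X : Disjoint T₂ X
  d2U : Disjoint T₂ U
  d2W : Disjoint T₂ W
  dXU : Disjoint X U
  dXW : Disjoint X W
  dUW : Disjoint U W
  ax : R.Adj t₃ x
  au : R.Adj t₃ u
  aw : R.Adj t₃ w
  a1 : a₁ ∈ T₁
  a2 : a₂ ∈ T₂
  b1 : b₁ ∈ U
  b2 : b₂ ∈ U
  ab1 : R.Adj a₁ b₁
  ab2 : R.Adj a₂ b₂
  c1 : c₁ ∈ U
  e1 : d₁ ∈ X
  cd1 : R.Adj c₁ d₁
  c2 : c₂ ∈ X
  e2 : d₂ ∈ W
  cd2 : R.Adj c₂ d₂
  f1 : f₁ ∈ W
  f2 : f₂ ∈ W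
  g1 : g₁ ∈ T₁
  g2 : g₂ ∈ T₂
  fg1 : R.Adj f₁ g₁
  fg2 : R.Adj f₂ g₂

section minor

variable {α : Type} [Fintype α] [DecidableEq α] {R : SimpleGraph α} {t₁ t₂ t₃ x u w : α}
  {T₁ T₂ X U W : Finset α} {τ₁ τ₂ τX τU τW : SimpleGraph α}
  {a₁ a₂ b₁ b₂ c₁ d₁ c₂ d₂ f₁ f₂ g₁ g₂ : α}

/-- the tree on `T₁ ∪ T₂` -/
def TA (t₁ t₂ : α) (τ₁ τ₂ : SimpleGraph α) : SimpleGraph α := τ₁ ⊔ (τ₂ ⊔ fromEdgeSet {s(t₂, t₁)})

/-- the tree on `X ∪ {t₃}` -/
def TB (x t₃ : α) (τX : SimpleGraph α) : SimpleGraph α := τX ⊔ fromEdgeSet {s(x, t₃)}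

def XX (t₃ : α) (T₁ T₂ X U W : Finset α) : Fin 4 → Finset α := ![T₁ ∪ T₂, U, insert t₃ X, W]

def TT (t₁ t₂ x t₃ : α) (τ₁ τ₂ τX τU τW : SimpleGraph α) : Fin 4 → SimpleGraph α :=
  ![TA t₁ t₂ τ₁ τ₂, τU, TB x t₃ τX, τW]

def pp (a₁ a₂ c₁ u c₂ t₃ f₁ f₂ : α) : Fin 4 → Bool → α :=
  ![fun b => if b then a₂ else a₁, fun b => if b then u else c₁, fun b => if b then t₃ else c₂,
    fun b => if b then f₂ else f₁]

def qq (b₁ b₂ d₁ t₃ d₂ w g₁ g₂ : α) : Fin 4 → Bool → α :=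
  ![fun b => if b then b₂ else b₁, fun b => if b then t₃ else d₁, fun b => if b then w else d₂,
    fun b => if b then g₂ else g₁]

variable (K : Cf R t₁ t₂ t₃ x u w T₁ T₂ X U W τ₁ τ₂ τX τU τW a₁ a₂ b₁ b₂ c₁ d₁ c₂ d₂ f₁ f₂ g₁ g₂)
include K

theorem tA (hTRE : SpecTRE) : TreeOn (TA t₁ t₂ τ₁ τ₂) (T₁ ∪ T₂) ∧
    ∀ y ∈ T₁, ∀ z ∈ T₂, s(t₁, t₂) ∈ tp (TA t₁ t₂ τ₁ τ₂) y z := by
  have n1 : t₁ ∉ T₂ := Finset.disjoint_left.1 K.d12 K.m1
  obtain ⟨h1, h2⟩ := hTRE.grow K.h2 K.m2 n1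
  have hi : T₁ ∩ insert t₁ T₂ = {t₁} := by
    ext z
    simp only [mem_inter, mem_insert, mem_singleton]
    constructor
    · rintro ⟨h, rfl | h'⟩
      · rfl
      · exact absurd h' (Finset.disjoint_left.1 K.d12 h)
    · rintro rfl
      exact ⟨K.m1, Or.inl rfl⟩
  obtain ⟨h3, h4⟩ := hTRE.glue K.h1 h1 hi
  have hu : T₁ ∪ insert t₁ T₂ = T₁ ∪ T₂ := by
    ext z
    simp only [mem_union, mem_insert]
    constructor
    · rintro (h | rfl | h)
      · exact Or.inl h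
      · exact Or.inl K.m1
      · exact Or.inr h
    · rintro (h | h)
      · exact Or.inl h
      · exact Or.inr (Or.inr h)
  rw [hu] at h3
  refine ⟨h3, fun y hy z hz => ?_⟩
  unfold TA
  rw [h4 y hy z (mem_insert_of_mem hz), tp_comm h1.acyc t₁ z, h2 z hz]
  simp [Sym2.eq_swap]

theorem tB (hTRE : SpecTRE) : TreeOn (TB x t₃ τX) (insert t₃ X) ∧
    ∀ y ∈ X, s(x, t₃) ∈ tp (TB x t₃ τX) y t₃ := by
  obtain ⟨h1, h2⟩ := hTRE.grow K.hX K.mx K.nX
  refine ⟨h1, fun y hy => ?_⟩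
  unfold TB
  rw [h2 y hy]
  exact mem_insert_self _ _

theorem trees (hTRE : SpecTRE) (i : Fin 4) :
    TreeOn (TT t₁ t₂ x t₃ τ₁ τ₂ τX τU τW i) (XX t₃ T₁ T₂ X U W i) := by
  fin_cases i
  · exact (tA K hTRE).1
  · exact K.hU
  · exact (tB K hTRE).1
  · exact K.hW

/-- edges of the first tree -/
theorem eA (hTRE : SpecTRE) {y z : α} (hy : y ∈ T₁ ∪ T₂) (hz : z ∈ T₁ ∪ T₂) :
    ∀ e ∈ tp (TA t₁ t₂ τ₁ τ₂) y z, e = s(t₁, t₂) ∨ Inn e T₁ ∨ Inn e T₂ := by
  intro e he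
  have h := tp_edge hTRE (tA K hTRE).1 hy hz e he
  induction e using Sym2.ind with
  | _ a b =>
    have h' : (TA t₁ t₂ τ₁ τ₂).Adj a b := h
    unfold TA at h'
    rw [sup_adj, sup_adj, fromEdgeSet_adj, Set.mem_singleton_iff] at h'
    rcases h' with h | h | h
    · exact Or.inr (Or.inl (inn_mk (K.h1.inX _ _ h) (K.h1.inX _ _ h.symm)))
    · exact Or.inr (Or.inr (inn_mk (K.h2.inX _ _ h) (K.h2.inX _ _ h.symm)))
    · left
      rw [h.1, Sym2.eq_swap]

theorem eB (hTRE : SpecTRE) {y z : α} (hy : y ∈ insert t₃ X) (hz : z ∈ insert t₃ X) :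
    ∀ e ∈ tp (TB x t₃ τX) y z, e = s(x, t₃) ∨ Inn e X := by
  intro e he
  have h := tp_edge hTRE (tB K hTRE).1 hy hz e he
  induction e using Sym2.ind with
  | _ a b =>
    have h' : (TB x t₃ τX).Adj a b := h
    unfold TB at h'
    rw [sup_adj, fromEdgeSet_adj, Set.mem_singleton_iff] at h'
    rcases h' with h | h
    · exact Or.inr (inn_mk (K.hX.inX _ _ h) (K.hX.inX _ _ h.symm))
    · exact Or.inl h.1

theorem eA1 (hTRE : SpecTRE) {y z : α} (hy : y ∈ T₁) (hz : z ∈ T₁) :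
    ∀ e ∈ tp (TA t₁ t₂ τ₁ τ₂) y z, Inn e T₁ := by
  have h := hTRE.tpm K.h1 (tA K hTRE).1 le_sup_left subset_union_left y hy z hz
  unfold TA at h ⊢
  rw [h]
  exact tp_in hTRE K.h1 hy hz

theorem eA2 (hTRE : SpecTRE) {y z : α} (hy : y ∈ T₂) (hz : z ∈ T₂) :
    ∀ e ∈ tp (TA t₁ t₂ τ₁ τ₂) y z, Inn e T₂ := by
  have h := hTRE.tpm K.h2 (tA K hTRE).1 (le_sup_left.trans le_sup_right) subset_union_right y hy z hz
  rw [h]
  exact tp_in hTRE K.h2 hy hz

theorem eB1 (hTRE : SpecTRE) {y z : α} (hy : y ∈ X) (hz : z ∈ X) :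
    ∀ e ∈ tp (TB x t₃ τX) y z, Inn e X := by
  have h := hTRE.tpm K.hX (tB K hTRE).1 le_sup_left (subset_insert _ _) y hy z hz
  rw [h]
  exact tp_in hTRE K.hX hy hz

theorem exists_minor (hTRE : SpecTRE) : ∃ D : D4M R, D.X = XX t₃ T₁ T₂ X U W ∧
    D.T = TT t₁ t₂ x t₃ τ₁ τ₂ τX τU τW ∧ D.p = pp a₁ a₂ c₁ u c₂ t₃ f₁ f₂ ∧
    D.q = qq b₁ b₂ d₁ t₃ d₂ w g₁ g₂ := by
  have dj : ∀ {S S' : Finset α}, Disjoint S S' → ∀ {z}, z ∈ S → z ∈ S' → False :=
    fun h _ h1 h2 => Finset.disjoint_left.1 h h1 h2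
  have hdis : ∀ i j, i < j → Disjoint (XX t₃ T₁ T₂ X U W i) (XX t₃ T₁ T₂ X U W j) := by
    intro i j hij
    rw [Finset.disjoint_left]
    intro z hz hz'
    fin_cases i <;> fin_cases j <;> first | exact absurd hij (by decide) | skip
    · change z ∈ T₁ ∪ T₂ at hz
      change z ∈ U at hz'
      rcases mem_union.1 hz with h | h
      · exact dj K.d1U h hz'
      · exact dj K.d2U h hz'
    · change z ∈ T₁ ∪ T₂ at hz
      change z ∈ insert t₃ X at hz'
      rcases mem_insert.1 hz' with h' | h' <;> rcases mem_union.1 hz with h | h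
      · exact K.n1 (h' ▸ h)
      · exact K.n2 (h' ▸ h)
      · exact dj K.d1X h h'
      · exact dj K.d2X h h'
    · change z ∈ T₁ ∪ T₂ at hz
      change z ∈ W at hz'
      rcases mem_union.1 hz with h | h
      · exact dj K.d1W h hz'
      · exact dj K.d2W h hz'
    · change z ∈ U at hz
      change z ∈ insert t₃ X at hz'
      rcases mem_insert.1 hz' with h' | h'
      · exact K.nU (h' ▸ hz)
      · exact dj K.dXU h' hz
    · exact dj K.dUW hz hz'
    · change z ∈ insert t₃ X at hz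
      change z ∈ W at hz'
      rcases mem_insert.1 hz with h | h
      · exact K.nW (h ▸ hz')
      · exact dj K.dXW h hz'
  have hsub : ∀ i, TT t₁ t₂ x t₃ τ₁ τ₂ τX τU τW i ≤ R := by
    intro i
    fin_cases i
    · refine sup_le K.l1 (sup_le K.l2 ?_)
      intro y z hyz
      rw [fromEdgeSet_adj, Set.mem_singleton_iff] at hyz
      rw [← mem_edgeSet, hyz.1]
      exact K.tri.1.symm
    · exact K.lU
    · refine sup_le K.lX ?_
      intro y z hyz
      rw [fromEdgeSet_adj, Set.mem_singleton_iff] at hyz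
      rw [← mem_edgeSet, hyz.1]
      exact K.ax.symm
    · exact K.lW
  refine ⟨{ X := XX t₃ T₁ T₂ X U W
            disj := fun i j hij => ?_
            T := TT t₁ t₂ x t₃ τ₁ τ₂ τX τU τW
            sub := hsub
            inX := fun i => (trees K hTRE i).inX
            conn := fun i => (trees K hTRE i).conn
            acyc := fun i => (trees K hTRE i).acyc
            p := pp a₁ a₂ c₁ u c₂ t₃ f₁ f₂
            q := qq b₁ b₂ d₁ t₃ d₂ w g₁ g₂
            pX := ?_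
            qX := ?_
            adj := ?_
            ne := ?_ }, rfl, rfl, rfl, rfl⟩
  · rcases lt_or_gt_of_ne hij with h | h
    · exact hdis i j h
    · exact (hdis j i h).symm
  · intro i b
    fin_cases i <;> cases b
    · exact mem_union_left _ K.a1
    · exact mem_union_right _ K.a2
    · exact K.c1
    · exact K.mu
    · exact mem_insert_of_mem K.c2
    · exact mem_insert_self _ _
    · exact K.f1
    · exact K.f2
  · intro i b
    fin_cases i <;> cases b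
    · exact K.b1
    · exact K.b2
    · exact mem_insert_of_mem K.e1
    · exact mem_insert_self _ _
    · exact K.e2
    · exact K.mw
    · exact mem_union_left _ K.g1
    · exact mem_union_right _ K.g2
  · intro i b
    fin_cases i <;> cases b
    · exact K.ab1
    · exact K.ab2
    · exact K.cd1
    · exact K.au.symm
    · exact K.cd2
    · exact K.aw
    · exact K.fg1
    · exact K.fg2
  · intro i
    fin_cases i
    · show s(a₁, b₁) ≠ s(a₂, b₂)
      intro h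
      rw [Sym2.eq_iff] at h
      rcases h with h | h
      · exact dj K.d12 K.a1 (h.1 ▸ K.a2)
      · exact dj K.d1U K.a1 (h.1 ▸ K.b2)
    · show s(c₁, d₁) ≠ s(u, t₃)
      intro h
      rw [Sym2.eq_iff] at h
      rcases h with h | h
      · exact K.nX (h.2 ▸ K.e1)
      · exact K.nU (h.1 ▸ K.c1)
    · show s(c₂, d₂) ≠ s(t₃, w)
      intro h
      rw [Sym2.eq_iff] at h
      rcases h with h | h
      · exact K.nX (h.1 ▸ K.c2)
      · exact K.nW (h.2 ▸ K.e2)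
    · show s(f₁, g₁) ≠ s(f₂, g₂)
      intro h
      rw [Sym2.eq_iff] at h
      rcases h with h | h
      · exact dj K.d12 K.g1 (h.2 ▸ K.g2)
      · exact dj K.d1W K.g1 (h.2 ▸ K.f2)

/-- the cycles -/
theorem cyc_eq {D : D4M R} (hT : D.T = TT t₁ t₂ x t₃ τ₁ τ₂ τX τU τW)
    (hp : D.p = pp a₁ a₂ c₁ u c₂ t₃ f₁ f₂) (hq : D.q = qq b₁ b₂ d₁ t₃ d₂ w g₁ g₂)
    (e : Fin 4 → Bool) : D.cyc e =
      {s(if e 0 then a₂ else a₁, if e 0 then b₂ else b₁),
        s(if e 1 then u else c₁, if e 1 then t₃ else d₁),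
        s(if e 2 then t₃ else c₂, if e 2 then w else d₂),
        s(if e 3 then f₂ else f₁, if e 3 then g₂ else g₁)} ∪
      (tp τU (if e 0 then b₂ else b₁) (if e 1 then u else c₁) ∪
        tp (TB x t₃ τX) (if e 1 then t₃ else d₁) (if e 2 then t₃ else c₂) ∪
        tp τW (if e 2 then w else d₂) (if e 3 then f₂ else f₁) ∪
        tp (TA t₁ t₂ τ₁ τ₂) (if e 3 then g₂ else g₁) (if e 0 then a₂ else a₁)) := by
  have h1 : D.cyc e = _ := un4 (fun i => s(D.p i (e i), D.q i (e i)))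
    (fun i => tp (D.T (i + 1)) (D.q i (e i)) (D.p (i + 1) (e (i + 1))))
  rw [h1, hT, hp, hq]
  rfl

/-- a case distinction for the edges of a cycle -/
theorem edge_cases (hTRE : SpecTRE) {D : D4M R} (hT : D.T = TT t₁ t₂ x t₃ τ₁ τ₂ τX τU τW)
    (hp : D.p = pp a₁ a₂ c₁ u c₂ t₃ f₁ f₂) (hq : D.q = qq b₁ b₂ d₁ t₃ d₂ w g₁ g₂)
    (e : Fin 4 → Bool) {h : Sym2 α} (hh : h ∈ D.cyc e) :
    h = s(if e 0 then a₂ else a₁, if e 0 then b₂ else b₁) ∨
    h = s(if e 1 then u else c₁, if e 1 then t₃ else d₁) ∨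
    h = s(if e 2 then t₃ else c₂, if e 2 then w else d₂) ∨
    h = s(if e 3 then f₂ else f₁, if e 3 then g₂ else g₁) ∨ Inn h U ∨
    h ∈ tp (TB x t₃ τX) (if e 1 then t₃ else d₁) (if e 2 then t₃ else c₂) ∨ Inn h W ∨
    h ∈ tp (TA t₁ t₂ τ₁ τ₂) (if e 3 then g₂ else g₁) (if e 0 then a₂ else a₁) := by
  rw [cyc_eq K hT hp hq e] at hh
  simp only [mem_union, mem_insert, mem_singleton] at hh
  rcases hh with (h0 | h0 | h0 | h0) | (((h0 | h0) | h0) | h0)
  · exact Or.inl h0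
  · exact Or.inr (Or.inl h0)
  · exact Or.inr (Or.inr (Or.inl h0))
  · exact Or.inr (Or.inr (Or.inr (Or.inl h0)))
  · refine Or.inr (Or.inr (Or.inr (Or.inr (Or.inl (tp_in hTRE K.hU ?_ ?_ h h0)))))
    · split
      · exact K.b2
      · exact K.b1
    · split
      · exact K.mu
      · exact K.c1
  · exact Or.inr (Or.inr (Or.inr (Or.inr (Or.inr (Or.inl h0)))))
  · refine Or.inr (Or.inr (Or.inr (Or.inr (Or.inr (Or.inr (Or.inl (tp_in hTRE K.hW ?_ ?_ h h0)))))))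
    · split
      · exact K.mw
      · exact K.e2
    · split
      · exact K.f2
      · exact K.f1
  · exact Or.inr (Or.inr (Or.inr (Or.inr (Or.inr (Or.inr (Or.inr h0))))))

theorem mAA (b : Bool) : (if b then a₂ else a₁) ∈ T₁ ∪ T₂ := by
  cases b
  · exact mem_union_left _ K.a1
  · exact mem_union_right _ K.a2

theorem mGG (b : Bool) : (if b then g₂ else g₁) ∈ T₁ ∪ T₂ := by
  cases b
  · exact mem_union_left _ K.g1
  · exact mem_union_right _ K.g2

theorem mD (b : Bool) : (if b then t₃ else d₁) ∈ insert t₃ X := by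
  cases b
  · exact mem_insert_of_mem K.e1
  · exact mem_insert_self _ _

theorem mC (b : Bool) : (if b then t₃ else c₂) ∈ insert t₃ X := by
  cases b
  · exact mem_insert_of_mem K.c2
  · exact mem_insert_self _ _

/-- the regions -/
theorem regions (hTRE : SpecTRE) {D : D4M R} (hT : D.T = TT t₁ t₂ x t₃ τ₁ τ₂ τX τU τW)
    (hp : D.p = pp a₁ a₂ c₁ u c₂ t₃ f₁ f₂) (hq : D.q = qq b₁ b₂ d₁ t₃ d₂ w g₁ g₂)
    (e : Fin 4 → Bool) (h03 : e 3 = !e 0) (h12 : e 1 = true ∨ e 2 = true) {h : Sym2 α}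
    (hh : h ∈ D.cyc e) : h = s(t₁, t₂) ∨ t₃ ∈ h ∨
      Inn h ((if e 0 then T₂ else T₁) ∪ (if e 2 then U ∪ X else U)) ∨
      Inn h ((if e 0 then T₁ else T₂) ∪ (if e 2 then W else W ∪ X)) := by
  have sU : U ⊆ (if e 0 then T₂ else T₁) ∪ (if e 2 then U ∪ X else U) := by
    refine subset_trans ?_ subset_union_right
    split
    · exact subset_union_left
    · exact Subset.refl _
  have sW : W ⊆ (if e 0 then T₁ else T₂) ∪ (if e 2 then W else W ∪ X) := by
    refine subset_trans ?_ subset_union_right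
    split
    · exact Subset.refl _
    · exact subset_union_left
  have sX : ∀ {h : Sym2 α}, Inn h X → Inn h ((if e 0 then T₂ else T₁) ∪ (if e 2 then U ∪ X else U)) ∨
      Inn h ((if e 0 then T₁ else T₂) ∪ (if e 2 then W else W ∪ X)) := by
    intro h hX
    cases he : e 2
    · right
      exact hX.mono (subset_trans (by simp) subset_union_right)
    · left
      exact hX.mono (subset_trans (by simp) subset_union_right)
  rcases edge_cases K hTRE hT hp hq e hh with h0 | h0 | h0 | h0 | h0 | h0 | h0 | h0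
  · right; right; left
    rw [h0]
    apply inn_mk
    · apply mem_union_left
      cases e 0
      · exact K.a1
      · exact K.a2
    · apply sU
      cases e 0
      · exact K.b1
      · exact K.b2
  · cases he : e 1
    · rw [he] at h0 h12
      have h2 : e 2 = true := by simpa using h12
      right; right; left
      rw [h0]
      apply inn_mk
      · exact sU K.c1
      · rw [h2]
        exact mem_union_right _ (mem_union_right _ K.e1)
    · right; left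
      rw [h0, he]
      exact Sym2.mem_mk_right _ _
  · cases he : e 2
    · right; right; right
      rw [h0, he]
      apply inn_mk
      · exact mem_union_right _ (mem_union_right _ K.c2)
      · exact mem_union_right _ (mem_union_left _ K.e2)
    · right; left
      rw [h0, he]
      exact Sym2.mem_mk_left _ _
  · right; right; right
    rw [h0, h03]
    apply inn_mk
    · apply sW
      cases e 0
      · exact K.f2
      · exact K.f1
    · apply mem_union_left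
      cases e 0
      · exact K.g2
      · exact K.g1
  · exact Or.inr (Or.inr (Or.inl (h0.mono sU)))
  · rcases eB K hTRE (mD K _) (mC K _) h h0 with h1 | h1
    · right; left
      rw [h1]
      exact Sym2.mem_mk_right _ _
    · right; right
      exact sX h1
  · exact Or.inr (Or.inr (Or.inr (h0.mono sW)))
  · rcases eA K hTRE (mGG K _) (mAA K _) h h0 with h1 | h1 | h1
    · exact Or.inl h1
    · right; right
      cases he : e 0
      · left
        exact h1.mono (by simp)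
      · right
        exact h1.mono (by simp)
    · right; right
      cases he : e 0
      · right
        exact h1.mono (by simp)
      · left
        exact h1.mono (by simp)

/-- the edges at `t₃` -/
theorem at3 (hTRE : SpecTRE) {D : D4M R} (hT : D.T = TT t₁ t₂ x t₃ τ₁ τ₂ τX τU τW)
    (hp : D.p = pp a₁ a₂ c₁ u c₂ t₃ f₁ f₂) (hq : D.q = qq b₁ b₂ d₁ t₃ d₂ w g₁ g₂)
    (e : Fin 4 → Bool) {y : α} (hh : s(y, t₃) ∈ D.cyc e) (hy : y ∈ T₁ ∪ T₂) : False := by
  have dj : ∀ {S S' : Finset α}, Disjoint S S' → ∀ {z}, z ∈ S → z ∈ S' → False :=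
    fun h _ h1 h2 => Finset.disjoint_left.1 h h1 h2
  have n3 : t₃ ∉ T₁ ∪ T₂ := by
    rw [mem_union, not_or]
    exact ⟨K.n1, K.n2⟩
  have dTU : Disjoint (T₁ ∪ T₂) U := disjoint_union_left.2 ⟨K.d1U, K.d2U⟩
  have dTX : Disjoint (T₁ ∪ T₂) X := disjoint_union_left.2 ⟨K.d1X, K.d2X⟩
  have dTW : Disjoint (T₁ ∪ T₂) W := disjoint_union_left.2 ⟨K.d1W, K.d2W⟩
  have hyt : y ≠ t₃ := fun h => n3 (h ▸ hy)
  rcases edge_cases K hTRE hT hp hq e hh with h0 | h0 | h0 | h0 | h0 | h0 | h0 | h0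
  · -- `t₃` would be an end of an edge from `T` to `U`
    rw [Sym2.eq_iff] at h0
    have mb : (if e 0 then b₂ else b₁) ∈ U := by
      split
      · exact K.b2
      · exact K.b1
    rcases h0 with h1 | h1
    · exact K.nU (h1.2 ▸ mb)
    · exact dj dTU hy (h1.1 ▸ mb)
  · rw [Sym2.eq_iff] at h0
    have mc : (if e 1 then u else c₁) ∈ U := by
      split
      · exact K.mu
      · exact K.c1
    have md := mD K (e 1)
    rcases h0 with h1 | h1
    · exact dj dTU hy (h1.1 ▸ mc)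
    · exact K.nU (h1.2 ▸ mc)
  · rw [Sym2.eq_iff] at h0
    have mw' : (if e 2 then w else d₂) ∈ W := by
      split
      · exact K.mw
      · exact K.e2
    rcases h0 with h1 | h1
    · exact K.nW (h1.2 ▸ mw')
    · exact dj dTW hy (h1.1 ▸ mw')
  · rw [Sym2.eq_iff] at h0
    have mf : (if e 3 then f₂ else f₁) ∈ W := by
      split
      · exact K.f2
      · exact K.f1
    rcases h0 with h1 | h1
    · exact dj dTW hy (h1.1 ▸ mf)
    · exact K.nW (h1.2 ▸ mf)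
  · exact K.nU (h0 t₃ (Sym2.mem_mk_right _ _))
  · rcases eB K hTRE (mD K _) (mC K _) _ h0 with h1 | h1
    · rw [Sym2.eq_iff] at h1
      rcases h1 with h2 | h2
      · exact dj dTX hy (h2.1 ▸ K.mx)
      · exact hyt h2.1
    · exact K.nX (h1 t₃ (Sym2.mem_mk_right _ _))
  · exact K.nW (h0 t₃ (Sym2.mem_mk_right _ _))
  · rcases eA K hTRE (mGG K _) (mAA K _) _ h0 with h1 | h1 | h1
    · rw [Sym2.eq_iff] at h1
      rcases h1 with h2 | h2
      · exact n3 (h2.2 ▸ mem_union_right _ K.m2)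
      · exact n3 (h2.2 ▸ mem_union_left _ K.m1)
    · exact K.n1 (h1 t₃ (Sym2.mem_mk_right _ _))
    · exact K.n2 (h1 t₃ (Sym2.mem_mk_right _ _))

/-- `e 0 = e 3`: the edge `t₁t₂` is not used -/
theorem no12 (hTRE : SpecTRE) {D : D4M R} (hT : D.T = TT t₁ t₂ x t₃ τ₁ τ₂ τX τU τW)
    (hp : D.p = pp a₁ a₂ c₁ u c₂ t₃ f₁ f₂) (hq : D.q = qq b₁ b₂ d₁ t₃ d₂ w g₁ g₂)
    (e : Fin 4 → Bool) (h03 : e 0 = e 3) (hh : s(t₁, t₂) ∈ D.cyc e) : False := by
  have dj : ∀ {S S' : Finset α}, Disjoint S S' → ∀ {z}, z ∈ S → z ∈ S' → False :=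
    fun h _ h1 h2 => Finset.disjoint_left.1 h h1 h2
  have dTU : Disjoint (T₁ ∪ T₂) U := disjoint_union_left.2 ⟨K.d1U, K.d2U⟩
  have dTW : Disjoint (T₁ ∪ T₂) W := disjoint_union_left.2 ⟨K.d1W, K.d2W⟩
  have dTX : Disjoint (T₁ ∪ T₂) (insert t₃ X) := by
    rw [Finset.disjoint_left]
    intro z hz hz'
    rcases mem_insert.1 hz' with h' | h' <;> rcases mem_union.1 hz with h | h
    · exact K.n1 (h' ▸ h)
    · exact K.n2 (h' ▸ h)
    · exact dj K.d1X h h'
    · exact dj K.d2X h h'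
  have key : ∀ {z : α} {S : Finset α}, Disjoint (T₁ ∪ T₂) S → z ∈ S → z ∈ s(t₁, t₂) → False := by
    intro z S hS hz hm
    rw [Sym2.mem_iff] at hm
    rcases hm with rfl | rfl
    · exact dj hS (mem_union_left _ K.m1) hz
    · exact dj hS (mem_union_right _ K.m2) hz
  rcases edge_cases K hTRE hT hp hq e hh with h0 | h0 | h0 | h0 | h0 | h0 | h0 | h0
  · refine key dTU (z := if e 0 then b₂ else b₁) ?_ (h0 ▸ Sym2.mem_mk_right _ _)
    split
    · exact K.b2
    · exact K.b1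
  · refine key dTU (z := if e 1 then u else c₁) ?_ (h0 ▸ Sym2.mem_mk_left _ _)
    split
    · exact K.mu
    · exact K.c1
  · refine key dTW (z := if e 2 then w else d₂) ?_ (h0 ▸ Sym2.mem_mk_right _ _)
    split
    · exact K.mw
    · exact K.e2
  · refine key dTW (z := if e 3 then f₂ else f₁) ?_ (h0 ▸ Sym2.mem_mk_left _ _)
    split
    · exact K.f2
    · exact K.f1
  · exact key dTU (h0 t₁ (Sym2.mem_mk_left _ _)) (Sym2.mem_mk_left _ _)
  · have := tp_in hTRE (tB K hTRE).1 (mD K _) (mC K _) _ h0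
    exact key dTX (this t₁ (Sym2.mem_mk_left _ _)) (Sym2.mem_mk_left _ _)
  · exact key dTW (h0 t₁ (Sym2.mem_mk_left _ _)) (Sym2.mem_mk_left _ _)
  · rw [h03] at h0
    cases he : e 3
    · rw [he] at h0
      exact dj K.d12 (eA1 K hTRE K.g1 K.a1 _ h0 t₂ (Sym2.mem_mk_right _ _)) K.m2
    · rw [he] at h0
      exact dj K.d12 K.m1 (eA2 K hTRE K.g2 K.a2 _ h0 t₁ (Sym2.mem_mk_left _ _))

/-- `e 1 = e 2 = false`: `t₃` is not on the cycle -/
theorem no3 (hTRE : SpecTRE) {D : D4M R} (hT : D.T = TT t₁ t₂ x t₃ τ₁ τ₂ τX τU τW)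
    (hp : D.p = pp a₁ a₂ c₁ u c₂ t₃ f₁ f₂) (hq : D.q = qq b₁ b₂ d₁ t₃ d₂ w g₁ g₂)
    (e : Fin 4 → Bool) (h1 : e 1 = false) (h2 : e 2 = false) (hh : t₃ ∈ vs (D.cyc e)) : False := by
  obtain ⟨h, hh, h3⟩ := mem_vs.1 hh
  rcases edge_cases K hTRE hT hp hq e hh with h0 | h0 | h0 | h0 | h0 | h0 | h0 | h0
  · rw [h0, Sym2.mem_iff] at h3
    rcases h3 with h3 | h3
    · have : t₃ ∈ T₁ ∪ T₂ := h3 ▸ mAA K (e 0)
      rcases mem_union.1 this with h4 | h4
      · exact K.n1 h4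
      · exact K.n2 h4
    · apply K.nU
      rw [h3]
      split
      · exact K.b2
      · exact K.b1
  · rw [h0, h1, Sym2.mem_iff] at h3
    rcases h3 with h3 | h3
    · exact K.nU (h3 ▸ K.c1)
    · exact K.nX (h3 ▸ K.e1)
  · rw [h0, h2, Sym2.mem_iff] at h3
    rcases h3 with h3 | h3
    · exact K.nX (h3 ▸ K.c2)
    · exact K.nW (h3 ▸ K.e2)
  · rw [h0, Sym2.mem_iff] at h3
    rcases h3 with h3 | h3
    · apply K.nW
      rw [h3]
      split
      · exact K.f2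
      · exact K.f1
    · have : t₃ ∈ T₁ ∪ T₂ := h3 ▸ mGG K (e 3)
      rcases mem_union.1 this with h4 | h4
      · exact K.n1 h4
      · exact K.n2 h4
  · exact K.nU (h0 _ h3)
  · rw [h1, h2] at h0
    exact K.nX (eB1 K hTRE K.e1 K.c2 _ h0 _ h3)
  · exact K.nW (h0 _ h3)
  · rcases eA K hTRE (mGG K _) (mAA K _) h h0 with h4 | h4 | h4
    · rw [h4, Sym2.mem_iff] at h3
      rcases h3 with h3 | h3
      · exact K.n1 (h3 ▸ K.m1)
      · exact K.n2 (h3 ▸ K.m2)
    · exact K.n1 (h4 _ h3)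
    · exact K.n2 (h4 _ h3)

/-- the edges at `t₃`, existence -/
theorem yUW (hTRE : SpecTRE) {D : D4M R} (hT : D.T = TT t₁ t₂ x t₃ τ₁ τ₂ τX τU τW)
    (hp : D.p = pp a₁ a₂ c₁ u c₂ t₃ f₁ f₂) (hq : D.q = qq b₁ b₂ d₁ t₃ d₂ w g₁ g₂)
    (e : Fin 4 → Bool) (h12 : e 1 = true ∨ e 2 = true) :
    s(t₃, if e 1 then u else x) ∈ D.cyc e ∧ s(t₃, if e 2 then w else x) ∈ D.cyc e := by
  rw [cyc_eq K hT hp hq e]
  constructor
  · cases he : e 1
    · have h2 : e 2 = true := by simpa [he] using h12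
      rw [h2]
      have h3 := (tB K hTRE).2 d₁ K.e1
      rw [Sym2.eq_swap] at h3
      refine mem_union_right _ (mem_union_left _ (mem_union_left _ (mem_union_right _ ?_)))
      exact h3
    · apply mem_union_left
      simp [Sym2.eq_swap]
  · cases he : e 2
    · have h1 : e 1 = true := by simpa [he] using h12
      rw [h1]
      have h3 := (tB K hTRE).2 c₂ K.c2
      rw [Sym2.eq_swap, tp_comm (tB K hTRE).1.acyc] at h3
      refine mem_union_right _ (mem_union_left _ (mem_union_left _ (mem_union_right _ ?_)))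
      exact h3
    · apply mem_union_left
      simp

/-- `e 0 ≠ e 3`: the edge `t₁t₂` is used -/
theorem yes12 (hTRE : SpecTRE) {D : D4M R} (hT : D.T = TT t₁ t₂ x t₃ τ₁ τ₂ τX τU τW)
    (hp : D.p = pp a₁ a₂ c₁ u c₂ t₃ f₁ f₂) (hq : D.q = qq b₁ b₂ d₁ t₃ d₂ w g₁ g₂)
    (e : Fin 4 → Bool) (h03 : e 3 = !e 0) : s(t₁, t₂) ∈ D.cyc e := by
  rw [cyc_eq K hT hp hq e]
  refine mem_union_right _ (mem_union_right _ ?_)
  cases he : e 0
  · rw [h03, he]
    show s(t₁, t₂) ∈ tp (TA t₁ t₂ τ₁ τ₂) g₂ a₁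
    rw [tp_comm (tA K hTRE).1.acyc]
    exact (tA K hTRE).2 _ K.a1 _ K.g2
  · rw [h03, he]
    exact (tA K hTRE).2 _ K.g1 _ K.a2

/-- the value of the six cycles -/
theorem value (hTRE : SpecTRE) (hDCB : SpecDCB) (hVLC : SpecVLC) {D : D4M R}
    (hT : D.T = TT t₁ t₂ x t₃ τ₁ τ₂ τX τU τW)
    (hp : D.p = pp a₁ a₂ c₁ u c₂ t₃ f₁ f₂) (hq : D.q = qq b₁ b₂ d₁ t₃ d₂ w g₁ g₂)
    {ψ : Finset (Sym2 α) → ZMod 2} {c : α → α → ZMod 2}
    (hc : ∀ v w A B, LNK R t₁ t₂ t₃ v w A B → ψ (c4c t₁ t₂ t₃ v w A B) = c v w)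
    (e : Fin 4 → Bool) (h03 : e 3 = !e 0) (h12 : e 1 = true ∨ e 2 = true) :
    ψ (D.cyc e) = if e 0 then c (if e 2 then w else x) (if e 1 then u else x) else
      c (if e 1 then u else x) (if e 2 then w else x) := by
  have hC := (hDCB.cyc D e).1
  have h12' := yes12 K hTRE hT hp hq e h03
  have h13 : s(t₁, t₃) ∉ D.cyc e := fun h => at3 K hTRE hT hp hq e h (mem_union_left _ K.m1)
  have h23 : s(t₂, t₃) ∉ D.cyc e := fun h => at3 K hTRE hT hp hq e h (mem_union_right _ K.m2)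
  obtain ⟨eU, eW⟩ := yUW K hTRE hT hp hq e h12
  have hreg := fun h (hh : h ∈ D.cyc e) => regions K hTRE hT hp hq e h03 h12 hh
  have mU : (if e 1 then u else x) ∈ (if e 2 then U ∪ X else U) := by
    cases he : e 1
    · have h2 : e 2 = true := by simpa [he] using h12
      rw [h2]
      exact mem_union_right _ K.mx
    · show u ∈ _
      split
      · exact mem_union_left _ K.mu
      · exact K.mu
  have mW : (if e 2 then w else x) ∈ (if e 2 then W else W ∪ X) := by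
    cases he : e 2
    · exact mem_union_right _ K.mx
    · exact K.mw
  have dUW' : Disjoint (if e 2 then U ∪ X else U) (if e 2 then W else W ∪ X) := by
    cases he : e 2
    · exact disjoint_union_right.2 ⟨K.dUW, K.dXU.symm⟩
    · exact disjoint_union_left.2 ⟨K.dUW, K.dXW⟩
  have d1 : Disjoint T₁ (if e 2 then U ∪ X else U) := by
    cases he : e 2
    · exact K.d1U
    · exact disjoint_union_right.2 ⟨K.d1U, K.d1X⟩
  have d2 : Disjoint T₂ (if e 2 then U ∪ X else U) := by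
    cases he : e 2
    · exact K.d2U
    · exact disjoint_union_right.2 ⟨K.d2U, K.d2X⟩
  have d3 : Disjoint T₁ (if e 2 then W else W ∪ X) := by
    cases he : e 2
    · exact disjoint_union_right.2 ⟨K.d1W, K.d1X⟩
    · exact K.d1W
  have d4 : Disjoint T₂ (if e 2 then W else W ∪ X) := by
    cases he : e 2
    · exact disjoint_union_right.2 ⟨K.d2W, K.d2X⟩
    · exact K.d2W
  cases he : e 0
  · rw [he] at hreg
    have hd : Disjoint (T₁ ∪ (if e 2 then U ∪ X else U)) (T₂ ∪ (if e 2 then W else W ∪ X)) :=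
      disjoint_union_left.2 ⟨disjoint_union_right.2 ⟨K.d12, d3⟩,
        disjoint_union_right.2 ⟨d2.symm, dUW'⟩⟩
    exact val hVLC K.tri hc hC h12' h13 h23 hd (mem_union_left _ K.m1) (mem_union_left _ K.m2)
      (mem_union_right _ mU) (mem_union_right _ mW) eU eW hreg
  · rw [he] at hreg
    have hd : Disjoint (T₁ ∪ (if e 2 then W else W ∪ X)) (T₂ ∪ (if e 2 then U ∪ X else U)) :=
      disjoint_union_left.2 ⟨disjoint_union_right.2 ⟨K.d12, d1⟩,
        disjoint_union_right.2 ⟨d4.symm, dUW'.symm⟩⟩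
    exact val hVLC K.tri hc hC h12' h13 h23 hd (mem_union_left _ K.m1) (mem_union_left _ K.m2)
      (mem_union_right _ mW) (mem_union_right _ mU) eW eU fun h hh => by
        rcases hreg h hh with h1 | h1 | h1 | h1
        · exact Or.inl h1
        · exact Or.inr (Or.inl h1)
        · exact Or.inr (Or.inr (Or.inr h1))
        · exact Or.inr (Or.inr (Or.inl h1))

end minor

section exist

variable {α : Type} [Fintype α] [DecidableEq α] {R : SimpleGraph α} {t₃ : α}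

/-- `t₃` is not in a connected set of `del R {t₃}` which touches a disjoint set -/
theorem not_mem (hVCS : SpecVCS) {S S' : Finset α} (hS : CSet (del R {t₃}) S)
    (ht : Tou (del R {t₃}) S S' ∨ Tou (del R {t₃}) S' S) : t₃ ∉ S := by
  intro h3
  rcases Nat.lt_or_ge S.card 2 with h | h
  · have h1 : S = {t₃} := by
      have hc : S.card = 1 := by
        have := card_pos.2 ⟨t₃, h3⟩
        omega
      obtain ⟨z, hz⟩ := card_eq_one.1 hc
      rw [hz, mem_singleton] at h3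
      rw [hz, h3]
    rcases ht with ⟨y, hy, z, -, hyz⟩ | ⟨z, -, y, hy, hyz⟩
    · rw [h1, mem_singleton] at hy
      exact (del_adj.1 hyz).2.1 (by simp [hy])
    · rw [h1, mem_singleton] at hy
      exact (del_adj.1 hyz).2.2 (by simp [hy])
  · obtain ⟨y, -, -, hy⟩ := hVCS.nbr hS h3 h
    exact (del_adj.1 hy).2.1 (by simp)

theorem span (hTRE : SpecTRE) (hVCS : SpecVCS) {N : SimpleGraph α} {S : Finset α} (hS : CSet N S) :
    ∃ T, T ≤ N ∧ TreeOn T S := by
  obtain ⟨y, hy⟩ := hS.1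
  obtain ⟨T, -, h1, h2⟩ := hVCS.ext (N := N) (T := ⊥) (S := S) (Y := {y}) hS (hTRE.single y).1
    (by simpa using hy) (singleton_nonempty y) bot_le
  exact ⟨T, h1, h2⟩

end exist

end DL.VTRM

namespace DL

open VTRM in
/-- **VTR** -/
theorem specVTR (hFEV : SpecFEV) (hDCB : SpecDCB) (hVCS : SpecVCS) (hVLC : SpecVLC)
    (hTRE : SpecTRE) : SpecVTR := by
  intro α _ _ R t₁ t₂ t₃ ψ c x u w T₁ T₂ X U W tri hF hIV hc hK ax au aw
  obtain ⟨⟨k1, k2, kX, kU, kW⟩, ⟨m1, m2, mx, mu, mw⟩, ⟨d12, d1X, d1U, d1W⟩, ⟨d2X, d2U, d2W⟩,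
    ⟨dXU, dXW, dUW⟩, ⟨tU1, tU2, tUX⟩, ⟨tW1, tW2, tWX⟩⟩ := hK
  have le : del R {t₃} ≤ R := del_le _ _
  obtain ⟨τ₁, l1, h1⟩ := span hTRE hVCS k1
  obtain ⟨τ₂, l2, h2⟩ := span hTRE hVCS k2
  obtain ⟨τX, lX, hX⟩ := span hTRE hVCS kX
  obtain ⟨τU, lU, hU⟩ := span hTRE hVCS kU
  obtain ⟨τW, lW, hW⟩ := span hTRE hVCS kW
  have n1 := not_mem hVCS k1 (Or.inr tU1)
  have n2 := not_mem hVCS k2 (Or.inr tU2)
  have nX := not_mem hVCS kX (Or.inr tUX)
  have nU := not_mem hVCS kU (Or.inl tU1)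
  have nW := not_mem hVCS kW (Or.inl tW1)
  obtain ⟨b₁, hb1, a₁, ha1, ab1⟩ := tU1
  obtain ⟨b₂, hb2, a₂, ha2, ab2⟩ := tU2
  obtain ⟨c₁, hc1, d₁, hd1, cd1⟩ := tUX
  obtain ⟨d₂, hd2, c₂, hc2, cd2⟩ := tWX
  obtain ⟨f₁, hf1, g₁, hg1, fg1⟩ := tW1
  obtain ⟨f₂, hf2, g₂, hg2, fg2⟩ := tW2
  have K : Cf R t₁ t₂ t₃ x u w T₁ T₂ X U W τ₁ τ₂ τX τU τW a₁ a₂ b₁ b₂ c₁ d₁ c₂ d₂ f₁ f₂ g₁ g₂ :=
    { tri := tri, h1 := h1, h2 := h2, hX := hX, hU := hU, hW := hW, l1 := l1.trans le,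
      l2 := l2.trans le, lX := lX.trans le, lU := lU.trans le, lW := lW.trans le, m1 := m1,
      m2 := m2, mx := mx, mu := mu, mw := mw, n1 := n1, n2 := n2, nX := nX, nU := nU, nW := nW,
      d12 := d12, d1X := d1X, d1U := d1U, d1W := d1W, d2X := d2X, d2U := d2U, d2W := d2W,
      dXU := dXU, dXW := dXW, dUW := dUW, ax := ax, au := au, aw := aw, a1 := ha1, a2 := ha2,
      b1 := hb1, b2 := hb2, ab1 := (le ab1).symm, ab2 := (le ab2).symm, c1 := hc1, e1 := hd1,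
      cd1 := le cd1, c2 := hc2, e2 := hd2, cd2 := (le cd2).symm, f1 := hf1, f2 := hf2, g1 := hg1,
      g2 := hg2, fg1 := le fg1, fg2 := le fg2 }
  obtain ⟨D, -, hT, hp, hq⟩ := exists_minor K hTRE
  have hsum := hFEV R ψ hF D
  have z1 : ∀ e : Fin 4 → Bool, e 0 = e 3 → ψ (D.cyc e) = 0 := by
    intro e he
    by_contra h
    exact no12 K hTRE hT hp hq e he (hIV _ (hDCB.cyc D e).1 h).1
  have z2 : ∀ e : Fin 4 → Bool, e 1 = false → e 2 = false → ψ (D.cyc e) = 0 := by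
    intro e he1 he2
    by_contra h
    exact no3 K hTRE hT hp hq e he1 he2 (hIV _ (hDCB.cyc D e).1 h).2.2.2
  have h6 := six_terms hsum z1 z2
  rw [value K hTRE hDCB hVLC hT hp hq hc ![false, false, true, true] rfl (Or.inr rfl),
    value K hTRE hDCB hVLC hT hp hq hc ![true, false, true, false] rfl (Or.inr rfl),
    value K hTRE hDCB hVLC hT hp hq hc ![false, true, false, true] rfl (Or.inl rfl),
    value K hTRE hDCB hVLC hT hp hq hc ![true, true, false, false] rfl (Or.inl rfl),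
    value K hTRE hDCB hVLC hT hp hq hc ![false, true, true, true] rfl (Or.inl rfl),
    value K hTRE hDCB hVLC hT hp hq hc ![true, true, true, false] rfl (Or.inl rfl)] at h6
  have h7 : (c x w + c w x) + (c u x + c x u) + (c u w + c w u) = 0 := h6
  rw [← h7]
  ring

end DL
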