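import Pool.Agent.DL.Y.SpecV
import Pool.Agent.DL.KC
import Pool.Agent.DL.EX.VRS
import Pool.Agent.DL.TREE
import Pool.Agent.DL.PC2

section
/-!
# VMU (helper65): the function `μ` of LEMMA IV (pure combinatorics)
-/
open SimpleGraph Finset

namespace DL

theorem specVMU : SpecVMU := by
  classical
  intro α _ _ S F ν hν hF hS hdj hsq htr
  -- `sp v w`: some partition separates `v` from `w`
  set sp : α → α → Prop := fun v w => ∃ P Q, F P Q ∧ v ∈ P ∧ w ∈ Q with hsp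
  have spsymm : ∀ v w, sp v w → sp w v := by
    rintro v w ⟨P, Q, h, hv, hw⟩
    exact ⟨Q, P, hF P Q h, hw, hv⟩
  have sptr : ∀ p q r, q ∈ S → sp p r → sp p q ∨ sp q r := by
    rintro p q r hq ⟨P, Q, h, hp, hr⟩
    rcases Finset.mem_union.1 (hS P Q h hq) with hqP | hqQ
    · exact Or.inr ⟨P, Q, h, hqP, hr⟩
    · exact Or.inl ⟨P, Q, h, hp, hqQ⟩
  have hz1 : ∀ p q r : ZMod 2, p + q + r = 0 → r = p + q := by decide
  have hz2 : ∀ p q r s : ZMod 2, p + q + (r + s) = 0 → s = r + p + q := by decide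
  have hz3 : ∀ p q r s t : ZMod 2, p + q + t = 0 → r + s + t = 0 → s = r + p + q := by decide
  by_cases hne : ∃ a b, a ∈ S ∧ b ∈ S ∧ sp a b
  · obtain ⟨a, b, ha, hb, hab⟩ := hne
    let μ : α → ZMod 2 := fun x => if sp a x then ν a x else ν b x + ν a b
    have key : ∀ x ∈ S, ∀ y ∈ S, sp x y → ¬ sp a x → ν x y = μ x + μ y := by
      intro x hx y hy hxy hax
      have hay : sp a y := by
        rcases sptr x a y ha hxy with h | h
        · exact absurd (spsymm _ _ h) hax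
        · exact h
      have hxb : sp x b := by
        rcases sptr a x b hx hab with h | h
        · exact absurd h hax
        · exact h
      have e1 : μ x = ν x b + ν a b := by
        simp only [μ, if_neg hax, hν b x]
      have e2 : μ y = ν a y := by
        simp only [μ, if_pos hay]
      rw [e1, e2]
      by_cases hby : sp b y
      · exact hz3 (ν a b) (ν a y) (ν x b) (ν x y) (ν b y)
          (htr a b y ha hb hy hab hby hay) (htr x b y hx hb hy hxb hby hxy)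
      · obtain ⟨P, Q, hPQ, haP, hbQ⟩ := hab
        have hxP : x ∈ P := by
          rcases Finset.mem_union.1 (hS P Q hPQ hx) with h | h
          · exact h
          · exact absurd ⟨P, Q, hPQ, haP, h⟩ hax
        have hyQ : y ∈ Q := by
          rcases Finset.mem_union.1 (hS P Q hPQ hy) with h | h
          · exact absurd ⟨Q, P, hF P Q hPQ, hbQ, h⟩ hby
          · exact h
        exact hz2 (ν a b) (ν a y) (ν x b) (ν x y) (hsq P Q a x b y hPQ haP hxP hbQ hyQ ha hx hb hy)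
    refine ⟨μ, fun x hx y hy hxy => ?_⟩
    by_cases hax : sp a x
    · by_cases hay : sp a y
      · have e1 : μ x = ν a x := by simp only [μ, if_pos hax]
        have e2 : μ y = ν a y := by simp only [μ, if_pos hay]
        rw [e1, e2]
        exact hz1 (ν a x) (ν a y) (ν x y) (htr a x y ha hx hy hax hxy hay)
      · rw [hν x y, add_comm]
        exact key y hy x hx (spsymm _ _ hxy) hay
    · exact key x hx y hy hxy hax
  · refine ⟨fun _ => 0, fun x hx y hy hxy => ?_⟩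
    exact absurd ⟨x, y, hx, hy, hxy⟩ hne

end DL
end

section
/-!
MP_3ff0f8_gt, ALGEBRA HALF, STEP Y part V, module VRE (helper16): reconfiguration of linkages.
-/
open SimpleGraph Finset

namespace DL
namespace VREM

set_option linter.unusedSectionVars false

variable {α : Type} [Fintype α] [DecidableEq α]

/-- hypotheses on `κ` -/
structure KH (N : SimpleGraph α) (t₁ v t₂ w : α) (κ : Finset α → Finset α → ZMod 2) : Prop where
  mono : ∀ S₁ S₂ S₁' S₂', LPR N t₁ v t₂ w S₁ S₂ → LPR N t₁ v t₂ w S₁' S₂' → S₁ ⊆ S₁' → S₂ ⊆ S₂' →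
    κ S₁ S₂ = κ S₁' S₂'
  swap : ∀ L A B, HUB N ![t₁, v, t₂, w] L A B →
    κ (L 0 ∪ A ∪ L 1) (L 2 ∪ B ∪ L 3) = κ (L 0 ∪ B ∪ L 1) (L 2 ∪ A ∪ L 3)

lemma exb_pos {y x : α} {S : Finset α} (h : y ∈ S) : exb y x S = insert x S := if_pos h

lemma exb_neg {y x : α} {S : Finset α} (h : y ∉ S) : exb y x S = S := if_neg h

lemma sub_exb (y x : α) (S : Finset α) : S ⊆ exb y x S := by
  by_cases h : y ∈ S
  · rw [exb_pos h]
    exact subset_insert _ _
  · rw [exb_neg h]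

lemma exb_erase {y x : α} {S : Finset α} (hxy : x ≠ y) (h : x ∈ S → y ∈ S) :
    exb y x (S.erase x) = exb y x S := by
  by_cases hy : y ∈ S
  · rw [exb_pos hy, exb_pos (mem_erase.2 ⟨hxy.symm, hy⟩)]
    ext z
    simp only [mem_insert, mem_erase]
    by_cases hz : z = x
    · simp [hz]
    · simp [hz]
  · rw [exb_neg hy, exb_neg fun h1 => hy (mem_of_mem_erase h1), erase_eq_of_notMem fun h1 => hy (h h1)]

lemma exb_mono {y x : α} {S S' : Finset α} (h : S ⊆ S') : exb y x S ⊆ exb y x S' := by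
  by_cases hy : y ∈ S
  · rw [exb_pos hy, exb_pos (h hy)]
    exact insert_subset_insert _ h
  · rw [exb_neg hy]
    exact h.trans (sub_exb y x S')

lemma exb_union (y x : α) (S S' : Finset α) : exb y x (S ∪ S') = exb y x S ∪ exb y x S' := by
  by_cases hy : y ∈ S <;> by_cases hy' : y ∈ S'
  · rw [exb_pos (mem_union_left _ hy), exb_pos hy, exb_pos hy']
    ext z
    simp only [mem_insert, mem_union]
    tauto
  · rw [exb_pos (mem_union_left _ hy), exb_pos hy, exb_neg hy']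
    ext z
    simp only [mem_insert, mem_union]
    tauto
  · rw [exb_pos (mem_union_right _ hy'), exb_neg hy, exb_pos hy']
    ext z
    simp only [mem_insert, mem_union]
    tauto
  · rw [exb_neg (by simp [hy, hy']), exb_neg hy, exb_neg hy']

lemma mem_exb {y x z : α} {S : Finset α} : z ∈ exb y x S ↔ z ∈ S ∨ (z = x ∧ y ∈ S) := by
  by_cases hy : y ∈ S
  · rw [exb_pos hy, mem_insert]
    tauto
  · rw [exb_neg hy]
    tauto

lemma exb_disj {y x : α} {S S' : Finset α} (h : Disjoint S S') (h1 : x ∈ S → y ∈ S) (h2 : x ∈ S' → y ∈ S') :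
    Disjoint (exb y x S) (exb y x S') := by
  rw [Finset.disjoint_left] at h ⊢
  intro z hz hz'
  rw [mem_exb] at hz hz'
  rcases hz with hz | ⟨hz, hy⟩ <;> rcases hz' with hz' | ⟨hz', hy'⟩
  · exact h hz hz'
  · exact h (h1 (hz' ▸ hz)) hy'
  · exact h hy (h2 (hz ▸ hz'))
  · exact h hy hy'

section

variable {N : SimpleGraph α} {t₁ v t₂ w : α}

lemma lpr_exb (hV : SpecVCS) {y x : α} {S₁ S₂ : Finset α} (h : LPR N t₁ v t₂ w S₁ S₂) (hadj : N.Adj y x)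
    (h1 : x ∈ S₁ → y ∈ S₁) (h2 : x ∈ S₂ → y ∈ S₂) : LPR N t₁ v t₂ w (exb y x S₁) (exb y x S₂) := by
  have hc : ∀ S, CSet N S → CSet N (exb y x S) := by
    intro S hS
    by_cases hy : y ∈ S
    · rw [exb_pos hy]
      exact hV.ins hS hy hadj
    · rw [exb_neg hy]
      exact hS
  exact ⟨hc _ h.c1, hc _ h.c2, sub_exb _ _ _ h.m1, sub_exb _ _ _ h.mv, sub_exb _ _ _ h.m2,
    sub_exb _ _ _ h.mw, exb_disj h.dj h1 h2⟩

lemma lpr_contr (hV : SpecVCS) {y x : α} {S₁ S₂ : Finset α} (hadj : N.Adj y x)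
    (hx : x ∉ S₁) (hx' : x ∉ S₂) :
    LPR (contr N y x) t₁ v t₂ w S₁ S₂ → LPR N t₁ v t₂ w (exb y x S₁) (exb y x S₂) := fun h =>
  ⟨(hV.ctr hadj hx).1 h.c1, (hV.ctr hadj hx').1 h.c2, sub_exb _ _ _ h.m1, sub_exb _ _ _ h.mv, sub_exb _ _ _ h.m2,
    sub_exb _ _ _ h.mw, exb_disj h.dj (fun h1 => absurd h1 hx) fun h1 => absurd h1 hx'⟩

lemma not_mem_cset (hV : SpecVCS) {y x r : α} {S : Finset α} (hS : CSet (contr N y x) S) (hr : r ∈ S)
    (hrx : r ≠ x) : x ∉ S := by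
  intro hx
  have h2 : 2 ≤ S.card := by
    have h3 : ({r, x} : Finset α).card ≤ S.card := card_le_card (by
      intro z hz
      rw [mem_insert, mem_singleton] at hz
      rcases hz with rfl | rfl
      · exact hr
      · exact hx)
    rwa [card_pair hrx] at h3
  obtain ⟨z, -, -, h4⟩ := hV.nbr hS hx h2
  exact h4.1 rfl

lemma kh_contr (hV : SpecVCS) {κ : Finset α → Finset α → ZMod 2} (hK : KH N t₁ v t₂ w κ) {y x : α}
    (hadj : N.Adj y x) (n1 : t₁ ≠ x) (nv : v ≠ x) (n2 : t₂ ≠ x) (nw : w ≠ x) :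
    KH (contr N y x) t₁ v t₂ w (fun S S' => κ (exb y x S) (exb y x S')) := by
  constructor
  · intro S₁ S₂ S₁' S₂' h h' hs hs'
    exact hK.mono _ _ _ _ (lpr_contr hV hadj (not_mem_cset hV h.c1 h.m1 n1) (not_mem_cset hV h.c2 h.m2 n2) h)
      (lpr_contr hV hadj (not_mem_cset hV h'.c1 h'.m1 n1) (not_mem_cset hV h'.c2 h'.m2 n2) h')
      (exb_mono hs) (exb_mono hs')
  · intro L A B h
    have ht : ∀ i : Fin 4, (![t₁, v, t₂, w] : Fin 4 → α) i ≠ x := by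
      intro i
      fin_cases i
      · exact n1
      · exact nv
      · exact n2
      · exact nw
    have hL : ∀ i, x ∉ L i := fun i => not_mem_cset hV (h.cL i) (h.m i) (ht i)
    have hAB : ∀ C, CSet (contr N y x) C → Tou (contr N y x) (L 0) C → x ∉ C := by
      rintro C hC ⟨a, -, b, hb, hab⟩
      exact not_mem_cset hV hC hb hab.2.1
    have hA := hAB A h.cA (h.tA 0)
    have hB := hAB B h.cB (h.tB 0)
    have h1 := hK.swap (fun i => exb y x (L i)) (exb y x A) (exb y x B)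
      { cL := fun i => (hV.ctr hadj (hL i)).1 (h.cL i)
        cA := (hV.ctr hadj hA).1 h.cA
        cB := (hV.ctr hadj hB).1 h.cB
        m := fun i => sub_exb _ _ _ (h.m i)
        dL := fun i j hij => exb_disj (h.dL i j hij) (fun h => absurd h (hL i)) fun h => absurd h (hL j)
        dA := fun i => exb_disj (h.dA i) (fun h => absurd h (hL i)) fun h => absurd h hA
        dB := fun i => exb_disj (h.dB i) (fun h => absurd h (hL i)) fun h => absurd h hB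
        dAB := exb_disj h.dAB (fun h => absurd h hA) fun h => absurd h hB
        tA := fun i => (hV.tou hadj (hL i) hA (h.dA i)).1 (h.tA i)
        tB := fun i => (hV.tou hadj (hL i) hB (h.dB i)).1 (h.tB i) }
    simp only [exb_union]
    exact h1

/-- the statement for unions with at most `n` elements -/
def Main (α : Type) [Fintype α] [DecidableEq α] (t₁ v t₂ w : α) (n : ℕ) : Prop :=
  ∀ (N : SimpleGraph α) (κ : Finset α → Finset α → ZMod 2), KH N t₁ v t₂ w κ → ∀ S₁ S₂ S₁' S₂',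
    LPR N t₁ v t₂ w S₁ S₂ → LPR N t₁ v t₂ w S₁' S₂' → (S₁ ∪ S₂ ∪ (S₁' ∪ S₂')).card ≤ n → κ S₁ S₂ = κ S₁' S₂'

/-- contraction of the edge `yx`, `x` no root; every set which contains `x` contains `y` -/
lemma step (hV : SpecVCS) {n : ℕ} (IH : Main α t₁ v t₂ w n) {κ : Finset α → Finset α → ZMod 2}
    (hK : KH N t₁ v t₂ w κ) {S₁ S₂ S₁' S₂' : Finset α} (h : LPR N t₁ v t₂ w S₁ S₂)
    (h' : LPR N t₁ v t₂ w S₁' S₂') (hn : (S₁ ∪ S₂ ∪ (S₁' ∪ S₂')).card ≤ n + 1) {y x : α} (hadj : N.Adj y x)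
    (n1 : t₁ ≠ x) (nv : v ≠ x) (n2 : t₂ ≠ x) (nw : w ≠ x) (hx : x ∈ S₁ ∪ S₂ ∪ (S₁' ∪ S₂'))
    (p1 : x ∈ S₁ → y ∈ S₁) (p2 : x ∈ S₂ → y ∈ S₂) (p1' : x ∈ S₁' → y ∈ S₁') (p2' : x ∈ S₂' → y ∈ S₂') :
    κ S₁ S₂ = κ S₁' S₂' := by
  have hxy : x ≠ y := hadj.ne'
  have hmk : ∀ A B : Finset α, LPR N t₁ v t₂ w A B → (x ∈ A → y ∈ A) → (x ∈ B → y ∈ B) →
      LPR (contr N y x) t₁ v t₂ w (A.erase x) (B.erase x) ∧
        κ A B = κ (exb y x (A.erase x)) (exb y x (B.erase x)) := by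
    intro A B hAB q1 q2
    have hex := lpr_exb hV hAB hadj q1 q2
    refine ⟨⟨?_, ?_, mem_erase.2 ⟨n1, hAB.m1⟩, mem_erase.2 ⟨nv, hAB.mv⟩, mem_erase.2 ⟨n2, hAB.m2⟩,
      mem_erase.2 ⟨nw, hAB.mw⟩, ?_⟩, ?_⟩
    · rw [hV.ctr hadj (notMem_erase x A), exb_erase hxy q1]
      exact hex.c1
    · rw [hV.ctr hadj (notMem_erase x B), exb_erase hxy q2]
      exact hex.c2
    · exact disjoint_of_subset_left (erase_subset _ _) (disjoint_of_subset_right (erase_subset _ _) hAB.dj)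
    · rw [exb_erase hxy q1, exb_erase hxy q2]
      exact hK.mono _ _ _ _ hAB hex (sub_exb _ _ _) (sub_exb _ _ _)
  obtain ⟨a1, a2⟩ := hmk S₁ S₂ h p1 p2
  obtain ⟨b1, b2⟩ := hmk S₁' S₂' h' p1' p2'
  rw [a2, b2]
  refine IH (contr N y x) _ (kh_contr hV hK hadj n1 nv n2 nw) _ _ _ _ a1 b1 ?_
  have hsub : S₁.erase x ∪ S₂.erase x ∪ (S₁'.erase x ∪ S₂'.erase x) ⊆ (S₁ ∪ S₂ ∪ (S₁' ∪ S₂')).erase x := by
    intro z
    simp only [mem_union, mem_erase]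
    tauto
  have h1 := card_le_card hsub
  rw [card_erase_of_mem hx] at h1
  omega

/-- an edge inside a cell -/
lemma cell (hV : SpecVCS) {n : ℕ} (IH : Main α t₁ v t₂ w n) {κ : Finset α → Finset α → ZMod 2}
    (hK : KH N t₁ v t₂ w κ) {S₁ S₂ S₁' S₂' : Finset α} (h : LPR N t₁ v t₂ w S₁ S₂)
    (h' : LPR N t₁ v t₂ w S₁' S₂') (hn : (S₁ ∪ S₂ ∪ (S₁' ∪ S₂')).card ≤ n + 1) {y x : α} (hadj : N.Adj y x)
    (n1 : t₁ ≠ x) (nv : v ≠ x) (n2 : t₂ ≠ x) (nw : w ≠ x)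
    (hc : (x ∈ S₁ ∧ y ∈ S₁) ∨ (x ∈ S₂ ∧ y ∈ S₂)) (hc' : (x ∈ S₁' ∧ y ∈ S₁') ∨ (x ∈ S₂' ∧ y ∈ S₂')) :
    κ S₁ S₂ = κ S₁' S₂' := by
  have hd := Finset.disjoint_left.1 h.dj
  have hd' := Finset.disjoint_left.1 h'.dj
  refine step hV IH hK h h' hn hadj n1 nv n2 nw ?_ ?_ ?_ ?_ ?_
  · simp only [mem_union]
    tauto
  · intro hx
    rcases hc with hc | hc
    · exact hc.2
    · exact absurd hc.1 (hd hx)
  · intro hx
    rcases hc with hc | hc
    · exact absurd hx (hd hc.1)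
    · exact hc.2
  · intro hx
    rcases hc' with hc | hc
    · exact hc.2
    · exact absurd hc.1 (hd' hx)
  · intro hx
    rcases hc' with hc | hc
    · exact absurd hx (hd' hc.1)
    · exact hc.2

/-- case (0): `t₁ ~ v` or `t₂ ~ w` -/
lemma zero (hV : SpecVCS) {κ : Finset α → Finset α → ZMod 2} (hK : KH N t₁ v t₂ w κ)
    {S₁ S₂ S₁' S₂' : Finset α} (h : LPR N t₁ v t₂ w S₁ S₂) (h' : LPR N t₁ v t₂ w S₁' S₂')
    (ha : N.Adj t₁ v ∨ N.Adj t₂ w) : κ S₁ S₂ = κ S₁' S₂' := by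
  have hsing : ∀ r : α, CSet N {r} := by
    intro r
    refine ⟨singleton_nonempty r, ?_⟩
    intro a ha b hb
    rw [mem_singleton] at ha hb
    rw [ha, hb]
  have hpair : ∀ a b : α, N.Adj a b → CSet N {b, a} := fun a b hab =>
    hV.ins (hsing a) (mem_singleton_self a) hab
  rcases ha with ha | ha
  · have hc : CSet N {v, t₁} := hpair _ _ ha
    have hsub : ∀ S : Finset α, t₁ ∈ S → v ∈ S → ({v, t₁} : Finset α) ⊆ S := by
      intro S h1 h2 z hz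
      rw [mem_insert, mem_singleton] at hz
      rcases hz with rfl | rfl
      · exact h2
      · exact h1
    have hU : CSet N (S₂ ∪ S₂') := hV.uni h.c2 h'.c2 (Or.inr ⟨t₂, mem_inter.2 ⟨h.m2, h'.m2⟩⟩)
    have hd := Finset.disjoint_left.1 h.dj
    have hd' := Finset.disjoint_left.1 h'.dj
    have dj : ∀ S : Finset α, t₁ ∉ S → v ∉ S → Disjoint ({v, t₁} : Finset α) S := by
      intro S h1 h2
      rw [Finset.disjoint_left]
      intro z hz
      rw [mem_insert, mem_singleton] at hz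
      rcases hz with rfl | rfl
      · exact h2
      · exact h1
    have hm1 : t₁ ∈ ({v, t₁} : Finset α) := by simp
    have hmv : v ∈ ({v, t₁} : Finset α) := by simp
    have l1 : LPR N t₁ v t₂ w {v, t₁} S₂ := ⟨hc, h.c2, hm1, hmv, h.m2, h.mw, dj _ (hd h.m1) (hd h.mv)⟩
    have l2 : LPR N t₁ v t₂ w {v, t₁} S₂' := ⟨hc, h'.c2, hm1, hmv, h'.m2, h'.mw, dj _ (hd' h'.m1) (hd' h'.mv)⟩
    have l3 : LPR N t₁ v t₂ w {v, t₁} (S₂ ∪ S₂') := ⟨hc, hU, hm1, hmv, mem_union_left _ h.m2,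
      mem_union_left _ h.mw, dj _ (by simp [hd h.m1, hd' h'.m1]) (by simp [hd h.mv, hd' h'.mv])⟩
    rw [← hK.mono _ _ _ _ l1 h (hsub _ h.m1 h.mv) (Subset.refl _),
      ← hK.mono _ _ _ _ l2 h' (hsub _ h'.m1 h'.mv) (Subset.refl _),
      hK.mono _ _ _ _ l1 l3 (Subset.refl _) subset_union_left,
      hK.mono _ _ _ _ l2 l3 (Subset.refl _) subset_union_right]
  · have hc : CSet N {w, t₂} := hpair _ _ ha
    have hsub : ∀ S : Finset α, t₂ ∈ S → w ∈ S → ({w, t₂} : Finset α) ⊆ S := by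
      intro S h1 h2 z hz
      rw [mem_insert, mem_singleton] at hz
      rcases hz with rfl | rfl
      · exact h2
      · exact h1
    have hU : CSet N (S₁ ∪ S₁') := hV.uni h.c1 h'.c1 (Or.inr ⟨t₁, mem_inter.2 ⟨h.m1, h'.m1⟩⟩)
    have hd := Finset.disjoint_right.1 h.dj
    have hd' := Finset.disjoint_right.1 h'.dj
    have dj : ∀ S : Finset α, t₂ ∉ S → w ∉ S → Disjoint S ({w, t₂} : Finset α) := by
      intro S h1 h2
      rw [Finset.disjoint_right]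
      intro z hz
      rw [mem_insert, mem_singleton] at hz
      rcases hz with rfl | rfl
      · exact h2
      · exact h1
    have hm1 : t₂ ∈ ({w, t₂} : Finset α) := by simp
    have hmv : w ∈ ({w, t₂} : Finset α) := by simp
    have l1 : LPR N t₁ v t₂ w S₁ {w, t₂} := ⟨h.c1, hc, h.m1, h.mv, hm1, hmv, dj _ (hd h.m2) (hd h.mw)⟩
    have l2 : LPR N t₁ v t₂ w S₁' {w, t₂} := ⟨h'.c1, hc, h'.m1, h'.mv, hm1, hmv, dj _ (hd' h'.m2) (hd' h'.mw)⟩
    have l3 : LPR N t₁ v t₂ w (S₁ ∪ S₁') {w, t₂} := ⟨hU, hc, mem_union_left _ h.m1,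
      mem_union_left _ h.mv, hm1, hmv, dj _ (by simp [hd h.m2, hd' h'.m2]) (by simp [hd h.mw, hd' h'.mw])⟩
    rw [← hK.mono _ _ _ _ l1 h (Subset.refl _) (hsub _ h.m2 h.mw),
      ← hK.mono _ _ _ _ l2 h' (Subset.refl _) (hsub _ h'.m2 h'.mw),
      hK.mono _ _ _ _ l1 l3 subset_union_left (Subset.refl _),
      hK.mono _ _ _ _ l2 l3 subset_union_right (Subset.refl _)]

lemma two_le {S : Finset α} {a b : α} (ha : a ∈ S) (hb : b ∈ S) (hab : a ≠ b) : 2 ≤ S.card := by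
  have h3 : ({a, b} : Finset α).card ≤ S.card := card_le_card (by
    intro z hz
    rw [mem_insert, mem_singleton] at hz
    rcases hz with rfl | rfl
    · exact ha
    · exact hb)
  rwa [card_pair hab] at h3

/-- case (3): a non-cut vertex `x` of `S₁` which is no root -/
lemma three₁ (hV : SpecVCS) {n : ℕ} (IH : Main α t₁ v t₂ w n) {κ : Finset α → Finset α → ZMod 2}
    (hK : KH N t₁ v t₂ w κ) (htv : t₁ ≠ v) (htw : t₂ ≠ w) {S₁ S₂ S₁' S₂' : Finset α}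
    (h : LPR N t₁ v t₂ w S₁ S₂) (h' : LPR N t₁ v t₂ w S₁' S₂') (hn : (S₁ ∪ S₂ ∪ (S₁' ∪ S₂')).card ≤ n + 1)
    (hU : S₁ ∪ S₂ = S₁' ∪ S₂')
    (hi : ∀ x y, N.Adj x y → ¬ (((x ∈ S₁ ∧ y ∈ S₁) ∨ (x ∈ S₂ ∧ y ∈ S₂)) ∧
      ((x ∈ S₁' ∧ y ∈ S₁') ∨ (x ∈ S₂' ∧ y ∈ S₂')))) {x : α} (hx : x ∈ S₁) (n1 : t₁ ≠ x) (nv : v ≠ x)
    (hc : CSet N (S₁.erase x)) : κ S₁ S₂ = κ S₁' S₂' := by
  have hd := Finset.disjoint_left.1 h.dj
  have n2 : t₂ ≠ x := fun he => hd hx (he ▸ h.m2)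
  have nw : w ≠ x := fun he => hd hx (he ▸ h.mw)
  have hcx : ∃ y, N.Adj x y ∧ y ∈ S₂ ∧ ((x ∈ S₁' ∧ y ∈ S₁') ∨ (x ∈ S₂' ∧ y ∈ S₂')) := by
    have hx' : x ∈ S₁' ∪ S₂' := hU ▸ mem_union_left _ hx
    have hmem : ∀ y, y ∈ S₁' ∪ S₂' → y ∉ S₁ → y ∈ S₂ := by
      intro y hy hy1
      rw [← hU] at hy
      exact (mem_union.1 hy).resolve_left hy1
    rcases mem_union.1 hx' with hx1 | hx2
    · obtain ⟨y, hy, -, hxy⟩ := hV.nbr h'.c1 hx1 (two_le h'.m1 h'.mv htv)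
      exact ⟨y, hxy, hmem y (mem_union_left _ hy) fun hy1 => hi x y hxy ⟨Or.inl ⟨hx, hy1⟩, Or.inl ⟨hx1, hy⟩⟩,
        Or.inl ⟨hx1, hy⟩⟩
    · obtain ⟨y, hy, -, hxy⟩ := hV.nbr h'.c2 hx2 (two_le h'.m2 h'.mw htw)
      exact ⟨y, hxy, hmem y (mem_union_right _ hy) fun hy1 => hi x y hxy ⟨Or.inl ⟨hx, hy1⟩, Or.inr ⟨hx2, hy⟩⟩,
        Or.inr ⟨hx2, hy⟩⟩
  obtain ⟨y, hxy, hy, hcell⟩ := hcx
  have l1 : LPR N t₁ v t₂ w (S₁.erase x) S₂ := ⟨hc, h.c2, mem_erase.2 ⟨n1, h.m1⟩, mem_erase.2 ⟨nv, h.mv⟩, h.m2,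
    h.mw, disjoint_of_subset_left (erase_subset _ _) h.dj⟩
  have l2 : LPR N t₁ v t₂ w (S₁.erase x) (insert x S₂) := ⟨hc, hV.ins h.c2 hy hxy.symm,
    mem_erase.2 ⟨n1, h.m1⟩, mem_erase.2 ⟨nv, h.mv⟩, mem_insert_of_mem h.m2, mem_insert_of_mem h.mw, by
      rw [Finset.disjoint_left]
      intro z hz hz'
      rw [mem_erase] at hz
      rw [mem_insert] at hz'
      rcases hz' with hz' | hz'
      · exact hz.1 hz'
      · exact hd hz.2 hz'⟩
  rw [← hK.mono _ _ _ _ l1 h (erase_subset _ _) (Subset.refl _),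
    hK.mono _ _ _ _ l1 l2 (Subset.refl _) (subset_insert _ _)]
  refine cell hV IH hK l2 h' ?_ hxy.symm n1 nv n2 nw (Or.inr ⟨mem_insert_self _ _, mem_insert_of_mem hy⟩)
    hcell
  have hs : S₁.erase x ∪ insert x S₂ ∪ (S₁' ∪ S₂') ⊆ S₁ ∪ S₂ ∪ (S₁' ∪ S₂') := by
    intro z
    simp only [mem_union, mem_erase, mem_insert]
    rintro ((⟨-, h1⟩ | (h1 | h1)) | h1)
    · tauto
    · rw [h1]
      tauto
    · tauto
    · tauto
  exact (card_le_card hs).trans hn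

/-- case (3) for `S₂` -/
lemma three₂ (hV : SpecVCS) {n : ℕ} (IH : Main α t₁ v t₂ w n) {κ : Finset α → Finset α → ZMod 2}
    (hK : KH N t₁ v t₂ w κ) (htv : t₁ ≠ v) (htw : t₂ ≠ w) {S₁ S₂ S₁' S₂' : Finset α}
    (h : LPR N t₁ v t₂ w S₁ S₂) (h' : LPR N t₁ v t₂ w S₁' S₂') (hn : (S₁ ∪ S₂ ∪ (S₁' ∪ S₂')).card ≤ n + 1)
    (hU : S₁ ∪ S₂ = S₁' ∪ S₂')
    (hi : ∀ x y, N.Adj x y → ¬ (((x ∈ S₁ ∧ y ∈ S₁) ∨ (x ∈ S₂ ∧ y ∈ S₂)) ∧
      ((x ∈ S₁' ∧ y ∈ S₁') ∨ (x ∈ S₂' ∧ y ∈ S₂')))) {x : α} (hx : x ∈ S₂) (n2 : t₂ ≠ x) (nw : w ≠ x)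
    (hc : CSet N (S₂.erase x)) : κ S₁ S₂ = κ S₁' S₂' := by
  have hd := Finset.disjoint_left.1 h.dj
  have n1 : t₁ ≠ x := fun he => hd h.m1 (he ▸ hx)
  have nv : v ≠ x := fun he => hd h.mv (he ▸ hx)
  have hcx : ∃ y, N.Adj x y ∧ y ∈ S₁ ∧ ((x ∈ S₁' ∧ y ∈ S₁') ∨ (x ∈ S₂' ∧ y ∈ S₂')) := by
    have hx' : x ∈ S₁' ∪ S₂' := hU ▸ mem_union_right _ hx
    have hmem : ∀ y, y ∈ S₁' ∪ S₂' → y ∉ S₂ → y ∈ S₁ := by
      intro y hy hy1
      rw [← hU] at hy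
      exact (mem_union.1 hy).resolve_right hy1
    rcases mem_union.1 hx' with hx1 | hx2
    · obtain ⟨y, hy, -, hxy⟩ := hV.nbr h'.c1 hx1 (two_le h'.m1 h'.mv htv)
      exact ⟨y, hxy, hmem y (mem_union_left _ hy) fun hy1 => hi x y hxy ⟨Or.inr ⟨hx, hy1⟩, Or.inl ⟨hx1, hy⟩⟩,
        Or.inl ⟨hx1, hy⟩⟩
    · obtain ⟨y, hy, -, hxy⟩ := hV.nbr h'.c2 hx2 (two_le h'.m2 h'.mw htw)
      exact ⟨y, hxy, hmem y (mem_union_right _ hy) fun hy1 => hi x y hxy ⟨Or.inr ⟨hx, hy1⟩, Or.inr ⟨hx2, hy⟩⟩,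
        Or.inr ⟨hx2, hy⟩⟩
  obtain ⟨y, hxy, hy, hcell⟩ := hcx
  have l1 : LPR N t₁ v t₂ w S₁ (S₂.erase x) := ⟨h.c1, hc, h.m1, h.mv, mem_erase.2 ⟨n2, h.m2⟩,
    mem_erase.2 ⟨nw, h.mw⟩, disjoint_of_subset_right (erase_subset _ _) h.dj⟩
  have l2 : LPR N t₁ v t₂ w (insert x S₁) (S₂.erase x) := ⟨hV.ins h.c1 hy hxy.symm, hc,
    mem_insert_of_mem h.m1, mem_insert_of_mem h.mv, mem_erase.2 ⟨n2, h.m2⟩, mem_erase.2 ⟨nw, h.mw⟩, by
      rw [Finset.disjoint_left]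
      intro z hz' hz
      rw [mem_erase] at hz
      rw [mem_insert] at hz'
      rcases hz' with hz' | hz'
      · exact hz.1 hz'
      · exact hd hz' hz.2⟩
  rw [← hK.mono _ _ _ _ l1 h (Subset.refl _) (erase_subset _ _),
    hK.mono _ _ _ _ l1 l2 (subset_insert _ _) (Subset.refl _)]
  refine cell hV IH hK l2 h' ?_ hxy.symm n1 nv n2 nw (Or.inl ⟨mem_insert_self _ _, mem_insert_of_mem hy⟩)
    hcell
  have hs : insert x S₁ ∪ S₂.erase x ∪ (S₁' ∪ S₂') ⊆ S₁ ∪ S₂ ∪ (S₁' ∪ S₂') := by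
    intro z
    simp only [mem_union, mem_erase, mem_insert]
    rintro (((h1 | h1) | ⟨-, h1⟩) | h1)
    · rw [h1]
      tauto
    · tauto
    · tauto
    · tauto
  exact (card_le_card hs).trans hn

/-- the structure of a set whose non-cut vertices are roots -/
lemma hub_of (hV : SpecVCS) {S : Finset α} {t v : α} (hS : CSet N S) (ht : t ∈ S) (hv : v ∈ S) (htv : t ≠ v)
    (hadj : ¬ N.Adj t v) (hc : ∀ x ∈ S, t ≠ x → v ≠ x → ¬ CSet N (S.erase x)) :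
    CSet N ((S.erase t).erase v) ∧ (∃ a ∈ (S.erase t).erase v, N.Adj t a) ∧
      ∃ a ∈ (S.erase t).erase v, N.Adj v a := by
  have h2 := two_le ht hv htv
  obtain ⟨x, hx, y, hy, hxy, hcx, hcy⟩ := hV.nc hS h2
  have hroot : ∀ z ∈ S, CSet N (S.erase z) → z = t ∨ z = v := by
    intro z hz hcz
    by_contra hne
    rw [not_or] at hne
    exact hc z hz (Ne.symm hne.1) (Ne.symm hne.2) hcz
  have hct : CSet N (S.erase t) := by
    rcases hroot x hx hcx with rfl | rfl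
    · exact hcx
    · rcases hroot y hy hcy with rfl | rfl
      · exact hcy
      · exact absurd rfl hxy
  -- neighbours
  obtain ⟨a, ha, hat, hta⟩ := hV.nbr hS ht h2
  obtain ⟨b, hb, hbv, hvb⟩ := hV.nbr hS hv h2
  have hav : a ≠ v := fun h => hadj (h ▸ hta)
  have hbt : b ≠ t := fun h => hadj (h ▸ hvb).symm
  have hcard : 2 ≤ (S.erase t).card :=
    two_le (mem_erase.2 ⟨hat, ha⟩) (mem_erase.2 ⟨htv.symm, hv⟩) hav
  obtain ⟨y₁, hy₁, y₂, hy₂, hy12, hc1, hc2⟩ := hV.nc hct hcard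
  -- a non-cut vertex of `S - t` different from `v` is the only neighbour of `t`
  have hkey : ∀ y ∈ S.erase t, y ≠ v → CSet N ((S.erase t).erase y) → ∀ z ∈ S, N.Adj t z → z = y := by
    intro y hy hyv hcy z hz htz
    by_contra hzy
    have hyS : y ∈ S := mem_of_mem_erase hy
    have hyt : y ≠ t := (mem_erase.1 hy).1
    apply hc y hyS (Ne.symm hyt) (Ne.symm hyv)
    have h3 : S.erase y = insert t ((S.erase t).erase y) := by
      ext q
      simp only [mem_erase, mem_insert]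
      by_cases hq : q = t
      · rw [hq]
        simp [ht, hyt.symm]
      · simp [hq]
    rw [h3]
    exact hV.ins hcy (mem_erase.2 ⟨hzy, mem_erase.2 ⟨htz.ne', hz⟩⟩) htz.symm
  have hcv : CSet N ((S.erase t).erase v) := by
    by_cases h1 : y₁ = v
    · rw [← h1]
      exact hc1
    · by_cases h2 : y₂ = v
      · rw [← h2]
        exact hc2
      · exact absurd ((hkey y₁ hy₁ h1 hc1 a ha hta).symm.trans (hkey y₂ hy₂ h2 hc2 a ha hta)) hy12
  exact ⟨hcv, ⟨a, mem_erase.2 ⟨hav, mem_erase.2 ⟨hat, ha⟩⟩, hta⟩,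
    ⟨b, mem_erase.2 ⟨hbv, mem_erase.2 ⟨hbt, hb⟩⟩, hvb⟩⟩

lemma main (hV : SpecVCS) (htv : t₁ ≠ v) (htw : t₂ ≠ w) : ∀ n, Main α t₁ v t₂ w n := by
  intro n
  induction n with
  | zero =>
    intro N κ hK S₁ S₂ S₁' S₂' h h' hn
    have h1 : t₁ ∈ S₁ ∪ S₂ ∪ (S₁' ∪ S₂') := mem_union_left _ (mem_union_left _ h.m1)
    rw [card_eq_zero.1 (Nat.le_zero.1 hn)] at h1
    exact absurd h1 (notMem_empty _)
  | succ n IH =>
    intro N κ hK S₁ S₂ S₁' S₂' h h' hn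
    have hn' : (S₁' ∪ S₂' ∪ (S₁ ∪ S₂)).card ≤ n + 1 := by rwa [union_comm]
    have hd := Finset.disjoint_left.1 h.dj
    have hd' := Finset.disjoint_left.1 h'.dj
    by_cases h0 : N.Adj t₁ v ∨ N.Adj t₂ w
    · exact zero hV hK h h' h0
    rw [not_or] at h0
    -- (1)
    have hone : ∀ S₁ S₂ S₁' S₂' : Finset α, LPR N t₁ v t₂ w S₁ S₂ → LPR N t₁ v t₂ w S₁' S₂' →
        (S₁ ∪ S₂ ∪ (S₁' ∪ S₂')).card ≤ n + 1 → ∀ x ∈ S₁ ∪ S₂, x ∉ S₁' ∪ S₂' → κ S₁ S₂ = κ S₁' S₂' := by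
      intro S₁ S₂ S₁' S₂' h h' hn x hx hx'
      have hd := Finset.disjoint_left.1 h.dj
      rw [mem_union, not_or] at hx'
      have n1 : t₁ ≠ x := fun he => hx'.1 (he ▸ h'.m1)
      have nv : v ≠ x := fun he => hx'.1 (he ▸ h'.mv)
      have n2 : t₂ ≠ x := fun he => hx'.2 (he ▸ h'.m2)
      have nw : w ≠ x := fun he => hx'.2 (he ▸ h'.mw)
      rcases mem_union.1 hx with hx1 | hx2
      · obtain ⟨y, hy, -, hxy⟩ := hV.nbr h.c1 hx1 (two_le h.m1 h.mv htv)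
        exact step hV IH hK h h' hn hxy.symm n1 nv n2 nw (mem_union_left _ hx) (fun _ => hy)
          (fun h1 => absurd h1 (hd hx1)) (fun h1 => absurd h1 hx'.1) fun h1 => absurd h1 hx'.2
      · obtain ⟨y, hy, -, hxy⟩ := hV.nbr h.c2 hx2 (two_le h.m2 h.mw htw)
        exact step hV IH hK h h' hn hxy.symm n1 nv n2 nw (mem_union_left _ hx)
          (fun h1 => absurd hx2 (hd h1)) (fun _ => hy) (fun h1 => absurd h1 hx'.1) fun h1 => absurd h1 hx'.2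
    by_cases h1 : S₁ ∪ S₂ ⊆ S₁' ∪ S₂'
    swap
    · obtain ⟨x, hx, hx'⟩ := not_subset.1 h1
      exact hone _ _ _ _ h h' hn x hx hx'
    by_cases h1' : S₁' ∪ S₂' ⊆ S₁ ∪ S₂
    swap
    · obtain ⟨x, hx, hx'⟩ := not_subset.1 h1'
      exact (hone _ _ _ _ h' h hn' x hx hx').symm
    have hU : S₁ ∪ S₂ = S₁' ∪ S₂' := Subset.antisymm h1 h1'
    -- (2)
    by_cases h2 : ∃ x y, N.Adj x y ∧ (((x ∈ S₁ ∧ y ∈ S₁) ∨ (x ∈ S₂ ∧ y ∈ S₂)) ∧
      ((x ∈ S₁' ∧ y ∈ S₁') ∨ (x ∈ S₂' ∧ y ∈ S₂')))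
    · obtain ⟨x, y, hxy, hc, hc'⟩ := h2
      -- one of `x`, `y` is no root
      have hr : ∀ x y : α, N.Adj x y → ((x ∈ S₁ ∧ y ∈ S₁) ∨ (x ∈ S₂ ∧ y ∈ S₂)) →
          ((x ∈ S₁' ∧ y ∈ S₁') ∨ (x ∈ S₂' ∧ y ∈ S₂')) → (t₁ = x ∨ v = x ∨ t₂ = x ∨ w = x) →
          t₁ ≠ y ∧ v ≠ y ∧ t₂ ≠ y ∧ w ≠ y := by
        intro x y hxy hc hc' hx
        have e1 : t₁ ∉ S₂ := hd h.m1
        have e2 : v ∉ S₂ := hd h.mv
        have e3 : t₂ ∉ S₁ := fun hh => hd hh h.m2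
        have e4 : w ∉ S₁ := fun hh => hd hh h.mw
        have f1 := h.m1
        have f2 := h.mv
        have f3 := h.m2
        have f4 := h.mw
        have g1 := h0.1
        have g2 := h0.2
        have g3 : ¬ N.Adj v t₁ := fun hh => g1 hh.symm
        have g4 : ¬ N.Adj w t₂ := fun hh => g2 hh.symm
        refine ⟨?_, ?_, ?_, ?_⟩
        · rintro rfl
          rcases hx with rfl | rfl | rfl | rfl
          · exact hxy.ne rfl
          · exact g3 hxy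
          · tauto
          · tauto
        · rintro rfl
          rcases hx with rfl | rfl | rfl | rfl
          · exact g1 hxy
          · exact hxy.ne rfl
          · tauto
          · tauto
        · rintro rfl
          rcases hx with rfl | rfl | rfl | rfl
          · tauto
          · tauto
          · exact hxy.ne rfl
          · exact g4 hxy
        · rintro rfl
          rcases hx with rfl | rfl | rfl | rfl
          · tauto
          · tauto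
          · exact g2 hxy
          · exact hxy.ne rfl
      by_cases hx : t₁ = x ∨ v = x ∨ t₂ = x ∨ w = x
      · obtain ⟨n1, nv, n2, nw⟩ := hr x y hxy hc hc' hx
        exact cell hV IH hK h h' hn hxy n1 nv n2 nw (hc.imp And.symm And.symm) (hc'.imp And.symm And.symm)
      · rw [not_or, not_or, not_or] at hx
        exact cell hV IH hK h h' hn hxy.symm hx.1 hx.2.1 hx.2.2.1 hx.2.2.2 hc hc'
    have hi : ∀ x y, N.Adj x y → ¬ (((x ∈ S₁ ∧ y ∈ S₁) ∨ (x ∈ S₂ ∧ y ∈ S₂)) ∧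
        ((x ∈ S₁' ∧ y ∈ S₁') ∨ (x ∈ S₂' ∧ y ∈ S₂'))) := fun x y hxy hh => h2 ⟨x, y, hxy, hh⟩
    have hi' : ∀ x y, N.Adj x y → ¬ (((x ∈ S₁' ∧ y ∈ S₁') ∨ (x ∈ S₂' ∧ y ∈ S₂')) ∧
        ((x ∈ S₁ ∧ y ∈ S₁) ∨ (x ∈ S₂ ∧ y ∈ S₂))) := fun x y hxy hh => h2 ⟨x, y, hxy, hh.2, hh.1⟩
    -- (3)
    by_cases h3 : ∃ x ∈ S₁, t₁ ≠ x ∧ v ≠ x ∧ CSet N (S₁.erase x)
    · obtain ⟨x, hx, a, b, c⟩ := h3
      exact three₁ hV IH hK htv htw h h' hn hU hi hx a b c
    by_cases h4 : ∃ x ∈ S₂, t₂ ≠ x ∧ w ≠ x ∧ CSet N (S₂.erase x)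
    · obtain ⟨x, hx, a, b, c⟩ := h4
      exact three₂ hV IH hK htv htw h h' hn hU hi hx a b c
    -- (4)
    obtain ⟨cA, ⟨a1, ha1, ha1'⟩, ⟨a2, ha2, ha2'⟩⟩ := hub_of hV h.c1 h.m1 h.mv htv h0.1
      fun x hx p q r => h3 ⟨x, hx, p, q, r⟩
    obtain ⟨cB, ⟨b1, hb1, hb1'⟩, ⟨b2, hb2, hb2'⟩⟩ := hub_of hV h.c2 h.m2 h.mw htw h0.2
      fun x hx p q r => h4 ⟨x, hx, p, q, r⟩
    set A := (S₁.erase t₁).erase v with hA
    set B := (S₂.erase t₂).erase w with hB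
    have mA : ∀ z, z ∈ A ↔ z ≠ v ∧ z ≠ t₁ ∧ z ∈ S₁ := by
      intro z
      rw [hA, mem_erase, mem_erase]
    have mB : ∀ z, z ∈ B ↔ z ≠ w ∧ z ≠ t₂ ∧ z ∈ S₂ := by
      intro z
      rw [hB, mem_erase, mem_erase]
    -- neighbours in `S'`
    have hmem : ∀ y, y ∈ S₁' ∪ S₂' → y ∈ S₁ ∨ y ∈ S₂ := by
      intro y hy
      rw [← hU] at hy
      exact mem_union.1 hy
    have kB : ∀ r, r ∈ S₁ → r ∈ S₁' → ∃ y ∈ B, y ∈ S₁' ∧ N.Adj r y := by
      intro r hr hr'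
      obtain ⟨y, hy, -, hry⟩ := hV.nbr h'.c1 hr' (two_le h'.m1 h'.mv htv)
      have hy1 : y ∉ S₁ := fun hh => hi r y hry ⟨Or.inl ⟨hr, hh⟩, Or.inl ⟨hr', hy⟩⟩
      refine ⟨y, (mB y).2 ⟨fun hh => ?_, fun hh => ?_, (hmem y (mem_union_left _ hy)).resolve_left hy1⟩, hy, hry⟩
      · exact hd' hy (hh ▸ h'.mw)
      · exact hd' hy (hh ▸ h'.m2)
    have kA : ∀ r, r ∈ S₂ → r ∈ S₂' → ∃ y ∈ A, y ∈ S₂' ∧ N.Adj r y := by
      intro r hr hr'
      obtain ⟨y, hy, -, hry⟩ := hV.nbr h'.c2 hr' (two_le h'.m2 h'.mw htw)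
      have hy1 : y ∉ S₂ := fun hh => hi r y hry ⟨Or.inr ⟨hr, hh⟩, Or.inr ⟨hr', hy⟩⟩
      refine ⟨y, (mA y).2 ⟨fun hh => ?_, fun hh => ?_, (hmem y (mem_union_right _ hy)).resolve_right hy1⟩, hy, hry⟩
      · exact hd' (hh ▸ h'.mv) hy
      · exact hd' (hh ▸ h'.m1) hy
    obtain ⟨c1, hc1, hc1s, hc1'⟩ := kB t₁ h.m1 h'.m1
    obtain ⟨c2, hc2, hc2s, hc2'⟩ := kB v h.mv h'.mv
    obtain ⟨c3, hc3, hc3s, hc3'⟩ := kA t₂ h.m2 h'.m2
    obtain ⟨c4, hc4, hc4s, hc4'⟩ := kA w h.mw h'.mw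
    have hsing : ∀ r : α, CSet N {r} := by
      intro r
      refine ⟨singleton_nonempty r, ?_⟩
      intro a ha b hb
      rw [mem_singleton] at ha hb
      rw [ha, hb]
    have e12 : t₁ ≠ t₂ := fun hh => hd h.m1 (hh ▸ h.m2)
    have e1w : t₁ ≠ w := fun hh => hd h.m1 (hh ▸ h.mw)
    have ev2 : v ≠ t₂ := fun hh => hd h.mv (hh ▸ h.m2)
    have evw : v ≠ w := fun hh => hd h.mv (hh ▸ h.mw)
    set L : Fin 4 → Finset α := ![{t₁}, {v}, {t₂}, {w}] with hL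
    have hAB : Disjoint A B := by
      rw [Finset.disjoint_left]
      intro z hz hz'
      exact hd ((mA z).1 hz).2.2 ((mB z).1 hz').2.2
    have hhub : HUB N ![t₁, v, t₂, w] L A B := by
      refine ⟨?_, cA, cB, ?_, ?_, ?_, ?_, hAB, ?_, ?_⟩
      · intro i
        fin_cases i <;> exact hsing _
      · intro i
        fin_cases i <;> exact mem_singleton_self _
      · intro i j hij
        fin_cases i <;> fin_cases j <;>
          first
          | exact absurd rfl hij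
          | exact disjoint_singleton.2 htv
          | exact disjoint_singleton.2 htv.symm
          | exact disjoint_singleton.2 htw
          | exact disjoint_singleton.2 htw.symm
          | exact disjoint_singleton.2 e12
          | exact disjoint_singleton.2 e12.symm
          | exact disjoint_singleton.2 e1w
          | exact disjoint_singleton.2 e1w.symm
          | exact disjoint_singleton.2 ev2
          | exact disjoint_singleton.2 ev2.symm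
          | exact disjoint_singleton.2 evw
          | exact disjoint_singleton.2 evw.symm
      · intro i
        fin_cases i
        · exact disjoint_singleton_left.2 fun hh => ((mA _).1 hh).2.1 rfl
        · exact disjoint_singleton_left.2 fun hh => ((mA _).1 hh).1 rfl
        · exact disjoint_singleton_left.2 fun hh => hd ((mA _).1 hh).2.2 h.m2
        · exact disjoint_singleton_left.2 fun hh => hd ((mA _).1 hh).2.2 h.mw
      · intro i
        fin_cases i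
        · exact disjoint_singleton_left.2 fun hh => hd h.m1 ((mB _).1 hh).2.2
        · exact disjoint_singleton_left.2 fun hh => hd h.mv ((mB _).1 hh).2.2
        · exact disjoint_singleton_left.2 fun hh => ((mB _).1 hh).2.1 rfl
        · exact disjoint_singleton_left.2 fun hh => ((mB _).1 hh).1 rfl
      · intro i
        fin_cases i
        · exact ⟨t₁, mem_singleton_self _, a1, ha1, ha1'⟩
        · exact ⟨v, mem_singleton_self _, a2, ha2, ha2'⟩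
        · exact ⟨t₂, mem_singleton_self _, c3, hc3, hc3'⟩
        · exact ⟨w, mem_singleton_self _, c4, hc4, hc4'⟩
      · intro i
        fin_cases i
        · exact ⟨t₁, mem_singleton_self _, c1, hc1, hc1'⟩
        · exact ⟨v, mem_singleton_self _, c2, hc2, hc2'⟩
        · exact ⟨t₂, mem_singleton_self _, b1, hb1, hb1'⟩
        · exact ⟨w, mem_singleton_self _, b2, hb2, hb2'⟩
    have hsw := hK.swap L A B hhub
    have hL0 : L 0 = {t₁} := rfl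
    have hL1 : L 1 = {v} := rfl
    have hL2 : L 2 = {t₂} := rfl
    have hL3 : L 3 = {w} := rfl
    rw [hL0, hL1, hL2, hL3] at hsw
    have hS₁ : {t₁} ∪ A ∪ {v} = S₁ := by
      ext z
      simp only [mem_union, mem_singleton, mA]
      constructor
      · rintro ((rfl | hz) | rfl)
        · exact h.m1
        · exact hz.2.2
        · exact h.mv
      · intro hz
        by_cases p : z = t₁
        · exact Or.inl (Or.inl p)
        · by_cases q : z = v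
          · exact Or.inr q
          · exact Or.inl (Or.inr ⟨q, p, hz⟩)
    have hS₂ : {t₂} ∪ B ∪ {w} = S₂ := by
      ext z
      simp only [mem_union, mem_singleton, mB]
      constructor
      · rintro ((rfl | hz) | rfl)
        · exact h.m2
        · exact hz.2.2
        · exact h.mw
      · intro hz
        by_cases p : z = t₂
        · exact Or.inl (Or.inl p)
        · by_cases q : z = w
          · exact Or.inr q
          · exact Or.inl (Or.inr ⟨q, p, hz⟩)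
    rw [hS₁, hS₂] at hsw
    rw [hsw]
    -- the new pair
    have hnew : LPR N t₁ v t₂ w ({t₁} ∪ B ∪ {v}) ({t₂} ∪ A ∪ {w}) := by
      refine ⟨?_, ?_, by simp, by simp, by simp, by simp, ?_⟩
      · refine hV.uni (hV.uni (hsing _) cB (Or.inl ⟨t₁, mem_singleton_self _, c1, hc1, hc1'⟩)) (hsing _)
          (Or.inl ⟨c2, by simp [hc2], v, mem_singleton_self _, hc2'.symm⟩)
      · refine hV.uni (hV.uni (hsing _) cA (Or.inl ⟨t₂, mem_singleton_self _, c3, hc3, hc3'⟩)) (hsing _)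
          (Or.inl ⟨c4, by simp [hc4], w, mem_singleton_self _, hc4'.symm⟩)
      · rw [Finset.disjoint_left]
        intro z hz hz'
        simp only [mem_union, mem_singleton, mA, mB] at hz hz'
        have f1 := h.m1
        have f2 := h.mv
        have f3 := h.m2
        have f4 := h.mw
        rcases hz with (rfl | hz) | rfl <;> rcases hz' with (hz' | hz') | hz'
        · exact e12 hz'
        · exact hz'.2.1 rfl
        · exact e1w hz'
        · exact hz.2.1 hz'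
        · exact hd hz'.2.2 hz.2.2
        · exact hz.1 hz'
        · exact ev2 hz'
        · exact hz'.1 rfl
        · exact evw hz'
    refine cell hV IH hK hnew h' ?_ (y := t₁) (x := c1) hc1' ?_ ?_ ?_ ?_ (Or.inl ⟨by simp [hc1], by simp⟩)
      (Or.inl ⟨hc1s, h'.m1⟩)
    · have hs : {t₁} ∪ B ∪ {v} ∪ ({t₂} ∪ A ∪ {w}) ∪ (S₁' ∪ S₂') ⊆ S₁ ∪ S₂ ∪ (S₁' ∪ S₂') := by
        intro z
        simp only [mem_union, mem_singleton, mA, mB]
        rintro ((((rfl | hz) | rfl) | ((rfl | hz) | rfl)) | hz)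
        · exact Or.inl (Or.inl h.m1)
        · exact Or.inl (Or.inr hz.2.2)
        · exact Or.inl (Or.inl h.mv)
        · exact Or.inl (Or.inr h.m2)
        · exact Or.inl (Or.inl hz.2.2)
        · exact Or.inl (Or.inr h.mw)
        · exact Or.inr hz
      exact (card_le_card hs).trans hn
    · exact hc1'.ne
    · intro hh
      exact hd h.mv (hh ▸ ((mB _).1 hc1).2.2)
    · intro hh
      exact ((mB _).1 hc1).2.1 hh.symm
    · intro hh
      exact ((mB _).1 hc1).1 hh.symm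

end

end VREM

open VREM

theorem specVRE (hV : SpecVCS) : SpecVRE := by
  intro α _ _ N t₁ v t₂ w κ htv htw hmono hswap S₁ S₂ S₁' S₂' h h'
  exact main hV htv htw _ N κ ⟨hmono, hswap⟩ S₁ S₂ S₁' S₂' h h' le_rfl

end DL
end

section
/-!
# MP_3ff0f8_gt, STEP Y, part V, module VRG (helper49): crossing linkages give a 4-cycle
-/
open SimpleGraph Finset

namespace DL

namespace VRGM

set_option linter.unusedSectionVars false

variable {α : Type} [Fintype α] [DecidableEq α] {N : SimpleGraph α} {t₁ v t₂ w : α}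

/-- the goal -/
def Goal (N : SimpleGraph α) (t₁ v t₂ w : α) : Prop := ∃ T₁ P T₂ Q : Finset α, C4M N t₁ v t₂ w T₁ P T₂ Q

theorem tsymm {X Y : Finset α} (h : Tou N X Y) : Tou N Y X := by
  obtain ⟨x, hx, y, hy, h⟩ := h
  exact ⟨y, hy, x, hx, h.symm⟩

theorem Goal.vw (h : Goal N t₁ w t₂ v) : Goal N t₁ v t₂ w := by
  obtain ⟨T₁, P, T₂, Q, h⟩ := h
  exact ⟨T₁, Q, T₂, P, h.c1, h.cQ, h.c2, h.cP, h.m1, h.mw, h.m2, h.mv, h.d1Q, h.d12, h.d1P, h.d2Q.symm, h.dPQ.symm,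
    h.dP2.symm, tsymm h.tQ1, tsymm h.t2Q, tsymm h.tP2, tsymm h.t1P⟩

theorem Goal.tt (h : Goal N t₂ w t₁ v) : Goal N t₁ v t₂ w := by
  obtain ⟨T₂, Q, T₁, P, h⟩ := h
  exact ⟨T₁, P, T₂, Q, h.c2, h.cQ, h.c1, h.cP, h.m2, h.mw, h.m1, h.mv, h.d2Q, h.d12.symm, h.dP2.symm, h.d1Q.symm,
    h.dPQ.symm, h.d1P, h.t2Q, h.tQ1, h.t1P, h.tP2⟩

theorem swp {S₁ S₂ : Finset α} (h : LPR N t₁ v t₂ w S₁ S₂) : LPR N t₂ w t₁ v S₂ S₁ :=
  ⟨h.c2, h.c1, h.m2, h.mw, h.m1, h.mv, h.dj.symm⟩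

theorem mem_exb {a b x : α} {S : Finset α} : x ∈ exb a b S ↔ x ∈ S ∨ (x = b ∧ a ∈ S) := by
  rw [exb]
  split_ifs with h
  · rw [mem_insert]
    constructor
    · rintro (h1 | h1)
      · exact Or.inr ⟨h1, h⟩
      · exact Or.inl h1
    · rintro (h1 | h1)
      · exact Or.inr h1
      · exact Or.inl h1.1
  · constructor
    · exact Or.inl
    · rintro (h1 | h1)
      · exact h1
      · exact absurd h1.2 h

theorem notMem_contr {a b s : α} {S : Finset α} (h : CSet (contr N a b) S) (hs : s ∈ S) (hsb : s ≠ b) : b ∉ S := by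
  intro hb
  obtain ⟨u, hu⟩ := exists_adj_of_reachable (h.2 b hb s hs) hsb.symm
  exact hu.1.1 rfl

theorem exb_disj {a b : α} {S S' : Finset α} (hb : b ∉ S) (hb' : b ∉ S') (hd : Disjoint S S') :
    Disjoint (exb a b S) (exb a b S') := by
  rw [Finset.disjoint_left] at hd ⊢
  intro x hx hx'
  rw [mem_exb] at hx hx'
  rcases hx with hx | ⟨h1, h2⟩
  · rcases hx' with hx' | ⟨h3, h4⟩
    · exact hd hx hx'
    · exact hb (h3 ▸ hx)
  · rcases hx' with hx' | ⟨h3, h4⟩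
    · exact hb' (h1 ▸ hx')
    · exact hd h2 h4

theorem lift (hV : SpecVCS) {x y : α} (h : N.Adj y x) (h1 : t₁ ≠ x) (hv : v ≠ x) (h2 : t₂ ≠ x) (hw : w ≠ x)
    (hG : Goal (contr N y x) t₁ v t₂ w) : Goal N t₁ v t₂ w := by
  obtain ⟨T₁, P, T₂, Q, hG⟩ := hG
  have e1 := notMem_contr hG.c1 hG.m1 h1
  have eP := notMem_contr hG.cP hG.mv hv
  have e2 := notMem_contr hG.c2 hG.m2 h2
  have eQ := notMem_contr hG.cQ hG.mw hw
  exact ⟨exb y x T₁, exb y x P, exb y x T₂, exb y x Q, (hV.ctr h e1).1 hG.c1, (hV.ctr h eP).1 hG.cP,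
    (hV.ctr h e2).1 hG.c2, (hV.ctr h eQ).1 hG.cQ, mem_exb.2 (Or.inl hG.m1), mem_exb.2 (Or.inl hG.mv),
    mem_exb.2 (Or.inl hG.m2), mem_exb.2 (Or.inl hG.mw), exb_disj e1 eP hG.d1P, exb_disj e1 e2 hG.d12,
    exb_disj e1 eQ hG.d1Q, exb_disj eP e2 hG.dP2, exb_disj eP eQ hG.dPQ, exb_disj e2 eQ hG.d2Q,
    (hV.tou h e1 eP hG.d1P).1 hG.t1P, (hV.tou h eP e2 hG.dP2).1 hG.tP2, (hV.tou h e2 eQ hG.d2Q).1 hG.t2Q,
    (hV.tou h eQ e1 hG.d1Q.symm).1 hG.tQ1⟩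

theorem cs (hV : SpecVCS) {S : Finset α} {x y : α} (h : N.Adj y x) (hS : CSet N S) (hxy : x ∈ S → y ∈ S) :
    CSet (contr N y x) (S.erase x) := by
  rw [hV.ctr h (notMem_erase x S)]
  by_cases hx : x ∈ S
  · have hy : y ∈ S.erase x := mem_erase.2 ⟨h.ne, hxy hx⟩
    rw [exb, if_pos hy, insert_erase hx]
    exact hS
  · rw [erase_eq_of_notMem hx, exb]
    split_ifs with hy
    · exact hV.ins hS hy h
    · exact hS

theorem lc (hV : SpecVCS) {S₁ S₂ : Finset α} {x y : α} (h : N.Adj y x) (hL : LPR N t₁ v t₂ w S₁ S₂) (h1 : t₁ ≠ x)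
    (hv : v ≠ x) (h2 : t₂ ≠ x) (hw : w ≠ x) (hx1 : x ∈ S₁ → y ∈ S₁) (hx2 : x ∈ S₂ → y ∈ S₂) :
    LPR (contr N y x) t₁ v t₂ w (S₁.erase x) (S₂.erase x) :=
  ⟨cs hV h hL.c1 hx1, cs hV h hL.c2 hx2, mem_erase.2 ⟨h1, hL.m1⟩, mem_erase.2 ⟨hv, hL.mv⟩, mem_erase.2 ⟨h2, hL.m2⟩,
    mem_erase.2 ⟨hw, hL.mw⟩, hL.dj.mono (erase_subset _ _) (erase_subset _ _)⟩

/-- the induction hypothesis -/
def IH (α : Type) [Fintype α] [DecidableEq α] (n : ℕ) : Prop :=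
  ∀ (N : SimpleGraph α) (t₁ v t₂ w : α) (S₁ S₂ S₁' S₂' : Finset α), (S₁ ∪ S₂ ∪ (S₁' ∪ S₂')).card < n →
    LPR N t₁ v t₂ w S₁ S₂ → LPR N t₁ w t₂ v S₁' S₂' → Goal N t₁ v t₂ w

theorem contract (hV : SpecVCS) {n : ℕ} (ih : IH α n) {S₁ S₂ S₁' S₂' U : Finset α} (hL : LPR N t₁ v t₂ w S₁ S₂)
    (hL' : LPR N t₁ w t₂ v S₁' S₂') (hU : S₁ ∪ S₂ ∪ (S₁' ∪ S₂') ⊆ U) (hn : U.card ≤ n) {x y : α} (hx : x ∈ U)
    (h : N.Adj y x) (h1 : t₁ ≠ x) (hv : v ≠ x) (h2 : t₂ ≠ x) (hw : w ≠ x)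
    (hx1 : x ∈ S₁ → y ∈ S₁) (hx2 : x ∈ S₂ → y ∈ S₂) (hx1' : x ∈ S₁' → y ∈ S₁') (hx2' : x ∈ S₂' → y ∈ S₂') :
    Goal N t₁ v t₂ w := by
  refine lift hV h h1 hv h2 hw (ih _ t₁ v t₂ w _ _ _ _ ?_ (lc hV h hL h1 hv h2 hw hx1 hx2)
    (lc hV h hL' h1 hw h2 hv hx1' hx2'))
  refine lt_of_lt_of_le (card_lt_card ?_) hn
  refine (ssubset_iff_of_subset ?_).2 ⟨x, hx, ?_⟩
  · refine Subset.trans ?_ hU
    exact union_subset_union (union_subset_union (erase_subset _ _) (erase_subset _ _))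
      (union_subset_union (erase_subset _ _) (erase_subset _ _))
  · simp

/-- another vertex gives a neighbour -/
theorem nb (hV : SpecVCS) {S : Finset α} {x z : α} (hS : CSet N S) (hx : x ∈ S) (hz : z ∈ S) (hzx : z ≠ x) :
    ∃ y ∈ S, y ≠ x ∧ N.Adj x y := by
  refine hV.nbr hS hx ?_
  have : ({x, z} : Finset α) ⊆ S := by
    intro a ha
    rw [mem_insert, mem_singleton] at ha
    rcases ha with rfl | rfl
    · exact hx
    · exact hz
  calc 2 = ({x, z} : Finset α).card := (card_pair hzx.symm).symm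
    _ ≤ _ := card_le_card this

/-- (1) -/
theorem out (hV : SpecVCS) {n : ℕ} (ih : IH α n) {S₁ S₂ S₁' S₂' : Finset α} (hL : LPR N t₁ v t₂ w S₁ S₂)
    (hL' : LPR N t₁ w t₂ v S₁' S₂') (hn : (S₁ ∪ S₂ ∪ (S₁' ∪ S₂')).card ≤ n) {x : α} (hx : x ∈ S₁)
    (h1 : x ∉ S₁') (h2 : x ∉ S₂') : Goal N t₁ v t₂ w := by
  have e1 : t₁ ≠ x := fun h => h1 (h ▸ hL'.m1)
  have e2 : t₂ ≠ x := fun h => h2 (h ▸ hL'.m2)
  have e3 : v ≠ x := fun h => h2 (h ▸ hL'.mw)
  have e4 : w ≠ x := fun h => h1 (h ▸ hL'.mv)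
  obtain ⟨y, hy, -, hxy⟩ := nb hV hL.c1 hx hL.m1 e1
  exact contract hV ih hL hL' (Subset.refl _) hn (mem_union_left _ (mem_union_left _ hx)) hxy.symm e1 e3 e2 e4
    (fun _ => hy) (fun h => absurd h (Finset.disjoint_left.1 hL.dj hx)) (fun h => absurd h h1) (fun h => absurd h h2)

/-- (3) -/
theorem mv (hV : SpecVCS) {n : ℕ} (ih : IH α n) {S₁ S₂ S₁' S₂' : Finset α} (hL : LPR N t₁ v t₂ w S₁ S₂)
    (hL' : LPR N t₁ w t₂ v S₁' S₂') (hn : (S₁ ∪ S₂ ∪ (S₁' ∪ S₂')).card ≤ n) (hs : S₁ ∪ S₂ = S₁' ∪ S₂') {x : α}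
    (hx : x ∈ S₁) (e1 : t₁ ≠ x) (e3 : v ≠ x) (hc : CSet N (S₁.erase x)) : Goal N t₁ v t₂ w := by
  have dj := Finset.disjoint_left.1 hL.dj
  have dj' := Finset.disjoint_left.1 hL'.dj
  have e2 : t₂ ≠ x := fun h => dj hx (h ▸ hL.m2)
  have e4 : w ≠ x := fun h => dj hx (h ▸ hL.mw)
  have hxU : x ∈ S₁ ∪ S₂ ∪ (S₁' ∪ S₂') := mem_union_left _ (mem_union_left _ hx)
  have hx' : x ∈ S₁' ∪ S₂' := hs ▸ mem_union_left _ hx
  -- a neighbour in the same set of the second pair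
  have key : ∃ y, N.Adj x y ∧ (x ∈ S₁' → y ∈ S₁') ∧ (x ∈ S₂' → y ∈ S₂') ∧ y ∈ S₁' ∪ S₂' := by
    rcases mem_union.1 hx' with h | h
    · obtain ⟨y, hy, -, hxy⟩ := nb hV hL'.c1 h hL'.m1 e1
      exact ⟨y, hxy, fun _ => hy, fun h' => absurd h' (dj' h), mem_union_left _ hy⟩
    · obtain ⟨y, hy, -, hxy⟩ := nb hV hL'.c2 h hL'.mw e3
      exact ⟨y, hxy, fun h' => absurd h (dj' h'), fun _ => hy, mem_union_right _ hy⟩
  obtain ⟨y, hxy, hy1, hy2, hy⟩ := key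
  rw [← hs] at hy
  rcases mem_union.1 hy with hy | hy
  · exact contract hV ih hL hL' (Subset.refl _) hn hxU hxy.symm e1 e3 e2 e4 (fun _ => hy)
      (fun h => absurd h (dj hx)) hy1 hy2
  · have hL2 : LPR N t₁ v t₂ w (S₁.erase x) (insert x S₂) := by
      refine ⟨hc, hV.ins hL.c2 hy hxy.symm, mem_erase.2 ⟨e1, hL.m1⟩, mem_erase.2 ⟨e3, hL.mv⟩,
        mem_insert_of_mem hL.m2, mem_insert_of_mem hL.mw, ?_⟩
      rw [Finset.disjoint_left]
      intro a ha ha'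
      rw [mem_erase] at ha
      rcases mem_insert.1 ha' with h | h
      · exact ha.1 h
      · exact dj ha.2 h
    refine contract hV ih hL2 hL' ?_ hn hxU hxy.symm e1 e3 e2 e4 (fun h => absurd h (notMem_erase _ _))
      (fun _ => mem_insert_of_mem hy) hy1 hy2
    refine union_subset_union (union_subset ?_ (insert_subset ?_ subset_union_right)) (Subset.refl _)
    · exact (erase_subset _ _).trans subset_union_left
    · exact mem_union_left _ hx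

/-- the end `v` is not a cut vertex, or we are done -/
theorem ends (hV : SpecVCS) {n : ℕ} (ih : IH α n) {S₁ S₂ S₁' S₂' : Finset α} (hL : LPR N t₁ v t₂ w S₁ S₂)
    (hL' : LPR N t₁ w t₂ v S₁' S₂') (hn : (S₁ ∪ S₂ ∪ (S₁' ∪ S₂')).card ≤ n) (hs : S₁ ∪ S₂ = S₁' ∪ S₂') :
    Goal N t₁ v t₂ w ∨ CSet N (S₁.erase v) := by
  have hne : t₁ ≠ v := fun h => Finset.disjoint_left.1 hL'.dj hL'.m1 (h ▸ hL'.mw)
  have h2 : 2 ≤ S₁.card := by
    have : ({t₁, v} : Finset α) ⊆ S₁ := by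
      intro a ha
      rw [mem_insert, mem_singleton] at ha
      rcases ha with rfl | rfl
      · exact hL.m1
      · exact hL.mv
    calc 2 = ({t₁, v} : Finset α).card := (card_pair hne).symm
      _ ≤ _ := card_le_card this
  obtain ⟨x, hx, y, hy, hxy, hcx, hcy⟩ := hV.nc hL.c1 h2
  by_cases hxv : x = v
  · exact Or.inr (hxv ▸ hcx)
  by_cases hyv : y = v
  · exact Or.inr (hyv ▸ hcy)
  left
  by_cases hx1 : x = t₁
  · have hy1 : t₁ ≠ y := fun h => hxy (hx1.trans h)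
    exact mv hV ih hL hL' hn hs hy hy1 (fun h => hyv h.symm) hcy
  · exact mv hV ih hL hL' hn hs hx (fun h => hx1 h.symm) (fun h => hxv h.symm) hcx

/-- the neighbour of `v` in `S₂`, or we are done -/
theorem crs (hV : SpecVCS) {n : ℕ} (ih : IH α n) {S₁ S₂ S₁' S₂' : Finset α} (hL : LPR N t₁ v t₂ w S₁ S₂)
    (hL' : LPR N t₁ w t₂ v S₁' S₂') (hn : (S₁ ∪ S₂ ∪ (S₁' ∪ S₂')).card ≤ n) (hs : S₁ ∪ S₂ = S₁' ∪ S₂') :
    Goal N t₁ v t₂ w ∨ ∃ y ∈ S₂.erase w, N.Adj v y := by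
  have dj := Finset.disjoint_left.1 hL.dj
  have dj' := Finset.disjoint_left.1 hL'.dj
  have hne : t₂ ≠ v := fun h => dj hL.mv (h ▸ hL.m2)
  obtain ⟨y, hy, hyv, hvy⟩ := nb hV hL'.c2 hL'.mw hL'.m2 hne
  have hyU : y ∈ S₁ ∪ S₂ := hs ▸ mem_union_right _ hy
  rcases mem_union.1 hyU with h | h
  · left
    exact contract hV ih hL hL' (Subset.refl _) hn (mem_union_left _ hyU) hvy
      (fun h' => dj' hL'.m1 (h' ▸ hy)) hyv.symm (fun h' => dj h (h' ▸ hL.m2)) (fun h' => dj h (h' ▸ hL.mw))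
      (fun _ => hL.mv) (fun h' => absurd h' (dj h)) (fun h' => absurd hy (dj' h')) (fun _ => hL'.mw)
  · right
    exact ⟨y, mem_erase.2 ⟨fun h' => dj' hL'.mv (h' ▸ hy), h⟩, hvy⟩

theorem single (a : α) : CSet N {a} := by
  refine ⟨singleton_nonempty a, ?_⟩
  intro x hx y hy
  rw [mem_singleton] at hx hy
  rw [hx, hy]

theorem main (hV : SpecVCS) : ∀ n, IH α n := by
  intro n
  induction n with
  | zero =>
    intro N t₁ v t₂ w S₁ S₂ S₁' S₂' h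
    exact absurd h (Nat.not_lt_zero _)
  | succ n ih =>
    intro N t₁ v t₂ w S₁ S₂ S₁' S₂' hn hL hL'
    have hn : (S₁ ∪ S₂ ∪ (S₁' ∪ S₂')).card ≤ n := by omega
    have hn2 : (S₂ ∪ S₁ ∪ (S₂' ∪ S₁')).card ≤ n := by
      rwa [union_comm S₂ S₁, union_comm S₂' S₁']
    have hn3 : (S₁' ∪ S₂' ∪ (S₁ ∪ S₂)).card ≤ n := by
      rwa [union_comm (S₁' ∪ S₂') (S₁ ∪ S₂)]
    have hn4 : (S₂' ∪ S₁' ∪ (S₂ ∪ S₁)).card ≤ n := by
      rwa [union_comm S₂ S₁, union_comm S₂' S₁', union_comm (S₁' ∪ S₂') (S₁ ∪ S₂)]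
    by_cases hs1 : S₁ ∪ S₂ ⊆ S₁' ∪ S₂'
    swap
    · rw [not_subset] at hs1
      obtain ⟨x, hx, hx'⟩ := hs1
      rw [mem_union, not_or] at hx'
      rcases mem_union.1 hx with hx | hx
      · exact out hV ih hL hL' hn hx hx'.1 hx'.2
      · exact (out hV ih (swp hL) (swp hL') hn2 hx hx'.2 hx'.1).tt
    by_cases hs2 : S₁' ∪ S₂' ⊆ S₁ ∪ S₂
    swap
    · rw [not_subset] at hs2
      obtain ⟨x, hx, hx'⟩ := hs2
      rw [mem_union, not_or] at hx'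
      rcases mem_union.1 hx with hx | hx
      · exact (out hV ih hL' hL hn3 hx hx'.1 hx'.2).vw
      · exact (out hV ih (swp hL') (swp hL) hn4 hx hx'.2 hx'.1).tt.vw
    have hs : S₁ ∪ S₂ = S₁' ∪ S₂' := Subset.antisymm hs1 hs2
    have hsw : S₂ ∪ S₁ = S₂' ∪ S₁' := by rw [union_comm S₂, union_comm S₂', hs]
    rcases ends hV ih hL hL' hn hs with h | hc1
    · exact h
    rcases ends hV ih (swp hL) (swp hL') hn2 hsw with h | hc2
    · exact h.tt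
    rcases crs hV ih hL hL' hn hs with h | ⟨y, hy, hvy⟩
    · exact h
    rcases crs hV ih (swp hL) (swp hL') hn2 hsw with h | ⟨z, hz, hwz⟩
    · exact h.tt
    have dj := Finset.disjoint_left.1 hL.dj
    have dj' := Finset.disjoint_left.1 hL'.dj
    have h1v : t₁ ≠ v := fun h => dj' hL'.m1 (h ▸ hL'.mw)
    have h2w : t₂ ≠ w := fun h => dj' hL'.mv (h ▸ hL'.m2)
    obtain ⟨a, ha, hav, hva⟩ := nb hV hL.c1 hL.mv hL.m1 h1v
    obtain ⟨b, hb, hbw, hwb⟩ := nb hV hL.c2 hL.mw hL.m2 h2w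
    refine ⟨S₁.erase v, {v}, S₂.erase w, {w}, hc1, single v, hc2, single w, mem_erase.2 ⟨h1v, hL.m1⟩,
      mem_singleton_self _, mem_erase.2 ⟨h2w, hL.m2⟩, mem_singleton_self _, ?_, ?_, ?_, ?_, ?_, ?_,
      ⟨a, mem_erase.2 ⟨hav, ha⟩, v, mem_singleton_self _, hva.symm⟩,
      ⟨v, mem_singleton_self _, y, hy, hvy⟩, ⟨b, mem_erase.2 ⟨hbw, hb⟩, w, mem_singleton_self _, hwb.symm⟩,
      ⟨w, mem_singleton_self _, z, hz, hwz⟩⟩
    · rw [disjoint_singleton_right]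
      exact notMem_erase _ _
    · exact hL.dj.mono (erase_subset _ _) (erase_subset _ _)
    · rw [disjoint_singleton_right]
      exact fun h => dj (mem_of_mem_erase h) hL.mw
    · rw [disjoint_singleton_left]
      exact fun h => dj hL.mv (mem_of_mem_erase h)
    · rw [disjoint_singleton_left, mem_singleton]
      exact fun h => dj hL.mv (h ▸ hL.mw)
    · rw [disjoint_singleton_right]
      exact notMem_erase _ _

end VRGM

open VRGM in
theorem specVRG (hVCS : SpecVCS) : SpecVRG := by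
  intro α _ _ N t₁ v t₂ w S₁ S₂ S₁' S₂' hL hL'
  exact main hVCS _ N t₁ v t₂ w S₁ S₂ S₁' S₂' (Nat.lt_succ_self _) hL hL'

end DL
end

section
/-!
MP_3ff0f8_gt, ALGEBRA HALF, STEP Y, part V, module VRV: exchange of `t₁`, `t₂` (helper74).
-/
namespace DL

theorem specVRV : SpecVRV := by
  intro α _ _ R t₁ t₂ t₃ ψ h
  exact ⟨h.2, h.1⟩

end DL
end

section
/-!
# VSQ (helper65): the square relation of LEMMA IV
-/
open SimpleGraph Finset

namespace DL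

namespace VSQM

variable {α : Type} [Fintype α] [DecidableEq α] {R : SimpleGraph α} {t₁ t₂ t₃ : α}

/-- a tree path with an edge at the beginning, which avoids `S` -/
theorem pathOf {T : SimpleGraph α} {Y S : Finset α} {s p g : α} (hT : RTree Y T) (hle : T ≤ R)
    (hp : p ∈ Y) (hg : g ∈ Y) (hs : s ∉ Y) (ha : R.Adj s p) (hS : Disjoint Y S) (hsS : s ∉ S) :
    IsPth (del R S) s g (insert s(s, p) (tp T p g)) ∧
      vs (insert s(s, p) (tp T p g)) ⊆ insert s Y := by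
  have h1 : vs (tp T p g) ⊆ Y := hT.vs_tp hp hg
  have h2 : vs (insert s(s, p) (tp T p g)) ⊆ insert s Y := by
    rw [vs_insert]
    intro z hz
    rw [mem_union, mem_insert, mem_singleton] at hz
    rw [mem_insert]
    rcases hz with (rfl | rfl) | hz
    · exact Or.inl rfl
    · exact Or.inr hp
    · exact Or.inr (h1 hz)
  refine ⟨?_, h2⟩
  rw [isPth_del]
  refine ⟨((hT.tp_isPth hp hg).mono hle).cons ha fun h => hs (h1 h), ?_⟩
  rw [Finset.disjoint_left]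
  intro z hz hzS
  rcases mem_insert.1 (h2 hz) with rfl | hz'
  · exact hsS hzS
  · exact Finset.disjoint_left.1 hS hz' hzS

/-- the linkage of two trees -/
theorem lnk {P Q : Finset α} {TP TQ : SimpleGraph α} {g k p q : α} (tri : Trg R t₁ t₂ t₃)
    (hP : RTree P TP) (hQ : RTree Q TQ) (lP : TP ≤ R) (lQ : TQ ≤ R) (dj : Disjoint P Q)
    (nP : Disjoint P {t₁, t₂, t₃}) (nQ : Disjoint Q {t₁, t₂, t₃}) (hg : g ∈ P) (hk : k ∈ Q)
    (hp : p ∈ P) (hq : q ∈ Q) (ag : R.Adj t₃ g) (ak : R.Adj t₃ k) (ap : R.Adj t₁ p)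
    (aq : R.Adj t₂ q) :
    LNK R t₁ t₂ t₃ g k (insert s(t₁, p) (tp TP p g)) (insert s(t₂, q) (tp TQ q k)) := by
  have a1 : t₁ ∉ P := fun h => Finset.disjoint_left.1 nP h (by simp)
  have a2 : t₂ ∉ P := fun h => Finset.disjoint_left.1 nP h (by simp)
  have b1 : t₁ ∉ Q := fun h => Finset.disjoint_left.1 nQ h (by simp)
  have b2 : t₂ ∉ Q := fun h => Finset.disjoint_left.1 nQ h (by simp)
  have hA := pathOf (S := {t₂, t₃}) hP lP hp hg a1 ap
    (nP.mono_right (by intro z hz; simp only [mem_insert, mem_singleton] at hz ⊢; tauto))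
    (by simp only [mem_insert, mem_singleton, not_or]; exact ⟨tri.1.ne, tri.2.1.ne⟩)
  have hB := pathOf (S := {t₁, t₃}) hQ lQ hq hk b2 aq
    (nQ.mono_right (by intro z hz; simp only [mem_insert, mem_singleton] at hz ⊢; tauto))
    (by simp only [mem_insert, mem_singleton, not_or]; exact ⟨tri.1.ne', tri.2.2.ne⟩)
  refine ⟨ag, ak, fun h => a1 (h ▸ hg), fun h => b2 (h ▸ hk), hA.1, hB.1, ?_⟩
  rw [Finset.disjoint_left]
  intro z hz1 hz2
  rcases mem_insert.1 (hA.2 hz1) with rfl | h1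
  · rcases mem_insert.1 (hB.2 hz2) with h2 | h2
    · exact tri.1.ne h2
    · exact b1 h2
  · rcases mem_insert.1 (hB.2 hz2) with rfl | h2
    · exact a2 h1
    · exact Finset.disjoint_left.1 dj h1 h2

/-- the tree of one edge -/
theorem edgeTree {s t : α} (h : R.Adj s t) : RTree {s, t} (gr {s(s, t)}) := by
  have := (IsPth.edge h).treeOn
  rwa [vs_singleton, insert_eq_of_mem (mem_insert_self _ _)] at this

theorem edge_tp {s t : α} (h : R.Adj s t) : tp (gr {s(s, t)}) s t = {s(s, t)} :=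
  (edgeTree h).tp_eq (IsPth.edge h) le_rfl

/-- the data of the minor -/
structure Cf (R : SimpleGraph α) (t₁ t₂ t₃ a x b y p₁ p₂ q₁ q₂ : α) (P Q : Finset α)
    (TP TQ : SimpleGraph α) : Prop where
  tri : Trg R t₁ t₂ t₃
  hP : RTree P TP
  hQ : RTree Q TQ
  lP : TP ≤ R
  lQ : TQ ≤ R
  dj : Disjoint P Q
  nP : Disjoint P {t₁, t₂, t₃}
  nQ : Disjoint Q {t₁, t₂, t₃}
  ha : a ∈ P
  hx : x ∈ P
  hb : b ∈ Q
  hy : y ∈ Q
  aa : R.Adj t₃ a
  ax : R.Adj t₃ x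
  ab : R.Adj t₃ b
  ay : R.Adj t₃ y
  h1 : p₁ ∈ P ∧ R.Adj t₁ p₁
  h2 : p₂ ∈ P ∧ R.Adj t₂ p₂
  k1 : q₁ ∈ Q ∧ R.Adj t₁ q₁
  k2 : q₂ ∈ Q ∧ R.Adj t₂ q₂
  hax : a ≠ x
  hby : b ≠ y

variable {a x b y p₁ p₂ q₁ q₂ : α} {P Q : Finset α} {TP TQ : SimpleGraph α}

/-- the `D_4` minor -/
def mnr (h : Cf R t₁ t₂ t₃ a x b y p₁ p₂ q₁ q₂ P Q TP TQ) : D4M R where
  X := ![{t₁, t₂}, P, {t₃}, Q]
  disj := by
    have e1 : t₁ ∉ P := fun h' => Finset.disjoint_left.1 h.nP h' (by simp)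
    have e2 : t₂ ∉ P := fun h' => Finset.disjoint_left.1 h.nP h' (by simp)
    have e3 : t₃ ∉ P := fun h' => Finset.disjoint_left.1 h.nP h' (by simp)
    have f1 : t₁ ∉ Q := fun h' => Finset.disjoint_left.1 h.nQ h' (by simp)
    have f2 : t₂ ∉ Q := fun h' => Finset.disjoint_left.1 h.nQ h' (by simp)
    have f3 : t₃ ∉ Q := fun h' => Finset.disjoint_left.1 h.nQ h' (by simp)
    have g1 : t₁ ≠ t₃ := h.tri.2.1.ne
    have g2 : t₂ ≠ t₃ := h.tri.2.2.ne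
    have d01 : Disjoint ({t₁, t₂} : Finset α) P := by simp [e1, e2]
    have d02 : Disjoint ({t₁, t₂} : Finset α) {t₃} := by simp [g1.symm, g2.symm]
    have d03 : Disjoint ({t₁, t₂} : Finset α) Q := by simp [f1, f2]
    have d12 : Disjoint P ({t₃} : Finset α) := by simp [e3]
    have d13 : Disjoint P Q := h.dj
    have d23 : Disjoint ({t₃} : Finset α) Q := by simp [f3]
    intro i j hij
    fin_cases i <;> fin_cases j <;>
      first
        | exact absurd rfl hij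
        | exact d01
        | exact d02
        | exact d03
        | exact d12
        | exact d13
        | exact d23
        | exact d01.symm
        | exact d02.symm
        | exact d03.symm
        | exact d12.symm
        | exact d13.symm
        | exact d23.symm
  T := ![gr {s(t₁, t₂)}, TP, ⊥, TQ]
  sub := by
    intro i
    fin_cases i
    · exact gr_le (by intro e he; rw [mem_singleton] at he; rw [he]; exact h.tri.1)
    · exact h.lP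
    · exact bot_le
    · exact h.lQ
  inX := by
    intro i
    fin_cases i
    · exact (edgeTree h.tri.1).inY
    · exact h.hP.inY
    · exact (RTree.single t₃).inY
    · exact h.hQ.inY
  conn := by
    intro i
    fin_cases i
    · exact (edgeTree h.tri.1).conn
    · exact h.hP.conn
    · exact (RTree.single t₃).conn
    · exact h.hQ.conn
  acyc := by
    intro i
    fin_cases i
    · exact (edgeTree h.tri.1).acyc
    · exact h.hP.acyc
    · exact (RTree.single t₃).acyc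
    · exact h.hQ.acyc
  p := fun i e => ![cond e t₂ t₁, cond e x a, t₃, cond e q₂ q₁] i
  q := fun i e => ![cond e p₂ p₁, t₃, cond e y b, cond e t₂ t₁] i
  pX := by
    intro i e
    fin_cases i <;> cases e
    · exact mem_insert_self _ _
    · exact mem_insert_of_mem (mem_singleton_self _)
    · exact h.ha
    · exact h.hx
    · exact mem_singleton_self _
    · exact mem_singleton_self _
    · exact h.k1.1
    · exact h.k2.1
  qX := by
    intro i e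
    fin_cases i <;> cases e
    · exact h.h1.1
    · exact h.h2.1
    · exact mem_singleton_self _
    · exact mem_singleton_self _
    · exact h.hb
    · exact h.hy
    · exact mem_insert_self _ _
    · exact mem_insert_of_mem (mem_singleton_self _)
  adj := by
    intro i e
    fin_cases i <;> cases e
    · exact h.h1.2
    · exact h.h2.2
    · exact h.aa.symm
    · exact h.ax.symm
    · exact h.ab
    · exact h.ay
    · exact h.k1.2.symm
    · exact h.k2.2.symm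
  ne := by
    have e1 : t₁ ∉ P := fun h' => Finset.disjoint_left.1 h.nP h' (by simp)
    have f2 : t₂ ∉ Q := fun h' => Finset.disjoint_left.1 h.nQ h' (by simp)
    intro i
    fin_cases i
    · show s(t₁, p₁) ≠ s(t₂, p₂)
      rw [Ne, Sym2.eq_iff]
      rintro (⟨h1, _⟩ | ⟨h1, _⟩)
      · exact h.tri.1.ne h1
      · exact e1 (h1 ▸ h.h2.1)
    · show s(a, t₃) ≠ s(x, t₃)
      rw [Ne, Sym2.eq_iff]
      rintro (⟨h1, _⟩ | ⟨h1, _⟩)
      · exact h.hax h1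
      · exact h.aa.ne' h1
    · show s(t₃, b) ≠ s(t₃, y)
      rw [Ne, Sym2.eq_iff]
      rintro (⟨_, h1⟩ | ⟨h1, _⟩)
      · exact h.hby h1
      · exact h.ay.ne h1
    · show s(q₁, t₁) ≠ s(q₂, t₂)
      rw [Ne, Sym2.eq_iff]
      rintro (⟨_, h1⟩ | ⟨h1, _⟩)
      · exact h.tri.1.ne h1
      · exact f2 (h1 ▸ h.k1.1)

/-- the cycles of the minor -/
theorem cyc_form (h : Cf R t₁ t₂ t₃ a x b y p₁ p₂ q₁ q₂ P Q TP TQ) (e0 e1 e2 e3 : Bool) :
    (mnr h).cyc ![e0, e1, e2, e3] = insert s(cond e0 t₂ t₁, cond e0 p₂ p₁)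
      (tp TP (cond e0 p₂ p₁) (cond e1 x a) ∪ {s(cond e1 x a, t₃)} ∪
        {s(t₃, cond e2 y b)} ∪
        tp TQ (cond e2 y b) (cond e3 q₂ q₁) ∪ {s(cond e3 q₂ q₁, cond e3 t₂ t₁)} ∪
        tp (gr {s(t₁, t₂)}) (cond e3 t₂ t₁) (cond e0 t₂ t₁)) := by
  have h1 := DCBM.cyc_eq (mnr h) ![e0, e1, e2, e3]
  rw [h1]
  have h2 : tp (⊥ : SimpleGraph α) t₃ t₃ = ∅ := tp_self (RTree.single t₃).acyc t₃
  show insert s(cond e0 t₂ t₁, cond e0 p₂ p₁)
      (tp TP (cond e0 p₂ p₁) (cond e1 x a) ∪ {s(cond e1 x a, t₃)} ∪ tp ⊥ t₃ t₃ ∪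
        {s(t₃, cond e2 y b)} ∪
        tp TQ (cond e2 y b) (cond e3 q₂ q₁) ∪ {s(cond e3 q₂ q₁, cond e3 t₂ t₁)} ∪
        tp (gr {s(t₁, t₂)}) (cond e3 t₂ t₁) (cond e0 t₂ t₁)) = _
  rw [h2, union_empty]

/-- the cycles which enter and leave `{t₁, t₂}` at the same vertex -/
theorem same (h : Cf R t₁ t₂ t₃ a x b y p₁ p₂ q₁ q₂ P Q TP TQ) (e0 e1 e2 : Bool) :
    s(t₁, t₂) ∉ (mnr h).cyc ![e0, e1, e2, e0] := by
  have n1 : t₁ ∉ P := fun h' => Finset.disjoint_left.1 h.nP h' (by simp)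
  have n2 : t₂ ∉ P := fun h' => Finset.disjoint_left.1 h.nP h' (by simp)
  have m1 : t₁ ∉ Q := fun h' => Finset.disjoint_left.1 h.nQ h' (by simp)
  have m2 : t₂ ∉ Q := fun h' => Finset.disjoint_left.1 h.nQ h' (by simp)
  have g1 : t₁ ≠ t₃ := h.tri.2.1.ne
  have g2 : t₂ ≠ t₃ := h.tri.2.2.ne
  have hp : cond e0 p₂ p₁ ∈ P := by cases e0; exacts [h.h1.1, h.h2.1]
  have hq : cond e0 q₂ q₁ ∈ Q := by cases e0; exacts [h.k1.1, h.k2.1]
  have hg : cond e1 x a ∈ P := by cases e1; exacts [h.ha, h.hx]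
  have hk : cond e2 y b ∈ Q := by cases e2; exacts [h.hb, h.hy]
  rw [cyc_form h, tp_self (edgeTree h.tri.1).acyc, union_empty]
  simp only [mem_insert, mem_union, mem_singleton, not_or]
  refine ⟨?_, ⟨⟨⟨?_, ?_⟩, ?_⟩, ?_⟩, ?_⟩
  · rw [Sym2.eq_iff]
    rintro (⟨_, h1⟩ | ⟨h1, _⟩)
    · exact n2 (h1 ▸ hp)
    · exact n1 (h1 ▸ hp)
  · exact fun h1 => n1 (h.hP.vs_tp hp hg (left_mem_vs h1))
  · rw [Sym2.eq_iff]
    rintro (⟨h1, _⟩ | ⟨h1, _⟩)
    · exact n1 (h1 ▸ hg)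
    · exact g1 h1
  · rw [Sym2.eq_iff]
    rintro (⟨h1, _⟩ | ⟨h1, _⟩)
    · exact g1 h1
    · exact m1 (h1 ▸ hk)
  · exact fun h1 => m1 (h.hQ.vs_tp hk hq (left_mem_vs h1))
  · rw [Sym2.eq_iff]
    rintro (⟨h1, _⟩ | ⟨_, h1⟩)
    · exact m1 (h1 ▸ hq)
    · exact m2 (h1 ▸ hq)

omit [Fintype α] in
theorem un_form (e1 e2 e3 e4 e5 : Sym2 α) (A B : Finset (Sym2 α)) :
    insert e1 (A ∪ {e2} ∪ {e3} ∪ B ∪ {e4} ∪ {e5}) =
      insert e5 (insert e2 (insert e3 (insert e1 A ∪ insert e4 B))) := by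
  ext e
  simp only [mem_insert, mem_union, mem_singleton]
  tauto

theorem cyc1 (h : Cf R t₁ t₂ t₃ a x b y p₁ p₂ q₁ q₂ P Q TP TQ) (e1 e2 : Bool) :
    (mnr h).cyc ![false, e1, e2, true] = c4c t₁ t₂ t₃ (cond e1 x a) (cond e2 y b)
      (insert s(t₁, p₁) (tp TP p₁ (cond e1 x a))) (insert s(t₂, q₂) (tp TQ q₂ (cond e2 y b))) := by
  rw [cyc_form h]
  simp only [cond_true, cond_false]
  rw [tp_comm (edgeTree h.tri.1).acyc t₂ t₁, edge_tp h.tri.1, tp_comm h.hQ.acyc _ q₂, c4c,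
    Sym2.eq_swap (a := cond e1 x a) (b := t₃), Sym2.eq_swap (a := q₂) (b := t₂)]
  exact un_form _ _ _ _ _ _ _

theorem cyc2 (h : Cf R t₁ t₂ t₃ a x b y p₁ p₂ q₁ q₂ P Q TP TQ) (e1 e2 : Bool) :
    (mnr h).cyc ![true, e1, e2, false] = c4c t₁ t₂ t₃ (cond e2 y b) (cond e1 x a)
      (insert s(t₁, q₁) (tp TQ q₁ (cond e2 y b))) (insert s(t₂, p₂) (tp TP p₂ (cond e1 x a))) := by
  rw [cyc_form h]
  simp only [cond_true, cond_false]
  rw [edge_tp h.tri.1, tp_comm h.hQ.acyc _ q₁, c4c,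
    Sym2.eq_swap (a := cond e1 x a) (b := t₃), Sym2.eq_swap (a := q₁) (b := t₁)]
  rw [un_form, insert_comm s(t₃, cond e1 x a), union_comm (insert s(t₂, p₂) _)]

/-- the cube -/
def cube : Bool × Bool × Bool × Bool ≃ (Fin 4 → Bool) where
  toFun x := ![x.1, x.2.1, x.2.2.1, x.2.2.2]
  invFun e := (e 0, e 1, e 2, e 3)
  left_inv _ := rfl
  right_inv e := by
    funext i
    fin_cases i <;> rfl

theorem sumB (H : (Fin 4 → Bool) → ZMod 2) : ∑ e : Fin 4 → Bool, H e =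
    ∑ b0 : Bool, ∑ b1 : Bool, ∑ b2 : Bool, ∑ b3 : Bool, H ![b0, b1, b2, b3] := by
  rw [← cube.sum_comp H]
  simp only [Fintype.sum_prod_type]
  rfl

/-- the sum over the 16 cycles -/
theorem sum16 {H : (Fin 4 → Bool) → ZMod 2} {V W : Bool → Bool → ZMod 2}
    (h0 : ∑ e : Fin 4 → Bool, H e = 0) (h1 : ∀ e0 e1 e2, H ![e0, e1, e2, e0] = 0)
    (h2 : ∀ e1 e2, H ![false, e1, e2, true] = V e1 e2)
    (h3 : ∀ e1 e2, H ![true, e1, e2, false] = W e1 e2) :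
    (V false false + W false false) + (V false true + W false true) +
      ((V true false + W true false) + (V true true + W true true)) = 0 := by
  have hs : ∑ e : Fin 4 → Bool, H e =
      ∑ b0 : Bool, ∑ b1 : Bool, ∑ b2 : Bool, ∑ b3 : Bool, H ![b0, b1, b2, b3] :=
    sumB H
  rw [hs] at h0
  simp only [Fintype.sum_bool, h1, h2, h3, add_zero, zero_add] at h0
  rw [← h0]
  ring

/-- the square relation for the data of the minor -/
theorem square (hFEV : SpecFEV) (hDCB : SpecDCB) {ψ : Finset (Sym2 α) → ZMod 2}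
    {c : α → α → ZMod 2} (h : Cf R t₁ t₂ t₃ a x b y p₁ p₂ q₁ q₂ P Q TP TQ) (hF : InF R ψ)
    (hIV : IV R t₁ t₂ t₃ ψ)
    (hc : ∀ v w A B, LNK R t₁ t₂ t₃ v w A B → ψ (c4c t₁ t₂ t₃ v w A B) = c v w) :
    (c a b + c b a) + (c a y + c y a) + ((c x b + c b x) + (c x y + c y x)) = 0 := by
  refine sum16 (H := fun e => ψ ((mnr h).cyc e))
    (V := fun e1 e2 => c (cond e1 x a) (cond e2 y b))
    (W := fun e1 e2 => c (cond e2 y b) (cond e1 x a)) (hFEV R ψ hF (mnr h)) ?_ ?_ ?_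
  · intro e0 e1 e2
    by_contra hne
    exact same h e0 e1 e2 (hIV _ (hDCB.cyc (mnr h) _).1 hne).1
  · intro e1 e2
    show ψ ((mnr h).cyc ![false, e1, e2, true]) = _
    rw [cyc1 h]
    refine hc _ _ _ _ (lnk h.tri h.hP h.hQ h.lP h.lQ h.dj h.nP h.nQ ?_ ?_ h.h1.1 h.k2.1 ?_ ?_
      h.h1.2 h.k2.2)
    · cases e1; exacts [h.ha, h.hx]
    · cases e2; exacts [h.hb, h.hy]
    · cases e1; exacts [h.aa, h.ax]
    · cases e2; exacts [h.ab, h.ay]
  · intro e1 e2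
    show ψ ((mnr h).cyc ![true, e1, e2, false]) = _
    rw [cyc2 h]
    refine hc _ _ _ _ (lnk h.tri h.hQ h.hP h.lQ h.lP h.dj.symm h.nQ h.nP ?_ ?_ h.k1.1 h.h2.1 ?_ ?_
      h.k1.2 h.h2.2)
    · cases e2; exacts [h.hb, h.hy]
    · cases e1; exacts [h.ha, h.hx]
    · cases e2; exacts [h.ab, h.ay]
    · cases e1; exacts [h.aa, h.ax]

end VSQM

theorem specVSQ (hFEV : SpecFEV) (hDCB : SpecDCB) (hVCS : SpecVCS) : SpecVSQ := by
  intro α _ _ R t₁ t₂ t₃ ψ c P Q a x b y tri hF hIV hc hH ha hx hb hy aa ax ab ay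
  have z2 : ∀ r : ZMod 2, r + r = 0 := by decide
  by_cases hax : a = x
  · subst hax
    exact z2 _
  by_cases hby : b = y
  · subst hby
    have : ∀ r s : ZMod 2, r + r + (s + s) = 0 := by decide
    exact this _ _
  have sub : ∀ S, CSet R S → ∀ z ∈ S, ∃ T : SimpleGraph α, T ≤ R ∧ RTree S T := by
    intro S hS z hz
    obtain ⟨T, -, hle, hT⟩ := hVCS.ext (N := R) (T := ⊥) (S := S) (Y := {z}) hS
      ⟨fun _ _ h => h.elim, fun v hv w hw => by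
        rw [mem_singleton] at hv hw
        rw [hv, hw], isAcyclic_bot⟩ (singleton_subset_iff.2 hz) (singleton_nonempty z) bot_le
    exact ⟨T, hle, ⟨hT.inX, hT.conn, hT.acyc⟩⟩
  obtain ⟨TP, lP, hTP⟩ := sub P hH.cP a ha
  obtain ⟨TQ, lQ, hTQ⟩ := sub Q hH.cQ b hb
  obtain ⟨z, hz, p₁, hp₁, ap₁⟩ := hH.p1
  rw [mem_singleton] at hz
  subst hz
  obtain ⟨z, hz, p₂, hp₂, ap₂⟩ := hH.p2
  rw [mem_singleton] at hz
  subst hz
  obtain ⟨z', hz', q₁, hq₁, aq₁⟩ := hH.q1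
  rw [mem_singleton] at hz'
  subst hz'
  obtain ⟨z'', hz'', q₂, hq₂, aq₂⟩ := hH.q2
  rw [mem_singleton] at hz''
  subst hz''
  have nP : Disjoint P {z', z'', t₃} := by
    rw [Finset.disjoint_left]
    intro w hw
    have := hH.un ▸ mem_union_left Q hw
    exact (mem_sdiff.1 this).2
  have nQ : Disjoint Q {z', z'', t₃} := by
    rw [Finset.disjoint_left]
    intro w hw
    have := hH.un ▸ mem_union_right P hw
    exact (mem_sdiff.1 this).2
  exact VSQM.square hFEV hDCB ⟨tri, hTP, hTQ, lP, lQ, hH.dj, nP, nQ, ha, hx, hb, hy, aa, ax, ab,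
    ay, ⟨hp₁, ap₁⟩, ⟨hp₂, ap₂⟩, ⟨hq₁, aq₁⟩, ⟨hq₂, aq₂⟩, hax, hby⟩ hF hIV hc

end DL
end

section
/-!
# MP_3ff0f8_gt, algebra half, Step Y, module VTT (helper57): three pairwise separated vertices
-/
set_option autoImplicit false

open SimpleGraph Finset

namespace DL

namespace VTTM

variable {α : Type} [Fintype α] [DecidableEq α] {R : SimpleGraph α} {t₁ t₂ t₃ : α}

theorem hpr_symm {P Q : Finset α} (h : HPR R t₁ t₂ t₃ P Q) : HPR R t₁ t₂ t₃ Q P :=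
  ⟨h.cQ, h.cP, by rw [union_comm]; exact h.un, h.dj.symm, h.q1, h.q2, h.p1, h.p2⟩

theorem cset_del {X : Finset α} (h : CSet R X) (hX : t₃ ∉ X) : CSet (del R {t₃}) X := by
  refine ⟨h.1, ?_⟩
  have e : del (del R {t₃}) (univ \ X) = del R (univ \ X) := by
    ext a b
    simp only [del, mem_sdiff, mem_univ, true_and, not_not, mem_singleton]
    constructor
    · rintro ⟨⟨h1, _, _⟩, h2, h3⟩
      exact ⟨h1, h2, h3⟩
    · rintro ⟨h1, h2, h3⟩
      exact ⟨⟨h1, fun h => hX (h ▸ h2), fun h => hX (h ▸ h3)⟩, h2, h3⟩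
  rw [e]
  exact h.2

omit [Fintype α] [DecidableEq α] in
theorem tou_del {t : α} {X : Finset α} (h : Tou R {t} X) (ht : t ≠ t₃) (hX : t₃ ∉ X) :
    Tou (del R {t₃}) {t} X := by
  obtain ⟨x, hx, y, hy, hxy⟩ := h
  rw [mem_singleton] at hx
  subst hx
  exact ⟨x, mem_singleton_self _, y, hy, hxy, fun h => ht (mem_singleton.1 h),
    fun h => hX (mem_singleton.1 h ▸ hy)⟩

/-- some H-partition isolates `x` from `y`, `z` -/
def Iso (R : SimpleGraph α) (t₁ t₂ t₃ x y z : α) : Prop :=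
  ∃ P Q, HPR R t₁ t₂ t₃ P Q ∧ x ∈ Q ∧ y ∈ P ∧ z ∈ P

theorem sep {x y z : α} (h : HSP R t₁ t₂ t₃ x y) (hz : z ∈ VS R \ {t₁, t₂, t₃}) :
    Iso R t₁ t₂ t₃ x y z ∨ Iso R t₁ t₂ t₃ y x z := by
  obtain ⟨P, Q, h, hx, hy⟩ := h
  rw [← h.un, mem_union] at hz
  rcases hz with hz | hz
  · exact Or.inr ⟨P, Q, h, hy, hx, hz⟩
  · exact Or.inl ⟨Q, P, hpr_symm h, hx, hy, hz⟩

theorem fin (hV3L : SpecV3L) (hVTR : SpecVTR) {ψ : Finset (Sym2 α) → ZMod 2}
    {c : α → α → ZMod 2} (hT : Trg R t₁ t₂ t₃) (hF : InF R ψ) (hIV : IV R t₁ t₂ t₃ ψ)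
    (hc : ∀ v w A B, LNK R t₁ t₂ t₃ v w A B → ψ (c4c t₁ t₂ t₃ v w A B) = c v w) {x y z : α}
    (ax : R.Adj t₃ x) (ay : R.Adj t₃ y) (az : R.Adj t₃ z) (h1 : Iso R t₁ t₂ t₃ y x z)
    (h2 : Iso R t₁ t₂ t₃ z x y) :
    (c x y + c y x) + (c x z + c z x) + (c y z + c z y) = 0 := by
  obtain ⟨P, Q, h, hyQ, hxP, hzP⟩ := h1
  obtain ⟨P', Q', h', hzQ, hxP', hyP'⟩ := h2
  have hn : ∀ {P Q : Finset α}, HPR R t₁ t₂ t₃ P Q → t₁ ∉ P ∪ Q ∧ t₂ ∉ P ∪ Q ∧ t₃ ∉ P ∪ Q := by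
    intro P Q h
    rw [h.un]
    simp
  obtain ⟨n1, n2, n3⟩ := hn h
  obtain ⟨-, -, n3'⟩ := hn h'
  rw [mem_union, not_or] at n3 n3'
  have ne13 : t₁ ≠ t₃ := hT.2.1.ne
  have ne23 : t₂ ≠ t₃ := hT.2.2.ne
  have hR : R3D (del R {t₃}) t₁ t₂ x y z P Q P' Q' :=
    { n12 := hT.1.ne
      h1 := n1
      h2 := n2
      un := by rw [h.un, h'.un]
      dj := h.dj
      dj' := h'.dj
      c := ⟨cset_del h.cP n3.1, cset_del h.cQ n3.2, cset_del h'.cP n3'.1, cset_del h'.cQ n3'.2⟩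
      a1 := ⟨tou_del h.p1 ne13 n3.1, tou_del h.q1 ne13 n3.2, tou_del h'.p1 ne13 n3'.1,
        tou_del h'.q1 ne13 n3'.2⟩
      a2 := ⟨tou_del h.p2 ne23 n3.1, tou_del h.q2 ne23 n3.2, tou_del h'.p2 ne23 n3'.1,
        tou_del h'.q2 ne23 n3'.2⟩
      m1 := ⟨hxP, hxP'⟩
      m2 := ⟨hyQ, hyP'⟩
      m3 := ⟨hzP, hzQ⟩ }
  obtain ⟨x', u', w', T₁, T₂, X, U, W, hcases, hK⟩ := hV3L hR
  rcases hcases with ⟨rfl, rfl, rfl⟩ | ⟨rfl, rfl, rfl⟩ | ⟨rfl, rfl, rfl⟩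
  · exact hVTR hT hF hIV hc hK ax ay az
  · have := hVTR hT hF hIV hc hK ay ax az
    rw [← this]
    abel
  · have := hVTR hT hF hIV hc hK az ax ay
    rw [← this]
    abel

end VTTM

/-- **VTT.** -/
theorem specVTT (hV3L : SpecV3L) (hVTR : SpecVTR) : SpecVTT := by
  intro α _ _ R t₁ t₂ t₃ ψ c v₁ v₂ v₃ hT hF hIV hc a1 a2 a3 h12 h23 h13
  have m1 : v₁ ∈ VS R \ {t₁, t₂, t₃} := by
    obtain ⟨P, Q, h, hx, hy⟩ := h12
    rw [← h.un]
    exact mem_union_left _ hx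
  have m2 : v₂ ∈ VS R \ {t₁, t₂, t₃} := by
    obtain ⟨P, Q, h, hx, hy⟩ := h23
    rw [← h.un]
    exact mem_union_left _ hx
  have m3 : v₃ ∈ VS R \ {t₁, t₂, t₃} := by
    obtain ⟨P, Q, h, hx, hy⟩ := h23
    rw [← h.un]
    exact mem_union_right _ hy
  have sw : ∀ {x y z : α}, VTTM.Iso R t₁ t₂ t₃ x y z → VTTM.Iso R t₁ t₂ t₃ x z y := by
    rintro x y z ⟨P, Q, h, h1, h2, h3⟩
    exact ⟨P, Q, h, h1, h3, h2⟩
  have f := @VTTM.fin α _ _ R t₁ t₂ t₃ hV3L hVTR ψ c hT hF hIV hc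
  -- `i 2`, `i 3`
  have g23 : VTTM.Iso R t₁ t₂ t₃ v₂ v₁ v₃ → VTTM.Iso R t₁ t₂ t₃ v₃ v₁ v₂ →
      (c v₁ v₂ + c v₂ v₁) + (c v₁ v₃ + c v₃ v₁) + (c v₂ v₃ + c v₃ v₂) = 0 :=
    fun p q => f a1 a2 a3 p q
  have g13 : VTTM.Iso R t₁ t₂ t₃ v₁ v₂ v₃ → VTTM.Iso R t₁ t₂ t₃ v₃ v₁ v₂ →
      (c v₁ v₂ + c v₂ v₁) + (c v₁ v₃ + c v₃ v₁) + (c v₂ v₃ + c v₃ v₂) = 0 := by
    intro p q
    have := f a2 a1 a3 p (sw q)
    rw [← this]
    abel
  have g12 : VTTM.Iso R t₁ t₂ t₃ v₁ v₂ v₃ → VTTM.Iso R t₁ t₂ t₃ v₂ v₁ v₃ →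
      (c v₁ v₂ + c v₂ v₁) + (c v₁ v₃ + c v₃ v₁) + (c v₂ v₃ + c v₃ v₂) = 0 := by
    intro p q
    have := f a3 a1 a2 (sw p) (sw q)
    rw [← this]
    abel
  have s12 := VTTM.sep h12 m3
  have s23 := VTTM.sep h23 m1
  have s13 := VTTM.sep h13 m2
  rcases s12 with s12 | s12
  · -- 1 isolated
    rcases s23 with s23 | s23
    · exact g12 s12 (sw s23)
    · exact g13 s12 (sw s23)
  · -- 2 isolated
    rcases s13 with s13 | s13
    · exact g12 (sw s13) s12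
    · exact g23 s12 s13

end DL
end
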