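import Pool.Agent.DL.Y.YKT

/-!
# MP_3ff0f8_gt, STEP Y, part U, module YF1 (helper41): all terms contain `t₁t₂`
-/

open SimpleGraph Finset

namespace DL

namespace YF1M

variable {α : Type} [Fintype α] [DecidableEq α]

theorem tch_zero {a a' : α} {m : α → α → ZMod 2} {C : Finset (Sym2 α)} (h : s(a, a') ∉ C) :
    tch a a' m C = 0 := by
  unfold tch
  refine sum_eq_zero fun c _ => sum_eq_zero fun d _ => ?_
  rw [coh_eq_zero_left h, mul_zero]

theorem tch_add (a a' : α) (m m' : α → α → ZMod 2) (C : Finset (Sym2 α)) :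
    tch a a' (m + m') C = tch a a' m C + tch a a' m' C := by
  unfold tch
  simp only [Pi.add_apply, add_mul, sum_add_distrib]

/-- `tch` as a combination of coherence functions -/
theorem tch_eq (a a' : α) (m : α → α → ZMod 2) (C : Finset (Sym2 α)) :
    tch a a' m C = ∑ x, ∑ y, ∑ c, ∑ d, (if x = a ∧ y = a' then m c d else 0) * coh x y c d C := by
  rw [sum_eq_single a, sum_eq_single a']
  · unfold tch
    refine sum_congr rfl fun c _ => sum_congr rfl fun d _ => ?_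
    rw [if_pos ⟨rfl, rfl⟩]
  · intro y _ hy
    refine sum_eq_zero fun c _ => sum_eq_zero fun d _ => ?_
    rw [if_neg (fun h => hy h.2), zero_mul]
  · intro h
    exact absurd (mem_univ _) h
  · intro x _ hx
    refine sum_eq_zero fun y _ => sum_eq_zero fun c _ => sum_eq_zero fun d _ => ?_
    rw [if_neg (fun h => hx h.1), zero_mul]
  · intro h
    exact absurd (mem_univ _) h

/-- only one edge at `t₃` counts -/
theorem sum_one {C : Finset (Sym2 α)} {t₁ t₂ t₃ v₀ : α} (hv : s(t₃, v₀) ∈ C)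
    (hu : ∀ v, v ≠ t₁ → v ≠ t₂ → s(t₃, v) ∈ C → v = v₀) (g : α → ZMod 2)
    (hg : ∀ v, g v ≠ 0 → v ≠ t₁ ∧ v ≠ t₂) : ∑ v, g v * chi C s(t₃, v) = g v₀ := by
  rw [sum_eq_single v₀]
  · rw [chi_of_mem hv, mul_one]
  · intro v _ hne
    by_cases h0 : g v = 0
    · rw [h0, zero_mul]
    · rw [chi_of_notMem fun h => hne (hu v (hg v h0).1 (hg v h0).2 h), mul_zero]
  · intro h
    exact absurd (mem_univ _) h

/-- the same for the quadratic form -/
theorem sum_two {C : Finset (Sym2 α)} {t₁ t₂ t₃ v₀ : α} (hv : s(t₃, v₀) ∈ C)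
    (hu : ∀ v, v ≠ t₁ → v ≠ t₂ → s(t₃, v) ∈ C → v = v₀) (s : α → α → ZMod 2)
    (hs : ∀ v w, s v w ≠ 0 → v ≠ t₁ ∧ v ≠ t₂ ∧ w ≠ t₁ ∧ w ≠ t₂) :
    ∑ v, ∑ w, s v w * (chi C s(t₃, v) * chi C s(t₃, w)) = s v₀ v₀ := by
  have h1 : ∀ v, ∑ w, s v w * (chi C s(t₃, v) * chi C s(t₃, w)) = s v v₀ * chi C s(t₃, v) := by
    intro v
    rw [← sum_one hv hu (fun w => s v w) fun w hw => ⟨(hs v w hw).2.2.1, (hs v w hw).2.2.2⟩,
      sum_mul]
    refine sum_congr rfl fun w _ => ?_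
    ring
  rw [sum_congr rfl fun v _ => h1 v]
  exact sum_one hv hu (fun v => s v v₀) fun v hv' => ⟨(hs v v₀ hv').1, (hs v v₀ hv').2.1⟩

/-- no edge at `t₃` counts -/
theorem sum_none {C : Finset (Sym2 α)} {t₁ t₂ t₃ : α}
    (hu : ∀ v, v ≠ t₁ → v ≠ t₂ → s(t₃, v) ∉ C) (g : α → ZMod 2)
    (hg : ∀ v, g v ≠ 0 → v ≠ t₁ ∧ v ≠ t₂) (x : α → ZMod 2)
    (hx : ∀ v, s(t₃, v) ∉ C → x v = 0) : ∑ v, g v * x v = 0 := by
  refine sum_eq_zero fun v _ => ?_
  by_cases h0 : g v = 0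
  · rw [h0, zero_mul]
  · rw [hx v (hu v (hg v h0).1 (hg v h0).2), mul_zero]

/-- the quadratic function -/
noncomputable def q1 (t₁ t₂ t₃ : α) (s : α → α → ZMod 2) (ν : α → ZMod 2) (c : Chain α) : ZMod 2 :=
  ∑ v, ∑ w, s v w * (c s(t₃, v) * c s(t₃, w)) +
    c s(t₁, t₃) * ∑ v, (s v v + ν v) * c s(t₃, v) + c s(t₂, t₃) * ∑ v, s v v * c s(t₃, v)

theorem deg_coord (hPOL : SpecPOL) (e : Sym2 α) : DegLE 1 (fun c : Chain α => c e) :=
  hPOL.ofAdd fun _ _ => rfl

theorem deg_q1 (hPOL : SpecPOL) (t₁ t₂ t₃ : α) (s : α → α → ZMod 2) (ν : α → ZMod 2) :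
    DegLE 2 (q1 t₁ t₂ t₃ s ν) := by
  have hlin : ∀ g : α → ZMod 2, DegLE 1 (fun c : Chain α => ∑ v, g v * c s(t₃, v)) := by
    intro g
    refine hPOL.sum univ _ fun v _ => ?_
    exact hPOL.mul (d := 0) (e := 1) (hPOL.const 0 _) (deg_coord hPOL _)
  have h1 : DegLE 2 (fun c : Chain α => ∑ v, ∑ w, s v w * (c s(t₃, v) * c s(t₃, w))) := by
    refine hPOL.sum univ _ fun v _ => hPOL.sum univ _ fun w _ => ?_
    exact hPOL.mul (d := 0) (e := 2) (hPOL.const 0 _)
      (hPOL.mul (d := 1) (e := 1) (deg_coord hPOL _) (deg_coord hPOL _))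
  have h2 : DegLE 2 (fun c : Chain α => c s(t₁, t₃) * ∑ v, (s v v + ν v) * c s(t₃, v)) :=
    hPOL.mul (d := 1) (e := 1) (deg_coord hPOL _) (hlin _)
  have h3 : DegLE 2 (fun c : Chain α => c s(t₂, t₃) * ∑ v, s v v * c s(t₃, v)) :=
    hPOL.mul (d := 1) (e := 1) (deg_coord hPOL _) (hlin _)
  exact hPOL.add (hPOL.add h1 h2) h3

end YF1M

open YF1M in
/-- **YF1** -/
theorem specYF1 (hYNF : SpecYNF) (hYPS : SpecYPS) (hYIV : SpecYIV) (hYKC : SpecYKC)
    (hPOL : SpecPOL) : SpecYF1 := by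
  intro α _ _ R t₁ t₂ t₃ F hT hF hK1 hK2 hF0 hL
  obtain ⟨n1, n2, n3⟩ := YIVM.ne_of hT
  have sw12 : s(t₂, t₁) = s(t₁, t₂) := Sym2.eq_swap
  have sw13 : s(t₃, t₁) = s(t₁, t₃) := Sym2.eq_swap
  have sw23 : s(t₃, t₂) = s(t₂, t₃) := Sym2.eq_swap
  obtain ⟨p, m₁, m₂, m₃, l, hp, hp0, o1, o2, o3, ol, hTNF⟩ := hYNF hT hF
  obtain ⟨q, hq, hform⟩ := hYPS.form t₁ t₂ t₃ p m₁ m₂ m₃ hp
  have hmu := YPSM.offT_add (YPSM.offT_add o1 o2) o3
  generalize hM : m₁ + m₂ + m₃ = M at hform hmu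
  generalize hκ : F (TrE t₁ t₂ t₃) = κ
  -- the polynomial of `Φ`
  have hq' : DegLE 2 (fun c : Chain α => q c + κ * (c s(t₁, t₃) * c s(t₂, t₃))) :=
    hPOL.add hq (hPOL.mul (d := 0) (e := 2) (hPOL.const 0 _)
      (hPOL.mul (d := 1) (e := 1) (deg_coord hPOL _) (deg_coord hPOL _)))
  obtain ⟨Φ, hΦ⟩ : ∃ Φ : Finset (Sym2 α) → ZMod 2, ∀ C, Φ C =
      chi C s(t₁, t₂) * (q (chi C) + κ * (chi C s(t₁, t₃) * chi C s(t₂, t₃))) + tch t₂ t₁ M C :=
    ⟨_, fun _ => rfl⟩
  have hΦ' : ∀ C, Φ C = Psi t₁ t₂ t₃ p m₁ m₂ m₃ C +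
      chi C s(t₁, t₂) * (κ * (chi C s(t₁, t₃) * chi C s(t₂, t₃))) := by
    intro C
    rw [hΦ, hform C]
    ring
  obtain ⟨hΦ1, hΦ2⟩ : KCJ R t₁ t₂ t₃ Φ ∧ KCJ R t₂ t₁ t₃ Φ :=
    hYKC hT hq' hmu fun C _ => hΦ C
  have hadd : ∀ a b c : α, KCJ R a b c F → KCJ R a b c Φ → KCJ R a b c (fun C => F C + Φ C) := by
    intro a b c h1 h2 K hp hq
    rw [sum_add_distrib, h1 K hp hq, h2 K hp hq, add_zero]
  -- `F + Φ` is in `F(R)`
  have hIn : InF R (fun C => F C + Φ C) := by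
    obtain ⟨pF, hpF, hpF0, lF, hlF⟩ := hF
    refine ⟨fun c => pF c + c s(t₁, t₂) * (q c + κ * (c s(t₁, t₃) * c s(t₂, t₃))), ?_, ?_,
      fun x y c d => lF x y c d + if x = t₂ ∧ y = t₁ then M c d else 0, ?_⟩
    · exact hPOL.add hpF (hPOL.mul (d := 1) (e := 2) (deg_coord hPOL _) hq')
    · show pF 0 + 0 * _ = 0
      rw [hpF0, zero_mul, add_zero]
    · intro C hC
      show F C + Φ C = _
      rw [hlF C hC, hΦ, tch_eq]
      simp only [add_mul, sum_add_distrib]
      ring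
  -- values
  have hz12 : ∀ C, IsCyc R C → s(t₁, t₂) ∉ C → F C + Φ C = 0 := by
    intro C hC h
    rw [hF0 C hC h, hΦ, chi_of_notMem h, zero_mul, tch_zero (by rwa [sw12])]
    norm_num
  have hzT : F (TrE t₁ t₂ t₃) + Φ (TrE t₁ t₂ t₃) = 0 := by
    rw [hΦ', hYPS.tri hT hp0 o1 o2 o3, hκ, chi_of_mem (YIVM.mem_TrE.2 (Or.inl rfl)),
      chi_of_mem (YIVM.mem_TrE.2 (Or.inr (Or.inl rfl))),
      chi_of_mem (YIVM.mem_TrE.2 (Or.inr (Or.inr rfl)))]
    generalize κ = a
    revert a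
    decide
  have hzN : ∀ C, IsCyc R C → s(t₁, t₂) ∈ C →
      ¬ (s(t₁, t₃) ∉ C ∧ s(t₂, t₃) ∉ C ∧ t₃ ∈ vs C) → F C + Φ C = 0 := by
    intro C hC h12 hnot
    by_cases hCT : C = TrE t₁ t₂ t₃
    · rw [hCT]; exact hzT
    obtain ⟨C', hC', h12', hch⟩ := hYIV hT C hC h12 hCT hnot
    have hi := hYPS.idn (p := p) (l := l) hT o1 o2 o3 ol C C' hC hC' h12 hch
    rw [← hTNF C hC, ← hTNF C' hC', hF0 C' hC' h12', add_zero] at hi
    have hx : chi C s(t₁, t₃) * chi C s(t₂, t₃) = 0 := by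
      by_cases h13 : s(t₁, t₃) ∈ C
      · by_cases h23 : s(t₂, t₃) ∈ C
        · exact absurd (YIVM.eq_T hT hC h12 h13 h23) hCT
        · rw [chi_of_notMem h23, mul_zero]
      · rw [chi_of_notMem h13, zero_mul]
    rw [hΦ', ← hi, hx, mul_zero, mul_zero, add_zero, zmod2_add_self]
  have hIV : IV R t₁ t₂ t₃ (fun C => F C + Φ C) := by
    intro C hC h0
    have h12 : s(t₁, t₂) ∈ C := by
      by_contra h
      exact h0 (hz12 C hC h)
    refine ⟨h12, ?_⟩
    by_contra h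
    exact h0 (hzN C hC h12 h)
  obtain ⟨s, ν, hs, hν, hloc⟩ := hL _ hIn (hadd _ _ _ hK1 hΦ1) (hadd _ _ _ hK2 hΦ2) hIV
  -- the formula on all cycles
  have hs' : ∀ v w, s v w ≠ 0 → v ≠ t₁ ∧ v ≠ t₂ ∧ w ≠ t₁ ∧ w ≠ t₂ := fun v w h =>
    (hs v w h).2.2
  have hν' : ∀ v, ν v ≠ 0 → v ≠ t₁ ∧ v ≠ t₂ := fun v h => (hν v h).2
  have hd' : ∀ v, s v v ≠ 0 → v ≠ t₁ ∧ v ≠ t₂ := fun v h => ⟨(hs' v v h).1, (hs' v v h).2.1⟩
  have hsν' : ∀ v, s v v + ν v ≠ 0 → v ≠ t₁ ∧ v ≠ t₂ := by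
    intro v h
    by_cases h1 : s v v = 0
    · exact hν' v fun h2 => h (by rw [h1, h2, add_zero])
    · exact hd' v h1
  have hmain : ∀ C, IsCyc R C → F C + Φ C = chi C s(t₁, t₂) * q1 t₁ t₂ t₃ s ν (chi C) +
      ∑ v, ν v * coh t₂ t₁ t₃ v C := by
    intro C hC
    by_cases h12 : s(t₁, t₂) ∈ C
    swap
    · rw [hz12 C hC h12, chi_of_notMem h12, zero_mul, zero_add]
      symm
      refine sum_eq_zero fun v _ => ?_
      rw [coh_eq_zero_left (by rwa [sw12]), mul_zero]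
    rw [chi_of_mem h12, one_mul]
    unfold q1
    by_cases h13 : s(t₁, t₃) ∈ C
    · by_cases h23 : s(t₂, t₃) ∈ C
      · -- `C = T`
        have hCT := YIVM.eq_T hT hC h12 h13 h23
        have hno : ∀ v, v ≠ t₁ → v ≠ t₂ → s(t₃, v) ∉ C := by
          intro v h1 h2 h3
          rw [hCT, YIVM.mem_TrE] at h3
          rcases h3 with h3 | h3 | h3 <;> rw [Sym2.eq_iff] at h3
          · rcases h3 with h3 | h3
            · exact h2 h3.2
            · exact h1 h3.2
          · rcases h3 with h3 | h3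
            · exact hT.2.1.ne h3.1.symm
            · exact h1 h3.2
          · rcases h3 with h3 | h3
            · exact hT.2.2.ne h3.1.symm
            · exact h2 h3.2
        have e0 : F C + Φ C = 0 := by rw [hCT]; exact hzT
        rw [e0, sum_none hno (fun v => s v v + ν v) hsν' (fun v => chi C s(t₃, v))
          fun v h => chi_of_notMem h, sum_none hno (fun v => s v v) hd' (fun v => chi C s(t₃, v))
          fun v h => chi_of_notMem h, sum_none hno ν hν' (fun v => coh t₂ t₁ t₃ v C)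
          fun v h => coh_eq_zero_right h, mul_zero, mul_zero]
        have e1 : ∑ v, ∑ w, s v w * (chi C s(t₃, v) * chi C s(t₃, w)) = 0 := by
          refine sum_eq_zero fun v _ => sum_eq_zero fun w _ => ?_
          by_cases h : s v w = 0
          · rw [h, zero_mul]
          · rw [chi_of_notMem (hno v (hs' v w h).1 (hs' v w h).2.1), zero_mul, mul_zero]
        rw [e1]
        norm_num
      · -- `t₁t₃` is in `C`
        have e0 : F C + Φ C = 0 := hzN C hC h12 fun h => h.1 h13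
        have h31 : s(t₃, t₁) ∈ C := by rwa [sw13]
        obtain ⟨v₀, hne, hv₀⟩ := hC.exists_other h31
        have hu : ∀ v, s(t₃, v) ∈ C → v = t₁ ∨ v = v₀ := fun v h =>
          hC.eq_or_eq h31 hv₀ hne.symm h
        have hu' : ∀ v, v ≠ t₁ → v ≠ t₂ → s(t₃, v) ∈ C → v = v₀ := by
          intro v h1 _ h3
          rcases hu v h3 with h | h
          · exact absurd h h1
          · exact h
        have hco : coh t₂ t₁ t₃ v₀ C = 1 := by
          rw [coh_apply, if_pos]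
          refine ⟨by rwa [sw12], hv₀, ?_⟩
          refine Rch.of_mem ?_
          rw [mem_sdiff, mem_insert, mem_singleton, not_or]
          refine ⟨h13, ?_, ?_⟩
          · rw [sw12]; exact n1.symm
          · rw [← sw13, Sym2.eq_iff]
            rintro (⟨_, h⟩ | ⟨_, h⟩)
            · exact hne h.symm
            · exact hT.2.1.ne h
        have hνs : ∑ v, ν v * coh t₂ t₁ t₃ v C = ν v₀ := by
          rw [sum_eq_single v₀]
          · rw [hco, mul_one]
          · intro v _ hvv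
            by_cases h0 : ν v = 0
            · rw [h0, zero_mul]
            · rw [coh_eq_zero_right fun h => hvv (hu' v (hν' v h0).1 (hν' v h0).2 h), mul_zero]
          · intro h
            exact absurd (mem_univ _) h
        rw [e0, hνs, sum_two hv₀ hu' s hs', sum_one hv₀ hu' (fun v => s v v + ν v) hsν',
          chi_of_mem h13, chi_of_notMem h23]
        generalize s v₀ v₀ = a
        generalize ν v₀ = b
        rw [zero_mul]
        revert a b
        decide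
    · by_cases h23 : s(t₂, t₃) ∈ C
      · -- `t₂t₃` is in `C`
        have e0 : F C + Φ C = 0 := hzN C hC h12 fun h => h.2.1 h23
        have h32 : s(t₃, t₂) ∈ C := by rwa [sw23]
        obtain ⟨v₀, hne, hv₀⟩ := hC.exists_other h32
        have hu : ∀ v, s(t₃, v) ∈ C → v = t₂ ∨ v = v₀ := fun v h =>
          hC.eq_or_eq h32 hv₀ hne.symm h
        have hu' : ∀ v, v ≠ t₁ → v ≠ t₂ → s(t₃, v) ∈ C → v = v₀ := by
          intro v _ h2 h3
          rcases hu v h3 with h | h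
          · exact absurd h h2
          · exact h
        have hco : coh t₁ t₂ t₃ v₀ C = 1 := by
          rw [coh_apply, if_pos]
          refine ⟨h12, hv₀, ?_⟩
          refine Rch.of_mem ?_
          rw [mem_sdiff, mem_insert, mem_singleton, not_or]
          refine ⟨h23, n2.symm, ?_⟩
          rw [← sw23, Sym2.eq_iff]
          rintro (⟨_, h⟩ | ⟨_, h⟩)
          · exact hne h.symm
          · exact hT.2.2.ne h
        have hne2 : s(t₃, v₀) ≠ s(t₁, t₂) := by
          rw [Ne, Sym2.eq_iff]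
          rintro (⟨h, _⟩ | ⟨h, _⟩)
          · exact hT.2.1.ne h.symm
          · exact hT.2.2.ne h.symm
        have hco' : coh t₂ t₁ t₃ v₀ C = 0 := by
          have h := YPSM.swp hC h12 hne2
          rw [h, hco, chi_of_mem hv₀]
          decide
        have hνs : ∑ v, ν v * coh t₂ t₁ t₃ v C = 0 := by
          refine sum_eq_zero fun v _ => ?_
          by_cases h0 : ν v = 0
          · rw [h0, zero_mul]
          · by_cases hvv : v = v₀
            · rw [hvv, hco', mul_zero]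
            · rw [coh_eq_zero_right fun h => hvv (hu' v (hν' v h0).1 (hν' v h0).2 h), mul_zero]
        rw [e0, hνs, sum_two hv₀ hu' s hs', sum_one hv₀ hu' (fun v => s v v) hd',
          chi_of_mem h23, chi_of_notMem h13]
        generalize s v₀ v₀ = a
        rw [zero_mul]
        revert a
        decide
      · -- no other edge of `T` in `C`
        rw [hloc C hC h12 h13 h23, chi_of_notMem h13, chi_of_notMem h23, zero_mul, zero_mul,
          add_zero, add_zero]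
        rfl
  -- conclusion
  refine ⟨fun c => (q c + κ * (c s(t₁, t₃) * c s(t₂, t₃))) + q1 t₁ t₂ t₃ s ν c,
    M + fun u v => if u = t₃ then ν v else 0, hPOL.add hq' (deg_q1 hPOL t₁ t₂ t₃ s ν),
    YPSM.offT_add hmu ?_, ?_⟩
  · intro u v h
    by_cases hu : u = t₃
    · subst hu
      have h' : ν v ≠ 0 := fun h0 => h (by show (if u = u then ν v else 0) = 0; rw [if_pos rfl, h0])
      obtain ⟨h1, h2, h3⟩ := hν v h'
      refine ⟨h1, ?_⟩
      rw [YIVM.mem_TrE]
      rintro (h4 | h4 | h4) <;> rw [Sym2.eq_iff] at h4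
      · rcases h4 with h4 | h4
        · exact h3 h4.2
        · exact h2 h4.2
      · rcases h4 with h4 | h4
        · exact hT.2.1.ne h4.1.symm
        · exact h2 h4.2
      · rcases h4 with h4 | h4
        · exact hT.2.2.ne h4.1.symm
        · exact h3 h4.2
    · exact absurd (show (if u = t₃ then ν v else 0) = 0 from if_neg hu) h
  · intro C hC
    have h1 := hmain C hC
    have h2 : tch t₂ t₁ (fun u v => if u = t₃ then ν v else 0) C = ∑ v, ν v * coh t₂ t₁ t₃ v C := by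
      unfold tch
      rw [sum_eq_single t₃]
      · simp only [if_true]
      · intro u _ hu
        simp only [if_neg hu, zero_mul, sum_const_zero]
      · intro h
        exact absurd (mem_univ _) h
    rw [tch_add, h2]
    have h3 : F C = (F C + Φ C) + Φ C := by rw [add_assoc, zmod2_add_self, add_zero]
    rw [h3, h1, hΦ]
    ring

end DL
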