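import Pool.Agent.DL.Y.SpecU
import Pool.Agent.DL.KC
import Pool.Agent.DL.EX.VRS
import Pool.Agent.DL.PC2

section
/-!
# YC1: the graph `R` (Y-Δ of a cubic vertex) is in the class `C1`
-/
set_option linter.unusedSectionVars false

open SimpleGraph Finset

namespace DL

namespace YC1M

variable {α : Type} [Fintype α] [DecidableEq α] {G : SimpleGraph α} {b t₁ t₂ t₃ : α}

theorem yd_adj {u w : α} : (yd G b t₁ t₂ t₃).Adj u w ↔
    (G.Adj u w ∧ u ≠ b ∧ w ≠ b) ∨ (s(u, w) ∈ TrE t₁ t₂ t₃ ∧ u ≠ w) := by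
  unfold yd
  rw [SimpleGraph.sup_adj, SimpleGraph.fromEdgeSet_adj]
  show (G.Adj u w ∧ u ∉ ({b} : Finset α) ∧ w ∉ ({b} : Finset α)) ∨ _ ↔ _
  rw [Finset.mem_singleton, Finset.mem_singleton, Finset.mem_coe]

theorem mem_TrE {u w : α} : s(u, w) ∈ TrE t₁ t₂ t₃ ↔
    (u = t₁ ∧ w = t₂ ∨ u = t₂ ∧ w = t₁) ∨ (u = t₁ ∧ w = t₃ ∨ u = t₃ ∧ w = t₁) ∨
      (u = t₂ ∧ w = t₃ ∨ u = t₃ ∧ w = t₂) := by
  unfold TrE
  simp only [Finset.mem_insert, Finset.mem_singleton, Sym2.eq_iff]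

theorem bt1 (h : Cub G b t₁ t₂ t₃) : G.Adj b t₁ := (h.nb _).2 (Or.inl rfl)
theorem bt2 (h : Cub G b t₁ t₂ t₃) : G.Adj b t₂ := (h.nb _).2 (Or.inr (Or.inl rfl))
theorem bt3 (h : Cub G b t₁ t₂ t₃) : G.Adj b t₃ := (h.nb _).2 (Or.inr (Or.inr rfl))

/-- membership in `T` -/
theorem memT {x : α} : x ∈ ({t₁, t₂, t₃} : Finset α) ↔ x = t₁ ∨ x = t₂ ∨ x = t₃ := by
  rw [mem_insert, mem_insert, mem_singleton]

theorem adj_b (h : Cub G b t₁ t₂ t₃) {x : α} : G.Adj b x ↔ x ∈ ({t₁, t₂, t₃} : Finset α) := by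
  rw [h.nb, memT]

/-- `T` is a clique of `R` -/
theorem cliq (h : Cub G b t₁ t₂ t₃) {x y : α} (hx : x ∈ ({t₁, t₂, t₃} : Finset α))
    (hy : y ∈ ({t₁, t₂, t₃} : Finset α)) (hxy : x ≠ y) : (yd G b t₁ t₂ t₃).Adj x y := by
  rw [yd_adj, mem_TrE]
  right
  refine ⟨?_, hxy⟩
  rw [memT] at hx hy
  rcases hx with rfl | rfl | rfl <;> rcases hy with rfl | rfl | rfl <;>
    first
    | exact absurd rfl hxy
    | simp

theorem TrE_T {u w : α} (h : s(u, w) ∈ TrE t₁ t₂ t₃) :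
    u ∈ ({t₁, t₂, t₃} : Finset α) ∧ w ∈ ({t₁, t₂, t₃} : Finset α) := by
  rw [mem_TrE] at h
  rw [memT, memT]
  tauto

theorem VS_sub (h : Cub G b t₁ t₂ t₃) : VS (yd G b t₁ t₂ t₃) ⊆ VS G \ {b} := by
  intro v hv
  obtain ⟨w, hw⟩ := mem_VS.1 hv
  rw [mem_sdiff, mem_singleton]
  rcases yd_adj.1 hw with h1 | h1
  · exact ⟨left_mem_VS h1.1, h1.2.1⟩
  · have h2 := (adj_b h).2 (TrE_T h1.1).1
    exact ⟨right_mem_VS h2, h2.ne'⟩

theorem VS_eq (hC : C1 G) (h : Cub G b t₁ t₂ t₃) : VS (yd G b t₁ t₂ t₃) = VS G \ {b} := by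
  apply Subset.antisymm (VS_sub h)
  intro v hv
  rw [mem_sdiff, mem_singleton] at hv
  have h1 := hC.1.le_nbs hv.1
  have h2 : ((nbs G v).erase b).Nonempty := by
    rw [← card_pos]
    have := pred_card_le_card_erase (s := nbs G v) (a := b)
    omega
  obtain ⟨w, hw⟩ := h2
  rw [mem_erase, mem_nbs] at hw
  exact left_mem_VS (yd_adj.2 (Or.inl ⟨hw.2, hv.2, hw.1⟩))

/-- a separation of `R` whose second side does not meet `T` -/
theorem sep_lift (hC : C1 G) (h : Cub G b t₁ t₂ t₃) {S P Q : Finset α}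
    (hs : Sep (yd G b t₁ t₂ t₃) S P Q) (hT : ∀ x ∈ ({t₁, t₂, t₃} : Finset α), x ∉ Q) :
    Sep G S (insert b P) Q := by
  have hV := VS_eq hC h
  have hb : b ∈ VS G := left_mem_VS (bt1 h)
  have hbR : b ∉ VS (yd G b t₁ t₂ t₃) := by
    rw [hV]
    simp
  have hbS : b ∉ S := fun h1 => hbR (hs.subS h1)
  have hbP : b ∉ P := fun h1 => hbR (hs.subP h1)
  have hbQ : b ∉ Q := fun h1 => hbR (hs.subQ h1)
  obtain ⟨h1, h2, h3, h4, h5⟩ := hs
  refine ⟨?_, ?_, h3, ?_, ?_⟩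
  · have h6 : VS G = insert b (VS (yd G b t₁ t₂ t₃)) := by
      rw [hV]
      ext x
      simp only [mem_insert, mem_sdiff, mem_singleton]
      by_cases hx : x = b
      · subst hx; simp [hb]
      · simp [hx]
    rw [h6, ← h1]
    ext x
    simp only [mem_union, mem_insert]
    tauto
  · rw [disjoint_insert_right]
    exact ⟨hbS, h2⟩
  · rw [disjoint_insert_left]
    exact ⟨hbQ, h4⟩
  · intro x hx y hy hxy
    rcases mem_insert.1 hx with rfl | hx
    · exact hT y ((adj_b h).1 hxy) hy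
    · exact h5 x hx y hy (yd_adj.2 (Or.inl ⟨hxy, fun h6 => hbP (h6 ▸ hx), fun h6 => hbQ (h6 ▸ hy)⟩))

/-- `T` does not meet both sides -/
theorem sep_T (h : Cub G b t₁ t₂ t₃) {S P Q : Finset α} (hs : Sep (yd G b t₁ t₂ t₃) S P Q) :
    (∀ x ∈ ({t₁, t₂, t₃} : Finset α), x ∉ Q) ∨ (∀ x ∈ ({t₁, t₂, t₃} : Finset α), x ∉ P) := by
  by_contra hcon
  rw [not_or] at hcon
  push Not at hcon
  obtain ⟨⟨x, hx, hxQ⟩, ⟨y, hy, hyP⟩⟩ := hcon
  have hxy : y ≠ x := by
    rintro rfl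
    exact Finset.disjoint_left.1 hs.2.2.2.1 hyP hxQ
  exact hs.2.2.2.2 y hyP x hxQ (cliq h hy hx hxy)

theorem card_R (hC : C1 G) (h : Cub G b t₁ t₂ t₃) :
    (VS (yd G b t₁ t₂ t₃)).card = (VS G).card - 1 := by
  rw [VS_eq hC h, card_sdiff_of_subset (singleton_subset_iff.2 (left_mem_VS (bt1 h))),
    card_singleton]

theorem c1R (hC : C1 G) (h8 : 8 ≤ (VS G).card) (h : Cub G b t₁ t₂ t₃) :
    C1 (yd G b t₁ t₂ t₃) := by
  have hcR := card_R hC h
  have hone : ∀ S P Q, Sep (yd G b t₁ t₂ t₃) S P Q → S.card < 3 → P = ∅ ∨ Q = ∅ := by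
    intro S P Q hs hS
    rcases sep_T h hs with hT | hT
    · rcases (kconn_iff_sep.1 hC.1).2 _ _ _ (sep_lift hC h hs hT) hS with h1 | h1
      · exact absurd h1 (insert_nonempty _ _).ne_empty
      · exact Or.inr h1
    · rcases (kconn_iff_sep.1 hC.1).2 _ _ _ (sep_lift hC h hs.symm hT) hS with h1 | h1
      · exact absurd h1 (insert_nonempty _ _).ne_empty
      · exact Or.inl h1
  have hbR : b ∉ VS (yd G b t₁ t₂ t₃) := by
    rw [VS_eq hC h]
    simp
  have htwo : ∀ S P Q, Sep (yd G b t₁ t₂ t₃) S P Q → S.card = 3 →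
      (∀ x ∈ ({t₁, t₂, t₃} : Finset α), x ∉ Q) → P.card ≤ 1 ∨ Q.card ≤ 1 := by
    intro S P Q hs hS hT
    rcases hC.2 _ _ _ (sep_lift hC h hs hT) hS with h1 | h1
    · left
      rw [card_insert_of_notMem (fun h2 => hbR (hs.subP h2))] at h1
      omega
    · exact Or.inr h1
  refine ⟨kconn_iff_sep.2 ⟨by omega, hone⟩, ?_⟩
  intro S P Q hs hS
  rcases sep_T h hs with hT | hT
  · exact htwo S P Q hs hS hT
  · exact (htwo S Q P hs.symm hS hT).symm

theorem T_sub (h : Cub G b t₁ t₂ t₃) : ({t₁, t₂, t₃} : Finset α) ⊆ VS G :=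
  fun _ hx => right_mem_VS ((adj_b h).2 hx)

theorem b_T (h : Cub G b t₁ t₂ t₃) : b ∉ ({t₁, t₂, t₃} : Finset α) := by
  intro h1
  exact ((adj_b h).2 h1).ne rfl

theorem card_T (h : Cub G b t₁ t₂ t₃) : ({t₁, t₂, t₃} : Finset α).card = 3 := by
  rw [card_insert_of_notMem, card_insert_of_notMem, card_singleton]
  · rw [mem_singleton]; exact h.n23
  · rw [mem_insert, mem_singleton, not_or]; exact ⟨h.n12, h.n13⟩

theorem connG (hC : C1 G) (h8 : 8 ≤ (VS G).card) (h : Cub G b t₁ t₂ t₃) :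
    ConnOff G {b, t₁, t₂, t₃} := by
  intro x hx y hy hxS hyS
  by_contra hr
  obtain ⟨P, Q, hs, hxP, hyQ, -⟩ := exists_sep_of_not_reachable hx hy hxS hyS hr
  have e1 : ({b, t₁, t₂, t₃} : Finset α) ∩ VS G = insert b {t₁, t₂, t₃} := by
    apply inter_eq_left.2
    exact insert_subset (left_mem_VS (bt1 h)) (T_sub h)
  rw [e1] at hs
  have hbP : b ∉ P := Finset.disjoint_left.1 hs.2.1 (mem_insert_self _ _)
  have hbQ : b ∉ Q := Finset.disjoint_left.1 hs.2.2.1 (mem_insert_self _ _)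
  have hTP : ∀ z ∈ P, z ∉ ({t₁, t₂, t₃} : Finset α) := fun z hz h1 =>
    Finset.disjoint_left.1 hs.2.1 (mem_insert_of_mem h1) hz
  have hTQ : ∀ z ∈ Q, z ∉ ({t₁, t₂, t₃} : Finset α) := fun z hz h1 =>
    Finset.disjoint_left.1 hs.2.2.1 (mem_insert_of_mem h1) hz
  have hP : Sep G {t₁, t₂, t₃} P (insert b Q) := by
    have := hs.move (mem_insert_self _ _) fun p hp h1 => hTP p hp ((adj_b h).1 h1.symm)
    rwa [erase_insert (b_T h)] at this
  have hQ : Sep G {t₁, t₂, t₃} Q (insert b P) := by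
    have := hs.symm.move (mem_insert_self _ _) fun p hp h1 => hTQ p hp ((adj_b h).1 h1.symm)
    rwa [erase_insert (b_T h)] at this
  have hPpos : 0 < P.card := card_pos.2 ⟨x, hxP⟩
  have hQpos : 0 < Q.card := card_pos.2 ⟨y, hyQ⟩
  have h1 : P.card ≤ 1 := by
    rcases hC.2 _ _ _ hP (card_T h) with h2 | h2
    · exact h2
    · rw [card_insert_of_notMem hbQ] at h2
      omega
  have h2 : Q.card ≤ 1 := by
    rcases hC.2 _ _ _ hQ (card_T h) with h2 | h2
    · exact h2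
    · rw [card_insert_of_notMem hbP] at h2
      omega
  have h3 : (VS G).card ≤ 4 + 1 + 1 := by
    rw [← hs.1]
    refine (card_union_le _ _).trans (Nat.add_le_add ((card_union_le _ _).trans
      (Nat.add_le_add ?_ h1)) h2)
    rw [card_insert_of_notMem (b_T h), card_T h]
  omega

theorem connR (hC : C1 G) (h8 : 8 ≤ (VS G).card) (h : Cub G b t₁ t₂ t₃) :
    ConnOff (yd G b t₁ t₂ t₃) {t₁, t₂, t₃} := by
  intro x hx y hy hxS hyS
  have hx' := mem_sdiff.1 (VS_sub h hx)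
  have hy' := mem_sdiff.1 (VS_sub h hy)
  rw [mem_singleton] at hx' hy'
  have h1 := connG hC h8 h x hx'.1 y hy'.1
    (by rw [mem_insert, not_or]; exact ⟨hx'.2, hxS⟩) (by rw [mem_insert, not_or]; exact ⟨hy'.2, hyS⟩)
  apply h1.mono
  intro u w huw
  have h2 : G.Adj u w ∧ u ∉ ({b, t₁, t₂, t₃} : Finset α) ∧ w ∉ ({b, t₁, t₂, t₃} : Finset α) := huw
  rw [mem_insert, not_or, mem_insert (s := {t₁, t₂, t₃}), not_or] at h2
  exact ⟨yd_adj.2 (Or.inl ⟨h2.1, h2.2.1.1, h2.2.2.1⟩), h2.2.1.2, h2.2.2.2⟩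

theorem NB_eq (H : SimpleGraph α) (v : α) : NB H {v} = nbs H v := by
  ext w
  simp only [NB, nbs, mem_filter, mem_univ, true_and, mem_singleton, exists_eq_left]
  constructor
  · exact fun h => h.2
  · exact fun h => ⟨h.ne', h⟩

theorem degR (hC : C1 G) (h8 : 8 ≤ (VS G).card) (h : Cub G b t₁ t₂ t₃) {t : α}
    (ht : t ∈ ({t₁, t₂, t₃} : Finset α)) : 4 ≤ dg (yd G b t₁ t₂ t₃) t := by
  unfold dg
  rw [NB_eq]
  by_contra hcon
  set S := nbs (yd G b t₁ t₂ t₃) t with hS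
  have hSR : S ⊆ VS (yd G b t₁ t₂ t₃) := nbs_subset t
  have hSG : S ⊆ VS G := fun z hz => (mem_sdiff.1 (VS_sub h (hSR hz))).1
  have hbS : b ∉ S := fun hz => by
    have := (mem_sdiff.1 (VS_sub h (hSR hz))).2
    simp at this
  have htS : t ∉ S := notMem_nbs_self t
  have hbt : b ≠ t := ((adj_b h).2 ht).ne
  have hs : Sep G S {b, t} (VS G \ (S ∪ {b, t})) := by
    have h2 : S ∪ {b, t} ⊆ VS G := by
      apply union_subset hSG
      intro z hz
      rw [mem_insert, mem_singleton] at hz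
      rcases hz with rfl | rfl
      · exact left_mem_VS (bt1 h)
      · exact T_sub h ht
    refine ⟨?_, ?_, ?_, ?_, ?_⟩
    · exact union_sdiff_of_subset h2
    · rw [Finset.disjoint_right]
      intro z hz
      rw [mem_insert, mem_singleton] at hz
      rcases hz with rfl | rfl
      · exact hbS
      · exact htS
    · rw [Finset.disjoint_left]
      intro z hz h3
      exact (mem_sdiff.1 h3).2 (mem_union_left _ hz)
    · rw [Finset.disjoint_left]
      intro z hz h3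
      exact (mem_sdiff.1 h3).2 (mem_union_right _ hz)
    · intro x hx y hy hxy
      rw [mem_sdiff, mem_union, not_or] at hy
      have hyb : y ≠ b := fun h3 => hy.2.2 (by rw [h3]; exact mem_insert_self _ _)
      have hyt : y ≠ t := fun h3 => hy.2.2 (by rw [h3]; simp)
      rw [mem_insert, mem_singleton] at hx
      apply hy.2.1
      rw [hS, mem_nbs]
      rcases hx with rfl | rfl
      · exact cliq h ht ((adj_b h).1 hxy) hyt.symm
      · exact yd_adj.2 (Or.inl ⟨hxy, hbt.symm, hyb⟩)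
  have hc2 : ({b, t} : Finset α).card = 2 := card_pair hbt
  have hrest : 3 ≤ (VS G \ (S ∪ {b, t})).card := by
    have h3 := le_card_sdiff (S ∪ {b, t}) (VS G)
    have h4 := card_union_le S {b, t}
    omega
  have h3 : 3 ≤ S.card := hC.1.le_of_sep hs (insert_nonempty _ _)
    (card_pos.1 (by omega))
  rcases hC.2 _ _ _ hs (by omega) with h4 | h4 <;> omega

theorem szR (h : Cub G b t₁ t₂ t₃) : sz (yd G b t₁ t₂ t₃) < sz G := by
  unfold sz
  have h1 : (VS (yd G b t₁ t₂ t₃)).card + 1 ≤ (VS G).card := by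
    have h2 := card_le_card (VS_sub h)
    rw [card_sdiff_of_subset (singleton_subset_iff.2 (left_mem_VS (bt1 h))), card_singleton] at h2
    have h3 : 0 < (VS G).card := card_pos.2 ⟨b, left_mem_VS (bt1 h)⟩
    omega
  have h2 : (yd G b t₁ t₂ t₃).edgeSet.ncard ≤ G.edgeSet.ncard := by
    set B : Finset (Sym2 α) := {s(b, t₁), s(b, t₂), s(b, t₃)} with hB
    have hBG : (B : Set (Sym2 α)) ⊆ G.edgeSet := by
      intro e he
      rw [hB] at he
      simp only [coe_insert, coe_singleton, Set.mem_insert_iff, Set.mem_singleton_iff] at he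
      rcases he with rfl | rfl | rfl
      · exact bt1 h
      · exact bt2 h
      · exact bt3 h
    have hBc : B.card = 3 := by
      have e12 : s(b, t₁) ≠ s(b, t₂) := fun h3 => h.n12 (Sym2.congr_right.1 h3)
      have e13 : s(b, t₁) ≠ s(b, t₃) := fun h3 => h.n13 (Sym2.congr_right.1 h3)
      have e23 : s(b, t₂) ≠ s(b, t₃) := fun h3 => h.n23 (Sym2.congr_right.1 h3)
      rw [hB, card_insert_of_notMem, card_insert_of_notMem, card_singleton]
      · rw [mem_singleton]; exact e23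
      · rw [mem_insert, mem_singleton, not_or]; exact ⟨e12, e13⟩
    have hsub : (yd G b t₁ t₂ t₃).edgeSet ⊆ (G.edgeSet \ (B : Set (Sym2 α))) ∪ (TrE t₁ t₂ t₃ : Set (Sym2 α)) := by
      intro e
      induction e with
      | _ u w =>
        intro he
        rw [SimpleGraph.mem_edgeSet, yd_adj] at he
        rcases he with he | he
        · left
          refine ⟨he.1, ?_⟩
          rw [hB]
          intro h3
          simp only [coe_insert, coe_singleton, Set.mem_insert_iff, Set.mem_singleton_iff] at h3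
          have h4 : b ∈ s(u, w) := by
            rcases h3 with h3 | h3 | h3 <;> rw [h3] <;> exact Sym2.mem_mk_left _ _
          rw [Sym2.mem_iff] at h4
          rcases h4 with h4 | h4
          · exact he.2.1 h4.symm
          · exact he.2.2 h4.symm
        · right
          exact he.1
    have h3 : (TrE t₁ t₂ t₃ : Set (Sym2 α)).ncard ≤ 3 := by
      rw [Set.ncard_coe_finset]
      exact card_le_three
    have h4 : (G.edgeSet \ (B : Set (Sym2 α))).ncard + 3 = G.edgeSet.ncard := by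
      have := Set.ncard_sdiff_add_ncard_of_subset hBG (Set.toFinite _)
      rwa [Set.ncard_coe_finset, hBc] at this
    calc (yd G b t₁ t₂ t₃).edgeSet.ncard
        ≤ ((G.edgeSet \ (B : Set (Sym2 α))) ∪ (TrE t₁ t₂ t₃ : Set (Sym2 α))).ncard :=
          Set.ncard_le_ncard hsub (Set.toFinite _)
      _ ≤ (G.edgeSet \ (B : Set (Sym2 α))).ncard + (TrE t₁ t₂ t₃ : Set (Sym2 α)).ncard :=
          Set.ncard_union_le _ _
      _ ≤ G.edgeSet.ncard := by omega
  omega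

end YC1M

open YC1M

theorem specYC1 : SpecYC1 where
  vs := fun hC _ h => VS_eq hC h
  c1 := fun hC h8 h => c1R hC h8 h
  conn := fun hC h8 h => ⟨connR hC h8 h, connG hC h8 h⟩
  deg := fun hC h8 h => ⟨degR hC h8 h (memT.2 (Or.inl rfl)), degR hC h8 h (memT.2 (Or.inr (Or.inl rfl))),
    degR hC h8 h (memT.2 (Or.inr (Or.inr rfl)))⟩
  sz := fun h => szR h

end DL
end

section
/-!
# YC3: 3-bead chains
-/
open SimpleGraph Finset

namespace DL

namespace YC3M

open DCBM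

variable {α : Type} [Fintype α] [DecidableEq α] {G : SimpleGraph α}

omit [Fintype α] in
theorem treeK {s t : α} (K : Ch3 G s t) (i : Fin 4) : TreeOn (K.T i) (K.X i) :=
  ⟨K.inX i, K.conn i, K.acyc i⟩

theorem step_dirn {A B : Finset α} {s p q r : α} {P Q : Finset (Sym2 α)} (hP : InP G A s p P)
    (hQ : InP G B q r Q) (hAB : Disjoint A B) (hpq : G.Adj p q) (c d : α) :
    dirn s c d (P ∪ {s(p, q)} ∪ Q) = dirn s c d P + dirn p c d {s(p, q)} + dirn q c d Q := by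
  have hA : ∀ x ∈ A, x ∉ B := fun x hx hx' => Finset.disjoint_left.1 hAB hx hx'
  have h0 : IsPth G p q {s(p, q)} := IsPth.edge hpq
  have h0' : vs ({s(p, q)} : Finset (Sym2 α)) ∩ vs Q ⊆ {q} := by
    intro x hx
    rw [mem_inter, vs_singleton, mem_insert, mem_singleton] at hx
    obtain ⟨rfl | rfl, hx2⟩ := hx
    · exact absurd (hQ.sub hx2) (hA _ hP.right)
    · exact mem_singleton_self _
  have h1 : IsPth G p r ({s(p, q)} ∪ Q) := h0.append hQ.pth h0'
  have h2 : vs P ∩ vs ({s(p, q)} ∪ Q) ⊆ {p} := by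
    intro x hx
    rw [mem_inter, vs_union, vs_singleton, mem_union, mem_insert, mem_singleton] at hx
    obtain ⟨hx1, (rfl | rfl) | hx2⟩ := hx
    · exact mem_singleton_self _
    · exact absurd hQ.left (hA _ (hP.sub hx1))
    · exact absurd (hQ.sub hx2) (hA _ (hP.sub hx1))
  rw [union_assoc, hP.pth.dirn_append h1 h2, h0.dirn_append hQ.pth h0', add_assoc]

theorem three_sum {M : Type} [AddCommMonoid M] (f : (Fin 3 → Bool) → M) :
    ∑ e : Fin 3 → Bool, f e =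
      f ![false, false, false] + f ![true, false, false] + f ![false, true, false] +
      f ![true, true, false] + f ![false, false, true] + f ![true, false, true] +
      f ![false, true, true] + f ![true, true, true] := by
  have : (univ : Finset (Fin 3 → Bool)) =
      {![false, false, false], ![true, false, false], ![false, true, false],
      ![true, true, false], ![false, false, true], ![true, false, true], ![false, true, true],
      ![true, true, true]} := by decide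
  rw [this, sum_insert (by decide), sum_insert (by decide), sum_insert (by decide),
    sum_insert (by decide), sum_insert (by decide), sum_insert (by decide),
    sum_insert (by decide), sum_singleton]
  simp only [add_assoc]

theorem parts (hTRE : SpecTRE) {s t : α} (K : Ch3 G s t) (e : Fin 3 → Bool) :
    IsPth G s t (K.pth e) ∧ (∀ v ∈ vs (K.pth e), ∃ i, v ∈ K.X i) ∧
    (chi (K.pth e) = chi (tp (K.T 0) s (K.p 0 (e 0))) + chi {s(K.p 0 (e 0), K.q 0 (e 0))} +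
      chi (tp (K.T 1) (K.q 0 (e 0)) (K.p 1 (e 1))) + chi {s(K.p 1 (e 1), K.q 1 (e 1))} +
      chi (tp (K.T 2) (K.q 1 (e 1)) (K.p 2 (e 2))) + chi {s(K.p 2 (e 2), K.q 2 (e 2))} +
      chi (tp (K.T 3) (K.q 2 (e 2)) t)) ∧
    ∀ c d, dirn s c d (K.pth e) = dirn s c d (tp (K.T 0) s (K.p 0 (e 0))) +
      dirn (K.p 0 (e 0)) c d {s(K.p 0 (e 0), K.q 0 (e 0))} +
      dirn (K.q 0 (e 0)) c d (tp (K.T 1) (K.q 0 (e 0)) (K.p 1 (e 1))) +
      dirn (K.p 1 (e 1)) c d {s(K.p 1 (e 1), K.q 1 (e 1))} +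
      dirn (K.q 1 (e 1)) c d (tp (K.T 2) (K.q 1 (e 1)) (K.p 2 (e 2))) +
      dirn (K.p 2 (e 2)) c d {s(K.p 2 (e 2), K.q 2 (e 2))} +
      dirn (K.q 2 (e 2)) c d (tp (K.T 3) (K.q 2 (e 2)) t) := by
  have p0 : K.p 0 (e 0) ∈ K.X 0 := K.pX 0 _
  have q0 : K.q 0 (e 0) ∈ K.X 1 := K.qX 0 _
  have p1 : K.p 1 (e 1) ∈ K.X 1 := K.pX 1 _
  have q1 : K.q 1 (e 1) ∈ K.X 2 := K.qX 1 _
  have p2 : K.p 2 (e 2) ∈ K.X 2 := K.pX 2 _
  have q2 : K.q 2 (e 2) ∈ K.X 3 := K.qX 2 _
  have a0 := inP hTRE (treeK K 0) (K.sub 0) K.sX p0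
  have a1 := inP hTRE (treeK K 1) (K.sub 1) q0 p1
  have a2 := inP hTRE (treeK K 2) (K.sub 2) q1 p2
  have a3 := inP hTRE (treeK K 3) (K.sub 3) q2 K.tX
  obtain ⟨b1, c1⟩ := step a0 a1 (K.disj 0 1 (by decide)) (K.adj 0 (e 0))
  have d1 := step_dirn a0 a1 (K.disj 0 1 (by decide)) (K.adj 0 (e 0))
  have j2 : Disjoint (K.X 0 ∪ K.X 1) (K.X 2) := by
    rw [disjoint_union_left]
    exact ⟨K.disj 0 2 (by decide), K.disj 1 2 (by decide)⟩
  obtain ⟨b2, c2⟩ := step b1 a2 j2 (K.adj 1 (e 1))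
  have d2 := step_dirn b1 a2 j2 (K.adj 1 (e 1))
  have j3 : Disjoint (K.X 0 ∪ K.X 1 ∪ K.X 2) (K.X 3) := by
    rw [disjoint_union_left, disjoint_union_left]
    exact ⟨⟨K.disj 0 3 (by decide), K.disj 1 3 (by decide)⟩, K.disj 2 3 (by decide)⟩
  obtain ⟨b3, c3⟩ := step b2 a3 j3 (K.adj 2 (e 2))
  have d3 := step_dirn b2 a3 j3 (K.adj 2 (e 2))
  refine ⟨b3.pth, fun v hv => ?_, ?_, fun c d => ?_⟩
  · have := b3.sub hv
    rw [mem_union, mem_union, mem_union] at this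
    rcases this with ((h | h) | h) | h
    exacts [⟨0, h⟩, ⟨1, h⟩, ⟨2, h⟩, ⟨3, h⟩]
  · rw [Ch3.pth, c3, c2, c1]
  · rw [Ch3.pth, d3, d2, d1]

theorem adn (hTRE : SpecTRE) {s t : α} (K : Ch3 G s t) (u v : α) :
    ∑ e : Fin 3 → Bool, dirn s u v (K.pth e) = 0 := by
  obtain ⟨F, H, hFH⟩ : ∃ F H : Bool → Bool → ZMod 2, ∀ e : Fin 3 → Bool,
      dirn s u v (K.pth e) = F (e 0) (e 1) + H (e 1) (e 2) := by
    refine ⟨fun a b => dirn s u v (tp (K.T 0) s (K.p 0 a)) +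
      dirn (K.p 0 a) u v {s(K.p 0 a, K.q 0 a)} +
      dirn (K.q 0 a) u v (tp (K.T 1) (K.q 0 a) (K.p 1 b)) +
      dirn (K.p 1 b) u v {s(K.p 1 b, K.q 1 b)},
      fun b c => dirn (K.q 1 b) u v (tp (K.T 2) (K.q 1 b) (K.p 2 c)) +
      dirn (K.p 2 c) u v {s(K.p 2 c, K.q 2 c)} +
      dirn (K.q 2 c) u v (tp (K.T 3) (K.q 2 c) t), fun e => ?_⟩
    rw [(parts hTRE K e).2.2.2 u v]
    simp only [add_assoc]
  rw [three_sum]
  simp only [hFH, Matrix.cons_val_zero, Matrix.cons_val_one, Matrix.cons_val]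
  have h2 : (2 : ZMod 2) = 0 := rfl
  linear_combination (F false false + F true false + F false true + F true true +
    H false false + H true false + H false true + H true true) * h2

theorem dif3 (q : Chain α → ZMod 2) (hq : DegLE 2 q) (a v0 v1 v2 : Chain α) :
    q a + q (a + v0) + q (a + v1) + q (a + v1 + v0) + q (a + v2) + q (a + v2 + v0) +
      q (a + v2 + v1) + q (a + v2 + v1 + v0) = 0 := by
  have x1 : q (a + v1 + v0) + q (a + v1) + (q (a + v0) + q a) =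
      q (0 + v1 + v0) + q (0 + v1) + (q (0 + v0) + q 0) := hq v0 v1 a
  have x2 : q (a + v2 + v1 + v0) + q (a + v2 + v1) + (q (a + v2 + v0) + q (a + v2)) =
      q (0 + v1 + v0) + q (0 + v1) + (q (0 + v0) + q 0) := hq v0 v1 (a + v2)
  rw [← x1] at x2
  generalize q a = y0 at *
  generalize q (a + v0) = y1 at *
  generalize q (a + v1) = y2 at *
  generalize q (a + v1 + v0) = y3 at *
  generalize q (a + v2) = y4 at *
  generalize q (a + v2 + v0) = y5 at *
  generalize q (a + v2 + v1) = y6 at *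
  generalize q (a + v2 + v1 + v0) = y7 at *
  clear x1 hq
  revert x2
  revert y0 y1 y2 y3 y4 y5 y6 y7
  decide

theorem lin_aux (a b c d e f g h i : Chain α) :
    a + b + (c + d) + e + (f + g) + h + i = (a + b + c) + (d + e + f) + (g + h + i) := by
  simp only [add_assoc]

/-- the part depending on the first bead -/
noncomputable def g0 {s t : α} (K : Ch3 G s t) (a : Bool) : Chain α :=
  chi (tp (K.T 0) s (K.p 0 a)) + chi {s(K.p 0 a, K.q 0 a)} +
    chi (tp (K.T 1) (K.q 0 false) (K.q 0 a))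

/-- the part depending on the second bead -/
noncomputable def g1 {s t : α} (K : Ch3 G s t) (a : Bool) : Chain α :=
  chi (tp (K.T 1) (K.q 0 false) (K.p 1 a)) + chi {s(K.p 1 a, K.q 1 a)} +
    chi (tp (K.T 2) (K.q 1 false) (K.q 1 a))

/-- the part depending on the third bead -/
noncomputable def g2 {s t : α} (K : Ch3 G s t) (a : Bool) : Chain α :=
  chi (tp (K.T 2) (K.q 1 false) (K.p 2 a)) + chi {s(K.p 2 a, K.q 2 a)} +
    chi (tp (K.T 3) (K.q 2 a) t)

theorem lin (hTRE : SpecTRE) {s t : α} (K : Ch3 G s t) (e : Fin 3 → Bool) :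
    chi (K.pth e) = g0 K (e 0) + g1 K (e 1) + g2 K (e 2) := by
  have q0 : ∀ b, K.q 0 b ∈ K.X 1 := K.qX 0
  have p1 : ∀ b, K.p 1 b ∈ K.X 1 := K.pX 1
  have q1 : ∀ b, K.q 1 b ∈ K.X 2 := K.qX 1
  have p2 : ∀ b, K.p 2 b ∈ K.X 2 := K.pX 2
  have h1 := (parts hTRE K e).2.2.1
  have h2 := hTRE.four (treeK K 1) _ (q0 false) _ (q0 (e 0)) _ (p1 (e 1))
  have h3 := hTRE.four (treeK K 2) _ (q1 false) _ (q1 (e 1)) _ (p2 (e 2))
  rw [← h2, ← h3, lin_aux] at h1
  exact h1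

theorem key_aux (x0 x1 x2 v0 v1 v2 c : Chain α) (e0 e1 e2 : Bool) :
    (if e0 then x0 + v0 else x0) + (if e1 then x1 + v1 else x1) +
      (if e2 then x2 + v2 else x2) + c = (x0 + x1 + x2 + c) +
      (if e2 then v2 else 0) + (if e1 then v1 else 0) + (if e0 then v0 else 0) := by
  cases e0 <;> cases e1 <;> cases e2 <;>
      simp only [if_true, Bool.false_eq_true, if_false, add_zero] <;> abel

theorem ite_aux (g : Bool → Chain α) (b : Bool) :
    g b = if b then g false + (g false + g true) else g false := by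
  cases b
  · simp
  · rw [← add_assoc, chain_add_self, zero_add]
    simp

theorem pol (hTRE : SpecTRE) {s t : α} (K : Ch3 G s t) (q : Chain α → ZMod 2)
    (c : Chain α) (hq : DegLE 2 q) : ∑ e : Fin 3 → Bool, q (chi (K.pth e) + c) = 0 := by
  have h := dif3 q hq (g0 K false + g1 K false + g2 K false + c) (g0 K false + g0 K true)
    (g1 K false + g1 K true) (g2 K false + g2 K true)
  have key : ∀ e : Fin 3 → Bool, chi (K.pth e) + c =
      (g0 K false + g1 K false + g2 K false + c) +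
      (if e 2 then (g2 K false + g2 K true) else 0) +
      (if e 1 then (g1 K false + g1 K true) else 0) +
      (if e 0 then (g0 K false + g0 K true) else 0) := by
    intro e
    rw [lin hTRE K e, ← key_aux, ← ite_aux, ← ite_aux, ← ite_aux]
  rw [three_sum]
  simp only [key, Matrix.cons_val_zero, Matrix.cons_val_one, Matrix.cons_val, if_true,
    Bool.false_eq_true, if_false, add_zero]
  exact h

end YC3M

/-- Module YC3. -/
theorem specYC3 (hTRE : SpecTRE) : SpecYC3 where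
  pth := fun K e => ⟨(YC3M.parts hTRE K e).1, (YC3M.parts hTRE K e).2.1⟩
  pol := fun K q c hq => YC3M.pol hTRE K q c hq
  adn := fun K u v => YC3M.adn hTRE K u v

end DL
end

section
/-!
# Step Y, module YCT (helper65): coherence functions and `tauY`
-/
set_option linter.unusedSimpArgs false

open SimpleGraph Finset

namespace DL

namespace YCTM

variable {α : Type} [Fintype α] [DecidableEq α] {G : SimpleGraph α} {b t₁ t₂ t₃ : α}

omit [Fintype α] in
theorem mem_TrE {e : Sym2 α} : e ∈ TrE t₁ t₂ t₃ ↔ e = s(t₁, t₂) ∨ e = s(t₁, t₃) ∨ e = s(t₂, t₃) := by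
  simp [TrE]

omit [Fintype α] in
theorem yd_adj {u v : α} : (yd G b t₁ t₂ t₃).Adj u v ↔
    (G.Adj u v ∧ u ≠ b ∧ v ≠ b) ∨ (s(u, v) ∈ TrE t₁ t₂ t₃ ∧ u ≠ v) := by
  simp [yd, del, fromEdgeSet_adj]

omit [Fintype α] [DecidableEq α] in
theorem ne_t (hC : Cub G b t₁ t₂ t₃) : b ≠ t₁ ∧ b ≠ t₂ ∧ b ≠ t₃ := by
  refine ⟨?_, ?_, ?_⟩
  · exact ((hC.nb t₁).2 (Or.inl rfl)).ne
  · exact ((hC.nb t₂).2 (Or.inr (Or.inl rfl))).ne
  · exact ((hC.nb t₃).2 (Or.inr (Or.inr rfl))).ne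

omit [Fintype α] in
theorem b_notMem_TrE (hC : Cub G b t₁ t₂ t₃) {e : Sym2 α} (he : e ∈ TrE t₁ t₂ t₃) : b ∉ e := by
  obtain ⟨h1, h2, h3⟩ := ne_t hC
  rw [mem_TrE] at he
  rcases he with rfl | rfl | rfl <;> simp [h1, h2, h3]

theorem b_notMem (hC : Cub G b t₁ t₂ t₃) {D : Finset (Sym2 α)} (hD : IsCyc (yd G b t₁ t₂ t₃) D) :
    b ∉ vs D := by
  intro h
  obtain ⟨e, he, hb⟩ := mem_vs.1 h
  obtain ⟨w, rfl⟩ := Sym2.mem_iff_exists.1 hb
  rcases yd_adj.1 (hD.adj_of_mem he) with h1 | h1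
  · exact h1.2.1 rfl
  · exact b_notMem_TrE hC h1.1 (Sym2.mem_mk_left _ _)

/-- a cycle of `R` which uses the triangle, seen as a subdivision -/
structure Rep (R : SimpleGraph α) (T : Finset (Sym2 α)) (b x y k : α) (D τ D' : Finset (Sym2 α)) :
    Prop where
  cyc : IsCyc R D'
  mem : s(x, y) ∈ D'
  bn : b ∉ vs D'
  tau : τ = insert s(b, x) (insert s(b, y) (D'.erase s(x, y)))
  alt : (D = D' ∧ s(k, x) ∉ D ∧ s(k, y) ∉ D) ∨
    (k ∉ vs D' ∧ D = insert s(k, x) (insert s(k, y) (D'.erase s(x, y))) ∧ s(x, y) ∉ D ∧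
      s(k, x) ∈ D ∧ s(k, y) ∈ D)

theorem rep_one {R : SimpleGraph α} {T : Finset (Sym2 α)} {x y k : α} {D τ : Finset (Sym2 α)}
    (hT : ∀ e, e ∈ T ↔ e = s(x, y) ∨ e = s(k, x) ∨ e = s(k, y)) (hD : IsCyc R D) (hb : b ∉ vs D)
    (h1 : s(x, y) ∈ D) (h2 : s(k, x) ∉ D) (h3 : s(k, y) ∉ D)
    (hτ : τ = insert s(b, x) (insert s(b, y) (D \ T))) : Rep R T b x y k D τ D where
  cyc := hD
  mem := h1
  bn := hb
  tau := by
    rw [hτ]
    congr 2
    ext e
    rw [mem_sdiff, mem_erase, hT]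
    constructor
    · rintro ⟨a1, a2⟩
      exact ⟨fun h => a2 (Or.inl h), a1⟩
    · rintro ⟨a1, a2⟩
      refine ⟨a2, ?_⟩
      rintro (h | rfl | rfl)
      · exact a1 h
      · exact h2 a2
      · exact h3 a2
  alt := Or.inl ⟨rfl, h2, h3⟩

theorem rep_two (hYSB : SpecYSB) {R : SimpleGraph α} {T : Finset (Sym2 α)} {x y k : α}
    {D τ : Finset (Sym2 α)} (hxy : x ≠ y) (hR : R.Adj x y)
    (hT : ∀ e, e ∈ T ↔ e = s(x, y) ∨ e = s(k, x) ∨ e = s(k, y)) (hD : IsCyc R D) (hb : b ∉ vs D)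
    (h1 : s(x, y) ∉ D) (h2 : s(k, x) ∈ D) (h3 : s(k, y) ∈ D)
    (hτ : τ = insert s(b, x) (insert s(b, y) (D \ T))) :
    Rep R T b x y k D τ (insert s(x, y) ((D.erase s(k, x)).erase s(k, y))) := by
  obtain ⟨c1, c2⟩ := hYSB.sup (G := R) (R := R) hD h2 h3 hxy h1 hR (fun e he _ => hD.subset e he)
  have hE : (insert s(x, y) ((D.erase s(k, x)).erase s(k, y))).erase s(x, y) =
      (D.erase s(k, x)).erase s(k, y) := by
    rw [erase_insert]
    intro h
    exact h1 (mem_of_mem_erase (mem_of_mem_erase h))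
  refine ⟨c1, mem_insert_self _ _, ?_, ?_, Or.inr ⟨c2, ?_, h1, h2, h3⟩⟩
  · intro h
    rw [vs_insert, mem_union] at h
    rcases h with h | h
    · rw [mem_insert, mem_singleton] at h
      rcases h with rfl | rfl
      · exact hb (right_mem_vs h2)
      · exact hb (right_mem_vs h3)
    · exact hb (vs_mono ((erase_subset _ _).trans (erase_subset _ _)) h)
  · rw [hτ, hE]
    congr 2
    ext e
    rw [mem_sdiff, mem_erase, mem_erase, hT]
    constructor
    · rintro ⟨a1, a2⟩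
      exact ⟨fun h => a2 (Or.inr (Or.inr h)), fun h => a2 (Or.inr (Or.inl h)), a1⟩
    · rintro ⟨a1, a2, a3⟩
      refine ⟨a3, ?_⟩
      rintro (rfl | h | h)
      · exact h1 a3
      · exact a2 h
      · exact a1 h
  · rw [hE]
    ext e
    simp only [mem_insert, mem_erase]
    constructor
    · intro he
      by_cases h4 : e = s(k, x)
      · exact Or.inl h4
      · by_cases h5 : e = s(k, y)
        · exact Or.inr (Or.inl h5)
        · exact Or.inr (Or.inr ⟨h5, h4, he⟩)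
    · rintro (rfl | rfl | h)
      · exact h2
      · exact h3
      · exact h.2.2

/-- the triangle is a cycle, so a cycle with all three edges is the triangle -/
theorem all_three (hC : Cub G b t₁ t₂ t₃) {D : Finset (Sym2 α)} (hD : IsCyc (yd G b t₁ t₂ t₃) D)
    (h1 : s(t₁, t₂) ∈ D) (h2 : s(t₁, t₃) ∈ D) (h3 : s(t₂, t₃) ∈ D) : D = TrE t₁ t₂ t₃ := by
  have hP := hD.isPth_del h1 h2 hC.n23
  have h4 : s(t₂, t₃) ∈ D \ {s(t₁, t₂), s(t₁, t₃)} := by
    rw [mem_sdiff, mem_insert, mem_singleton]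
    refine ⟨h3, ?_⟩
    have n12 := hC.n12
    have n13 := hC.n13
    simp [Sym2.eq_iff, n12.symm, n13.symm]
  have h5 := hP.eq_singleton h4
  ext e
  rw [mem_TrE]
  constructor
  · intro he
    by_cases h6 : e = s(t₁, t₂)
    · exact Or.inl h6
    · by_cases h7 : e = s(t₁, t₃)
      · exact Or.inr (Or.inl h7)
      · right; right
        have : e ∈ D \ {s(t₁, t₂), s(t₁, t₃)} := by
          rw [mem_sdiff, mem_insert, mem_singleton]
          exact ⟨he, by tauto⟩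
        rw [h5, mem_singleton] at this
        exact this
  · rintro (rfl | rfl | rfl)
    · exact h1
    · exact h2
    · exact h3

/-- the three arrangements -/
def Arr (t₁ t₂ t₃ x y k : α) : Prop :=
  (x = t₁ ∧ y = t₂ ∧ k = t₃) ∨ (x = t₁ ∧ y = t₃ ∧ k = t₂) ∨ (x = t₂ ∧ y = t₃ ∧ k = t₁)

theorem cases (hYSB : SpecYSB) (hC : Cub G b t₁ t₂ t₃) {D : Finset (Sym2 α)}
    (hD : IsCyc (yd G b t₁ t₂ t₃) D) (hDT : D ≠ TrE t₁ t₂ t₃) :
    (s(t₁, t₂) ∉ D ∧ s(t₁, t₃) ∉ D ∧ s(t₂, t₃) ∉ D ∧ tauY b t₁ t₂ t₃ D = D) ∨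
    ∃ x y k D', Arr t₁ t₂ t₃ x y k ∧
      Rep (yd G b t₁ t₂ t₃) (TrE t₁ t₂ t₃) b x y k D (tauY b t₁ t₂ t₃ D) D' := by
  have hb := b_notMem hC hD
  have n12 := hC.n12
  have n13 := hC.n13
  have n23 := hC.n23
  have R12 : (yd G b t₁ t₂ t₃).Adj t₁ t₂ := yd_adj.2 (Or.inr ⟨by simp [mem_TrE], n12⟩)
  have R13 : (yd G b t₁ t₂ t₃).Adj t₁ t₃ := yd_adj.2 (Or.inr ⟨by simp [mem_TrE], n13⟩)
  have R23 : (yd G b t₁ t₂ t₃).Adj t₂ t₃ := yd_adj.2 (Or.inr ⟨by simp [mem_TrE], n23⟩)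
  have T1 : ∀ e, e ∈ TrE t₁ t₂ t₃ ↔ e = s(t₁, t₂) ∨ e = s(t₃, t₁) ∨ e = s(t₃, t₂) := by
    intro e
    rw [mem_TrE, Sym2.eq_swap (a := t₃), Sym2.eq_swap (a := t₃)]
  have T2 : ∀ e, e ∈ TrE t₁ t₂ t₃ ↔ e = s(t₁, t₃) ∨ e = s(t₂, t₁) ∨ e = s(t₂, t₃) := by
    intro e
    rw [mem_TrE, Sym2.eq_swap (a := t₂) (b := t₁)]
    tauto
  have T3 : ∀ e, e ∈ TrE t₁ t₂ t₃ ↔ e = s(t₂, t₃) ∨ e = s(t₁, t₂) ∨ e = s(t₁, t₃) := by
    intro e
    rw [mem_TrE]
    tauto
  have s31 : s(t₃, t₁) = s(t₁, t₃) := Sym2.eq_swap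
  have s32 : s(t₃, t₂) = s(t₂, t₃) := Sym2.eq_swap
  have s21 : s(t₂, t₁) = s(t₁, t₂) := Sym2.eq_swap
  by_cases h12 : s(t₁, t₂) ∈ D <;> by_cases h13 : s(t₁, t₃) ∈ D <;> by_cases h23 : s(t₂, t₃) ∈ D
  · exact absurd (all_three hC hD h12 h13 h23) hDT
  · -- e12, e13
    right
    refine ⟨t₂, t₃, t₁, _, Or.inr (Or.inr ⟨rfl, rfl, rfl⟩), rep_two hYSB n23 R23 T3 hD hb h23 h12 h13 ?_⟩
    unfold tauY
    simp only [h12, h13, h23, iff_true, iff_false, not_true, if_true, if_false]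
    ext e
    simp only [mem_union, mem_insert, mem_singleton, notMem_empty]
    tauto
  · right
    refine ⟨t₁, t₃, t₂, _, Or.inr (Or.inl ⟨rfl, rfl, rfl⟩), rep_two hYSB n13 R13 T2 hD hb h13
      (by rw [s21]; exact h12) h23 ?_⟩
    unfold tauY
    simp only [h12, h13, h23, iff_true, iff_false, not_true, if_true, if_false]
    ext e
    simp only [mem_union, mem_insert, mem_singleton, notMem_empty]
    tauto
  · right
    refine ⟨t₁, t₂, t₃, _, Or.inl ⟨rfl, rfl, rfl⟩, rep_one T1 hD hb h12 (by rw [s31]; exact h13)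
      (by rw [s32]; exact h23) ?_⟩
    unfold tauY
    simp only [h12, h13, h23, iff_true, iff_false, not_true, if_true, if_false]
    ext e
    simp only [mem_union, mem_insert, mem_singleton, notMem_empty]
    tauto
  · right
    refine ⟨t₁, t₂, t₃, _, Or.inl ⟨rfl, rfl, rfl⟩, rep_two hYSB n12 R12 T1 hD hb h12
      (by rw [s31]; exact h13) (by rw [s32]; exact h23) ?_⟩
    unfold tauY
    simp only [h12, h13, h23, iff_true, iff_false, not_true, if_true, if_false]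
    ext e
    simp only [mem_union, mem_insert, mem_singleton, notMem_empty]
    tauto
  · right
    refine ⟨t₁, t₃, t₂, _, Or.inr (Or.inl ⟨rfl, rfl, rfl⟩), rep_one T2 hD hb h13
      (by rw [s21]; exact h12) h23 ?_⟩
    unfold tauY
    simp only [h12, h13, h23, iff_true, iff_false, not_true, if_true, if_false]
    ext e
    simp only [mem_union, mem_insert, mem_singleton, notMem_empty]
    tauto
  · right
    refine ⟨t₂, t₃, t₁, _, Or.inr (Or.inr ⟨rfl, rfl, rfl⟩), rep_one T3 hD hb h23 h12 h13 ?_⟩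
    unfold tauY
    simp only [h12, h13, h23, iff_true, iff_false, not_true, if_true, if_false]
    ext e
    simp only [mem_union, mem_insert, mem_singleton, notMem_empty]
    tauto
  · left
    refine ⟨h12, h13, h23, ?_⟩
    unfold tauY
    simp only [h12, h13, h23, if_true, union_empty]
    ext e
    rw [mem_sdiff, mem_TrE]
    constructor
    · exact fun h => h.1
    · intro he
      refine ⟨he, ?_⟩
      rintro (rfl | rfl | rfl)
      · exact h12 he
      · exact h13 he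
      · exact h23 he

omit [Fintype α] in
theorem Arr.mem {x y k : α} (h : Arr t₁ t₂ t₃ x y k) :
    s(x, y) ∈ TrE t₁ t₂ t₃ ∧ s(k, x) ∈ TrE t₁ t₂ t₃ ∧ s(k, y) ∈ TrE t₁ t₂ t₃ := by
  rcases h with ⟨rfl, rfl, rfl⟩ | ⟨rfl, rfl, rfl⟩ | ⟨rfl, rfl, rfl⟩ <;>
    simp [mem_TrE, Sym2.eq_swap]

theorem mm_gen (hYSB : SpecYSB) {R : SimpleGraph α} {T : Finset (Sym2 α)} {x y k : α}
    {D τ D' : Finset (Sym2 α)} (h : Rep R T b x y k D τ D')
    (hT : s(x, y) ∈ T ∧ s(k, x) ∈ T ∧ s(k, y) ∈ T) {u v c d : α} (hu : b ∉ s(u, v))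
    (hc : b ∉ s(c, d)) (huT : s(u, v) ∉ T) (hcT : s(c, d) ∉ T) :
    coh u v c d τ = coh u v c d D := by
  have hub : u ≠ b ∧ v ≠ b := by
    rw [Sym2.mem_iff, not_or] at hu
    exact ⟨Ne.symm hu.1, Ne.symm hu.2⟩
  have hcb : c ≠ b ∧ d ≠ b := by
    rw [Sym2.mem_iff, not_or] at hc
    exact ⟨Ne.symm hc.1, Ne.symm hc.2⟩
  have hne : ∀ {e f : Sym2 α}, e ∉ T → f ∈ T → e ≠ f := fun h1 h2 h3 => h1 (h3 ▸ h2)
  have e1 : coh u v c d D' = coh u v c d τ := by
    rw [h.tau]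
    exact hYSB.coh2 h.cyc h.mem h.bn hub.1 hub.2 hcb.1 hcb.2 (hne huT hT.1) (hne hcT hT.1)
  rcases h.alt with ⟨h1, -, -⟩ | ⟨h1, h2, h3, h4, h5⟩
  · rw [h1, e1]
  · have key : ∀ {e : Sym2 α}, b ∉ e → e ∉ T → k ∈ e → e ∉ D ∧ e ∉ τ := by
      intro e hbe heT hke
      have h6 : e ∉ D'.erase s(x, y) := fun h7 => h1 (mem_vs.2 ⟨e, mem_of_mem_erase h7, hke⟩)
      constructor
      · rw [h2, mem_insert, mem_insert]
        rintro (h7 | h7 | h7)
        · exact hne heT hT.2.1 h7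
        · exact hne heT hT.2.2 h7
        · exact h6 h7
      · rw [h.tau, mem_insert, mem_insert]
        rintro (rfl | rfl | h7)
        · exact hbe (Sym2.mem_mk_left _ _)
        · exact hbe (Sym2.mem_mk_left _ _)
        · exact h6 h7
    by_cases hk : k ∈ s(u, v)
    · rw [coh_eq_zero_left (key hu huT hk).1, coh_eq_zero_left (key hu huT hk).2]
    by_cases hk' : k ∈ s(c, d)
    · rw [coh_eq_zero_right (key hc hcT hk').1, coh_eq_zero_right (key hc hcT hk').2]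
    rw [Sym2.mem_iff, not_or] at hk hk'
    rw [← e1, h2]
    exact hYSB.coh2 h.cyc h.mem h1 (Ne.symm hk.1) (Ne.symm hk.2) (Ne.symm hk'.1) (Ne.symm hk'.2)
      (hne huT hT.1) (hne hcT hT.1)

theorem bm_gen (hYSB : SpecYSB) {R : SimpleGraph α} {T : Finset (Sym2 α)} {x y k : α}
    {D τ D' : Finset (Sym2 α)} (h : Rep R T b x y k D τ D')
    (hT : s(x, y) ∈ T ∧ s(k, x) ∈ T ∧ s(k, y) ∈ T) {u v : α} (hu : b ∉ s(u, v))
    (huT : s(u, v) ∉ T) : coh b x u v τ = coh y x u v D + coh k x u v D := by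
  have hub : u ≠ b ∧ v ≠ b := by
    rw [Sym2.mem_iff, not_or] at hu
    exact ⟨Ne.symm hu.1, Ne.symm hu.2⟩
  have hne : ∀ {e f : Sym2 α}, e ∉ T → f ∈ T → e ≠ f := fun h1 h2 h3 => h1 (h3 ▸ h2)
  have e1 : coh y x u v D' = coh b x u v τ := by
    rw [h.tau]
    exact hYSB.coh1 h.cyc h.mem h.bn hub.1 hub.2 (hne huT hT.1)
  rcases h.alt with ⟨h1, h2, -⟩ | ⟨h1, h2, h3, h4, h5⟩
  · rw [← e1, ← h1, coh_eq_zero_left (a := k) h2, add_zero]
  · rw [coh_eq_zero_left (a := y) (by rw [Sym2.eq_swap]; exact h3), zero_add, ← e1]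
    by_cases hk : k ∈ s(u, v)
    · have h6 : s(u, v) ∉ D' := fun h7 => h1 (mem_vs.2 ⟨_, h7, hk⟩)
      have h7 : s(u, v) ∉ D := by
        rw [h2, mem_insert, mem_insert]
        rintro (h7 | h7 | h7)
        · exact hne huT hT.2.1 h7
        · exact hne huT hT.2.2 h7
        · exact h6 (mem_of_mem_erase h7)
      rw [coh_eq_zero_right h6, coh_eq_zero_right h7]
    · rw [Sym2.mem_iff, not_or] at hk
      conv_rhs => rw [h2]
      exact hYSB.coh1 h.cyc h.mem h1 (Ne.symm hk.1) (Ne.symm hk.2) (hne huT hT.1)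

end YCTM

open YCTM

theorem specYCT (hYSB : SpecYSB) : SpecYCT where
  mm := by
    intro α _ _ G b t₁ t₂ t₃ hC _ D hD hDT u v c d hu hc huT hcT
    rcases cases hYSB hC hD hDT with ⟨-, -, -, h⟩ | ⟨x, y, k, D', hA, h⟩
    · rw [h]
    · exact mm_gen hYSB h hA.mem hu hc huT hcT
  bm := by
    intro α _ _ G b t₁ t₂ t₃ hC _ D hD hDT u v hu huT
    have hb := b_notMem hC hD
    rcases cases hYSB hC hD hDT with ⟨h1, h2, h3, h⟩ | ⟨x, y, k, D', hA, h⟩
    · rw [h, coh_eq_zero_left (a := b) fun h => hb (left_mem_vs h),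
        coh_eq_zero_left (a := t₂) (by rw [Sym2.eq_swap]; exact h1),
        coh_eq_zero_left (a := t₃) (by rw [Sym2.eq_swap]; exact h2), chi_of_notMem h1]
      simp
    · have hm := hA.mem
      have hg := bm_gen hYSB h hm hu huT
      rcases hA with ⟨rfl, rfl, rfl⟩ | ⟨rfl, rfl, rfl⟩ | ⟨rfl, rfl, rfl⟩
      · rw [hg]
        rcases h.alt with ⟨h1, h2, h3⟩ | ⟨h1, h2, h3, h4, h5⟩
        · rw [chi_of_notMem (e := s(x, k)) (by rw [Sym2.eq_swap]; exact h2)]
          simp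
        · rw [chi_of_notMem h3]
          simp
      · rw [hg]
        rcases h.alt with ⟨h1, h2, h3⟩ | ⟨h1, h2, h3, h4, h5⟩
        · rw [chi_of_notMem (e := s(x, k)) (by rw [Sym2.eq_swap]; exact h2)]
          ring
        · rw [chi_of_notMem h3]
          ring
      · -- `x = t₂`, `y = t₃`, `k = t₁`
        have hbk : s(b, k) ∉ tauY b k x y D := by
          rw [h.tau, mem_insert, mem_insert]
          have n1 := hC.n12
          have n2 := hC.n13
          obtain ⟨n3, n4, n5⟩ := ne_t hC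
          rintro (h7 | h7 | h7)
          · rw [Sym2.eq_iff] at h7
            rcases h7 with ⟨-, h7⟩ | ⟨h7, h8⟩
            · exact n1 h7
            · exact n4 h7
          · rw [Sym2.eq_iff] at h7
            rcases h7 with ⟨-, h7⟩ | ⟨h7, h8⟩
            · exact n2 h7
            · exact n5 h7
          · exact h.bn (left_mem_vs (mem_of_mem_erase h7))
        rw [coh_eq_zero_left hbk]
        rcases h.alt with ⟨h1, h2, h3⟩ | ⟨h1, h2, h3, h4, h5⟩
        · rw [coh_eq_zero_left (a := x) (by rw [Sym2.eq_swap]; exact h2),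
            coh_eq_zero_left (a := y) (by rw [Sym2.eq_swap]; exact h3), chi_of_notMem h2]
          simp
        · have hne1 : s(u, v) ≠ s(k, x) := fun h => huT (h ▸ hm.2.1)
          have hne2 : s(u, v) ≠ s(k, y) := fun h => huT (h ▸ hm.2.2)
          have hxy := hC.n23
          have hP := hD.isPth_del h4 h5 hxy
          have hkx := hD.adj_of_mem h4
          have hky := hD.adj_of_mem h5
          have hins : insert s(k, x) (insert s(k, y) (D \ {s(k, x), s(k, y)})) = D := by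
            ext e
            simp only [mem_insert, mem_sdiff, mem_singleton]
            constructor
            · rintro (rfl | rfl | h)
              · exact h4
              · exact h5
              · exact h.1
            · intro he
              tauto
          have c1 := coh_two hP hky hxy hne1 hne2
          have c2 := coh_two' hP.symm hkx hxy.symm hne2 hne1
          rw [hins] at c1
          rw [insert_comm, hins] at c2
          have c3 := hD.coh_add_swap (a := k) (b := x) (c := u) (d := v) hne1.symm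
          have c4 := hD.coh_reverse k x v u
          rw [c2, ← c1, c4, add_comm (coh k x v u D), c3, chi_of_mem h4, chi_of_mem h5, one_mul,
            one_mul, one_mul]
          exact (zmod2_add_self _).symm

end DL
end

section
/-!
# YEQ: graphs
-/
open SimpleGraph Finset

namespace DL

namespace YEQM

variable {α : Type} [Fintype α] [DecidableEq α] {G : SimpleGraph α} {b t₁ t₂ t₃ : α}

theorem yd_adj {u w : α} : (yd G b t₁ t₂ t₃).Adj u w ↔
    (G.Adj u w ∧ u ≠ b ∧ w ≠ b) ∨ (s(u, w) ∈ TrE t₁ t₂ t₃ ∧ u ≠ w) := by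
  unfold yd
  rw [SimpleGraph.sup_adj, SimpleGraph.fromEdgeSet_adj]
  show (G.Adj u w ∧ u ∉ ({b} : Finset α) ∧ w ∉ ({b} : Finset α)) ∨ _ ↔ _
  rw [Finset.mem_singleton, Finset.mem_singleton, Finset.mem_coe]

theorem mem_TrE {u w : α} : s(u, w) ∈ TrE t₁ t₂ t₃ ↔
    (u = t₁ ∧ w = t₂ ∨ u = t₂ ∧ w = t₁) ∨ (u = t₁ ∧ w = t₃ ∨ u = t₃ ∧ w = t₁) ∨
      (u = t₂ ∧ w = t₃ ∨ u = t₃ ∧ w = t₂) := by
  unfold TrE
  simp only [Finset.mem_insert, Finset.mem_singleton, Sym2.eq_iff]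

theorem bt1 (h : Cub G b t₁ t₂ t₃) : G.Adj b t₁ := (h.nb _).2 (Or.inl rfl)
theorem bt2 (h : Cub G b t₁ t₂ t₃) : G.Adj b t₂ := (h.nb _).2 (Or.inr (Or.inl rfl))
theorem bt3 (h : Cub G b t₁ t₂ t₃) : G.Adj b t₃ := (h.nb _).2 (Or.inr (Or.inr rfl))

theorem TrE_perm (t₁ t₂ t₃ : α) : TrE t₁ t₃ t₂ = TrE t₁ t₂ t₃ ∧ TrE t₂ t₁ t₃ = TrE t₁ t₂ t₃ := by
  constructor
  · ext e
    induction e with
    | _ u w => rw [mem_TrE, mem_TrE]; tauto
  · ext e
    induction e with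
    | _ u w => rw [mem_TrE, mem_TrE]; tauto

end YEQM

open YEQM in
theorem specYEQ : SpecYEQ where
  ctr := by
    intro α _ _ G b t₁ t₂ t₃ h h12
    have e1 := bt1 h
    have e2 := bt2 h
    have e3 := bt3 h
    ext u w
    rw [yd_adj, mem_TrE]
    show (u ≠ b ∧ w ≠ b ∧ u ≠ w ∧ (G.Adj u w ∨ (u = t₃ ∧ G.Adj b w) ∨ (w = t₃ ∧ G.Adj u b))) ↔ _
    constructor
    · rintro ⟨hu, hw, huw, h1 | ⟨rfl, h1⟩ | ⟨rfl, h1⟩⟩
      · exact Or.inl ⟨h1, hu, hw⟩
      · rcases (h.nb _).1 h1 with rfl | rfl | rfl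
        · exact Or.inr ⟨Or.inr (Or.inl (Or.inr ⟨rfl, rfl⟩)), huw⟩
        · exact Or.inr ⟨Or.inr (Or.inr (Or.inr ⟨rfl, rfl⟩)), huw⟩
        · exact absurd rfl huw
      · rcases (h.nb _).1 h1.symm with rfl | rfl | rfl
        · exact Or.inr ⟨Or.inr (Or.inl (Or.inl ⟨rfl, rfl⟩)), huw⟩
        · exact Or.inr ⟨Or.inr (Or.inr (Or.inl ⟨rfl, rfl⟩)), huw⟩
        · exact absurd rfl huw
    · rintro (⟨h1, hu, hw⟩ | ⟨(⟨rfl, rfl⟩ | ⟨rfl, rfl⟩) | (⟨rfl, rfl⟩ | ⟨rfl, rfl⟩) |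
        (⟨rfl, rfl⟩ | ⟨rfl, rfl⟩), huw⟩)
      · exact ⟨hu, hw, h1.ne, Or.inl h1⟩
      · exact ⟨e1.ne', e2.ne', huw, Or.inl h12⟩
      · exact ⟨e2.ne', e1.ne', huw, Or.inl h12.symm⟩
      · exact ⟨e1.ne', e3.ne', huw, Or.inr (Or.inr ⟨rfl, e1.symm⟩)⟩
      · exact ⟨e3.ne', e1.ne', huw, Or.inr (Or.inl ⟨rfl, e1⟩)⟩
      · exact ⟨e2.ne', e3.ne', huw, Or.inr (Or.inr ⟨rfl, e2.symm⟩)⟩
      · exact ⟨e3.ne', e2.ne', huw, Or.inr (Or.inl ⟨rfl, e2⟩)⟩
  ctr0 := by
    intro α _ _ G b t₁ t₂ t₃ h h12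
    have e1 := bt1 h
    have e2 := bt2 h
    have e3 := bt3 h
    ext u w
    unfold delE
    rw [SimpleGraph.deleteEdges_adj, yd_adj, mem_TrE, Set.mem_singleton_iff, Sym2.eq_iff]
    show (u ≠ b ∧ w ≠ b ∧ u ≠ w ∧ (G.Adj u w ∨ (u = t₃ ∧ G.Adj b w) ∨ (w = t₃ ∧ G.Adj u b))) ↔ _
    constructor
    · rintro ⟨hu, hw, huw, h1 | ⟨rfl, h1⟩ | ⟨rfl, h1⟩⟩
      · refine ⟨Or.inl ⟨h1, hu, hw⟩, ?_⟩
        rintro (⟨rfl, rfl⟩ | ⟨rfl, rfl⟩)
        · exact h12 h1
        · exact h12 h1.symm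
      · refine ⟨?_, ?_⟩
        · rcases (h.nb _).1 h1 with rfl | rfl | rfl
          · exact Or.inr ⟨Or.inr (Or.inl (Or.inr ⟨rfl, rfl⟩)), huw⟩
          · exact Or.inr ⟨Or.inr (Or.inr (Or.inr ⟨rfl, rfl⟩)), huw⟩
          · exact absurd rfl huw
        · rintro (⟨h2, -⟩ | ⟨h2, -⟩)
          · exact h.n13 h2.symm
          · exact h.n23 h2.symm
      · refine ⟨?_, ?_⟩
        · rcases (h.nb _).1 h1.symm with rfl | rfl | rfl
          · exact Or.inr ⟨Or.inr (Or.inl (Or.inl ⟨rfl, rfl⟩)), huw⟩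
          · exact Or.inr ⟨Or.inr (Or.inr (Or.inl ⟨rfl, rfl⟩)), huw⟩
          · exact absurd rfl huw
        · rintro (⟨-, h2⟩ | ⟨-, h2⟩)
          · exact h.n23 h2.symm
          · exact h.n13 h2.symm
    · rintro ⟨⟨h1, hu, hw⟩ | ⟨(⟨rfl, rfl⟩ | ⟨rfl, rfl⟩) | (⟨rfl, rfl⟩ | ⟨rfl, rfl⟩) |
        (⟨rfl, rfl⟩ | ⟨rfl, rfl⟩), huw⟩, hne⟩
      · exact ⟨hu, hw, h1.ne, Or.inl h1⟩
      · exact absurd (Or.inl ⟨rfl, rfl⟩) hne
      · exact absurd (Or.inr ⟨rfl, rfl⟩) hne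
      · exact ⟨e1.ne', e3.ne', huw, Or.inr (Or.inr ⟨rfl, e1.symm⟩)⟩
      · exact ⟨e3.ne', e1.ne', huw, Or.inr (Or.inl ⟨rfl, e1⟩)⟩
      · exact ⟨e2.ne', e3.ne', huw, Or.inr (Or.inr ⟨rfl, e2.symm⟩)⟩
      · exact ⟨e3.ne', e2.ne', huw, Or.inr (Or.inl ⟨rfl, e2⟩)⟩
  tri := by
    intro α _ _ G b t₁ t₂ t₃ h
    refine ⟨yd_adj.2 (Or.inr ⟨mem_TrE.2 (Or.inl (Or.inl ⟨rfl, rfl⟩)), h.n12⟩),
      yd_adj.2 (Or.inr ⟨mem_TrE.2 (Or.inr (Or.inl (Or.inl ⟨rfl, rfl⟩))), h.n13⟩),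
      yd_adj.2 (Or.inr ⟨mem_TrE.2 (Or.inr (Or.inr (Or.inl ⟨rfl, rfl⟩))), h.n23⟩)⟩
  perm := by
    intro α _ _ G b t₁ t₂ t₃
    obtain ⟨h1, h2⟩ := TrE_perm t₁ t₂ t₃
    refine ⟨?_, ?_, h1, h2⟩
    · unfold yd; rw [h1]
    · unfold yd; rw [h2]
  tperm := by
    intro α _ _ b t₁ t₂ t₃ C
    obtain ⟨h1, h2⟩ := TrE_perm t₁ t₂ t₃
    have a1 : s(t₃, t₂) = s(t₂, t₃) := Sym2.eq_swap
    have a2 : s(t₂, t₁) = s(t₁, t₂) := Sym2.eq_swap
    constructor
    · unfold tauY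
      rw [h1, a1]
      by_cases c1 : s(t₁, t₂) ∈ C <;> by_cases c2 : s(t₁, t₃) ∈ C <;>
        by_cases c3 : s(t₂, t₃) ∈ C <;> simp only [c1, c2, c3, iff_true, iff_false, true_iff,
          false_iff, if_true, if_false, not_true, not_false_eq_true, Finset.union_empty]
      all_goals try rfl
      all_goals try (rw [Finset.union_assoc, Finset.union_assoc, Finset.union_comm {s(b, t₂)}])
      all_goals try (rw [Finset.union_assoc, Finset.union_assoc, Finset.union_comm {s(b, t₃)}])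
    · unfold tauY
      rw [h2, a2]
      by_cases c1 : s(t₁, t₂) ∈ C <;> by_cases c2 : s(t₁, t₃) ∈ C <;>
        by_cases c3 : s(t₂, t₃) ∈ C <;> simp only [c1, c2, c3, iff_true, iff_false, true_iff,
          false_iff, if_true, if_false, not_true, not_false_eq_true, Finset.union_empty]
      all_goals try rfl
      all_goals try (rw [Finset.union_right_comm])
  cperm := by
    intro α _ _ G b t₁ t₂ t₃ h
    refine ⟨⟨h.n13, h.n12, h.n23.symm, fun w => ?_⟩, ⟨h.n12.symm, h.n23, h.n13, fun w => ?_⟩⟩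
    · rw [h.nb]; tauto
    · rw [h.nb]; tauto
  dele := by
    intro α _ _ G b t₁ t₂ t₃ h E hE
    have e1 := bt1 h
    have e2 := bt2 h
    have e3 := bt3 h
    constructor
    · ext u w
      rw [yd_adj, yd_adj, SimpleGraph.deleteEdges_adj]
      constructor
      · rintro (⟨⟨h1, -⟩, hu, hw⟩ | h1)
        · exact Or.inl ⟨h1, hu, hw⟩
        · exact Or.inr h1
      · rintro (⟨h1, hu, hw⟩ | h1)
        · by_cases h2 : s(u, w) ∈ E
          · exact Or.inr ⟨hE h2, h1.ne⟩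
          · exact Or.inl ⟨⟨h1, h2⟩, hu, hw⟩
        · exact Or.inr h1
    · refine ⟨h.n12, h.n13, h.n23, fun w => ?_⟩
      rw [SimpleGraph.deleteEdges_adj, h.nb]
      constructor
      · exact fun h1 => h1.1
      · intro h1
        refine ⟨h1, fun h2 => ?_⟩
        have h3 : s(b, w) ∈ TrE t₁ t₂ t₃ := hE h2
        rw [mem_TrE] at h3
        have n1 := e1.ne
        have n2 := e2.ne
        have n3 := e3.ne
        tauto

end DL
end

section
/-!
MP_3ff0f8_gt, ALGEBRA HALF, STEP Y, module YIV: cycles which are not of type IV (helper39).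
-/
open SimpleGraph Finset

namespace DL

namespace YIVM

variable {α : Type} [Fintype α] [DecidableEq α]

/-- `e ∈ C` and `e ∈ C'` differ exactly on `T` -/
theorem chi_add_of {C C' T : Finset (Sym2 α)} (h : ∀ e, e ∈ T ↔ ¬ (e ∈ C ↔ e ∈ C')) :
    chi C + chi C' = chi T := by
  funext e
  rw [Pi.add_apply, chi_apply, chi_apply, chi_apply]
  have := h e
  by_cases h1 : e ∈ C <;> by_cases h2 : e ∈ C' <;> simp_all <;> decide

/-- the converse -/
theorem mem_of_chi {C C' T : Finset (Sym2 α)} (h : chi C + chi C' = chi T) (e : Sym2 α) :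
    e ∈ T ↔ ¬ (e ∈ C ↔ e ∈ C') := by
  have h1 := congrFun h e
  rw [Pi.add_apply, chi_apply, chi_apply, chi_apply] at h1
  by_cases h2 : e ∈ C <;> by_cases h3 : e ∈ C' <;> by_cases h4 : e ∈ T <;> simp_all

theorem mem_TrE {t₁ t₂ t₃ : α} {e : Sym2 α} :
    e ∈ TrE t₁ t₂ t₃ ↔ e = s(t₁, t₂) ∨ e = s(t₁, t₃) ∨ e = s(t₂, t₃) := by
  simp [TrE]

/-- the three edges are different -/
theorem ne_of {R : SimpleGraph α} {t₁ t₂ t₃ : α} (h : Trg R t₁ t₂ t₃) :
    s(t₁, t₂) ≠ s(t₁, t₃) ∧ s(t₁, t₂) ≠ s(t₂, t₃) ∧ s(t₁, t₃) ≠ s(t₂, t₃) := by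
  have h1 := h.1.ne
  have h2 := h.2.1.ne
  have h3 := h.2.2.ne
  refine ⟨?_, ?_, ?_⟩ <;> rw [Ne, Sym2.eq_iff] <;> rintro (⟨a, b⟩ | ⟨a, b⟩) <;> simp_all

/-- a cycle which contains the triangle is the triangle -/
theorem eq_T {R : SimpleGraph α} {t₁ t₂ t₃ : α} (h : Trg R t₁ t₂ t₃) {C : Finset (Sym2 α)}
    (hC : IsCyc R C) (h1 : s(t₁, t₂) ∈ C) (h2 : s(t₁, t₃) ∈ C) (h3 : s(t₂, t₃) ∈ C) :
    C = TrE t₁ t₂ t₃ := by
  obtain ⟨n1, n2, n3⟩ := ne_of h
  have hP := hC.isPth_del h1 h2 h.2.2.ne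
  have h4 : s(t₂, t₃) ∈ C \ {s(t₁, t₂), s(t₁, t₃)} := by
    rw [mem_sdiff]
    exact ⟨h3, by simp [n2.symm, n3.symm]⟩
  have h5 := hP.eq_singleton h4
  ext e
  rw [mem_TrE]
  have h6 : e ∈ C \ {s(t₁, t₂), s(t₁, t₃)} ↔ e = s(t₂, t₃) := by rw [h5, mem_singleton]
  rw [mem_sdiff, mem_insert, mem_singleton] at h6
  constructor
  · intro he
    by_cases ha : e = s(t₁, t₂)
    · exact Or.inl ha
    by_cases hb : e = s(t₁, t₃)
    · exact Or.inr (Or.inl hb)
    exact Or.inr (Or.inr (h6.1 ⟨he, by tauto⟩))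
  · rintro (rfl | rfl | rfl)
    exacts [h1, h2, h3]

end YIVM

theorem specYIV (hYSB : SpecYSB) : SpecYIV := by
  intro α _ _ R t₁ t₂ t₃ hT C hC h12 hne hIV
  obtain ⟨n1, n2, n3⟩ := YIVM.ne_of hT
  by_cases h13 : s(t₁, t₃) ∈ C
  · have h23 : s(t₂, t₃) ∉ C := fun h => hne (YIVM.eq_T hT hC h12 h13 h)
    refine ⟨insert s(t₂, t₃) ((C.erase s(t₁, t₂)).erase s(t₁, t₃)), ?_, ?_, ?_⟩
    · exact (hYSB.sup (R := R) hC h12 h13 hT.2.2.ne h23 hT.2.2 fun e he _ => hC.subset e he).1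
    · simp [n2]
    · refine YIVM.chi_add_of fun e => ?_
      rw [YIVM.mem_TrE, mem_insert, mem_erase, mem_erase]
      by_cases ha : e = s(t₁, t₂)
      · subst ha; simp [h12, n2]
      by_cases hb : e = s(t₁, t₃)
      · subst hb; simp [h13, n3]
      by_cases hc : e = s(t₂, t₃)
      · subst hc; simp [h23]
      simp [ha, hb, hc]
  · by_cases h23 : s(t₂, t₃) ∈ C
    · have h12' : s(t₂, t₁) ∈ C := by rwa [Sym2.eq_swap]
      refine ⟨insert s(t₁, t₃) ((C.erase s(t₂, t₁)).erase s(t₂, t₃)), ?_, ?_, ?_⟩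
      · exact (hYSB.sup (R := R) hC h12' h23 hT.2.1.ne h13 hT.2.1 fun e he _ => hC.subset e he).1
      · rw [Sym2.eq_swap (a := t₂) (b := t₁)]; simp [n1]
      · refine YIVM.chi_add_of fun e => ?_
        rw [YIVM.mem_TrE, mem_insert, mem_erase, mem_erase, Sym2.eq_swap (a := t₂) (b := t₁)]
        by_cases ha : e = s(t₁, t₂)
        · subst ha; simp [h12, n1]
        by_cases hb : e = s(t₁, t₃)
        · subst hb; simp [h13]
        by_cases hc : e = s(t₂, t₃)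
        · subst hc; simp [h23, n3.symm]
        simp [ha, hb, hc]
    · have ht : t₃ ∉ vs C := fun h => hIV ⟨h13, h23, h⟩
      have h31 : s(t₃, t₁) ∉ C := by rwa [Sym2.eq_swap]
      have h32 : s(t₃, t₂) ∉ C := by rwa [Sym2.eq_swap]
      refine ⟨insert s(t₃, t₁) (insert s(t₃, t₂) (C.erase s(t₁, t₂))), ?_, ?_, ?_⟩
      · exact hYSB.sub (G := R) hC h12 ht hT.2.1.symm hT.2.2.symm fun e he _ => hC.subset e he
      · rw [Sym2.eq_swap (a := t₃) (b := t₁), Sym2.eq_swap (a := t₃) (b := t₂)]; simp [n1, n2]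
      · refine YIVM.chi_add_of fun e => ?_
        rw [YIVM.mem_TrE, mem_insert, mem_insert, mem_erase, Sym2.eq_swap (a := t₃) (b := t₁),
          Sym2.eq_swap (a := t₃) (b := t₂)]
        by_cases ha : e = s(t₁, t₂)
        · subst ha; simp [h12, n1, n2]
        by_cases hb : e = s(t₁, t₃)
        · subst hb; simp [h13]
        by_cases hc : e = s(t₂, t₃)
        · subst hc; simp [h23]
        simp [ha, hb, hc]

end DL
end

section
/-!
MP_3ff0f8_gt, ALGEBRA HALF, STEP Y, module YPS: the function `Psi` (helper39).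
-/
open SimpleGraph Finset

namespace DL

namespace YPSM

variable {α : Type} [Fintype α] [DecidableEq α]

theorem lnf_add (m : α → α → ZMod 2) (c d : Chain α) : lnf m (c + d) = lnf m c + lnf m d := by
  simp only [lnf, Pi.add_apply, mul_add, sum_add_distrib]

theorem deg_lnf (hPOL : SpecPOL) (m : α → α → ZMod 2) : DegLE 1 (lnf m) :=
  hPOL.ofAdd (lnf_add m)

theorem deg_coord (hPOL : SpecPOL) (e : Sym2 α) : DegLE 1 (fun c : Chain α => c e) :=
  hPOL.ofAdd fun _ _ => rfl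

/-- the quadratic function -/
noncomputable def qq (t₁ t₂ t₃ : α) (p : Chain α → ZMod 2) (m₁ m₂ : α → α → ZMod 2) (c : Chain α) :
    ZMod 2 :=
  (p (c + chi (TrE t₁ t₂ t₃)) + p c) + lnf (m₁ + m₂) c + c s(t₁, t₃) * lnf m₂ c +
    c s(t₂, t₃) * lnf m₁ c + p (chi (TrE t₁ t₂ t₃)) * (c s(t₁, t₃) * c s(t₂, t₃))

theorem deg_qq (hPOL : SpecPOL) (t₁ t₂ t₃ : α) {p : Chain α → ZMod 2} (hp : DegLE 3 p)
    (m₁ m₂ : α → α → ZMod 2) : DegLE 2 (qq t₁ t₂ t₃ p m₁ m₂) := by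
  have h1 : DegLE 2 (fun c => p (c + chi (TrE t₁ t₂ t₃)) + p c) := hPOL.dif _ hp
  have h2 : DegLE 2 (fun c => lnf (m₁ + m₂) c) := hPOL.mono (by norm_num) (deg_lnf hPOL _)
  have h3 : DegLE 2 (fun c : Chain α => c s(t₁, t₃) * lnf m₂ c) :=
    hPOL.mul (d := 1) (e := 1) (deg_coord hPOL _) (deg_lnf hPOL _)
  have h4 : DegLE 2 (fun c : Chain α => c s(t₂, t₃) * lnf m₁ c) :=
    hPOL.mul (d := 1) (e := 1) (deg_coord hPOL _) (deg_lnf hPOL _)
  have h5 : DegLE 2 (fun c : Chain α => c s(t₁, t₃) * c s(t₂, t₃)) :=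
    hPOL.mul (d := 1) (e := 1) (deg_coord hPOL _) (deg_coord hPOL _)
  have h6 : DegLE 2 (fun c : Chain α => p (chi (TrE t₁ t₂ t₃)) * (c s(t₁, t₃) * c s(t₂, t₃))) :=
    hPOL.mul (d := 0) (e := 2) (hPOL.const 0 _) h5
  exact hPOL.add (hPOL.add (hPOL.add (hPOL.add h1 h2) h3) h4) h6

/-- reversing the first edge -/
theorem swp {R : SimpleGraph α} {D : Finset (Sym2 α)} (hD : IsCyc R D) {a b c d : α}
    (hab : s(a, b) ∈ D) (hne : s(c, d) ≠ s(a, b)) :
    coh b a c d D = chi D s(c, d) + coh a b c d D := by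
  rw [hD.coh_reverse a b d c]
  have h := hD.coh_add_swap (a := a) (b := b) (c := c) (d := d) hne.symm
  rw [chi_of_mem hab, one_mul] at h
  rw [← h]
  generalize coh a b c d D = x
  generalize coh a b d c D = y
  revert x y
  decide

/-- table of the coherences of `E`, the subdivision of `D` at `xy` by `k`, with an edge `uv` -/
theorem table (hYSB : SpecYSB) {R : SimpleGraph α} {k x y : α} {D E : Finset (Sym2 α)}
    (hD : IsCyc R D) (hE : IsCyc R E) (hxy : s(x, y) ∈ D) (hk : k ∉ vs D)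
    (hDE : E = insert s(k, x) (insert s(k, y) (D.erase s(x, y)))) {u v : α}
    (h1 : s(u, v) ≠ s(x, y)) (h2 : s(u, v) ≠ s(k, x)) (h3 : s(u, v) ≠ s(k, y)) :
    chi E s(u, v) = chi D s(u, v) ∧ coh k x u v E = coh y x u v D ∧
      coh k y u v E = chi D s(u, v) + coh y x u v D ∧
      coh x k u v E = chi D s(u, v) + coh y x u v D ∧ coh y k u v E = coh y x u v D ∧
      coh x y u v D = chi D s(u, v) + coh y x u v D := by
  have hyx : s(y, x) ∈ D := by rwa [Sym2.eq_swap]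
  have hchi : chi E s(u, v) = chi D s(u, v) := by
    rw [chi_apply, chi_apply, hDE]
    simp [h1, h2, h3]
  have hkx : s(k, x) ∈ E := by rw [hDE]; simp
  have hky : s(k, y) ∈ E := by rw [hDE]; simp
  have e1 : coh x y u v D = chi D s(u, v) + coh y x u v D :=
    swp hD hyx (by rwa [Sym2.eq_swap (a := y)])
  have e2 : coh x k u v E = chi D s(u, v) + coh k x u v E := by
    rw [← hchi]; exact swp hE hkx h2
  have e3 : coh y k u v E = chi D s(u, v) + coh k y u v E := by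
    rw [← hchi]; exact swp hE hky h3
  by_cases hu : u = k ∨ v = k
  · have hn : s(u, v) ∉ D := by
      intro h
      rcases hu with rfl | rfl
      · exact hk (left_mem_vs h)
      · exact hk (right_mem_vs h)
    have hn' : s(u, v) ∉ E := by
      intro h
      rw [chi_of_mem h, chi_of_notMem hn] at hchi
      exact absurd hchi (by decide)
    rw [coh_eq_zero_right hn', coh_eq_zero_right hn', coh_eq_zero_right hn', coh_eq_zero_right hn',
      coh_eq_zero_right hn, coh_eq_zero_right hn, chi_of_notMem hn, chi_of_notMem hn']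
    simp
  · rw [not_or] at hu
    have c1 : coh y x u v D = coh k x u v E := by
      rw [hDE]; exact hYSB.coh1 hD hxy hk hu.1 hu.2 h1
    have c2 : coh x y u v D = coh k y u v E := by
      have hDE' : E = insert s(k, y) (insert s(k, x) (D.erase s(y, x))) := by
        rw [hDE, Finset.insert_comm, Sym2.eq_swap (a := y)]
      rw [hDE']
      exact hYSB.coh1 hD hyx hk hu.1 hu.2 (by rwa [Sym2.eq_swap (a := y)])
    refine ⟨hchi, c1.symm, ?_, ?_, ?_, e1⟩
    · rw [← c2, e1]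
    · rw [e2, ← c1]
    · rw [e3, ← c2, e1]
      generalize chi D s(u, v) = a
      generalize coh y x u v D = b
      revert a b
      decide

/-- the coherences of two edges which are not in the triangle -/
theorem table2 (hYSB : SpecYSB) {R : SimpleGraph α} {k x y : α} {D E : Finset (Sym2 α)}
    (_hD : IsCyc R D) (hxy : s(x, y) ∈ D) (hk : k ∉ vs D)
    (hDE : E = insert s(k, x) (insert s(k, y) (D.erase s(x, y)))) {u v c d : α}
    (h1 : s(u, v) ≠ s(x, y)) (h2 : s(u, v) ≠ s(k, x)) (h3 : s(u, v) ≠ s(k, y))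
    (g1 : s(c, d) ≠ s(x, y)) (g2 : s(c, d) ≠ s(k, x)) (g3 : s(c, d) ≠ s(k, y)) :
    coh u v c d D = coh u v c d E := by
  have key : ∀ {u v : α}, s(u, v) ≠ s(x, y) → s(u, v) ≠ s(k, x) → s(u, v) ≠ s(k, y) →
      (u = k ∨ v = k) → s(u, v) ∉ D ∧ s(u, v) ∉ E := by
    intro u v h1 h2 h3 hu
    have hn : s(u, v) ∉ D := by
      intro h
      rcases hu with rfl | rfl
      · exact hk (left_mem_vs h)
      · exact hk (right_mem_vs h)
    refine ⟨hn, ?_⟩
    rw [hDE]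
    simp [h2, h3, hn]
  by_cases hu : u = k ∨ v = k
  · obtain ⟨a, b⟩ := key h1 h2 h3 hu
    rw [coh_eq_zero_left a, coh_eq_zero_left b]
  by_cases hc : c = k ∨ d = k
  · obtain ⟨a, b⟩ := key g1 g2 g3 hc
    rw [coh_eq_zero_right a, coh_eq_zero_right b]
  rw [not_or] at hu hc
  rw [hDE]
  exact hYSB.coh2 _hD hxy hk hu.1 hu.2 hc.1 hc.2 h1 g1

theorem lnf_zero_of {T : Finset (Sym2 α)} {R : SimpleGraph α} {t₁ t₂ t₃ : α} {m : α → α → ZMod 2}
    (hm : OffT R t₁ t₂ t₃ m) (hT : T = TrE t₁ t₂ t₃) : lnf m (chi T) = 0 := by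
  subst hT
  refine sum_eq_zero fun u _ => sum_eq_zero fun v _ => ?_
  by_cases h : m u v = 0
  · rw [h, zero_mul]
  · rw [chi_of_notMem (hm u v h).2, mul_zero]

theorem offT_add {R : SimpleGraph α} {t₁ t₂ t₃ : α} {m m' : α → α → ZMod 2}
    (hm : OffT R t₁ t₂ t₃ m) (hm' : OffT R t₁ t₂ t₃ m') : OffT R t₁ t₂ t₃ (m + m') := by
  intro u v h
  by_cases h1 : m u v = 0
  · by_cases h2 : m' u v = 0
    · exact absurd (by rw [Pi.add_apply, Pi.add_apply, h1, h2, add_zero]) h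
    · exact hm' u v h2
  · exact hm u v h1

theorem tch_T {R : SimpleGraph α} {t₁ t₂ t₃ : α} {m : α → α → ZMod 2}
    (hm : OffT R t₁ t₂ t₃ m) (a b : α) : tch a b m (TrE t₁ t₂ t₃) = 0 := by
  refine sum_eq_zero fun u _ => sum_eq_zero fun v _ => ?_
  by_cases h : m u v = 0
  · rw [h, zero_mul]
  · rw [coh_eq_zero_right (hm u v h).2, mul_zero]

/-- the termwise identities give the identity -/
theorem final {R : SimpleGraph α} {t₁ t₂ t₃ : α} {p : Chain α → ZMod 2}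
    {m₁ m₂ m₃ : α → α → ZMod 2} {l : α → α → α → α → ZMod 2} (hm₁ : OffT R t₁ t₂ t₃ m₁)
    (hm₂ : OffT R t₁ t₂ t₃ m₂) (hm₃ : OffT R t₁ t₂ t₃ m₃) (hl : OffL R t₁ t₂ t₃ l)
    {C C' : Finset (Sym2 α)} (h12 : s(t₁, t₂) ∈ C) (h12' : s(t₁, t₂) ∉ C')
    (h1323 : ¬ (s(t₁, t₃) ∈ C ∧ s(t₂, t₃) ∈ C))
    (hchi : chi C + chi C' = chi (TrE t₁ t₂ t₃))
    (hA : ∀ u v, s(u, v) ∉ TrE t₁ t₂ t₃ → coh t₁ t₃ u v C + coh t₁ t₃ u v C' =
      chi C s(u, v) + coh t₂ t₁ u v C + chi C s(t₁, t₃) * chi C s(u, v))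
    (hB : ∀ u v, s(u, v) ∉ TrE t₁ t₂ t₃ → coh t₃ t₂ u v C + coh t₃ t₂ u v C' =
      chi C s(u, v) + coh t₂ t₁ u v C + chi C s(t₂, t₃) * chi C s(u, v))
    (hL : ∀ a b c d, s(a, b) ∉ TrE t₁ t₂ t₃ → s(c, d) ∉ TrE t₁ t₂ t₃ →
      coh a b c d C = coh a b c d C') :
    TNF t₁ t₂ t₃ p m₁ m₂ m₃ l C + TNF t₁ t₂ t₃ p m₁ m₂ m₃ l C' = Psi t₁ t₂ t₃ p m₁ m₂ m₃ C := by
  have hcohs : cohs l C = cohs l C' := by
    refine sum_congr rfl fun a _ => sum_congr rfl fun b _ => sum_congr rfl fun c _ =>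
      sum_congr rfl fun d _ => ?_
    by_cases h : l a b c d = 0
    · rw [h, zero_mul, zero_mul]
    · obtain ⟨_, _, h1, h2⟩ := hl a b c d h
      rw [hL a b c d h1 h2]
  have hC' : chi C' = chi C + chi (TrE t₁ t₂ t₃) := by
    rw [← hchi, ← add_assoc]
    have : chi C + chi C = 0 := by
      funext e
      show chi C e + chi C e = 0
      exact CharTwo.add_self_eq_zero _
    rw [this, zero_add]
  have h3 : tch t₂ t₁ m₃ C' = 0 := by
    refine sum_eq_zero fun u _ => sum_eq_zero fun v _ => ?_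
    rw [coh_eq_zero_left (by rwa [Sym2.eq_swap]), mul_zero]
  have key : tch t₂ t₁ m₃ C + tch t₁ t₃ m₂ C + tch t₃ t₂ m₁ C +
      (tch t₁ t₃ m₂ C' + tch t₃ t₂ m₁ C') = lnf (m₁ + m₂) (chi C) + tch t₂ t₁ (m₁ + m₂ + m₃) C +
        chi C s(t₁, t₃) * lnf m₂ (chi C) + chi C s(t₂, t₃) * lnf m₁ (chi C) := by
    simp only [tch, lnf, mul_sum, ← sum_add_distrib]
    refine sum_congr rfl fun u _ => sum_congr rfl fun v _ => ?_
    simp only [Pi.add_apply]
    by_cases huv : s(u, v) ∈ TrE t₁ t₂ t₃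
    · have z1 : m₁ u v = 0 := by by_contra h; exact (hm₁ u v h).2 huv
      have z2 : m₂ u v = 0 := by by_contra h; exact (hm₂ u v h).2 huv
      have z3 : m₃ u v = 0 := by by_contra h; exact (hm₃ u v h).2 huv
      rw [z1, z2, z3]
      ring
    · have e1 : coh t₁ t₃ u v C' = coh t₁ t₃ u v C + (chi C s(u, v) + coh t₂ t₁ u v C +
          chi C s(t₁, t₃) * chi C s(u, v)) := by
        rw [← hA u v huv]
        generalize coh t₁ t₃ u v C = a
        generalize coh t₁ t₃ u v C' = b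
        revert a b
        decide
      have e2 : coh t₃ t₂ u v C' = coh t₃ t₂ u v C + (chi C s(u, v) + coh t₂ t₁ u v C +
          chi C s(t₂, t₃) * chi C s(u, v)) := by
        rw [← hB u v huv]
        generalize coh t₃ t₂ u v C = a
        generalize coh t₃ t₂ u v C' = b
        revert a b
        decide
      rw [e1, e2]
      generalize coh t₁ t₃ u v C = a
      generalize coh t₃ t₂ u v C = b
      generalize coh t₂ t₁ u v C = d
      generalize chi C s(u, v) = x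
      generalize chi C s(t₁, t₃) = y
      generalize chi C s(t₂, t₃) = z
      have two : ∀ a : ZMod 2, a + a = 0 := CharTwo.add_self_eq_zero
      linear_combination (m₂ u v) * two a + (m₁ u v) * two b
  have hz : chi C s(t₁, t₃) * chi C s(t₂, t₃) = 0 := by
    by_cases h1 : s(t₁, t₃) ∈ C
    · rw [chi_of_notMem (e := s(t₂, t₃)) fun h2 => h1323 ⟨h1, h2⟩, mul_zero]
    · rw [chi_of_notMem h1, zero_mul]
  unfold TNF Psi
  rw [h3, ← hcohs, chi_of_mem h12, ← hC']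
  generalize tch t₂ t₁ m₃ C = a1 at *
  generalize tch t₁ t₃ m₂ C = a2 at *
  generalize tch t₃ t₂ m₁ C = a3 at *
  generalize tch t₁ t₃ m₂ C' = a4 at *
  generalize tch t₃ t₂ m₁ C' = a5 at *
  generalize tch t₂ t₁ (m₁ + m₂ + m₃) C = a6 at *
  generalize lnf (m₁ + m₂) (chi C) = b1 at *
  generalize lnf m₁ (chi C) = b2 at *
  generalize lnf m₂ (chi C) = b3 at *
  generalize cohs l C = b4 at *
  generalize p (chi C) = b5
  generalize p (chi C') = b6
  generalize p (chi (TrE t₁ t₂ t₃)) = b7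
  linear_combination key + CharTwo.add_self_eq_zero b4 - b7 * hz

end YPSM

theorem specYPS (hYSB : SpecYSB) (hPOL : SpecPOL) : SpecYPS where
  form := by
    intro α _ _ t₁ t₂ t₃ p m₁ m₂ m₃ hp
    refine ⟨YPSM.qq t₁ t₂ t₃ p m₁ m₂, YPSM.deg_qq hPOL t₁ t₂ t₃ hp m₁ m₂, fun C => ?_⟩
    unfold Psi YPSM.qq
    ring
  tri := by
    intro α _ _ R t₁ t₂ t₃ p m₁ m₂ m₃ hT hp0 hm₁ hm₂ hm₃
    unfold Psi
    have hz : chi (TrE t₁ t₂ t₃) + chi (TrE t₁ t₂ t₃) = 0 := by
      funext e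
      exact CharTwo.add_self_eq_zero _
    rw [hz, hp0, YPSM.lnf_zero_of hm₁ rfl, YPSM.lnf_zero_of hm₂ rfl,
      YPSM.lnf_zero_of (YPSM.offT_add hm₁ hm₂) rfl,
      YPSM.tch_T (YPSM.offT_add (YPSM.offT_add hm₁ hm₂) hm₃),
      chi_of_mem (YIVM.mem_TrE.2 (Or.inl rfl)), chi_of_mem (YIVM.mem_TrE.2 (Or.inr (Or.inl rfl))),
      chi_of_mem (YIVM.mem_TrE.2 (Or.inr (Or.inr rfl)))]
    generalize p (chi (TrE t₁ t₂ t₃)) = a
    revert a
    decide
  idn := by
    intro α _ _ R t₁ t₂ t₃ p m₁ m₂ m₃ l hT hm₁ hm₂ hm₃ hl C C' hC hC' h12 hchi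
    obtain ⟨n1, n2, n3⟩ := YIVM.ne_of hT
    have hmem := YIVM.mem_of_chi hchi
    have t12 : s(t₁, t₂) ∈ TrE t₁ t₂ t₃ := YIVM.mem_TrE.2 (Or.inl rfl)
    have t13 : s(t₁, t₃) ∈ TrE t₁ t₂ t₃ := YIVM.mem_TrE.2 (Or.inr (Or.inl rfl))
    have t23 : s(t₂, t₃) ∈ TrE t₁ t₂ t₃ := YIVM.mem_TrE.2 (Or.inr (Or.inr rfl))
    have h12' : s(t₁, t₂) ∉ C' := by have := (hmem _).1 t12; tauto
    have h1323 : ¬ (s(t₁, t₃) ∈ C ∧ s(t₂, t₃) ∈ C) := by
      rintro ⟨h13, h23⟩
      have hCT := YIVM.eq_T hT hC h12 h13 h23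
      obtain ⟨e, he⟩ := hC'.nonempty
      have h1 := hmem e
      rw [hCT] at h1
      tauto
    have hnT : ∀ {u v : α}, s(u, v) ∉ TrE t₁ t₂ t₃ →
        s(u, v) ≠ s(t₁, t₂) ∧ s(u, v) ≠ s(t₁, t₃) ∧ s(u, v) ≠ s(t₂, t₃) := by
      intro u v h
      rw [YIVM.mem_TrE, not_or, not_or] at h
      exact h
    have sw12 : s(t₂, t₁) = s(t₁, t₂) := Sym2.eq_swap
    have sw13 : s(t₃, t₁) = s(t₁, t₃) := Sym2.eq_swap
    have sw23 : s(t₃, t₂) = s(t₂, t₃) := Sym2.eq_swap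
    by_cases h13 : s(t₁, t₃) ∈ C
    · -- `C` is the subdivision of `C'` at `t₂t₃` by `t₁`
      have h23 : s(t₂, t₃) ∉ C := fun h => h1323 ⟨h13, h⟩
      have h13' : s(t₁, t₃) ∉ C' := by have := (hmem _).1 t13; tauto
      have h23' : s(t₂, t₃) ∈ C' := by have := (hmem _).1 t23; tauto
      have hDE : C = insert s(t₁, t₂) (insert s(t₁, t₃) (C'.erase s(t₂, t₃))) := by
        ext e
        rw [mem_insert, mem_insert, mem_erase]
        have h1 := hmem e
        rw [YIVM.mem_TrE] at h1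
        by_cases ha : e = s(t₁, t₂)
        · subst ha; simp [h12]
        by_cases hb : e = s(t₁, t₃)
        · subst hb; simp [h13]
        by_cases hc : e = s(t₂, t₃)
        · subst hc; simp [h23, n2.symm, n3.symm]
        tauto
      have hk : t₁ ∉ vs C' := by
        intro h
        obtain ⟨i, j, hij, hi, hj, _⟩ := hC'.two_edges h
        have hiC : s(t₁, i) ∈ C := by
          rw [hDE, mem_insert, mem_insert, mem_erase]
          refine Or.inr (Or.inr ⟨?_, hi⟩)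
          rintro e
          rw [Sym2.eq_iff] at e
          rcases e with ⟨e, _⟩ | ⟨e, _⟩
          · exact hT.1.ne e
          · exact hT.2.1.ne e
        have hi2 : i ≠ t₂ := by rintro rfl; exact h12' hi
        have hi3 : i ≠ t₃ := by rintro rfl; exact h13' hi
        rcases hC.eq_or_eq h12 h13 hT.2.2.ne hiC with h | h
        · exact hi2 h
        · exact hi3 h
      refine YPSM.final hm₁ hm₂ hm₃ hl h12 h12' h1323 hchi ?_ ?_ ?_
      · intro u v huv
        obtain ⟨g1, g2, g3⟩ := hnT huv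
        obtain ⟨a0, a1, a2, a3, a4, a5⟩ := YPSM.table hYSB hC' hC h23' hk hDE g3 g1 g2
        rw [coh_eq_zero_left (a := t₁) (b := t₃) h13', a2, a3, a0, chi_of_mem h13]
        generalize chi C' s(u, v) = a
        generalize coh t₃ t₂ u v C' = b
        revert a b
        decide
      · intro u v huv
        obtain ⟨g1, g2, g3⟩ := hnT huv
        obtain ⟨a0, a1, a2, a3, a4, a5⟩ := YPSM.table hYSB hC' hC h23' hk hDE g3 g1 g2
        rw [coh_eq_zero_left (a := t₃) (b := t₂) (C := C) (by rwa [sw23]), a3, a0,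
          chi_of_notMem h23]
        generalize chi C' s(u, v) = a
        generalize coh t₃ t₂ u v C' = b
        revert a b
        decide
      · intro a b c d hab hcd
        obtain ⟨g1, g2, g3⟩ := hnT hab
        obtain ⟨k1, k2, k3⟩ := hnT hcd
        exact (YPSM.table2 hYSB hC' h23' hk hDE g3 g1 g2 k3 k1 k2).symm
    · have h13' : s(t₁, t₃) ∈ C' := by have := (hmem _).1 t13; tauto
      by_cases h23 : s(t₂, t₃) ∈ C
      · -- `C` is the subdivision of `C'` at `t₁t₃` by `t₂`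
        have h23' : s(t₂, t₃) ∉ C' := by have := (hmem _).1 t23; tauto
        have hDE : C = insert s(t₂, t₁) (insert s(t₂, t₃) (C'.erase s(t₁, t₃))) := by
          ext e
          rw [mem_insert, mem_insert, mem_erase, sw12]
          have h1 := hmem e
          rw [YIVM.mem_TrE] at h1
          by_cases ha : e = s(t₁, t₂)
          · subst ha; simp [h12]
          by_cases hb : e = s(t₁, t₃)
          · subst hb; simp [h13, n1.symm, n3]
          by_cases hc : e = s(t₂, t₃)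
          · subst hc; simp [h23]
          tauto
        have hk : t₂ ∉ vs C' := by
          intro h
          obtain ⟨i, j, hij, hi, hj, _⟩ := hC'.two_edges h
          have hiC : s(t₂, i) ∈ C := by
            rw [hDE, mem_insert, mem_insert, mem_erase]
            refine Or.inr (Or.inr ⟨?_, hi⟩)
            rintro e
            rw [Sym2.eq_iff] at e
            rcases e with ⟨e, _⟩ | ⟨e, _⟩
            · exact hT.1.ne e.symm
            · exact hT.2.2.ne e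
          have hi2 : i ≠ t₁ := by rintro rfl; rw [sw12] at hi; exact h12' hi
          have hi3 : i ≠ t₃ := by rintro rfl; exact h23' hi
          rcases hC.eq_or_eq (v := t₂) (i := t₁) (j := t₃) (by rwa [sw12]) h23 hT.2.1.ne hiC with h | h
          · exact hi2 h
          · exact hi3 h
        refine YPSM.final hm₁ hm₂ hm₃ hl h12 h12' h1323 hchi ?_ ?_ ?_
        · intro u v huv
          obtain ⟨g1, g2, g3⟩ := hnT huv
          obtain ⟨a0, a1, a2, a3, a4, a5⟩ :=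
            YPSM.table hYSB hC' hC h13' hk hDE g2 (by rwa [sw12]) g3
          rw [coh_eq_zero_left (a := t₁) (b := t₃) (C := C) h13, a5, a1, a0, chi_of_notMem h13]
          generalize chi C' s(u, v) = a
          generalize coh t₃ t₁ u v C' = b
          revert a b
          decide
        · intro u v huv
          obtain ⟨g1, g2, g3⟩ := hnT huv
          obtain ⟨a0, a1, a2, a3, a4, a5⟩ :=
            YPSM.table hYSB hC' hC h13' hk hDE g2 (by rwa [sw12]) g3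
          rw [coh_eq_zero_left (a := t₃) (b := t₂) (C := C') (by rwa [sw23]), a1, a4, a0,
            chi_of_mem h23]
          generalize chi C' s(u, v) = a
          generalize coh t₃ t₁ u v C' = b
          revert a b
          decide
        · intro a b c d hab hcd
          obtain ⟨g1, g2, g3⟩ := hnT hab
          obtain ⟨k1, k2, k3⟩ := hnT hcd
          exact (YPSM.table2 hYSB hC' h13' hk hDE g2 (by rwa [sw12]) g3 k2 (by rwa [sw12]) k3).symm
      · -- `C'` is the subdivision of `C` at `t₁t₂` by `t₃`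
        have h23' : s(t₂, t₃) ∈ C' := by have := (hmem _).1 t23; tauto
        have hDE : C' = insert s(t₃, t₁) (insert s(t₃, t₂) (C.erase s(t₁, t₂))) := by
          ext e
          rw [mem_insert, mem_insert, mem_erase, sw13, sw23]
          have h1 := hmem e
          rw [YIVM.mem_TrE] at h1
          by_cases ha : e = s(t₁, t₂)
          · subst ha; simp [h12', n1, n2]
          by_cases hb : e = s(t₁, t₃)
          · subst hb; simp [h13']
          by_cases hc : e = s(t₂, t₃)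
          · subst hc; simp [h23']
          tauto
        have hk : t₃ ∉ vs C := by
          intro h
          obtain ⟨i, j, hij, hi, hj, _⟩ := hC.two_edges h
          have hiC : s(t₃, i) ∈ C' := by
            rw [hDE, mem_insert, mem_insert, mem_erase]
            refine Or.inr (Or.inr ⟨?_, hi⟩)
            rintro e
            rw [Sym2.eq_iff] at e
            rcases e with ⟨e, _⟩ | ⟨e, _⟩
            · exact hT.2.1.ne e.symm
            · exact hT.2.2.ne e.symm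
          have hi2 : i ≠ t₁ := by rintro rfl; rw [sw13] at hi; exact h13 hi
          have hi3 : i ≠ t₂ := by rintro rfl; rw [sw23] at hi; exact h23 hi
          rcases hC'.eq_or_eq (v := t₃) (i := t₁) (j := t₂) (by rwa [sw13]) (by rwa [sw23])
            hT.1.ne hiC with h | h
          · exact hi2 h
          · exact hi3 h
        refine YPSM.final hm₁ hm₂ hm₃ hl h12 h12' h1323 hchi ?_ ?_ ?_
        · intro u v huv
          obtain ⟨g1, g2, g3⟩ := hnT huv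
          obtain ⟨a0, a1, a2, a3, a4, a5⟩ :=
            YPSM.table hYSB hC hC' h12 hk hDE g1 (by rwa [sw13]) (by rwa [sw23])
          rw [coh_eq_zero_left (a := t₁) (b := t₃) (C := C) h13, a3, chi_of_notMem h13]
          generalize chi C s(u, v) = a
          generalize coh t₂ t₁ u v C = b
          revert a b
          decide
        · intro u v huv
          obtain ⟨g1, g2, g3⟩ := hnT huv
          obtain ⟨a0, a1, a2, a3, a4, a5⟩ :=
            YPSM.table hYSB hC hC' h12 hk hDE g1 (by rwa [sw13]) (by rwa [sw23])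
          rw [coh_eq_zero_left (a := t₃) (b := t₂) (C := C) (by rwa [sw23]), a2,
            chi_of_notMem h23]
          generalize chi C s(u, v) = a
          generalize coh t₂ t₁ u v C = b
          revert a b
          decide
        · intro a b c d hab hcd
          obtain ⟨g1, g2, g3⟩ := hnT hab
          obtain ⟨k1, k2, k3⟩ := hnT hcd
          exact YPSM.table2 hYSB hC h12 hk hDE g1 (by rwa [sw13]) (by rwa [sw23]) k1
            (by rwa [sw13]) (by rwa [sw23])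

end DL
end

section
/-!
# YFU: the formula for `f` if no edge of the triangle is in `G`
-/
open SimpleGraph Finset

namespace DL

namespace YFUM

variable {α : Type} [Fintype α] [DecidableEq α]

/-- the linear map `bt₁ ↦ t₁t₃`, `bt₂ ↦ t₂t₃`, `bt₃ ↦ 0` -/
def LL (b t₁ t₂ t₃ : α) : Chain α →+ Chain α where
  toFun c e := if b ∈ e then 0 else c e + (if e = s(t₁, t₃) then c s(b, t₁) else 0) +
    (if e = s(t₂, t₃) then c s(b, t₂) else 0)
  map_zero' := by
    funext e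
    simp
  map_add' c d := by
    funext e
    simp only [Pi.add_apply]
    split_ifs <;> ring

theorem LL_apply (b t₁ t₂ t₃ : α) (c : Chain α) (e : Sym2 α) : LL b t₁ t₂ t₃ c e =
    if b ∈ e then 0 else c e + (if e = s(t₁, t₃) then c s(b, t₁) else 0) +
      (if e = s(t₂, t₃) then c s(b, t₂) else 0) := rfl

theorem z2 (x : ZMod 2) : x + x = 0 := by revert x; decide

theorem tch_add (a a' : α) (m m' : α → α → ZMod 2) (C : Finset (Sym2 α)) :
    tch a a' (m + m') C = tch a a' m C + tch a a' m' C := by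
  unfold tch
  simp only [Pi.add_apply, add_mul, sum_add_distrib]

theorem lnf_add (m m' : α → α → ZMod 2) (c : Chain α) :
    lnf (m + m') c = lnf m c + lnf m' c := by
  unfold lnf
  simp only [Pi.add_apply, add_mul, sum_add_distrib]

theorem tch_zero_of {a a' : α} {C : Finset (Sym2 α)} (h : s(a, a') ∉ C) (m : α → α → ZMod 2) :
    tch a a' m C = 0 := by
  unfold tch
  exact sum_eq_zero fun u _ => sum_eq_zero fun v _ => by rw [coh_eq_zero_left h, mul_zero]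

theorem lnf_congr {R : SimpleGraph α} {t₁ t₂ t₃ : α} {m : α → α → ZMod 2}
    (hm : OffT R t₁ t₂ t₃ m) {c c' : Chain α}
    (h : ∀ u v, R.Adj u v → s(u, v) ∉ TrE t₁ t₂ t₃ → c s(u, v) = c' s(u, v)) :
    lnf m c = lnf m c' := by
  unfold lnf
  refine sum_congr rfl fun u _ => sum_congr rfl fun v _ => ?_
  by_cases h0 : m u v = 0
  · rw [h0, zero_mul, zero_mul]
  · rw [h u v (hm u v h0).1 (hm u v h0).2]

theorem tch_congr {R : SimpleGraph α} {t₁ t₂ t₃ : α} {m : α → α → ZMod 2}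
    (hm : OffT R t₁ t₂ t₃ m) {a a' x x' : α} {C C' : Finset (Sym2 α)}
    (h : ∀ u v, R.Adj u v → s(u, v) ∉ TrE t₁ t₂ t₃ → coh a a' u v C = coh x x' u v C') :
    tch a a' m C = tch x x' m C' := by
  unfold tch
  refine sum_congr rfl fun u _ => sum_congr rfl fun v _ => ?_
  by_cases h0 : m u v = 0
  · rw [h0, zero_mul, zero_mul]
  · rw [h u v (hm u v h0).1 (hm u v h0).2]

theorem tch_swap {R : SimpleGraph α} {t₁ t₂ t₃ : α} {m : α → α → ZMod 2}
    (hm : OffT R t₁ t₂ t₃ m) {a a' : α} (ha : s(a, a') ∈ TrE t₁ t₂ t₃) {D : Finset (Sym2 α)}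
    (hD : IsCyc R D) (haD : s(a, a') ∈ D) :
    tch a a' m D = lnf m (chi D) + tch a' a m D := by
  unfold tch lnf
  rw [← sum_add_distrib]
  refine sum_congr rfl fun u _ => ?_
  rw [← sum_add_distrib]
  refine sum_congr rfl fun v _ => ?_
  by_cases h0 : m u v = 0
  · rw [h0]; simp
  · have h1 := hD.coh_add_swap (a := a) (b := a') (c := u) (d := v)
      (fun e => (hm u v h0).2 (e ▸ ha))
    rw [chi_of_mem haD, one_mul] at h1
    rw [hD.coh_reverse a a' v u, ← h1]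
    linear_combination (-(m u v)) * z2 (coh a a' v u D)

theorem cohs_congr {R : SimpleGraph α} {t₁ t₂ t₃ : α} {l : α → α → α → α → ZMod 2}
    (hl : OffL R t₁ t₂ t₃ l) {C C' : Finset (Sym2 α)}
    (h : ∀ a a' c c', R.Adj a a' → R.Adj c c' → s(a, a') ∉ TrE t₁ t₂ t₃ →
      s(c, c') ∉ TrE t₁ t₂ t₃ → coh a a' c c' C = coh a a' c c' C') : cohs l C = cohs l C' := by
  unfold cohs
  refine sum_congr rfl fun a _ => sum_congr rfl fun b _ => sum_congr rfl fun c _ =>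
    sum_congr rfl fun d _ => ?_
  by_cases h0 : l a b c d = 0
  · rw [h0, zero_mul, zero_mul]
  · obtain ⟨h1, h2, h3, h4⟩ := hl a b c d h0
    rw [h a b c d h1 h2 h3 h4]

section yd

variable {G : SimpleGraph α} {b t₁ t₂ t₃ : α}

theorem b_ne (hb : Cub G b t₁ t₂ t₃) : b ≠ t₁ ∧ b ≠ t₂ ∧ b ≠ t₃ :=
  ⟨((hb.nb t₁).2 (Or.inl rfl)).ne, ((hb.nb t₂).2 (Or.inr (Or.inl rfl))).ne,
    ((hb.nb t₃).2 (Or.inr (Or.inr rfl))).ne⟩

theorem notMem_T (hb : Cub G b t₁ t₂ t₃) {e : Sym2 α} (he : e ∈ TrE t₁ t₂ t₃) : b ∉ e := by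
  obtain ⟨h1, h2, h3⟩ := b_ne hb
  unfold TrE at he
  simp only [mem_insert, mem_singleton] at he
  rcases he with rfl | rfl | rfl <;> rw [Sym2.mem_iff] <;> tauto

theorem yd_ne (hb : Cub G b t₁ t₂ t₃) {u v : α} (h : (yd G b t₁ t₂ t₃).Adj u v) :
    u ≠ b ∧ v ≠ b := by
  rcases h with h | h
  · have h1 := h.2.1
    have h2 := h.2.2
    rw [mem_singleton] at h1 h2
    exact ⟨h1, h2⟩
  · have h1 : s(u, v) ∈ TrE t₁ t₂ t₃ := by
      have := ((fromEdgeSet_adj _).1 h).1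
      exact_mod_cast this
    have h2 := notMem_T hb h1
    rw [Sym2.mem_iff, not_or] at h2
    exact ⟨fun e => h2.1 e.symm, fun e => h2.2 e.symm⟩

theorem T_ne (hb : Cub G b t₁ t₂ t₃) : s(t₁, t₂) ≠ s(t₁, t₃) ∧ s(t₁, t₂) ≠ s(t₂, t₃) ∧
    s(t₁, t₃) ≠ s(t₂, t₃) := by
  refine ⟨fun e => ?_, fun e => ?_, fun e => ?_⟩
  · have h : t₂ ∈ s(t₁, t₃) := by rw [← e]; simp
    rcases Sym2.mem_iff.1 h with h | h
    exacts [hb.n12 h.symm, hb.n23 h]
  · have h : t₁ ∈ s(t₂, t₃) := by rw [← e]; simp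
    rcases Sym2.mem_iff.1 h with h | h
    exacts [hb.n12 h, hb.n13 h]
  · have h : t₁ ∈ s(t₂, t₃) := by rw [← e]; simp
    rcases Sym2.mem_iff.1 h with h | h
    exacts [hb.n12 h, hb.n13 h]

theorem off3 {v : α} (h1 : v ≠ t₁) (h2 : v ≠ t₂) (h3 : v ≠ t₃) : s(t₃, v) ∉ TrE t₁ t₂ t₃ := by
  intro h
  have hv : v ∈ s(t₃, v) := by simp
  unfold TrE at h
  simp only [mem_insert, mem_singleton] at h
  rcases h with h | h | h <;> rw [h, Sym2.mem_iff] at hv <;> rcases hv with hv | hv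
  exacts [h1 hv, h2 hv, h1 hv, h3 hv, h2 hv, h3 hv]

theorem T_notMem (hn : NTE G t₁ t₂ t₃) {C : Finset (Sym2 α)} (hC : IsCyc G C) {e : Sym2 α}
    (he : e ∈ TrE t₁ t₂ t₃) : e ∉ C := by
  intro h
  unfold TrE at he
  simp only [mem_insert, mem_singleton] at he
  rcases he with rfl | rfl | rfl
  · exact hn.1 (hC.adj_of_mem h)
  · exact hn.2.1 (hC.adj_of_mem h)
  · exact hn.2.2 (hC.adj_of_mem h)

/-- a subdivided cycle -/
structure Sub (G : SimpleGraph α) (b t₁ t₂ t₃ x y : α) (D C : Finset (Sym2 α)) : Prop where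
  cy : IsCyc (yd G b t₁ t₂ t₃) D
  mem : s(x, y) ∈ D
  T : s(x, y) ∈ TrE t₁ t₂ t₃
  nb : b ∉ vs D
  eq : C = insert s(b, x) (insert s(b, y) (D.erase s(x, y)))

theorem Sub.chiM {x y : α} {D C : Finset (Sym2 α)} (h : Sub G b t₁ t₂ t₃ x y D C) {e : Sym2 α}
    (hb : b ∉ e) (he : e ∉ TrE t₁ t₂ t₃) : chi C e = chi D e := by
  have h1 : e ≠ s(b, x) := by rintro rfl; exact hb (by simp)
  have h2 : e ≠ s(b, y) := by rintro rfl; exact hb (by simp)
  have h3 : e ≠ s(x, y) := by rintro rfl; exact he h.T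
  rw [h.eq, chi_apply, chi_apply]
  simp only [mem_insert, mem_erase, h1, h2, h3, false_or, ne_eq, not_false_eq_true, true_and]

theorem Sub.chiE {x y : α} {D C : Finset (Sym2 α)} (hb : Cub G b t₁ t₂ t₃)
    (h : Sub G b t₁ t₂ t₃ x y D C) {u v : α} (huv : (yd G b t₁ t₂ t₃).Adj u v)
    (he : s(u, v) ∉ TrE t₁ t₂ t₃) : chi C s(u, v) = chi D s(u, v) := by
  refine h.chiM ?_ he
  have := yd_ne hb huv
  rw [Sym2.mem_iff]
  rintro (rfl | rfl)
  exacts [this.1 rfl, this.2 rfl]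

theorem Sub.coh1 (hYSB : SpecYSB) {x y : α} {D C : Finset (Sym2 α)} (hb : Cub G b t₁ t₂ t₃)
    (h : Sub G b t₁ t₂ t₃ x y D C) {u v : α} (huv : (yd G b t₁ t₂ t₃).Adj u v)
    (he : s(u, v) ∉ TrE t₁ t₂ t₃) : coh b x u v C = coh y x u v D := by
  have h1 := yd_ne hb huv
  rw [h.eq]
  exact (hYSB.coh1 h.cy h.mem h.nb h1.1 h1.2 (fun e => he (e ▸ h.T))).symm

theorem Sub.cohs (hYSB : SpecYSB) {x y : α} {D C : Finset (Sym2 α)} (hb : Cub G b t₁ t₂ t₃)
    (h : Sub G b t₁ t₂ t₃ x y D C) {l : α → α → α → α → ZMod 2}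
    (hl : OffL (yd G b t₁ t₂ t₃) t₁ t₂ t₃ l) : cohs l C = cohs l D := by
  refine cohs_congr hl fun a a' c c' h1 h2 h3 h4 => ?_
  have k1 := yd_ne hb h1
  have k2 := yd_ne hb h2
  rw [h.eq]
  exact (hYSB.coh2 h.cy h.mem h.nb k1.1 k1.2 k2.1 k2.2 (fun e => h3 (e ▸ h.T))
    (fun e => h4 (e ▸ h.T))).symm

/-- the value of `LL` on a cycle -/
theorem LL_chi (hb : Cub G b t₁ t₂ t₃) (hn : NTE G t₁ t₂ t₃) {C : Finset (Sym2 α)}
    (hC : IsCyc G C) {c : Chain α} (h1 : ∀ e, b ∈ e → c e = 0)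
    (h2 : ∀ e, b ∉ e → e ∉ TrE t₁ t₂ t₃ → c e = chi C e) (h3 : c s(t₁, t₂) = 0)
    (h4 : c s(t₁, t₃) = chi C s(b, t₁)) (h5 : c s(t₂, t₃) = chi C s(b, t₂)) :
    LL b t₁ t₂ t₃ (chi C) = c := by
  obtain ⟨n1, n2, n3⟩ := T_ne hb
  have hT : ∀ e ∈ TrE t₁ t₂ t₃, chi C e = 0 := fun e he => chi_of_notMem (T_notMem hn hC he)
  funext e
  rw [LL_apply]
  by_cases hbe : b ∈ e
  · rw [if_pos hbe, h1 e hbe]
  · rw [if_neg hbe]
    by_cases he : e ∈ TrE t₁ t₂ t₃
    · rw [hT e he]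
      unfold TrE at he
      simp only [mem_insert, mem_singleton] at he
      rcases he with rfl | rfl | rfl
      · rw [if_neg n1, if_neg n2, h3]
        simp
      · rw [if_pos rfl, if_neg n3, h4]
        simp
      · rw [if_neg n3.symm, if_pos rfl, h5]
        simp
    · have m1 : e ≠ s(t₁, t₃) := by rintro rfl; exact he (by simp [TrE])
      have m2 : e ≠ s(t₂, t₃) := by rintro rfl; exact he (by simp [TrE])
      rw [if_neg m1, if_neg m2, h2 e hbe he]
      simp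

end yd

/-- all coefficients of an edge -/
theorem tch_cohs (a a' : α) (m : α → α → ZMod 2) (C : Finset (Sym2 α)) :
    tch a a' m C = ∑ x, ∑ y, ∑ c, ∑ d, (if x = a ∧ y = a' then m c d else 0) * coh x y c d C := by
  rw [sum_eq_single a, sum_eq_single a']
  · simp [tch]
  · intro y _ hy
    exact sum_eq_zero fun v _ => sum_eq_zero fun w _ => by simp [hy]
  · simp
  · intro x _ hx
    exact sum_eq_zero fun y _ => sum_eq_zero fun v _ => sum_eq_zero fun w _ => by simp [hx]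
  · simp

end YFUM

open YFUM in
theorem specYFU (hYTC : SpecYTC) (hYSB : SpecYSB) (hPOL : SpecPOL) : SpecYFU := by
  intro α _ _ G b t₁ t₂ t₃ f p m₁ m₂ m₃ l s ν hb hn hp hp0 hm1 hm2 hm3 hl hs hν hF hPsi
  have bne := b_ne hb
  have hX : ∀ e : Sym2 α, DegLE 1 (fun c : Chain α => c e) := fun e => hPOL.ofAdd fun a b => rfl
  have hlnf : ∀ m : α → α → ZMod 2, DegLE 1 (fun c : Chain α => lnf m c) := fun m =>
    hPOL.ofAdd fun a b => by
      unfold lnf
      simp only [Pi.add_apply, mul_add, sum_add_distrib]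
  set P : Chain α → ZMod 2 := fun c => p (LL b t₁ t₂ t₃ c) + (c s(b, t₁) * lnf m₂ c +
    (c s(b, t₁) * (∑ v, ∑ w, s v w * (c s(t₃, v) * c s(t₃, w))) +
      c s(b, t₁) * (c s(b, t₃) * ∑ v, s v v * c s(t₃, v)))) with hP
  have hPd : DegLE 3 P := by
    refine hPOL.add (hPOL.comp _ hp) (hPOL.add ?_ (hPOL.add ?_ ?_))
    · exact hPOL.mono (by norm_num) (hPOL.mul (hX _) (hlnf m₂))
    · refine hPOL.mono (d := 1 + 2) (by norm_num) (hPOL.mul (hX _) ?_)
      refine hPOL.sum _ _ fun v _ => hPOL.sum _ _ fun w _ => ?_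
      exact hPOL.mono (d := 0 + (1 + 1)) (by norm_num)
        (hPOL.mul (hPOL.const 0 (s v w)) (hPOL.mul (hX _) (hX _)))
    · refine hPOL.mono (d := 1 + (1 + 1)) (by norm_num) (hPOL.mul (hX _) (hPOL.mul (hX _) ?_))
      refine hPOL.sum _ _ fun v _ => ?_
      exact hPOL.mono (d := 0 + 1) (by norm_num) (hPOL.mul (hPOL.const 0 (s v v)) (hX _))
  have hP0 : P 0 = 0 := by
    rw [hP]
    show p (LL b t₁ t₂ t₃ 0) + _ = 0
    rw [map_zero, hp0]
    simp
  set ν' : α → α → ZMod 2 := fun u v => if u = t₃ then ν v else 0 with hν'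
  have hν'T : ∀ (a a' : α) (C : Finset (Sym2 α)), tch a a' ν' C = ∑ v, ν v * coh a a' t₃ v C := by
    intro a a' C
    unfold tch
    rw [sum_eq_single t₃]
    · simp [hν']
    · intro u _ hu
      exact sum_eq_zero fun v _ => by simp [hν', hu]
    · simp
  refine ⟨P, hPd, hP0, fun x y c d => l x y c d + ((if x = b ∧ y = t₁ then (m₂ + ν') c d else 0) +
    (if x = b ∧ y = t₂ then m₁ c d else 0)), fun C hC => ?_⟩
  have hR : ∑ x, ∑ y, ∑ c, ∑ d, (l x y c d + ((if x = b ∧ y = t₁ then (m₂ + ν') c d else 0) +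
      (if x = b ∧ y = t₂ then m₁ c d else 0))) * coh x y c d C =
      cohs l C + (tch b t₁ (m₂ + ν') C + tch b t₂ m₁ C) := by
    simp only [add_mul, sum_add_distrib]
    rw [tch_cohs, tch_cohs]
    rfl
  rw [hR]
  obtain ⟨D, hD, hDC, hcase⟩ := hYTC.onto hb hn hC
  have hf : f C = TNF t₁ t₂ t₃ p m₁ m₂ m₃ l D := by rw [← hDC]; exact hF D hD
  rw [hf]
  have T12 : s(t₁, t₂) ∈ TrE t₁ t₂ t₃ := by simp [TrE]
  have T13 : s(t₁, t₃) ∈ TrE t₁ t₂ t₃ := by simp [TrE]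
  have T23 : s(t₂, t₃) ∈ TrE t₁ t₂ t₃ := by simp [TrE]
  have hbD : b ∉ vs D → ∀ e, b ∈ e → chi D e = 0 := by
    intro h e he
    refine chi_of_notMem fun hD => h (mem_vs.2 ⟨e, hD, he⟩)
  have hTD : ∀ {e₀ : Sym2 α}, D ∩ TrE t₁ t₂ t₃ = {e₀} → ∀ e ∈ TrE t₁ t₂ t₃, e ∈ D ↔ e = e₀ := by
    intro e₀ h e he
    have : e ∈ D ∩ TrE t₁ t₂ t₃ ↔ e = e₀ := by rw [h, mem_singleton]
    rw [mem_inter] at this
    tauto
  obtain ⟨n1, n2, n3⟩ := T_ne hb
  -- edges at t₃ with nonzero coefficient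
  have hsM : ∀ v w, s v w ≠ 0 → ((yd G b t₁ t₂ t₃).Adj t₃ v ∧ s(t₃, v) ∉ TrE t₁ t₂ t₃) ∧
      ((yd G b t₁ t₂ t₃).Adj t₃ w ∧ s(t₃, w) ∉ TrE t₁ t₂ t₃) := by
    have key : ∀ v, v ≠ t₁ → v ≠ t₂ → (yd G b t₁ t₂ t₃).Adj t₃ v → s(t₃, v) ∉ TrE t₁ t₂ t₃ :=
      fun v h1 h2 h3 => off3 h1 h2 h3.ne'
    intro v w h
    obtain ⟨h1, h2, h3, h4, h5, h6⟩ := hs v w h
    exact ⟨⟨h1, key v h3 h4 h1⟩, h2, key w h5 h6 h2⟩
  have hν'off : OffT (yd G b t₁ t₂ t₃) t₁ t₂ t₃ ν' := by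
    intro u v huv
    have huv' : (if u = t₃ then ν v else 0) ≠ 0 := huv
    clear huv
    by_cases hu : u = t₃
    · subst hu
      rw [if_pos rfl] at huv'
      obtain ⟨h1, h2, h3⟩ := hν v huv'
      exact ⟨h1, off3 h2 h3 h1.ne'⟩
    · rw [if_neg hu] at huv'
      exact absurd rfl huv'
  rw [tch_add]
  unfold TNF
  rcases hcase with ⟨hbC, rfl⟩ | ⟨c1, c2, c3, hbD', hT, hCe⟩ | ⟨c1, c2, c3, hbD', hT, hCe⟩ |
    ⟨c1, c2, c3, hbD', hT, hCe⟩
  · -- `b` not on `C`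
    have hx : ∀ v, s(b, v) ∉ D := fun v h => hbC (left_mem_vs h)
    have hL : LL b t₁ t₂ t₃ (chi D) = chi D := by
      refine LL_chi hb hn hC (hbD hbC) (fun e _ _ => rfl) ?_ ?_ ?_
      · exact chi_of_notMem (T_notMem hn hC T12)
      · rw [chi_of_notMem (T_notMem hn hC T13), chi_of_notMem (hx t₁)]
      · rw [chi_of_notMem (T_notMem hn hC T23), chi_of_notMem (hx t₂)]
    rw [tch_zero_of (a := t₂) (a' := t₁) (by rw [Sym2.eq_swap]; exact T_notMem hn hC T12),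
      tch_zero_of (a := t₁) (a' := t₃) (T_notMem hn hC T13),
      tch_zero_of (a := t₃) (a' := t₂) (by rw [Sym2.eq_swap]; exact T_notMem hn hC T23),
      tch_zero_of (hx t₁), tch_zero_of (hx t₁), tch_zero_of (hx t₂)]
    show _ = p (LL b t₁ t₂ t₃ (chi D)) + (chi D s(b, t₁) * lnf m₂ (chi D) +
      (chi D s(b, t₁) * _ + chi D s(b, t₁) * _)) + _
    rw [hL, chi_of_notMem (hx t₁)]
    ring
  · -- `bt₁, bt₂`
    have hsub : Sub G b t₁ t₂ t₃ t₁ t₂ D C :=
      ⟨hD, ((hTD hT _ T12).2 rfl), T12, hbD', hCe⟩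
    have hsub' : Sub G b t₁ t₂ t₃ t₂ t₁ D C := by
      refine ⟨hD, ?_, ?_, hbD', ?_⟩
      · rw [Sym2.eq_swap]; exact hsub.mem
      · rw [Sym2.eq_swap]; exact T12
      · rw [hCe, Sym2.eq_swap (a := t₂) (b := t₁), Finset.insert_comm]
    have d13 : s(t₁, t₃) ∉ D := fun h => n1 ((hTD hT _ T13).1 h).symm
    have d23 : s(t₂, t₃) ∉ D := fun h => n2 ((hTD hT _ T23).1 h).symm
    have hL : LL b t₁ t₂ t₃ (chi C) = chi D + chi (TrE t₁ t₂ t₃) := by
      refine LL_chi hb hn hC ?_ ?_ ?_ ?_ ?_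
      · intro e he
        rw [Pi.add_apply, hbD hbD' e he, chi_of_notMem fun h => notMem_T hb h he, add_zero]
      · intro e h1 h2
        rw [Pi.add_apply, chi_of_notMem h2, add_zero]
        exact (hsub.chiM h1 h2).symm
      · rw [Pi.add_apply, chi_of_mem T12, chi_of_mem hsub.mem]
        decide
      · rw [Pi.add_apply, chi_of_mem T13, chi_of_notMem d13, chi_of_mem c1, zero_add]
      · rw [Pi.add_apply, chi_of_mem T23, chi_of_notMem d23, chi_of_mem c2, zero_add]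
    have e1 : tch b t₁ m₂ C = tch t₂ t₁ m₂ D :=
      tch_congr hm2 fun u v h1 h2 => hsub.coh1 hYSB hb h1 h2
    have e2 : tch b t₁ ν' C = tch t₂ t₁ ν' D :=
      tch_congr hν'off fun u v h1 h2 => hsub.coh1 hYSB hb h1 h2
    have e3 : tch b t₂ m₁ C = tch t₁ t₂ m₁ D :=
      tch_congr hm1 fun u v h1 h2 => hsub'.coh1 hYSB hb h1 h2
    have e4 : tch t₁ t₂ m₁ D = lnf m₁ (chi D) + tch t₂ t₁ m₁ D := tch_swap hm1 T12 hD hsub.mem
    have e5 : lnf m₂ (chi C) = lnf m₂ (chi D) :=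
      lnf_congr hm2 fun u v h1 h2 => hsub.chiE hb h1 h2
    have e6 : ∑ v, ∑ w, s v w * (chi C s(t₃, v) * chi C s(t₃, w)) =
        ∑ v, ∑ w, s v w * (chi D s(t₃, v) * chi D s(t₃, w)) := by
      refine sum_congr rfl fun v _ => sum_congr rfl fun w _ => ?_
      by_cases h0 : s v w = 0
      · rw [h0, zero_mul, zero_mul]
      · obtain ⟨⟨h1, h2⟩, h3, h4⟩ := hsM v w h0
        rw [hsub.chiE hb h1 h2, hsub.chiE hb h3 h4]
    have e7 := hPsi D hD hsub.mem d13 d23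
    unfold Psi loc3 at e7
    rw [chi_of_mem hsub.mem, chi_of_notMem d13, chi_of_notMem d23, ← hν'T, lnf_add, tch_add,
      tch_add] at e7
    rw [tch_zero_of (a := t₁) (a' := t₃) d13,
      tch_zero_of (a := t₃) (a' := t₂) (by rw [Sym2.eq_swap]; exact d23), e1, e2, e3, e4,
      hsub.cohs hYSB hb hl]
    show _ = p (LL b t₁ t₂ t₃ (chi C)) + (chi C s(b, t₁) * lnf m₂ (chi C) +
      (chi C s(b, t₁) * (∑ v, ∑ w, s v w * (chi C s(t₃, v) * chi C s(t₃, w))) +
        chi C s(b, t₁) * (chi C s(b, t₃) * _))) + _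
    rw [hL, chi_of_mem c1, chi_of_notMem c3, e5, e6]
    have w : ∀ A B M1 M2 M3 S N K X1 X2 : ZMod 2,
        1 * (A + B + (X1 + X2)) + (M1 + M2 + M3) + 1 * 0 * X2 + 1 * 0 * X1 +
          p (chi (TrE t₁ t₂ t₃)) * (1 * 0 * 0) = S + N →
        B + M3 + 0 + 0 + K = A + (1 * X2 + (1 * S + 1 * (0 * ∑ v, s v v * chi C s(t₃, v)))) +
          (K + (M2 + N + (X1 + M1))) := by
      intro A B M1 M2 M3 S N K X1 X2 h
      linear_combination h - z2 A - z2 X2 - z2 M2 - z2 X1 - z2 M1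
    exact w _ _ _ _ _ _ _ _ _ _ e7
  · -- `bt₁, bt₃`
    have hsub : Sub G b t₁ t₂ t₃ t₁ t₃ D C :=
      ⟨hD, ((hTD hT _ T13).2 rfl), T13, hbD', hCe⟩
    have d12 : s(t₁, t₂) ∉ D := fun h => n1 ((hTD hT _ T12).1 h)
    have d23 : s(t₂, t₃) ∉ D := fun h => n3 ((hTD hT _ T23).1 h).symm
    have hL : LL b t₁ t₂ t₃ (chi C) = chi D := by
      refine LL_chi hb hn hC (hbD hbD') (fun e h1 h2 => (hsub.chiM h1 h2).symm) ?_ ?_ ?_
      · exact chi_of_notMem d12
      · rw [chi_of_mem hsub.mem, chi_of_mem c1]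
      · rw [chi_of_notMem d23, chi_of_notMem c2]
    have e1 : tch b t₁ m₂ C = tch t₃ t₁ m₂ D :=
      tch_congr hm2 fun u v h1 h2 => hsub.coh1 hYSB hb h1 h2
    have e2 : tch b t₁ ν' C = 0 := by
      rw [hν'T]
      refine sum_eq_zero fun v _ => ?_
      by_cases h0 : ν v = 0
      · rw [h0, zero_mul]
      · obtain ⟨h1, h2, h3⟩ := hν v h0
        have h4 := (hν'off t₃ v (by rw [hν']; simpa using h0)).2
        rw [hsub.coh1 hYSB hb h1 h4, hD.coh_share_start h2.symm, mul_zero]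
    have e4 : tch t₁ t₃ m₂ D = lnf m₂ (chi D) + tch t₃ t₁ m₂ D := tch_swap hm2 T13 hD hsub.mem
    have e5 : lnf m₂ (chi C) = lnf m₂ (chi D) :=
      lnf_congr hm2 fun u v h1 h2 => hsub.chiE hb h1 h2
    have e6 : ∑ v, ∑ w, s v w * (chi C s(t₃, v) * chi C s(t₃, w)) =
        ∑ v, s v v * chi C s(t₃, v) := by
      refine sum_congr rfl fun v _ => ?_
      rw [sum_eq_single v]
      · have : ∀ x : ZMod 2, x * x = x := by decide
        rw [this]
      · intro w _ hwv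
        by_cases h0 : s v w = 0
        · rw [h0, zero_mul]
        · obtain ⟨⟨h1, h2⟩, h3, h4⟩ := hsM v w h0
          by_cases hv : s(t₃, v) ∈ C
          · by_cases hw : s(t₃, w) ∈ C
            · exfalso
              have hb3 : s(t₃, b) ∈ C := by rw [Sym2.eq_swap]; exact c3
              rcases hC.eq_or_eq hv hw hwv.symm hb3 with h | h
              · exact (yd_ne hb h1).2 h.symm
              · exact (yd_ne hb h3).2 h.symm
            · rw [chi_of_notMem hw, mul_zero, mul_zero]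
          · rw [chi_of_notMem hv, zero_mul, mul_zero]
      · simp
    rw [tch_zero_of (a := t₂) (a' := t₁) (by rw [Sym2.eq_swap]; exact d12),
      tch_zero_of (a := t₃) (a' := t₂) (by rw [Sym2.eq_swap]; exact d23),
      tch_zero_of c2, e1, e2, e4, hsub.cohs hYSB hb hl]
    show _ = p (LL b t₁ t₂ t₃ (chi C)) + (chi C s(b, t₁) * lnf m₂ (chi C) +
      (chi C s(b, t₁) * (∑ v, ∑ w, s v w * (chi C s(t₃, v) * chi C s(t₃, w))) +
        chi C s(b, t₁) * (chi C s(b, t₃) * ∑ v, s v v * chi C s(t₃, v)))) + _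
    rw [hL, chi_of_mem c1, chi_of_mem c3, e5, e6]
    linear_combination (-1 : ZMod 2) * z2 (∑ v, s v v * chi C s(t₃, v))
  · -- `bt₂, bt₃`
    have hsub : Sub G b t₁ t₂ t₃ t₂ t₃ D C :=
      ⟨hD, ((hTD hT _ T23).2 rfl), T23, hbD', hCe⟩
    have d12 : s(t₁, t₂) ∉ D := fun h => n2 ((hTD hT _ T12).1 h)
    have d13 : s(t₁, t₃) ∉ D := fun h => n3 ((hTD hT _ T13).1 h)
    have hL : LL b t₁ t₂ t₃ (chi C) = chi D := by
      refine LL_chi hb hn hC (hbD hbD') (fun e h1 h2 => (hsub.chiM h1 h2).symm) ?_ ?_ ?_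
      · exact chi_of_notMem d12
      · rw [chi_of_notMem d13, chi_of_notMem c1]
      · rw [chi_of_mem hsub.mem, chi_of_mem c2]
    have e1 : tch b t₂ m₁ C = tch t₃ t₂ m₁ D :=
      tch_congr hm1 fun u v h1 h2 => hsub.coh1 hYSB hb h1 h2
    rw [tch_zero_of (a := t₂) (a' := t₁) (by rw [Sym2.eq_swap]; exact d12),
      tch_zero_of (a := t₁) (a' := t₃) d13, tch_zero_of c1, tch_zero_of c1, e1,
      hsub.cohs hYSB hb hl]
    show _ = p (LL b t₁ t₂ t₃ (chi C)) + (chi C s(b, t₁) * lnf m₂ (chi C) +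
      (chi C s(b, t₁) * _ + chi C s(b, t₁) * _)) + _
    rw [hL, chi_of_notMem c1]
    ring

end DL
end

section
/-!
# YKC: 3-bead chains kill the functions all of whose terms contain `t₁t₂`
-/
open SimpleGraph Finset

namespace DL

namespace YKCM

variable {α : Type} [Fintype α] [DecidableEq α]

theorem val {R : SimpleGraph α} {t₁ t₂ t₃ : α} {ψ : Finset (Sym2 α) → ZMod 2}
    {q : Chain α → ZMod 2} {μ : α → α → ZMod 2} (hT : Trg R t₁ t₂ t₃) (hμ : OffT R t₁ t₂ t₃ μ)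
    (hψ : ∀ C, IsCyc R C → ψ C = chi C s(t₁, t₂) * q (chi C) + tch t₂ t₁ μ C)
    {P : Finset (Sym2 α)} (hP : IsPth (delE R t₁ t₂) t₁ t₂ P) :
    ψ (insert s(t₁, t₂) P) = q (chi P + chi {s(t₁, t₂)}) + ∑ u, ∑ v, μ u v * dirn t₁ u v P := by
  have h12 : s(t₁, t₂) ∈ TrE t₁ t₂ t₃ := by simp [TrE]
  obtain ⟨hPR, hnot⟩ := isPth_delE.1 hP
  have hC := hPR.isCyc hT.1 hnot
  rw [hψ _ hC]
  have e1 : chi (insert s(t₁, t₂) P) s(t₁, t₂) = 1 := chi_of_mem (mem_insert_self _ _)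
  have e2 : chi (insert s(t₁, t₂) P) = chi P + chi {s(t₁, t₂)} := by
    rw [chi_insert hnot, add_comm]
  have e3 : tch t₂ t₁ μ (insert s(t₁, t₂) P) = ∑ u, ∑ v, μ u v * dirn t₁ u v P := by
    unfold tch
    refine sum_congr rfl fun u _ => sum_congr rfl fun v _ => ?_
    by_cases h0 : μ u v = 0
    · rw [h0, zero_mul, zero_mul]
    · have h3 := (hμ u v h0).2
      have h4 : s(u, v) ≠ s(t₂, t₁) := by
        intro h5
        rw [h5, Sym2.eq_swap] at h3
        exact h3 h12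
      have h6 : s(t₁, t₂) = s(t₂, t₁) := Sym2.eq_swap
      rw [h6] at hnot ⊢
      rw [coh_insert hnot h4]
  rw [e1, one_mul, e2, e3]

theorem val' {R : SimpleGraph α} {t₁ t₂ t₃ : α} {ψ : Finset (Sym2 α) → ZMod 2}
    {q : Chain α → ZMod 2} {μ : α → α → ZMod 2} (hT : Trg R t₁ t₂ t₃) (hμ : OffT R t₁ t₂ t₃ μ)
    (hψ : ∀ C, IsCyc R C → ψ C = chi C s(t₁, t₂) * q (chi C) + tch t₂ t₁ μ C)
    {P : Finset (Sym2 α)} (hP : IsPth (delE R t₂ t₁) t₂ t₁ P) :
    ψ (insert s(t₂, t₁) P) = q (chi P + chi {s(t₁, t₂)}) + ∑ u, ∑ v, μ u v * dirn t₂ v u P := by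
  have h12 : s(t₁, t₂) ∈ TrE t₁ t₂ t₃ := by simp [TrE]
  obtain ⟨hPR, hnot⟩ := isPth_delE.1 hP
  have hC := hPR.isCyc hT.1.symm hnot
  have h6 : s(t₂, t₁) = s(t₁, t₂) := Sym2.eq_swap
  rw [h6] at hnot hC ⊢
  rw [hψ _ hC]
  have e1 : chi (insert s(t₁, t₂) P) s(t₁, t₂) = 1 := chi_of_mem (mem_insert_self _ _)
  have e2 : chi (insert s(t₁, t₂) P) = chi P + chi {s(t₁, t₂)} := by
    rw [chi_insert hnot, add_comm]
  have e3 : tch t₂ t₁ μ (insert s(t₁, t₂) P) = ∑ u, ∑ v, μ u v * dirn t₂ v u P := by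
    unfold tch
    refine sum_congr rfl fun u _ => sum_congr rfl fun v _ => ?_
    by_cases h0 : μ u v = 0
    · rw [h0, zero_mul, zero_mul]
    · have h3 := (hμ u v h0).2
      have h4 : s(v, u) ≠ s(t₁, t₂) := by
        intro h5
        rw [Sym2.eq_swap, h5] at h3
        exact h3 h12
      rw [← hC.coh_reverse t₂ t₁ u v, coh_insert hnot h4]
  rw [e1, one_mul, e2, e3]

theorem sum0 {ι : Type} [Fintype ι] {ψ : Finset (Sym2 α) → ZMod 2} {x : Sym2 α}
    {q : Chain α → ZMod 2} {c : Chain α} {μ : α → α → ZMod 2} (P : ι → Finset (Sym2 α))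
    (D : α → α → Finset (Sym2 α) → ZMod 2)
    (hval : ∀ e, ψ (insert x (P e)) = q (chi (P e) + c) + ∑ u, ∑ v, μ u v * D u v (P e))
    (h1 : ∑ e, q (chi (P e) + c) = 0) (h2 : ∀ u v, ∑ e, D u v (P e) = 0) :
    ∑ e, ψ (insert x (P e)) = 0 := by
  rw [sum_congr rfl fun e _ => hval e, sum_add_distrib, h1, zero_add, sum_comm]
  refine sum_eq_zero fun u _ => ?_
  rw [sum_comm]
  refine sum_eq_zero fun v _ => ?_
  rw [← mul_sum, h2 u v, mul_zero]

end YKCM

theorem specYKC (hYC3 : SpecYC3) : SpecYKC := by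
  intro α _ _ R t₁ t₂ t₃ ψ q μ hT hq hμ hψ
  refine ⟨fun K _ _ => ?_, fun K _ _ => ?_⟩
  · exact YKCM.sum0 (fun e => K.pth e) (fun u v P => dirn t₁ u v P)
      (fun e => YKCM.val hT hμ hψ (hYC3.pth K e).1) (hYC3.pol K q _ hq)
      (fun u v => hYC3.adn K u v)
  · exact YKCM.sum0 (fun e => K.pth e) (fun u v P => dirn t₂ v u P)
      (fun e => YKCM.val' hT hμ hψ (hYC3.pth K e).1) (hYC3.pol K q _ hq)
      (fun u v => hYC3.adn K v u)

end DL
end

section
/-!
# MP_3ff0f8_gt, STEP Y, part U, module YKT (helper43): adding an edge of the triangle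
-/
open SimpleGraph Finset

namespace DL

namespace YKTM

theorem adj_of_cub {α : Type} {G : SimpleGraph α} {b t₁ t₂ t₃ : α} (h : Cub G b t₁ t₂ t₃) :
    G.Adj b t₁ ∧ G.Adj b t₂ ∧ G.Adj b t₃ :=
  ⟨(h.nb _).2 (Or.inl rfl), (h.nb _).2 (Or.inr (Or.inl rfl)), (h.nb _).2 (Or.inr (Or.inr rfl))⟩

variable {α : Type} [Fintype α] [DecidableEq α]

/-- a vertex of degree at least four has more than three neighbours -/
theorem no3 {G : SimpleGraph α} {v p q w : α} (hd : 4 ≤ dg G v)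
    (h : ∀ x, G.Adj v x ↔ x = p ∨ x = q ∨ x = w) : False := by
  have h1 : NB G {v} ⊆ {p, q, w} := by
    intro x hx
    have hx' : x ∉ ({v} : Finset α) ∧ ∃ a ∈ ({v} : Finset α), G.Adj a x := by
      simpa only [NB, mem_filter, mem_univ, true_and] using hx
    obtain ⟨-, a, ha, hax⟩ := hx'
    rw [mem_singleton] at ha
    subst ha
    rcases (h x).1 hax with h | h | h <;> simp [h]
  have h2 := card_le_card h1
  have h3 : ({p, q, w} : Finset α).card ≤ 3 := card_le_three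
  unfold dg at hd
  omega

theorem s3s (hC1L : SpecC1L) {R : SimpleGraph α} (hC : C1 R) (h7 : 7 ≤ (VS R).card) {v w : α}
    (hv : 4 ≤ dg R v) (hw : 4 ≤ dg R w) (hvw : R.Adj v w) : S3S (delE R v w) :=
  hC1L R v w hC h7 hvw (fun _ _ h => (no3 hv h).elim) (fun _ _ h => (no3 hw h).elim)

end YKTM

open YKTM in
/-- **YKT** -/
theorem specYKT (hYEQ : SpecYEQ) (hKCD : SpecKCD) (hC1L : SpecC1L) : SpecYKT := by
  intro α _ _ G b t₁ t₂ t₃ hc h12 hC1 h7 hd1 hd2 hd3 hKR hKE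
  obtain ⟨hb1, hb2, hb3⟩ := adj_of_cub hc
  have hctr := hYEQ.ctr hc h12
  obtain ⟨R12, R13, R23⟩ := hYEQ.tri hc
  refine hKCD (G := G) (a := t₃) (b := b) (c := t₁) (d := t₂) hb3.symm h12 hc.n13.symm hc.n23.symm
    hb1.ne hb2.ne ?_ ?_ ?_ hKE ?_ ?_ ?_ ?_
  · rw [hctr]
    exact hC1.1
  · rw [hctr]
    exact hKR
  · intro x hx3 hxb
    rw [hctr]
    rcases (hc.nb x).1 hxb with rfl | rfl | rfl
    · exact s3s hC1L hC1 h7 hd3 hd1 R13.symm
    · exact s3s hC1L hC1 h7 hd3 hd2 R23.symm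
    · exact absurd rfl hx3.ne
  · rw [hctr]
    exact s3s hC1L hC1 h7 hd1 hd2 R12
  · rw [hctr]
    refine left_mem_VS (b := t₃) (delE_adj.2 ⟨R13, ?_⟩)
    intro h
    rw [Sym2.eq_iff] at h
    rcases h with ⟨-, h⟩ | ⟨h, -⟩
    · exact hc.n23 h.symm
    · exact hc.n12 h
  · rw [hctr]
    refine left_mem_VS (b := t₃) (delE_adj.2 ⟨R23, ?_⟩)
    intro h
    rw [Sym2.eq_iff] at h
    rcases h with ⟨h, -⟩ | ⟨-, h⟩
    · exact hc.n12 h.symm
    · exact hc.n13 h.symm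
  · intro x hx3 hxb hx1 hx2
    rcases (hc.nb x).1 hxb with rfl | rfl | rfl
    · exact absurd rfl hx1
    · exact absurd rfl hx2
    · exact absurd rfl hx3.ne

end DL
end
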