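import Pool.Agent.DL.Y.YKT
import Pool.Agent.DL.EX.SEF
import Pool.Agent.DL.K.KY3

/-!
# Step Y, module YKZ (helper65): `KZ R → KZ G`
-/

set_option linter.unusedSectionVars false

open SimpleGraph Finset

namespace DL

namespace YKZM

open YCTM

variable {α : Type} [Fintype α] [DecidableEq α]

/-- one coefficient -/
def sgl (a a' c c' : α) (r : ZMod 2) : α → α → α → α → ZMod 2 := fun x y u v =>
  if x = a ∧ y = a' ∧ u = c ∧ v = c' then r else 0

theorem sum_sgl (g : α → α → α → α → ZMod 2) (a a' c c' : α) (r : ZMod 2) :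
    ∑ x, ∑ y, ∑ u, ∑ v, sgl a a' c c' r x y u v * g x y u v = r * g a a' c c' := by
  rw [Finset.sum_eq_single a, Finset.sum_eq_single a', Finset.sum_eq_single c,
    Finset.sum_eq_single c']
  · simp [sgl]
  · intro v _ hv
    simp [sgl, hv]
  · simp
  · intro u _ hu
    exact Finset.sum_eq_zero fun v _ => by simp [sgl, hu]
  · simp
  · intro y _ hy
    exact Finset.sum_eq_zero fun u _ => Finset.sum_eq_zero fun v _ => by simp [sgl, hy]
  · simp
  · intro x _ hx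
    exact Finset.sum_eq_zero fun y _ => Finset.sum_eq_zero fun u _ => Finset.sum_eq_zero fun v _ => by
      simp [sgl, hx]
  · simp

theorem cohs_sgl (a a' c c' : α) (r : ZMod 2) (C : Finset (Sym2 α)) :
    cohs (sgl a a' c c' r) C = r * coh a a' c c' C := sum_sgl _ a a' c c' r

theorem pair2_sgl (a a' c c' : α) (r : ZMod 2) (z : Sym2 α → Sym2 α → ZMod 2) :
    pair2 (sgl a a' c c' r) z = r * z s(a, a') s(c, c') :=
  sum_sgl (fun x y u v => z s(x, y) s(u, v)) a a' c c' r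

theorem cohs_zero (C : Finset (Sym2 α)) : cohs (fun _ _ _ _ => 0) C = 0 := by
  simp [cohs]

theorem pair2_zero (z : Sym2 α → Sym2 α → ZMod 2) : pair2 (fun _ _ _ _ => 0) z = 0 := by
  simp [pair2]

/-- the coefficients `l` on `G` have a counterpart on `R` -/
def Good (R : SimpleGraph α) (T : Finset (Sym2 α)) (τ : Finset (Sym2 α) → Finset (Sym2 α))
    (z w : Sym2 α → Sym2 α → ZMod 2) (l : α → α → α → α → ZMod 2) : Prop :=
  ∃ (l' : α → α → α → α → ZMod 2) (q : Chain α → ZMod 2), DegLE 3 q ∧ q 0 = 0 ∧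
    (∀ D, IsCyc R D → D ≠ T → cohs l (τ D) = cohs l' D + q (chi D)) ∧ pair2 l z = pair2 l' w

variable {R : SimpleGraph α} {T : Finset (Sym2 α)} {τ : Finset (Sym2 α) → Finset (Sym2 α)}
  {z w : Sym2 α → Sym2 α → ZMod 2}

theorem Good.zero : Good R T τ z w (fun _ _ _ _ => 0) := by
  refine ⟨fun _ _ _ _ => 0, fun _ => 0, specPOL.zero 3, rfl, fun D _ _ => ?_, ?_⟩
  · rw [cohs_zero, cohs_zero, add_zero]
  · rw [pair2_zero, pair2_zero]

theorem Good.add {l₁ l₂ : α → α → α → α → ZMod 2} (h1 : Good R T τ z w l₁)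
    (h2 : Good R T τ z w l₂) : Good R T τ z w (fun a b c d => l₁ a b c d + l₂ a b c d) := by
  obtain ⟨l₁', q₁, a1, a2, a3, a4⟩ := h1
  obtain ⟨l₂', q₂, b1, b2, b3, b4⟩ := h2
  refine ⟨fun a b c d => l₁' a b c d + l₂' a b c d, fun c => q₁ c + q₂ c, specPOL.add a1 b1, ?_,
    fun D hD hDT => ?_, ?_⟩
  · simp only [a2, b2, add_zero]
  · rw [KURM.cohs_add, KURM.cohs_add, a3 D hD hDT, b3 D hD hDT]
    ring
  · rw [KURM.pair2_add_left, KURM.pair2_add_left, a4, b4]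

theorem Good.all (h : ∀ a a' c c', Good R T τ z w (sgl a a' c c' 1)) (l : α → α → α → α → ZMod 2) :
    Good R T τ z w l := by
  have hr : ∀ a a' c c' (r : ZMod 2), Good R T τ z w (sgl a a' c c' r) := by
    intro a a' c c' r
    rcases zmod2_cases r with rfl | rfl
    · have : (sgl a a' c c' 0 : α → α → α → α → ZMod 2) = fun _ _ _ _ => 0 := by
        funext x y u v
        simp [sgl]
      rw [this]
      exact Good.zero
    · exact h a a' c c'
  have e : l = ∑ i : α × α × α × α, sgl i.1 i.2.1 i.2.2.1 i.2.2.2 (l i.1 i.2.1 i.2.2.1 i.2.2.2) := by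
    funext x y u v
    rw [Finset.sum_apply, Finset.sum_apply, Finset.sum_apply, Finset.sum_apply,
      Finset.sum_eq_single (x, y, u, v)]
    · simp [sgl]
    · rintro ⟨a, a', c, c'⟩ _ hne
      unfold sgl
      rw [if_neg]
      rintro ⟨rfl, rfl, rfl, rfl⟩
      exact hne rfl
    · intro h
      exact absurd (Finset.mem_univ _) h
  rw [e]
  refine Finset.sum_induction _ (Good R T τ z w) (fun l₁ l₂ h1 h2 => Good.add h1 h2) ?_ ?_
  · exact Good.zero
  · exact fun i _ => hr _ _ _ _ _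

/-- the claim for one coherence function -/
def Cl (R : SimpleGraph α) (T : Finset (Sym2 α)) (τ : Finset (Sym2 α) → Finset (Sym2 α))
    (z w : Sym2 α → Sym2 α → ZMod 2) (a a' c c' : α) : Prop :=
  ∃ (l' : α → α → α → α → ZMod 2) (q : Chain α → ZMod 2), DegLE 3 q ∧ q 0 = 0 ∧
    (∀ D, IsCyc R D → D ≠ T → coh a a' c c' (τ D) = cohs l' D + q (chi D)) ∧
    z s(a, a') s(c, c') = pair2 l' w

theorem Cl.good {a a' c c' : α} (h : Cl R T τ z w a a' c c') : Good R T τ z w (sgl a a' c c' 1) := by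
  obtain ⟨l', q, h1, h2, h3, h4⟩ := h
  refine ⟨l', q, h1, h2, fun D hD hDT => ?_, ?_⟩
  · rw [cohs_sgl, one_mul, h3 D hD hDT]
  · rw [pair2_sgl, one_mul, h4]

theorem Cl.comm {G : SimpleGraph α} (hτ : ∀ D, IsCyc R D → D ≠ T → IsCyc G (τ D))
    (hz : ∀ e f, z e f = z f e) {a a' c c' : α} (h : Cl R T τ z w a a' c c') :
    Cl R T τ z w c c' a a' := by
  obtain ⟨l', q, h1, h2, h3, h4⟩ := h
  refine ⟨l', q, h1, h2, fun D hD hDT => ?_, ?_⟩
  · rw [(hτ D hD hDT).coh_comm, h3 D hD hDT]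
  · rw [hz, h4]

theorem Cl.rev {G : SimpleGraph α} (hτ : ∀ D, IsCyc R D → D ≠ T → IsCyc G (τ D))
    {a a' c c' : α} (h : Cl R T τ z w a a' c c') : Cl R T τ z w a' a c' c := by
  obtain ⟨l', q, h1, h2, h3, h4⟩ := h
  refine ⟨l', q, h1, h2, fun D hD hDT => ?_, ?_⟩
  · rw [(hτ D hD hDT).coh_reverse, h3 D hD hDT]
  · rw [Sym2.eq_swap, Sym2.eq_swap (a := c'), h4]

theorem coord (e : Sym2 α) : DegLE 1 (fun c : Chain α => c e) :=
  specPOL.ofAdd fun _ _ => rfl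

theorem Cl.zero {a a' c c' : α} (h : ∀ D, IsCyc R D → D ≠ T → coh a a' c c' (τ D) = 0)
    (hz : z s(a, a') s(c, c') = 0) : Cl R T τ z w a a' c c' := by
  refine ⟨fun _ _ _ _ => 0, fun _ => 0, specPOL.zero 3, rfl, fun D hD hDT => ?_, ?_⟩
  · rw [h D hD hDT, cohs_zero, add_zero]
  · rw [hz, pair2_zero]

/-- an edge at `b` and an M-edge -/
theorem Cl.bm {x y k b u v : α}
    (h : ∀ D, IsCyc R D → D ≠ T → coh b x u v (τ D) = coh y x u v D + coh k x u v D +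
      chi D s(x, y) * chi D s(x, k) * chi D s(u, v))
    (hz : z s(b, x) s(u, v) = w s(x, y) s(u, v) + w s(x, k) s(u, v)) : Cl R T τ z w b x u v := by
  refine ⟨fun a b c d => sgl y x u v 1 a b c d + sgl k x u v 1 a b c d,
    fun c => c s(x, y) * c s(x, k) * c s(u, v), ?_, ?_, fun D hD hDT => ?_, ?_⟩
  · exact specPOL.mul (specPOL.mul (coord _) (coord _)) (coord _)
  · simp
  · rw [KURM.cohs_add, cohs_sgl, cohs_sgl, one_mul, one_mul, h D hD hDT]
  · rw [KURM.pair2_add_left, pair2_sgl, pair2_sgl, one_mul, one_mul, hz, Sym2.eq_swap (a := x),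
      Sym2.eq_swap (a := x)]

end YKZM

open YCTM YKZM

theorem specYKZ (hYZS : SpecYZS) (hYCT : SpecYCT) (hYTC : SpecYTC) (hYEQ : SpecYEQ) : SpecYKZ := by
  intro α _ _ G b t₁ t₂ t₃ hC hN hcon hKR l hl z hz
  obtain ⟨w, hw, hA, hB, -⟩ := hYZS hC hN hcon hz
  obtain ⟨p, hp, hp0, hpl⟩ := hl
  have hT1 := ne_t hC
  have n12 := hC.n12
  have n13 := hC.n13
  have n23 := hC.n23
  obtain ⟨L, hL⟩ := hYTC.map b t₁ t₂ t₃ (by
    simp [hT1.1, hT1.2.1, hT1.2.2, n12, n13, n23])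
  have hτ : ∀ D, IsCyc (yd G b t₁ t₂ t₃) D → D ≠ TrE t₁ t₂ t₃ → IsCyc G (tauY b t₁ t₂ t₃ D) :=
    fun D hD hDT => hYTC.cyc hC hN hD hDT
  -- M-edges are not in the triangle
  have hMT : ∀ {u v : α}, G.Adj u v → s(u, v) ∉ TrE t₁ t₂ t₃ := by
    intro u v huv hmem
    rw [mem_TrE, Sym2.eq_iff, Sym2.eq_iff, Sym2.eq_iff] at hmem
    rcases hmem with (⟨rfl, rfl⟩ | ⟨rfl, rfl⟩) | (⟨rfl, rfl⟩ | ⟨rfl, rfl⟩) | (⟨rfl, rfl⟩ | ⟨rfl, rfl⟩)
    · exact hN.1 huv
    · exact hN.1 huv.symm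
    · exact hN.2.1 huv
    · exact hN.2.1 huv.symm
    · exact hN.2.2 huv
    · exact hN.2.2 huv.symm
  -- an edge at `b` and an M-edge
  have hbm : ∀ x u v : α, G.Adj b x → G.Adj u v → b ∉ s(u, v) →
      Cl (yd G b t₁ t₂ t₃) (TrE t₁ t₂ t₃) (tauY b t₁ t₂ t₃) z w b x u v := by
    intro x u v hbx huv hb
    have hT := hMT huv
    obtain ⟨A1, A2, A3⟩ := hA s(u, v) hb hT
    obtain ⟨P1, P2, P3, P4⟩ := hYEQ.perm G b t₁ t₂ t₃
    obtain ⟨C1', C2'⟩ := hYEQ.cperm hC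
    rcases (hC.nb x).1 hbx with rfl | rfl | rfl
    · exact Cl.bm (fun D hD hDT => hYCT.bm hC hN D hD hDT u v hb hT) A1
    · -- `(t₂, t₁, t₃)`
      have hN2 : NTE G x t₁ t₃ := ⟨fun h => hN.1 h.symm, hN.2.2, hN.2.1⟩
      refine Cl.bm (y := t₁) (k := t₃) (fun D hD hDT => ?_) ?_
      · have h1 := hYCT.bm C2' hN2 D (by rw [P2]; exact hD) (by rw [P4]; exact hDT) u v hb
          (by rw [P4]; exact hT)
        rw [(hYEQ.tperm b t₁ x t₃ D).2] at h1
        exact h1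
      · rw [A2, Sym2.eq_swap (a := t₁)]
    · -- `(t₃, t₁, t₂)`
      obtain ⟨Q1, Q2, Q3, Q4⟩ := hYEQ.perm G b t₁ x t₂
      obtain ⟨-, C3'⟩ := hYEQ.cperm C1'
      have hN3 : NTE G x t₁ t₂ := ⟨fun h => hN.2.1 h.symm, fun h => hN.2.2 h.symm, hN.1⟩
      refine Cl.bm (y := t₁) (k := t₂) (fun D hD hDT => ?_) ?_
      · have h1 := hYCT.bm C3' hN3 D (by rw [Q2, P1]; exact hD) (by rw [Q4, P3]; exact hDT) u v hb
          (by rw [Q4, P3]; exact hT)
        rw [(hYEQ.tperm b t₁ x t₂ D).2, (hYEQ.tperm b t₁ t₂ x D).1] at h1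
        exact h1
      · rw [A3, Sym2.eq_swap (a := t₁), Sym2.eq_swap (a := t₂)]
  -- an edge at `b`, in any orientation, and an M-edge
  have hbm' : ∀ a a' c c' : α, G.Adj a a' → b ∈ s(a, a') → G.Adj c c' → b ∉ s(c, c') →
      Cl (yd G b t₁ t₂ t₃) (TrE t₁ t₂ t₃) (tauY b t₁ t₂ t₃) z w a a' c c' := by
    intro a a' c c' haa hb hcc hbc
    rw [Sym2.mem_iff] at hb
    rcases hb with rfl | rfl
    · exact hbm a' c c' haa hcc hbc
    · exact (hbm a c' c haa.symm hcc.symm (by rw [Sym2.eq_swap]; exact hbc)).rev hτ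
  have hall : ∀ a a' c c' : α, Cl (yd G b t₁ t₂ t₃) (TrE t₁ t₂ t₃) (tauY b t₁ t₂ t₃) z w a a' c c' := by
    intro a a' c c'
    by_cases haa : G.Adj a a'
    swap
    · refine Cl.zero (fun D hD hDT => coh_eq_zero_left fun h => haa ((hτ D hD hDT).adj_of_mem h)) ?_
      by_contra h
      exact haa (hz.2.1 _ _ h).1
    by_cases hcc : G.Adj c c'
    swap
    · refine Cl.zero (fun D hD hDT => coh_eq_zero_right fun h => hcc ((hτ D hD hDT).adj_of_mem h)) ?_
      by_contra h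
      exact hcc (hz.2.1 _ _ h).2.1
    by_cases hba : b ∈ s(a, a') <;> by_cases hbc : b ∈ s(c, c')
    · have hz0 : z s(a, a') s(c, c') = 0 := by
        by_contra h
        exact (hz.2.1 _ _ h).2.2 b ⟨hba, hbc⟩
      rcases coh_share ⟨b, hba, hbc⟩ with h | h
      · exact Cl.zero (fun D hD hDT => h G _ (hτ D hD hDT)) hz0
      · refine ⟨fun _ _ _ _ => 0, fun x => L x s(a, a') * L x s(c, c'), ?_, ?_, fun D hD hDT => ?_, ?_⟩
        · exact specPOL.mono (show 1 + 1 ≤ 3 by norm_num)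
            (specPOL.comp L (specPOL.mul (coord s(a, a')) (coord s(c, c'))))
        · simp
        · rw [h G _ (hτ D hD hDT), cohs_zero, zero_add, hL D (b_notMem hC hD)]
        · rw [hz0, pair2_zero]
    · exact hbm' a a' c c' haa hba hcc hbc
    · exact (hbm' c c' a a' hcc hbc haa hba).comm hτ hz.1
    · refine ⟨sgl a a' c c' 1, fun _ => 0, specPOL.zero 3, rfl, fun D hD hDT => ?_, ?_⟩
      · rw [cohs_sgl, one_mul, add_zero]
        exact hYCT.mm hC hN D hD hDT a a' c c' hba hbc (hMT haa) (hMT hcc)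
      · rw [pair2_sgl, one_mul]
        exact hB _ _ hba hbc (hMT haa) (hMT hcc)
  obtain ⟨l', q, hq, hq0, hql, hlz⟩ := Good.all (fun a a' c c' => (hall a a' c c').good) l
  have hlz' : ∑ a, ∑ b, ∑ c, ∑ d, l a b c d * z s(a, b) s(c, d) =
      ∑ a, ∑ b, ∑ c, ∑ d, l' a b c d * w s(a, b) s(c, d) := hlz
  rw [hlz']
  refine hKR l' ?_ w hw
  -- the cubic function on the cycles of `R`
  have hcoh : ∀ D, IsCyc (yd G b t₁ t₂ t₃) D → D ≠ TrE t₁ t₂ t₃ →
      cohs l' D = p (L (chi D)) + q (chi D) := by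
    intro D hD hDT
    have h1 := hql D hD hDT
    have h2 : cohs l (tauY b t₁ t₂ t₃ D) = p (chi (tauY b t₁ t₂ t₃ D)) := hpl _ (hτ D hD hDT)
    rw [h2, hL D (b_notMem hC hD)] at h1
    rw [h1, add_assoc, zmod2_add_self, add_zero]
  obtain ⟨κ, hκ⟩ : ∃ κ : ZMod 2, κ = cohs l' (TrE t₁ t₂ t₃) + (p (L (chi (TrE t₁ t₂ t₃))) +
    q (chi (TrE t₁ t₂ t₃))) := ⟨_, rfl⟩
  refine ⟨fun c => (p (L c) + q c) + κ * (c s(t₁, t₂) * c s(t₁, t₃) * c s(t₂, t₃)), ?_, ?_, ?_⟩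
  · refine specPOL.add (specPOL.add (specPOL.comp L hp) hq) ?_
    have := specPOL.mul (specPOL.const (A := Chain α) 0 κ) (specPOL.mul (specPOL.mul (coord s(t₁, t₂)) (coord s(t₁, t₃)))
      (coord s(t₂, t₃)))
    exact specPOL.mono (by norm_num) this
  · simp [hp0, hq0]
  · intro D hD
    show cohs l' D = (p (L (chi D)) + q (chi D)) +
      κ * (chi D s(t₁, t₂) * chi D s(t₁, t₃) * chi D s(t₂, t₃))
    by_cases hDT : D = TrE t₁ t₂ t₃
    · rw [hDT, chi_of_mem (e := s(t₁, t₂)) (by simp [mem_TrE]),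
        chi_of_mem (e := s(t₁, t₃)) (by simp [mem_TrE]),
        chi_of_mem (e := s(t₂, t₃)) (by simp [mem_TrE]), hκ]
      have h2 := zmod2_add_self (p (L (chi (TrE t₁ t₂ t₃))) + q (chi (TrE t₁ t₂ t₃)))
      linear_combination -h2
    · rw [hcoh D hD hDT]
      have h0 : chi D s(t₁, t₂) * chi D s(t₁, t₃) * chi D s(t₂, t₃) = 0 := by
        by_cases h12 : s(t₁, t₂) ∈ D
        · by_cases h13 : s(t₁, t₃) ∈ D
          · by_cases h23 : s(t₂, t₃) ∈ D
            · exact absurd (all_three hC hD h12 h13 h23) hDT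
            · rw [chi_of_notMem h23, mul_zero]
          · rw [chi_of_notMem h13, mul_zero, zero_mul]
        · rw [chi_of_notMem h12, zero_mul, zero_mul]
      rw [h0, mul_zero, add_zero]

end DL
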