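import Pool.Agent.DL.Y.SpecYR
import Pool.Agent.DL.E.E5T
import Pool.Agent.DL.KC

/-!
# MP_3ff0f8_gt, ALGEBRA HALF: module YRB (helper32), the contraction of `vz`
-/

set_option autoImplicit false

open SimpleGraph Finset

namespace DL

namespace YRBM

variable {α : Type} [Fintype α] [DecidableEq α] {G : SimpleGraph α} {u v z p a c : α}

/-- the isomorphic graph `J + za + zc` -/
def JJ (G : SimpleGraph α) (u z a c : α) : SimpleGraph α :=
  (del G {u} ⊔ fromEdgeSet {s(z, a)}) ⊔ fromEdgeSet {s(z, c)}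

omit [Fintype α] in
theorem JJ_adj {x y : α} : (JJ G u z a c).Adj x y ↔
    x ≠ y ∧ ((G.Adj x y ∧ x ≠ u ∧ y ≠ u) ∨ (x = z ∧ y = a) ∨ (x = a ∧ y = z) ∨ (x = z ∧ y = c) ∨
      (x = c ∧ y = z)) := by
  unfold JJ
  rw [sup_adj, sup_adj, fromEdgeSet_adj, fromEdgeSet_adj, Set.mem_singleton_iff,
    Set.mem_singleton_iff, Sym2.eq_iff, Sym2.eq_iff]
  simp only [del, mem_singleton]
  constructor
  · rintro ((⟨h1, h2, h3⟩ | ⟨h1 | h1, h2⟩) | ⟨h1 | h1, h2⟩)
    · exact ⟨h1.ne, Or.inl ⟨h1, h2, h3⟩⟩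
    all_goals exact ⟨h2, by tauto⟩
  · rintro ⟨h0, ⟨h1, h2, h3⟩ | h1 | h1 | h1 | h1⟩
    · exact Or.inl (Or.inl ⟨h1, h2, h3⟩)
    all_goals tauto

/-- the permutation -/
def sg (u v z : α) : Equiv.Perm α := (Equiv.swap u v).trans (Equiv.swap v z)

omit [Fintype α] in
theorem sg_v (h1 : u ≠ v) (h2 : u ≠ z) : sg u v z v = u := by
  show Equiv.swap v z (Equiv.swap u v v) = u
  rw [Equiv.swap_apply_right, Equiv.swap_apply_of_ne_of_ne h1 h2]

omit [Fintype α] in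
theorem sg_u : sg u v z u = z := by
  show Equiv.swap v z (Equiv.swap u v u) = z
  rw [Equiv.swap_apply_left, Equiv.swap_apply_left]

omit [Fintype α] in
theorem sg_z (h1 : z ≠ u) (h2 : z ≠ v) : sg u v z z = v := by
  show Equiv.swap v z (Equiv.swap u v z) = v
  rw [Equiv.swap_apply_of_ne_of_ne h1 h2, Equiv.swap_apply_right]

omit [Fintype α] in
theorem sg_o {x : α} (h1 : x ≠ u) (h2 : x ≠ v) (h3 : x ≠ z) : sg u v z x = x := by
  show Equiv.swap v z (Equiv.swap u v x) = x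
  rw [Equiv.swap_apply_of_ne_of_ne h1 h2, Equiv.swap_apply_of_ne_of_ne h2 h3]

omit [Fintype α] [DecidableEq α] in
theorem nes (h : P33 G u v z p a c) : (u ≠ v ∧ u ≠ z ∧ u ≠ p ∧ u ≠ a ∧ u ≠ c) ∧
    (v ≠ z ∧ v ≠ p ∧ v ≠ a ∧ v ≠ c) ∧ (z ≠ p ∧ z ≠ a ∧ z ≠ c) ∧ (p ≠ a ∧ p ≠ c) ∧ a ≠ c := by
  have := h.nd
  simp only [List.nodup_cons, List.mem_cons, List.not_mem_nil, or_false, not_or, List.nodup_nil,
    and_true, not_false_eq_true] at this
  exact this

theorem h_adj {x y : α} : (delE G u p).Adj x y ↔ G.Adj x y ∧ ¬ (x = u ∧ y = p) ∧ ¬ (x = p ∧ y = u) := by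
  rw [delE_adj, ne_eq, Sym2.eq_iff, not_or]

/-- adjacency in `G' = contr H v z` -/
theorem g_adj {x y : α} : (contr (delE G u p) v z).Adj x y ↔
    x ≠ z ∧ y ≠ z ∧ x ≠ y ∧ ((delE G u p).Adj x y ∨ (x = v ∧ (delE G u p).Adj z y) ∨
      (y = v ∧ (delE G u p).Adj x z)) := Iff.rfl

theorem main (h : P33 G u v z p a c) (x y : α) :
    (contr (delE G u p) v z).Adj (sg u v z x) (sg u v z y) ↔ (JJ G u z a c).Adj x y := by
  obtain ⟨⟨n1, n2, n3, n4, n5⟩, ⟨n6, n7, n8, n9⟩, ⟨n10, n11, n12⟩, ⟨n13, n14⟩, n15⟩ := nes h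
  -- neighbours of `u` in `G'`
  have hgu : ∀ y, (contr (delE G u p) v z).Adj u y ↔ y = v ∨ y = a ∨ y = c := by
    intro y
    rw [g_adj, h_adj, h_adj, h_adj, h.nx, G.adj_comm z y]
    have e1 : G.Adj u z ↔ False := by
      rw [h.nx]
      simp only [iff_false, not_or]
      exact ⟨n6.symm, n10, n11, n12⟩
    rw [e1]
    constructor
    · rintro ⟨_, _, _, ⟨h1, h2, _⟩ | ⟨h1, _⟩ | ⟨_, h1, _⟩⟩
      · rcases h1 with h1 | h1 | h1 | h1
        · exact Or.inl h1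
        · exact absurd ⟨rfl, h1⟩ h2
        · exact Or.inr (Or.inl h1)
        · exact Or.inr (Or.inr h1)
      · exact absurd h1 n1
      · exact absurd h1 not_false
    · rintro (rfl | rfl | rfl)
      · exact ⟨n2, n6, n1, Or.inl ⟨Or.inl rfl, fun h => n7 h.2, fun h => n3 h.1⟩⟩
      · exact ⟨n2, n11.symm, n4, Or.inl ⟨by tauto, fun h => n13 h.2.symm, fun h => n3 h.1⟩⟩
      · exact ⟨n2, n12.symm, n5, Or.inl ⟨by tauto, fun h => n14 h.2.symm, fun h => n3 h.1⟩⟩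
  -- neighbours of `v` in `G'`
  have hgv : ∀ y, y ≠ u → y ≠ v → y ≠ z → ((contr (delE G u p) v z).Adj v y ↔
      y = a ∨ y = c ∨ G.Adj z y) := by
    intro y hyu hyv hyz
    rw [g_adj, h_adj, h_adj, h_adj, h.ny]
    constructor
    · rintro ⟨_, _, _, ⟨h1, _⟩ | ⟨_, h1, _⟩ | ⟨h1, _⟩⟩
      · tauto
      · tauto
      · exact absurd h1 hyv
    · intro h1
      refine ⟨n6, hyz, hyv.symm, ?_⟩
      rcases h1 with rfl | rfl | h1
      · exact Or.inl ⟨by tauto, fun h => n1 h.1.symm, fun h => n7 h.1⟩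
      · exact Or.inl ⟨by tauto, fun h => n1 h.1.symm, fun h => n7 h.1⟩
      · exact Or.inr (Or.inl ⟨rfl, h1, fun h => n2 h.1.symm, fun h => n10 h.1⟩)
  -- neighbours of `v` in `JJ`
  have hjv : ∀ y, (JJ G u z a c).Adj v y ↔ y = z ∨ y = a ∨ y = c := by
    intro y
    rw [JJ_adj, h.ny]
    constructor
    · rintro ⟨_, ⟨h1, _, h2⟩ | h1 | h1 | h1 | h1⟩
      · tauto
      · exact absurd h1.1 n6
      · exact absurd h1.1 n8
      · exact absurd h1.1 n6
      · exact absurd h1.1 n9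
    · rintro (rfl | rfl | rfl)
      · exact ⟨n6, Or.inl ⟨by tauto, n1.symm, n2.symm⟩⟩
      · exact ⟨n8, Or.inl ⟨by tauto, n1.symm, n4.symm⟩⟩
      · exact ⟨n9, Or.inl ⟨by tauto, n1.symm, n5.symm⟩⟩
  have hjz : ∀ y, y ≠ u → y ≠ v → y ≠ z → ((JJ G u z a c).Adj z y ↔ y = a ∨ y = c ∨ G.Adj z y) := by
    intro y hyu hyv hyz
    rw [JJ_adj]
    constructor
    · rintro ⟨_, ⟨h1, _, h2⟩ | h1 | h1 | h1 | h1⟩
      · tauto
      · tauto
      · exact absurd h1.2 hyz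
      · tauto
      · exact absurd h1.2 hyz
    · rintro (rfl | rfl | h1)
      · exact ⟨hyz.symm, by tauto⟩
      · exact ⟨hyz.symm, by tauto⟩
      · exact ⟨hyz.symm, Or.inl ⟨h1, n2.symm, hyu⟩⟩
  have hju : ∀ y, ¬ (JJ G u z a c).Adj u y := by
    intro y
    rw [JJ_adj]
    rintro ⟨_, ⟨_, h1, _⟩ | h1 | h1 | h1 | h1⟩
    · exact h1 rfl
    · exact n2 h1.1
    · exact n4 h1.1
    · exact n2 h1.1
    · exact n5 h1.1
  have hgz : ∀ y, ¬ (contr (delE G u p) v z).Adj z y := fun y h => h.1 rfl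
  by_cases hxu : x = u
  · subst hxu
    rw [sg_u]
    exact iff_of_false (hgz _) (hju _)
  by_cases hyu : y = u
  · subst hyu
    rw [sg_u, SimpleGraph.adj_comm, (JJ G y z a c).adj_comm]
    exact iff_of_false (hgz _) (hju _)
  by_cases hxv : x = v
  · subst hxv
    rw [sg_v n1 n2, hgu, hjv]
    by_cases hyx : y = x
    · subst hyx
      rw [sg_v n1 n2]
      constructor
      · rintro (h1 | h1 | h1)
        · exact absurd h1 n1
        · exact absurd h1 n4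
        · exact absurd h1 n5
      · rintro (h1 | h1 | h1)
        · exact absurd h1 n6
        · exact absurd h1 n8
        · exact absurd h1 n9
    · by_cases hyz : y = z
      · subst hyz
        rw [sg_z n2.symm n6.symm]
        simp
      · rw [sg_o hyu hyx hyz]
        tauto
  by_cases hyv : y = v
  · subst hyv
    rw [SimpleGraph.adj_comm, (JJ G u z a c).adj_comm, sg_v n1 n2, hgu, hjv]
    by_cases hxz : x = z
    · subst hxz
      rw [sg_z n2.symm n6.symm]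
      simp
    · rw [sg_o hxu hxv hxz]
      tauto
  by_cases hxz : x = z
  · subst hxz
    rw [sg_z n2.symm n6.symm]
    by_cases hyx : y = x
    · subst hyx
      rw [sg_z n2.symm n6.symm]
      exact iff_of_false (fun h => h.ne rfl) (fun h => h.ne rfl)
    · rw [sg_o hyu hyv hyx, hgv y hyu hyv hyx, hjz y hyu hyv hyx]
  by_cases hyz : y = z
  · subst hyz
    rw [SimpleGraph.adj_comm, (JJ G u y a c).adj_comm, sg_z n2.symm n6.symm, sg_o hxu hxv hxz,
      hgv x hxu hxv hxz, hjz x hxu hxv hxz]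
  rw [sg_o hxu hxv hxz, sg_o hyu hyv hyz, g_adj, JJ_adj, h_adj, h_adj, h_adj]
  constructor
  · rintro ⟨_, _, h1, ⟨h2, _⟩ | ⟨h2, _⟩ | ⟨h2, _⟩⟩
    · exact ⟨h1, Or.inl ⟨h2, hxu, hyu⟩⟩
    · exact absurd h2 hxv
    · exact absurd h2 hyv
  · rintro ⟨h1, ⟨h2, _⟩ | h2 | h2 | h2 | h2⟩
    · exact ⟨hxz, hyz, h1, Or.inl ⟨h2, fun h => hxu h.1, fun h => hyu h.2⟩⟩
    · exact absurd h2.1 hxz
    · exact absurd h2.2 hyz
    · exact absurd h2.1 hxz
    · exact absurd h2.2 hyz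

end YRBM

open YRBM in
/-- **YRB** -/
theorem specYRB (hISO : SpecISO) (hCRL : SpecCRL) (hNPC : SpecNPC) (hDST : SpecDST) : SpecYRB := by
  intro α _ _ G u v z p a c h
  obtain ⟨⟨n1, n2, n3, n4, n5⟩, ⟨n6, n7, n8, n9⟩, ⟨n10, n11, n12⟩, ⟨n13, n14⟩, n15⟩ := nes h.p33
  have hV : VS (del G {u}) = VS G \ {u} := h.k48.1.VS_del (by simp)
  have hmem : ∀ x, x ∈ VS G → x ≠ u → x ∈ VS (del G {u}) := by
    intro x hx hxu
    rw [hV, mem_sdiff, mem_singleton]
    exact ⟨hx, hxu⟩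
  have ha : a ∈ VS (del G {u}) := hmem a (right_mem_VS ((h.p33.nx _).2 (by tauto))) n4.symm
  have hc : c ∈ VS (del G {u}) := hmem c (right_mem_VS ((h.p33.nx _).2 (by tauto))) n5.symm
  have hz : z ∈ VS (del G {u}) := hmem z (right_mem_VS ((h.p33.ny _).2 (by tauto))) n2.symm
  obtain ⟨c1, v1⟩ := hCRL.add h.cj hz ha
  obtain ⟨c2, _⟩ := hCRL.add c1 (v1 ▸ hz) (v1 ▸ hc)
  have hNP : NP (JJ G u z a c) := hNPC.mono (le_sup_left.trans le_sup_left) h.npj
  have hm : (JJ G u z a c).map ((sg u v z).toEmbedding : α ↪ α) = contr (delE G u p) v z := by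
    ext x y
    refine (map_equiv_adj (sg u v z) _ _ _).trans ?_
    rw [← main h.p33, Equiv.apply_symm_apply, Equiv.apply_symm_apply]
  have hC1 : C1 (contr (delE G u p) v z) := by
    rw [← hm]
    exact hISO.c1 _ _ c2
  have hNP' : NP (contr (delE G u p) v z) := by
    rw [← hm]
    exact hISO.np _ _ hNP
  have hsz : sz (contr (delE G u p) v z) < sz G := by
    have h1 : sz (contr (delE G u p) v z) < sz (delE G u p) := by
      refine hDST.sz2 ?_
      rw [h_adj, h.p33.ny]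
      exact ⟨by tauto, fun h => n1 h.1.symm, fun h => n7 h.1⟩
    refine h1.trans_le ?_
    by_cases e : delE G u p = G
    · rw [e]
    · exact (hDST.sz1 (delE_le _ _ _) e).le
  exact ⟨hC1.1, (h.ih _ hsz hC1 hNP').1⟩

end DL
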