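import Pool.Agent.DL.Y.YRJ

/-!
# MP_3ff0f8_gt, module YRH: two explicit elements of `F(H)` which vanish on `CycM H v z`
-/

open SimpleGraph Finset

namespace DL

namespace YRHM

variable {α : Type} [Fintype α] [DecidableEq α]

/-- the product of three coordinates is in `F(G)` -/
theorem inF_prod (hGLU : SpecGLU) (G : SimpleGraph α) (m : ZMod 2) (e f h : Sym2 α) :
    InF G (fun C => m * (chi C e * chi C f * chi C h)) := by
  refine hGLU.congr (fun C _ => ?_) (hGLU.quad G e f 0 (Pi.single h m))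
  have h1 : ∑ g ∈ C, (Pi.single h m : Chain α) g = m * chi C h := by
    simp only [chi]
    by_cases hh : h ∈ C
    · rw [Finset.sum_eq_single h]
      · simp [hh]
      · intro b _ hb
        simp [hb]
      · intro hn
        exact absurd hh hn
    · rw [if_neg hh, mul_zero]
      refine Finset.sum_eq_zero fun g hg => ?_
      have : g ≠ h := fun e => hh (e ▸ hg)
      simp [this]
  rw [h1]
  ring

/-- the product of two coordinates is in `F(G)` -/
theorem inF_prod2 (hGLU : SpecGLU) (G : SimpleGraph α) (m : ZMod 2) (e f : Sym2 α) :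
    InF G (fun C => m * (chi C e * chi C f)) := by
  refine hGLU.congr (fun C _ => ?_) (hGLU.quad G e f m 0)
  simp
  ring

/-- an injective numbering -/
noncomputable def o (x : α) : ℕ := (Fintype.equivFin α x : ℕ)

omit [DecidableEq α] in
lemma o_inj {x y : α} (h : o x = o y) : x = y :=
  (Fintype.equivFin α).injective (Fin.ext h)

/-- the coefficients -/
def kp (v : α) (κ : α → ZMod 2) (w : α) : ZMod 2 := if w = v then 0 else κ w

noncomputable def tt (v : α) (g : α → α → ZMod 2) (κ : α → ZMod 2) (w w' : α) : ZMod 2 :=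
  if o w < o w' ∧ w ≠ v ∧ w' ≠ v then g w w' + κ w else 0

/-- the element -/
noncomputable def EE (v z c : α) (g : α → α → ZMod 2) (κ : α → ZMod 2) (C : Finset (Sym2 α)) :
    ZMod 2 :=
  (∑ w, kp v κ w * (chi C s(v, c) * chi C s(z, w)) + ∑ w, kp v κ w * coh c v z w C) +
    ∑ w, ∑ w', tt v g κ w w' * (chi C s(v, c) * chi C s(z, w) * chi C s(z, w'))

theorem EE_inF (hGLU : SpecGLU) (G : SimpleGraph α) (v z c : α) (g : α → α → ZMod 2)
    (κ : α → ZMod 2) : InF G (EE v z c g κ) := by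
  refine hGLU.add (hGLU.add ?_ ?_) ?_
  · exact hGLU.sum univ (fun w C => kp v κ w * (chi C s(v, c) * chi C s(z, w)))
      fun w _ => inF_prod2 hGLU G _ _ _
  · exact hGLU.sum univ (fun w C => kp v κ w * coh c v z w C) fun w _ => hGLU.coh1 G _ _ _ _ _
  · exact hGLU.sum univ (fun w C => ∑ w', tt v g κ w w' *
      (chi C s(v, c) * chi C s(z, w) * chi C s(z, w'))) fun w _ =>
      hGLU.sum univ (fun w' C => tt v g κ w w' *
        (chi C s(v, c) * chi C s(z, w) * chi C s(z, w'))) fun w' _ => inF_prod hGLU G _ _ _ _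

/-- the element vanishes if `vc` is not in `C` -/
theorem EE_zero_left (v z c : α) (g : α → α → ZMod 2) (κ : α → ZMod 2) {C : Finset (Sym2 α)}
    (h : s(v, c) ∉ C) : EE v z c g κ C = 0 := by
  have h' : s(c, v) ∉ C := by rwa [Sym2.eq_swap]
  unfold EE
  rw [Finset.sum_eq_zero, Finset.sum_eq_zero, Finset.sum_eq_zero]
  · simp
  · intro w _
    exact Finset.sum_eq_zero fun w' _ => by rw [chi_of_notMem h]; ring
  · intro w _
    rw [coh_eq_zero_left h', mul_zero]
  · intro w _
    rw [chi_of_notMem h]; ring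

/-- the element vanishes on `CycM H v z` -/
theorem EE_zero {H : SimpleGraph α} {v z c : α} (hvz : v ≠ z) (hzc : z ≠ c)
    (g : α → α → ZMod 2) (κ : α → ZMod 2) {C : Finset (Sym2 α)} (hC : CycM H v z C) :
    EE v z c g κ C = 0 := by
  by_cases hvc : s(v, c) ∈ C
  swap
  · exact EE_zero_left v z c g κ hvc
  have hcv : s(c, v) ∈ C := by rwa [Sym2.eq_swap]
  have hv : v ∈ vs C := left_mem_vs hvc
  by_cases hz : z ∈ vs C
  swap
  · have hzw : ∀ w, s(z, w) ∉ C := fun w h => hz (left_mem_vs h)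
    unfold EE
    rw [Finset.sum_eq_zero, Finset.sum_eq_zero, Finset.sum_eq_zero]
    · simp
    · intro w _
      exact Finset.sum_eq_zero fun w' _ => by rw [chi_of_notMem (hzw w)]; ring
    · intro w _
      rw [coh_eq_zero_right (hzw w), mul_zero]
    · intro w _
      rw [chi_of_notMem (hzw w)]; ring
  have hvzC := hC.2 hv hz
  have hzvC : s(z, v) ∈ C := by rwa [Sym2.eq_swap]
  have h3 : ∑ w, ∑ w', tt v g κ w w' * (chi C s(v, c) * chi C s(z, w) * chi C s(z, w')) = 0 := by
    refine Finset.sum_eq_zero fun w _ => Finset.sum_eq_zero fun w' _ => ?_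
    unfold tt
    split_ifs with hw
    · obtain ⟨h1, h2, h3⟩ := hw
      by_cases e1 : s(z, w) ∈ C
      · by_cases e2 : s(z, w') ∈ C
        · have hne : w ≠ w' := by
            rintro rfl
            exact lt_irrefl _ h1
          rcases hC.1.eq_or_eq e1 e2 hne hzvC with h4 | h4
          · exact absurd h4.symm h2
          · exact absurd h4.symm h3
        · rw [chi_of_notMem e2]; ring
      · rw [chi_of_notMem e1]; ring
    · rw [zero_mul]
  unfold EE
  rw [h3, add_zero, ← Finset.sum_add_distrib]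
  refine Finset.sum_eq_zero fun w _ => ?_
  rw [← mul_add]
  unfold kp
  split_ifs with hw
  · rw [zero_mul]
  · by_cases e1 : s(z, w) ∈ C
    · rw [chi_of_mem hvc, chi_of_mem e1]
      have h4 : coh c v z w C = 1 := by
        rw [coh_apply, if_pos]
        refine ⟨hcv, e1, Rch.of_mem ?_⟩
        simp only [mem_sdiff, mem_insert, mem_singleton, not_or]
        refine ⟨hvzC, fun h5 => ?_, fun h5 => ?_⟩
        · rw [Sym2.eq_iff] at h5
          rcases h5 with ⟨-, h5⟩ | ⟨-, h5⟩
          · exact hvz h5.symm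
          · exact hzc h5
        · rw [Sym2.eq_iff] at h5
          rcases h5 with ⟨h5, -⟩ | ⟨h5, -⟩
          · exact hvz h5
          · exact hw h5.symm
      rw [h4]
      have : (1 : ZMod 2) * 1 + 1 = 0 := by decide
      rw [this, mul_zero]
    · rw [chi_of_notMem e1, coh_eq_zero_right e1]; ring

/-- evaluation -/
theorem EE_val {v z c y y' : α} {g : α → α → ZMod 2} {κ : α → ZMod 2}
    (hg : ∀ y y', g y y' + g y' y = κ y + κ y') {C : Finset (Sym2 α)}
    (hvc : s(v, c) ∈ C) (hy : s(z, y) ∈ C) (hy' : s(z, y') ∈ C) (hne : y ≠ y')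
    (hall : ∀ w, s(z, w) ∈ C → w = y ∨ w = y') (hyv : y ≠ v) (hyv' : y' ≠ v)
    (h0 : coh c v z y C = 0) (h1 : coh c v z y' C = 1) : EE v z c g κ C = g y y' := by
  have hz : ∀ w, w ≠ y ∧ w ≠ y' → s(z, w) ∉ C := by
    intro w hw h
    rcases hall w h with h2 | h2
    · exact hw.1 h2
    · exact hw.2 h2
  unfold EE
  rw [Fintype.sum_eq_add y y' hne (f := fun w => kp v κ w * (chi C s(v, c) * chi C s(z, w)))
      (fun w hw => by rw [chi_of_notMem (hz w hw)]; ring),
    Fintype.sum_eq_add y y' hne (f := fun w => kp v κ w * coh c v z w C)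
      (fun w hw => by rw [coh_eq_zero_right (hz w hw)]; ring),
    Fintype.sum_eq_add y y' hne (f := fun w => ∑ w', tt v g κ w w' *
      (chi C s(v, c) * chi C s(z, w) * chi C s(z, w')))
      (fun w hw => Finset.sum_eq_zero fun w' _ => by rw [chi_of_notMem (hz w hw)]; ring),
    Fintype.sum_eq_add y y' hne (f := fun w' => tt v g κ y w' *
      (chi C s(v, c) * chi C s(z, y) * chi C s(z, w')))
      (fun w hw => by rw [chi_of_notMem (hz w hw)]; ring),
    Fintype.sum_eq_add y y' hne (f := fun w' => tt v g κ y' w' *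
      (chi C s(v, c) * chi C s(z, y') * chi C s(z, w')))
      (fun w hw => by rw [chi_of_notMem (hz w hw)]; ring)]
  rw [chi_of_mem hvc, chi_of_mem hy, chi_of_mem hy', h0, h1]
  have k1 : kp v κ y = κ y := if_neg hyv
  have k2 : kp v κ y' = κ y' := if_neg hyv'
  have t1 : tt v g κ y y = 0 := if_neg fun h => lt_irrefl _ h.1
  have t2 : tt v g κ y' y' = 0 := if_neg fun h => lt_irrefl _ h.1
  have t3 : tt v g κ y y' + tt v g κ y' y = g y y' + κ y := by
    rcases lt_trichotomy (o y) (o y') with h | h | h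
    · have e1 : tt v g κ y y' = g y y' + κ y := if_pos ⟨h, hyv, hyv'⟩
      have e2 : tt v g κ y' y = 0 := if_neg fun h' => lt_asymm h h'.1
      rw [e1, e2, add_zero]
    · exact absurd (o_inj h) hne
    · have e1 : tt v g κ y' y = g y' y + κ y' := if_pos ⟨h, hyv', hyv⟩
      have e2 : tt v g κ y y' = 0 := if_neg fun h' => lt_asymm h h'.1
      rw [e1, e2, zero_add]
      have key : ∀ p q r t : ZMod 2, p + q = r + t → q + t = p + r := by decide
      exact key _ _ _ _ (hg y y')
  rw [k1, k2, t1, t2]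
  have e : (κ y * (1 * 1) + κ y' * (1 * 1) + (κ y * 0 + κ y' * 1)) +
      (0 * (1 * 1 * 1) + tt v g κ y y' * (1 * 1 * 1) +
        (tt v g κ y' y * (1 * 1 * 1) + 0 * (1 * 1 * 1))) =
      κ y + (κ y' + κ y') + (tt v g κ y y' + tt v g κ y' y) := by ring
  rw [e, t3, zmod2_add_self, add_zero]
  have h2 := zmod2_add_self (κ y)
  linear_combination h2

/-- coherence of the first edge with an edge of the path -/
theorem coh_lift {a c v s t : α} {P C : Finset (Sym2 α)} (hPC : P ⊆ C) (hcv : s(c, v) ∈ C)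
    (hcvP : s(c, v) ∉ P) (hst : dirn a s t P = 1)
    (hva : ∀ e ∈ P, Rch (C \ {s(c, v), e}) v a) : coh c v s t C = 1 := by
  have h1 : dirn a s t P ≠ 0 := by rw [hst]; exact one_ne_zero
  rw [dirn_ne_zero] at h1
  obtain ⟨h1, h2⟩ := h1
  rw [coh_apply, if_pos]
  refine ⟨hcv, hPC h1, (hva _ h1).trans (h2.mono ?_)⟩
  intro e he
  simp only [mem_sdiff, mem_insert, mem_singleton, not_or] at he ⊢
  exact ⟨hPC he.1, fun h3 => hcvP (h3 ▸ he.1), he.2⟩

lemma val {H : SimpleGraph α} {u v z a c : α} (_h : YRCM.HD H u v z a c) (g : α → α → ZMod 2)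
    (κ : α → ZMod 2) (hg : ∀ y y', g y y' + g y' y = κ y + κ y') {P C : Finset (Sym2 α)}
    {y y' : α} (hP : IsPth H a c P) (hvP : v ∉ vs P)
    (h1 : dirn a y z P = 1) (h2 : dirn a z y' P = 1) (hC : IsCyc H C) (hPC : P ⊆ C)
    (hvc : s(v, c) ∈ C) (hva : ∀ e ∈ P, Rch (C \ {s(c, v), e}) v a) :
    EE v z c g κ C = g y y' := by
  have d1 := dirn_ne_zero.1 (show dirn a y z P ≠ 0 by rw [h1]; exact one_ne_zero)
  have d2 := dirn_ne_zero.1 (show dirn a z y' P ≠ 0 by rw [h2]; exact one_ne_zero)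
  have hzyP : s(z, y) ∈ P := by rw [Sym2.eq_swap]; exact d1.1
  have hne : y ≠ y' := by
    rintro rfl
    have h3 := hP.dirn_add_swap y z
    rw [h1, h2, chi_of_mem d1.1] at h3
    exact absurd h3 (by decide)
  have hcv : s(c, v) ∈ C := by rwa [Sym2.eq_swap]
  have hcvP : s(c, v) ∉ P := fun h3 => hvP (right_mem_vs h3)
  have c1 : coh c v y z C = 1 := coh_lift hPC hcv hcvP h1 hva
  have c2 : coh c v z y' C = 1 := coh_lift hPC hcv hcvP h2 hva
  have hyv : y ≠ v := fun e => hvP (by rw [← e]; exact left_mem_vs d1.1)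
  have hyv' : y' ≠ v := fun e => hvP (by rw [← e]; exact right_mem_vs d2.1)
  refine EE_val hg hvc (hPC hzyP) (hPC d2.1) hne
    (fun w hw => hC.eq_or_eq (hPC hzyP) (hPC d2.1) hne hw) hyv hyv' ?_ c2
  have h3 := hC.coh_add_swap (a := c) (b := v) (c := y) (d := z) (fun e => hcvP (e ▸ d1.1))
  rw [c1, chi_of_mem hcv, chi_of_mem (hPC d1.1)] at h3
  have : (1 : ZMod 2) * 1 = 1 + 0 := by decide
  rw [this] at h3
  exact add_left_cancel h3

/-- the general statement -/
theorem elem (hGLU : SpecGLU) {H : SimpleGraph α} {u v z a c : α} (h : YRCM.HD H u v z a c)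
    (g : α → α → ZMod 2) (κ : α → ZMod 2) (hg : ∀ y y', g y y' + g y' y = κ y + κ y') :
    ∃ E, InF H E ∧ (∀ C, CycM H v z C → E C = 0) ∧
      ∀ P y y', IsPth H a c P → u ∉ vs P → v ∉ vs P → dirn a y z P = 1 → dirn a z y' P = 1 →
        E (P ∪ {s(v, a), s(v, c)} ∪ ∅) = g y y' ∧
        E (P ∪ {s(u, a), s(v, c)} ∪ {s(v, u)}) = g y y' ∧
        E (P ∪ {s(v, a), s(u, c)} ∪ {s(v, u)}) = 0 := by
  refine ⟨EE v z c g κ, EE_inF hGLU H v z c g κ, fun C hC => EE_zero h.vz h.zc g κ hC, ?_⟩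
  intro P y y' hP hu hv h1 h2
  refine ⟨?_, ?_, ?_⟩
  · refine val h g κ hg hP hv h1 h2 ?_ ?_ ?_ ?_
    · exact YRCM.cyc1 ((h.nv a).2 (by tauto)) ((h.nv c).2 (by tauto)) h.ac hP hv
    · intro e he
      simp only [mem_union, mem_insert, mem_singleton]
      exact Or.inl (Or.inl he)
    · simp only [mem_union, mem_insert, mem_singleton]
      tauto
    · intro e he
      refine Rch.of_mem ?_
      simp only [mem_union, mem_insert, mem_singleton, mem_sdiff, not_or]
      refine ⟨by tauto, fun h3 => ?_, fun h3 => hv (left_mem_vs (h3 ▸ he))⟩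
      rw [Sym2.eq_iff] at h3
      rcases h3 with ⟨h3, -⟩ | ⟨-, h3⟩
      · exact h.vc h3
      · exact h.ac h3
  · refine val h g κ hg hP hv h1 h2 ?_ ?_ ?_ ?_
    · exact YRCM.cyc2 ((h.nu a).2 (by tauto)) ((h.nv c).2 (by tauto)) ((h.nv u).2 (by tauto))
        h.uc h.va hP hu hv
    · intro e he
      simp only [mem_union, mem_insert, mem_singleton]
      exact Or.inl (Or.inl he)
    · simp only [mem_union, mem_insert, mem_singleton]
      tauto
    · intro e he
      refine (Rch.of_mem (b := u) ?_).trans (Rch.of_mem ?_)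
      · simp only [mem_union, mem_insert, mem_singleton, mem_sdiff, not_or]
        refine ⟨by tauto, fun h3 => ?_, fun h3 => hv (left_mem_vs (h3 ▸ he))⟩
        rw [Sym2.eq_iff] at h3
        rcases h3 with ⟨h3, -⟩ | ⟨-, h3⟩
        · exact h.vc h3
        · exact h.uc h3
      · simp only [mem_union, mem_insert, mem_singleton, mem_sdiff, not_or]
        refine ⟨by tauto, fun h3 => ?_, fun h3 => hu (left_mem_vs (h3 ▸ he))⟩
        rw [Sym2.eq_iff] at h3
        rcases h3 with ⟨h3, -⟩ | ⟨h3, -⟩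
        · exact h.uc h3
        · exact h.uv h3
  · refine EE_zero_left v z c g κ ?_
    simp only [mem_union, mem_insert, mem_singleton, not_or]
    refine ⟨⟨fun h3 => hv (left_mem_vs h3), fun h3 => ?_, fun h3 => ?_⟩, fun h3 => ?_⟩
    · rw [Sym2.eq_iff] at h3
      rcases h3 with ⟨-, h3⟩ | ⟨h3, -⟩
      · exact h.ac h3.symm
      · exact h.va h3
    · rw [Sym2.eq_iff] at h3
      rcases h3 with ⟨h3, -⟩ | ⟨h3, -⟩
      · exact h.uv h3.symm
      · exact h.vc h3
    · rw [Sym2.eq_iff] at h3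
      rcases h3 with ⟨-, h3⟩ | ⟨h3, -⟩
      · exact h.uc h3.symm
      · exact h.uv h3.symm

end YRHM

open YRHM YRCM in
theorem specYRH (hGLU : SpecGLU) : SpecYRH where
  c := by
    intro α _ _ G u v z p a c h g κ hg
    obtain ⟨E, hE1, hE2, hE3⟩ := elem hGLU (hd h.p33) g κ hg
    refine ⟨E, hE1, hE2, ?_⟩
    intro P y y' hP h1 h2
    obtain ⟨q1, q2, q3⟩ := toH (p := p) hP
    rw [Lf_ff, Lf_tf, Lf_ft]
    exact hE3 P y y' q1 q2 q3 h1 h2
  a := by
    intro α _ _ G u v z p a c h g κ hg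
    obtain ⟨E, hE1, hE2, hE3⟩ := elem hGLU (hd h.p33).swap (fun w w' => g w' w) κ
      (fun y y' => by rw [hg y' y]; ring)
    refine ⟨E, hE1, hE2, ?_⟩
    intro P y y' hP h1 h2
    obtain ⟨q1, q2, q3⟩ := toH (p := p) hP
    rw [Lf_ff, Lf_tf, Lf_ft]
    have h3 := hE3 P y' y q1.symm q2 q3 (by rw [q1.dirn_reverse]; exact h2)
      (by rw [q1.dirn_reverse]; exact h1)
    rw [pair_swap P s(v, c) s(v, a), pair_swap P s(u, c) s(v, a), pair_swap P s(v, c) s(u, a)] at h3
    exact h3

end DL
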