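import Pool.Agent.DL.Y.SpecU
import Pool.Agent.DL.EX.VRS

/-!
MP_3ff0f8_gt, STEP Y, part U, module YTU: the edges of the triangle are added.  (helper30)
-/

open SimpleGraph Finset

namespace DL

namespace YTUM

set_option linter.unusedSectionVars false
set_option linter.unusedFintypeInType false
set_option linter.unusedDecidableInType false

variable {α : Type} [Fintype α] [DecidableEq α] {G H : SimpleGraph α} {b x y z : α}

/-- a `D_4` minor of a subgraph -/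
def up (hle : H ≤ G) (D : D4M H) : D4M G where
  X := D.X
  disj := D.disj
  T := D.T
  sub := fun i => (D.sub i).trans hle
  inX := D.inX
  conn := D.conn
  acyc := D.acyc
  p := D.p
  q := D.q
  pX := D.pX
  qX := D.qX
  adj := fun i b => hle (D.adj i b)
  ne := D.ne

lemma dmono {f : Finset (Sym2 α) → ZMod 2} (hle : H ≤ G) (hf : D4even G f) : D4even H f :=
  fun D => hf (up hle D)

lemma dadd (hFEV : SpecFEV) {f g : Finset (Sym2 α) → ZMod 2} (hf : D4even G f)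
    (hg : InF G g) : D4even G (fun C => f C + g C) := by
  intro D
  rw [sum_add_distrib, hf D, hFEV G g hg D, add_zero]

/-- subtract an element of `F` -/
lemma cancel (hPOL : SpecPOL) {f g : Finset (Sym2 α) → ZMod 2} (hg : InF G g)
    (h : InF G (fun C => f C + g C)) : InF G f :=
  CTFM.inF_congr (fun C _ => by rw [add_assoc, zmod2_add_self, add_zero]) (CTFM.inF_add hPOL h hg)

lemma inF_tch (hPOL : SpecPOL) (a a' : α) (m : α → α → ZMod 2) : InF G (tch a a' m) := by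
  refine CTFM.inF_sum hPOL univ (fun u C => ∑ v, m u v * coh a a' u v C) fun u _ => ?_
  refine CTFM.inF_sum hPOL univ (fun v C => m u v * coh a a' u v C) fun v _ => ?_
  exact CTFM.inF_smul hPOL _ (CTFM.inF_coh hPOL _ _ _ _)

lemma tch_zero {a a' : α} (m : α → α → ZMod 2) {C : Finset (Sym2 α)} (h : s(a, a') ∉ C) :
    tch a a' m C = 0 := by
  unfold tch
  refine sum_eq_zero fun u _ => sum_eq_zero fun v _ => ?_
  rw [coh_eq_zero_left h, mul_zero]

/-- one edge of the triangle -/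
lemma one (hYT1 : SpecYT1) (hYEQ : SpecYEQ) (hPOL : SpecPOL) (hC : Cub G b x y z)
    (hU : U (yd G b x y z)) (hL : LIVP (yd G b x y z) x y z) {f : Finset (Sym2 α) → ZMod 2}
    (hf : D4even G f)
    (h0 : ∀ C, IsCyc G C → s(x, y) ∉ C → s(x, z) ∉ C → s(y, z) ∉ C → f C = 0) :
    ∃ φ, InF G φ ∧ (∀ C, s(x, y) ∉ C → φ C = 0) ∧
      ∀ C, IsCyc G C → s(x, z) ∉ C → s(y, z) ∉ C → f C = φ C := by
  by_cases hxy : G.Adj x y
  · have hsub : ({s(x, z), s(y, z)} : Set (Sym2 α)) ⊆ TrE x y z := by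
      intro e he
      simp only [Set.mem_insert_iff, Set.mem_singleton_iff] at he
      simp only [TrE, coe_insert, coe_singleton, Set.mem_insert_iff, Set.mem_singleton_iff]
      exact Or.inr he
    obtain ⟨h1, h2⟩ := hYEQ.dele hC _ hsub
    have h3 : (G.deleteEdges ({s(x, z), s(y, z)} : Set (Sym2 α))).Adj x y := by
      rw [deleteEdges_adj]
      refine ⟨hxy, ?_⟩
      simp only [Set.mem_insert_iff, Set.mem_singleton_iff, not_or]
      constructor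
      · intro h
        exact hC.n23 (Sym2.congr_right.1 h)
      · intro h
        rw [Sym2.eq_iff] at h
        rcases h with ⟨h, -⟩ | ⟨h, -⟩
        · exact hC.n12 h
        · exact hC.n13 h
    have h4 : ¬ (G.deleteEdges ({s(x, z), s(y, z)} : Set (Sym2 α))).Adj x z := by
      rw [deleteEdges_adj]
      exact fun h => h.2 (by simp)
    have h5 : ¬ (G.deleteEdges ({s(x, z), s(y, z)} : Set (Sym2 α))).Adj y z := by
      rw [deleteEdges_adj]
      exact fun h => h.2 (by simp)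
    obtain ⟨q, μ, hq, hqμ⟩ := hYT1 h2 h3 h4 h5 (by rw [h1]; exact hU) (by rw [h1]; exact hL) f
      (dmono (deleteEdges_le _) hf) (by
        intro C hCc hn
        rw [isCyc_deleteEdges] at hCc
        exact h0 C hCc.1 hn (fun h => hCc.2 _ h (by simp)) (fun h => hCc.2 _ h (by simp)))
    refine ⟨fun C => chi C s(x, y) * q (chi C) + tch y x μ C, ?_, ?_, ?_⟩
    · refine CTFM.inF_add hPOL ?_ (inF_tch hPOL y x μ)
      exact CTFM.inF_poly (p := fun c => c s(x, y) * q c)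
        (hPOL.mul (d := 1) (e := 2) (CTFM.deg_coord hPOL _) hq) (by simp)
    · intro C hn
      have h6 : s(y, x) ∉ C := by rwa [Sym2.eq_swap]
      show chi C s(x, y) * q (chi C) + tch y x μ C = 0
      rw [chi_of_notMem hn, zero_mul, zero_add, tch_zero μ h6]
    · intro C hCc h6 h7
      refine hqμ C (isCyc_deleteEdges.2 ⟨hCc, ?_⟩)
      intro e he he'
      simp only [Set.mem_insert_iff, Set.mem_singleton_iff] at he'
      rcases he' with rfl | rfl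
      · exact h6 he
      · exact h7 he
  · refine ⟨fun _ => 0, CTFM.inF_zero hPOL, fun _ _ => rfl, fun C hCc h6 h7 => ?_⟩
    exact h0 C hCc (fun h => hxy (hCc.adj_of_mem h)) h6 h7

/-- two edges of the triangle -/
lemma two (hYT2 : SpecYT2) (hYEQ : SpecYEQ) (hPOL : SpecPOL) (hC : Cub G b x y z)
    {f : Finset (Sym2 α) → ZMod 2} (hf : D4even G f)
    (h0 : ∀ C, IsCyc G C → s(y, z) ∉ C → ¬ (s(x, y) ∈ C ∧ s(x, z) ∈ C) → f C = 0) :
    ∃ φ, InF G φ ∧ (∀ C, ¬ (s(x, y) ∈ C ∧ s(x, z) ∈ C) → φ C = 0) ∧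
      ∀ C, IsCyc G C → s(y, z) ∉ C → f C = φ C := by
  by_cases hxy : G.Adj x y ∧ G.Adj x z
  · have hsub : ({s(y, z)} : Set (Sym2 α)) ⊆ TrE x y z := by
      intro e he
      simp only [Set.mem_singleton_iff] at he
      simp only [TrE, coe_insert, coe_singleton, Set.mem_insert_iff, Set.mem_singleton_iff]
      exact Or.inr (Or.inr he)
    obtain ⟨-, h2⟩ := hYEQ.dele hC _ hsub
    have h3 : (G.deleteEdges ({s(y, z)} : Set (Sym2 α))).Adj x y := by
      rw [deleteEdges_adj]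
      refine ⟨hxy.1, ?_⟩
      rw [Set.mem_singleton_iff]
      intro h
      rw [Sym2.eq_iff] at h
      rcases h with ⟨h, -⟩ | ⟨h, -⟩
      · exact hC.n12 h
      · exact hC.n13 h
    have h4 : (G.deleteEdges ({s(y, z)} : Set (Sym2 α))).Adj x z := by
      rw [deleteEdges_adj]
      refine ⟨hxy.2, ?_⟩
      rw [Set.mem_singleton_iff]
      intro h
      rw [Sym2.eq_iff] at h
      rcases h with ⟨h, -⟩ | ⟨h, -⟩
      · exact hC.n12 h
      · exact hC.n13 h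
    obtain ⟨q, hq, hqq⟩ := hYT2 h2 h3 h4 f (dmono (deleteEdges_le _) hf) (by
        intro C hCc hn
        rw [isCyc_deleteEdges] at hCc
        exact h0 C hCc.1 (fun h => hCc.2 _ h (by simp)) hn)
    refine ⟨fun C => chi C s(x, y) * chi C s(x, z) * q (chi C), ?_, ?_, ?_⟩
    · exact CTFM.inF_poly (p := fun c => c s(x, y) * c s(x, z) * q c)
        (hPOL.mul (d := 2) (e := 1) (hPOL.mul (d := 1) (e := 1) (CTFM.deg_coord hPOL _)
          (CTFM.deg_coord hPOL _)) hq) (by simp)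
    · intro C hn
      show chi C s(x, y) * chi C s(x, z) * q (chi C) = 0
      by_cases h6 : s(x, y) ∈ C
      · have h7 : s(x, z) ∉ C := fun h => hn ⟨h6, h⟩
        rw [chi_of_notMem h7, mul_zero, zero_mul]
      · rw [chi_of_notMem h6, zero_mul, zero_mul]
    · intro C hCc h6
      refine hqq C (isCyc_deleteEdges.2 ⟨hCc, ?_⟩)
      intro e he he'
      rw [Set.mem_singleton_iff] at he'
      subst he'
      exact h6 he
  · refine ⟨fun _ => 0, CTFM.inF_zero hPOL, fun _ _ => rfl, fun C hCc h6 => ?_⟩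
    exact h0 C hCc h6 fun h => hxy ⟨hCc.adj_of_mem h.1, hCc.adj_of_mem h.2⟩

/-- a cycle which contains the three edges of the triangle -/
lemma tri3 (hC : Cub G b x y z) {C : Finset (Sym2 α)} (hCc : IsCyc G C) (h12 : s(x, y) ∈ C)
    (h13 : s(x, z) ∈ C) (h23 : s(y, z) ∈ C) : C = TrE x y z := by
  have h1 : IsPth (del G {x}) y z {s(y, z)} := by
    apply IsPth.edge
    refine ⟨hCc.adj_of_mem h23, ?_, ?_⟩
    · rw [mem_singleton]
      exact hC.n12.symm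
    · rw [mem_singleton]
      exact hC.n13.symm
  have h2 : IsCyc G (TrE x y z) :=
    isCyc_of_isPth_del (hCc.adj_of_mem h12) (hCc.adj_of_mem h13) hC.n23 h1
  refine (hCc.eq_of_subset h2 ?_).symm
  intro e he
  simp only [TrE, mem_insert, mem_singleton] at he
  rcases he with rfl | rfl | rfl <;> assumption

end YTUM

open YTUM in
theorem specYTU (hYU0 : SpecYU0) (hYT1 : SpecYT1) (hYT2 : SpecYT2) (hYEQ : SpecYEQ)
    (hFEV : SpecFEV) (hPOL : SpecPOL) : SpecYTU := by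
  intro α _ _ G b t₁ t₂ t₃ hC hU hL12 hL13 hL23 f hf
  obtain ⟨p1, p2, p3, p4⟩ := hYEQ.perm G b t₁ t₂ t₃
  have p5 : yd G b t₂ t₃ t₁ = yd G b t₁ t₂ t₃ := by
    rw [(hYEQ.perm G b t₂ t₁ t₃).1, p2]
  have hC13 : Cub G b t₁ t₃ t₂ := (hYEQ.cperm hC).1
  have hC21 : Cub G b t₂ t₁ t₃ := (hYEQ.cperm hC).2
  have hC23 : Cub G b t₂ t₃ t₁ := (hYEQ.cperm hC21).1
  have hC31 : Cub G b t₃ t₁ t₂ := (hYEQ.cperm hC13).2
  -- (0) no edge of the triangle
  obtain ⟨h1, h2⟩ := hYEQ.dele hC (TrE t₁ t₂ t₃ : Set (Sym2 α)) (fun _ h => h)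
  have h3 : NTE (G.deleteEdges (TrE t₁ t₂ t₃ : Set (Sym2 α))) t₁ t₂ t₃ := by
    refine ⟨?_, ?_, ?_⟩ <;>
    · rw [deleteEdges_adj]
      exact fun h => h.2 (by simp [TrE])
  obtain ⟨p, hp, hp0, l, hl⟩ := hYU0 h2 h3 (by rw [h1]; exact hU) (by rw [h1]; exact hL12) f
    (dmono (deleteEdges_le _) hf)
  have hφ0 : InF G (fun C => p (chi C) + ∑ a, ∑ b, ∑ c, ∑ d, l a b c d * coh a b c d C) :=
    ⟨p, hp, hp0, l, fun _ _ => rfl⟩
  refine cancel hPOL hφ0 ?_
  have hf1 := dadd hFEV hf hφ0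
  have hz1 : ∀ C, IsCyc G C → s(t₁, t₂) ∉ C → s(t₁, t₃) ∉ C → s(t₂, t₃) ∉ C →
      f C + (p (chi C) + ∑ a, ∑ b, ∑ c, ∑ d, l a b c d * coh a b c d C) = 0 := by
    intro C hCc h12 h13 h23
    rw [hl C (isCyc_deleteEdges.2 ⟨hCc, ?_⟩), zmod2_add_self]
    intro e he he'
    simp only [TrE, coe_insert, coe_singleton, Set.mem_insert_iff, Set.mem_singleton_iff] at he'
    rcases he' with rfl | rfl | rfl
    · exact h12 he
    · exact h13 he
    · exact h23 he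
  clear hl hφ0 hf
  generalize hF1 : (fun C => f C + (p (chi C) + ∑ a, ∑ b, ∑ c, ∑ d, l a b c d * coh a b c d C)) =
    f1 at hf1
  have hF1' : ∀ C, f C + (p (chi C) + ∑ a, ∑ b, ∑ c, ∑ d, l a b c d * coh a b c d C) = f1 C :=
    fun C => congrFun hF1 C
  simp only [hF1'] at hz1 ⊢
  clear hF1 hF1'
  -- (1) one edge
  obtain ⟨φ12, a1, a2, a3⟩ := one hYT1 hYEQ hPOL hC hU hL12 hf1 hz1
  obtain ⟨φ13, b1, b2, b3⟩ := one hYT1 hYEQ hPOL hC13 (by rw [p1]; exact hU)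
    (by rw [p1]; exact hL13) hf1 (fun C hCc h12 h13 h23 => hz1 C hCc h13 h12
      (by rwa [Sym2.eq_swap]))
  obtain ⟨φ23, c1, c2, c3⟩ := one hYT1 hYEQ hPOL hC23 (by rw [p5]; exact hU)
    (by rw [p5]; exact hL23) hf1 (fun C hCc h12 h13 h23 => hz1 C hCc
      (by rwa [Sym2.eq_swap]) (by rwa [Sym2.eq_swap]) h12)
  have hφ1 : InF G (fun C => φ12 C + φ13 C + φ23 C) :=
    CTFM.inF_add hPOL (CTFM.inF_add hPOL a1 b1) c1
  refine cancel hPOL hφ1 ?_
  have hf2 := dadd hFEV hf1 hφ1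
  have hz2 : ∀ C, IsCyc G C → ¬ (s(t₁, t₂) ∈ C ∧ s(t₁, t₃) ∈ C) → ¬ (s(t₁, t₂) ∈ C ∧ s(t₂, t₃) ∈ C) →
      ¬ (s(t₁, t₃) ∈ C ∧ s(t₂, t₃) ∈ C) → f1 C + (φ12 C + φ13 C + φ23 C) = 0 := by
    intro C hCc h1 h2 h3
    by_cases h12 : s(t₁, t₂) ∈ C
    · have h13 : s(t₁, t₃) ∉ C := fun h => h1 ⟨h12, h⟩
      have h23 : s(t₂, t₃) ∉ C := fun h => h2 ⟨h12, h⟩
      rw [a3 C hCc h13 h23, b2 C h13, c2 C h23, add_zero, add_zero, zmod2_add_self]
    · by_cases h13 : s(t₁, t₃) ∈ C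
      · have h23 : s(t₂, t₃) ∉ C := fun h => h3 ⟨h13, h⟩
        rw [b3 C hCc h12 (by rwa [Sym2.eq_swap]), a2 C h12, c2 C h23, add_zero, zero_add,
          zmod2_add_self]
      · by_cases h23 : s(t₂, t₃) ∈ C
        · rw [c3 C hCc (by rwa [Sym2.eq_swap]) (by rwa [Sym2.eq_swap]), a2 C h12, b2 C h13,
            add_zero, zero_add, zmod2_add_self]
        · rw [hz1 C hCc h12 h13 h23, a2 C h12, b2 C h13, c2 C h23, add_zero, add_zero, add_zero]
  clear hz1 hf1 hφ1 a3 b3 c3 a1 b1 c1 a2 b2 c2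
  generalize hF1 : (fun C => f1 C + (φ12 C + φ13 C + φ23 C)) = f2 at hf2
  have hF1' : ∀ C, f1 C + (φ12 C + φ13 C + φ23 C) = f2 C := fun C => congrFun hF1 C
  simp only [hF1'] at hz2 ⊢
  clear hF1 hF1'
  -- (2) two edges
  obtain ⟨ψ1, a1, a2, a3⟩ := two hYT2 hYEQ hPOL hC hf2 (fun C hCc h23 h => hz2 C hCc h
    (fun h' => h23 h'.2) (fun h' => h23 h'.2))
  obtain ⟨ψ2, b1, b2, b3⟩ := two hYT2 hYEQ hPOL hC21 hf2 (fun C hCc h13 h => hz2 C hCc
    (fun h' => h13 h'.2) (fun h' => h ⟨by rw [Sym2.eq_swap]; exact h'.1, h'.2⟩)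
    (fun h' => h13 h'.1))
  obtain ⟨ψ3, c1, c2, c3⟩ := two hYT2 hYEQ hPOL hC31 hf2 (fun C hCc h12 h => hz2 C hCc
    (fun h' => h12 h'.1) (fun h' => h12 h'.1)
    (fun h' => h ⟨by rw [Sym2.eq_swap]; exact h'.1, by rw [Sym2.eq_swap]; exact h'.2⟩))
  have hφ2 : InF G (fun C => ψ1 C + ψ2 C + ψ3 C) :=
    CTFM.inF_add hPOL (CTFM.inF_add hPOL a1 b1) c1
  refine cancel hPOL hφ2 ?_
  have hz3 : ∀ C, IsCyc G C → ¬ (s(t₁, t₂) ∈ C ∧ s(t₁, t₃) ∈ C ∧ s(t₂, t₃) ∈ C) →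
      f2 C + (ψ1 C + ψ2 C + ψ3 C) = 0 := by
    intro C hCc h
    by_cases h12 : s(t₁, t₂) ∈ C
    · by_cases h13 : s(t₁, t₃) ∈ C
      · have h23 : s(t₂, t₃) ∉ C := fun h' => h ⟨h12, h13, h'⟩
        rw [a3 C hCc h23, b2 C (fun h' => h23 h'.2), c2 C (fun h' => h23 (by
          rw [Sym2.eq_swap]; exact h'.2)), add_zero, add_zero, zmod2_add_self]
      · rw [b3 C hCc h13, a2 C (fun h' => h13 h'.2), c2 C (fun h' => h13 (by
          rw [Sym2.eq_swap]; exact h'.1)), add_zero, zero_add, zmod2_add_self]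
    · rw [c3 C hCc h12, a2 C (fun h' => h12 h'.1), b2 C (fun h' => h12 (by
        rw [Sym2.eq_swap]; exact h'.1)), zero_add, zero_add, zmod2_add_self]
  -- (3) the triangle
  have h4 : InF G (fun C => (f2 (TrE t₁ t₂ t₃) + (ψ1 (TrE t₁ t₂ t₃) + ψ2 (TrE t₁ t₂ t₃) +
      ψ3 (TrE t₁ t₂ t₃))) * (chi C s(t₁, t₂) * chi C s(t₁, t₃) * chi C s(t₂, t₃))) := by
    apply CTFM.inF_smul hPOL
    exact CTFM.inF_poly (p := fun c => c s(t₁, t₂) * c s(t₁, t₃) * c s(t₂, t₃))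
      (hPOL.mul (d := 2) (e := 1) (hPOL.mul (d := 1) (e := 1) (CTFM.deg_coord hPOL _)
        (CTFM.deg_coord hPOL _)) (CTFM.deg_coord hPOL _)) (by simp)
  refine CTFM.inF_congr (fun C hCc => ?_) h4
  by_cases h5 : s(t₁, t₂) ∈ C ∧ s(t₁, t₃) ∈ C ∧ s(t₂, t₃) ∈ C
  · rw [chi_of_mem h5.1, chi_of_mem h5.2.1, chi_of_mem h5.2.2, tri3 hC hCc h5.1 h5.2.1 h5.2.2,
      mul_one, mul_one, mul_one]
  · rw [hz3 C hCc h5]
    by_cases h12 : s(t₁, t₂) ∈ C
    · by_cases h13 : s(t₁, t₃) ∈ C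
      · have h23 : s(t₂, t₃) ∉ C := fun h' => h5 ⟨h12, h13, h'⟩
        rw [chi_of_notMem h23, mul_zero, mul_zero]
      · rw [chi_of_notMem h13, mul_zero, zero_mul, mul_zero]
    · rw [chi_of_notMem h12, zero_mul, zero_mul, mul_zero]

end DL
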