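import Pool.Agent.DL.Y.SpecU
import Pool.Agent.DL.PC
import Pool.Agent.DL.PC2
import Pool.Agent.DL.EX.Spec
import Pool.Agent.DL.EX.VRS

section
/-!
# YNF: normal form of the elements of `F(R)` with respect to a triangle
-/
open SimpleGraph Finset

namespace DL

namespace YNFM

variable {α : Type} [Fintype α] [DecidableEq α] {R : SimpleGraph α} {t₁ t₂ t₃ : α}

/-- functions which have a normal form -/
def Gd (R : SimpleGraph α) (t₁ t₂ t₃ : α) (f : Finset (Sym2 α) → ZMod 2) : Prop :=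
  ∃ (p : Chain α → ZMod 2) (m₁ m₂ m₃ : α → α → ZMod 2) (l : α → α → α → α → ZMod 2), DegLE 3 p ∧
    p 0 = 0 ∧ OffT R t₁ t₂ t₃ m₁ ∧ OffT R t₁ t₂ t₃ m₂ ∧ OffT R t₁ t₂ t₃ m₃ ∧ OffL R t₁ t₂ t₃ l ∧
    ∀ C, IsCyc R C → f C = TNF t₁ t₂ t₃ p m₁ m₂ m₃ l C

theorem tch_add (a a' : α) (m m' : α → α → ZMod 2) (C : Finset (Sym2 α)) :
    tch a a' (m + m') C = tch a a' m C + tch a a' m' C := by
  unfold tch
  simp only [Pi.add_apply, add_mul, sum_add_distrib]

theorem tch_zero (a a' : α) (C : Finset (Sym2 α)) : tch a a' 0 C = 0 := by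
  unfold tch
  simp

theorem cohs_add (l l' : α → α → α → α → ZMod 2) (C : Finset (Sym2 α)) :
    cohs (l + l') C = cohs l C + cohs l' C := by
  unfold cohs
  simp only [Pi.add_apply, add_mul, sum_add_distrib]

theorem cohs_zero (C : Finset (Sym2 α)) : cohs 0 C = 0 := by
  unfold cohs
  simp

/-- one ordered pair -/
def sg2 (c d : α) : α → α → ZMod 2 := fun u v => if u = c ∧ v = d then 1 else 0

theorem tch_sg2 (a a' c d : α) (C : Finset (Sym2 α)) :
    tch a a' (sg2 c d) C = coh a a' c d C := by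
  unfold tch sg2
  rw [sum_eq_single c, sum_eq_single d]
  · simp
  · intro v _ hv
    simp [hv]
  · simp
  · intro u _ hu
    exact sum_eq_zero fun v _ => by simp [hu]
  · simp

theorem offT_sg2 {c d : α} (h : R.Adj c d) (h' : s(c, d) ∉ TrE t₁ t₂ t₃) :
    OffT R t₁ t₂ t₃ (sg2 c d) := by
  intro u v huv
  unfold sg2 at huv
  by_cases hc : u = c ∧ v = d
  · rw [hc.1, hc.2]
    exact ⟨h, h'⟩
  · rw [if_neg hc] at huv
    exact absurd rfl huv

theorem offT_zero : OffT R t₁ t₂ t₃ (0 : α → α → ZMod 2) := fun u v h => absurd rfl h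

theorem offL_zero : OffL R t₁ t₂ t₃ (0 : α → α → α → α → ZMod 2) := fun a b c d h => absurd rfl h

theorem ne_or {x y : ZMod 2} (h : x + y ≠ 0) : x ≠ 0 ∨ y ≠ 0 := by
  by_contra hc
  push Not at hc
  exact h (by rw [hc.1, hc.2, add_zero])

theorem offT_add {m m' : α → α → ZMod 2} (h : OffT R t₁ t₂ t₃ m) (h' : OffT R t₁ t₂ t₃ m') :
    OffT R t₁ t₂ t₃ (m + m') := by
  intro u v huv
  rcases ne_or huv with h1 | h1
  exacts [h u v h1, h' u v h1]

theorem offL_add {l l' : α → α → α → α → ZMod 2} (h : OffL R t₁ t₂ t₃ l)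
    (h' : OffL R t₁ t₂ t₃ l') : OffL R t₁ t₂ t₃ (l + l') := by
  intro a b c d hl
  rcases ne_or hl with h1 | h1
  exacts [h a b c d h1, h' a b c d h1]

theorem Gd.add (hPOL : SpecPOL) {f g : Finset (Sym2 α) → ZMod 2} (hf : Gd R t₁ t₂ t₃ f)
    (hg : Gd R t₁ t₂ t₃ g) : Gd R t₁ t₂ t₃ (fun C => f C + g C) := by
  obtain ⟨p, m₁, m₂, m₃, l, h1, h2, h3, h4, h5, h6, h7⟩ := hf
  obtain ⟨p', n₁, n₂, n₃, l', k1, k2, k3, k4, k5, k6, k7⟩ := hg
  refine ⟨fun a => p a + p' a, m₁ + n₁, m₂ + n₂, m₃ + n₃, l + l', hPOL.add h1 k1, ?_,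
    offT_add h3 k3, offT_add h4 k4, offT_add h5 k5, offL_add h6 k6, fun C hC => ?_⟩
  · show p 0 + p' 0 = 0
    rw [h2, k2, add_zero]
  · show f C + g C = _
    rw [h7 C hC, k7 C hC]
    unfold TNF
    rw [tch_add, tch_add, tch_add, cohs_add]
    ring

theorem Gd.congr {f g : Finset (Sym2 α) → ZMod 2} (hf : Gd R t₁ t₂ t₃ f)
    (h : ∀ C, IsCyc R C → g C = f C) : Gd R t₁ t₂ t₃ g := by
  obtain ⟨p, m₁, m₂, m₃, l, h1, h2, h3, h4, h5, h6, h7⟩ := hf
  exact ⟨p, m₁, m₂, m₃, l, h1, h2, h3, h4, h5, h6, fun C hC => (h C hC).trans (h7 C hC)⟩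

theorem Gd.pol {p : Chain α → ZMod 2} (h : DegLE 3 p) (h0 : p 0 = 0) :
    Gd R t₁ t₂ t₃ (fun C => p (chi C)) := by
  refine ⟨p, 0, 0, 0, 0, h, h0, offT_zero, offT_zero, offT_zero, offL_zero, fun C _ => ?_⟩
  unfold TNF
  rw [tch_zero, tch_zero, tch_zero, cohs_zero]
  simp

theorem Gd.zero (hPOL : SpecPOL) : Gd R t₁ t₂ t₃ (fun _ => 0) :=
  (Gd.pol (R := R) (t₁ := t₁) (t₂ := t₂) (t₃ := t₃) (p := fun _ : Chain α => (0 : ZMod 2))
    (hPOL.zero 3) rfl)

theorem Gd.sum (hPOL : SpecPOL) {ι : Type} (s : Finset ι) (f : ι → Finset (Sym2 α) → ZMod 2)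
    (h : ∀ i ∈ s, Gd R t₁ t₂ t₃ (f i)) : Gd R t₁ t₂ t₃ (fun C => ∑ i ∈ s, f i C) := by
  classical
  induction s using Finset.induction_on with
  | empty => exact Gd.zero hPOL
  | insert i s hi ih =>
    refine ((h i (mem_insert_self _ _)).add hPOL
      (ih fun j hj => h j (mem_insert_of_mem hj))).congr fun C _ => ?_
    rw [sum_insert hi]

theorem Gd.prod (hPOL : SpecPOL) (e e' : Sym2 α) :
    Gd R t₁ t₂ t₃ (fun C => chi C e * chi C e') := by
  have h1 : ∀ e : Sym2 α, DegLE 1 (fun c : Chain α => c e) := fun e => hPOL.ofAdd fun a b => rfl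
  exact Gd.pol (p := fun c : Chain α => c e * c e')
    (hPOL.mono (by norm_num) (hPOL.mul (h1 e) (h1 e'))) (by simp)

/-- an edge of the triangle and another edge -/
theorem Gd.one (hPOL : SpecPOL) {c d : α} (h : R.Adj c d) (h' : s(c, d) ∉ TrE t₁ t₂ t₃) :
    Gd R t₁ t₂ t₃ (coh t₂ t₁ c d) ∧ Gd R t₁ t₂ t₃ (coh t₁ t₃ c d) ∧
      Gd R t₁ t₂ t₃ (coh t₃ t₂ c d) := by
  refine ⟨⟨fun _ => 0, 0, 0, sg2 c d, 0, hPOL.zero 3, rfl, offT_zero, offT_zero, offT_sg2 h h',
    offL_zero, fun C _ => ?_⟩, ⟨fun _ => 0, 0, sg2 c d, 0, 0, hPOL.zero 3, rfl, offT_zero,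
    offT_sg2 h h', offT_zero, offL_zero, fun C _ => ?_⟩, ⟨fun _ => 0, sg2 c d, 0, 0, 0,
    hPOL.zero 3, rfl, offT_sg2 h h', offT_zero, offT_zero, offL_zero, fun C _ => ?_⟩⟩ <;>
  · unfold TNF
    rw [tch_sg2, tch_zero, tch_zero, cohs_zero]
    simp

theorem Gd.left (hPOL : SpecPOL) {a b c d : α} (h : R.Adj c d) (h' : s(c, d) ∉ TrE t₁ t₂ t₃)
    (hab : s(a, b) ∈ TrE t₁ t₂ t₃) : Gd R t₁ t₂ t₃ (coh a b c d) := by
  have h1 := Gd.one (R := R) hPOL h h'
  have h2 := Gd.one (R := R) (t₁ := t₁) (t₂ := t₂) (t₃ := t₃) hPOL h.symm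
    (by rw [Sym2.eq_swap]; exact h')
  have rev : ∀ x y, Gd R t₁ t₂ t₃ (coh y x d c) → Gd R t₁ t₂ t₃ (coh x y c d) := fun x y hx =>
    hx.congr fun C hC => (hC.coh_reverse x y c d).symm
  unfold TrE at hab
  simp only [mem_insert, mem_singleton, Sym2.eq_iff] at hab
  rcases hab with (⟨rfl, rfl⟩ | ⟨rfl, rfl⟩) | (⟨rfl, rfl⟩ | ⟨rfl, rfl⟩) | ⟨rfl, rfl⟩ | ⟨rfl, rfl⟩
  · exact rev _ _ h2.1
  · exact h1.1
  · exact h1.2.1
  · exact rev _ _ h2.2.1
  · exact rev _ _ h2.2.2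
  · exact h1.2.2

theorem share {a b c d : α} (h1 : s(a, b) ∈ TrE t₁ t₂ t₃) (h2 : s(c, d) ∈ TrE t₁ t₂ t₃) :
    ∃ v, v ∈ s(a, b) ∧ v ∈ s(c, d) := by
  unfold TrE at h1 h2
  simp only [mem_insert, mem_singleton] at h1 h2
  rcases h1 with h1 | h1 | h1 <;> rcases h2 with h2 | h2 | h2 <;> rw [h1, h2] <;>
    simp only [Sym2.mem_iff]
  · exact ⟨t₁, by simp⟩
  · exact ⟨t₁, by simp⟩
  · exact ⟨t₂, by simp⟩
  · exact ⟨t₁, by simp⟩
  · exact ⟨t₁, by simp⟩
  · exact ⟨t₃, by simp⟩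
  · exact ⟨t₂, by simp⟩
  · exact ⟨t₃, by simp⟩
  · exact ⟨t₂, by simp⟩

/-- four indices -/
def sg4 (a b c d : α) : α → α → α → α → ZMod 2 :=
  fun a' b' c' d' => if a' = a ∧ b' = b ∧ c' = c ∧ d' = d then 1 else 0

theorem cohs_sg4 (a b c d : α) (C : Finset (Sym2 α)) : cohs (sg4 a b c d) C = coh a b c d C := by
  unfold cohs sg4
  rw [sum_eq_single a, sum_eq_single b, sum_eq_single c, sum_eq_single d]
  · simp
  · intro v _ hv
    simp [hv]
  · simp
  · intro u _ hu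
    exact sum_eq_zero fun v _ => by simp [hu]
  · simp
  · intro u _ hu
    exact sum_eq_zero fun v _ => sum_eq_zero fun w _ => by simp [hu]
  · simp
  · intro u _ hu
    exact sum_eq_zero fun v _ => sum_eq_zero fun w _ => sum_eq_zero fun x _ => by simp [hu]
  · simp

theorem Gd.coh (hPOL : SpecPOL) (a b c d : α) : Gd R t₁ t₂ t₃ (coh a b c d) := by
  by_cases h1 : R.Adj a b
  swap
  · exact (Gd.zero hPOL).congr fun C hC => coh_eq_zero_left fun h => h1 (hC.adj_of_mem h)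
  by_cases h2 : R.Adj c d
  swap
  · exact (Gd.zero hPOL).congr fun C hC => coh_eq_zero_right fun h => h2 (hC.adj_of_mem h)
  by_cases h3 : s(a, b) ∈ TrE t₁ t₂ t₃ <;> by_cases h4 : s(c, d) ∈ TrE t₁ t₂ t₃
  · rcases coh_share (share h3 h4) with h | h
    · exact (Gd.zero hPOL).congr fun C hC => h R C hC
    · exact (Gd.prod hPOL s(a, b) s(c, d)).congr fun C hC => h R C hC
  · exact Gd.left hPOL h2 h4 h3
  · exact (Gd.left hPOL h1 h3 h4).congr fun C hC => hC.coh_comm c d a b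
  · refine ⟨fun _ => 0, 0, 0, 0, sg4 a b c d, hPOL.zero 3, rfl, offT_zero, offT_zero, offT_zero,
      ?_, fun C _ => ?_⟩
    · intro a' b' c' d' h
      unfold sg4 at h
      by_cases hc : a' = a ∧ b' = b ∧ c' = c ∧ d' = d
      · obtain ⟨rfl, rfl, rfl, rfl⟩ := hc
        exact ⟨h1, h2, h3, h4⟩
      · rw [if_neg hc] at h
        exact absurd rfl h
    · unfold TNF
      rw [tch_zero, tch_zero, tch_zero, cohs_sg4]
      simp

theorem Gd.smul (hPOL : SpecPOL) {f : Finset (Sym2 α) → ZMod 2} (hf : Gd R t₁ t₂ t₃ f)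
    (x : ZMod 2) : Gd R t₁ t₂ t₃ (fun C => x * f C) := by
  have hx : x = 0 ∨ x = 1 := by revert x; decide
  rcases hx with rfl | rfl
  · exact (Gd.zero hPOL).congr fun C _ => zero_mul _
  · exact hf.congr fun C _ => one_mul _

end YNFM

open YNFM in
theorem specYNF (hPOL : SpecPOL) : SpecYNF := by
  intro α _ _ R t₁ t₂ t₃ F _ hF
  obtain ⟨p, hp, hp0, l, h⟩ := hF
  refine (((Gd.pol hp hp0).add hPOL (Gd.sum hPOL univ _ fun a _ => Gd.sum hPOL univ _ fun b _ =>
    Gd.sum hPOL univ _ fun c _ => Gd.sum hPOL univ _ fun d _ =>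
      (Gd.coh hPOL a b c d).smul hPOL (l a b c d))).congr fun C hC => h C hC)

end DL
end

section
/-!
# YNP: the Y-Δ graph is nonplanar
-/
open SimpleGraph Finset

set_option linter.unusedSectionVars false

namespace DL

namespace YNPM

variable {α : Type} [Fintype α] [DecidableEq α] {G : SimpleGraph α} {b t₁ t₂ t₃ : α}

/-- the row of `t₁t₂` has no edge at `b` -/
theorem row (h : Cub G b t₁ t₂ t₃) {z : Sym2 α → Sym2 α → ZMod 2} (hz : IsZ2 G z) :
    ∀ f, b ∈ f → z s(t₁, t₂) f = 0 := by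
  obtain ⟨hs, hsup, hb⟩ := hz
  have hb1 : b ≠ t₁ := ((h.nb t₁).2 (Or.inl rfl)).ne
  have hb2 : b ≠ t₂ := ((h.nb t₂).2 (Or.inr (Or.inl rfl))).ne
  have hbn : b ∉ s(t₁, t₂) := by
    rw [Sym2.mem_iff]; push Not; exact ⟨hb1, hb2⟩
  have h0 := hb s(t₁, t₂) b hbn
  have hne : ∀ f, b ∈ f → f ≠ s(b, t₃) → z s(t₁, t₂) f = 0 := by
    intro f hf hf3
    by_contra hne
    obtain ⟨-, hfG, hdj⟩ := hsup _ _ hne
    obtain ⟨w, rfl⟩ := Sym2.mem_iff_exists.1 hf
    have ha : G.Adj b w := hfG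
    rcases (h.nb w).1 ha with rfl | rfl | rfl
    · exact hdj w ⟨by simp, by simp⟩
    · exact hdj w ⟨by simp, by simp⟩
    · exact hf3 rfl
  intro f hf
  by_cases hf3 : f = s(b, t₃)
  · rw [Finset.sum_eq_single s(b, t₃)] at h0
    · rw [hf3]; exact h0
    · intro g hg hg3
      exact hne g (mem_filter.1 hg).2 hg3
    · intro hn
      exact absurd (mem_filter.2 ⟨mem_univ _, by simp⟩) hn
  · exact hne f hf hf3

theorem step (hNPC : SpecNPC) (h : Cub G b t₁ t₂ t₃) (hNP : NP G) :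
    NP (G.deleteEdges {s(t₁, t₂)}) := by
  by_cases ha : G.Adj t₁ t₂
  · obtain ⟨r, hr, z, hz, hne⟩ := hNP
    exact hNPC.tdel (a := t₁) (b := t₂) (c := b) hr hz hne ha ((h.nb t₁).2 (Or.inl rfl)).symm
      ((h.nb t₂).2 (Or.inr (Or.inl rfl))).symm (row h hz)
  · refine hNPC.mono (G := G) ?_ hNP
    intro u v huv
    rw [SimpleGraph.deleteEdges_adj]
    refine ⟨huv, ?_⟩
    rw [Set.mem_singleton_iff]
    intro he
    rw [Sym2.eq_iff] at he
    rcases he with ⟨rfl, rfl⟩ | ⟨rfl, rfl⟩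
    · exact ha huv
    · exact ha huv.symm

end YNPM

open YNPM in
theorem specYNP (hYZS : SpecYZS) (hYEQ : SpecYEQ) (hNPC : SpecNPC) : SpecYNP := by
  intro α _ _ G b t₁ t₂ t₃ h hcon hNP
  have hsub : (TrE t₁ t₂ t₃ : Set (Sym2 α)) = {s(t₁, t₂), s(t₁, t₃), s(t₂, t₃)} := by
    unfold TrE
    push_cast
    rfl
  -- delete the three edges
  have h1 := hYEQ.dele h {s(t₁, t₂)} (by rw [hsub]; intro x hx; simp at hx ⊢; tauto)
  have hNP1 := step hNPC h hNP
  set G1 := G.deleteEdges {s(t₁, t₂)} with hG1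
  have c1 := (hYEQ.cperm h1.2).1
  have h2 := hYEQ.dele h1.2 {s(t₁, t₃)} (by rw [hsub]; intro x hx; simp at hx ⊢; tauto)
  have hNP2 := step hNPC c1 hNP1
  set G2 := G1.deleteEdges {s(t₁, t₃)} with hG2
  have c2 : Cub G2 b t₂ t₃ t₁ := (hYEQ.cperm (hYEQ.cperm h2.2).2).1
  have h3 := hYEQ.dele h2.2 {s(t₂, t₃)} (by rw [hsub]; intro x hx; simp at hx ⊢; tauto)
  have hNP3 := step hNPC c2 hNP2
  set G3 := G2.deleteEdges {s(t₂, t₃)} with hG3
  have hle : G3 ≤ G := (SimpleGraph.deleteEdges_le _).trans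
    ((SimpleGraph.deleteEdges_le _).trans (SimpleGraph.deleteEdges_le _))
  have hadj : ∀ u v, G3.Adj u v ↔ G.Adj u v ∧ s(u, v) ≠ s(t₁, t₂) ∧ s(u, v) ≠ s(t₁, t₃) ∧
      s(u, v) ≠ s(t₂, t₃) := by
    intro u v
    rw [hG3, hG2, hG1]
    simp only [SimpleGraph.deleteEdges_adj, Set.mem_singleton_iff]
    tauto
  have hnte : NTE G3 t₁ t₂ t₃ := by
    refine ⟨?_, ?_, ?_⟩ <;> rw [hadj] <;> tauto
  have hyd : yd G3 b t₁ t₂ t₃ = yd G b t₁ t₂ t₃ := by rw [h3.1, h2.1, h1.1]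
  have hdel : del G3 {b, t₁, t₂, t₃} = del G {b, t₁, t₂, t₃} := by
    ext u v
    simp only [del, hadj]
    constructor
    · rintro ⟨h4, h5⟩
      exact ⟨h4.1, h5⟩
    · rintro ⟨h4, h5, h6⟩
      refine ⟨⟨h4, ?_, ?_, ?_⟩, h5, h6⟩ <;>
      · intro he
        simp only [mem_insert, mem_singleton, not_or] at h5
        have : u ∈ s(u, v) := by simp
        rw [he, Sym2.mem_iff] at this
        tauto
  have hcon3 : ConnOff G3 {b, t₁, t₂, t₃} := by
    intro u hu v hv hu' hv'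
    rw [hdel]
    exact hcon u (VS_mono hle hu) v (VS_mono hle hv) hu' hv'
  obtain ⟨r, hr, z, hz, hne⟩ := hNP3
  obtain ⟨w, hw, -, -, hvk⟩ := hYZS h3.2 hnte hcon3 hz
  rw [hyd] at hw
  exact ⟨r, hr, w, hw, by rw [hvk r hr]; exact hne⟩

end DL
end

section
/-!
# MP_3ff0f8_gt, STEP Y, part U, module YOK (helper43): STEP Y
-/
open SimpleGraph Finset

namespace DL

namespace YOKM

theorem deleteEdges_eq_self' {α : Type} {G : SimpleGraph α} {a b : α} (h : ¬ G.Adj a b) : delE G a b = G := by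
  ext u v
  unfold delE
  rw [deleteEdges_adj, Set.mem_singleton_iff]
  refine ⟨fun h => h.1, fun h1 => ⟨h1, fun h2 => h ?_⟩⟩
  rw [Sym2.eq_iff] at h2
  rcases h2 with ⟨rfl, rfl⟩ | ⟨rfl, rfl⟩
  · exact h1
  · exact h1.symm

variable {α : Type} [Fintype α] [DecidableEq α]

/-- adding one edge -/
theorem step (hYKT : SpecYKT) {G R : SimpleGraph α} {b t₁ t₂ t₃ : α} (hc : Cub G b t₁ t₂ t₃)
    (hR : yd G b t₁ t₂ t₃ = R) (hC1 : C1 R) (h7 : 7 ≤ (VS R).card) (d1 : 4 ≤ dg R t₁) (d2 : 4 ≤ dg R t₂)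
    (d3 : 4 ≤ dg R t₃) (hK : KZ R) (h : KZ (delE G t₁ t₂)) : KZ G := by
  by_cases hadj : G.Adj t₁ t₂
  · subst hR
    exact hYKT hc hadj hC1 h7 d1 d2 d3 hK h
  · rwa [deleteEdges_eq_self' hadj] at h

theorem card_three {G : SimpleGraph α} {v : α} (h : dg G v = 3) : ∃ t₁ t₂ t₃, Cub G v t₁ t₂ t₃ := by
  unfold dg at h
  obtain ⟨t₁, t₂, t₃, h12, h13, h23, heq⟩ := card_eq_three.1 h
  refine ⟨t₁, t₂, t₃, h12, h13, h23, fun w => ?_⟩
  have h1 : w ∈ NB G {v} ↔ G.Adj v w := by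
    have : w ∈ NB G {v} ↔ w ∉ ({v} : Finset α) ∧ ∃ a ∈ ({v} : Finset α), G.Adj a w := by
      simp only [NB, mem_filter, mem_univ, true_and]
    rw [this]
    constructor
    · rintro ⟨-, a, ha, haw⟩
      rw [mem_singleton] at ha
      rwa [← ha]
    · intro hw
      exact ⟨fun h => hw.ne (mem_singleton.1 h).symm, v, mem_singleton_self v, hw⟩
  rw [← h1, heq]
  simp only [mem_insert, mem_singleton]

end YOKM

open YOKM in
/-- **YOK** -/
theorem specYOK (hLIV : SpecLIV) (hYTU : SpecYTU) (hYKZ : SpecYKZ) (hYKT : SpecYKT) (hYC1 : SpecYC1)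
    (hYNP : SpecYNP) (hYEQ : SpecYEQ) : SpecYOK := by
  intro α _ _ G hC1 hNP hIH h8 ⟨b, hb, hd⟩
  obtain ⟨t₁, t₂, t₃, hc⟩ := card_three hd
  set R := yd G b t₁ t₂ t₃ with hR
  have rC1 : C1 R := hYC1.c1 hC1 h8 hc
  obtain ⟨rcon, gcon⟩ := hYC1.conn hC1 h8 hc
  have rNP : NP R := hYNP hc gcon hNP
  have r7 : 7 ≤ (VS R).card := by
    rw [hR, hYC1.vs hC1 h8 hc, card_sdiff_of_subset (singleton_subset_iff.2 hb), card_singleton]
    omega
  obtain ⟨d1, d2, d3⟩ := hYC1.deg hC1 h8 hc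
  have htri : Trg R t₁ t₂ t₃ := hYEQ.tri hc
  have hsz : sz R < sz G := hYC1.sz hc
  have hIH' : ∀ H : SimpleGraph α, sz H ≤ sz R → C1 H → NP H → OK H :=
    fun H hH h1 h2 => hIH H (lt_of_le_of_lt hH hsz) h1 h2
  obtain ⟨rU, rK⟩ := hIH' R le_rfl rC1 rNP
  have hiv1 : HIV R t₁ t₂ t₃ := ⟨rC1, rNP, r7, htri, rcon, d1, d2, d3⟩
  have hiv2 : HIV R t₁ t₃ t₂ := ⟨rC1, rNP, r7, ⟨htri.2.1, htri.1, htri.2.2.symm⟩, by
    have : ({t₁, t₃, t₂} : Finset α) = {t₁, t₂, t₃} := by
      rw [pair_comm t₃ t₂]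
    rw [this]
    exact rcon, d1, d3, d2⟩
  have hiv3 : HIV R t₂ t₃ t₁ := ⟨rC1, rNP, r7, ⟨htri.2.2, htri.1.symm, htri.2.1.symm⟩, by
    have : ({t₂, t₃, t₁} : Finset α) = {t₁, t₂, t₃} := by
      rw [pair_comm t₃ t₁, insert_comm]
    rw [this]
    exact rcon, d2, d3, d1⟩
  refine ⟨hYTU hc rU (hLIV hiv1 hIH') (hLIV hiv2 hIH') (hLIV hiv3 hIH'), ?_⟩
  -- the graphs without one, two, three edges of the triangle
  have s12 : ({s(t₁, t₂)} : Set (Sym2 α)) ⊆ TrE t₁ t₂ t₃ := by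
    intro e he
    rw [Set.mem_singleton_iff] at he
    subst he
    simp [TrE]
  have s13 : ({s(t₁, t₃)} : Set (Sym2 α)) ⊆ TrE t₁ t₂ t₃ := by
    intro e he
    rw [Set.mem_singleton_iff] at he
    subst he
    simp [TrE]
  have s23 : ({s(t₂, t₃)} : Set (Sym2 α)) ⊆ TrE t₁ t₂ t₃ := by
    intro e he
    rw [Set.mem_singleton_iff] at he
    subst he
    simp [TrE]
  obtain ⟨y2, c2⟩ := hYEQ.dele hc _ s12
  obtain ⟨y1, c1⟩ := hYEQ.dele c2 _ s13
  obtain ⟨y0, c0⟩ := hYEQ.dele c1 _ s23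
  have e0 : ∀ u v, (((G.deleteEdges {s(t₁, t₂)}).deleteEdges {s(t₁, t₃)}).deleteEdges {s(t₂, t₃)}).Adj u v ↔
      G.Adj u v ∧ s(u, v) ≠ s(t₁, t₂) ∧ s(u, v) ≠ s(t₁, t₃) ∧ s(u, v) ≠ s(t₂, t₃) := by
    intro u v
    simp only [deleteEdges_adj, Set.mem_singleton_iff, and_assoc, ne_eq]
  have n0 : NTE (((G.deleteEdges {s(t₁, t₂)}).deleteEdges {s(t₁, t₃)}).deleteEdges {s(t₂, t₃)}) t₁ t₂ t₃ :=
    ⟨fun h => ((e0 _ _).1 h).2.1 rfl, fun h => ((e0 _ _).1 h).2.2.1 rfl, fun h => ((e0 _ _).1 h).2.2.2 rfl⟩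
  have g0 : ConnOff (((G.deleteEdges {s(t₁, t₂)}).deleteEdges {s(t₁, t₃)}).deleteEdges {s(t₂, t₃)})
      {b, t₁, t₂, t₃} := by
    intro u hu v hv hu' hv'
    obtain ⟨x, hx⟩ := mem_VS.1 hu
    obtain ⟨y, hy⟩ := mem_VS.1 hv
    refine (gcon u (mem_VS.2 ⟨x, ((e0 _ _).1 hx).1⟩) v (mem_VS.2 ⟨y, ((e0 _ _).1 hy).1⟩) hu' hv').mono ?_
    intro p q hpq
    have hp1 : p ≠ t₁ := fun h => hpq.2.1 (by rw [h]; simp)
    have hp2 : p ≠ t₂ := fun h => hpq.2.1 (by rw [h]; simp)
    have hp3 : p ≠ t₃ := fun h => hpq.2.1 (by rw [h]; simp)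
    refine ⟨(e0 _ _).2 ⟨hpq.1, ?_, ?_, ?_⟩, hpq.2.1, hpq.2.2⟩
    · intro h
      rw [Sym2.eq_iff] at h
      rcases h with ⟨h, -⟩ | ⟨h, -⟩
      · exact hp1 h
      · exact hp2 h
    · intro h
      rw [Sym2.eq_iff] at h
      rcases h with ⟨h, -⟩ | ⟨h, -⟩
      · exact hp1 h
      · exact hp3 h
    · intro h
      rw [Sym2.eq_iff] at h
      rcases h with ⟨h, -⟩ | ⟨h, -⟩
      · exact hp2 h
      · exact hp3 h
  have k0 : KZ (((G.deleteEdges {s(t₁, t₂)}).deleteEdges {s(t₁, t₃)}).deleteEdges {s(t₂, t₃)}) := by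
    refine hYKZ c0 n0 g0 ?_
    rw [y0, y1, y2]
    exact rK
  have k1 : KZ ((G.deleteEdges {s(t₁, t₂)}).deleteEdges {s(t₁, t₃)}) := by
    have hp := hYEQ.perm ((G.deleteEdges {s(t₁, t₂)}).deleteEdges {s(t₁, t₃)}) b t₂ t₁ t₃
    have hp' := hYEQ.perm ((G.deleteEdges {s(t₁, t₂)}).deleteEdges {s(t₁, t₃)}) b t₁ t₂ t₃
    refine step hYKT (hYEQ.cperm (hYEQ.cperm c1).2).1 (R := R) ?_ rC1 r7 d2 d3 d1 rK k0
    rw [hp.1, hp'.2.1, y1, y2]
  have k2 : KZ (G.deleteEdges {s(t₁, t₂)}) := by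
    have hp := hYEQ.perm (G.deleteEdges {s(t₁, t₂)}) b t₁ t₂ t₃
    refine step hYKT (hYEQ.cperm c2).1 (R := R) ?_ rC1 r7 d1 d3 d2 rK k1
    rw [hp.1, y2]
  exact step hYKT hc (R := R) rfl rC1 r7 d1 d2 d3 rK k2

end DL
end

section
/-!
MP_3ff0f8_gt, ALGEBRA HALF, STEP Y, part U, module **YSB** (helper72): subdivision of an edge of a
cycle by a vertex which is not on the cycle, and the coherence functions.
-/
open SimpleGraph Finset

namespace DL

namespace YSBM

variable {α : Type} [Fintype α] [DecidableEq α]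

/-- reachability does not change under a subdivision -/
theorem rch_iff {D : Finset (Sym2 α)} {x y k : α} {e f : Sym2 α} {u v : α} (hxy : s(x, y) ∈ D)
    (hk : k ∉ vs D) (he : e ≠ s(x, y)) (hf : f ≠ s(x, y)) (hke : k ∉ e) (hkf : k ∉ f)
    (hu : u ≠ k) (hv : v ≠ k) :
    Rch (D \ {e, f}) u v ↔
      Rch (insert s(k, x) (insert s(k, y) (D.erase s(x, y))) \ {e, f}) u v := by
  have hxk : x ≠ k := fun h => hk (h ▸ left_mem_vs hxy)
  have hyk : y ≠ k := fun h => hk (h ▸ right_mem_vs hxy)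
  have hS : s(x, y) ∈ D \ {e, f} := by
    rw [mem_sdiff, mem_insert, mem_singleton]
    refine ⟨hxy, ?_⟩
    rintro (h | h)
    · exact he h.symm
    · exact hf h.symm
  have hC1 : s(k, x) ∈ insert s(k, x) (insert s(k, y) (D.erase s(x, y))) \ {e, f} := by
    rw [mem_sdiff]
    refine ⟨mem_insert_self _ _, ?_⟩
    rw [mem_insert, mem_singleton]
    rintro (h | h)
    · exact hke (h ▸ Sym2.mem_mk_left _ _)
    · exact hkf (h ▸ Sym2.mem_mk_left _ _)
  have hC2 : s(k, y) ∈ insert s(k, x) (insert s(k, y) (D.erase s(x, y))) \ {e, f} := by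
    rw [mem_sdiff]
    refine ⟨mem_insert_of_mem (mem_insert_self _ _), ?_⟩
    rw [mem_insert, mem_singleton]
    rintro (h | h)
    · exact hke (h ▸ Sym2.mem_mk_left _ _)
    · exact hkf (h ▸ Sym2.mem_mk_left _ _)
  constructor
  · intro h
    refine h.mem_of_closed
      (X := {w | Rch (insert s(k, x) (insert s(k, y) (D.erase s(x, y))) \ {e, f}) u w}) ?_
      (Rch.refl _ _)
    intro p q hpq hp
    rw [Set.mem_ofPred_eq] at hp ⊢
    refine hp.trans ?_
    by_cases h1 : s(p, q) = s(x, y)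
    · rw [Sym2.eq_iff] at h1
      rcases h1 with ⟨rfl, rfl⟩ | ⟨rfl, rfl⟩
      · exact (Rch.of_mem hC1).symm.trans (Rch.of_mem hC2)
      · exact (Rch.of_mem hC2).symm.trans (Rch.of_mem hC1)
    · rw [mem_sdiff] at hpq
      refine Rch.of_mem ?_
      rw [mem_sdiff]
      exact ⟨mem_insert_of_mem (mem_insert_of_mem (mem_erase.2 ⟨h1, hpq.1⟩)), hpq.2⟩
  · intro h
    have h2 := h.mem_of_closed
      (X := {w | (w ≠ k → Rch (D \ {e, f}) u w) ∧ (w = k → Rch (D \ {e, f}) u x)}) (by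
        intro p q hpq hp
        rw [Set.mem_ofPred_eq] at hp ⊢
        rw [mem_sdiff, mem_insert, mem_insert] at hpq
        obtain ⟨h1 | h1 | h1, h3⟩ := hpq
        · rw [Sym2.eq_iff] at h1
          rcases h1 with ⟨rfl, rfl⟩ | ⟨rfl, rfl⟩
          · exact ⟨fun _ => hp.2 rfl, fun h => absurd h hxk⟩
          · exact ⟨fun h => absurd rfl h, fun _ => hp.1 hxk⟩
        · rw [Sym2.eq_iff] at h1
          rcases h1 with ⟨rfl, rfl⟩ | ⟨rfl, rfl⟩
          · exact ⟨fun _ => (hp.2 rfl).trans (Rch.of_mem hS), fun h => absurd h hyk⟩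
          · exact ⟨fun h => absurd rfl h, fun _ => (hp.1 hyk).trans (Rch.of_mem hS).symm⟩
        · rw [mem_erase] at h1
          have hp' : p ≠ k := fun h => hk (h ▸ left_mem_vs h1.2)
          have hq' : q ≠ k := fun h => hk (h ▸ right_mem_vs h1.2)
          refine ⟨fun _ => (hp.1 hp').trans (Rch.of_mem ?_), fun h => absurd h hq'⟩
          rw [mem_sdiff]
          exact ⟨h1.2, h3⟩)
      ⟨fun _ => Rch.refl _ _, fun h => absurd h hu⟩
    exact h2.1 hv

theorem notMem_mk {k c d : α} (hc : c ≠ k) (hd : d ≠ k) : k ∉ s(c, d) := by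
  rw [Sym2.mem_iff]
  rintro (h | h)
  · exact hc h.symm
  · exact hd h.symm

theorem mem_iff {D : Finset (Sym2 α)} {x y k : α} {e : Sym2 α} (he : e ≠ s(x, y)) (hke : k ∉ e) :
    e ∈ insert s(k, x) (insert s(k, y) (D.erase s(x, y))) ↔ e ∈ D := by
  rw [mem_insert, mem_insert, mem_erase]
  constructor
  · rintro (h | h | h)
    · exact absurd (h ▸ Sym2.mem_mk_left _ _) hke
    · exact absurd (h ▸ Sym2.mem_mk_left _ _) hke
    · exact h.2
  · exact fun h => Or.inr (Or.inr ⟨he, h⟩)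

end YSBM

open YSBM

theorem specYSB : SpecYSB where
  sub := by
    intro α _ _ G R k x y D hD hxy hk hkx hky hE
    have hne : x ≠ y := (hD.adj_of_mem hxy).ne
    have h1 := hD.isPth hxy
    rw [sdiff_singleton_eq_erase] at h1
    have h2 : IsPth G x y (D.erase s(x, y)) := h1.transfer fun e he =>
      hE e (mem_of_mem_erase he) (ne_of_mem_erase he)
    refine isCyc_of_isPth_del hkx hky hne (DL.isPth_del.2 ⟨h2, ?_⟩)
    rw [disjoint_singleton_right]
    exact fun h => hk (vs_mono (erase_subset _ _) h)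
  sup := by
    intro α _ _ G R k x y C hC hkx hky hne hxy hR hE
    have h1 := hC.isPth_del hkx hky hne
    have hP : C \ {s(k, x), s(k, y)} = (C.erase s(k, x)).erase s(k, y) := by
      ext e
      simp only [mem_sdiff, mem_insert, mem_singleton, mem_erase, not_or]
      tauto
    rw [hP] at h1
    obtain ⟨h2, h3⟩ := DL.isPth_del.1 h1
    rw [disjoint_singleton_right] at h3
    have h4 : IsPth R x y ((C.erase s(k, x)).erase s(k, y)) := h2.transfer fun e he =>
      hE e (mem_of_mem_erase (mem_of_mem_erase he)) fun hke => h3 (mem_vs.2 ⟨e, he, hke⟩)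
    refine ⟨h4.isCyc hR fun h => hxy (mem_of_mem_erase (mem_of_mem_erase h)), ?_⟩
    rw [vs_insert, mem_union, mem_insert, mem_singleton]
    rintro ((h | h) | h)
    · exact (hC.adj_of_mem hkx).ne h
    · exact (hC.adj_of_mem hky).ne h
    · exact h3 h
  coh1 := by
    intro α _ _ R k x y c d D hD hxy hk hc hd hne
    have hxy' : x ≠ y := (hD.adj_of_mem hxy).ne
    have hyk : y ≠ k := fun h => hk (h ▸ right_mem_vs hxy)
    have hyx : s(y, x) = s(x, y) := Sym2.eq_swap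
    have h1 := hD.isPth hxy
    rw [sdiff_singleton_eq_erase] at h1
    have h2 : IsPth (del (⊤ : SimpleGraph α) {k}) x y (D.erase s(x, y)) :=
      DL.isPth_del.2 ⟨h1.mono le_top, by
        rw [disjoint_singleton_right]
        exact fun h => hk (vs_mono (erase_subset _ _) h)⟩
    rw [coh_eq_dirn (hyx.symm ▸ hxy) (hyx.symm ▸ hne), hyx, sdiff_singleton_eq_erase,
      coh_two h2 ((top_adj _ _).2 hyk.symm) hxy'
        (fun h => notMem_mk hc hd (h.symm ▸ Sym2.mem_mk_left _ _))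
        (fun h => notMem_mk hc hd (h.symm ▸ Sym2.mem_mk_left _ _))]
  coh2 := by
    intro α _ _ R k x y a a' c d D hD hxy hk ha ha' hc hd hne hne'
    have h1 := notMem_mk ha ha'
    have h2 := notMem_mk hc hd
    rw [coh_apply, coh_apply]
    classical
    exact if_congr (and_congr (mem_iff hne h1).symm (and_congr (mem_iff hne' h2).symm
      (rch_iff hxy hk hne hne' h1 h2 ha' hc))) rfl rfl

end DL
end

section
/-!
# MP_3ff0f8_gt, algebra half, STEP Y, module YT1 (helper98): one edge of the triangle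
-/
set_option autoImplicit false
set_option linter.unusedSectionVars false

open SimpleGraph Finset

namespace DL

namespace YT1M

variable {α : Type} [Fintype α] [DecidableEq α] {G : SimpleGraph α}

theorem mrg_b (a b : α) : mrg a b b = a := if_pos rfl

theorem mrg_ne {a b x : α} (h : x ≠ b) : mrg a b x = x := if_neg h

theorem map_off {a b : α} {e : Sym2 α} (h : b ∉ e) : e.map (mrg a b) = e := by
  induction e using Sym2.ind with
  | _ u v =>
    rw [Sym2.mem_iff, not_or] at h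
    rw [Sym2.map_mk]
    show s(mrg a b u, mrg a b v) = s(u, v)
    rw [mrg_ne (Ne.symm h.1), mrg_ne (Ne.symm h.2)]

theorem lft_apply {a b : α} {e : Sym2 α} (h : e ∈ G.edgeSet) (hne : e ≠ s(a, b)) (c : Chain α) :
    lft G a b c e = c (e.map (mrg a b)) := by
  classical
  unfold lft
  rw [if_neg hne, if_pos h]

/-- a chain of `Z1` which is zero off `ab` is zero -/
theorem eq_of_off {a b : α} {c d : Chain α} (hc : c ∈ Z1 G) (hd : d ∈ Z1 G)
    (h : ∀ e ∈ G.edgeSet, e ≠ s(a, b) → c e = d e) : c = d := by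
  have h0 : c + d ∈ Z1 G := add_mem hc hd
  rw [mem_Z1] at h0
  have hz : ∀ e, e ≠ s(a, b) → (c + d) e = 0 := by
    intro e he
    by_contra h1
    have h2 := h0.1 e h1
    rw [Pi.add_apply, h e h2 he, zmod2_add_self] at h1
    exact h1 rfl
  have hb := h0.2 b
  rw [bdy_eq, sum_eq_single s(a, b)] at hb
  · have : c + d = 0 := by
      funext e
      by_cases he : e = s(a, b)
      · rw [he]; exact hb
      · exact hz e he
    have h1 := chain_add_eq_iff.1 this
    rwa [zero_add] at h1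
  · intro e _ he
    exact hz e he
  · intro h1
    exact absurd (mem_filter.2 ⟨mem_univ s(a, b), Sym2.mem_mk_right a b⟩) h1

end YT1M

open YT1M in
theorem specYT1 (hYF1 : SpecYF1) (hYKF : SpecYKF) (hYEQ : SpecYEQ) (hCTA : SpecCTA)
    (hCTB : SpecCTB) (hCTD : SpecCTD) (hYSB : SpecYSB) (hPOL : SpecPOL) (hDCB : SpecDCB) :
    SpecYT1 := by
  classical
  intro α _ _ G b t₁ t₂ t₃ hC a12 n13 n23 hU hL f hf hf0
  have n12' := hC.n12
  have n13' := hC.n13
  have n23' := hC.n23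
  have ab1 : G.Adj b t₁ := (hC.nb t₁).2 (Or.inl rfl)
  have ab2 : G.Adj b t₂ := (hC.nb t₂).2 (Or.inr (Or.inl rfl))
  have ab3 : G.Adj b t₃ := (hC.nb t₃).2 (Or.inr (Or.inr rfl))
  have hctr : contr G t₃ b = yd G b t₁ t₂ t₃ := hYEQ.ctr hC a12
  have hno : NoCN G t₃ b := by
    intro x hx
    rcases (hC.nb x).1 hx.2 with rfl | rfl | rfl
    · exact n13 hx.1.symm
    · exact n23 hx.1.symm
    · exact hx.1.ne rfl
  have a3b : G.Adj t₃ b := ab3.symm
  -- the function `F`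
  obtain ⟨F, hF⟩ : ∃ F : Finset (Sym2 α) → ZMod 2, ∀ D C, IsCyc (contr G t₃ b) D →
      chi C = lft G t₃ b (chi D) → F D = f C := by
    refine ⟨fun D => if h : IsCyc (contr G t₃ b) D then f (hCTA.cl a3b hno D h).choose else 0, ?_⟩
    intro D C hD hDC
    simp only [hD, dif_pos]
    congr 1
    apply chi_injective
    rw [(hCTA.cl a3b hno D hD).choose_spec.2, hDC]
  -- the criterion for corresponding cycles
  have crit : ∀ D C, IsCyc (contr G t₃ b) D → IsCyc G C →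
      (∀ e ∈ G.edgeSet, e ≠ s(t₃, b) → chi C e = chi D (e.map (mrg t₃ b))) → F D = f C := by
    intro D C hD hC' h
    refine hF D C hD ?_
    refine eq_of_off (b := b) (a := t₃) hC'.chi_mem (hCTA.lz a3b hno _ hD.chi_mem) fun e he hne => ?_
    rw [h e he hne, lft_apply he hne]
  -- `F` is `D_4`-even
  have hFe : D4even (contr G t₃ b) F := by
    intro D
    obtain ⟨D', hD'⟩ := hCTD a3b hno D
    have h1 : ∀ e, F (D.cyc e) = f (D'.cyc e) := fun e =>
      hF _ _ (hDCB.cyc D e).1 (hD' e).2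
    rw [sum_congr rfl fun e _ => h1 e]
    exact hf D'
  have hInF : InF (yd G b t₁ t₂ t₃) F := hU F (hctr ▸ hFe)
  -- edges of `R` off the triangle
  have hRG : ∀ e ∈ (contr G t₃ b).edgeSet, e ≠ s(t₁, t₃) → e ≠ s(t₂, t₃) → e ∈ G.edgeSet := by
    intro e he h1 h2
    rw [hctr] at he
    induction e using Sym2.ind with
    | _ u v =>
      rw [mem_edgeSet] at he ⊢
      rcases he with h | h
      · exact h.1
      · rw [fromEdgeSet_adj, mem_coe] at h
        have h3 := h.1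
        simp only [TrE, mem_insert, mem_singleton] at h3
        rcases h3 with h3 | h3 | h3
        · rw [← mem_edgeSet, h3]; exact a12
        · exact absurd h3 h1
        · exact absurd h3 h2
  have hbR : ∀ D, IsCyc (contr G t₃ b) D → b ∉ vs D := by
    intro D hD hb
    obtain ⟨e, he, hbe⟩ := mem_vs.1 hb
    have h1 := hD.subset e he
    induction e using Sym2.ind with
    | _ u v =>
      rw [mem_edgeSet] at h1
      rw [Sym2.mem_iff] at hbe
      rcases hbe with h | h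
      · exact h1.1 h.symm
      · exact h1.2.1 h.symm
  have m1 : Sym2.map (mrg t₃ b) s(b, t₁) = s(t₁, t₃) := by
    rw [Sym2.map_mk]
    show s(mrg t₃ b b, mrg t₃ b t₁) = s(t₁, t₃)
    rw [mrg_b, mrg_ne ab1.ne', Sym2.eq_swap]
  have m2 : Sym2.map (mrg t₃ b) s(b, t₂) = s(t₂, t₃) := by
    rw [Sym2.map_mk]
    show s(mrg t₃ b b, mrg t₃ b t₂) = s(t₂, t₃)
    rw [mrg_b, mrg_ne ab2.ne', Sym2.eq_swap]
  -- the edges of `G` at `b`
  have hbe : ∀ e ∈ G.edgeSet, b ∈ e → e ≠ s(t₃, b) → e = s(b, t₁) ∨ e = s(b, t₂) := by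
    intro e he hb hne
    obtain ⟨w, rfl⟩ := Sym2.mem_iff_exists.1 hb
    rw [mem_edgeSet] at he
    rcases (hC.nb w).1 he with rfl | rfl | rfl
    · exact Or.inl rfl
    · exact Or.inr rfl
    · exact absurd Sym2.eq_swap hne
  have e13n : s(t₁, t₃) ∉ G.edgeSet := n13
  have e23n : s(t₂, t₃) ∉ G.edgeSet := n23
  -- case 1
  have F1 : ∀ D, IsCyc (contr G t₃ b) D → s(t₁, t₃) ∉ D → s(t₂, t₃) ∉ D → F D = f D := by
    intro D hD h1 h2
    have hDG : IsCyc G D := hD.transfer fun e he =>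
      hRG e (hD.subset e he) (fun h => h1 (h ▸ he)) (fun h => h2 (h ▸ he))
    refine crit D D hD hDG fun e he hne => ?_
    by_cases hb : b ∈ e
    · have hbD : e ∉ D := fun h => hbR D hD (mem_vs.2 ⟨e, h, hb⟩)
      rw [chi_of_notMem hbD]
      rcases hbe e he hb hne with rfl | rfl
      · rw [m1, chi_of_notMem h1]
      · rw [m2, chi_of_notMem h2]
    · rw [map_off hb]
  -- case 2
  have F2 : ∀ D, IsCyc (contr G t₃ b) D → s(t₁, t₃) ∈ D → s(t₂, t₃) ∉ D →
      F D = f (insert s(b, t₁) (insert s(b, t₃) (D.erase s(t₁, t₃)))) := by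
    intro D hD h1 h2
    have hbD := hbR D hD
    have hDG := hYSB.sub (G := G) hD h1 hbD ab1 ab3 fun e he hne =>
      hRG e (hD.subset e he) hne (fun h => h2 (h ▸ he))
    refine crit D _ hD hDG fun e he hne => ?_
    by_cases hb : b ∈ e
    · rcases hbe e he hb hne with rfl | rfl
      · rw [m1, chi_of_mem h1, chi_of_mem (mem_insert_self _ _)]
      · rw [m2, chi_of_notMem h2, chi_of_notMem]
        simp only [mem_insert, mem_erase, not_or, not_and]
        refine ⟨?_, ?_, fun _ h => hbD (left_mem_vs h)⟩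
        · rw [Sym2.eq_iff]
          rintro (⟨_, h⟩ | ⟨h, _⟩)
          · exact n12' h.symm
          · exact ab1.ne h
        · rw [Sym2.eq_iff]
          rintro (⟨_, h⟩ | ⟨h, _⟩)
          · exact n23' h
          · exact ab3.ne h
    · rw [map_off hb]
      have h3 : e ≠ s(t₁, t₃) := fun h => e13n (h ▸ he)
      have h4 : e ≠ s(b, t₁) := fun h => hb (by rw [h]; simp)
      have h5 : e ≠ s(b, t₃) := fun h => hb (by rw [h]; simp)
      simp only [chi_apply, mem_insert, mem_erase, h3, h4, h5, false_or, ne_eq, not_false_eq_true,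
        true_and]
  -- case 3
  have F3 : ∀ D, IsCyc (contr G t₃ b) D → s(t₁, t₃) ∉ D → s(t₂, t₃) ∈ D →
      F D = f (insert s(b, t₂) (insert s(b, t₃) (D.erase s(t₂, t₃)))) := by
    intro D hD h1 h2
    have hbD := hbR D hD
    have hDG := hYSB.sub (G := G) hD h2 hbD ab2 ab3 fun e he hne =>
      hRG e (hD.subset e he) (fun h => h1 (h ▸ he)) hne
    refine crit D _ hD hDG fun e he hne => ?_
    by_cases hb : b ∈ e
    · rcases hbe e he hb hne with rfl | rfl
      · rw [m1, chi_of_notMem h1, chi_of_notMem]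
        simp only [mem_insert, mem_erase, not_or, not_and]
        refine ⟨?_, ?_, fun _ h => hbD (left_mem_vs h)⟩
        · rw [Sym2.eq_iff]
          rintro (⟨_, h⟩ | ⟨h, _⟩)
          · exact n12' h
          · exact ab2.ne h
        · rw [Sym2.eq_iff]
          rintro (⟨_, h⟩ | ⟨h, _⟩)
          · exact n13' h
          · exact ab3.ne h
      · rw [m2, chi_of_mem h2, chi_of_mem (mem_insert_self _ _)]
    · rw [map_off hb]
      have h3 : e ≠ s(t₂, t₃) := fun h => e23n (h ▸ he)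
      have h4 : e ≠ s(b, t₂) := fun h => hb (by rw [h]; simp)
      have h5 : e ≠ s(b, t₃) := fun h => hb (by rw [h]; simp)
      simp only [chi_apply, mem_insert, mem_erase, h3, h4, h5, false_or, ne_eq, not_false_eq_true,
        true_and]
  -- `F D = 0` if `e12 ∉ D`
  have m12 : Sym2.map (mrg t₃ b) s(t₁, t₂) = s(t₁, t₂) := map_off (by
    rw [Sym2.mem_iff]
    rintro (h | h)
    · exact ab1.ne h
    · exact ab2.ne h)
  have ne12 : s(t₁, t₂) ≠ s(t₃, b) := by
    rw [Ne, Sym2.eq_iff]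
    rintro (⟨h, _⟩ | ⟨h, _⟩)
    · exact n13' h
    · exact ab1.ne' h
  have F0 : ∀ D, IsCyc (contr G t₃ b) D → s(t₁, t₂) ∉ D → F D = 0 := by
    intro D hD h12
    obtain ⟨C, hC1, hC2⟩ := hCTA.cl a3b hno D hD
    rw [hF D C hD hC2]
    refine hf0 C hC1.1 fun h => ?_
    have h1 := chi_of_mem h
    rw [hC2, lft_apply a12 ne12, m12, chi_of_notMem h12] at h1
    exact zero_ne_one h1
  have hyd : yd G b t₂ t₁ t₃ = yd G b t₁ t₂ t₃ := (hYEQ.perm G b t₁ t₂ t₃).2.1
  have hK1 : KCJ (yd G b t₁ t₂ t₃) t₁ t₂ t₃ F := by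
    refine hYKF hC a12 n13 n23 f F hf hf0 ?_ ?_
    · intro D hD _ h1 h2
      exact F1 D (by rw [hctr]; exact hD) h1 h2
    · intro D hD _ h1 h2
      exact F3 D (by rw [hctr]; exact hD) h1 h2
  have hK2 : KCJ (yd G b t₁ t₂ t₃) t₂ t₁ t₃ F := by
    have h0 := hYKF (hYEQ.cperm hC).2 a12.symm n23 n13 f F hf
      (fun C hC' h => hf0 C hC' (by rwa [Sym2.eq_swap]))
      (fun D hD _ h1 h2 => F1 D (by rw [hctr, ← hyd]; exact hD) h2 h1)
      (fun D hD _ h1 h2 => F2 D (by rw [hctr, ← hyd]; exact hD) h2 h1)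
    rwa [hyd] at h0
  obtain ⟨q, μ, hq, hμ, hqμ⟩ := hYF1 (hYEQ.tri hC) hInF hK1 hK2
    (fun D hD h => F0 D (by rw [hctr]; exact hD) h) hL
  -- the conclusion
  let L : Chain α →+ Chain α := AddMonoidHom.mk' (prj t₃ b) fun c d => (hCTA.lin G t₃ b c d).2
  refine ⟨fun c => q (L c), μ, hPOL.comp L hq, fun C hCc => ?_⟩
  by_cases h12 : s(t₁, t₂) ∈ C
  swap
  · rw [hf0 C hCc h12, chi_of_notMem h12, zero_mul, zero_add]
    symm
    unfold tch
    refine sum_eq_zero fun u _ => sum_eq_zero fun v _ => ?_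
    rw [coh_eq_zero_left (by rwa [Sym2.eq_swap]), mul_zero]
  -- `C` is in `CycM`
  have hM : CycM G t₃ b C := by
    refine ⟨hCc, fun h3 hb => ?_⟩
    by_contra h3b
    have h3b' : s(b, t₃) ∉ C := by rwa [Sym2.eq_swap]
    obtain ⟨i, j, hij, hi, hj, hk⟩ := hCc.two_edges hb
    have hi' : G.Adj b i := hCc.adj_of_mem hi
    have hj' : G.Adj b j := hCc.adj_of_mem hj
    have hb1 : s(b, t₁) ∈ C ∧ s(b, t₂) ∈ C := by
      rcases (hC.nb i).1 hi' with rfl | rfl | rfl <;> rcases (hC.nb j).1 hj' with rfl | rfl | rfl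
      · exact absurd rfl hij
      · exact ⟨hi, hj⟩
      · exact absurd hj h3b'
      · exact ⟨hj, hi⟩
      · exact absurd rfl hij
      · exact absurd hj h3b'
      · exact absurd hi h3b'
      · exact absurd hi h3b'
      · exact absurd rfl hij
    -- `C` is the triangle
    have htri : IsCyc G {s(b, t₁), s(t₁, t₂), s(b, t₂)} := by
      have h1 : IsPth G b t₂ (insert s(b, t₁) {s(t₁, t₂)}) := by
        refine (IsPth.edge a12).cons ab1 ?_
        rw [vs_singleton]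
        simp [ab1.ne, ab2.ne]
      have h2 := h1.isCyc ab2 (by
        simp only [mem_insert, mem_singleton, Sym2.eq_iff, not_or]
        exact ⟨⟨fun h => n12' h.2.symm, fun h => ab1.ne h.1⟩,
          ⟨fun h => ab1.ne h.1, fun h => ab2.ne h.1⟩⟩)
      have h3 : (insert s(b, t₂) (insert s(b, t₁) {s(t₁, t₂)}) : Finset (Sym2 α)) =
          {s(b, t₁), s(t₁, t₂), s(b, t₂)} := by
        ext e
        simp only [mem_insert, mem_singleton]
        constructor
        · rintro (h | h | h)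
          · exact Or.inr (Or.inr h)
          · exact Or.inl h
          · exact Or.inr (Or.inl h)
        · rintro (h | h | h)
          · exact Or.inr (Or.inl h)
          · exact Or.inr (Or.inr h)
          · exact Or.inl h
      rw [← h3]; exact h2
    have hsub : ({s(b, t₁), s(t₁, t₂), s(b, t₂)} : Finset (Sym2 α)) ⊆ C := by
      intro e he
      simp only [mem_insert, mem_singleton] at he
      rcases he with rfl | rfl | rfl
      · exact hb1.1
      · exact h12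
      · exact hb1.2
    have hEq := hCc.eq_of_subset htri hsub
    rw [← hEq, vs_insert, vs_insert, vs_singleton] at h3
    simp only [mem_union, mem_insert, mem_singleton] at h3
    rcases h3 with (h | h) | (h | h) | h | h
    · exact ab3.ne h.symm
    · exact n13' h.symm
    · exact n13' h.symm
    · exact n23' h.symm
    · exact ab3.ne h.symm
    · exact n23' h.symm
  obtain ⟨D, hD, hD1, hD2⟩ := hCTA.cp a3b hno C hM
  have hD' : IsCyc (yd G b t₁ t₂ t₃) D := hctr ▸ hD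
  rw [← hF D C hD hD1, hqμ D hD']
  have hx : chi C s(t₁, t₂) = chi D s(t₁, t₂) := by rw [hD1, lft_apply a12 ne12, m12]
  have hLD : L (chi C) = chi D := hD2.symm
  rw [hx]
  show chi D s(t₁, t₂) * q (chi D) + tch t₂ t₁ μ D = chi D s(t₁, t₂) * q (L (chi C)) + tch t₂ t₁ μ C
  rw [hLD]
  congr 1
  unfold tch
  refine sum_congr rfl fun u _ => sum_congr rfl fun v _ => ?_
  by_cases h0 : μ u v = 0
  · rw [h0, zero_mul, zero_mul]
  obtain ⟨h1, h2⟩ := hμ u v h0
  have h1' : (contr G t₃ b).Adj u v := by rw [hctr]; exact h1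
  have huv : G.Adj u v := hRG s(u, v) h1' (fun h => h2 (by simp [TrE, h])) (fun h => h2 (by simp [TrE, h]))
  have hub : u ≠ b := h1'.1
  have hvb : v ≠ b := h1'.2.1
  have h3 := hCTB a3b hno C D hM hD hD1 t₂ t₁ u v a12.symm huv (by
    rw [Sym2.eq_swap]; exact ne12) (by
    rw [Ne, Sym2.eq_iff]
    rintro (⟨_, h⟩ | ⟨h, _⟩)
    · exact hvb h
    · exact hub h)
  rw [mrg_ne ab2.ne', mrg_ne ab1.ne', mrg_ne hub, mrg_ne hvb] at h3
  rw [h3]

end DL
end

section
/-!
# MP_3ff0f8_gt, ALGEBRA HALF: module YT2 (helper68), the cycles with two edges of the triangle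
-/
set_option autoImplicit false

open SimpleGraph Finset

namespace DL

namespace YT2M

variable {α : Type} [Fintype α] [DecidableEq α] {G : SimpleGraph α} {b t₁ t₂ t₃ : α}

/-- the cube -/
def cube : Bool × Bool × Bool × Bool ≃ (Fin 4 → Bool) where
  toFun x := ![x.1, x.2.1, x.2.2.1, x.2.2.2]
  invFun e := (e 0, e 1, e 2, e 3)
  left_inv _ := rfl
  right_inv e := by
    funext i
    fin_cases i <;> rfl

def sq : Bool × Bool ≃ (Fin 2 → Bool) where
  toFun x := ![x.1, x.2]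
  invFun e := (e 0, e 1)
  left_inv _ := rfl
  right_inv e := by
    funext i
    fin_cases i <;> rfl

theorem sum16 (H : Bool → Bool → Bool → Bool → ZMod 2) :
    ∑ e : Fin 4 → Bool, H (e 0) (e 1) (e 2) (e 3) =
      ∑ e : Fin 2 → Bool, ∑ b3 : Bool, ∑ b2 : Bool, H (e 0) (e 1) b2 b3 := by
  have h1 : ∑ e : Fin 4 → Bool, H (e 0) (e 1) (e 2) (e 3) =
      ∑ b0 : Bool, ∑ b1 : Bool, ∑ b2 : Bool, ∑ b3 : Bool, H b0 b1 b2 b3 := by
    rw [← cube.sum_comp (fun e => H (e 0) (e 1) (e 2) (e 3))]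
    simp only [Fintype.sum_prod_type]
    rfl
  have h2 : ∑ e : Fin 2 → Bool, ∑ b3 : Bool, ∑ b2 : Bool, H (e 0) (e 1) b2 b3 =
      ∑ b0 : Bool, ∑ b1 : Bool, ∑ b3 : Bool, ∑ b2 : Bool, H b0 b1 b2 b3 := by
    rw [← sq.sum_comp (fun e => ∑ b3 : Bool, ∑ b2 : Bool, H (e 0) (e 1) b2 b3)]
    simp only [Fintype.sum_prod_type]
    rfl
  rw [h1, h2]
  simp only [Fintype.sum_bool]
  ring

/-- the cycle of a path -/
def cy (t₁ t₂ t₃ : α) (P : Finset (Sym2 α)) : Finset (Sym2 α) :=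
  insert s(t₁, t₂) (insert s(t₁, t₃) P)

theorem psi_sum (hD4C : SpecD4C) (hDCB : SpecDCB) (hc : Cub G b t₁ t₂ t₃) (h12 : G.Adj t₁ t₂)
    (h13 : G.Adj t₁ t₃) {f : Finset (Sym2 α) → ZMod 2} (hf : D4even G f)
    (h0 : ∀ C, IsCyc G C → ¬ (s(t₁, t₂) ∈ C ∧ s(t₁, t₃) ∈ C) → f C = 0)
    (K : Ch2 (del G {t₁, b}) t₂ t₃) :
    ∑ e : Fin 2 → Bool, f (cy t₁ t₂ t₃ (K.pth e)) = 0 := by
  have b1 : G.Adj b t₁ := (hc.nb t₁).2 (Or.inl rfl)
  have b2 : G.Adj b t₂ := (hc.nb t₂).2 (Or.inr (Or.inl rfl))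
  have b3 : G.Adj b t₃ := (hc.nb t₃).2 (Or.inr (Or.inr rfl))
  obtain ⟨D, hD⟩ := hD4C (G := G) (a := t₁) (b := b) (x := t₂) (y := t₃) b1.symm h12 b2 h13 b3
    hc.n23 K
  have h1 := hf D
  have hno : ∀ (e : Fin 2 → Bool) (v : α), s(t₁, v) ∉ K.pth e := fun e v hv =>
    Finset.disjoint_left.1 (vs_of_isPth_del (hDCB.pth K e).1) (left_mem_vs hv) (by simp)
  have h2 : ∀ e : Fin 4 → Bool, f (D.cyc e) =
      if e 3 = false ∧ e 2 = false then f (cy t₁ t₂ t₃ (K.pth ![e 0, e 1])) else 0 := by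
    intro e
    have hcyc := (hDCB.cyc D e).1
    by_cases h3 : e 3 = false
    · by_cases h4 : e 2 = false
      · rw [if_pos ⟨h3, h4⟩, hD e]
        congr 1
        unfold cy
        simp only [h3, h4, Bool.false_eq_true, if_false, if_true, union_empty]
        rw [union_comm, insert_union, ← insert_eq]
      · rw [if_neg (fun h => h4 h.2)]
        apply h0 _ hcyc
        rintro ⟨-, h5⟩
        rw [Bool.not_eq_false] at h4
        rw [hD e] at h5
        simp only [h3, h4, Bool.false_eq_true, if_false, if_true, mem_union, mem_insert,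
          mem_singleton, Sym2.eq_iff] at h5
        rcases h5 with (h5 | h5 | h5) | h5
        · exact hno _ _ h5
        · rcases h5 with h5 | h5
          · exact hc.n23 h5.2.symm
          · exact hc.n12 h5.1
        · rcases h5 with h5 | h5
          · exact b1.ne h5.1.symm
          · exact hc.n13 h5.1
        · rcases h5 with h5 | h5
          · exact b3.ne h5.2.symm
          · exact b1.ne h5.1.symm
    · rw [if_neg (fun h => h3 h.1)]
      apply h0 _ hcyc
      rintro ⟨h5, -⟩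
      rw [Bool.not_eq_false] at h3
      rw [hD e] at h5
      simp only [h3, if_true, mem_union, mem_insert, mem_singleton, Sym2.eq_iff] at h5
      rcases h5 with (h5 | h5 | h5) | h5
      · exact hno _ _ h5
      · rcases h5 with h5 | h5
        · exact b1.ne h5.1.symm
        · exact hc.n12 h5.1
      · rcases h5 with h5 | h5
        · exact hc.n23 h5.2
        · exact hc.n13 h5.1
      · split_ifs at h5 with h6
        · exact absurd h5 (notMem_empty _)
        · rw [mem_singleton, Sym2.eq_iff] at h5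
          rcases h5 with h5 | h5
          · exact b2.ne h5.2.symm
          · exact b1.ne h5.1.symm
  simp only [h2] at h1
  rw [sum16 (fun x0 x1 x2 x3 => if x3 = false ∧ x2 = false then
    f (cy t₁ t₂ t₃ (K.pth ![x0, x1])) else 0)] at h1
  rw [← h1]
  refine Finset.sum_congr rfl fun e _ => ?_
  have h3 : ![e 0, e 1] = e := by
    funext i
    fin_cases i <;> rfl
  simp [h3]

end YT2M

open YT2M in
/-- **YT2** -/
theorem specYT2 (hD4C : SpecD4C) (hRT1 : SpecRT1) (hPOL : SpecPOL) (hDCB : SpecDCB) : SpecYT2 := by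
  intro α _ _ G b t₁ t₂ t₃ hc h12 h13 f hf h0
  have b1 : G.Adj b t₁ := (hc.nb t₁).2 (Or.inl rfl)
  have b2 : G.Adj b t₂ := (hc.nb t₂).2 (Or.inr (Or.inl rfl))
  have b3 : G.Adj b t₃ := (hc.nb t₃).2 (Or.inr (Or.inr rfl))
  obtain ⟨w0, w, hw⟩ := hRT1 (del G {t₁, b}) t₂ t₃ hc.n23 (fun P => f (cy t₁ t₂ t₃ P))
    (fun K => psi_sum hD4C hDCB hc h12 h13 hf h0 K)
  obtain ⟨w', hw'⟩ : ∃ w' : Chain α, w' = fun e => if t₁ ∈ e ∨ b ∈ e then 0 else w e := ⟨_, rfl⟩
  obtain ⟨Q, hQ⟩ : ∃ Q, Q = cy t₁ t₂ t₃ {s(b, t₂), s(b, t₃)} := ⟨_, rfl⟩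
  have hQc : IsCyc G Q := by
    rw [hQ]
    apply isCyc_of_isPth_del h12 h13 hc.n23
    rw [isPth_del]
    constructor
    · have h1 : IsPth G t₂ t₃ (insert s(t₂, b) {s(b, t₃)}) := by
        refine (IsPth.edge b3).cons b2.symm ?_
        rw [vs_singleton, mem_insert, mem_singleton, not_or]
        exact ⟨b2.ne.symm, hc.n23⟩
      rwa [Sym2.eq_swap (a := t₂) (b := b)] at h1
    · rw [disjoint_singleton_right, vs_insert, vs_singleton]
      simp only [mem_union, mem_insert, mem_singleton, not_or]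
      exact ⟨⟨b1.ne.symm, hc.n12⟩, b1.ne.symm, hc.n13⟩
  refine ⟨fun c => w0 + (∑ h, w' h * c h + (f Q + w0) * c s(b, t₂)), ?_, fun C hC => ?_⟩
  · refine hPOL.add (hPOL.const 1 w0) (hPOL.ofAdd fun x y => ?_)
    simp only [Pi.add_apply, mul_add, sum_add_distrib]
    ring
  · beta_reduce
    by_cases hm : s(t₁, t₂) ∈ C ∧ s(t₁, t₃) ∈ C
    swap
    · rw [h0 C hC hm]
      by_cases h1 : s(t₁, t₂) ∈ C
      · rw [chi_of_notMem (fun h2 => hm ⟨h1, h2⟩)]
        ring
      · rw [chi_of_notMem h1]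
        ring
    obtain ⟨m1, m2⟩ := hm
    rw [chi_of_mem m1, chi_of_mem m2, one_mul, one_mul, sum_mul_chi]
    by_cases hb : b ∈ vs C
    · have n1 : s(b, t₁) ∉ C := by
        intro h1
        rw [Sym2.eq_swap] at h1
        rcases hC.eq_or_eq m1 m2 hc.n23 h1 with h2 | h2
        · exact b2.ne h2
        · exact b3.ne h2
      have hnb : ∀ k, s(b, k) ∈ C → k = t₂ ∨ k = t₃ := by
        intro k hk
        rcases (hc.nb k).1 (hC.adj_of_mem hk) with rfl | h | h
        · exact absurd hk n1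
        · exact Or.inl h
        · exact Or.inr h
      obtain ⟨i, j, hij, hi, hj, -⟩ := hC.two_edges hb
      have hb23 : s(b, t₂) ∈ C ∧ s(b, t₃) ∈ C := by
        rcases hnb i hi with rfl | rfl <;> rcases hnb j hj with rfl | rfl
        · exact absurd rfl hij
        · exact ⟨hi, hj⟩
        · exact ⟨hj, hi⟩
        · exact absurd rfl hij
      have hCQ : Q = C := by
        apply hC.eq_of_subset hQc
        rw [hQ]
        intro e he
        simp only [cy, mem_insert, mem_singleton] at he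
        rcases he with rfl | rfl | rfl | rfl
        · exact m1
        · exact m2
        · exact hb23.1
        · exact hb23.2
      have hs : ∑ h ∈ C, w' h = 0 := by
        refine sum_eq_zero fun e he => ?_
        rw [← hCQ, hQ] at he
        simp only [cy, mem_insert, mem_singleton] at he
        rw [hw']
        rcases he with rfl | rfl | rfl | rfl
        · exact if_pos (Or.inl (by simp))
        · exact if_pos (Or.inl (by simp))
        · exact if_pos (Or.inr (by simp))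
        · exact if_pos (Or.inr (by simp))
      rw [hs, chi_of_mem hb23.1, hCQ]
      have := zmod2_add_self w0
      linear_combination -this
    · have hP := hC.isPth_del m1 m2 hc.n23
      obtain ⟨P, hPd⟩ : ∃ P, P = C \ {s(t₁, t₂), s(t₁, t₃)} := ⟨_, rfl⟩
      rw [← hPd] at hP
      have hPC : P ⊆ C := by rw [hPd]; exact sdiff_subset
      have hCP : C = cy t₁ t₂ t₃ P := by
        ext e
        rw [hPd]
        simp only [cy, mem_insert, mem_sdiff, mem_singleton]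
        constructor
        · intro h
          tauto
        · rintro (rfl | rfl | h)
          · exact m1
          · exact m2
          · exact h.1
      have hP2 : IsPth (del G {t₁, b}) t₂ t₃ P := by
        have h1 := isPth_del.1 hP
        rw [isPth_del]
        refine ⟨h1.1, ?_⟩
        rw [Finset.disjoint_left]
        intro x hx hx2
        rw [mem_insert, mem_singleton] at hx2
        rcases hx2 with rfl | rfl
        · exact Finset.disjoint_left.1 h1.2 hx (by simp)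
        · exact hb (vs_mono hPC hx)
      have hd := vs_of_isPth_del hP2
      have hPn : ∀ e ∈ P, t₁ ∉ e ∧ b ∉ e := by
        intro e he
        exact ⟨fun h2 => Finset.disjoint_left.1 hd (mem_vs.2 ⟨e, he, h2⟩) (by simp),
          fun h2 => Finset.disjoint_left.1 hd (mem_vs.2 ⟨e, he, h2⟩) (by simp)⟩
      have hs : ∑ h ∈ C, w' h = ∑ h ∈ P, w h := by
        have h1 : ∑ h ∈ C, w' h = ∑ h ∈ P, w' h := by
          refine (sum_subset hPC fun e he hne => ?_).symm
          rw [hPd, mem_sdiff, not_and, not_not] at hne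
          have h2 := hne he
          rw [mem_insert, mem_singleton] at h2
          rw [hw']
          rcases h2 with rfl | rfl
          · exact if_pos (Or.inl (by simp))
          · exact if_pos (Or.inl (by simp))
        rw [h1]
        refine sum_congr rfl fun e he => ?_
        rw [hw']
        exact if_neg (by
          rw [not_or]
          exact hPn e he)
      have hbn : s(b, t₂) ∉ C := fun h => hb (left_mem_vs h)
      rw [hs, chi_of_notMem hbn, mul_zero, add_zero, ← hw P hP2, hCP]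

end DL
end

section
/-!
MP_3ff0f8_gt, STEP Y, part U, module YTA: a `D_4`-even function composed with `tauY`.  (helper30)
-/
open SimpleGraph Finset

namespace DL

namespace YTAM

set_option linter.unusedSectionVars false
set_option linter.unusedFintypeInType false
set_option linter.unusedDecidableInType false

variable {α : Type} [Fintype α] [DecidableEq α] {G R : SimpleGraph α} {b x y z : α}

/-! ### the graph `R` -/

lemma mem_TrE {e : Sym2 α} : e ∈ TrE x y z ↔ e = s(x, y) ∨ e = s(x, z) ∨ e = s(y, z) := by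
  simp [TrE]

lemma bne (hC : Cub G b x y z) : b ≠ x ∧ b ≠ y ∧ b ≠ z :=
  ⟨((hC.nb x).2 (Or.inl rfl)).ne, ((hC.nb y).2 (Or.inr (Or.inl rfl))).ne,
    ((hC.nb z).2 (Or.inr (Or.inr rfl))).ne⟩

lemma yd_adj {u v : α} : (yd G b x y z).Adj u v ↔
    (G.Adj u v ∧ u ≠ b ∧ v ≠ b) ∨ (s(u, v) ∈ TrE x y z ∧ u ≠ v) := by
  simp [yd, del, fromEdgeSet_adj, sup_adj]

lemma e12_ne_e13 (hC : Cub G b x y z) : s(x, y) ≠ s(x, z) := fun h =>
  hC.n23 (Sym2.congr_right.1 h)

lemma e12_ne_e23 (hC : Cub G b x y z) : s(x, y) ≠ s(y, z) := by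
  intro h
  rw [Sym2.eq_iff] at h
  rcases h with ⟨h, -⟩ | ⟨h, -⟩
  · exact hC.n12 h
  · exact hC.n13 h

lemma e13_ne_e23 (hC : Cub G b x y z) : s(x, z) ≠ s(y, z) := by
  intro h
  rw [Sym2.eq_iff] at h
  rcases h with ⟨h, -⟩ | ⟨h, -⟩
  · exact hC.n12 h
  · exact hC.n13 h

lemma b_notMem (hC : Cub G b x y z) {C : Finset (Sym2 α)} (hD : IsCyc (yd G b x y z) C) {u : α} :
    s(b, u) ∉ C := by
  intro h
  obtain ⟨h1, h2, h3⟩ := bne hC
  have h4 := hD.adj_of_mem h
  rw [yd_adj] at h4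
  rcases h4 with h4 | ⟨h4, -⟩
  · exact h4.2.1 rfl
  · rw [mem_TrE, Sym2.eq_iff, Sym2.eq_iff, Sym2.eq_iff] at h4
    rcases h4 with (h4 | h4) | (h4 | h4) | (h4 | h4)
    · exact h1 h4.1
    · exact h2 h4.1
    · exact h1 h4.1
    · exact h3 h4.1
    · exact h2 h4.1
    · exact h3 h4.1

/-! ### `tauY` and the lift -/

open Classical in
lemma mem_tau {C : Finset (Sym2 α)} (h12 : s(x, y) ∉ C) (e : Sym2 α) :
    e ∈ tauY b x y z C ↔ (e ∈ C ∧ e ∉ TrE x y z) ∨ (s(x, z) ∈ C ∧ e = s(b, x)) ∨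
      (s(y, z) ∈ C ∧ e = s(b, y)) ∨ (¬ (s(x, z) ∈ C ↔ s(y, z) ∈ C) ∧ e = s(b, z)) := by
  unfold tauY
  by_cases h13 : s(x, z) ∈ C <;> by_cases h23 : s(y, z) ∈ C <;>
    simp [h12, h13, h23] <;> tauto

lemma lift (hC : Cub G b x y z) (hN : NTE G x y z) {C : Finset (Sym2 α)}
    (hD : IsCyc (yd G b x y z) C) (h12 : s(x, y) ∉ C) :
    chi (tauY b x y z C) = lft G z b (chi C) := by
  classical
  obtain ⟨hbx, hby, hbz⟩ := bne hC
  have hsub : ∀ e ∈ C, e ∈ G.edgeSet ∨ e ∈ TrE x y z := by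
    intro e he
    have h1 := hD.subset e he
    induction e using Sym2.ind with
    | _ u v =>
      rw [mem_edgeSet, yd_adj] at h1
      rcases h1 with h1 | h1
      · exact Or.inl h1.1
      · exact Or.inr h1.1
  funext e
  rw [chi_apply]
  unfold lft
  by_cases he : e = s(z, b)
  · subst he
    rw [if_pos rfl]
    -- the boundary at `z`
    have h1 : ∑ u, chi C s(z, u) = 0 := by
      rw [← CTAM.bdy_eq_nbr, hD.bdy_chi]
    have h2 : ∀ u, chi C s(z, u) = (if G.Adj z u ∧ u ≠ b then chi C s(z, u) else 0) +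
        ((if u = x then chi C s(x, z) else 0) + (if u = y then chi C s(y, z) else 0)) := by
      intro u
      by_cases hux : u = x
      · subst hux
        have h3 : ¬ (G.Adj z u ∧ u ≠ b) := fun h => hN.2.1 h.1.symm
        rw [if_neg h3, if_pos rfl, if_neg hC.n12, zero_add, add_zero, Sym2.eq_swap]
      by_cases huy : u = y
      · subst huy
        have h3 : ¬ (G.Adj z u ∧ u ≠ b) := fun h => hN.2.2 h.1.symm
        rw [if_neg h3, if_neg hux, if_pos rfl, zero_add, zero_add, Sym2.eq_swap]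
      rw [if_neg hux, if_neg huy, add_zero, add_zero]
      by_cases h3 : G.Adj z u ∧ u ≠ b
      · rw [if_pos h3]
      · rw [if_neg h3]
        apply chi_of_notMem
        intro h4
        have h5 := hD.adj_of_mem h4
        rw [yd_adj] at h5
        rcases h5 with h5 | ⟨h5, -⟩
        · exact h3 ⟨h5.1, h5.2.2⟩
        · rw [mem_TrE, Sym2.eq_iff, Sym2.eq_iff, Sym2.eq_iff] at h5
          rcases h5 with (h5 | h5) | (h5 | h5) | (h5 | h5)
          · exact hC.n13 h5.1.symm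
          · exact hC.n23 h5.1.symm
          · exact hC.n13 h5.1.symm
          · exact hux h5.2
          · exact hC.n23 h5.1.symm
          · exact huy h5.2
    have h3 : ∑ u, (if G.Adj z u ∧ u ≠ b then chi C s(z, u) else 0) =
        chi C s(x, z) + chi C s(y, z) := by
      have h4 := h1
      rw [sum_congr rfl fun u _ => h2 u, sum_add_distrib, sum_add_distrib,
        sum_ite_eq' univ x, sum_ite_eq' univ y, if_pos (mem_univ _), if_pos (mem_univ _)] at h4
      have h5 := zmod2_add_self (chi C s(x, z) + chi C s(y, z))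
      linear_combination h4 - h5
    rw [h3]
    have h6 : s(z, b) ∈ tauY b x y z C ↔ ¬ (s(x, z) ∈ C ↔ s(y, z) ∈ C) := by
      rw [mem_tau h12]
      constructor
      · rintro (h | ⟨-, h⟩ | ⟨-, h⟩ | ⟨h, -⟩)
        · rw [Sym2.eq_swap] at h
          exact absurd h.1 (b_notMem hC hD)
        · rw [Sym2.eq_swap] at h
          exact absurd (Sym2.congr_right.1 h).symm hC.n13
        · rw [Sym2.eq_swap] at h
          exact absurd (Sym2.congr_right.1 h).symm hC.n23
        · exact h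
      · intro h
        exact Or.inr (Or.inr (Or.inr ⟨h, Sym2.eq_swap⟩))
    rw [chi_apply, chi_apply]
    by_cases h13 : s(x, z) ∈ C <;> by_cases h23 : s(y, z) ∈ C <;> simp [h6, h13, h23]
    decide
  · rw [if_neg he]
    by_cases heG : e ∈ G.edgeSet
    · rw [if_pos heG]
      by_cases hbe : b ∈ e
      · -- an edge at `b`
        obtain ⟨u, rfl⟩ := Sym2.mem_iff_exists.1 hbe
        rw [mem_edgeSet, hC.nb] at heG
        have hm : ∀ w : α, w ≠ b → (s(b, w)).map (mrg z b) = s(z, w) := by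
          intro w hw
          rw [Sym2.map_mk, CTAM.mrg_b, CTAM.mrg_of_ne z hw]
        rcases heG with rfl | rfl | rfl
        · rw [hm _ hbx.symm, Sym2.eq_swap (a := z), chi_apply]
          have h6 : s(b, u) ∈ tauY b u y z C ↔ s(u, z) ∈ C := by
            rw [mem_tau h12]
            constructor
            · rintro (h | ⟨h, -⟩ | ⟨-, h⟩ | ⟨-, h⟩)
              · exact absurd h.1 (b_notMem hC hD)
              · exact h
              · exact absurd (Sym2.congr_right.1 h) hC.n12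
              · exact absurd (Sym2.congr_right.1 h) hC.n13
            · exact fun h => Or.inr (Or.inl ⟨h, rfl⟩)
          simp only [h6]
        · rw [hm _ hby.symm, Sym2.eq_swap (a := z), chi_apply]
          have h6 : s(b, u) ∈ tauY b x u z C ↔ s(u, z) ∈ C := by
            rw [mem_tau h12]
            constructor
            · rintro (h | ⟨-, h⟩ | ⟨h, -⟩ | ⟨-, h⟩)
              · exact absurd h.1 (b_notMem hC hD)
              · exact absurd (Sym2.congr_right.1 h).symm hC.n12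
              · exact h
              · exact absurd (Sym2.congr_right.1 h) hC.n23
            · exact fun h => Or.inr (Or.inr (Or.inl ⟨h, rfl⟩))
          simp only [h6]
        · exact absurd Sym2.eq_swap he
      · -- an edge not at `b`
        have hm : e.map (mrg z b) = e := by
          induction e using Sym2.ind with
          | _ u v =>
            rw [Sym2.mem_iff, not_or] at hbe
            rw [Sym2.map_mk, CTAM.mrg_of_ne z (fun h => hbe.1 h.symm),
              CTAM.mrg_of_ne z (fun h => hbe.2 h.symm)]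
        rw [hm, chi_apply]
        have hT : e ∉ TrE x y z := by
          intro h
          rw [mem_TrE] at h
          rcases h with rfl | rfl | rfl
          · exact hN.1 heG
          · exact hN.2.1 heG
          · exact hN.2.2 heG
        have h6 : e ∈ tauY b x y z C ↔ e ∈ C := by
          rw [mem_tau h12]
          constructor
          · rintro (h | ⟨-, h⟩ | ⟨-, h⟩ | ⟨-, h⟩)
            · exact h.1
            · exact absurd (by rw [h]; simp) hbe
            · exact absurd (by rw [h]; simp) hbe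
            · exact absurd (by rw [h]; simp) hbe
          · exact fun h => Or.inl ⟨h, hT⟩
        simp only [h6]
    · rw [if_neg heG, if_neg]
      intro h
      rw [mem_tau h12] at h
      rcases h with h | ⟨-, h⟩ | ⟨-, h⟩ | ⟨-, h⟩
      · exact (hsub e h.1).elim heG h.2
      · exact heG (by rw [h]; exact (hC.nb _).2 (Or.inl rfl))
      · exact heG (by rw [h]; exact (hC.nb _).2 (Or.inr (Or.inl rfl)))
      · exact heG (by rw [h]; exact (hC.nb _).2 (Or.inr (Or.inr rfl)))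

/-! ### (a) an edge which is not used -/

/-- the same `D_4` minor in another graph -/
def mv {H : SimpleGraph α} (D : D4M R) (h1 : ∀ i, D.T i ≤ H) (h2 : ∀ i b, H.Adj (D.p i b) (D.q i b)) :
    D4M H where
  X := D.X
  disj := D.disj
  T := D.T
  sub := h1
  inX := D.inX
  conn := D.conn
  acyc := D.acyc
  p := D.p
  q := D.q
  pX := D.pX
  qX := D.qX
  adj := h2
  ne := D.ne

lemma caseA (hYEQ : SpecYEQ) (hCTD : SpecCTD) (hDCB : SpecDCB) (hC : Cub G b x y z)
    (hN : NTE G x y z) {f : Finset (Sym2 α) → ZMod 2} (hf : D4even G f)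
    (hR : yd G b x y z = R) (D : D4M R) (hp : ∀ i c, s(D.p i c, D.q i c) ≠ s(x, y))
    (hT : ∀ i, ¬ (D.T i).Adj x y) : ∑ e, f (tauY b x y z (D.cyc e)) = 0 := by
  subst hR
  have hctr := hYEQ.ctr0 hC hN.1
  have h1 : ∀ i, D.T i ≤ contr G z b := by
    intro i u v huv
    rw [hctr, delE, deleteEdges_adj]
    refine ⟨D.sub i huv, ?_⟩
    rw [Set.mem_singleton_iff]
    intro h
    rw [Sym2.eq_iff] at h
    rcases h with ⟨rfl, rfl⟩ | ⟨rfl, rfl⟩
    · exact hT i huv
    · exact hT i huv.symm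
  have h2 : ∀ i c, (contr G z b).Adj (D.p i c) (D.q i c) := by
    intro i c
    rw [hctr, delE, deleteEdges_adj]
    exact ⟨D.adj i c, fun h => hp i c h⟩
  have hzb : G.Adj z b := ((hC.nb z).2 (Or.inr (Or.inr rfl))).symm
  have hNC : NoCN G z b := by
    rintro u ⟨h3, h4⟩
    rw [hC.nb] at h4
    rcases h4 with rfl | rfl | rfl
    · exact hN.2.1 h3.symm
    · exact hN.2.2 h3.symm
    · exact h3.ne rfl
  obtain ⟨D', hD'⟩ := hCTD hzb hNC (mv D h1 h2)
  rw [← hf D']
  refine sum_congr rfl fun e _ => ?_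
  congr 1
  apply chi_injective
  rw [(hD' e).2]
  have h3 : IsCyc (contr G z b) (D.cyc e) := (hDCB.cyc (mv D h1 h2) e).1
  rw [hctr, isCyc_delE] at h3
  exact lift hC hN h3.1 h3.2

/-! ### (b) all three edges are used -/

lemma tree (D : D4M R) (i : Fin 4) : TreeOn (D.T i) (D.X i) := ⟨D.inX i, D.conn i, D.acyc i⟩

lemma uniq (D : D4M R) {u : α} {i j : Fin 4} (hi : u ∈ D.X i) (hj : u ∈ D.X j) : i = j := by
  by_contra h
  exact Finset.disjoint_left.1 (D.disj i j h) hi hj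

/-- the edge `uv` is a bead or in a tree -/
def Used (D : D4M R) (u v : α) : Prop :=
  (∃ i c, s(D.p i c, D.q i c) = s(u, v)) ∨ ∃ i, (D.T i).Adj u v

lemma used_mem {D : D4M R} {u v : α} (h : Used D u v) : (∃ i, u ∈ D.X i) ∧ ∃ i, v ∈ D.X i := by
  rcases h with ⟨i, c, h⟩ | ⟨i, h⟩
  · rw [Sym2.eq_iff] at h
    rcases h with ⟨rfl, rfl⟩ | ⟨rfl, rfl⟩
    · exact ⟨⟨_, D.pX i c⟩, ⟨_, D.qX i c⟩⟩
    · exact ⟨⟨_, D.qX i c⟩, ⟨_, D.pX i c⟩⟩
  · exact ⟨⟨i, D.inX i _ _ h⟩, ⟨i, D.inX i _ _ h.symm⟩⟩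

lemma used_loc {D : D4M R} {u v : α} (h : Used D u v) {i j : Fin 4} (hu : u ∈ D.X i)
    (hv : v ∈ D.X j) : (i = j ∧ (D.T i).Adj u v) ∨ (j = i + 1 ∧ ∃ c, D.p i c = u ∧ D.q i c = v) ∨
      (i = j + 1 ∧ ∃ c, D.p j c = v ∧ D.q j c = u) := by
  rcases h with ⟨k, c, h⟩ | ⟨k, h⟩
  · rw [Sym2.eq_iff] at h
    rcases h with ⟨h1, h2⟩ | ⟨h1, h2⟩
    · have h3 : i = k := uniq D hu (h1 ▸ D.pX k c)
      have h4 : j = k + 1 := uniq D hv (h2 ▸ D.qX k c)
      subst h3
      exact Or.inr (Or.inl ⟨h4, c, h1, h2⟩)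
    · have h3 : i = k + 1 := uniq D hu (h2 ▸ D.qX k c)
      have h4 : j = k := uniq D hv (h1 ▸ D.pX k c)
      subst h4
      exact Or.inr (Or.inr ⟨h3, c, h1, h2⟩)
  · have h3 : i = k := uniq D hu (D.inX k _ _ h)
    have h4 : j = k := uniq D hv (D.inX k _ _ h.symm)
    subst h3
    exact Or.inl ⟨h4.symm, h⟩

/-- flip one bead -/
def flip (k : Fin 4) (e : Fin 4 → Bool) : Fin 4 → Bool := Function.update e k (!e k)

lemma flip_flip (k : Fin 4) (e : Fin 4 → Bool) : flip k (flip k e) = e := by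
  funext i
  by_cases h : i = k
  · subst h
    simp [flip]
  · simp [flip, h]

lemma flip_ne (k : Fin 4) (e : Fin 4 → Bool) : flip k e ≠ e := by
  intro h
  have := congrFun h k
  simp [flip] at this

/-- the change of the chain of the cycle -/
lemma change (A : Fin 4 → Bool → ZMod 2) (B : Fin 4 → Bool → Bool → ZMod 2) (k : Fin 4)
    (e : Fin 4 → Bool) :
    (∑ i : Fin 4, (A i (e i) + B i (e i) (e (i + 1)))) +
      (∑ i : Fin 4, (A i (flip k e i) + B i (flip k e i) (flip k e (i + 1)))) =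
    A k (e k) + A k (!e k) + (B k (e k) (e (k + 1)) + B k (!e k) (e (k + 1))) +
      (B (k + 3) (e (k + 3)) (e k) + B (k + 3) (e (k + 3)) (!e k)) := by
  have h2 : ∀ t : ZMod 2, t + t = 0 := zmod2_add_self
  have e1 : (1 : Fin 4) + 1 = 2 := rfl
  have e2 : (2 : Fin 4) + 1 = 3 := rfl
  have e3 : (3 : Fin 4) + 1 = 0 := rfl
  have e4 : (0 : Fin 4) + 3 = 3 := rfl
  have e5 : (1 : Fin 4) + 3 = 0 := rfl
  have e6 : (2 : Fin 4) + 3 = 1 := rfl
  have e7 : (3 : Fin 4) + 3 = 2 := rfl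
  have e8 : (0 : Fin 4) + 1 = 1 := rfl
  rw [Fin.sum_univ_four, Fin.sum_univ_four]
  fin_cases k
  · have f0 : flip 0 e 0 = !e 0 := by simp [flip]
    have f1 : flip 0 e 1 = e 1 := by simp [flip]
    have f2 : flip 0 e 2 = e 2 := by simp [flip]
    have f3 : flip 0 e 3 = e 3 := by simp [flip]
    simp only [Fin.zero_eta, e1, e2, e3, e4, e8, f0, f1, f2, f3]
    linear_combination h2 (A 1 (e 1)) + h2 (A 2 (e 2)) + h2 (A 3 (e 3)) + h2 (B 1 (e 1) (e 2)) +
      h2 (B 2 (e 2) (e 3))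
  · have f0 : flip 1 e 0 = e 0 := by simp [flip]
    have f1 : flip 1 e 1 = !e 1 := by simp [flip]
    have f2 : flip 1 e 2 = e 2 := by simp [flip]
    have f3 : flip 1 e 3 = e 3 := by simp [flip]
    simp only [Fin.mk_one, e1, e2, e3, e5, e8, f0, f1, f2, f3]
    linear_combination h2 (A 0 (e 0)) + h2 (A 2 (e 2)) + h2 (A 3 (e 3)) + h2 (B 2 (e 2) (e 3)) +
      h2 (B 3 (e 3) (e 0))
  · have f0 : flip 2 e 0 = e 0 := by simp [flip]
    have f1 : flip 2 e 1 = e 1 := by simp [flip]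
    have f2 : flip 2 e 2 = !e 2 := by simp [flip]
    have f3 : flip 2 e 3 = e 3 := by simp [flip]
    simp only [Fin.reduceFinMk, e1, e2, e3, e6, e8, f0, f1, f2, f3]
    linear_combination h2 (A 0 (e 0)) + h2 (A 1 (e 1)) + h2 (A 3 (e 3)) + h2 (B 3 (e 3) (e 0)) +
      h2 (B 0 (e 0) (e 1))
  · have f0 : flip 3 e 0 = e 0 := by simp [flip]
    have f1 : flip 3 e 1 = e 1 := by simp [flip]
    have f2 : flip 3 e 2 = e 2 := by simp [flip]
    have f3 : flip 3 e 3 = !e 3 := by simp [flip]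
    simp only [Fin.reduceFinMk, e1, e2, e3, e7, e8, f0, f1, f2, f3]
    linear_combination h2 (A 0 (e 0)) + h2 (A 1 (e 1)) + h2 (A 2 (e 2)) + h2 (B 0 (e 0) (e 1)) +
      h2 (B 1 (e 1) (e 2))

lemma change' (hDCB : SpecDCB) (D : D4M R) (k : Fin 4) (e : Fin 4 → Bool) :
    chi (D.cyc e) + chi (D.cyc (flip k e)) =
      chi {s(D.p k (e k), D.q k (e k))} + chi {s(D.p k (!e k), D.q k (!e k))} +
      (chi (tp (D.T (k + 1)) (D.q k (e k)) (D.p (k + 1) (e (k + 1)))) +
        chi (tp (D.T (k + 1)) (D.q k (!e k)) (D.p (k + 1) (e (k + 1))))) +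
      (chi (tp (D.T k) (D.q (k + 3) (e (k + 3))) (D.p k (e k))) +
        chi (tp (D.T k) (D.q (k + 3) (e (k + 3))) (D.p k (!e k)))) := by
  have hk : k + 3 + 1 = k := by
    clear e
    revert k
    decide
  have h1 := (hDCB.cyc D e).2
  have h2 := (hDCB.cyc D (flip k e)).2
  rw [h1, h2]
  funext g
  have h3 := change (fun i a => chi {s(D.p i a, D.q i a)} g)
    (fun i a a' => chi (tp (D.T (i + 1)) (D.q i a) (D.p (i + 1) a')) g) k e
  simp only [Pi.add_apply, Finset.sum_apply]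
  simp only [hk] at h3
  exact h3

lemma tp_edge (hTRE : SpecTRE) {T : SimpleGraph α} {X : Finset α} (hT : TreeOn T X) {u v : α}
    (h : T.Adj u v) : tp T u v = {s(u, v)} :=
  ((hTRE.tp hT u (hT.inX _ _ h) v (hT.inX _ _ h.symm)).2 _ (IsPth.edge h)).symm

lemma tp_symm (hTRE : SpecTRE) {T : SimpleGraph α} {X : Finset α} (hT : TreeOn T X) {u v : α}
    (hu : u ∈ X) (hv : v ∈ X) : tp T u v = tp T v u :=
  (hTRE.tp hT v hv u hu).2 _ (hTRE.tp hT u hu v hv).1.symm

lemma chi_TrE (hC : Cub G b x y z) :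
    chi (TrE x y z) = chi {s(x, y)} + (chi {s(x, z)} + chi {s(y, z)}) := by
  rw [TrE, chi_insert, chi_insert]
  · rw [mem_singleton]
    exact e13_ne_e23 hC
  · rw [mem_insert, mem_singleton, not_or]
    exact ⟨e12_ne_e13 hC, e12_ne_e23 hC⟩

lemma nodup (hC : Cub G b x y z) : [x, y, z].Nodup := by
  simp [hC.n12, hC.n13, hC.n23]

/-- pairs cancel -/
lemma pairs (hYTC : SpecYTC) (hC : Cub G b x y z) (f : Finset (Sym2 α) → ZMod 2) (D : D4M R)
    (k : Fin 4) (h : ∀ e, chi (D.cyc e) + chi (D.cyc (flip k e)) = chi (TrE x y z)) :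
    ∑ e, f (tauY b x y z (D.cyc e)) = 0 := by
  refine Finset.sum_involution (fun e _ => flip k e) ?_ ?_ ?_ ?_
  · intro e _
    rw [hYTC.lin (nodup hC) (h e), zmod2_add_self]
  · intro e _ _
    exact flip_ne k e
  · intro e _
    exact mem_univ _
  · intro e _
    exact flip_flip k e

lemma caseB (hYTC : SpecYTC) (hDCB : SpecDCB) (hTRE : SpecTRE) (hC : Cub G b x y z)
    (f : Finset (Sym2 α) → ZMod 2) (D : D4M R) {i j : Fin 4} (hx : x ∈ D.X i) (hy : y ∈ D.X i)
    (hz : z ∈ D.X j) (hij : i ≠ j) (u12 : Used D x y) (u13 : Used D x z) (u23 : Used D y z) :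
    ∑ e, f (tauY b x y z (D.cyc e)) = 0 := by
  have hne : ∀ i : Fin 4, i ≠ i + 1 := by decide
  have hT : (D.T i).Adj x y := by
    rcases used_loc u12 hx hy with h | h | h
    · exact h.2
    · exact absurd h.1 (hne i)
    · exact absurd h.1 (hne i)
  have hboth : ∀ i j : Fin 4, j = i + 1 → i = j + 1 → False := by decide
  -- the two values of a Boolean
  have hBool : ∀ c c' a : Bool, c ≠ c' → (a = c ∧ (!a) = c') ∨ (a = c' ∧ (!a) = c) := by decide
  rcases used_loc u13 hx hz with h | h | h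
  · exact absurd h.1 hij
  · -- the beads go from `X i` to `X j`
    obtain ⟨hj, c, hc1, hc2⟩ := h
    rcases used_loc u23 hy hz with h | h | h
    · exact absurd h.1 hij
    · obtain ⟨-, c', hc1', hc2'⟩ := h
      have hcc : c ≠ c' := by
        rintro rfl
        exact hC.n12 (hc1.symm.trans hc1')
      refine pairs hYTC hC f D i fun e => ?_
      rw [change' hDCB, chi_TrE hC]
      have hq : ∀ a, D.q i a = z := by
        intro a
        rcases hBool c c' a hcc with h | h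
        · rw [h.1, hc2]
        · rw [h.1, hc2']
      have hQ : D.q (i + 3) (e (i + 3)) ∈ D.X i := by
        have hk : ∀ i : Fin 4, i + 3 + 1 = i := by decide
        have := D.qX (i + 3) (e (i + 3))
        rwa [hk i] at this
      rw [hq, hq, chain_add_self, add_zero,
        hTRE.four (tree D i) _ hQ _ (D.pX i _) _ (D.pX i _)]
      rcases hBool c c' (e i) hcc with h | h
      · rw [h.2, h.1, hc1, hc1', tp_edge hTRE (tree D i) hT]
        abel
      · rw [h.2, h.1, hc1, hc1', tp_edge hTRE (tree D i) hT.symm, Sym2.eq_swap (a := y) (b := x)]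
        abel
    · exact (hboth i j hj h.1).elim
  · -- the beads go from `X j` to `X i`
    obtain ⟨hj, c, hc1, hc2⟩ := h
    rcases used_loc u23 hy hz with h | h | h
    · exact absurd h.1 hij
    · exact (hboth i j h.1 hj).elim
    · obtain ⟨-, c', hc1', hc2'⟩ := h
      have hcc : c ≠ c' := by
        rintro rfl
        exact hC.n12 (hc2.symm.trans hc2')
      refine pairs hYTC hC f D j fun e => ?_
      rw [change' hDCB, chi_TrE hC]
      have hp : ∀ a, D.p j a = z := by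
        intro a
        rcases hBool c c' a hcc with h | h
        · rw [h.1, hc1]
        · rw [h.1, hc1']
      subst hj
      rw [hp, hp, chain_add_self, add_zero,
        tp_symm hTRE (tree D (j + 1)) (D.qX j _) (D.pX (j + 1) _),
        tp_symm hTRE (tree D (j + 1)) (D.qX j (!e j)) (D.pX (j + 1) _),
        hTRE.four (tree D (j + 1)) _ (D.pX (j + 1) _) _ (D.qX j _) _ (D.qX j _)]
      rcases hBool c c' (e j) hcc with h | h
      · rw [h.2, h.1, hc2, hc2', tp_edge hTRE (tree D (j + 1)) hT, Sym2.eq_swap (a := z) (b := x),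
          Sym2.eq_swap (a := z) (b := y)]
        abel
      · rw [h.2, h.1, hc2, hc2', tp_edge hTRE (tree D (j + 1)) hT.symm,
          Sym2.eq_swap (a := y) (b := x), Sym2.eq_swap (a := z) (b := x),
          Sym2.eq_swap (a := z) (b := y)]
        abel

lemma notri (hTRE : SpecTRE) (hC : Cub G b x y z) {T : SimpleGraph α} (hT : T.IsAcyclic)
    (h12 : T.Adj x y) (h13 : T.Adj x z) (h23 : T.Adj y z) : False := by
  have h1 : IsPth (del T {x}) y z {s(y, z)} := by
    apply IsPth.edge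
    refine ⟨h23, ?_, ?_⟩
    · rw [mem_singleton]
      exact hC.n12.symm
    · rw [mem_singleton]
      exact hC.n13.symm
  have h2 := isCyc_of_isPth_del h12 h13 hC.n23 h1
  have h3 := (hTRE.z1 T).1 hT _ h2.chi_mem
  have h4 := congrFun h3 s(x, y)
  rw [chi_of_mem (mem_insert_self _ _)] at h4
  exact one_ne_zero h4

end YTAM

open YTAM in
theorem specYTA (hYTC : SpecYTC) (hYEQ : SpecYEQ) (hCTD : SpecCTD) (hDCB : SpecDCB)
    (hTRE : SpecTRE) : SpecYTA := by
  intro α _ _ G b t₁ t₂ t₃ hC hN f hf D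
  show ∑ e, f (tauY b t₁ t₂ t₃ (D.cyc e)) = 0
  obtain ⟨p1, p2, -, -⟩ := hYEQ.perm G b t₁ t₂ t₃
  have p5 : yd G b t₂ t₃ t₁ = yd G b t₁ t₂ t₃ := by
    rw [(hYEQ.perm G b t₂ t₁ t₃).1, p2]
  have hC13 : Cub G b t₁ t₃ t₂ := (hYEQ.cperm hC).1
  have hC21 : Cub G b t₂ t₁ t₃ := (hYEQ.cperm hC).2
  have hC23 : Cub G b t₂ t₃ t₁ := (hYEQ.cperm hC21).1
  have q13 : ∀ C, tauY b t₁ t₃ t₂ C = tauY b t₁ t₂ t₃ C := fun C => (hYEQ.tperm b t₁ t₂ t₃ C).1
  have q23 : ∀ C, tauY b t₂ t₃ t₁ C = tauY b t₁ t₂ t₃ C := fun C => by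
    rw [(hYEQ.tperm b t₂ t₁ t₃ C).1, (hYEQ.tperm b t₁ t₂ t₃ C).2]
  have hN13 : NTE G t₁ t₃ t₂ := ⟨hN.2.1, hN.1, fun h => hN.2.2 h.symm⟩
  have hN23 : NTE G t₂ t₃ t₁ := ⟨hN.2.2, fun h => hN.1 h.symm, fun h => hN.2.1 h.symm⟩
  have hA : ∀ x y z : α, Cub G b x y z → NTE G x y z → yd G b x y z = yd G b t₁ t₂ t₃ →
      ¬ Used D x y → ∑ e, f (tauY b x y z (D.cyc e)) = 0 := by
    intro x y z h1 h2 h3 h4
    refine caseA hYEQ hCTD hDCB h1 h2 hf h3 D ?_ ?_
    · intro i c h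
      exact h4 (Or.inl ⟨i, c, h⟩)
    · intro i h
      exact h4 (Or.inr ⟨i, h⟩)
  by_cases u12 : Used D t₁ t₂
  swap
  · exact hA _ _ _ hC hN rfl u12
  by_cases u13 : Used D t₁ t₃
  swap
  · rw [← hA _ _ _ hC13 hN13 p1 u13]
    simp only [q13]
  by_cases u23 : Used D t₂ t₃
  swap
  · rw [← hA _ _ _ hC23 hN23 p5 u23]
    simp only [q23]
  obtain ⟨⟨i₁, h1⟩, ⟨i₂, h2⟩⟩ := used_mem u12
  obtain ⟨-, ⟨i₃, h3⟩⟩ := used_mem u13
  have hsw : ∀ {u v : α}, Used D u v → Used D v u := by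
    rintro u v (⟨i, c, h⟩ | ⟨i, h⟩)
    · exact Or.inl ⟨i, c, by rw [h, Sym2.eq_swap]⟩
    · exact Or.inr ⟨i, h.symm⟩
  by_cases e12 : i₁ = i₂
  · subst e12
    by_cases e13 : i₁ = i₃
    · subst e13
      exfalso
      have hT : ∀ {u v : α}, Used D u v → u ∈ D.X i₁ → v ∈ D.X i₁ → (D.T i₁).Adj u v := by
        intro u v h hu hv
        have hne : ∀ i : Fin 4, i ≠ i + 1 := by decide
        rcases used_loc h hu hv with h | h | h
        · exact h.2
        · exact absurd h.1 (hne i₁)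
        · exact absurd h.1 (hne i₁)
      exact notri hTRE hC (D.acyc i₁) (hT u12 h1 h2) (hT u13 h1 h3) (hT u23 h2 h3)
    · exact caseB hYTC hDCB hTRE hC f D h1 h2 h3 e13 u12 u13 u23
  · by_cases e13 : i₁ = i₃
    · subst e13
      rw [← caseB hYTC hDCB hTRE hC13 f D h1 h3 h2 e12 u13 u12 (hsw u23)]
      simp only [q13]
    · by_cases e23 : i₂ = i₃
      · subst e23
        rw [← caseB hYTC hDCB hTRE hC23 f D h2 h3 h1 (Ne.symm e12) u23 (hsw u12) (hsw u13)]
        simp only [q23]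
      · exfalso
        have key : ∀ i j k : Fin 4, i ≠ j → i ≠ k → j ≠ k → (j = i + 1 ∨ i = j + 1) →
            (k = i + 1 ∨ i = k + 1) → (k = j + 1 ∨ j = k + 1) → False := by decide
        have hl : ∀ {u v : α} {i j : Fin 4}, Used D u v → u ∈ D.X i → v ∈ D.X j → i ≠ j →
            (j = i + 1 ∨ i = j + 1) := by
          intro u v i j h hu hv hne
          rcases used_loc h hu hv with h | h | h
          · exact absurd h.1 hne
          · exact Or.inl h.1
          · exact Or.inr h.1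
        exact key i₁ i₂ i₃ e12 e13 e23 (hl u12 h1 h2 e12) (hl u13 h1 h3 e13) (hl u23 h2 h3 e23)

end DL
end

section
/-!
MP_3ff0f8_gt, ALGEBRA HALF, STEP Y, part U, module **YTC** (helper72): the map `tauY` on cycles.
-/
open SimpleGraph Finset

namespace DL

namespace YTCM

variable {α : Type} [Fintype α] [DecidableEq α] {G : SimpleGraph α} {b x y z : α}

theorem yd_adj {u w : α} : (yd G b x y z).Adj u w ↔
    (G.Adj u w ∧ u ≠ b ∧ w ≠ b) ∨ (s(u, w) ∈ TrE x y z ∧ u ≠ w) := by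
  unfold yd
  rw [SimpleGraph.sup_adj, SimpleGraph.fromEdgeSet_adj]
  show (G.Adj u w ∧ u ∉ ({b} : Finset α) ∧ w ∉ ({b} : Finset α)) ∨ _ ↔ _
  rw [Finset.mem_singleton, Finset.mem_singleton, Finset.mem_coe]

theorem mem_TrE' {e : Sym2 α} : e ∈ TrE x y z ↔ e = s(x, y) ∨ e = s(x, z) ∨ e = s(y, z) := by
  unfold TrE
  rw [mem_insert, mem_insert, mem_singleton]

theorem mem_tauY {D : Finset (Sym2 α)} {e : Sym2 α} : e ∈ tauY b x y z D ↔
    (e ∈ D ∧ e ∉ TrE x y z) ∨ (e = s(b, x) ∧ ¬ (s(x, y) ∈ D ↔ s(x, z) ∈ D)) ∨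
      (e = s(b, y) ∧ ¬ (s(x, y) ∈ D ↔ s(y, z) ∈ D)) ∨
      (e = s(b, z) ∧ ¬ (s(x, z) ∈ D ↔ s(y, z) ∈ D)) := by
  classical
  unfold tauY
  rw [mem_union, mem_union, mem_union, mem_sdiff, or_assoc, or_assoc]
  refine or_congr Iff.rfl (or_congr ?_ (or_congr ?_ ?_))
  · split_ifs with h <;> simp [h]
  · split_ifs with h <;> simp [h]
  · split_ifs with h <;> simp [h]

theorem bx (h : Cub G b x y z) : G.Adj b x := (h.nb _).2 (Or.inl rfl)
theorem bY (h : Cub G b x y z) : G.Adj b y := (h.nb _).2 (Or.inr (Or.inl rfl))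
theorem bz (h : Cub G b x y z) : G.Adj b z := (h.nb _).2 (Or.inr (Or.inr rfl))

/-- `b` is isolated in `yd` -/
theorem b_notMem (h : Cub G b x y z) {D : Finset (Sym2 α)} (hD : IsCyc (yd G b x y z) D) :
    b ∉ vs D := by
  intro hb
  obtain ⟨i, j, _, hi, _, _⟩ := hD.two_edges hb
  have h1 := hD.adj_of_mem hi
  rw [yd_adj] at h1
  rcases h1 with h1 | h1
  · exact h1.2.1 rfl
  · have h2 : b ∈ s(b, i) := Sym2.mem_mk_left _ _
    have h3 := h1.1
    rw [mem_TrE'] at h3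
    have n1 := (bx h).ne
    have n2 := (bY h).ne
    have n3 := (bz h).ne
    rcases h3 with h3 | h3 | h3
    · rw [h3, Sym2.mem_iff] at h2
      rcases h2 with h2 | h2
      · exact n1 h2
      · exact n2 h2
    · rw [h3, Sym2.mem_iff] at h2
      rcases h2 with h2 | h2
      · exact n1 h2
      · exact n3 h2
    · rw [h3, Sym2.mem_iff] at h2
      rcases h2 with h2 | h2
      · exact n2 h2
      · exact n3 h2

theorem edge_mem (h : Cub G b x y z) {D : Finset (Sym2 α)} (hD : IsCyc (yd G b x y z) D)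
    {e : Sym2 α} (he : e ∈ D) (hT : e ∉ TrE x y z) : e ∈ G.edgeSet := by
  induction e using Sym2.ind with
  | _ u w =>
    have h1 := hD.adj_of_mem he
    rw [yd_adj] at h1
    rcases h1 with h1 | h1
    · exact h1.1
    · exact absurd h1.1 hT

theorem ne_of (h : Cub G b x y z) : s(x, y) ≠ s(x, z) ∧ s(x, y) ≠ s(y, z) ∧ s(x, z) ≠ s(y, z) := by
  have h12 := h.n12
  have h13 := h.n13
  have h23 := h.n23
  simp only [ne_eq, Sym2.eq_iff]
  refine ⟨?_, ?_, ?_⟩
  · rintro (⟨_, h⟩ | ⟨h, _⟩)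
    · exact h23 h
    · exact h13 h
  · rintro (⟨h, _⟩ | ⟨h, _⟩)
    · exact h12 h
    · exact h13 h
  · rintro (⟨h, _⟩ | ⟨h, _⟩)
    · exact h12 h
    · exact h13 h

/-- `lin` -/
theorem lin' {D D' : Finset (Sym2 α)} (h : chi D + chi D' = chi (TrE x y z)) :
    tauY b x y z D = tauY b x y z D' := by
  have h0 : ∀ e, e ∉ TrE x y z → (e ∈ D ↔ e ∈ D') := by
    intro e he
    have h1 := congrFun h e
    rw [Pi.add_apply, chi_of_notMem he] at h1
    by_cases h2 : e ∈ D <;> by_cases h3 : e ∈ D'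
    · exact ⟨fun _ => h3, fun _ => h2⟩
    · rw [chi_of_mem h2, chi_of_notMem h3] at h1
      exact absurd h1 (by decide)
    · rw [chi_of_notMem h2, chi_of_mem h3] at h1
      exact absurd h1 (by decide)
    · exact ⟨fun h => absurd h h2, fun h => absurd h h3⟩
  have h1 : ∀ e, e ∈ TrE x y z → (e ∈ D ↔ e ∉ D') := by
    intro e he
    have h1 := congrFun h e
    rw [Pi.add_apply, chi_of_mem he] at h1
    by_cases h2 : e ∈ D <;> by_cases h3 : e ∈ D'
    · rw [chi_of_mem h2, chi_of_mem h3] at h1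
      exact absurd h1 (by decide)
    · exact ⟨fun _ => h3, fun _ => h2⟩
    · exact ⟨fun h => absurd h h2, fun h => absurd h3 h⟩
    · rw [chi_of_notMem h2, chi_of_notMem h3] at h1
      exact absurd h1 (by decide)
  have e1 := h1 s(x, y) (mem_TrE'.2 (Or.inl rfl))
  have e2 := h1 s(x, z) (mem_TrE'.2 (Or.inr (Or.inl rfl)))
  have e3 := h1 s(y, z) (mem_TrE'.2 (Or.inr (Or.inr rfl)))
  ext e
  rw [mem_tauY, mem_tauY]
  refine or_congr ⟨fun h => ⟨(h0 e h.2).1 h.1, h.2⟩, fun h => ⟨(h0 e h.2).2 h.1, h.2⟩⟩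
    (or_congr ?_ (or_congr ?_ ?_))
  · rw [e1, e2, not_iff_not]
  · rw [e1, e3, not_iff_not]
  · rw [e2, e3, not_iff_not]

/-- exactly one edge of the triangle -/
theorem tau_one (hT : s(x, y) ≠ s(x, z) ∧ s(x, y) ≠ s(y, z)) {D : Finset (Sym2 α)}
    (h1 : s(x, y) ∈ D) (h2 : s(x, z) ∉ D) (h3 : s(y, z) ∉ D) :
    tauY b x y z D = insert s(b, x) (insert s(b, y) (D.erase s(x, y))) := by
  ext e
  rw [mem_tauY, mem_TrE', mem_insert, mem_insert, mem_erase]
  simp only [h1, h2, h3, true_iff, not_false_eq_true, and_true, iff_self, not_true_eq_false,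
    and_false, or_false]
  constructor
  · rintro (h | h | h)
    · exact Or.inr (Or.inr ⟨fun h' => h.2 (Or.inl h'), h.1⟩)
    · exact Or.inl h
    · exact Or.inr (Or.inl h)
  · rintro (h | h | h)
    · exact Or.inr (Or.inl h)
    · exact Or.inr (Or.inr h)
    · refine Or.inl ⟨h.2, ?_⟩
      rintro (h' | h' | h')
      · exact h.1 h'
      · exact h2 (h' ▸ h.2)
      · exact h3 (h' ▸ h.2)

/-- exactly one edge of the triangle: the image is a cycle -/
theorem cyc_one (hYSB : SpecYSB) (h : Cub G b x y z) {D : Finset (Sym2 α)}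
    (hD : IsCyc (yd G b x y z) D) (h1 : s(x, y) ∈ D) (h2 : s(x, z) ∉ D) (h3 : s(y, z) ∉ D) :
    IsCyc G (tauY b x y z D) := by
  rw [tau_one ⟨(ne_of h).1, (ne_of h).2.1⟩ h1 h2 h3]
  refine hYSB.sub hD h1 (b_notMem h hD) (bx h) (bY h) fun e he hne => edge_mem h hD he ?_
  rw [mem_TrE']
  rintro (h' | h' | h')
  · exact hne h'
  · exact h2 (h' ▸ he)
  · exact h3 (h' ▸ he)

/-- exactly two edges of the triangle -/
theorem cyc_two (hYSB : SpecYSB) (h : Cub G b x y z) {D : Finset (Sym2 α)}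
    (hD : IsCyc (yd G b x y z) D) (h1 : s(x, y) ∉ D) (h2 : s(x, z) ∈ D) (h3 : s(y, z) ∈ D) :
    IsCyc G (tauY b x y z D) := by
  have hxz : s(z, x) = s(x, z) := Sym2.eq_swap
  have hyz : s(z, y) = s(y, z) := Sym2.eq_swap
  have hR : (yd G b x y z).Adj x y := yd_adj.2 (Or.inr ⟨mem_TrE'.2 (Or.inl rfl), h.n12⟩)
  have key := hYSB.sup (R := yd G b x y z) hD (k := z) (x := x) (y := y) (hxz ▸ h2) (hyz ▸ h3)
    h.n12 h1 hR (fun e he _ => hD.subset e he)
  rw [hxz, hyz] at key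
  obtain ⟨hN1, hN2, hN3⟩ := ne_of h
  set D' := insert s(x, y) ((D.erase s(x, z)).erase s(y, z)) with hD'
  have m1 : s(x, y) ∈ D' := mem_insert_self _ _
  have m2 : s(x, z) ∉ D' := by
    rw [hD', mem_insert, mem_erase, mem_erase]
    rintro (h' | h')
    · exact hN1 h'.symm
    · exact h'.2.1 rfl
  have m3 : s(y, z) ∉ D' := by
    rw [hD', mem_insert, mem_erase, mem_erase]
    rintro (h' | h')
    · exact hN2 h'.symm
    · exact h'.1 rfl
  have hsum : chi D + chi D' = chi (TrE x y z) := by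
    funext e
    rw [Pi.add_apply]
    by_cases e1 : e = s(x, y)
    · subst e1
      rw [chi_of_notMem h1, chi_of_mem m1, chi_of_mem (mem_TrE'.2 (Or.inl rfl)), zero_add]
    by_cases e2 : e = s(x, z)
    · subst e2
      rw [chi_of_mem h2, chi_of_notMem m2, chi_of_mem (mem_TrE'.2 (Or.inr (Or.inl rfl))), add_zero]
    by_cases e3 : e = s(y, z)
    · subst e3
      rw [chi_of_mem h3, chi_of_notMem m3, chi_of_mem (mem_TrE'.2 (Or.inr (Or.inr rfl))), add_zero]
    have e4 : e ∉ TrE x y z := by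
      rw [mem_TrE']
      rintro (h' | h' | h')
      · exact e1 h'
      · exact e2 h'
      · exact e3 h'
    have e5 : e ∈ D' ↔ e ∈ D := by
      rw [hD', mem_insert, mem_erase, mem_erase]
      constructor
      · rintro (h' | h')
        · exact absurd h' e1
        · exact h'.2.2
      · exact fun h' => Or.inr ⟨e3, e2, h'⟩
    rw [chi_of_notMem e4]
    by_cases e6 : e ∈ D
    · rw [chi_of_mem e6, chi_of_mem (e5.2 e6)]
      exact zmod2_add_self _
    · rw [chi_of_notMem e6, chi_of_notMem fun h' => e6 (e5.1 h'), add_zero]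
  rw [lin' hsum]
  exact cyc_one hYSB h key.1 m1 m2 m3

/-- no edge of the triangle -/
theorem tau_none {D : Finset (Sym2 α)} (h1 : s(x, y) ∉ D) (h2 : s(x, z) ∉ D) (h3 : s(y, z) ∉ D) :
    tauY b x y z D = D := by
  ext e
  rw [mem_tauY]
  simp only [h1, h2, h3, iff_self, not_true_eq_false, and_false, or_false]
  refine ⟨fun h => h.1, fun h => ⟨h, ?_⟩⟩
  rw [mem_TrE']
  rintro (h' | h' | h')
  · exact h1 (h' ▸ h)
  · exact h2 (h' ▸ h)
  · exact h3 (h' ▸ h)

theorem cyc_none (h : Cub G b x y z) {D : Finset (Sym2 α)}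
    (hD : IsCyc (yd G b x y z) D) (h1 : s(x, y) ∉ D) (h2 : s(x, z) ∉ D) (h3 : s(y, z) ∉ D) :
    IsCyc G (tauY b x y z D) := by
  rw [tau_none h1 h2 h3]
  refine hD.transfer fun e he => edge_mem h hD he ?_
  rw [mem_TrE']
  rintro (h' | h' | h')
  · exact h1 (h' ▸ he)
  · exact h2 (h' ▸ he)
  · exact h3 (h' ▸ he)

/-- the triangle -/
theorem isCyc_TrE (h : Cub G b x y z) : IsCyc (yd G b x y z) (TrE x y z) := by
  have a12 : (yd G b x y z).Adj x y := yd_adj.2 (Or.inr ⟨mem_TrE'.2 (Or.inl rfl), h.n12⟩)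
  have a13 : (yd G b x y z).Adj x z := yd_adj.2 (Or.inr ⟨mem_TrE'.2 (Or.inr (Or.inl rfl)), h.n13⟩)
  have a23 : (yd G b x y z).Adj y z := yd_adj.2 (Or.inr ⟨mem_TrE'.2 (Or.inr (Or.inr rfl)), h.n23⟩)
  have h1 : IsPth (yd G b x y z) y z {s(y, z)} := IsPth.edge a23
  exact isCyc_of_isPth_del a12 a13 h.n23 (DL.isPth_del.2 ⟨h1, by
    rw [vs_singleton, disjoint_singleton_right, mem_insert, mem_singleton]
    rintro (h' | h')
    · exact h.n12 h'
    · exact h.n13 h'⟩)

theorem eq_TrE (h : Cub G b x y z) {D : Finset (Sym2 α)}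
    (hD : IsCyc (yd G b x y z) D) (h1 : s(x, y) ∈ D) (h2 : s(x, z) ∈ D) (h3 : s(y, z) ∈ D) :
    D = TrE x y z := by
  refine (hD.eq_of_subset (isCyc_TrE h) ?_).symm
  intro e he
  rw [mem_TrE'] at he
  rcases he with rfl | rfl | rfl
  · exact h1
  · exact h2
  · exact h3

/-- surjectivity, the cycles through `b` with the edges `bx`, `by` -/
theorem onto_aux (hYSB : SpecYSB) (h : Cub G b x y z) (hN : NTE G x y z) {C : Finset (Sym2 α)}
    (hC : IsCyc G C) (h1 : s(b, x) ∈ C) (h2 : s(b, y) ∈ C) :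
    ∃ D, IsCyc (yd G b x y z) D ∧ tauY b x y z D = C ∧ s(b, z) ∉ C ∧ b ∉ vs D ∧
      D ∩ TrE x y z = {s(x, y)} ∧ C = insert s(b, x) (insert s(b, y) (D.erase s(x, y))) := by
  have hxyC : s(x, y) ∉ C := fun h' => hN.1 (hC.adj_of_mem h')
  have hxzC : s(x, z) ∉ C := fun h' => hN.2.1 (hC.adj_of_mem h')
  have hyzC : s(y, z) ∉ C := fun h' => hN.2.2 (hC.adj_of_mem h')
  have hR : (yd G b x y z).Adj x y := yd_adj.2 (Or.inr ⟨mem_TrE'.2 (Or.inl rfl), h.n12⟩)
  obtain ⟨hD1, hD2⟩ := hYSB.sup (R := yd G b x y z) hC h1 h2 h.n12 hxyC hR (by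
    intro e he hb
    induction e using Sym2.ind with
    | _ u w =>
      rw [Sym2.mem_iff, not_or] at hb
      exact yd_adj.2 (Or.inl ⟨hC.adj_of_mem he, Ne.symm hb.1, Ne.symm hb.2⟩))
  obtain ⟨hN1, hN2, hN3⟩ := ne_of h
  set D := insert s(x, y) ((C.erase s(b, x)).erase s(b, y)) with hD
  have m1 : s(x, y) ∈ D := mem_insert_self _ _
  have m2 : s(x, z) ∉ D := by
    rw [hD, mem_insert, mem_erase, mem_erase]
    rintro (h' | h')
    · exact hN1 h'.symm
    · exact hxzC h'.2.2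
  have m3 : s(y, z) ∉ D := by
    rw [hD, mem_insert, mem_erase, mem_erase]
    rintro (h' | h')
    · exact hN2 h'.symm
    · exact hyzC h'.2.2
  have hz : s(b, z) ∉ C := by
    intro h'
    rcases hC.eq_or_eq h1 h2 h.n12 h' with h' | h'
    · exact h.n13 h'.symm
    · exact h.n23 h'.symm
  have hCe : C = insert s(b, x) (insert s(b, y) (D.erase s(x, y))) := by
    ext e
    rw [mem_insert, mem_insert, mem_erase, hD, mem_insert, mem_erase, mem_erase]
    constructor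
    · intro he
      by_cases e1 : e = s(b, x)
      · exact Or.inl e1
      · by_cases e2 : e = s(b, y)
        · exact Or.inr (Or.inl e2)
        · exact Or.inr (Or.inr ⟨fun h' => hxyC (h' ▸ he), Or.inr ⟨e2, e1, he⟩⟩)
    · rintro (rfl | rfl | ⟨h', h'' | h''⟩)
      · exact h1
      · exact h2
      · exact absurd h'' h'
      · exact h''.2.2
  refine ⟨D, hD1, ?_, hz, hD2, ?_, hCe⟩
  · rw [tau_one ⟨hN1, hN2⟩ m1 m2 m3, ← hCe]
  · ext e
    rw [mem_inter, mem_TrE', mem_singleton]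
    constructor
    · rintro ⟨he, rfl | rfl | rfl⟩
      · rfl
      · exact absurd he m2
      · exact absurd he m3
    · rintro rfl
      exact ⟨m1, Or.inl rfl⟩

end YTCM

open YTCM

theorem specYTC (hYSB : SpecYSB) (hYEQ : SpecYEQ) : SpecYTC where
  cyc := by
    intro α _ _ G b t₁ t₂ t₃ D h hN hD hne
    obtain ⟨p1, p2, p3, p4⟩ := hYEQ.perm G b t₁ t₂ t₃
    obtain ⟨q1, q2, q3, q4⟩ := hYEQ.perm G b t₂ t₁ t₃
    obtain ⟨c1, c2⟩ := hYEQ.cperm h
    obtain ⟨c3, c4⟩ := hYEQ.cperm c2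
    obtain ⟨r1, r2⟩ := hYEQ.tperm b t₁ t₂ t₃ D
    obtain ⟨r3, r4⟩ := hYEQ.tperm b t₂ t₁ t₃ D
    have s12 : s(t₂, t₁) = s(t₁, t₂) := Sym2.eq_swap
    have s13 : s(t₃, t₁) = s(t₁, t₃) := Sym2.eq_swap
    have s23 : s(t₃, t₂) = s(t₂, t₃) := Sym2.eq_swap
    by_cases h1 : s(t₁, t₂) ∈ D <;> by_cases h2 : s(t₁, t₃) ∈ D <;> by_cases h3 : s(t₂, t₃) ∈ D
    · exact absurd (eq_TrE h hD h1 h2 h3) hne
    · -- `e12`, `e13`: the vertex `t₁`; order `t₂ t₃ t₁`
      rw [← r2, ← r3]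
      exact cyc_two hYSB c3 (by rw [q1, p2]; exact hD) h3 (s12 ▸ h1) (s13 ▸ h2)
    · -- `e12`, `e23`: order `t₁ t₃ t₂`
      rw [← r1]
      exact cyc_two hYSB c1 (by rw [p1]; exact hD) h2 h1 (s23 ▸ h3)
    · exact cyc_one hYSB h hD h1 h2 h3
    · exact cyc_two hYSB h hD h1 h2 h3
    · rw [← r1]
      exact cyc_one hYSB c1 (by rw [p1]; exact hD) h2 h1 (s23.symm ▸ h3)
    · rw [← r2, ← r3]
      exact cyc_one hYSB c3 (by rw [q1, p2]; exact hD) h3 (s12.symm ▸ h1) (s13.symm ▸ h2)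
    · exact cyc_none h hD h1 h2 h3
  onto := by
    intro α _ _ G b t₁ t₂ t₃ C h hN hC
    obtain ⟨p1, p2, p3, p4⟩ := hYEQ.perm G b t₁ t₂ t₃
    obtain ⟨q1, q2, q3, q4⟩ := hYEQ.perm G b t₂ t₁ t₃
    obtain ⟨c1, c2⟩ := hYEQ.cperm h
    obtain ⟨c3, c4⟩ := hYEQ.cperm c2
    have hN' : NTE G t₁ t₃ t₂ := ⟨hN.2.1, hN.1, fun h' => hN.2.2 h'.symm⟩
    have hN'' : NTE G t₂ t₃ t₁ := ⟨hN.2.2, fun h' => hN.1 h'.symm, fun h' => hN.2.1 h'.symm⟩
    have h12 : s(t₁, t₂) ∉ C := fun h' => hN.1 (hC.adj_of_mem h')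
    have h13 : s(t₁, t₃) ∉ C := fun h' => hN.2.1 (hC.adj_of_mem h')
    have h23 : s(t₂, t₃) ∉ C := fun h' => hN.2.2 (hC.adj_of_mem h')
    by_cases hb : b ∈ vs C
    · have main : ∀ i j, i ≠ j → s(b, i) ∈ C → s(b, j) ∈ C →
          (s(b, t₁) ∈ C ∧ s(b, t₂) ∈ C) ∨ (s(b, t₁) ∈ C ∧ s(b, t₃) ∈ C) ∨
            (s(b, t₂) ∈ C ∧ s(b, t₃) ∈ C) := by
        intro i j hij hi hj
        have hi' := (h.nb i).1 (hC.adj_of_mem hi)
        have hj' := (h.nb j).1 (hC.adj_of_mem hj)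
        rcases hi' with rfl | rfl | rfl <;> rcases hj' with rfl | rfl | rfl
        · exact absurd rfl hij
        · exact Or.inl ⟨hi, hj⟩
        · exact Or.inr (Or.inl ⟨hi, hj⟩)
        · exact Or.inl ⟨hj, hi⟩
        · exact absurd rfl hij
        · exact Or.inr (Or.inr ⟨hi, hj⟩)
        · exact Or.inr (Or.inl ⟨hj, hi⟩)
        · exact Or.inr (Or.inr ⟨hj, hi⟩)
        · exact absurd rfl hij
      obtain ⟨i, j, hij, hi, hj, _⟩ := hC.two_edges hb
      rcases main i j hij hi hj with ⟨a1, a2⟩ | ⟨a1, a2⟩ | ⟨a1, a2⟩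
      · obtain ⟨D, hD1, hD2, hD3, hD4, hD5, hD6⟩ := onto_aux hYSB h hN hC a1 a2
        exact ⟨D, hD1, hD2, Or.inr (Or.inl ⟨a1, a2, hD3, hD4, hD5, hD6⟩)⟩
      · obtain ⟨D, hD1, hD2, hD3, hD4, hD5, hD6⟩ := onto_aux hYSB c1 hN' hC a1 a2
        rw [p1] at hD1
        rw [p3] at hD5
        rw [(hYEQ.tperm b t₁ t₂ t₃ D).1] at hD2
        exact ⟨D, hD1, hD2, Or.inr (Or.inr (Or.inl ⟨a1, hD3, a2, hD4, hD5, hD6⟩))⟩
      · obtain ⟨D, hD1, hD2, hD3, hD4, hD5, hD6⟩ := onto_aux hYSB c3 hN'' hC a1 a2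
        rw [q1, p2] at hD1
        rw [q3, p4] at hD5
        rw [(hYEQ.tperm b t₂ t₁ t₃ D).1, (hYEQ.tperm b t₁ t₂ t₃ D).2] at hD2
        exact ⟨D, hD1, hD2, Or.inr (Or.inr (Or.inr ⟨hD3, a1, a2, hD4, hD5, hD6⟩))⟩
    · refine ⟨C, hC.transfer fun e he => ?_, tau_none h12 h13 h23, Or.inl ⟨hb, rfl⟩⟩
      induction e using Sym2.ind with
      | _ u w =>
        exact yd_adj.2 (Or.inl ⟨hC.adj_of_mem he, fun h' => hb (h' ▸ left_mem_vs he),
          fun h' => hb (h' ▸ right_mem_vs he)⟩)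
  lin := by
    intro α _ _ b t₁ t₂ t₃ D D' _ h
    exact lin' h
  map := by
    intro α _ _ b t₁ t₂ t₃ hnd
    simp only [List.nodup_cons, List.mem_cons, List.not_mem_nil, or_false, not_or,
      List.nodup_nil, and_true, not_false_eq_true] at hnd
    obtain ⟨⟨n1, n2, n3⟩, ⟨n12, n13⟩, n23⟩ := hnd
    refine ⟨⟨⟨fun c e => (if e ∈ TrE t₁ t₂ t₃ ∨ b ∈ e then 0 else c e) +
      (if e = s(b, t₁) then c s(t₁, t₂) + c s(t₁, t₃) else 0) +
      (if e = s(b, t₂) then c s(t₁, t₂) + c s(t₂, t₃) else 0) +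
      (if e = s(b, t₃) then c s(t₁, t₃) + c s(t₂, t₃) else 0), ?_⟩, ?_⟩, ?_⟩
    · funext e
      simp
    · intro c d
      funext e
      simp only [Pi.add_apply]
      split_ifs <;> ring
    · intro D hb
      have d12 : s(b, t₁) ≠ s(b, t₂) := fun h' => n12 (by
        rw [Sym2.eq_iff] at h'
        rcases h' with h' | h'
        · exact h'.2
        · exact absurd h'.1 n2)
      have d13 : s(b, t₁) ≠ s(b, t₃) := fun h' => n13 (by
        rw [Sym2.eq_iff] at h'
        rcases h' with h' | h'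
        · exact h'.2
        · exact absurd h'.1 n3)
      have d23 : s(b, t₂) ≠ s(b, t₃) := fun h' => n23 (by
        rw [Sym2.eq_iff] at h'
        rcases h' with h' | h'
        · exact h'.2
        · exact absurd h'.1 n3)
      funext e
      show chi (tauY b t₁ t₂ t₃ D) e = (if e ∈ TrE t₁ t₂ t₃ ∨ b ∈ e then 0 else chi D e) +
        (if e = s(b, t₁) then chi D s(t₁, t₂) + chi D s(t₁, t₃) else 0) +
        (if e = s(b, t₂) then chi D s(t₁, t₂) + chi D s(t₂, t₃) else 0) +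
        (if e = s(b, t₃) then chi D s(t₁, t₃) + chi D s(t₂, t₃) else 0)
      have hmem : ∀ w, s(b, w) ∉ D := fun w h' => hb (left_mem_vs h')
      rw [chi_apply (tauY b t₁ t₂ t₃ D)]
      by_cases e1 : e = s(b, t₁)
      · subst e1
        have hbe : b ∈ s(b, t₁) := Sym2.mem_mk_left _ _
        simp only [mem_tauY, hmem, false_and, false_or, d12, d13, or_false, true_and, hbe, or_true,
          if_true, if_false, zero_add, add_zero]
        by_cases m1 : s(t₁, t₂) ∈ D <;> by_cases m2 : s(t₁, t₃) ∈ D <;>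
          simp only [chi_apply, m1, m2, if_true, if_false, iff_self, not_true_eq_false,
            iff_false, iff_true, not_false_eq_true, true_iff, false_iff] <;> decide
      by_cases e2 : e = s(b, t₂)
      · subst e2
        have hbe : b ∈ s(b, t₂) := Sym2.mem_mk_left _ _
        simp only [mem_tauY, hmem, false_and, false_or, d12.symm, d23, or_false, true_and, hbe,
          or_true, if_true, if_false, zero_add, add_zero]
        by_cases m1 : s(t₁, t₂) ∈ D <;> by_cases m2 : s(t₂, t₃) ∈ D <;>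
          simp only [chi_apply, m1, m2, if_true, if_false, iff_self, not_true_eq_false,
            iff_false, iff_true, not_false_eq_true, true_iff, false_iff] <;> decide
      by_cases e3 : e = s(b, t₃)
      · subst e3
        have hbe : b ∈ s(b, t₃) := Sym2.mem_mk_left _ _
        simp only [mem_tauY, hmem, false_and, false_or, d13.symm, d23.symm, or_false, true_and, hbe,
          or_true, if_true, if_false, zero_add, add_zero]
        by_cases m1 : s(t₁, t₃) ∈ D <;> by_cases m2 : s(t₂, t₃) ∈ D <;>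
          simp only [chi_apply, m1, m2, if_true, if_false, iff_self, not_true_eq_false,
            iff_false, iff_true, not_false_eq_true, true_iff, false_iff] <;> decide
      simp only [mem_tauY, e1, e2, e3, false_and, or_false, if_false, add_zero]
      by_cases m1 : e ∈ D <;> by_cases m2 : e ∈ TrE t₁ t₂ t₃ <;> by_cases m3 : b ∈ e
      · simp [m1, m2, m3]
      · simp [m1, m2, m3]
      · exact absurd (mem_vs.2 ⟨e, m1, m3⟩) hb
      · simp [m1, m2, m3, chi_apply]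
      · simp [m1, m2, m3]
      · simp [m1, m2, m3]
      · simp [m1, m2, m3]
      · simp [m1, m2, m3, chi_apply]

end DL
end

section
/-!
# MP_3ff0f8_gt, STEP Y, part U, module YU0 (helper43): no edge of the triangle in `G`
-/
open SimpleGraph Finset

namespace DL

namespace YU0M

variable {α : Type} [Fintype α] [DecidableEq α]

omit [Fintype α] in
theorem offT_add {R : SimpleGraph α} {t₁ t₂ t₃ : α} {m m' : α → α → ZMod 2}
    (h : OffT R t₁ t₂ t₃ m) (h' : OffT R t₁ t₂ t₃ m') : OffT R t₁ t₂ t₃ (m + m') := by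
  intro u v huv
  by_cases h0 : m u v = 0
  · refine h' u v fun h1 => huv ?_
    rw [Pi.add_apply, Pi.add_apply, h0, h1, add_zero]
  · exact h u v h0

/-- `tch` as a combination of coherence functions -/
theorem tch_eq (a a' : α) (m : α → α → ZMod 2) (C : Finset (Sym2 α)) :
    tch a a' m C = ∑ x, ∑ y, ∑ c, ∑ d, (if x = a ∧ y = a' then m c d else 0) * coh x y c d C := by
  rw [sum_eq_single a, sum_eq_single a']
  · unfold tch
    refine sum_congr rfl fun c _ => sum_congr rfl fun d _ => ?_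
    rw [if_pos ⟨rfl, rfl⟩]
  · intro y _ hy
    refine sum_eq_zero fun c _ => sum_eq_zero fun d _ => ?_
    rw [if_neg (fun h => hy h.2), zero_mul]
  · intro h
    exact absurd (mem_univ _) h
  · intro x _ hx
    refine sum_eq_zero fun y _ => sum_eq_zero fun c _ => sum_eq_zero fun d _ => ?_
    rw [if_neg (fun h => hx h.1), zero_mul]
  · intro h
    exact absurd (mem_univ _) h

theorem tch_zero {a a' : α} {m : α → α → ZMod 2} {C : Finset (Sym2 α)} (h : s(a, a') ∉ C) :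
    tch a a' m C = 0 := by
  unfold tch
  refine sum_eq_zero fun c _ => sum_eq_zero fun d _ => ?_
  rw [coh_eq_zero_left h, mul_zero]

end YU0M

open YU0M in
/-- **YU0** -/
theorem specYU0 (hPOL : SpecPOL) (hYTA : SpecYTA) (hYNF : SpecYNF) (hYPS : SpecYPS) (hYIV : SpecYIV)
    (hYTC : SpecYTC) (hYFU : SpecYFU) (hYEQ : SpecYEQ) (hYKC : SpecYKC) : SpecYU0 := by
  intro α _ _ G b t₁ t₂ t₃ hc hn hU hL f hf
  have hT := hYEQ.tri hc
  have hF : InF (yd G b t₁ t₂ t₃) (fun D => f (tauY b t₁ t₂ t₃ D)) := hU _ (hYTA hc hn f hf)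
  obtain ⟨p, m₁, m₂, m₃, l, hp, hp0, o1, o2, o3, ol, hTNF⟩ := hYNF hT hF
  obtain ⟨q, hq, hform⟩ := hYPS.form t₁ t₂ t₃ p m₁ m₂ m₃ hp
  have hmu := offT_add (offT_add o1 o2) o3
  have hInF : InF (yd G b t₁ t₂ t₃) (Psi t₁ t₂ t₃ p m₁ m₂ m₃) := by
    refine ⟨fun c => c s(t₁, t₂) * q c, ?_, ?_, fun x y c d =>
      if x = t₂ ∧ y = t₁ then (m₁ + m₂ + m₃) c d else 0, ?_⟩
    · have h1 : DegLE 1 (fun c : Chain α => c s(t₁, t₂)) := hPOL.ofAdd fun _ _ => rfl
      exact hPOL.mul h1 hq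
    · exact zero_mul _
    · intro C _
      rw [hform C, tch_eq]
  obtain ⟨hK1, hK2⟩ : KCJ (yd G b t₁ t₂ t₃) t₁ t₂ t₃ (Psi t₁ t₂ t₃ p m₁ m₂ m₃) ∧
      KCJ (yd G b t₁ t₂ t₃) t₂ t₁ t₃ (Psi t₁ t₂ t₃ p m₁ m₂ m₃) :=
    hYKC hT hq hmu fun C _ => hform C
  have hIV : IV (yd G b t₁ t₂ t₃) t₁ t₂ t₃ (Psi t₁ t₂ t₃ p m₁ m₂ m₃) := by
    intro C hC h0
    have h12 : s(t₁, t₂) ∈ C := by
      by_contra h
      apply h0
      rw [hform C, chi_of_notMem h, zero_mul, tch_zero (by rwa [Sym2.eq_swap]), add_zero]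
    refine ⟨h12, ?_⟩
    by_contra hnot
    have hCT : C ≠ TrE t₁ t₂ t₃ := by
      rintro rfl
      exact h0 (hYPS.tri hT hp0 o1 o2 o3)
    obtain ⟨C', hC', h12', hadd⟩ := hYIV hT C hC h12 hCT hnot
    have htau := hYTC.lin (b := b) (t₁ := t₁) (t₂ := t₂) (t₃ := t₃) (D := C) (D' := C') (by
      have h1 := hc.n12
      have h2 := hc.n13
      have h3 := hc.n23
      simp [h1, h2, h3]) hadd
    have hi := hYPS.idn (p := p) (l := l) hT o1 o2 o3 ol C C' hC hC' h12 hadd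
    apply h0
    rw [← hi, ← hTNF C hC, ← hTNF C' hC']
    show f (tauY b t₁ t₂ t₃ C) + f (tauY b t₁ t₂ t₃ C') = 0
    rw [htau, zmod2_add_self]
  obtain ⟨s, ν, hs, hν, hloc⟩ := hL _ hInF hK1 hK2 hIV
  exact hYFU hc hn hp hp0 o1 o2 o3 ol hs hν hTNF hloc

end DL
end
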