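import Pool.Agent.DL.Y.SpecU
import Pool.Agent.DL.NP.TRC

/-!
MP_3ff0f8_gt, ALGEBRA HALF, Step Y, module YZS (helper20): two-cycles and Y-Delta

`w = z +` the tori of the triangles `b t_i t_j` and cycles `A_ij` avoiding `b, t_i, t_j`.
-/

open SimpleGraph Finset

namespace DL

namespace YZSM

set_option linter.unusedSectionVars false

variable {α : Type} [Fintype α] [DecidableEq α] {G : SimpleGraph α}

theorem sum_star (F : Sym2 α → ZMod 2) (v : α) :
    ∑ e ∈ univ.filter (fun e => v ∈ e), F e = ∑ w, F s(v, w) := by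
  symm
  refine Finset.sum_nbij (fun w => s(v, w)) (fun w _ => ?_) (fun x _ y _ h => ?_)
    (fun e he => ?_) (fun _ _ => rfl)
  · simp
  · exact Sym2.congr_right.1 h
  · have hv : v ∈ e := (mem_filter.1 he).2
    obtain ⟨w, rfl⟩ := Sym2.mem_iff_exists.1 hv
    exact ⟨w, mem_coe.2 (mem_univ _), rfl⟩

/-- the triangle -/
def T3 (b x y : α) : Finset (Sym2 α) := {s(b, x), s(x, y), s(b, y)}

theorem mem_T3 {b x y : α} {e : Sym2 α} : e ∈ T3 b x y ↔ e = s(b, x) ∨ e = s(x, y) ∨ e = s(b, y) := by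
  unfold T3
  simp

theorem insert_del {S : Finset α} {v : α} {c : Chain α} (hc : c ∈ Z1 (del G S))
    (h : ∀ e, v ∈ e → c e = 0) : c ∈ Z1 (del G (insert v S)) := by
  refine ⟨fun e he => ?_, hc.2⟩
  have h1 := hc.1 e he
  have hv : v ∉ e := fun h' => he (h e h')
  induction e using Sym2.ind with
  | _ p q =>
    rw [Sym2.mem_iff, not_or] at hv
    have h2 : (del G S).Adj p q := h1
    exact ⟨h2.1, by rw [mem_insert, not_or]; exact ⟨Ne.symm hv.1, h2.2.1⟩,
      by rw [mem_insert, not_or]; exact ⟨Ne.symm hv.2, h2.2.2⟩⟩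

/-- `G` with the edges of the triangle -/
def Gp (G : SimpleGraph α) (t₁ t₂ t₃ : α) : SimpleGraph α :=
  G ⊔ fromEdgeSet (TrE t₁ t₂ t₃ : Set (Sym2 α))

theorem tor_zero {t A : Chain α} {e f : Sym2 α} (h1 : t e = 0) (h2 : t f = 0) :
    tor t A e f = 0 := by
  unfold tor
  rw [h1, h2, zero_mul, mul_zero, add_zero]

/-- one torus -/
theorem piece (hVKA : SpecVKA) (hKUR : SpecKUR) {H : SimpleGraph α} {b x y : α} {A : Chain α}
    (hbx : H.Adj b x) (hby : H.Adj b y) (hxy : H.Adj x y) (hA : A ∈ Z1 (del G {b, x, y}))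
    (hGH : G ≤ H) : IsZ2 H (tor (chi (T3 b x y)) A) ∧
    (∀ r : α → ℕ, Function.Injective r → vk r (tor (chi (T3 b x y)) A) = 0) ∧
    (∀ f, tor (chi (T3 b x y)) A s(b, x) f = A f) ∧ (∀ f, tor (chi (T3 b x y)) A s(b, y) f = A f) ∧
    (∀ v, v ≠ x → v ≠ y → ∀ f, tor (chi (T3 b x y)) A s(b, v) f = 0) ∧
    (∀ f, tor (chi (T3 b x y)) A s(x, y) f = A f) := by
  have hc := NCNM.triC hbx hby hxy
  have ht : chi (T3 b x y) ∈ Z1 H := hc.chi_mem
  have hZ : A ∈ Z1 H := Z1_mono ((del_le _ _).trans hGH) hA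
  have htP : ∀ e v, chi (T3 b x y) e ≠ 0 → v ∈ e → v ∈ ({b, x, y} : Finset α) := by
    intro e v he hv
    rw [chi_ne_zero, mem_T3] at he
    simp only [mem_insert, mem_singleton]
    rcases he with rfl | rfl | rfl <;> rw [Sym2.mem_iff] at hv <;> tauto
  have hZQ : ∀ e v, A e ≠ 0 → v ∈ e → v ∈ univ \ ({b, x, y} : Finset α) := by
    intro e v he hv
    rw [mem_sdiff]
    exact ⟨mem_univ _, NCNM.notMem_of_del hA he hv⟩
  have hA0 : ∀ v u, v ∈ ({b, x, y} : Finset α) → A s(v, u) = 0 := by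
    intro v u hv
    by_contra h
    exact NCNM.notMem_of_del hA h (Sym2.mem_mk_left v u) hv
  refine ⟨hKUR.tor {b, x, y} (univ \ {b, x, y}) ht hZ htP hZQ disjoint_sdiff,
    fun r hr => hVKA.tor {b, x, y} (univ \ {b, x, y}) hr ht hZ htP hZQ disjoint_sdiff, ?_, ?_, ?_, ?_⟩
  · intro f
    unfold tor
    rw [chi_of_mem (mem_T3.2 (Or.inl rfl)), hA0 b x (by simp), one_mul, zero_mul, add_zero]
  · intro f
    unfold tor
    rw [chi_of_mem (mem_T3.2 (Or.inr (Or.inr rfl))), hA0 b y (by simp), one_mul, zero_mul, add_zero]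
  · intro v hv1 hv2 f
    unfold tor
    rw [hA0 b v (by simp), zero_mul, add_zero, chi_of_notMem, zero_mul]
    rw [mem_T3]
    rintro (h | h | h)
    · exact hv1 (Sym2.congr_right.1 h)
    · rcases Sym2.eq_iff.1 h with ⟨h, _⟩ | ⟨h, _⟩
      · exact hbx.ne h
      · exact hby.ne h
    · exact hv2 (Sym2.congr_right.1 h)
  · intro f
    unfold tor
    rw [chi_of_mem (mem_T3.2 (Or.inr (Or.inl rfl))), hA0 x y (by simp), one_mul, zero_mul, add_zero]

end YZSM

open YZSM

theorem specYZS (hVKA : SpecVKA) (hKUR : SpecKUR) (hTRC : SpecTRC) : SpecYZS := by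
  intro α _ _ G b t₁ t₂ t₃ z hC hN hconn hz
  have hb1 : G.Adj b t₁ := (hC.nb _).2 (Or.inl rfl)
  have hb2 : G.Adj b t₂ := (hC.nb _).2 (Or.inr (Or.inl rfl))
  have hb3 : G.Adj b t₃ := (hC.nb _).2 (Or.inr (Or.inr rfl))
  have n12 := hC.n12
  have n13 := hC.n13
  have n23 := hC.n23
  have hv0 : ∀ v, v ≠ t₁ → v ≠ t₂ → v ≠ t₃ → ∀ f, z s(b, v) f = 0 := by
    intro v h1 h2 h3 f
    by_contra h
    rcases (hC.nb v).1 (hz.2.1 _ _ h).1 with h | h | h
    · exact h1 h
    · exact h2 h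
    · exact h3 h
  have hl1 := hKUR.row b t₁ hz
  have hl2 := hKUR.row b t₂ hz
  have hl3 := hKUR.row b t₃ hz
  -- the sum of the rows at `b`
  have hsum : ∀ f, z s(b, t₁) f + z s(b, t₂) f + z s(b, t₃) f = 0 := by
    intro f
    by_cases hbf : b ∈ f
    · have h0 : ∀ t, z s(b, t) f = 0 := by
        intro t
        by_contra h
        exact (hz.2.1 _ _ h).2.2 b ⟨Sym2.mem_mk_left _ _, hbf⟩
      rw [h0, h0, h0]
      simp
    · have h1 := hz.2.2 f b hbf
      rw [YZSM.sum_star] at h1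
      rw [← h1]
      have h2 : ∀ v, z f s(b, v) = z s(b, v) f := fun v => hz.1 _ _
      rw [sum_congr rfl fun v _ => h2 v]
      symm
      rw [← sum_subset (subset_univ ({t₁, t₂, t₃} : Finset α))]
      · rw [sum_insert (by simp [n12, n13]), sum_pair n23, add_assoc]
      · intro v _ hv
        simp only [mem_insert, mem_singleton, not_or] at hv
        exact hv0 v hv.1 hv.2.1 hv.2.2 f
  -- the cycle `a`
  have hT : ∀ e, (if t₃ ∈ e then z s(b, t₁) e else 0) ≠ 0 →
      e ∈ (del G {b, t₁, t₂}).edgeSet ∧ t₃ ∈ e := by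
    intro e he
    by_cases h3 : t₃ ∈ e
    · rw [if_pos h3] at he
      refine ⟨?_, h3⟩
      have h1 := hl1.1 e he
      obtain ⟨v, rfl⟩ := Sym2.mem_iff_exists.1 h3
      have h2 : (del G {b, t₁}).Adj t₃ v := h1
      have hv2 : v ≠ t₂ := by
        rintro rfl
        exact hN.2.2 h2.1.symm
      refine ⟨h2.1, ?_, ?_⟩
      · have := h2.2.1
        simp only [mem_insert, mem_singleton, not_or] at this ⊢
        exact ⟨this.1, this.2, Ne.symm n23⟩
      · have := h2.2.2
        simp only [mem_insert, mem_singleton, not_or] at this ⊢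
        exact ⟨this.1, this.2, hv2⟩
    · rw [if_neg h3] at he
      exact absurd rfl he
  obtain ⟨a, ha, hat⟩ := hTRC G {b, t₁, t₂} t₃ (by
      simp only [mem_insert, mem_singleton, not_or]
      exact ⟨hb3.ne.symm, Ne.symm n13, Ne.symm n23⟩) (by
      have : insert t₃ ({b, t₁, t₂} : Finset α) = {b, t₁, t₂, t₃} := by
        ext v
        simp only [mem_insert, mem_singleton]
        tauto
      rw [this]
      exact hconn) (fun e => if t₃ ∈ e then z s(b, t₁) e else 0) hT (by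
      rw [← sum_filter]
      exact hl1.2 t₃)
  have hat' : ∀ e, t₃ ∈ e → a e = z s(b, t₁) e := by
    intro e he
    rw [hat e he]
    exact if_pos he
  have hA13 : z s(b, t₁) + a ∈ Z1 (del G {b, t₁, t₃}) := by
    have h1 : z s(b, t₁) + a ∈ Z1 (del G {b, t₁}) := Submodule.add_mem _ hl1
      (Z1_mono (del_anti (by
        intro v hv
        simp only [mem_insert, mem_singleton] at hv ⊢
        tauto)) ha)
    have h2 := insert_del h1 (v := t₃) (fun e he => by
      rw [Pi.add_apply, hat' e he]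
      exact zmod2_add_self _)
    have : insert t₃ ({b, t₁} : Finset α) = {b, t₁, t₃} := by
      ext v
      simp only [mem_insert, mem_singleton]
      tauto
    rwa [this] at h2
  have hA23 : z s(b, t₂) + a ∈ Z1 (del G {b, t₂, t₃}) := by
    have h1 : z s(b, t₂) + a ∈ Z1 (del G {b, t₂}) := Submodule.add_mem _ hl2
      (Z1_mono (del_anti (by
        intro v hv
        simp only [mem_insert, mem_singleton] at hv ⊢
        tauto)) ha)
    have h2 := insert_del h1 (v := t₃) (fun e he => by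
      rw [Pi.add_apply, hat' e he]
      have h3 : z s(b, t₃) e = 0 := by
        by_contra h
        exact NCNM.notMem_of_del hl3 h he (by simp)
      have h4 := hsum e
      rw [h3, add_zero] at h4
      rw [add_comm]
      exact h4)
    have : insert t₃ ({b, t₂} : Finset α) = {b, t₂, t₃} := by
      ext v
      simp only [mem_insert, mem_singleton]
      tauto
    rwa [this] at h2
  -- the big graph
  have hle : G ≤ Gp G t₁ t₂ t₃ := le_sup_left
  have e12 : (Gp G t₁ t₂ t₃).Adj t₁ t₂ := by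
    unfold Gp
    rw [SimpleGraph.sup_adj, fromEdgeSet_adj]
    exact Or.inr ⟨by unfold TrE; simp, n12⟩
  have e13 : (Gp G t₁ t₂ t₃).Adj t₁ t₃ := by
    unfold Gp
    rw [SimpleGraph.sup_adj, fromEdgeSet_adj]
    exact Or.inr ⟨by unfold TrE; simp, n13⟩
  have e23 : (Gp G t₁ t₂ t₃).Adj t₂ t₃ := by
    unfold Gp
    rw [SimpleGraph.sup_adj, fromEdgeSet_adj]
    exact Or.inr ⟨by unfold TrE; simp, n23⟩
  obtain ⟨p1, p2, p3, p4, p5, p6⟩ := piece hVKA hKUR (hle hb1) (hle hb2) e12 ha hle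
  obtain ⟨q1, q2, q3, q4, q5, q6⟩ := piece hVKA hKUR (hle hb1) (hle hb3) e13 hA13 hle
  obtain ⟨r1, r2, r3, r4, r5, r6⟩ := piece hVKA hKUR (hle hb2) (hle hb3) e23 hA23 hle
  set P12 := tor (chi (T3 b t₁ t₂)) a with hP12
  set P13 := tor (chi (T3 b t₁ t₃)) (z s(b, t₁) + a) with hP13
  set P23 := tor (chi (T3 b t₂ t₃)) (z s(b, t₂) + a) with hP23
  have hw : IsZ2 (Gp G t₁ t₂ t₃) (fun g h => ((z g h + P12 g h) + P13 g h) + P23 g h) :=
    hKUR.zadd (hKUR.zadd (hKUR.zadd (hKUR.zmono hle hz) p1) q1) r1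
  have hb0 : ∀ v f, ((z s(b, v) f + P12 s(b, v) f) + P13 s(b, v) f) + P23 s(b, v) f = 0 := by
    intro v f
    by_cases h1 : v = t₁
    · subst h1
      rw [p3, q3, r5 _ n12 n13, Pi.add_apply]
      have := zmod2_add_self (z s(b, v) f + a f)
      linear_combination this
    · by_cases h2 : v = t₂
      · subst h2
        rw [p4, q5 _ h1 n23, r3, Pi.add_apply]
        have := zmod2_add_self (z s(b, v) f + a f)
        linear_combination this
      · by_cases h3 : v = t₃
        · subst h3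
          rw [p5 _ h1 h2, q4, r4, Pi.add_apply, Pi.add_apply]
          have h4 := hsum f
          have h5 := zmod2_add_self (a f)
          linear_combination h4 + h5
        · rw [hv0 v h1 h2 h3, p5 _ h1 h2, q5 _ h1 h3, r5 _ h2 h3]
          simp
  have hz12 : ∀ g, z s(t₁, t₂) g = 0 := by
    intro g
    by_contra h
    exact hN.1 (hz.2.1 _ _ h).1
  have hz13 : ∀ g, z s(t₁, t₃) g = 0 := by
    intro g
    by_contra h
    exact hN.2.1 (hz.2.1 _ _ h).1
  have hz23 : ∀ g, z s(t₂, t₃) g = 0 := by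
    intro g
    by_contra h
    exact hN.2.2 (hz.2.1 _ _ h).1
  -- chains of the triangles
  have hchi : ∀ x y, ∀ g : Sym2 α, b ∉ g → g ≠ s(x, y) → chi (T3 b x y) g = 0 := by
    intro x y g hg hgx
    refine chi_of_notMem ?_
    rw [mem_T3]
    rintro (rfl | h | rfl)
    · exact hg (Sym2.mem_mk_left _ _)
    · exact hgx h
    · exact hg (Sym2.mem_mk_left _ _)
  have hne1 : s(t₁, t₂) ≠ s(t₁, t₃) := fun h => n23 (Sym2.congr_right.1 h)
  have hne2 : s(t₁, t₂) ≠ s(t₂, t₃) := by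
    intro h
    rcases Sym2.eq_iff.1 h with ⟨h, _⟩ | ⟨h, _⟩
    · exact n12 h
    · exact n13 h
  have hne3 : s(t₁, t₃) ≠ s(t₂, t₃) := by
    intro h
    rcases Sym2.eq_iff.1 h with ⟨h, _⟩ | ⟨h, _⟩
    · exact n12 h
    · exact n13 h
  have hbt : ∀ x y, b ≠ x → b ≠ y → b ∉ s(x, y) := by
    intro x y h1 h2 h
    rcases Sym2.mem_iff.1 h with h | h
    · exact h1 h
    · exact h2 h
  have b12 := hbt t₁ t₂ hb1.ne hb2.ne
  have b13 := hbt t₁ t₃ hb1.ne hb3.ne
  have b23 := hbt t₂ t₃ hb2.ne hb3.ne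
  refine ⟨fun g h => ((z g h + P12 g h) + P13 g h) + P23 g h, ?_, ?_, ?_, ?_⟩
  · refine ⟨hw.1, fun e f hef => ?_, hw.2.2⟩
    have key : ∀ e f : Sym2 α, ((z e f + P12 e f) + P13 e f) + P23 e f ≠ 0 →
        e ∈ (yd G b t₁ t₂ t₃).edgeSet := by
      intro e f hef
      have h1 := (hw.2.1 e f hef).1
      have hbe : b ∉ e := by
        intro h
        obtain ⟨v, rfl⟩ := Sym2.mem_iff_exists.1 h
        exact hef (hb0 v f)
      induction e using Sym2.ind with
      | _ p q =>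
        rw [Sym2.mem_iff, not_or] at hbe
        have h2 : (Gp G t₁ t₂ t₃).Adj p q := h1
        show (yd G b t₁ t₂ t₃).Adj p q
        unfold Gp at h2
        unfold yd
        rw [SimpleGraph.sup_adj] at h2 ⊢
        rcases h2 with h2 | h2
        · left
          exact ⟨h2, by simpa using Ne.symm hbe.1, by simpa using Ne.symm hbe.2⟩
        · exact Or.inr h2
    refine ⟨key e f hef, key f e ?_, (hw.2.1 e f hef).2.2⟩
    intro h0
    exact hef ((hw.1 e f).trans h0)
  · intro g hbg hg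
    unfold TrE at hg
    simp only [mem_insert, mem_singleton, not_or] at hg
    have c12 := hchi t₁ t₂ g hbg hg.1
    have c13 := hchi t₁ t₃ g hbg hg.2.1
    have c23 := hchi t₂ t₃ g hbg hg.2.2
    have w12 : ((z s(t₁, t₂) g + P12 s(t₁, t₂) g) + P13 s(t₁, t₂) g) + P23 s(t₁, t₂) g = a g := by
      rw [hz12, p6, hP13, hP23, tor_zero (hchi t₁ t₃ _ b12 hne1) c13,
        tor_zero (hchi t₂ t₃ _ b12 hne2) c23]
      simp
    have w13 : ((z s(t₁, t₃) g + P12 s(t₁, t₃) g) + P13 s(t₁, t₃) g) + P23 s(t₁, t₃) g =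
        z s(b, t₁) g + a g := by
      rw [hz13, q6, hP12, hP23, tor_zero (hchi t₁ t₂ _ b13 hne1.symm) c12,
        tor_zero (hchi t₂ t₃ _ b13 hne3) c23]
      simp
    have w23 : ((z s(t₂, t₃) g + P12 s(t₂, t₃) g) + P13 s(t₂, t₃) g) + P23 s(t₂, t₃) g =
        z s(b, t₂) g + a g := by
      rw [hz23, r6, hP12, hP13, tor_zero (hchi t₁ t₂ _ b23 hne2.symm) c12,
        tor_zero (hchi t₁ t₃ _ b23 hne3.symm) c13]
      simp
    simp only [w12, w13, w23]
    have h5 := zmod2_add_self (a g)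
    have h4 := hsum g
    have h6 := zmod2_add_self (z s(b, t₃) g)
    refine ⟨?_, ?_, ?_⟩
    · linear_combination -h5
    · linear_combination -h5
    · linear_combination h6 - h4 - h5
  · intro g h hbg hbh hg hh
    unfold TrE at hg hh
    simp only [mem_insert, mem_singleton, not_or] at hg hh
    show z g h = ((z g h + P12 g h) + P13 g h) + P23 g h
    rw [hP12, hP13, hP23, tor_zero (hchi t₁ t₂ g hbg hg.1) (hchi t₁ t₂ h hbh hh.1),
      tor_zero (hchi t₁ t₃ g hbg hg.2.1) (hchi t₁ t₃ h hbh hh.2.1),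
      tor_zero (hchi t₂ t₃ g hbg hg.2.2) (hchi t₂ t₃ h hbh hh.2.2)]
    simp
  · intro r hr
    rw [hVKA.add r (fun g h => (z g h + P12 g h) + P13 g h) P23,
      hVKA.add r (fun g h => z g h + P12 g h) P13, hVKA.add r z P12, p2 r hr, q2 r hr, r2 r hr]
    simp

end DL
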