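import Pool.Agent.DL.E.Defs

/-!
# MP_3ff0f8_gt, ALGEBRA HALF, STEP Y (a cubic vertex), part U (helper97): everything except LEMMA IV

`b` is a cubic vertex of `G` with the neighbours `t₁, t₂, t₃`, `R = yd G b t₁ t₂ t₃` is the graph with `b` deleted and the triangle on `t₁, t₂, t₃` added (Y-Δ).
This file reduces `OK G` to LEMMA IV for `R` (`LIVP`, to be proved in DL/Y by helper34, helper92) and the induction hypothesis.
Module `XXX` = file `DL/Y/XXX.lean`, theorem `specXXX (hYYY : SpecYYY) … : SpecXXX`; the hypotheses may be any other Specs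
named in the docstring (also of DL/EX, DL/K, DL/NP); own lemmas in the namespace `DL.XXXM`.  Base library: DL/PC, PC2, MENG, KC.  The docstrings are self-contained.
NOTATION in the docstrings: `e12 = s(t₁, t₂)`, `e13`, `e23`; M-EDGE: an edge of `G` not at `b` and not one of `e12, e13, e23`; `x_e = chi C e`; `T` = the triangle `{e12, e13, e23}`.
-/

open SimpleGraph Finset

namespace DL

/-- `b` is a cubic vertex with the neighbours `t₁, t₂, t₃` -/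
structure Cub {α : Type} (G : SimpleGraph α) (b t₁ t₂ t₃ : α) : Prop where
  n12 : t₁ ≠ t₂
  n13 : t₁ ≠ t₃
  n23 : t₂ ≠ t₃
  nb : ∀ w, G.Adj b w ↔ w = t₁ ∨ w = t₂ ∨ w = t₃

/-- the edges of the triangle -/
def TrE {α : Type} [DecidableEq α] (t₁ t₂ t₃ : α) : Finset (Sym2 α) := {s(t₁, t₂), s(t₁, t₃), s(t₂, t₃)}

/-- no edge of the triangle is an edge of `G` -/
def NTE {α : Type} (G : SimpleGraph α) (t₁ t₂ t₃ : α) : Prop := ¬ G.Adj t₁ t₂ ∧ ¬ G.Adj t₁ t₃ ∧ ¬ G.Adj t₂ t₃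

/-- `t₁, t₂, t₃` is a triangle -/
def Trg {α : Type} (G : SimpleGraph α) (t₁ t₂ t₃ : α) : Prop := G.Adj t₁ t₂ ∧ G.Adj t₁ t₃ ∧ G.Adj t₂ t₃

/-- Y-Δ -/
def yd {α : Type} [DecidableEq α] (G : SimpleGraph α) (b t₁ t₂ t₃ : α) : SimpleGraph α :=
  del G {b} ⊔ fromEdgeSet (TrE t₁ t₂ t₃ : Set (Sym2 α))

/-- linear function of the edges -/
noncomputable def lnf {α : Type} [Fintype α] (m : α → α → ZMod 2) (c : Chain α) : ZMod 2 :=
  ∑ u, ∑ v, m u v * c s(u, v)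

/-- coherence functions with the directed edge `(a, a')` -/
noncomputable def tch {α : Type} [Fintype α] [DecidableEq α] (a a' : α) (m : α → α → ZMod 2)
    (C : Finset (Sym2 α)) : ZMod 2 := ∑ u, ∑ v, m u v * coh a a' u v C

/-- `m` is supported on edges which are not in the triangle -/
def OffT {α : Type} [DecidableEq α] (R : SimpleGraph α) (t₁ t₂ t₃ : α) (m : α → α → ZMod 2) : Prop :=
  ∀ u v, m u v ≠ 0 → R.Adj u v ∧ s(u, v) ∉ TrE t₁ t₂ t₃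

/-- the same for pairs of edges -/
def OffL {α : Type} [DecidableEq α] (R : SimpleGraph α) (t₁ t₂ t₃ : α) (l : α → α → α → α → ZMod 2) : Prop :=
  ∀ a b c d, l a b c d ≠ 0 → R.Adj a b ∧ R.Adj c d ∧ s(a, b) ∉ TrE t₁ t₂ t₃ ∧ s(c, d) ∉ TrE t₁ t₂ t₃

/-- normal form of an element of `F(R)` with respect to the triangle -/
noncomputable def TNF {α : Type} [Fintype α] [DecidableEq α] (t₁ t₂ t₃ : α) (p : Chain α → ZMod 2)
    (m₁ m₂ m₃ : α → α → ZMod 2) (l : α → α → α → α → ZMod 2) (C : Finset (Sym2 α)) : ZMod 2 :=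
  p (chi C) + tch t₂ t₁ m₃ C + tch t₁ t₃ m₂ C + tch t₃ t₂ m₁ C + cohs l C

/-- the function `Ψ` -/
noncomputable def Psi {α : Type} [Fintype α] [DecidableEq α] (t₁ t₂ t₃ : α) (p : Chain α → ZMod 2)
    (m₁ m₂ m₃ : α → α → ZMod 2) (C : Finset (Sym2 α)) : ZMod 2 :=
  chi C s(t₁, t₂) * (p (chi C + chi (TrE t₁ t₂ t₃)) + p (chi C) + lnf (m₁ + m₂) (chi C)) +
    tch t₂ t₁ (m₁ + m₂ + m₃) C + chi C s(t₁, t₂) * chi C s(t₁, t₃) * lnf m₂ (chi C) +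
    chi C s(t₁, t₂) * chi C s(t₂, t₃) * lnf m₁ (chi C) +
    p (chi (TrE t₁ t₂ t₃)) * (chi C s(t₁, t₂) * chi C s(t₁, t₃) * chi C s(t₂, t₃))

/-- `ψ` is supported on the cycles which contain `t₁t₂`, not `t₁t₃`, `t₂t₃`, and pass through `t₃` (TYPE IV) -/
def IV {α : Type} [Fintype α] [DecidableEq α] (R : SimpleGraph α) (t₁ t₂ t₃ : α)
    (ψ : Finset (Sym2 α) → ZMod 2) : Prop :=
  ∀ C, IsCyc R C → ψ C ≠ 0 → s(t₁, t₂) ∈ C ∧ s(t₁, t₃) ∉ C ∧ s(t₂, t₃) ∉ C ∧ t₃ ∈ vs C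

/-- the local function at `t₃` -/
noncomputable def loc3 {α : Type} [Fintype α] [DecidableEq α] (t₁ t₂ t₃ : α) (s : α → α → ZMod 2) (ν : α → ZMod 2)
    (C : Finset (Sym2 α)) : ZMod 2 :=
  ∑ v, ∑ w, s v w * (chi C s(t₃, v) * chi C s(t₃, w)) + ∑ v, ν v * coh t₂ t₁ t₃ v C

/-- a 3-bead chain from `s` to `t`: four disjoint trees `T i` (vertex sets `X i`, `s ∈ X 0`, `t ∈ X 3`) and two different edges from
`X i` to `X (i + 1)`, `i = 0, 1, 2` -/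
structure Ch3 {α : Type} [DecidableEq α] (G : SimpleGraph α) (s t : α) where
  X : Fin 4 → Finset α
  disj : ∀ i j, i ≠ j → Disjoint (X i) (X j)
  T : Fin 4 → SimpleGraph α
  sub : ∀ i, T i ≤ G
  inX : ∀ i v w, (T i).Adj v w → v ∈ X i
  conn : ∀ i, ∀ v ∈ X i, ∀ w ∈ X i, (T i).Reachable v w
  acyc : ∀ i, (T i).IsAcyclic
  sX : s ∈ X 0
  tX : t ∈ X 3
  p : Fin 3 → Bool → α
  q : Fin 3 → Bool → α
  pX : ∀ (i : Fin 3) b, p i b ∈ X i.castSucc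
  qX : ∀ (i : Fin 3) b, q i b ∈ X i.succ
  adj : ∀ i b, G.Adj (p i b) (q i b)
  ne : ∀ i, s(p i false, q i false) ≠ s(p i true, q i true)

/-- the eight paths of a 3-bead chain -/
noncomputable def Ch3.pth {α : Type} [Fintype α] [DecidableEq α] {G : SimpleGraph α} {s t : α} (K : Ch3 G s t)
    (e : Fin 3 → Bool) : Finset (Sym2 α) :=
  tp (K.T 0) s (K.p 0 (e 0)) ∪ {s(K.p 0 (e 0), K.q 0 (e 0))} ∪ tp (K.T 1) (K.q 0 (e 0)) (K.p 1 (e 1)) ∪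
    {s(K.p 1 (e 1), K.q 1 (e 1))} ∪ tp (K.T 2) (K.q 1 (e 1)) (K.p 2 (e 2)) ∪ {s(K.p 2 (e 2), K.q 2 (e 2))} ∪
    tp (K.T 3) (K.q 2 (e 2)) t

/-- `P ↦ ψ (P + t₁t₂)` is killed by the 3-bead chains from `t₁` to `t₂` in `R - t₁t₂` in which `t₃t₂` is an edge of the last bead -/
def KCJ {α : Type} [Fintype α] [DecidableEq α] (R : SimpleGraph α) (t₁ t₂ t₃ : α)
    (ψ : Finset (Sym2 α) → ZMod 2) : Prop :=
  ∀ K : Ch3 (delE R t₁ t₂) t₁ t₂, K.p 2 false = t₃ → K.q 2 false = t₂ →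
    ∑ e : Fin 3 → Bool, ψ (insert s(t₁, t₂) (K.pth e)) = 0

/-- the conclusion of LEMMA IV for the graph `R`, the edge `t₁t₂` and the vertex `t₃` -/
def LIVP {α : Type} [Fintype α] [DecidableEq α] (R : SimpleGraph α) (t₁ t₂ t₃ : α) : Prop :=
  ∀ ψ, InF R ψ → KCJ R t₁ t₂ t₃ ψ → KCJ R t₂ t₁ t₃ ψ → IV R t₁ t₂ t₃ ψ → ∃ (s : α → α → ZMod 2) (ν : α → ZMod 2),
    (∀ v w, s v w ≠ 0 → R.Adj t₃ v ∧ R.Adj t₃ w ∧ v ≠ t₁ ∧ v ≠ t₂ ∧ w ≠ t₁ ∧ w ≠ t₂) ∧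
    (∀ v, ν v ≠ 0 → R.Adj t₃ v ∧ v ≠ t₁ ∧ v ≠ t₂) ∧
    ∀ C, IsCyc R C → s(t₁, t₂) ∈ C → s(t₁, t₃) ∉ C → s(t₂, t₃) ∉ C → ψ C = loc3 t₁ t₂ t₃ s ν C

/-- hypotheses of LEMMA IV -/
structure HIV {α : Type} [Fintype α] [DecidableEq α] (R : SimpleGraph α) (t₁ t₂ t₃ : α) : Prop where
  c1 : C1 R
  np : NP R
  card : 7 ≤ (VS R).card
  tri : Trg R t₁ t₂ t₃
  con : ConnOff R {t₁, t₂, t₃}
  d1 : 4 ≤ dg R t₁
  d2 : 4 ≤ dg R t₂
  d3 : 4 ≤ dg R t₃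

/-- **LEMMA IV** (helper34, helper92: text Y_h34.md and the other Spec files of DL/Y).  Not a module of this file. -/
def SpecLIV : Prop := ∀ {α : Type} [Fintype α] [DecidableEq α] {R : SimpleGraph α} {t₁ t₂ t₃ : α}, HIV R t₁ t₂ t₃ →
  (∀ H : SimpleGraph α, sz H ≤ sz R → C1 H → NP H → OK H) → LIVP R t₁ t₂ t₃

/-! ## A. Cycles -/

/-- **YSB** (from PC, PC2; 250 lines).  Subdivision of the edge `xy` of a cycle `D` by a vertex `k` not on `D`: `C = D - xy + kx + ky`.  `sub`: `D.erase s(x, y)` is a path from `x` to `y` avoiding `k` (IsCyc.isPth, `transfer`), `isCyc_of_isPth_del`.  `sup`: IsCyc.isPth_del, IsPth.isCyc.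
`coh1`: both sides are `dirn x c d P`, `P = D.erase s(x, y)` (coh_insert, coh_two).  `coh2`: if `s(a, a') = s(c, d)` by coh_self, coh_self_rev; otherwise coh_eq_one_iff: the two paths of `D - aa' - cd`; one of them contains `xy` (or `xy` is one of …: excluded), replace it by `x k y`; or compare `Rch` directly: `k` has degree 2 in `C`. -/
structure SpecYSB : Prop where
  sub : ∀ {α : Type} [Fintype α] [DecidableEq α] {G R : SimpleGraph α} {k x y : α} {D : Finset (Sym2 α)}, IsCyc R D →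
    s(x, y) ∈ D → k ∉ vs D → G.Adj k x → G.Adj k y → (∀ e ∈ D, e ≠ s(x, y) → e ∈ G.edgeSet) →
    IsCyc G (insert s(k, x) (insert s(k, y) (D.erase s(x, y))))
  sup : ∀ {α : Type} [Fintype α] [DecidableEq α] {G R : SimpleGraph α} {k x y : α} {C : Finset (Sym2 α)}, IsCyc G C →
    s(k, x) ∈ C → s(k, y) ∈ C → x ≠ y → s(x, y) ∉ C → R.Adj x y → (∀ e ∈ C, k ∉ e → e ∈ R.edgeSet) →
    IsCyc R (insert s(x, y) ((C.erase s(k, x)).erase s(k, y))) ∧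
      k ∉ vs (insert s(x, y) ((C.erase s(k, x)).erase s(k, y)))
  coh1 : ∀ {α : Type} [Fintype α] [DecidableEq α] {R : SimpleGraph α} {k x y c d : α} {D : Finset (Sym2 α)},
    IsCyc R D → s(x, y) ∈ D → k ∉ vs D → c ≠ k → d ≠ k → s(c, d) ≠ s(x, y) →
    coh y x c d D = coh k x c d (insert s(k, x) (insert s(k, y) (D.erase s(x, y))))
  coh2 : ∀ {α : Type} [Fintype α] [DecidableEq α] {R : SimpleGraph α} {k x y a a' c d : α} {D : Finset (Sym2 α)},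
    IsCyc R D → s(x, y) ∈ D → k ∉ vs D → a ≠ k → a' ≠ k → c ≠ k → d ≠ k → s(a, a') ≠ s(x, y) → s(c, d) ≠ s(x, y) →
    coh a a' c d D = coh a a' c d (insert s(k, x) (insert s(k, y) (D.erase s(x, y))))

open Classical in
/-- the map from the cycles of `R` to the cycles of `G`: `t_it_j ↦ bt_i + bt_j` (mod 2) -/
noncomputable def tauY {α : Type} [DecidableEq α] (b t₁ t₂ t₃ : α) (C : Finset (Sym2 α)) : Finset (Sym2 α) :=
  (C \ TrE t₁ t₂ t₃) ∪ (if s(t₁, t₂) ∈ C ↔ s(t₁, t₃) ∈ C then ∅ else {s(b, t₁)}) ∪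
    (if s(t₁, t₂) ∈ C ↔ s(t₂, t₃) ∈ C then ∅ else {s(b, t₂)}) ∪
    (if s(t₁, t₃) ∈ C ↔ s(t₂, t₃) ∈ C then ∅ else {s(b, t₃)})

/-- **YEQ** (60 lines).  Graphs.  An edge of `G` at `b` is one of `bt₁, bt₂, bt₃`. -/
structure SpecYEQ : Prop where
  ctr : ∀ {α : Type} [Fintype α] [DecidableEq α] {G : SimpleGraph α} {b t₁ t₂ t₃ : α}, Cub G b t₁ t₂ t₃ →
    G.Adj t₁ t₂ → contr G t₃ b = yd G b t₁ t₂ t₃
  ctr0 : ∀ {α : Type} [Fintype α] [DecidableEq α] {G : SimpleGraph α} {b t₁ t₂ t₃ : α}, Cub G b t₁ t₂ t₃ →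
    ¬ G.Adj t₁ t₂ → contr G t₃ b = delE (yd G b t₁ t₂ t₃) t₁ t₂
  tri : ∀ {α : Type} [Fintype α] [DecidableEq α] {G : SimpleGraph α} {b t₁ t₂ t₃ : α}, Cub G b t₁ t₂ t₃ →
    Trg (yd G b t₁ t₂ t₃) t₁ t₂ t₃
  perm : ∀ {α : Type} [Fintype α] [DecidableEq α] (G : SimpleGraph α) (b t₁ t₂ t₃ : α),
    yd G b t₁ t₃ t₂ = yd G b t₁ t₂ t₃ ∧ yd G b t₂ t₁ t₃ = yd G b t₁ t₂ t₃ ∧ TrE t₁ t₃ t₂ = TrE t₁ t₂ t₃ ∧
      TrE t₂ t₁ t₃ = TrE t₁ t₂ t₃
  tperm : ∀ {α : Type} [Fintype α] [DecidableEq α] (b t₁ t₂ t₃ : α) (C : Finset (Sym2 α)),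
    tauY b t₁ t₃ t₂ C = tauY b t₁ t₂ t₃ C ∧ tauY b t₂ t₁ t₃ C = tauY b t₁ t₂ t₃ C
  cperm : ∀ {α : Type} [Fintype α] [DecidableEq α] {G : SimpleGraph α} {b t₁ t₂ t₃ : α}, Cub G b t₁ t₂ t₃ →
    Cub G b t₁ t₃ t₂ ∧ Cub G b t₂ t₁ t₃
  dele : ∀ {α : Type} [Fintype α] [DecidableEq α] {G : SimpleGraph α} {b t₁ t₂ t₃ : α}, Cub G b t₁ t₂ t₃ →
    ∀ E : Set (Sym2 α), E ⊆ TrE t₁ t₂ t₃ → yd (G.deleteEdges E) b t₁ t₂ t₃ = yd G b t₁ t₂ t₃ ∧
      Cub (G.deleteEdges E) b t₁ t₂ t₃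

/-- **YTC** (from YSB, YEQ; 250 lines).  `tauY` on cycles.  `cyc`: a cycle `D` of `R` with no edge of `T` is unchanged; with exactly one, `t_it_j`: subdivision by `b` (YSB.sub); with exactly two, `t_it_k` and `t_kt_j`: `D - t_it_k - t_kt_j` is a path from `t_i` to `t_j` avoiding `t_k`, `b` (`tauY D` is the subdivision by `b` of
`D - t_it_k - t_kt_j + t_it_j`, YSB.sup with `k = t_k`); with three: `D = T`.  `onto`: `b ∉ vs C`: `D = C`; otherwise `b` is on `C` with exactly two edges `bt_i`, `bt_j` (no edge of `T` in `G`): YSB.sup.  `lin`: the three equivalences are the same for `D` and `D'`.  `map`: linear map on chains. -/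
structure SpecYTC : Prop where
  cyc : ∀ {α : Type} [Fintype α] [DecidableEq α] {G : SimpleGraph α} {b t₁ t₂ t₃ : α} {D : Finset (Sym2 α)},
    Cub G b t₁ t₂ t₃ → NTE G t₁ t₂ t₃ → IsCyc (yd G b t₁ t₂ t₃) D → D ≠ TrE t₁ t₂ t₃ → IsCyc G (tauY b t₁ t₂ t₃ D)
  onto : ∀ {α : Type} [Fintype α] [DecidableEq α] {G : SimpleGraph α} {b t₁ t₂ t₃ : α} {C : Finset (Sym2 α)},
    Cub G b t₁ t₂ t₃ → NTE G t₁ t₂ t₃ → IsCyc G C → ∃ D, IsCyc (yd G b t₁ t₂ t₃) D ∧ tauY b t₁ t₂ t₃ D = C ∧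
      ((b ∉ vs C ∧ D = C) ∨
       (s(b, t₁) ∈ C ∧ s(b, t₂) ∈ C ∧ s(b, t₃) ∉ C ∧ b ∉ vs D ∧ D ∩ TrE t₁ t₂ t₃ = {s(t₁, t₂)} ∧
          C = insert s(b, t₁) (insert s(b, t₂) (D.erase s(t₁, t₂)))) ∨
       (s(b, t₁) ∈ C ∧ s(b, t₂) ∉ C ∧ s(b, t₃) ∈ C ∧ b ∉ vs D ∧ D ∩ TrE t₁ t₂ t₃ = {s(t₁, t₃)} ∧
          C = insert s(b, t₁) (insert s(b, t₃) (D.erase s(t₁, t₃)))) ∨
       (s(b, t₁) ∉ C ∧ s(b, t₂) ∈ C ∧ s(b, t₃) ∈ C ∧ b ∉ vs D ∧ D ∩ TrE t₁ t₂ t₃ = {s(t₂, t₃)} ∧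
          C = insert s(b, t₂) (insert s(b, t₃) (D.erase s(t₂, t₃)))))
  lin : ∀ {α : Type} [Fintype α] [DecidableEq α] {b t₁ t₂ t₃ : α} {D D' : Finset (Sym2 α)},
    [t₁, t₂, t₃].Nodup → chi D + chi D' = chi (TrE t₁ t₂ t₃) → tauY b t₁ t₂ t₃ D = tauY b t₁ t₂ t₃ D'
  map : ∀ {α : Type} [Fintype α] [DecidableEq α] (b t₁ t₂ t₃ : α), [b, t₁, t₂, t₃].Nodup →
    ∃ L : Chain α →+ Chain α, ∀ D, b ∉ vs D → chi (tauY b t₁ t₂ t₃ D) = L (chi D)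

/-- **YTA** (from YTC, YEQ, CTD, CTA, DCB, TRE, PC; 250 lines).  If `f` is `D_4`-even on `G` (no edge of `T` in `G`) then `f ∘ tauY` is `D_4`-even on `R`.  `D` a `D_4` minor of `R`.  (a) Some edge of `T`, say `e12`, is neither a bead nor in a tree of `D`: then `D` is a `D_4` minor of `delE R t₁ t₂ = contr G t₃ b` (YEQ.ctr0; `t₃`, `b` have no
common neighbour); CTD gives a `D_4` minor `D'` of `G` with `chi (D'.cyc e) = lft G t₃ b (chi (D.cyc e))`, and for a cycle `C` of `R` without `e12` `lft G t₃ b (chi C) = chi (tauY C)` (at `bt₁`: `c(t₃t₁)`; at `bt₂`: `c(t₃t₂)`; at `t₃b`: the sum of the values at the `G`-edges at `t₃` is the sum at `e13`, `e23` by the boundary at `t₃`).  The same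
for `e13`, `e23` (YEQ.perm).  (b) All three edges of `T` are beads or tree edges.  Then `t₁, t₂, t₃` are in sets `X i`; not all three in the same one (`T` would be in a tree); three different sets would be pairwise neighbours in the 4-cycle of the sets; so two, say `t₁, t₂ ∈ X i`, and `t₃ ∈ X j`, `j = i ± 1`: `e12` is in the tree `T i` and `e13`, `e23` are the two
beads between `X i` and `X j`.  So (DCB.cyc, TRE.four: the tree path from `t₁` to `t₂` is `e12`) changing this bead changes `chi (D.cyc e)` by `chi T`: by YTC.lin the values of `f ∘ tauY` cancel in pairs. -/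
def SpecYTA : Prop := ∀ {α : Type} [Fintype α] [DecidableEq α] {G : SimpleGraph α} {b t₁ t₂ t₃ : α},
  Cub G b t₁ t₂ t₃ → NTE G t₁ t₂ t₃ → ∀ f, D4even G f → D4even (yd G b t₁ t₂ t₃) (fun D => f (tauY b t₁ t₂ t₃ D))

/-! ## B. Normal forms -/

/-- **YNF** (from POL, PC2; 200 lines).  Normal form.  `F = p + cohs l` on the cycles of `R`.  The terms `l a a' c c' * coh a a' c c'` with a non-edge `aa'` or `cc'` are `0` on cycles; if both edges are in `T` they have a common vertex: polynomial on cycles (coh_share; `x x'` has degree 2); if exactly one of them is in `T`: by coh_comm (put it first), coh_reverse and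
coh_add_swap (`coh a a' c c' + coh a a' c' c = x x'`) it is `coh t₂ t₁ c c'` (resp. `coh t₁ t₃`, `coh t₃ t₂`) or this plus the product of the two coordinates. -/
def SpecYNF : Prop := ∀ {α : Type} [Fintype α] [DecidableEq α] {R : SimpleGraph α} {t₁ t₂ t₃ : α}
  {F : Finset (Sym2 α) → ZMod 2}, Trg R t₁ t₂ t₃ → InF R F →
  ∃ (p : Chain α → ZMod 2) (m₁ m₂ m₃ : α → α → ZMod 2) (l : α → α → α → α → ZMod 2), DegLE 3 p ∧ p 0 = 0 ∧
    OffT R t₁ t₂ t₃ m₁ ∧ OffT R t₁ t₂ t₃ m₂ ∧ OffT R t₁ t₂ t₃ m₃ ∧ OffL R t₁ t₂ t₃ l ∧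
    ∀ C, IsCyc R C → F C = TNF t₁ t₂ t₃ p m₁ m₂ m₃ l C

/-- **YPS** (from YSB, POL, PC2; 300 lines).  `form`: `q c = p(c + chi T) + p(c) + lnf (m₁ + m₂) c + c(e13) lnf m₂ c + c(e23) lnf m₁ c + p(chi T) c(e13) c(e23)` has degree `≤ 2`.  `tri`: on `T` all `coh` with M-edges and `lnf` are `0`, the first term is `p 0 + p (chi T)`.  `idn`: `C`, `C'` cycles, `chi C + chi C' = chi T`, `e12 ∈ C`.  Then `C` contains
exactly one or two edges of `T` (`C ≠ T`: otherwise `C' = ∅`).  For an M-edge `uv` write `x = chi C s(u, v) = chi C' s(u, v)`.  (i) `C ∩ T = {e12}`, `C' = C - e12 + e13 + e23` (so `t₃ ∉ vs C`: `C'` is the subdivision of `C`): `d := coh t₂ t₁ u v C = coh t₃ t₁ u v C'` (YSB.coh1) so `coh t₁ t₃ u v C' = x + d`, and by YSB.coh1 `coh t₁ t₂ u v C = coh t₃ t₂ u v C' = x + d`;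
`cohs l C = cohs l C'` (coh2).  So `TNF C + TNF C' = p(C) + p(C') + Σ m₃ d + Σ (m₁ + m₂)(x + d) = Psi C`.  (ii) `C ∩ T = {e12, e13}`, `C' = C - e12 - e13 + e23`, `C` is the subdivision of `C'` by `t₁`: `d := coh t₃ t₂ u v C'`; `coh t₁ t₂ u v C = d`, `coh t₁ t₃ u v C = x + d`, `coh t₂ t₁ u v C = x + d`: `TNF C + TNF C' = p(C) + p(C') + Σ (m₂ + m₃)(x + d) + Σ m₁ d`, and `Psi
C = p(C) + p(C') + Σ (m₁ + m₂) x + Σ (m₁ + m₂ + m₃)(x + d) + Σ m₂ x`: equal.  (iii) `C ∩ T = {e12, e23}`, `C' = C - e12 - e23 + e13`, subdivision by `t₂`: `d := coh t₁ t₃ u v C'`; `coh t₂ t₃ u v C = d`, `coh t₃ t₂ u v C = x + d`, `coh t₂ t₁ u v C = x + coh t₁ t₂ …`: from `coh t₃ t₁ u v C' = x + d = coh t₂ t₁ u v C` (YSB.coh1): `TNF C + TNF C' = p(C) + p(C') + Σ (m₁ + m₃)(x + d) + Σ m₂ d`, `Psi C =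
p(C) + p(C') + Σ (m₁ + m₂) x + Σ (m₁ + m₂ + m₃)(x + d) + Σ m₁ x`: equal. -/
structure SpecYPS : Prop where
  form : ∀ {α : Type} [Fintype α] [DecidableEq α] (t₁ t₂ t₃ : α) (p : Chain α → ZMod 2) (m₁ m₂ m₃ : α → α → ZMod 2),
    DegLE 3 p → ∃ q, DegLE 2 q ∧
    ∀ C, Psi t₁ t₂ t₃ p m₁ m₂ m₃ C = chi C s(t₁, t₂) * q (chi C) + tch t₂ t₁ (m₁ + m₂ + m₃) C
  tri : ∀ {α : Type} [Fintype α] [DecidableEq α] {R : SimpleGraph α} {t₁ t₂ t₃ : α} {p : Chain α → ZMod 2}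
    {m₁ m₂ m₃ : α → α → ZMod 2}, Trg R t₁ t₂ t₃ → p 0 = 0 → OffT R t₁ t₂ t₃ m₁ → OffT R t₁ t₂ t₃ m₂ →
    OffT R t₁ t₂ t₃ m₃ → Psi t₁ t₂ t₃ p m₁ m₂ m₃ (TrE t₁ t₂ t₃) = 0
  idn : ∀ {α : Type} [Fintype α] [DecidableEq α] {R : SimpleGraph α} {t₁ t₂ t₃ : α} {p : Chain α → ZMod 2}
    {m₁ m₂ m₃ : α → α → ZMod 2} {l : α → α → α → α → ZMod 2}, Trg R t₁ t₂ t₃ → OffT R t₁ t₂ t₃ m₁ →
    OffT R t₁ t₂ t₃ m₂ → OffT R t₁ t₂ t₃ m₃ → OffL R t₁ t₂ t₃ l → ∀ C C', IsCyc R C → IsCyc R C' → s(t₁, t₂) ∈ C →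
    chi C + chi C' = chi (TrE t₁ t₂ t₃) →
    TNF t₁ t₂ t₃ p m₁ m₂ m₃ l C + TNF t₁ t₂ t₃ p m₁ m₂ m₃ l C' = Psi t₁ t₂ t₃ p m₁ m₂ m₃ C

/-- **YIV** (from YSB, PC; 120 lines).  Which cycles are not of type IV.  `C` a cycle of `R` with `e12 ∈ C`, not of type IV, `C ≠ T`.  Then the edge set with `chi C + chi T` is a cycle: if `C ∩ T = {e12}`, `t₃ ∉ vs C`: YSB.sub; if `C ∩ T` is `{e12, e13}` or `{e12, e23}`: YSB.sup. -/
def SpecYIV : Prop := ∀ {α : Type} [Fintype α] [DecidableEq α] {R : SimpleGraph α} {t₁ t₂ t₃ : α}, Trg R t₁ t₂ t₃ →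
  ∀ C, IsCyc R C → s(t₁, t₂) ∈ C → C ≠ TrE t₁ t₂ t₃ → ¬ (s(t₁, t₃) ∉ C ∧ s(t₂, t₃) ∉ C ∧ t₃ ∈ vs C) →
  ∃ C', IsCyc R C' ∧ s(t₁, t₂) ∉ C' ∧ chi C + chi C' = chi (TrE t₁ t₂ t₃)

/-- **YC3** (from TRE, DCB, PC; 200 lines).  3-bead chains.  `pth`: a path; `chi` is the sum of the pieces (as DCB.pth); so (TRE.four) it is affine in `e`.  `adn`: for an edge `uv` of a tree or a bead, `dirn s u v (K.pth e)`, the direction of the path from `s` to `t`: beads: `[e i = b]` for `u = p i b`, `v = q i b`, `0` in the reverse direction;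
for an edge `uv` of `T (i + 1)` with `σ` the indicator of the part of `T (i + 1) - uv` containing `v`: `(1 + σ (q i (e i))) σ (p (i+1) (e (i+1)))`; for `T 0`, `T 3` one of the two factors is constant; all other edges are on no path.  So it is a function of degree `≤ 2` of the three variables, and the sum over the eight `e` is `0`. -/
structure SpecYC3 : Prop where
  pth : ∀ {α : Type} [Fintype α] [DecidableEq α] {G : SimpleGraph α} {s t : α} (K : Ch3 G s t) (e : Fin 3 → Bool),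
    IsPth G s t (K.pth e) ∧ ∀ v ∈ vs (K.pth e), ∃ i, v ∈ K.X i
  pol : ∀ {α : Type} [Fintype α] [DecidableEq α] {G : SimpleGraph α} {s t : α} (K : Ch3 G s t) (q : Chain α → ZMod 2)
    (c : Chain α), DegLE 2 q → ∑ e : Fin 3 → Bool, q (chi (K.pth e) + c) = 0
  adn : ∀ {α : Type} [Fintype α] [DecidableEq α] {G : SimpleGraph α} {s t : α} (K : Ch3 G s t) (u v : α),
    ∑ e : Fin 3 → Bool, dirn s u v (K.pth e) = 0

/-- **YKC** (from YC3, PC2; 80 lines).  KCJ for functions all of whose terms contain `e12`: `P = K.pth e` is a path of `R - e12` from `t₁` to `t₂`, `insert e12 P` a cycle of `R`; `ψ (insert e12 P) = q (chi P + chi {e12}) + Σ μ u v dirn t₁ u v P` (coh_insert; `coh t₂ t₁ u v`; the terms with `s(u, v) = e12` are excluded by `OffT`).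
The second one: `tch t₂ t₁ μ C = tch t₁ t₂ μ C + chi C e12 * lnf μ (chi C)` on cycles, so it is the same with `t₁`, `t₂` exchanged and another `q`. -/
def SpecYKC : Prop := ∀ {α : Type} [Fintype α] [DecidableEq α] {R : SimpleGraph α} {t₁ t₂ t₃ : α}
  {ψ : Finset (Sym2 α) → ZMod 2} {q : Chain α → ZMod 2} {μ : α → α → ZMod 2}, Trg R t₁ t₂ t₃ → DegLE 2 q →
  OffT R t₁ t₂ t₃ μ → (∀ C, IsCyc R C → ψ C = chi C s(t₁, t₂) * q (chi C) + tch t₂ t₁ μ C) →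
  KCJ R t₁ t₂ t₃ ψ ∧ KCJ R t₂ t₁ t₃ ψ

/-! ## C. No edge of the triangle in `G` -/

/-- **YFU** (from YTC, YSB, POL, PC2; 350 lines).  The formula.  `F = f ∘ tauY = TNF` on the cycles of `R`, and `Psi D = loc3 D` on the cycles with `D ∩ T = {e12}`.  Let `L` be the linear map on chains with `L c = c` off the edges at `b`, `bt₁ ↦ e13`, `bt₂ ↦ e23`, `bt₃ ↦ 0`, `ν' u v = ν v` if `u = t₃`, else `0`, and
`φ C = p (L (chi C)) + x_{bt₁} (lnf m₂ (chi C) + Σ s v w x_{t₃v} x_{t₃w}) + x_{bt₁} x_{bt₃} Σ s v v x_{t₃v} + cohs l C + tch b t₁ (m₂ + ν') C + tch b t₂ m₁ C` (in `F(G)`).  `f = φ` on the cycles `C` of `G`; let `D` be as in YTC.onto, so `f C = F D = TNF D`; `x = chi C s(u, v)` for M-edges.  (1) `b ∉ vs C`: both are `p (chi C) + cohs l C`.  (2) `bt₂, bt₃ ∈ C`: `L (chi C) = chi D`,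
`coh b t₂ u v C = coh t₃ t₂ u v D` (YSB.coh1).  (3) `bt₁, bt₃ ∈ C`: `L (chi C) = chi D`, `d := coh t₁ t₃ u v D`, `coh b t₁ u v C = coh t₃ t₁ u v D = x + d`, so `lnf m₂ + tch b t₁ m₂ = Σ m₂ d`; exactly one M-edge `t₃v₀` at `t₃` is in `C`: `Σ s v w x x = s v₀ v₀` cancels with the next term; `coh b t₁ t₃ v₀ C = 0` (the direction `b → t₁ … v₀ → t₃ → b`).  (4) `bt₁, bt₂
∈ C`: `L (chi C) = chi D + chi T`; `d := coh t₂ t₁ u v D = coh b t₁ u v C`, `coh b t₂ u v C = coh t₁ t₂ u v D = x + d`: `φ C = p (chi D + chi T) + Σ m₂ x + S + cohs l + Σ (m₂ + ν') d + Σ m₁ (x + d)`; `Psi D = p (chi D + chi T) + p (chi D) + Σ (m₁ + m₂) x + Σ (m₁ + m₂ + m₃) d = S + Σ ν' d`; so `φ C = p (chi D) + cohs l + Σ m₃ d = TNF D` (the terms with `e13, e23` are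
`0`). -/
def SpecYFU : Prop := ∀ {α : Type} [Fintype α] [DecidableEq α] {G : SimpleGraph α} {b t₁ t₂ t₃ : α}
  {f : Finset (Sym2 α) → ZMod 2} {p : Chain α → ZMod 2} {m₁ m₂ m₃ : α → α → ZMod 2} {l : α → α → α → α → ZMod 2}
  {s : α → α → ZMod 2} {ν : α → ZMod 2}, Cub G b t₁ t₂ t₃ → NTE G t₁ t₂ t₃ → DegLE 3 p → p 0 = 0 →
  OffT (yd G b t₁ t₂ t₃) t₁ t₂ t₃ m₁ → OffT (yd G b t₁ t₂ t₃) t₁ t₂ t₃ m₂ → OffT (yd G b t₁ t₂ t₃) t₁ t₂ t₃ m₃ →
  OffL (yd G b t₁ t₂ t₃) t₁ t₂ t₃ l →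
  (∀ v w, s v w ≠ 0 → (yd G b t₁ t₂ t₃).Adj t₃ v ∧ (yd G b t₁ t₂ t₃).Adj t₃ w ∧ v ≠ t₁ ∧ v ≠ t₂ ∧ w ≠ t₁ ∧ w ≠ t₂) →
  (∀ v, ν v ≠ 0 → (yd G b t₁ t₂ t₃).Adj t₃ v ∧ v ≠ t₁ ∧ v ≠ t₂) →
  (∀ D, IsCyc (yd G b t₁ t₂ t₃) D → f (tauY b t₁ t₂ t₃ D) = TNF t₁ t₂ t₃ p m₁ m₂ m₃ l D) →
  (∀ D, IsCyc (yd G b t₁ t₂ t₃) D → s(t₁, t₂) ∈ D → s(t₁, t₃) ∉ D → s(t₂, t₃) ∉ D →
    Psi t₁ t₂ t₃ p m₁ m₂ m₃ D = loc3 t₁ t₂ t₃ s ν D) → InF G f

/-- **YU0** (from YTA, YNF, YPS, YIV, YTC, YFU, YEQ, YKC; 80 lines).  `U G` if no edge of `T` is in `G`.  `f` `D_4`-even, `F = f ∘ tauY` is `D_4`-even on `R` (YTA), so `F = TNF` on cycles (YNF).  `Psi` is in `F(R)` (YPS.form), KCJ holds (YKC), and it is supported on type IV: for a cycle `C ∋ e12` not of type IV, `C ≠ T`, YIV gives `C'` with `tauY C = tauY C'` (YTC.lin), so `Psi C = F C + F C' = 0`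
(YPS.idn); YPS.tri; without `e12` it is `0` (form; `coh` is `0`).  LIVP gives `s, ν`.  YFU. -/
def SpecYU0 : Prop := ∀ {α : Type} [Fintype α] [DecidableEq α] {G : SimpleGraph α} {b t₁ t₂ t₃ : α},
  Cub G b t₁ t₂ t₃ → NTE G t₁ t₂ t₃ → U (yd G b t₁ t₂ t₃) → LIVP (yd G b t₁ t₂ t₃) t₁ t₂ t₃ → U G

/-! ## D. Edges of the triangle in `G` -/

/-- **YF1** (from YNF, YPS, YIV, YKC, YC3, POL, PC2; 250 lines).  `F` in `F(R)` with KCJ and `F = 0` on the cycles without `e12`, LIVP: all terms contain `e12`.  `F = TNF` (YNF), `ψ := F + Psi + F(T) x_{e12} x_{e13} x_{e23}` is `0` on the cycles without `e12`, on `T` (YPS.tri), and on the other cycles not of type IV (YIV: `Psi C = F C + F C' = F C`); KCJ for `ψ`: for `F` by assumption, for `Psi + F(T) x_{e12} x_{e13} x_{e23}` YKC (YPS.form).  So on the cycles with `C ∩ T = {e12}`: `ψ = loc3 s ν`,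
and on all cycles `ψ C = x_{e12} Σ s v w x_{t₃v} x_{t₃w} + Σ ν v coh t₂ t₁ t₃ v C + x_{e12} x_{e13} Σ (s v v + ν v) x_{t₃v} + x_{e12} x_{e23} Σ s v v x_{t₃v}`: if `e12, e13 ∈ C`, `C ≠ T`: one M-edge `t₃v₀` in `C`, direction `t₂ → t₁ → t₃ → v₀`: `s v₀ v₀ + 1 * ν v₀ + (s v₀ v₀ + ν v₀) = 0`; if `e12, e23 ∈ C`: direction `t₂ → t₁ … v₀ → t₃ → t₂`, `coh t₂ t₁ t₃ v₀ C = 0`.  Use YPS.form for `Psi`. -/
def SpecYF1 : Prop := ∀ {α : Type} [Fintype α] [DecidableEq α] {R : SimpleGraph α} {t₁ t₂ t₃ : α}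
  {F : Finset (Sym2 α) → ZMod 2}, Trg R t₁ t₂ t₃ → InF R F → KCJ R t₁ t₂ t₃ F →
  KCJ R t₂ t₁ t₃ F →
  (∀ C, IsCyc R C → s(t₁, t₂) ∉ C → F C = 0) → LIVP R t₁ t₂ t₃ → ∃ q μ, DegLE 2 q ∧ OffT R t₁ t₂ t₃ μ ∧
    ∀ C, IsCyc R C → F C = chi C s(t₁, t₂) * q (chi C) + tch t₂ t₁ μ C

/-- **YKF** (from YEQ, YC3, DCB, TRE, PC2; 150 lines).  KCJ for the function `F` on the cycles of `R` which comes from `f` on `G` if `e12` is the only edge of `T` in `G` and `f = 0` on the cycles without `e12`.  `K` a 3-bead chain of `R - e12` from `t₁` to `t₂` with `K.p 2 false = t₃`, `K.q 2 false = t₂`; so `t₁ ∈ X 0`, `t₃ ∈ X 2`, `t₂ ∈ X 3`: `e13` is not used by `K` (as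
an edge of a tree or a bead), `e23` is used only as the bead `2 false`; `b` is isolated in `R`, so `b` is in no `K.X i` (each `K.X i` contains an end of a bead).  `D_4` minor of `G`: sets `X 0, X 1, X 2, X 3 + b`, trees `T 0, T 1, T 2, T 3` + the edge `t₂b`, the beads of `K` with the bead `t₃t₂` replaced by `t₃b`, closing beads `t₂t₁` and `bt₁`.  The eight cycles with the
bead `t₂t₁` are the cycles `C_e` obtained from `insert e12 (K.pth e)` by replacing `e23` by `bt₂ + bt₃` if `e 2 = false`: `F (insert e12 (K.pth e)) = f C_e`; the eight cycles with the bead `bt₁` do not contain `e12`: `f = 0`.  So `D4even` gives the claim. -/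
def SpecYKF : Prop := ∀ {α : Type} [Fintype α] [DecidableEq α] {G : SimpleGraph α} {b t₁ t₂ t₃ : α},
  Cub G b t₁ t₂ t₃ → G.Adj t₁ t₂ → ¬ G.Adj t₁ t₃ → ¬ G.Adj t₂ t₃ → ∀ f F, D4even G f →
  (∀ C, IsCyc G C → s(t₁, t₂) ∉ C → f C = 0) →
  (∀ D, IsCyc (yd G b t₁ t₂ t₃) D → s(t₁, t₂) ∈ D → s(t₁, t₃) ∉ D → s(t₂, t₃) ∉ D → F D = f D) →
  (∀ D, IsCyc (yd G b t₁ t₂ t₃) D → s(t₁, t₂) ∈ D → s(t₁, t₃) ∉ D → s(t₂, t₃) ∈ D →
    F D = f (insert s(b, t₂) (insert s(b, t₃) (D.erase s(t₂, t₃))))) → KCJ (yd G b t₁ t₂ t₃) t₁ t₂ t₃ F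

/-- **YT1** (from YF1, YKF, YEQ, CTA, CTB, CTD, YSB, POL; 250 lines).  One edge `e12` of `T` in `G`; `f` `D_4`-even, `0` on the cycles without `e12`.  `R = contr G t₃ b` (YEQ.ctr), `b`, `t₃` have no common neighbour.  For a cycle `D` of `R` let `C_D` be the corresponding cycle in `CycM G t₃ b` (CTA.cl), `F D := f C_D`: `D_4`-even by CTD, so `InF R F` (`U R`); `F D = 0` if `e12 ∉ D` (`C_D` does not
contain `e12`: CTA, `lft`).  `C_D = D` if `D` contains neither `e13` nor `e23`; `C_D` is the subdivision of `D` at `e13` (`e23`) by `b` if `D` contains only this one of the two; `T` corresponds to the triangle `bt₁t₂`.  So YKF (and YKF with `t₁`, `t₂` exchanged, YEQ.perm): KCJ for `F`.  YF1: `q, μ`.  Every cycle `C` of `G` with `e12 ∈ C` is in `CycM G t₃ b` (if it passes through `b` with `bt₁`, `bt₂` it is the triangle `bt₁t₂`; otherwise it contains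
`bt₃`), and is `C_D` for: `D = C` (`b ∉ vs C`), `D = T` (`C` = triangle `bt₁t₂`), or `C` = subdivision of `D` at `e13` or `e23` by `b`: `coh t₂ t₁ u v D = coh t₂ t₁ u v C` for the M-edges (YSB.coh2).  So `f C = x_{e12} q (L (chi C)) + tch t₂ t₁ μ C`, `L` the linear map `bt₁ ↦ e13`, `bt₂ ↦ e23`, `bt₃ ↦ 0`. -/
def SpecYT1 : Prop := ∀ {α : Type} [Fintype α] [DecidableEq α] {G : SimpleGraph α} {b t₁ t₂ t₃ : α},
  Cub G b t₁ t₂ t₃ → G.Adj t₁ t₂ → ¬ G.Adj t₁ t₃ → ¬ G.Adj t₂ t₃ → U (yd G b t₁ t₂ t₃) →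
  LIVP (yd G b t₁ t₂ t₃) t₁ t₂ t₃ → ∀ f, D4even G f → (∀ C, IsCyc G C → s(t₁, t₂) ∉ C → f C = 0) →
  ∃ q μ, DegLE 2 q ∧ ∀ C, IsCyc G C → f C = chi C s(t₁, t₂) * q (chi C) + tch t₂ t₁ μ C

/-- **YT2** (from D4C, RT1, POL, PC; 120 lines).  Two edges `e12`, `e13`; `f` `D_4`-even and `0` on the cycles which do not contain both.  A cycle with both is `P + e12 + e13`, `P` a path from `t₂` to `t₃` in `G - t₁ - b`, or the 4-cycle `t₁ t₂ b t₃`.  For a chain `K` of `del G {t₁, b}` from `t₂` to `t₃` D4C (`a = t₁`): `f` is `0` on the 12 cycles with `e 3` or `e 2` true; so the sum of `f (P + e12 +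
e13)` over the four paths is `0`; RT1: `= w0 + Σ_{h ∈ P} w h`.  `q c = w0 + Σ_h w h c h + κ c(bt₂)`, `h` in `del G {t₁, b}`, `κ` such that it is right on the 4-cycle. -/
def SpecYT2 : Prop := ∀ {α : Type} [Fintype α] [DecidableEq α] {G : SimpleGraph α} {b t₁ t₂ t₃ : α},
  Cub G b t₁ t₂ t₃ → G.Adj t₁ t₂ → G.Adj t₁ t₃ → ∀ f, D4even G f →
  (∀ C, IsCyc G C → ¬ (s(t₁, t₂) ∈ C ∧ s(t₁, t₃) ∈ C) → f C = 0) →
  ∃ q, DegLE 1 q ∧ ∀ C, IsCyc G C → f C = chi C s(t₁, t₂) * chi C s(t₁, t₃) * q (chi C)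

/-- **YTU** (from YU0, YT1, YT2, YEQ, FEV, POL; 250 lines).  `U G`.  `G₀` = `G` without the edges of `T` (YEQ.dele).  `f` `D_4`-even on `G`, hence on all subgraphs.  (0) YU0: `f = φ₀` on the cycles of `G₀`, `φ₀` given by a formula which is in `F(G)`; subtract: `f = 0` on the cycles of `G₀`.  (1) For each edge `e` of `T` in `G`: YT1 for `G₀ + e` (after renaming, YEQ.perm): a formula `φ_e`, all terms
contain `e`, in `F(G)`, equal to `f` on the cycles of `G₀ + e` and `0` on the cycles without `e`.  Subtract all: `f = 0` on all cycles with at most one edge of `T`.  (2) For each pair: YT2 for `G₀ + e + e'`: a formula `x_e x_e' q`; subtract all: `f = 0` on all cycles with at most two edges of `T`.  (3) The only other cycle is `T`: subtract a multiple of `x_{e12} x_{e13} x_{e23}`. -/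
def SpecYTU : Prop := ∀ {α : Type} [Fintype α] [DecidableEq α] {G : SimpleGraph α} {b t₁ t₂ t₃ : α},
  Cub G b t₁ t₂ t₃ → U (yd G b t₁ t₂ t₃) → LIVP (yd G b t₁ t₂ t₃) t₁ t₂ t₃ → LIVP (yd G b t₁ t₂ t₃) t₁ t₃ t₂ →
  LIVP (yd G b t₁ t₂ t₃) t₂ t₃ t₁ → U G

/-! ## E. `KZ` and `NP` -/

/-- **YZS** (from TRC, KUR, YEQ; 250 lines).  Two-cycles.  `z ∈ Z_2(G)`, no edge of `T` in `G`, `R - T` connected.  `λ_i = z (bt_i) · ∈ Z1 (G - b - t_i)`, `λ₁ + λ₂ + λ₃ = 0` (boundary at `b` of the rows of the edges not at `b`; `λ_i` is `0` on edges at `t_i`, `b`).  TRC (graph `del G {b, t₁, t₂}`, vertex `t₃`; trace of `λ₁` at `t₃`, which has no edge at `t₁`, and none at `t₂` as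
`NTE`): `a ∈ Z1 (G - b - t₁ - t₂)` with the same edges at `t₃` as `λ₁`.  `w e12 · = a`, `w e13 · = λ₁ + a` (no edge at `t₁`, `t₃`), `w e23 · = λ₂ + a` (no edge at `t₂`; at `t₃`: `λ₂ = λ₁ + λ₃`), symmetric; `w g h = z g h` for the other edges of `R`, `0` else.  Boundaries: row `g` (an M-edge) at `t₁ ∉ g`: `w g e12 + w g e13 = λ₁ g`; at `v ∉ T` the same as for `z`
in `G` (no terms at `b`).  `vk` (formula in the docstring of VKA: the number mod 2 of the interleaving unordered pairs; `xy` and `g`, `x, y ∉ g`, interleave iff exactly one end of `g` is between `x` and `y`): for `g` disjoint from `t₁, t₂, b`: `e12` interleaves with `g` iff exactly one of `bt₁`, `bt₂` does; so the pairs `(e_ij, g)` of `w` count as the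
pairs `(bt_i, g)`, `(bt_j, g)`. -/
def SpecYZS : Prop := ∀ {α : Type} [Fintype α] [DecidableEq α] {G : SimpleGraph α} {b t₁ t₂ t₃ : α}
  {z : Sym2 α → Sym2 α → ZMod 2}, Cub G b t₁ t₂ t₃ → NTE G t₁ t₂ t₃ → ConnOff G {b, t₁, t₂, t₃} → IsZ2 G z →
  ∃ w, IsZ2 (yd G b t₁ t₂ t₃) w ∧
    (∀ g, b ∉ g → g ∉ TrE t₁ t₂ t₃ → z s(b, t₁) g = w s(t₁, t₂) g + w s(t₁, t₃) g ∧
      z s(b, t₂) g = w s(t₁, t₂) g + w s(t₂, t₃) g ∧ z s(b, t₃) g = w s(t₁, t₃) g + w s(t₂, t₃) g) ∧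
    (∀ g h, b ∉ g → b ∉ h → g ∉ TrE t₁ t₂ t₃ → h ∉ TrE t₁ t₂ t₃ → z g h = w g h) ∧
    ∀ r : α → ℕ, Function.Injective r → vk r w = vk r z

/-- **YCT** (from YTC, YSB, PC2; 250 lines).  Coherence functions and `tauY`, `D ≠ T` a cycle of `R`.  `mm`: M-edges.  `bm`: `D` without edge of `T` at `t₁`, or with both `e12` and `e13` (then `bt₁ ∉ tauY D`, and `coh t₂ t₁ u v D + coh t₃ t₁ u v D = x`, since `coh t₃ t₁ u v D = coh t₁ t₂ u v D` on a cycle passing `t₂ t₁ t₃`); with exactly one of them, say `e12`, and not `e23`: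
YSB.coh1; with `e12` and `e23`: `tauY D` is the subdivision by `b` of `D' = D - e12 - e23 + e13`, `D` the subdivision of `D'` by `t₂`: `coh b t₁ u v (tauY D) = coh t₃ t₁ u v D' = coh t₂ t₁ u v D`. -/
structure SpecYCT : Prop where
  mm : ∀ {α : Type} [Fintype α] [DecidableEq α] {G : SimpleGraph α} {b t₁ t₂ t₃ : α}, Cub G b t₁ t₂ t₃ →
    NTE G t₁ t₂ t₃ → ∀ D, IsCyc (yd G b t₁ t₂ t₃) D → D ≠ TrE t₁ t₂ t₃ → ∀ u v c d, b ∉ s(u, v) → b ∉ s(c, d) →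
    s(u, v) ∉ TrE t₁ t₂ t₃ → s(c, d) ∉ TrE t₁ t₂ t₃ → coh u v c d (tauY b t₁ t₂ t₃ D) = coh u v c d D
  bm : ∀ {α : Type} [Fintype α] [DecidableEq α] {G : SimpleGraph α} {b t₁ t₂ t₃ : α}, Cub G b t₁ t₂ t₃ →
    NTE G t₁ t₂ t₃ → ∀ D, IsCyc (yd G b t₁ t₂ t₃) D → D ≠ TrE t₁ t₂ t₃ → ∀ u v, b ∉ s(u, v) → s(u, v) ∉ TrE t₁ t₂ t₃ →
    coh b t₁ u v (tauY b t₁ t₂ t₃ D) = coh t₂ t₁ u v D + coh t₃ t₁ u v D +
      chi D s(t₁, t₂) * chi D s(t₁, t₃) * chi D s(u, v)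

/-- **YKZ** (from YZS, YCT, YTC, YEQ, KUR, POL, PC2; 300 lines).  `KZ R → KZ G`, no edge of `T` in `G`.  Let `cohs l` be cubic on the cycles of `G`, `z ∈ Z_2(G)`, `w` of YZS.  Normalise `l`: terms with a non-edge: drop (`z` and `coh` vanish); both edges at `b`: drop (they have a common vertex: polynomial, coh_share, `z = 0`); one edge at `b`: as `coh b t_i u v` (coh_comm, coh_reverse, coh_add_swap; up to products of two
coordinates; `z` is symmetric).  Let `l'` have the same coefficients on pairs of M-edges, and `coh b t_i u v` replaced by `coh t_j t_i u v + coh t_k t_i u v`.  By YCT (and its permutations, YEQ) `cohs l (tauY D) = cohs l' D +` cubic function of `D` for all cycles `D ≠ T` of `R`; `cohs l (tauY D)` is cubic (YTC.map); at `T` correct with a multiple of `x_{e12} x_{e13} x_{e23}`.  So `cohs l'` is cubic on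
the cycles of `R`, `pair2 l' w = 0`, and `pair2 l' w = pair2 l z` by YZS. -/
def SpecYKZ : Prop := ∀ {α : Type} [Fintype α] [DecidableEq α] {G : SimpleGraph α} {b t₁ t₂ t₃ : α},
  Cub G b t₁ t₂ t₃ → NTE G t₁ t₂ t₃ → ConnOff G {b, t₁, t₂, t₃} → KZ (yd G b t₁ t₂ t₃) → KZ G

/-- **YKT** (from YEQ, KCD, C1L; 60 lines).  An edge `e12` in `G`: KCD with `(a, b, c, d) = (t₃, b, t₁, t₂)`: `contr G t₃ b = R` (YEQ.ctr); `S3S (delE R t₁ t₂)`, `S3S (delE R t₃ x)` for `x = t₁, t₂`: C1L (the ends have degree `≥ 4`); every common neighbour of `t₃`, `b` is `t₁` or `t₂`. -/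
def SpecYKT : Prop := ∀ {α : Type} [Fintype α] [DecidableEq α] {G : SimpleGraph α} {b t₁ t₂ t₃ : α},
  Cub G b t₁ t₂ t₃ → G.Adj t₁ t₂ → C1 (yd G b t₁ t₂ t₃) → 7 ≤ (VS (yd G b t₁ t₂ t₃)).card →
  4 ≤ dg (yd G b t₁ t₂ t₃) t₁ → 4 ≤ dg (yd G b t₁ t₂ t₃) t₂ → 4 ≤ dg (yd G b t₁ t₂ t₃) t₃ → KZ (yd G b t₁ t₂ t₃) →
  KZ (delE G t₁ t₂) → KZ G

/-- **YC1** (from KC; 300 lines).  The graph `R`.  A separation `(S, P, Q)` of `R`: `T` is a clique, so `T ∩ P = ∅` or `T ∩ Q = ∅`, say `T ⊆ S ∪ P`; `(S, P + b, Q)` is a separation of `G`.  So `R` is 3-connected and in C1 (`|S| = 3`: `|Q| ≤ 1` or `P = ∅`).  `conn`: components of `G - T - b`: if `P₁`, `P₂` are two sides, then `(T, P₁ + b, P₂)` and `(T, P₂ + b, P₁)` are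
separations of `G` of order 3: `|P₂|, |P₁| ≤ 1`, `n ≤ 6`.  `deg`: if `t₁` has at most 3 neighbours in `R`: `t₂, t₃` and at most one more, `NB G {b, t₁}` has at most 3 elements and the rest at least 3.  `sz`: one vertex less, `E(R) ⊆ (E(G) - bt₁ - bt₂ - bt₃) + e12 + e13 + e23`. -/
structure SpecYC1 : Prop where
  vs : ∀ {α : Type} [Fintype α] [DecidableEq α] {G : SimpleGraph α} {b t₁ t₂ t₃ : α}, C1 G → 8 ≤ (VS G).card →
    Cub G b t₁ t₂ t₃ → VS (yd G b t₁ t₂ t₃) = VS G \ {b}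
  c1 : ∀ {α : Type} [Fintype α] [DecidableEq α] {G : SimpleGraph α} {b t₁ t₂ t₃ : α}, C1 G → 8 ≤ (VS G).card →
    Cub G b t₁ t₂ t₃ → C1 (yd G b t₁ t₂ t₃)
  conn : ∀ {α : Type} [Fintype α] [DecidableEq α] {G : SimpleGraph α} {b t₁ t₂ t₃ : α}, C1 G → 8 ≤ (VS G).card →
    Cub G b t₁ t₂ t₃ → ConnOff (yd G b t₁ t₂ t₃) {t₁, t₂, t₃} ∧ ConnOff G {b, t₁, t₂, t₃}
  deg : ∀ {α : Type} [Fintype α] [DecidableEq α] {G : SimpleGraph α} {b t₁ t₂ t₃ : α}, C1 G → 8 ≤ (VS G).card →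
    Cub G b t₁ t₂ t₃ → 4 ≤ dg (yd G b t₁ t₂ t₃) t₁ ∧ 4 ≤ dg (yd G b t₁ t₂ t₃) t₂ ∧ 4 ≤ dg (yd G b t₁ t₂ t₃) t₃
  sz : ∀ {α : Type} [Fintype α] [DecidableEq α] {G : SimpleGraph α} {b t₁ t₂ t₃ : α}, Cub G b t₁ t₂ t₃ →
    DL.sz (yd G b t₁ t₂ t₃) < DL.sz G

/-- **YNP** (from YZS, YEQ, YC1, NPC, VKA; 100 lines).  `NP G → NP R`.  First remove the edges of `T`: if `e12 ∈ G` and `vk r z ≠ 0`: the row `z e12 ·` is in `Z1 (G - t₁ - t₂)`, where `b` has only the edge `bt₃`: it is `0` at the edges at `b`, NPC.tdel (`a = t₁, b = t₂, c = b`): `delE G t₁ t₂` is nonplanar.  So (YEQ.dele, .perm) `G₀` is nonplanar; YZS. -/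
def SpecYNP : Prop := ∀ {α : Type} [Fintype α] [DecidableEq α] {G : SimpleGraph α} {b t₁ t₂ t₃ : α},
  Cub G b t₁ t₂ t₃ → ConnOff G {b, t₁, t₂, t₃} → NP G → NP (yd G b t₁ t₂ t₃)

/-- **YOK** (from LIV, YTU, YKZ, YKT, YC1, YNP, YEQ; 120 lines).  STEP Y.  `b` a cubic vertex, `dg G b = 3`: `Cub G b t₁ t₂ t₃`.  `R = yd …`: YC1, YNP: `HIV R t₁ t₂ t₃` and its permutations (YEQ.perm), `sz R < sz G`, so IH gives OK for `R` and everything of size `≤ sz R`.  LIV: the three LIVP; YTU: `U G`.  `KZ G`: YKZ for `G₀` (ConnOff), then add the edges of `T` in `G` one by one (YKT;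
`yd` does not change: YEQ.dele, .perm). -/
def SpecYOK : Prop := ∀ {α : Type} [Fintype α] [DecidableEq α] {G : SimpleGraph α}, C1 G → NP G → IH G →
  8 ≤ (VS G).card → (∃ v ∈ VS G, dg G v = 3) → OK G

end DL
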