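import Pool.Agent.DL.Y.SpecU

/-!
# MP_3ff0f8_gt, ALGEBRA HALF, STEP Y, part V (helper34): LEMMA IV

`LIVP R t₁ t₂ t₃` (`DL/Y/SpecU.lean`): a function `ψ` in `F(R)` with KCH, supported on the cycles of type IV (they contain `t₁t₂`, not `t₁t₃`, `t₂t₃`, and pass
through `t₃`), is local at `t₃`.
Module `XXX` = file `DL/Y/XXX.lean`, theorem `specXXX (hYYY : SpecYYY) … : SpecXXX`; the hypotheses may be any other Specs named in the docstring (also of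
DL/EX, DL/K, DL/NP, DL/Y/SpecU); own lemmas in the namespace `DL.XXXM`.  Base library: DL/PC, PC2, MENG, KC, TREE (RTree, `tp`), and on connected sets the helper lemmas
`DL.N62M.cset_single, cset_union, cset_comp` (G4/N62.lean), `DL.BS1M.exists_tree` (R1A/BS1.lean) may be copied.  The docstrings are self-contained.

OVERVIEW.  A type IV cycle is `t₁t₂ + A + vt₃ + t₃w + B`, `A` a path from `t₁` to `v`, `B` from `t₂` to `w` (a LINKAGE, `LNK`).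
(1) For fixed `v`, `w`, `B` the value does not depend on `A` (VF1, VF2, VF3, VFD; KCH), the same for `B`.
(2) REC (VRE, pure graph theory) and one fixed relation of `K_{3,4}` + edge (VMC, VKR, VKQ, VK2): the value `c(v, w)` depends only on `(v, w)` (VCV).
(3) If both `c(v, w)` and `c(w, v)` occur then `v`, `w` are separated by an H-PARTITION (VRG, VHP): `V(R) - {t₁,t₂,t₃} = P ∪ Q`, both connected and adjacent to `t₁` and `t₂`.
(4) `ν(v, w) = c(v, w) + c(w, v)` satisfies the square relations (VSQ) and the triangle relations (VTR, V3L, VTT), so it is `μ v + μ w` (VMU).  VLI: assembly.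
-/

open SimpleGraph Finset

namespace DL

/-! ## A. Connected sets and contraction -/

/-- some vertex of `X` is adjacent to some vertex of `Y` (`X` TOUCHES `Y`) -/
def Tou {α : Type} (N : SimpleGraph α) (X Y : Finset α) : Prop := ∃ x ∈ X, ∃ y ∈ Y, N.Adj x y

/-- the vertex set of `G` over a vertex set of `contr G a b` -/
def exb {α : Type} [DecidableEq α] (a b : α) (S : Finset α) : Finset α := if a ∈ S then insert b S else S

/-- **VCS** (from KC, TREE, PC; 300 lines).  Elementary facts on connected sets (`CSet`, NP/Spec) and contraction.  `nc`: a connected set with at least two vertices has two different vertices which are not cut vertices (e.g. a vertex `x` at maximal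
distance from a fixed vertex `r`, and then one at maximal distance from `x`; or: Mathlib `Connected.exists_preconnected_induce_compl_singleton_of_finite`; or leaves of a spanning tree).  `dsc`: `D x` := `S` minus the component of `r` in `S - x`.  `S - D x` is that component; `D x` is
connected: `x` and the other components of `S - x`, each of which touches `x`.  `anti`: let `y ∈ D x`, `x ∈ D y`, `x ≠ y`, take a path in `S` from `r` to `x`; it passes through `y` (otherwise `x` is in the component of `r` in `S - y`), and its part from `r` to `y` avoids `x`: contradiction to `y ∈ D x`.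
`ctr`: `contr_reach`, `contr_reach'` or directly; `b ∉ S`.  `tou`: an edge of `contr G a b` comes from an edge of `G`.  `pth`: path inside `S`.  `tre`, `ext`: a tree on `Y ⊆ S` grows to a spanning tree of `S` (an edge from `Y` to `S - Y` exists; RTree.add_leaf, TRE.grow). -/
structure SpecVCS : Prop where
  nbr : ∀ {α : Type} [Fintype α] [DecidableEq α] {N : SimpleGraph α} {S : Finset α} {x : α}, CSet N S → x ∈ S →
    2 ≤ S.card → ∃ y ∈ S, y ≠ x ∧ N.Adj x y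
  ins : ∀ {α : Type} [Fintype α] [DecidableEq α] {N : SimpleGraph α} {S : Finset α} {x y : α}, CSet N S → y ∈ S →
    N.Adj y x → CSet N (insert x S)
  uni : ∀ {α : Type} [Fintype α] [DecidableEq α] {N : SimpleGraph α} {S S' : Finset α}, CSet N S → CSet N S' →
    Tou N S S' ∨ (S ∩ S').Nonempty → CSet N (S ∪ S')
  part : ∀ {α : Type} [Fintype α] [DecidableEq α] {N : SimpleGraph α} {S X : Finset α}, CSet N S → X ⊆ S → X.Nonempty →
    (S \ X).Nonempty → Tou N X (S \ X)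
  nc : ∀ {α : Type} [Fintype α] [DecidableEq α] {N : SimpleGraph α} {S : Finset α}, CSet N S → 2 ≤ S.card →
    ∃ x ∈ S, ∃ y ∈ S, x ≠ y ∧ CSet N (S.erase x) ∧ CSet N (S.erase y)
  dsc : ∀ {α : Type} [Fintype α] [DecidableEq α] {N : SimpleGraph α} {S : Finset α} {r : α}, CSet N S → r ∈ S →
    ∃ D : α → Finset α, (∀ x ∈ S, x ≠ r → x ∈ D x ∧ D x ⊆ S ∧ r ∉ D x ∧ CSet N (D x) ∧ CSet N (S \ D x)) ∧
      ∀ x ∈ S, ∀ y ∈ S, x ≠ r → y ≠ r → y ∈ D x → x ∈ D y → x = y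
  ctr : ∀ {α : Type} [Fintype α] [DecidableEq α] {N : SimpleGraph α} {a b : α} {S : Finset α}, N.Adj a b → b ∉ S →
    (CSet (contr N a b) S ↔ CSet N (exb a b S))
  tou : ∀ {α : Type} [Fintype α] [DecidableEq α] {N : SimpleGraph α} {a b : α} {S S' : Finset α}, N.Adj a b → b ∉ S →
    b ∉ S' → Disjoint S S' → (Tou (contr N a b) S S' ↔ Tou N (exb a b S) (exb a b S'))
  pth : ∀ {α : Type} [Fintype α] [DecidableEq α] {N : SimpleGraph α} {S : Finset α} {x y : α}, CSet N S → x ∈ S → y ∈ S →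
    ∃ P, IsPth N x y P ∧ vs P ⊆ S
  cpth : ∀ {α : Type} [Fintype α] [DecidableEq α] {N : SimpleGraph α} {x y : α} {P : Finset (Sym2 α)}, IsPth N x y P →
    CSet N (insert x (vs P))
  ext : ∀ {α : Type} [Fintype α] [DecidableEq α] {N T : SimpleGraph α} {S Y : Finset α}, CSet N S → TreeOn T Y → Y ⊆ S →
    Y.Nonempty → T ≤ N → ∃ T', T ≤ T' ∧ T' ≤ N ∧ TreeOn T' S

/-- two disjoint connected sets `S₁ ∋ t₁, v`, `S₂ ∋ t₂, w` -/
structure LPR {α : Type} [Fintype α] [DecidableEq α] (N : SimpleGraph α) (t₁ v t₂ w : α) (S₁ S₂ : Finset α) : Prop where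
  c1 : CSet N S₁
  c2 : CSet N S₂
  m1 : t₁ ∈ S₁
  mv : v ∈ S₁
  m2 : t₂ ∈ S₂
  mw : w ∈ S₂
  dj : Disjoint S₁ S₂

/-- a 4-cycle `T₁, P, T₂, Q` of disjoint connected sets, `t₁ ∈ T₁`, `v ∈ P`, `t₂ ∈ T₂`, `w ∈ Q` -/
structure C4M {α : Type} [Fintype α] [DecidableEq α] (N : SimpleGraph α) (t₁ v t₂ w : α) (T₁ P T₂ Q : Finset α) : Prop where
  c1 : CSet N T₁
  cP : CSet N P
  c2 : CSet N T₂
  cQ : CSet N Q
  m1 : t₁ ∈ T₁
  mv : v ∈ P
  m2 : t₂ ∈ T₂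
  mw : w ∈ Q
  d1P : Disjoint T₁ P
  d12 : Disjoint T₁ T₂
  d1Q : Disjoint T₁ Q
  dP2 : Disjoint P T₂
  dPQ : Disjoint P Q
  d2Q : Disjoint T₂ Q
  t1P : Tou N T₁ P
  tP2 : Tou N P T₂
  t2Q : Tou N T₂ Q
  tQ1 : Tou N Q T₁

/-- **VRG** (from VCS; 300 lines).  Crossing linkages give a 4-cycle.  Write `(S₁, S₂)`, `(S₁', S₂')` for the two pairs (`LPR t₁ v t₂ w`, `LPR t₁ w t₂ v`).  The cells `S₁ ∩ S₁' ∋ t₁`, `S₁ ∩ S₂' ∋ v`, `S₂ ∩ S₁' ∋ w`, `S₂ ∩ S₂' ∋ t₂` contain exactly one of the ROOTS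
`t₁, v, w, t₂` each.  Induction on `|S₁ ∪ S₂ ∪ S₁' ∪ S₂'|`, for all graphs.  A 4-cycle of `contr N y x` gives one of `N` with the sets `exb y x _` (VCS.ctr, .tou).
(1) Some `x ∈ S_i` is in no `S_j'` (or `x ∈ S_j'` in no `S_i`): `x` is no root and has a neighbour `y` in `S_i` (VCS.nbr).  Contract `xy`: `contr N y x`, replace `S_i` by `S_i.erase x` (`exb y x` of it is `S_i`), the other sets are unchanged: a set `S ∌ x` is connected in `contr N y x`, since `exb y x S` is `S` or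
`insert x S`, `y ∈ S` (VCS.ins).  (2) Otherwise `S₁ ∪ S₂ = S₁' ∪ S₂'`.  If an edge `xy` has both ends in the same cell, one of them, say `y`, is no root: contract: `contr N x y`, all four sets `.erase y`.  (3) Otherwise the cells are independent.  Let `x ∈ S₁`, `x ≠ t₁, v`, `CSet (S₁.erase x)`.  `x ∈ S_j'` for one
`j`; `x` has a neighbour `y` in `S_j'`, `y ∉ S₁` (independent), so `y ∈ S₂`.  Replace `(S₁, S₂)` by `(S₁.erase x, insert x S₂)`: again `LPR` with the same union, and now `xy` has both ends in the same cell `S₂ ∩ S_j'`: contract as in (2).  The same for `x ∈ S₂`, `x ≠ t₂, w`.  (4) Otherwise, by VCS.nc, `S₁.erase t₁`, `S₁.erase v`, `S₂.erase t₂`,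
`S₂.erase w` are connected.  `T₁ = S₁.erase v`, `P = {v}`, `T₂ = S₂.erase w`, `Q = {w}`: `v` touches `T₁`; `v` has a neighbour in `S₂'`, not in its cell `S₁ ∩ S₂'`, so in `S₂ ∩ S₂' ∌ w`: `P` touches `T₂`; the same for `w`. -/
def SpecVRG : Prop := ∀ {α : Type} [Fintype α] [DecidableEq α] {N : SimpleGraph α} {t₁ v t₂ w : α}
  {S₁ S₂ S₁' S₂' : Finset α}, LPR N t₁ v t₂ w S₁ S₂ → LPR N t₁ w t₂ v S₁' S₂' →
  ∃ T₁ P T₂ Q : Finset α, C4M N t₁ v t₂ w T₁ P T₂ Q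

/-- a `K_{2,4}` of disjoint connected sets: the hubs `A`, `B` touch `L 0, …, L 3`, `t i ∈ L i` -/
structure HUB {α : Type} [Fintype α] [DecidableEq α] (N : SimpleGraph α) (t : Fin 4 → α) (L : Fin 4 → Finset α)
    (A B : Finset α) : Prop where
  cL : ∀ i, CSet N (L i)
  cA : CSet N A
  cB : CSet N B
  m : ∀ i, t i ∈ L i
  dL : ∀ i j, i ≠ j → Disjoint (L i) (L j)
  dA : ∀ i, Disjoint (L i) A
  dB : ∀ i, Disjoint (L i) B
  dAB : Disjoint A B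
  tA : ∀ i, Tou N (L i) A
  tB : ∀ i, Tou N (L i) B

/-- **VRE** (from VCS; 400 lines).  RECONFIGURATION.  `κ` is a function on the pairs `LPR t₁ v t₂ w`, monotone (`mono`) and invariant under the swap of the hubs of a `K_{2,4}` (`swap`).  Then it is constant.  Induction on `|S₁ ∪ S₂ ∪ S₁' ∪ S₂'|` for all `N`, `κ`.  ROOTS: `t₁, v ∈ S₁ ∩ S₁'`, `t₂, w ∈ S₂ ∩ S₂'`.
(0) If `t₁ ~ v`: `{t₁, v}` is connected and `κ S₁ S₂ = κ {t₁, v} S₂ = κ {t₁, v} (S₂ ∪ S₂') = κ {t₁, v} S₂' = κ S₁' S₂'` by `mono` (`S₂`, `S₂'` avoid `t₁`, `v`; `S₂ ∪ S₂'` is connected).  The same if `t₂ ~ w`.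
CONTRACTION of an edge `yx`, `x` no root: `N' = contr N y x`, `κ' S S' = κ (exb y x S) (exb y x S')`: `mono`, `swap` hold for `N'`, `κ'` (`LPR N' S S'` implies `x ∉ S, S'` as `x` is isolated in `N'`; VCS.ctr, .tou; `exb` of a union is the union of the `exb`).
(1) `x ∈ S_i` is in no `S_j'` (or conversely): `x` is no root, it has a neighbour `y` in `S_i`; contract `yx`: the pairs `(S₁.erase x, S₂.erase x)` and `(S₁', S₂')`; `κ'` of the first is `κ S₁ S₂`, `κ'` of the second is `κ (exb y x S₁') (exb y x S₂') = κ S₁' S₂'` by `mono`.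
(2) Now `S₁ ∪ S₂ = S₁' ∪ S₂'`.  An edge `xy` with both ends in the same cell `S_i ∩ S_j'`: by (0) not both are roots; say `y` is none; contract `xy`: all sets `.erase y`, `κ'` has the old values.
(3) The cells are independent.  If `x ∈ S₁` is no root and `CSet (S₁.erase x)`: `x` has a neighbour `y` in `S_j' ∋ x` (which contains two roots), `y ∉ S₁`, so `y ∈ S₂`; `κ S₁ S₂ = κ (S₁.erase x) S₂ = κ (S₁.erase x) (insert x S₂)` by `mono`; now `xy` is an edge in the cell `S₂ ∩ S_j'`: (2).  The same for `S₂`, `S₁'`, `S₂'`.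
(4) Otherwise (VCS.nc) the non-cut vertices of `S₁` are exactly `t₁`, `v`, those of `S₂` `t₂`, `w`, those of `S₁'` `t₁`, `v`, of `S₂'` `t₂`, `w`.  CLAIM: `A := S₁ - t₁ - v` is connected and not empty.  Not empty: `t₁`, `v` are not adjacent, `S₁` is connected.  Let `y` be a non-cut vertex of `S₁ - t₁` (at least two
vertices), `y ≠ v`.  `S₁ - y` is not connected (`y` no root), but `S₁ - y - t₁` is, so `t₁` has no neighbour in `S₁ - y`: `y` is the only neighbour of `t₁` in `S₁`.  So `S₁ - t₁` has at most one non-cut vertex `≠ v`, and at least two: `v` is one of them.  In the same way `B := S₂ - t₂ - w` is connected and not empty.  `t₁`, `v` touch `A` (their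
neighbours in `S₁` are in `A`), `t₂`, `w` touch `B`.  `t₂` has a neighbour in `S₂'`, not in `S₂ ∩ S₂'` (independent), so in `S₁ ∩ S₂'`, which does not contain `t₁`, `v`: `t₂` touches `A`; the same for `w` and `A`, `t₁` and `B`, `v` and `B`.  So `HUB N ![t₁, v, t₂, w] (fun i => {…}) A B`, and `swap`: `κ S₁ S₂ = κ ({t₁} ∪ B ∪ {v}) ({t₂} ∪ A ∪ {w})`.
The neighbour `y` of `t₁` in `S₁'` is in `S₂ ∩ S₁'` and `≠ t₂, w`, so in `B`: the edge `t₁y` has both ends in the new first set and in `S₁'`: (2). -/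
def SpecVRE : Prop := ∀ {α : Type} [Fintype α] [DecidableEq α] {N : SimpleGraph α} {t₁ v t₂ w : α}
  {κ : Finset α → Finset α → ZMod 2}, t₁ ≠ v → t₂ ≠ w →
  (∀ S₁ S₂ S₁' S₂', LPR N t₁ v t₂ w S₁ S₂ → LPR N t₁ v t₂ w S₁' S₂' → S₁ ⊆ S₁' → S₂ ⊆ S₂' → κ S₁ S₂ = κ S₁' S₂') →
  (∀ L A B, HUB N ![t₁, v, t₂, w] L A B → κ (L 0 ∪ A ∪ L 1) (L 2 ∪ B ∪ L 3) = κ (L 0 ∪ B ∪ L 1) (L 2 ∪ A ∪ L 3)) →
  ∀ S₁ S₂ S₁' S₂', LPR N t₁ v t₂ w S₁ S₂ → LPR N t₁ v t₂ w S₁' S₂' → κ S₁ S₂ = κ S₁' S₂'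

/-- an H-PARTITION: `V(R) - {t₁, t₂, t₃} = P ∪ Q`, both connected and adjacent to `t₁` and to `t₂` -/
structure HPR {α : Type} [Fintype α] [DecidableEq α] (R : SimpleGraph α) (t₁ t₂ t₃ : α) (P Q : Finset α) : Prop where
  cP : CSet R P
  cQ : CSet R Q
  un : P ∪ Q = VS R \ {t₁, t₂, t₃}
  dj : Disjoint P Q
  p1 : Tou R {t₁} P
  p2 : Tou R {t₂} P
  q1 : Tou R {t₁} Q
  q2 : Tou R {t₂} Q

/-- **VHP** (from VCS, KC; 350 lines).  From a 4-cycle to an H-partition.  `N = del R {t₃}`; no set of a `C4M` contains `t₃` (it touches another set, and is connected in `N`, where `t₃` is isolated).  Call a `C4M` COVERING if the union of the sets is `VS R \ {t₃}`.  There is one: if `y ∈ VS R \ {t₃}` is not in the union `U` there is an edge of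
`N` from `U` to the outside (`R` is 3-connected), add its outer end to the set of its inner end (VCS.ins); induct.  Choose a covering `C4M` `(T₁, P, T₂, Q)` with `|T₁| + |T₂|` minimal.  Let `C_P` (`C_Q`) be the set of the vertices of `T₁` with a neighbour in `P` (`Q`), both not empty; `D` as in VCS.dsc for `S = T₁`, `r = t₁`.
(a) If `x ∈ C_P`, `x ≠ t₁`, then `C_Q ⊆ D x`: otherwise `y ∈ C_Q`, `y ∉ D x`; `(T₁ \ D x, P ∪ D x, T₂, Q)` is a covering `C4M` (`T₁ \ D x ∋ t₁` touches `D x` by VCS.part, touches `Q` by `y`; `P ∪ D x` is connected by `x`), smaller.  The same with `P`, `Q` exchanged.  (b) So if `x ∈ C_P`, `x ≠ t₁`, and `y ∈ C_Q`: `y ∈ D x`, so `y ≠ t₁`,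
so `x ∈ C_P ⊆ D y`, `x = y` (VCS.dsc).  Hence `C_P = C_Q = {s₁}`, `s₁ ≠ t₁`.  Otherwise `C_P = {t₁}`; a `y ∈ C_Q`, `y ≠ t₁` would give `t₁ ∈ D y`: so `C_Q = {t₁}`.  In all cases `C_P = C_Q = {s₁}`, and in the same way `{s₂}` for `T₂`.  (c) `({s₁, s₂, t₃}, P ∪ Q, (T₁ ∪ T₂) \ {s₁, s₂})` is a separation of `R` of order 3, `|P ∪ Q| ≥ 2`, so
by C1 at most one vertex `ℓ` is left.  If `ℓ ∈ T₁` (`T₁ = {s₁, ℓ}`, `T₂ = {s₂} = {t₂}`): if `ℓ = t₁` then `t₁` has at most the neighbours `s₁, t₂, t₃`, contradiction to degree `≥ 4`; if `s₁ = t₁` then `ℓ` has at most the neighbours `t₁, t₂, t₃`, so it is isolated in `R - {t₁, t₂, t₃}`, contradiction to `ConnOff` (`v` is another vertex).  The same for `T₂`.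
So `T₁ = {t₁}`, `T₂ = {t₂}`. -/
def SpecVHP : Prop := ∀ {α : Type} [Fintype α] [DecidableEq α] {R : SimpleGraph α} {t₁ t₂ t₃ v w : α}
  {T₁ P T₂ Q : Finset α}, C1 R → Trg R t₁ t₂ t₃ → ConnOff R {t₁, t₂, t₃} → 4 ≤ dg R t₁ → 4 ≤ dg R t₂ →
  C4M (del R {t₃}) t₁ v t₂ w T₁ P T₂ Q → ∃ P' Q', HPR R t₁ t₂ t₃ P' Q' ∧ v ∈ P' ∧ w ∈ Q'

/-- two partitions of the same set into connected sets touching `t₁` and `t₂`; `v₁, v₃ ∈ P`, `v₂ ∈ Q`; `v₁, v₂ ∈ P'`, `v₃ ∈ Q'` -/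
structure R3D {α : Type} [Fintype α] [DecidableEq α] (N : SimpleGraph α) (t₁ t₂ v₁ v₂ v₃ : α) (P Q P' Q' : Finset α) :
    Prop where
  n12 : t₁ ≠ t₂
  h1 : t₁ ∉ P ∪ Q
  h2 : t₂ ∉ P ∪ Q
  un : P ∪ Q = P' ∪ Q'
  dj : Disjoint P Q
  dj' : Disjoint P' Q'
  c : CSet N P ∧ CSet N Q ∧ CSet N P' ∧ CSet N Q'
  a1 : Tou N {t₁} P ∧ Tou N {t₁} Q ∧ Tou N {t₁} P' ∧ Tou N {t₁} Q'
  a2 : Tou N {t₂} P ∧ Tou N {t₂} Q ∧ Tou N {t₂} P' ∧ Tou N {t₂} Q'
  m1 : v₁ ∈ P ∧ v₁ ∈ P'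
  m2 : v₂ ∈ Q ∧ v₂ ∈ P'
  m3 : v₃ ∈ P ∧ v₃ ∈ Q'

/-- a `K_{2,3}` of disjoint connected sets: `U`, `W` touch `T₁`, `T₂`, `X` -/
structure K23 {α : Type} [Fintype α] [DecidableEq α] (N : SimpleGraph α) (t₁ t₂ x u w : α) (T₁ T₂ X U W : Finset α) :
    Prop where
  c : CSet N T₁ ∧ CSet N T₂ ∧ CSet N X ∧ CSet N U ∧ CSet N W
  m : t₁ ∈ T₁ ∧ t₂ ∈ T₂ ∧ x ∈ X ∧ u ∈ U ∧ w ∈ W
  dT : Disjoint T₁ T₂ ∧ Disjoint T₁ X ∧ Disjoint T₁ U ∧ Disjoint T₁ W
  dS : Disjoint T₂ X ∧ Disjoint T₂ U ∧ Disjoint T₂ W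
  dX : Disjoint X U ∧ Disjoint X W ∧ Disjoint U W
  tU : Tou N U T₁ ∧ Tou N U T₂ ∧ Tou N U X
  tW : Tou N W T₁ ∧ Tou N W T₂ ∧ Tou N W X

/-- **V3L** (from VCS; 500 lines; independent parts may be separate lemmas).  R3 LEMMA.  Cells `A = P ∩ P' ∋ v₁`, `B = P ∩ Q' ∋ v₃`, `C = Q ∩ P' ∋ v₂`, `E = Q ∩ Q'`.  Induction on `|P ∪ Q|`, for all `N`.  A `K23` of `contr N x y` gives one of `N` (sets `exb x y _`; VCS.ctr, .tou).
(1) `E = ∅`: then `Q = C ⊆ P'`, `Q' = B ⊆ P`.  Let `X` be the component of `v₁` in `A`.  `X` touches `Q'` (a path in `P` from `v₁` to `v₃ ∉ A` leaves `X` by an edge to `P - A = Q'`) and `Q` (same in `P'`).  `K23` with `T₁ = {t₁}`, `T₂ = {t₂}`, `x = v₁`, `U = Q ∋ v₂`, `W = Q' ∋ v₃`.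
(2) An edge `xy` with both ends in the same cell: each cell contains at most one `v_i`, so say `y` is no `v_i`; contract `contr N x y`, all sets `.erase y`.  So now the cells are independent, `E ≠ ∅`, so all four sets have at least two vertices, and: (*) a vertex of a cell has a neighbour in each of the two neighbouring cells (e.g. `x ∈ A`: a neighbour in
`P`, so in `B`, and a neighbour in `P'`, so in `C`; `x ∈ E`: a neighbour in `Q`, so in `C`, one in `Q'`, so in `B`).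
(3) Let `x` be a non-cut vertex of `S ∈ {P, Q, P', Q'}` with `S - x` touching `t₁` and `t₂`.  If `x` is no `v_i`: move `x` to the other set of the partition (connected by (*): `x ∈ P`: a neighbour `y ∈ C ∪ E = Q`); then `xy` is an edge in one cell (`x`, `y` are in the same set of the other partition): contract it as in (2).  If `x = v_i`: `K23`: `x = v₃ ∈ P`: `X =
{v₃}`, `U = P - v₃ ∋ v₁`, `W = Q ∋ v₂`; `x = v₁ ∈ P`: `X = {v₁}`, `U = P - v₁ ∋ v₃`, `W = Q ∋ v₂`; `x = v₂ ∈ P'`: `X = {v₂}`, `U = P' - v₂ ∋ v₁`, `W = Q' ∋ v₃`; `x = v₁ ∈ P'`: `X = {v₁}`, `U = P' - v₁ ∋ v₂`, `W = Q' ∋ v₃` (`X` touches `U` as `S` is connected, and `W` by (*)).  (`x = v₂ ∈ Q` and `x = v₃ ∈ Q'` are not treated.)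
(4) So every non-cut vertex `x` of `P` or `P'`, and every non-cut vertex `x ≠ v₂` of `Q`, `≠ v₃` of `Q'`, is the only neighbour of `t₁` or the only neighbour of `t₂` in its set.  By VCS.nc: `P` has exactly two non-cut vertices, `p₁` = the only neighbour of `t₁` in `P`, `p₂` = the only neighbour of `t₂` in `P`; in the same way `p₁'`, `p₂'` for `P'`.  `Q` has a non-cut vertex
`q ≠ v₂`, `Q'` one `q' ≠ v₃`.  If `p_i ∈ A` then `p_i = p_i'`; if `p_i' ∈ A` the same; so either `p_i = p_i' ∈ A`, or `p_i ∈ B` and `p_i' ∈ C`.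
ABSORBING a vertex `z` adjacent to `t₁`, no `v_i`, into `t₁`: `contr N t₁ z`, all four sets `.erase z`; the sets containing `z` must be connected without `z`; they touch `t₁` again (`z` has a neighbour in the rest); they must touch `t₂` without `z`.  The same with `t₂`.
(5) `p₁ = p₁' ∈ A`, `p₁ ≠ v₁`: absorb `z = p₁` into `t₁` (`P - p₁`, `P' - p₁` touch `t₂` by `p₂`, `p₂'`).  The same for `p₂ = p₂' ∈ A`, `≠ v₁`.
(6) `p₁, p₂ ∈ B`, `p₁', p₂' ∈ C`: `q` is the only neighbour of `t₁` (or of `t₂`) in `Q ∋ p₁', p₂'`, so `q = p₁'` (or `p₂'`); absorb `z = q` into `t₁` (`t₂`): `Q - q`, `P' - q` are connected and touch `t₂` (`t₁`) by `p₂'` (`p₁'`).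
(7) `p₁ = p₁' = v₁` (so `p₂ ∈ B`, `p₂' ∈ C`).  (a) `q` is the only neighbour of `t₂` in `Q`: `q = p₂'`; absorb it into `t₂`: `Q - q` touches `t₁` because `Q` does and `q` is not adjacent to `t₁` (`q ∈ P'`, whose only neighbour of `t₁` is `v₁`), `P' - q` touches `t₁` by `v₁`.  (b) `q'` is the only neighbour of `t₂` in `Q'`: `q' = p₂`, absorb it into `t₂`, the same.
(c) Otherwise `q` is the only neighbour of `t₁` in `Q` and `q'` the only one in `Q'`.  `q ∉ C` (`q ∈ C ⊆ P'` adjacent to `t₁` would be `v₁`), so `q ∈ E ⊆ Q'`, `q = q'`: absorb `z = q` into `t₁`: `Q - q`, `Q' - q` are connected and touch `t₂` by `p₂'`, `p₂`; `P`, `P'` are unchanged.  (8) `p₂ = p₂' = v₁`: symmetric. -/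
def SpecV3L : Prop := ∀ {α : Type} [Fintype α] [DecidableEq α] {N : SimpleGraph α} {t₁ t₂ v₁ v₂ v₃ : α}
  {P Q P' Q' : Finset α}, R3D N t₁ t₂ v₁ v₂ v₃ P Q P' Q' → ∃ (x u w : α) (T₁ T₂ X U W : Finset α),
    ((x = v₁ ∧ u = v₂ ∧ w = v₃) ∨ (x = v₂ ∧ u = v₁ ∧ w = v₃) ∨ (x = v₃ ∧ u = v₁ ∧ w = v₂)) ∧
    K23 N t₁ t₂ x u w T₁ T₂ X U W

/-! ## B. Linkages; the value does not depend on the path (FD) -/

/-- a linkage: `A` a path from `t₁` to `v`, `B` from `t₂` to `w`, disjoint, avoiding `t₃`; `v`, `w` neighbours of `t₃` -/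
structure LNK {α : Type} [Fintype α] [DecidableEq α] (R : SimpleGraph α) (t₁ t₂ t₃ v w : α) (A B : Finset (Sym2 α)) :
    Prop where
  av : R.Adj t₃ v
  aw : R.Adj t₃ w
  nv : v ≠ t₁
  nw : w ≠ t₂
  pA : IsPth (del R {t₂, t₃}) t₁ v A
  pB : IsPth (del R {t₁, t₃}) t₂ w B
  dj : Disjoint (vs A) (vs B)

/-- the type IV cycle of a linkage -/
def c4c {α : Type} [DecidableEq α] (t₁ t₂ t₃ v w : α) (A B : Finset (Sym2 α)) : Finset (Sym2 α) :=
  insert s(t₁, t₂) (insert s(t₃, v) (insert s(t₃, w) (A ∪ B)))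

/-- **VLC** (from PC, PC2; 250 lines).  Type IV cycles.  `cyc`: concatenate.  `dec`: `C.erase e12` is a path from `t₁` to `t₂` through `t₃` (IsCyc.isPth); split at `t₃`; the edges at `t₃` are `t₃v`, `t₃w`.  `loc`: the only edges at `t₃` are `t₃v`, `t₃w`; `coh t₂ t₁ t₃ u C = dirn t₁ t₃ u (C - e12)` is `1` for `u = w` (the path from `t₁` to `t₂` passes
`A`, `v`, `t₃`, `w`, `B`) and `0` for `u = v` and for all other `u`.  `ne`: `v ≠ w`, all of `t₁, t₂, t₃, v, w` different. -/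
structure SpecVLC : Prop where
  ne : ∀ {α : Type} [Fintype α] [DecidableEq α] {R : SimpleGraph α} {t₁ t₂ t₃ v w : α} {A B : Finset (Sym2 α)},
    LNK R t₁ t₂ t₃ v w A B → [t₁, t₂, v, w].Nodup ∧ t₁ ∈ vs A ∧ v ∈ vs A ∧ t₂ ∈ vs B ∧ w ∈ vs B
  symm : ∀ {α : Type} [Fintype α] [DecidableEq α] {R : SimpleGraph α} {t₁ t₂ t₃ v w : α} {A B : Finset (Sym2 α)},
    LNK R t₁ t₂ t₃ v w A B → LNK R t₂ t₁ t₃ w v B A ∧ c4c t₂ t₁ t₃ w v B A = c4c t₁ t₂ t₃ v w A B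
  cyc : ∀ {α : Type} [Fintype α] [DecidableEq α] {R : SimpleGraph α} {t₁ t₂ t₃ v w : α} {A B : Finset (Sym2 α)},
    Trg R t₁ t₂ t₃ → LNK R t₁ t₂ t₃ v w A B → IsCyc R (c4c t₁ t₂ t₃ v w A B) ∧
      s(t₁, t₂) ∈ c4c t₁ t₂ t₃ v w A B ∧ s(t₁, t₃) ∉ c4c t₁ t₂ t₃ v w A B ∧ s(t₂, t₃) ∉ c4c t₁ t₂ t₃ v w A B ∧
      t₃ ∈ vs (c4c t₁ t₂ t₃ v w A B)
  dec : ∀ {α : Type} [Fintype α] [DecidableEq α] {R : SimpleGraph α} {t₁ t₂ t₃ : α} {C : Finset (Sym2 α)},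
    Trg R t₁ t₂ t₃ → IsCyc R C → s(t₁, t₂) ∈ C → s(t₁, t₃) ∉ C → s(t₂, t₃) ∉ C → t₃ ∈ vs C →
    ∃ v w A B, LNK R t₁ t₂ t₃ v w A B ∧ C = c4c t₁ t₂ t₃ v w A B
  loc : ∀ {α : Type} [Fintype α] [DecidableEq α] {R : SimpleGraph α} {t₁ t₂ t₃ v w : α} {A B : Finset (Sym2 α)},
    Trg R t₁ t₂ t₃ → LNK R t₁ t₂ t₃ v w A B → ∀ (s : α → α → ZMod 2) (ν : α → ZMod 2),
    loc3 t₁ t₂ t₃ s ν (c4c t₁ t₂ t₃ v w A B) = s v v + s w w + s v w + s w v + ν w

/-- KCJ for `(t₁, t₂)` and for `(t₂, t₁)`; `t₃t₂` resp. `t₃t₁` is the edge `(p 2 false) (q 2 false)` of the last bead -/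
def KCH {α : Type} [Fintype α] [DecidableEq α] (R : SimpleGraph α) (t₁ t₂ t₃ : α)
    (ψ : Finset (Sym2 α) → ZMod 2) : Prop := KCJ R t₁ t₂ t₃ ψ ∧ KCJ R t₂ t₁ t₃ ψ

/-- **VRV** (trivial: And.symm). -/
def SpecVRV : Prop := ∀ {α : Type} [Fintype α] [DecidableEq α] {R : SimpleGraph α} {t₁ t₂ t₃ : α}
  {ψ : Finset (Sym2 α) → ZMod 2}, KCH R t₁ t₂ t₃ ψ → KCH R t₂ t₁ t₃ ψ

/-- `B` is fixed: `w` a neighbour of `t₃`, `B` a path from `t₂` to `w`; on the paths `Q` from `t₁` to `t₃` avoiding `B` the function `ψ (t₁t₂ + Q + t₃w + B)` is `w0 + Σ_{h ∈ Q} ω h` -/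
structure FDB {α : Type} [Fintype α] [DecidableEq α] (R : SimpleGraph α) (t₁ t₂ t₃ : α) (ψ : Finset (Sym2 α) → ZMod 2)
    (w : α) (B : Finset (Sym2 α)) (w0 : ZMod 2) (ω : Sym2 α → ZMod 2) : Prop where
  tri : Trg R t₁ t₂ t₃
  kch : KCH R t₁ t₂ t₃ ψ
  iv : IV R t₁ t₂ t₃ ψ
  aw : R.Adj t₃ w
  nw : w ≠ t₂
  pB : IsPth (del R {t₁, t₃}) t₂ w B
  aff : ∀ Q, IsPth (del R (insert t₂ (vs B))) t₁ t₃ Q →
    ψ (insert s(t₁, t₂) (insert s(t₃, w) (Q ∪ B))) = w0 + ∑ h ∈ Q, ω h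

/-- **VF1** (from RT1, YC3, TREE, PC; 200 lines).  `φ Q := ψ (e12 + Q + t₃w + B)` on the `t₁`-`t₃` paths of `G' = del R (insert t₂ (vs B))`.  Let `K : Ch2 G' t₁ t₃`.  Its sets avoid `vs B` and `t₂` (vertices of these are isolated in `G'`, and every `K.X i` is connected in `G'` and contains an end of an edge of `G'`).  Add `X 3 = insert t₂ (vs B)` with the tree of `B` and the third
bead `p 2 = t₃`, `q 2 false = t₂`, `q 2 true = w`: a `Ch3 (delE R t₁ t₂) t₁ t₂`.  KCH: the sum of `ψ` over the eight cycles is `0`.  If `e 2 = false` the cycle contains `t₂t₃`: `ψ = 0` by IV (it is a cycle: YC3.pth); if `e 2 = true` it is `φ (K.pth (e 0, e 1))`.  So `Σ φ (K.pth e) = 0`: RT1. -/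
def SpecVF1 : Prop := ∀ {α : Type} [Fintype α] [DecidableEq α] {R : SimpleGraph α} {t₁ t₂ t₃ w : α}
  {ψ : Finset (Sym2 α) → ZMod 2} {B : Finset (Sym2 α)}, Trg R t₁ t₂ t₃ → KCH R t₁ t₂ t₃ ψ → IV R t₁ t₂ t₃ ψ → R.Adj t₃ w →
  w ≠ t₂ → IsPth (del R {t₁, t₃}) t₂ w B → ∃ w0 ω, FDB R t₁ t₂ t₃ ψ w B w0 ω

/-- **VF2** (from YC3, VCS, TREE, TRE, PC; 350 lines).  One 3-bead chain.  `V(σ) := insert t₁ (vs σ)`.  `Z - c` is a path in `D`, from `z₁` to `z₂`, the neighbours of `c` on `Z`; VCS.ext: a spanning tree `T_D` of `D` containing this path.  Let `v' ∈ D` be adjacent to `t₃` and `y' ∈ D` to `y`.  Split `B = B₂ + y⁺y + B₁`: `B₁` from `w` to `y`, `y⁺` the next vertex, `B₂` from `y⁺`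
to `t₂` (`y ≠ t₂`; possibly `y = w`, `B₁ = ∅`, possibly `y⁺ = t₂`, `B₂ = ∅`).  Chain `K : Ch3 (delE R t₁ t₂) t₁ t₂`: `X 0 = V(σ)` (tree of the path `σ`), `X 1 = D` (`T_D`), `X 2 = {t₃} ∪ V(B₁)` (tree `t₃w + B₁`), `X 3 = V(B₂)`; beads `cz₁ | cz₂`, `v't₃ | y'y`, `t₃t₂ | yy⁺`.  `e 2 = false`: the cycle contains `t₂t₃`: `ψ = 0`.  `e 2 = true`, `e 1 = true`: the cycle passes `X 1
→ y → y⁺`, does not contain `t₃`: `ψ = 0` (IV).  `e 1 = false`, `e 2 = true`: the cycle is `e12 + Q_i + t₃w + B`, `Q_i = σ + cz_i + tp T_D z_i v' + v't₃`.  So by KCH and `FDB.aff` `0 = Σ_{Q₁} ω + Σ_{Q₂} ω = ω (cz₁) + ω (cz₂) + Σ_{tp T_D z₁ z₂} ω = Σ_{h ∈ Z} ω h` (TRE.four / RTree.four; `tp T_D z₁ z₂ = Z - c` by TRE.tpm). -/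
def SpecVF2 : Prop := ∀ {α : Type} [Fintype α] [DecidableEq α] {R : SimpleGraph α} {t₁ t₂ t₃ w : α}
  {ψ : Finset (Sym2 α) → ZMod 2} {B : Finset (Sym2 α)} {w0 : ZMod 2} {ω : Sym2 α → ZMod 2},
  FDB R t₁ t₂ t₃ ψ w B w0 ω → ∀ (c y : α) (σ Z : Finset (Sym2 α)) (D : Finset α),
  IsPth (del R (insert t₃ (vs B))) t₁ c σ → CSet R D → Disjoint D (insert t₁ (vs σ)) → Disjoint D (vs B) → t₃ ∉ D →
  IsCyc R Z → c ∈ vs Z → (∀ x ∈ vs Z, x ≠ c → x ∈ D) → Tou R D {t₃} → y ∈ vs B → y ≠ t₂ → Tou R D {y} →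
  ∑ h ∈ Z, ω h = 0

/-- **VF3** (from VF2, VCS, KC, PC, PC2; 400 lines).  `N_B = del R (insert t₃ (vs B))`, `V(σ) = insert t₁ (vs σ)`.  Induction on `|V(σ)|`.  Let `D` be the component of `z` in `R - V(σ) - V(B) - t₃`; it contains `Z - c` (a path avoiding these sets), and `v`: so it touches `t₃`; `|D| ≥ 2`.  (1) If `D` touches some `y ∈ vs B`, `y ≠ t₂`: VF2.
(2) Otherwise the neighbours of `D` are in `V(σ) ∪ {t₂, t₃}`.  CLAIM: some `c₁ ∈ V(σ)`, `c₁ ≠ c`, is adjacent to `D`.  `D` does not contain `t₁, t₂, t₃` nor `w`.  As `R - {t₁, t₂, t₃}` is connected and contains `w ∉ D`, `D` is adjacent to a vertex of `V(σ) - t₁`.  If the claim is false then this is `c ≠ t₁` and all neighbours of `D` are in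
`{c, t₂, t₃}`: the separation `({c, t₂, t₃}, D, rest)` with `t₁, w ∈ rest` and `|D| ≥ 2` contradicts C1.  Let `σ = σ₁ + σ₂`, `σ₁` from `t₁` to `c₁`, `σ₂` from `c₁` to `c`.  A path from `c₁` into `D` and in `D` to its first vertex `z*` on `Z - c`: `ρ` (from `c₁` to `z*`).  `Z` = two arcs from `c` to `z*`; `W_i = σ₂ + arc_i + ρ`, `i = 1, 2`, are cycles of `N_B`
through `c₁`, `chi W₁ + chi W₂ = chi Z`, `vs W_i ∩ V(σ₁) = {c₁}`; `z* ∈ W_i`, `z* ≠ c₁`, is connected to `v` in `R - V(σ₁) - V(B) - t₃`.  By induction `Σ_{W_i} ω = 0`. -/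
def SpecVF3 : Prop := ∀ {α : Type} [Fintype α] [DecidableEq α] {R : SimpleGraph α} {t₁ t₂ t₃ w : α}
  {ψ : Finset (Sym2 α) → ZMod 2} {B : Finset (Sym2 α)} {w0 : ZMod 2} {ω : Sym2 α → ZMod 2}, C1 R →
  ConnOff R {t₁, t₂, t₃} → FDB R t₁ t₂ t₃ ψ w B w0 ω → ∀ (c z v : α) (σ Z : Finset (Sym2 α)),
  IsPth (del R (insert t₃ (vs B))) t₁ c σ → IsCyc (del R (insert t₃ (vs B))) Z → c ∈ vs Z →
  (∀ x ∈ vs Z, x ∈ insert t₁ (vs σ) → x = c) → z ∈ vs Z → z ≠ c → R.Adj t₃ v →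
  (del R (insert t₃ (insert t₁ (vs σ ∪ vs B)))).Reachable z v → v ∉ insert t₁ (vs σ) → ∑ h ∈ Z, ω h = 0

/-- **VFD** (from VF1, VF3, VRV, VLC, PC2; 150 lines).  FD.  `A`, `A'` are paths from `t₁` to `v` in `N_B = del R (insert t₃ (vs B))`.  `A + vt₃` is a path from `t₁` to `t₃` in `del R (insert t₂ (vs B))`, so (VF1) `ψ (c4c … A B) = w0 + ω (t₃v) + Σ_{h ∈ A} ω h`.  bead_moves in `N_B`: a move from `A₀ ∪ R₀ ∪ D₀` to `A₀ ∪ B₀ ∪ D₀` (`A₀` from `t₁` to `x`, `R₀`, `B₀` from `x` to `y`, `D₀` from `y` to `v`)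
changes the sum by `Σ_{R₀ ∪ B₀} ω = 0` by VF3 with `σ = A₀`, `c = x`, `Z = R₀ ∪ B₀`, `z = y`.  `B`: the same for `(t₂, t₁, w, v)` (VLC.symm, VRV). -/
structure SpecVFD : Prop where
  A : ∀ {α : Type} [Fintype α] [DecidableEq α] {R : SimpleGraph α} {t₁ t₂ t₃ v w : α} {ψ : Finset (Sym2 α) → ZMod 2}
    {A A' B : Finset (Sym2 α)}, C1 R → ConnOff R {t₁, t₂, t₃} → Trg R t₁ t₂ t₃ → KCH R t₁ t₂ t₃ ψ → IV R t₁ t₂ t₃ ψ →
    LNK R t₁ t₂ t₃ v w A B → LNK R t₁ t₂ t₃ v w A' B → ψ (c4c t₁ t₂ t₃ v w A B) = ψ (c4c t₁ t₂ t₃ v w A' B)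
  B : ∀ {α : Type} [Fintype α] [DecidableEq α] {R : SimpleGraph α} {t₁ t₂ t₃ v w : α} {ψ : Finset (Sym2 α) → ZMod 2}
    {A B B' : Finset (Sym2 α)}, C1 R → ConnOff R {t₁, t₂, t₃} → Trg R t₁ t₂ t₃ → KCH R t₁ t₂ t₃ ψ → IV R t₁ t₂ t₃ ψ →
    LNK R t₁ t₂ t₃ v w A B → LNK R t₁ t₂ t₃ v w A B' → ψ (c4c t₁ t₂ t₃ v w A B) = ψ (c4c t₁ t₂ t₃ v w A B')

/-! ## C. The value does not depend on the linkage -/

/-- the quotient graph by the map `c` -/
def quo {α : Type} (G : SimpleGraph α) (c : α → α) : SimpleGraph α where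
  Adj u w := u ≠ w ∧ ∃ x y, c x = u ∧ c y = w ∧ G.Adj x y
  symm := ⟨fun _ _ h => ⟨h.1.symm, by
    obtain ⟨x, y, h1, h2, h3⟩ := h.2
    exact ⟨y, x, h2, h1, h3.symm⟩⟩⟩
  loopless := ⟨fun _ h => h.1 rfl⟩

/-- the edges of `G` inside the fibres of `c` -/
def fib {α : Type} (G : SimpleGraph α) (c : α → α) : SimpleGraph α where
  Adj u w := G.Adj u w ∧ c u = c w
  symm := ⟨fun _ _ h => ⟨h.1.symm, h.2.symm⟩⟩
  loopless := ⟨fun _ h => h.1.ne rfl⟩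

/-- **VMC** (from CTA, CTF, TRE, PC; 250 lines).  Contraction of trees.  The fibres of `c` are trees of `G`, between two different fibres there is at most one edge.  A function `f ∈ F(G)` gives a function `g ∈ F(G/c)`.  Induction on the number of `x` with `c x ≠ x`.  `0`: `quo G c = G`, `g = f`.  Otherwise let `c b ≠ b`; a path of `fib G c` from `b` to `c b` gives `a` with `G.Adj a b`, `c a =
c b`.  `a`, `b` have no common neighbour `x`: `c x = c a` would be a triangle in `fib G c`, `c x ≠ c a` two edges between the same fibres.  `G' = contr G a b`, `c' x := if x = b then b else c x` (`c x ≠ b` for all `x`).  `fib G' c'` is acyclic (`= contr (fib G c) a b`; TRE.z1 and CTA as in CTD), every `x` is connected to `c' x`, edges between different fibres are unique, `quo G'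
c' = quo G c`.  By CTA.cl choose for every cycle `D'` of `G'` a cycle `C ∈ CycM G a b` with `chi C = lft G a b (chi D')`, `f' D' := f C`; CTF.down: `InF G' f'`.  By induction `g`; `D ↦ D' ↦ C`.  For an edge `xy` of `G` with `c x ≠ c y`: `s(x, y) ∈ C ↔ s(mrg a b x, mrg a b y) ∈ D'` (`lft`) `↔ s(c x, c y) ∈ D`. -/
def SpecVMC : Prop := ∀ {α : Type} [Fintype α] [DecidableEq α] {G : SimpleGraph α} {c : α → α},
  (∀ x, c (c x) = c x) → (fib G c).IsAcyclic → (∀ x, (fib G c).Reachable x (c x)) →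
  (∀ x y x' y', G.Adj x y → G.Adj x' y' → c x = c x' → c y = c y' → c x ≠ c y → x = x' ∧ y = y') →
  ∀ f, InF G f → ∃ g, InF (quo G c) g ∧ ∀ D, IsCyc (quo G c) D → ∃ C, IsCyc G C ∧ g D = f C ∧
    ∀ x y, G.Adj x y → c x ≠ c y → (s(x, y) ∈ C ↔ s(c x, c y) ∈ D)

/-- `K_{3,4}` (leaves `0, 1, 2, 3`, hubs `4, 5, 6`) with the edge `02` -/
def K7 (i j : Fin 7) : Prop := (i.val < 4 ∧ 4 ≤ j.val) ∨ (j.val < 4 ∧ 4 ≤ i.val) ∨ (i = 0 ∧ j = 2) ∨ (i = 2 ∧ j = 0)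

/-- **VKR** (from POL, BASE library of helper59/helper19 (Tr, Chk, Coh), PC, PC2; 300 lines).  One relation of `F(K_{3,4} + e)^⊥`: every function of `F` has sum `0` over the 24 cycles (digits = vertices, closed up)
`0435 0536 1425 1526 02415 02416 02436 02534 02536 02614 02615 02634 041625 041635 043625 052416 052436 053416 143625 152436 0243615 0253416 0253614 0263415`: every product of at most three edge coordinates and every coherence function of two edges is `1` on an even number of them (checked by program).  Among them only `0253614` and `0243615` contain `02`, not `06`, `26`, and pass through `6`. -/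
def SpecVKR : Prop := ∀ {α : Type} [Fintype α] [DecidableEq α] {G : SimpleGraph α} (a : Fin 7 → α),
  Function.Injective a → (∀ x y, G.Adj x y ↔ ∃ i j, K7 i j ∧ x = a i ∧ y = a j) → ∀ g, InF G g →
  (∀ C, IsCyc G C → g C ≠ 0 → s(a 0, a 2) ∈ C ∧ s(a 0, a 6) ∉ C ∧ s(a 2, a 6) ∉ C ∧ a 6 ∈ vs C) →
  g {s(a 0, a 4), s(a 4, a 1), s(a 1, a 6), s(a 6, a 3), s(a 3, a 5), s(a 5, a 2), s(a 0, a 2)} =
    g {s(a 0, a 5), s(a 5, a 1), s(a 1, a 6), s(a 6, a 3), s(a 3, a 4), s(a 4, a 2), s(a 0, a 2)}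

/-- **VKQ** (from VMC, VKR, VCS, PC; 350 lines).  A `K_{3,4}` in `R` with the hubs `A`, `B`, `{t₃}`.  Choose spanning trees `T_i` of `L i`, `T_A`, `T_B` (VCS.ext from one vertex) and edges `l_i a_i`, `l_i' b_i` from `L i` to `A`, `B` (in `N = del R {t₃}`).  `G₀` := the graph of the tree edges, the eight edges `l_i a_i`, `l_i' b_i`, and `t₁t₂`, `t₃t₁`, `t₃v`, `t₃t₂`, `t₃w`; `G₀ ≤ R`, so `InF G₀ ψ`.  `c` maps `L 0, …, L 3`
to `t₁, v, t₂, w`, `A` to `r_A ∈ A`, `B` to `r_B ∈ B`, and is the identity elsewhere.  VMC: `g` on `quo G₀ c`, which is the graph of VKR for `a = ![t₁, v, t₂, w, r_A, r_B, t₃]`.  The edges `t₁t₂`, `t_i t₃` are edges of `G₀` between different fibres mapped to `a 0 a 2`, …, and `t₃ ∈ vs C ↔ a 6 ∈ vs D` (the edges of `G₀` at `t₃` are four edges between different fibres).  So (IV) `g D ≠ 0` only for the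
cycles as in VKR, and `g (D₁) = g (D₂)` for the two cycles of VKR; let `C₁`, `C₂` be the corresponding cycles of `G₀`.  The edges of `C₁` are tree edges or `t₁t₂, vt₃, t₃w` or over `a 0 a 4`, `a 4 a 1`, `a 3 a 5`, `a 5 a 2`: the edges between `L 0`, `A`, `L 1` or between `L 2`, `B`, `L 3`.  `C₂`: the same with `A`, `B` exchanged. -/
def SpecVKQ : Prop := ∀ {α : Type} [Fintype α] [DecidableEq α] {R : SimpleGraph α} {t₁ t₂ t₃ v w : α}
  {ψ : Finset (Sym2 α) → ZMod 2} {L : Fin 4 → Finset α} {A B : Finset α}, Trg R t₁ t₂ t₃ → R.Adj t₃ v → R.Adj t₃ w →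
  InF R ψ → IV R t₁ t₂ t₃ ψ → HUB (del R {t₃}) ![t₁, v, t₂, w] L A B →
  ∃ C₁ C₂, IsCyc R C₁ ∧ IsCyc R C₂ ∧ ψ C₁ = ψ C₂ ∧
    (s(t₁, t₂) ∈ C₁ ∧ s(t₃, v) ∈ C₁ ∧ s(t₃, w) ∈ C₁ ∧ ∀ x y, s(x, y) ∈ C₁ → s(x, y) ≠ s(t₁, t₂) → x ≠ t₃ → y ≠ t₃ →
      (x ∈ L 0 ∪ A ∪ L 1 ∧ y ∈ L 0 ∪ A ∪ L 1) ∨ (x ∈ L 2 ∪ B ∪ L 3 ∧ y ∈ L 2 ∪ B ∪ L 3)) ∧
    (s(t₁, t₂) ∈ C₂ ∧ s(t₃, v) ∈ C₂ ∧ s(t₃, w) ∈ C₂ ∧ ∀ x y, s(x, y) ∈ C₂ → s(x, y) ≠ s(t₁, t₂) → x ≠ t₃ → y ≠ t₃ →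
      (x ∈ L 0 ∪ B ∪ L 1 ∧ y ∈ L 0 ∪ B ∪ L 1) ∨ (x ∈ L 2 ∪ A ∪ L 3 ∧ y ∈ L 2 ∪ A ∪ L 3))

/-- **VK2** (from VKQ, VLC, PC; 150 lines).  `C₁` is a cycle of type IV (a cycle has only two edges at `t₃`, so `t₁t₃, t₂t₃ ∉ C₁`), VLC.dec: `C₁ = c4c … v' w' A₁ B₁`, `{v', w'} = {v, w}`.  `A₁` is a path from `t₁ ∈ L 0` avoiding `t₂, t₃`, all its edges are in `C₁` and `≠ t₁t₂`, so its vertices are in `L 0 ∪ A ∪ L 1` (the two unions are disjoint); it does not contain `w ∈ L 3`, so `v' = v`,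
`w' = w`.  In the same way `vs B₁ ⊆ L 2 ∪ B ∪ L 3`.  The same for `C₂`. -/
def SpecVK2 : Prop := ∀ {α : Type} [Fintype α] [DecidableEq α] {R : SimpleGraph α} {t₁ t₂ t₃ v w : α}
  {ψ : Finset (Sym2 α) → ZMod 2} {L : Fin 4 → Finset α} {A B : Finset α}, Trg R t₁ t₂ t₃ → R.Adj t₃ v → R.Adj t₃ w →
  v ≠ t₁ → w ≠ t₂ → InF R ψ → IV R t₁ t₂ t₃ ψ → HUB (del R {t₃}) ![t₁, v, t₂, w] L A B →
  ∃ A₁ B₁ A₂ B₂, LNK R t₁ t₂ t₃ v w A₁ B₁ ∧ LNK R t₁ t₂ t₃ v w A₂ B₂ ∧ vs A₁ ⊆ L 0 ∪ A ∪ L 1 ∧ vs B₁ ⊆ L 2 ∪ B ∪ L 3 ∧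
    vs A₂ ⊆ L 0 ∪ B ∪ L 1 ∧ vs B₂ ⊆ L 2 ∪ A ∪ L 3 ∧ ψ (c4c t₁ t₂ t₃ v w A₁ B₁) = ψ (c4c t₁ t₂ t₃ v w A₂ B₂)

/-- **VCV** (from VFD, VK2, VRE, VLC, VCS; 200 lines).  The value of a linkage depends only on `v`, `w`.  Fix `v`, `w`; `N = del R {t₃}`.  For `LPR N t₁ v t₂ w S₁ S₂` there is a linkage `A`, `B` with `vs A ⊆ S₁`, `vs B ⊆ S₂` (VCS.pth), and its value does not depend on the choice (VFD.A, .B: two such linkages `(A, B)`, `(A', B')`: `(A', B)` is one too): `κ S₁ S₂` := this value (`0` if there is none).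
`mono`: clear.  `swap`: VK2.  VRE: `κ` is constant; `κ (vs A) (vs B) = ψ (c4c … A B)`. -/
def SpecVCV : Prop := ∀ {α : Type} [Fintype α] [DecidableEq α] {R : SimpleGraph α} {t₁ t₂ t₃ : α}
  {ψ : Finset (Sym2 α) → ZMod 2}, C1 R → ConnOff R {t₁, t₂, t₃} → Trg R t₁ t₂ t₃ → InF R ψ → KCH R t₁ t₂ t₃ ψ →
  IV R t₁ t₂ t₃ ψ → ∃ c : α → α → ZMod 2, ∀ v w A B, LNK R t₁ t₂ t₃ v w A B → ψ (c4c t₁ t₂ t₃ v w A B) = c v w

/-! ## D. Squares and triangles -/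

/-- **VSQ** (from FEV, DCB, VCS, VLC, TREE, PC; 300 lines).  SQUARE.  If `a = x` or `b = y` trivial.  `D_4` minor of `R`: `X 0 = {t₁, t₂}` (tree `t₁t₂`), `X 1 = P`, `X 2 = {t₃}`, `X 3 = Q` (spanning trees); `0 → 1`: `t₁p₁ | t₂p₂` (`p_i ∈ P` adjacent to `t_i`), `1 → 2`: `at₃ | xt₃`, `2 → 3`: `t₃b | t₃y`, `3 → 0`: `q₁t₁ | q₂t₂`.  FEV: `ψ` is `D_4`-even.  The 8 cycles which use `t₁p₁, q₁t₁` or `t₂p₂, q₂t₂` do not contain `t₁t₂`:
`ψ = 0`.  The others are of type IV: with `t₁p₁`, `q₂t₂`, `g ∈ {a, x}`, `h ∈ {b, y}`: `c4c` of the linkage `t₁ p₁ … g`, `t₂ q₂ … h`: value `c g h`; with `t₂p₂`, `q₁t₁`: `c4c` of `t₁ q₁ … h`, `t₂ p₂ … g`: `c h g`. -/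
def SpecVSQ : Prop := ∀ {α : Type} [Fintype α] [DecidableEq α] {R : SimpleGraph α} {t₁ t₂ t₃ : α}
  {ψ : Finset (Sym2 α) → ZMod 2} {c : α → α → ZMod 2} {P Q : Finset α} {a x b y : α}, Trg R t₁ t₂ t₃ → InF R ψ →
  IV R t₁ t₂ t₃ ψ → (∀ v w A B, LNK R t₁ t₂ t₃ v w A B → ψ (c4c t₁ t₂ t₃ v w A B) = c v w) → HPR R t₁ t₂ t₃ P Q →
  a ∈ P → x ∈ P → b ∈ Q → y ∈ Q → R.Adj t₃ a → R.Adj t₃ x → R.Adj t₃ b → R.Adj t₃ y →
  (c a b + c b a) + (c a y + c y a) + ((c x b + c b x) + (c x y + c y x)) = 0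

/-- **VTR** (from FEV, DCB, VCS, VLC, TREE, TRE, PC; 350 lines).  TRIANGLE.  `N = del R {t₃}`; no set of the `K23` contains `t₃`.  `D_4` minor of `R`: `X 0 = T₁ ∪ T₂` (tree: spanning trees and `t₁t₂`), `X 1 = U`, `X 2 = X ∪ {t₃}` (spanning tree and `xt₃`), `X 3 = W`; `0 → 1`: edges from `T₁` and from `T₂` to `U`; `1 → 2`: an edge from `U` to `X`, and `ut₃`; `2 → 3`: an edge from `X` to `W`, and `t₃w`; `3 → 0`: edges from
`W` to `T₂` and to `T₁`.  The cycles which enter and leave `X 0` both at `T₁` or both at `T₂` do not contain `t₁t₂` (the tree path stays in `T_i`): `ψ = 0`.  The others contain `t₁t₂`, and not `t₁t₃, t₂t₃`.  If they pass `U → X → W` they avoid `t₃` (it is a leaf of the tree of `X 2`): `ψ = 0`.  `U → X … x t₃ → w`: a linkage with `x`, `w`: value `c x w` (`T₁`-`U`, `W`-`T₂`) or `c w x` (`T₂`-`U`,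
`W`-`T₁`); `u → t₃ x … X → W`: `c u x`, `c x u`; `u → t₃ → w`: `c u w`, `c w u`. -/
def SpecVTR : Prop := ∀ {α : Type} [Fintype α] [DecidableEq α] {R : SimpleGraph α} {t₁ t₂ t₃ : α}
  {ψ : Finset (Sym2 α) → ZMod 2} {c : α → α → ZMod 2} {x u w : α} {T₁ T₂ X U W : Finset α}, Trg R t₁ t₂ t₃ → InF R ψ →
  IV R t₁ t₂ t₃ ψ → (∀ v w A B, LNK R t₁ t₂ t₃ v w A B → ψ (c4c t₁ t₂ t₃ v w A B) = c v w) →
  K23 (del R {t₃}) t₁ t₂ x u w T₁ T₂ X U W → R.Adj t₃ x → R.Adj t₃ u → R.Adj t₃ w →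
  (c x u + c u x) + (c x w + c w x) + (c u w + c w u) = 0

/-- `v` and `w` are separated by an H-partition -/
def HSP {α : Type} [Fintype α] [DecidableEq α] (R : SimpleGraph α) (t₁ t₂ t₃ v w : α) : Prop :=
  ∃ P Q, HPR R t₁ t₂ t₃ P Q ∧ v ∈ P ∧ w ∈ Q

/-- **VTT** (from V3L, VTR; 150 lines).  Three vertices pairwise separated.  Each of the three H-partitions has exactly one of `v₁, v₂, v₃` on one side and two on the other one: it ISOLATES a vertex; the one separating `v_i`, `v_j` isolates `v_i` or `v_j`.  So at least two different vertices `v_i`, `v_j` are isolated by some of them: with the third one `v_k`: `R3D (del R {t₃}) t₁ t₂ v_k v_i v_j` (`(P, Q)` isolates `v_i ∈ Q`, `(P', Q')` isolates `v_j ∈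
Q'`; the sets avoid `t₁, t₂, t₃`, so they are connected in `del R {t₃}`).  V3L, VTR; the relation is symmetric in the three vertices. -/
def SpecVTT : Prop := ∀ {α : Type} [Fintype α] [DecidableEq α] {R : SimpleGraph α} {t₁ t₂ t₃ : α}
  {ψ : Finset (Sym2 α) → ZMod 2} {c : α → α → ZMod 2} {v₁ v₂ v₃ : α}, Trg R t₁ t₂ t₃ → InF R ψ →
  IV R t₁ t₂ t₃ ψ → (∀ v w A B, LNK R t₁ t₂ t₃ v w A B → ψ (c4c t₁ t₂ t₃ v w A B) = c v w) →
  R.Adj t₃ v₁ → R.Adj t₃ v₂ → R.Adj t₃ v₃ → HSP R t₁ t₂ t₃ v₁ v₂ → HSP R t₁ t₂ t₃ v₂ v₃ → HSP R t₁ t₂ t₃ v₁ v₃ →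
  (c v₁ v₂ + c v₂ v₁) + (c v₁ v₃ + c v₃ v₁) + (c v₂ v₃ + c v₃ v₂) = 0

/-- **VMU** (pure combinatorics; 200 lines).  A family `F` of partitions (`F P Q`) of a set `S`; `sp v w` := some partition has `v ∈ P`, `w ∈ Q`.  `ν` symmetric, with the square and the triangle relations.  Not being separated is transitive on `S`: if `F P Q`, `a ∈ P`, `c ∈ Q` then `b` is in `P` or `Q`, so it is separated from `c` or from `a`.  Write `[a]` for the set of the `x ∈ S` not separated from `a`.  If no two elements are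
separated: `μ = 0`.  Otherwise fix `a`, `b` separated; `μ x := ν a x` if `a`, `x` are separated, `ν b x + ν a b` otherwise (then `b`, `x` are separated); so `μ a = 0` (`ν b a + ν a b`).  Let `x`, `y` be separated.  (i) both separated from `a`: triangle `a, x, y`.  (ii) `x ∈ [a]` (then `y ∉ [a]`): to show `ν x y = ν b x + ν a b + ν a y`.  If `y ∈ [b]`: a partition separating `a` from `b` has `x` on the side of `a` and `y` on
the side of `b`: square `a, x | b, y`.  If `y ∉ [b]`: triangles `a, b, y` and `x, b, y`.  (iii) `y ∈ [a]`: the same. -/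
def SpecVMU : Prop := ∀ {α : Type} [Fintype α] [DecidableEq α] (S : Finset α) (F : Finset α → Finset α → Prop)
  (ν : α → α → ZMod 2), (∀ v w, ν v w = ν w v) → (∀ P Q, F P Q → F Q P) → (∀ P Q, F P Q → S ⊆ P ∪ Q) →
  (∀ P Q, F P Q → Disjoint P Q) →
  (∀ P Q a x b y, F P Q → a ∈ P → x ∈ P → b ∈ Q → y ∈ Q → a ∈ S → x ∈ S → b ∈ S → y ∈ S →
    ν a b + ν a y + (ν x b + ν x y) = 0) →
  (∀ v₁ v₂ v₃, v₁ ∈ S → v₂ ∈ S → v₃ ∈ S → (∃ P Q, F P Q ∧ v₁ ∈ P ∧ v₂ ∈ Q) → (∃ P Q, F P Q ∧ v₂ ∈ P ∧ v₃ ∈ Q) →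
    (∃ P Q, F P Q ∧ v₁ ∈ P ∧ v₃ ∈ Q) → ν v₁ v₂ + ν v₁ v₃ + ν v₂ v₃ = 0) →
  ∃ μ : α → ZMod 2, ∀ v ∈ S, ∀ w ∈ S, (∃ P Q, F P Q ∧ v ∈ P ∧ w ∈ Q) → ν v w = μ v + μ w

/-- **VLI** (from VCV, VRG, VHP, VSQ, VTT, VMU, VLC, VCS; 200 lines).  LEMMA IV.  `c` as in VCV.  `S` := the neighbours of `t₃` other than `t₁`, `t₂`; VMU with `F = HPR R t₁ t₂ t₃`, `ν v w = c v w + c w v` (VSQ, VTT; `S ⊆ VS R \ {t₁, t₂, t₃}`): `μ`, with `μ := 0` outside `S`.  If there are linkages for `(v, w)` and for `(w, v)` then `v`, `w` are separated (VRG for `N = del R {t₃}`, `S₁ = vs A`, … (VCS.cpth); VHP), so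
`c v w + c w v = μ v + μ w` (*).  Fix an injection `r : α → ℕ`.  For `r v < r w` let `s v w := c v w + μ w` if there is a linkage for `(v, w)`, otherwise `c w v + μ v` if there is one for `(w, v)`, otherwise `0`; `s v w := 0` if not `r v < r w`.  On a cycle with `t₁t₂`, without `t₁t₃`, `t₂t₃`: if it does not pass through `t₃` both sides are `0` (IV); otherwise VLC.dec: `ψ = c v w`, and by VLC.loc `loc3 … s μ = s v v + s w w + s v w + s w v +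
μ w = c v w`: if `r v < r w` by definition, if `r w < r v`: `s w v = c w v + μ v` if there is a linkage for `(w, v)`, `= c v w + μ w` by (*), otherwise `s w v = c v w + μ w` by definition. -/
def SpecVLI : Prop := SpecLIV

end DL
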