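import Pool.Agent.DL.Y.SpecU
import Pool.Agent.DL.EX.VRS
import Pool.Agent.DL.PC2

/-!
# MP_3ff0f8_gt, algebra half, Step Y, module YKF (helper57): 3-bead chains and one edge of the triangle
-/

set_option autoImplicit false

open SimpleGraph Finset

namespace DL

namespace YKFM

variable {α : Type} [Fintype α] [DecidableEq α] {G : SimpleGraph α} {b t₁ t₂ t₃ : α}

omit [Fintype α] [DecidableEq α] in
theorem mem_eq {x y : α} {S : Finset α} (h : x = y) (hy : y ∈ S) : x ∈ S := h ▸ hy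

theorem reo {β : Type} [DecidableEq β] (a0 a1 a2 a3 : β) (P0 P1 P2 P3 : Finset β) :
    insert a0 (P1 ∪ {a1} ∪ P2 ∪ {a2} ∪ P3 ∪ {a3} ∪ P0) =
      insert a3 (P0 ∪ {a0} ∪ P1 ∪ {a1} ∪ P2 ∪ ({a2} ∪ P3)) := by
  rw [insert_eq, insert_eq]
  ac_rfl

theorem reo2 {β : Type} [DecidableEq β] (a0 a1 a2 a3 c : β) (P0 P1 P2 : Finset β) :
    insert a0 (P1 ∪ {a1} ∪ P2 ∪ {a2} ∪ {c} ∪ {a3} ∪ P0) =
      insert c (insert a2 (insert a3 (P0 ∪ {a0} ∪ P1 ∪ {a1} ∪ P2))) := by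
  rw [insert_eq, insert_eq, insert_eq, insert_eq]
  ac_rfl

/-- the data: `K` is the chain -/
structure Dat (G : SimpleGraph α) (b t₁ t₂ t₃ : α) where
  hc : Cub G b t₁ t₂ t₃
  h12 : G.Adj t₁ t₂
  h13 : ¬ G.Adj t₁ t₃
  h23 : ¬ G.Adj t₂ t₃
  K : Ch3 (delE (yd G b t₁ t₂ t₃) t₁ t₂) t₁ t₂
  hp : K.p 2 false = t₃
  hq : K.q 2 false = t₂

namespace Dat

variable (D : Dat G b t₁ t₂ t₃)

include D

omit [Fintype α] in
theorem nb1 : b ≠ t₁ := ((D.hc.nb t₁).2 (Or.inl rfl)).ne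
omit [Fintype α] in
theorem nb2 : b ≠ t₂ := ((D.hc.nb t₂).2 (Or.inr (Or.inl rfl))).ne
omit [Fintype α] in
theorem nb3 : b ≠ t₃ := ((D.hc.nb t₃).2 (Or.inr (Or.inr rfl))).ne

omit [Fintype α] in
/-- adjacency in `R - e12` -/
theorem jadj {u v : α} (h : (delE (yd G b t₁ t₂ t₃) t₁ t₂).Adj u v) :
    u ≠ b ∧ v ≠ b ∧ s(u, v) ≠ s(t₁, t₂) ∧
      (G.Adj u v ∨ s(u, v) = s(t₁, t₃) ∨ s(u, v) = s(t₂, t₃)) := by
  rw [delE, deleteEdges_adj] at h
  obtain ⟨h, hne⟩ := h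
  rw [Set.mem_singleton_iff] at hne
  rw [yd, sup_adj] at h
  rcases h with h | h
  · have h1 : G.Adj u v ∧ u ∉ ({b} : Finset α) ∧ v ∉ ({b} : Finset α) := h
    exact ⟨fun e => h1.2.1 (mem_singleton.2 e), fun e => h1.2.2 (mem_singleton.2 e), hne,
      Or.inl h1.1⟩
  · rw [fromEdgeSet_adj] at h
    have h1 := h.1
    rw [mem_coe, TrE, mem_insert, mem_insert, mem_singleton] at h1
    rcases h1 with h1 | h1 | h1
    · exact absurd h1 hne
    · refine ⟨?_, ?_, hne, Or.inr (Or.inl h1)⟩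
      · rintro rfl
        have h2 : u ∈ s(t₁, t₃) := h1 ▸ Sym2.mem_mk_left u v
        rw [Sym2.mem_iff] at h2
        exact h2.elim D.nb1 D.nb3
      · rintro rfl
        have h2 : v ∈ s(t₁, t₃) := h1 ▸ Sym2.mem_mk_right u v
        rw [Sym2.mem_iff] at h2
        exact h2.elim D.nb1 D.nb3
    · refine ⟨?_, ?_, hne, Or.inr (Or.inr h1)⟩
      · rintro rfl
        have h2 : u ∈ s(t₂, t₃) := h1 ▸ Sym2.mem_mk_left u v
        rw [Sym2.mem_iff] at h2
        exact h2.elim D.nb2 D.nb3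
      · rintro rfl
        have h2 : v ∈ s(t₂, t₃) := h1 ▸ Sym2.mem_mk_right u v
        rw [Sym2.mem_iff] at h2
        exact h2.elim D.nb2 D.nb3

omit [Fintype α] in
theorem x3 : t₃ ∈ D.K.X 2 := by
  have := D.K.pX 2 false
  rw [D.hp] at this
  exact this

omit [Fintype α] in
/-- a vertex is in at most one set -/
theorem uniq {v : α} {i j : Fin 4} (hi : v ∈ D.K.X i) (hj : v ∈ D.K.X j) : i = j := by
  by_contra h
  exact disjoint_left.1 (D.K.disj i j h) hi hj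

omit [Fintype α] in
theorem hT (i : Fin 4) : D.K.T i ≤ G := by
  intro u v huv
  have h1 := D.jadj (D.K.sub i huv)
  have hu := D.K.inX i u v huv
  have hv := D.K.inX i v u huv.symm
  rcases h1.2.2.2 with h | h | h
  · exact h
  · exfalso
    rw [Sym2.eq_iff] at h
    rcases h with ⟨rfl, rfl⟩ | ⟨rfl, rfl⟩
    · have := D.uniq (hu : u ∈ _) D.K.sX
      have h2 := D.uniq hv D.x3
      rw [this] at h2
      exact absurd h2 (by decide)
    · have := D.uniq hv D.K.sX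
      have h2 := D.uniq hu D.x3
      rw [this] at h2
      exact absurd h2 (by decide)
  · exfalso
    rw [Sym2.eq_iff] at h
    rcases h with ⟨rfl, rfl⟩ | ⟨rfl, rfl⟩
    · have := D.uniq hu D.K.tX
      have h2 := D.uniq hv D.x3
      rw [this] at h2
      exact absurd h2 (by decide)
    · have := D.uniq hv D.K.tX
      have h2 := D.uniq hu D.x3
      rw [this] at h2
      exact absurd h2 (by decide)

omit [Fintype α] in
theorem bead (i : Fin 3) (c : Bool) (hic : ¬ (i = 2 ∧ c = false)) :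
    G.Adj (D.K.p i c) (D.K.q i c) := by
  have h1 := D.jadj (D.K.adj i c)
  have hu := D.K.pX i c
  have hv := D.K.qX i c
  rcases h1.2.2.2 with h | h | h
  · exact h
  · exfalso
    rw [Sym2.eq_iff] at h
    rcases h with ⟨e1, e2⟩ | ⟨e1, e2⟩
    · rw [e1] at hu
      rw [e2] at hv
      have h3 := D.uniq hu D.K.sX
      have h4 := D.uniq hv D.x3
      revert h3 h4
      fin_cases i <;> decide
    · rw [e1] at hu
      rw [e2] at hv
      have h3 := D.uniq hv D.K.sX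
      have h4 := D.uniq hu D.x3
      revert h3 h4
      fin_cases i <;> decide
  · exfalso
    have hi : i = 2 := by
      rw [Sym2.eq_iff] at h
      rcases h with ⟨e1, e2⟩ | ⟨e1, e2⟩
      · rw [e1] at hu
        rw [e2] at hv
        have h3 := D.uniq hu D.K.tX
        have h4 := D.uniq hv D.x3
        revert h3 h4
        fin_cases i <;> decide
      · rw [e1] at hu
        rw [e2] at hv
        have h4 := D.uniq hu D.x3
        revert h4
        fin_cases i <;> decide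
    subst hi
    have hct : c = true := by
      cases c
      · exact absurd ⟨rfl, rfl⟩ hic
      · rfl
    subst hct
    apply D.K.ne 2
    rw [D.hp, D.hq, h, Sym2.eq_swap]

omit [Fintype α] in
/-- `b` is in no set -/
theorem hb (i : Fin 4) : b ∉ D.K.X i := by
  intro hbi
  -- a vertex of `X i` which is not `b`
  obtain ⟨v, hv, hvb⟩ : ∃ v ∈ D.K.X i, v ≠ b := by
    fin_cases i
    · exact ⟨t₁, D.K.sX, D.nb1.symm⟩
    · exact ⟨_, D.K.pX 1 false, (D.jadj (D.K.adj 1 false)).1⟩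
    · exact ⟨t₃, D.x3, D.nb3.symm⟩
    · exact ⟨t₂, D.K.tX, D.nb2.symm⟩
  obtain ⟨w⟩ := D.K.conn i b hbi v hv
  cases w with
  | nil => exact hvb rfl
  | cons h _ => exact (D.jadj (D.K.sub i h)).1 rfl

/-- the `D_4` minor -/
def md (hTRE : SpecTRE) : D4M G where
  X := ![D.K.X 0, D.K.X 1, D.K.X 2, insert b (D.K.X 3)]
  disj := by
    have h : ∀ i j : Fin 4, i ≠ j → Disjoint (D.K.X i) (D.K.X j) := D.K.disj
    have hb' : ∀ i : Fin 4, ∀ S : Finset α, Disjoint (D.K.X i) S → Disjoint (D.K.X i) (insert b S) :=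
      fun i S hS => disjoint_insert_right.2 ⟨D.hb i, hS⟩
    intro i j hij
    fin_cases i <;> fin_cases j <;> first
      | exact absurd rfl hij
      | exact h _ _ (by decide)
      | exact hb' _ _ (h _ _ (by decide))
      | exact (hb' _ _ (h _ _ (by decide))).symm
  T := ![D.K.T 0, D.K.T 1, D.K.T 2, D.K.T 3 ⊔ fromEdgeSet {s(t₂, b)}]
  sub := by
    intro i
    fin_cases i
    · exact D.hT 0
    · exact D.hT 1
    · exact D.hT 2
    · refine sup_le (D.hT 3) ?_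
      intro u v huv
      rw [fromEdgeSet_adj, Set.mem_singleton_iff, Sym2.eq_iff] at huv
      rcases huv.1 with ⟨rfl, rfl⟩ | ⟨rfl, rfl⟩
      · exact ((D.hc.nb _).2 (Or.inr (Or.inl rfl))).symm
      · exact (D.hc.nb _).2 (Or.inr (Or.inl rfl))
  inX := by
    intro i
    fin_cases i
    · exact D.K.inX 0
    · exact D.K.inX 1
    · exact D.K.inX 2
    · exact (hTRE.grow ⟨D.K.inX 3, D.K.conn 3, D.K.acyc 3⟩ D.K.tX (D.hb 3)).1.inX
  conn := by
    intro i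
    fin_cases i
    · exact D.K.conn 0
    · exact D.K.conn 1
    · exact D.K.conn 2
    · exact (hTRE.grow ⟨D.K.inX 3, D.K.conn 3, D.K.acyc 3⟩ D.K.tX (D.hb 3)).1.conn
  acyc := by
    intro i
    fin_cases i
    · exact D.K.acyc 0
    · exact D.K.acyc 1
    · exact D.K.acyc 2
    · exact (hTRE.grow ⟨D.K.inX 3, D.K.conn 3, D.K.acyc 3⟩ D.K.tX (D.hb 3)).1.acyc
  p := ![D.K.p 0, D.K.p 1, D.K.p 2, fun c => if c then b else t₂]
  q := ![D.K.q 0, D.K.q 1, fun c => if c then D.K.q 2 true else b, fun _ => t₁]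
  pX := by
    intro i c
    fin_cases i
    · exact D.K.pX 0 c
    · exact D.K.pX 1 c
    · exact D.K.pX 2 c
    · cases c
      · exact mem_insert_of_mem D.K.tX
      · exact mem_insert_self _ _
  qX := by
    intro i c
    fin_cases i
    · exact D.K.qX 0 c
    · exact D.K.qX 1 c
    · cases c
      · exact mem_insert_self _ _
      · exact mem_insert_of_mem (D.K.qX 2 true)
    · exact D.K.sX
  adj := by
    intro i c
    fin_cases i
    · exact D.bead 0 c (fun h => absurd h.1 (by decide))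
    · exact D.bead 1 c (fun h => absurd h.1 (by decide))
    · cases c
      · change G.Adj (D.K.p 2 false) b
        rw [D.hp]
        exact ((D.hc.nb _).2 (Or.inr (Or.inr rfl))).symm
      · exact D.bead 2 true (by decide)
    · cases c
      · exact D.h12.symm
      · exact (D.hc.nb _).2 (Or.inl rfl)
  ne := by
    intro i
    fin_cases i
    · exact D.K.ne 0
    · exact D.K.ne 1
    · intro h
      have h1 : b ∈ s(D.K.p 2 true, D.K.q 2 true) := by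
        change s(D.K.p 2 false, b) = s(D.K.p 2 true, D.K.q 2 true) at h
        rw [← h]
        exact Sym2.mem_mk_right _ _
      rw [Sym2.mem_iff] at h1
      have h2 := D.jadj (D.K.adj 2 true)
      exact h1.elim (fun e => h2.1 e.symm) (fun e => h2.2.1 e.symm)
    · intro h
      change s(t₂, t₁) = s(b, t₁) at h
      have h1 : b ∈ s(t₂, t₁) := by
        rw [h]
        exact Sym2.mem_mk_left _ _
      rw [Sym2.mem_iff] at h1
      exact h1.elim D.nb2 D.nb1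

/-- the first five pieces -/
noncomputable def A (e : Fin 3 → Bool) : Finset (Sym2 α) :=
  tp (D.K.T 0) t₁ (D.K.p 0 (e 0)) ∪ {s(D.K.p 0 (e 0), D.K.q 0 (e 0))} ∪
    tp (D.K.T 1) (D.K.q 0 (e 0)) (D.K.p 1 (e 1)) ∪ {s(D.K.p 1 (e 1), D.K.q 1 (e 1))} ∪
    tp (D.K.T 2) (D.K.q 1 (e 1)) (D.K.p 2 (e 2))

omit [Fintype α] in
theorem tree (i : Fin 4) : TreeOn (D.K.T i) (D.K.X i) := ⟨D.K.inX i, D.K.conn i, D.K.acyc i⟩

/-- edges of tree paths -/
theorem tp_edge (hTRE : SpecTRE) {i : Fin 4} {v w : α} (hv : v ∈ D.K.X i) (hw : w ∈ D.K.X i)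
    {x y : α} (h : s(x, y) ∈ tp (D.K.T i) v w) : G.Adj x y ∧ x ∈ D.K.X i ∧ y ∈ D.K.X i := by
  have h1 := ((hTRE.tp (D.tree i) v hv w hw).1).adj_of_mem h
  exact ⟨D.hT i h1, D.K.inX i _ _ h1, D.K.inX i _ _ h1.symm⟩

theorem A_edge (hTRE : SpecTRE) (e : Fin 3 → Bool) {x y : α} (h : s(x, y) ∈ D.A e) :
    G.Adj x y ∧ y ∉ D.K.X 3 := by
  have hn : ∀ i : Fin 4, i ≠ 3 → ∀ v, v ∈ D.K.X i → v ∉ D.K.X 3 :=
    fun i hi v hv hv' => hi (D.uniq hv hv')
  have hbd : ∀ i : Fin 3, ∀ c, i ≠ 2 → s(x, y) = s(D.K.p i c, D.K.q i c) →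
      G.Adj x y ∧ y ∉ D.K.X 3 := by
    intro i c hi hs
    have h1 := D.bead i c (fun h => hi h.1)
    have h2 := hn _ (by revert hi; fin_cases i <;> decide) _ (D.K.pX i c)
    have h3 := hn _ (by revert hi; fin_cases i <;> decide) _ (D.K.qX i c)
    rw [Sym2.eq_iff] at hs
    rcases hs with ⟨rfl, rfl⟩ | ⟨rfl, rfl⟩
    · exact ⟨h1, h3⟩
    · exact ⟨h1.symm, h2⟩
  simp only [A, mem_union, mem_singleton] at h
  rcases h with (((h | h) | h) | h) | h
  · have h1 := D.tp_edge hTRE D.K.sX (D.K.pX 0 _) h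
    exact ⟨h1.1, hn _ (by decide) _ h1.2.2⟩
  · exact hbd 0 _ (by decide) h
  · have h1 := D.tp_edge hTRE (D.K.qX 0 _) (D.K.pX 1 _) h
    exact ⟨h1.1, hn _ (by decide) _ h1.2.2⟩
  · exact hbd 1 _ (by decide) h
  · have h1 := D.tp_edge hTRE (D.K.qX 1 _) (D.K.pX 2 _) h
    exact ⟨h1.1, hn _ (by decide) _ h1.2.2⟩

theorem pth_eq (e : Fin 3 → Bool) : D.K.pth e = D.A e ∪ ({s(D.K.p 2 (e 2), D.K.q 2 (e 2))} ∪
    tp (D.K.T 3) (D.K.q 2 (e 2)) t₂) := by
  simp only [Ch3.pth, A, union_assoc]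

/-- the cycles of the minor -/
theorem cycTF (hTRE : SpecTRE) (e : Fin 4 → Bool) (h2 : e 2 = true) (h3 : e 3 = false) :
    (D.md hTRE).cyc e = insert s(t₁, t₂) (D.K.pth ![e 0, e 1, true]) := by
  have hg := hTRE.grow (D.tree 3) D.K.tX (D.hb 3)
  have ht : tp (D.K.T 3 ⊔ fromEdgeSet {s(t₂, b)}) (D.K.q 2 true) t₂ =
      tp (D.K.T 3) (D.K.q 2 true) t₂ :=
    hTRE.tpm (D.tree 3) hg.1 le_sup_left (subset_insert _ _) _ (D.K.qX 2 true) _ D.K.tX
  rw [DCBM.cyc_eq, pth_eq, A]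
  have e1 : (D.md hTRE).p 3 (e 3) = t₂ := by rw [h3]; rfl
  have e2 : (D.md hTRE).q 3 (e 3) = t₁ := rfl
  have e3 : (D.md hTRE).q 2 (e 2) = D.K.q 2 true := by rw [h2]; rfl
  have e4 : (D.md hTRE).p 2 (e 2) = D.K.p 2 true := by rw [h2]; rfl
  rw [e1, e2, e3, e4]
  have e5 : tp ((D.md hTRE).T 3) (D.K.q 2 true) t₂ = tp (D.K.T 3) (D.K.q 2 true) t₂ := ht
  rw [e5]
  have f0 : (D.md hTRE).T 0 = D.K.T 0 := rfl
  have f1 : (D.md hTRE).T 1 = D.K.T 1 := rfl
  have f2 : (D.md hTRE).T 2 = D.K.T 2 := rfl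
  have f3 : (D.md hTRE).p 0 (e 0) = D.K.p 0 (e 0) := rfl
  have f4 : (D.md hTRE).q 0 (e 0) = D.K.q 0 (e 0) := rfl
  have f5 : (D.md hTRE).p 1 (e 1) = D.K.p 1 (e 1) := rfl
  have f6 : (D.md hTRE).q 1 (e 1) = D.K.q 1 (e 1) := rfl
  rw [f0, f1, f2, f3, f4, f5, f6, reo, Sym2.eq_swap (a := t₂) (b := t₁)]
  rfl

theorem cycFF (hTRE : SpecTRE) (e : Fin 4 → Bool) (h2 : e 2 = false) (h3 : e 3 = false) :
    (D.md hTRE).cyc e = insert s(b, t₂) (insert s(b, t₃)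
      ((insert s(t₁, t₂) (D.K.pth ![e 0, e 1, false])).erase s(t₂, t₃))) := by
  have hg := hTRE.grow (D.tree 3) D.K.tX (D.hb 3)
  have hs : tp (D.K.T 3) t₂ t₂ = ∅ := by
    have := (hTRE.tp (D.tree 3) t₂ D.K.tX t₂ D.K.tX).1
    exact this.eq_empty
  have ht : tp (D.K.T 3 ⊔ fromEdgeSet {s(t₂, b)}) b t₂ = {s(t₂, b)} := by
    have h1 := hg.2 t₂ D.K.tX
    rw [hs] at h1
    have hbI : b ∈ insert b (D.K.X 3) := mem_insert_self _ _
    have htI : t₂ ∈ insert b (D.K.X 3) := mem_insert_of_mem D.K.tX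
    have h2 := (hTRE.tp hg.1 t₂ htI b hbI).1
    have h3 := (hTRE.tp hg.1 b hbI t₂ htI).2 _ h2.symm
    rw [← h3, h1]
    rfl
  have hA23 : s(t₂, t₃) ∉ D.A ![e 0, e 1, false] := fun h => D.h23 (D.A_edge hTRE _ h).1
  have n1 : s(t₁, t₂) ≠ s(t₂, t₃) := by
    intro h
    rw [Sym2.eq_iff] at h
    rcases h with ⟨h, _⟩ | ⟨h, _⟩
    · exact D.hc.n12 h
    · exact D.hc.n13 h
  rw [DCBM.cyc_eq, pth_eq]
  have e1 : (D.md hTRE).p 3 (e 3) = t₂ := by rw [h3]; rfl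
  have e2 : (D.md hTRE).q 3 (e 3) = t₁ := rfl
  have e3 : (D.md hTRE).q 2 (e 2) = b := by rw [h2]; rfl
  have e4 : (D.md hTRE).p 2 (e 2) = t₃ := by rw [h2]; exact D.hp
  rw [e1, e2, e3, e4]
  have e5 : tp ((D.md hTRE).T 3) b t₂ = {s(t₂, b)} := ht
  rw [e5]
  have f0 : (D.md hTRE).T 0 = D.K.T 0 := rfl
  have f1 : (D.md hTRE).T 1 = D.K.T 1 := rfl
  have f2 : (D.md hTRE).T 2 = D.K.T 2 := rfl
  have f3 : (D.md hTRE).p 0 (e 0) = D.K.p 0 (e 0) := rfl
  have f4 : (D.md hTRE).q 0 (e 0) = D.K.q 0 (e 0) := rfl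
  have f5 : (D.md hTRE).p 1 (e 1) = D.K.p 1 (e 1) := rfl
  have f6 : (D.md hTRE).q 1 (e 1) = D.K.q 1 (e 1) := rfl
  have g1 : (![e 0, e 1, false] : Fin 3 → Bool) 2 = false := rfl
  rw [f0, f1, f2, f3, f4, f5, f6, g1, D.hq, D.hp, hs, union_empty]
  have hA : D.A ![e 0, e 1, false] = tp (D.K.T 0) t₁ (D.K.p 0 (e 0)) ∪
      {s(D.K.p 0 (e 0), D.K.q 0 (e 0))} ∪ tp (D.K.T 1) (D.K.q 0 (e 0)) (D.K.p 1 (e 1)) ∪
      {s(D.K.p 1 (e 1), D.K.q 1 (e 1))} ∪ tp (D.K.T 2) (D.K.q 1 (e 1)) t₃ := by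
    have h7 : D.A ![e 0, e 1, false] = tp (D.K.T 0) t₁ (D.K.p 0 (e 0)) ∪
      {s(D.K.p 0 (e 0), D.K.q 0 (e 0))} ∪ tp (D.K.T 1) (D.K.q 0 (e 0)) (D.K.p 1 (e 1)) ∪
      {s(D.K.p 1 (e 1), D.K.q 1 (e 1))} ∪ tp (D.K.T 2) (D.K.q 1 (e 1)) (D.K.p 2 false) := rfl
    rw [h7, D.hp]
  have key : (insert s(t₁, t₂) (D.A ![e 0, e 1, false] ∪ {s(t₃, t₂)})).erase s(t₂, t₃) =
      insert s(t₁, t₂) (D.A ![e 0, e 1, false]) := by
    ext z
    rw [mem_erase, mem_insert, mem_union, mem_singleton, mem_insert,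
      Sym2.eq_swap (a := t₃) (b := t₂)]
    constructor
    · rintro ⟨h4, h5 | h5 | h5⟩
      · exact Or.inl h5
      · exact Or.inr h5
      · exact absurd h5 h4
    · rintro (rfl | h5)
      · exact ⟨n1, Or.inl rfl⟩
      · exact ⟨fun h6 => hA23 (h6 ▸ h5), Or.inr (Or.inl h5)⟩
  rw [key, hA, reo2, Sym2.eq_swap (a := t₂) (b := t₁), Sym2.eq_swap (a := t₂) (b := b),
    Sym2.eq_swap (a := t₃) (b := b)]

/-- the cycles which use `bt₁` do not contain `e12` -/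
theorem cycT (hTRE : SpecTRE) (e : Fin 4 → Bool) (h3 : e 3 = true) :
    s(t₁, t₂) ∉ (D.md hTRE).cyc e := by
  have u1 : ∀ i : Fin 4, i ≠ 0 → t₁ ∉ D.K.X i := fun i hi h => hi (D.uniq h D.K.sX)
  have u2 : ∀ i : Fin 4, i ≠ 3 → t₂ ∉ D.K.X i := fun i hi h => hi (D.uniq h D.K.tX)
  have m1 : t₁ ∈ s(t₁, t₂) := Sym2.mem_mk_left _ _
  have m2 : t₂ ∈ s(t₁, t₂) := Sym2.mem_mk_right _ _
  have hg := hTRE.grow (D.tree 3) D.K.tX (D.hb 3)
  rw [DCBM.cyc_eq]
  have e1 : (D.md hTRE).p 3 (e 3) = b := by rw [h3]; rfl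
  have e2 : (D.md hTRE).q 3 (e 3) = t₁ := rfl
  rw [e1, e2]
  simp only [mem_insert, mem_union, mem_singleton, not_or]
  have f3 : (D.md hTRE).p 0 (e 0) ∈ D.K.X 0 := D.K.pX 0 _
  have f4 : (D.md hTRE).q 0 (e 0) ∈ D.K.X 1 := D.K.qX 0 _
  have f5 : (D.md hTRE).p 1 (e 1) ∈ D.K.X 1 := D.K.pX 1 _
  have f6 : (D.md hTRE).q 1 (e 1) ∈ D.K.X 2 := D.K.qX 1 _
  have f7 : (D.md hTRE).p 2 (e 2) ∈ D.K.X 2 := D.K.pX 2 _
  have f8 : (D.md hTRE).q 2 (e 2) ∈ insert b (D.K.X 3) := (D.md hTRE).qX 2 (e 2)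
  have f9 : b ∈ insert b (D.K.X 3) := mem_insert_self _ _
  have n1 : t₁ ∉ insert b (D.K.X 3) := by
    rw [mem_insert, not_or]
    exact ⟨D.nb1.symm, u1 3 (by decide)⟩
  refine ⟨?_, ⟨⟨⟨⟨⟨⟨?_, ?_⟩, ?_⟩, ?_⟩, ?_⟩, ?_⟩, ?_⟩⟩
  · intro h
    rw [h, Sym2.mem_iff] at m2
    rcases m2 with m2 | m2
    · exact u2 0 (by decide) (mem_eq m2 f3)
    · exact u2 1 (by decide) (mem_eq m2 f4)
  · intro h
    exact u1 1 (by decide) (D.tp_edge hTRE f4 f5 h).2.1
  · intro h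
    rw [h, Sym2.mem_iff] at m1
    rcases m1 with m1 | m1
    · exact u1 1 (by decide) (mem_eq m1 f5)
    · exact u1 2 (by decide) (mem_eq m1 f6)
  · intro h
    exact u1 2 (by decide) (D.tp_edge hTRE f6 f7 h).2.1
  · intro h
    rw [h, Sym2.mem_iff] at m1
    rcases m1 with m1 | m1
    · exact u1 2 (by decide) (mem_eq m1 f7)
    · exact n1 (mem_eq m1 f8)
  · intro h
    have h4 := ((hTRE.tp hg.1 _ f8 _ f9).1).adj_of_mem h
    exact n1 (hg.1.inX _ _ h4)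
  · intro h
    rw [h, Sym2.mem_iff] at m2
    rcases m2 with m2 | m2
    · exact D.nb2 m2.symm
    · exact D.hc.n12 m2.symm
  · intro h
    exact u2 0 (by decide) (D.tp_edge hTRE D.K.sX f3 h).2.2

end Dat

end YKFM

/-- **YKF.** -/
theorem specYKF (hYC3 : SpecYC3) (hTRE : SpecTRE) (hDCB : SpecDCB) : SpecYKF := by
  intro α _ _ G b t₁ t₂ t₃ hc h12 h13 h23 f F hf h0 hF1 hF2 K hp hq
  set D : YKFM.Dat G b t₁ t₂ t₃ := ⟨hc, h12, h13, h23, K, hp, hq⟩ with hD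
  -- the eight cycles of `R`
  have hR12 : (yd G b t₁ t₂ t₃).Adj t₁ t₂ := by
    rw [yd, sup_adj]
    left
    exact ⟨h12, fun h => D.nb1 (mem_singleton.1 h).symm, fun h => D.nb2 (mem_singleton.1 h).symm⟩
  have hcyc : ∀ e : Fin 3 → Bool, IsCyc (yd G b t₁ t₂ t₃) (insert s(t₁, t₂) (K.pth e)) := by
    intro e
    obtain ⟨h1, h2⟩ := isPth_delE.1 (hYC3.pth K e).1
    exact h1.isCyc hR12 h2
  have n13 : s(t₁, t₃) ≠ s(t₁, t₂) := by
    intro h
    rw [Sym2.eq_iff] at h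
    rcases h with ⟨_, h⟩ | ⟨h, _⟩
    · exact hc.n23 h.symm
    · exact hc.n12 h
  have n23 : s(t₂, t₃) ≠ s(t₁, t₂) := by
    intro h
    rw [Sym2.eq_iff] at h
    rcases h with ⟨h, _⟩ | ⟨_, h⟩
    · exact hc.n12 h.symm
    · exact hc.n13 h.symm
  -- edges of the paths
  have htail : ∀ c : Bool, ∀ x y : α, s(x, y) ∈ tp (K.T 3) (K.q 2 c) t₂ → G.Adj x y :=
    fun c x y h => (D.tp_edge hTRE (K.qX 2 c) K.tX h).1
  have hne13 : ∀ e, s(t₁, t₃) ∉ insert s(t₁, t₂) (K.pth e) := by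
    intro e h
    rw [mem_insert] at h
    rcases h with h | h
    · exact n13 h
    · have h' : s(t₁, t₃) ∈ D.K.pth e := h
      rw [D.pth_eq, mem_union, mem_union, mem_singleton] at h'
      rcases h' with h' | h' | h'
      · exact h13 (D.A_edge hTRE e h').1
      · have u1 : ∀ i : Fin 4, i ≠ 0 → t₁ ∉ D.K.X i := fun i hi h => hi (D.uniq h D.K.sX)
        have m1 : t₁ ∈ s(t₁, t₃) := Sym2.mem_mk_left _ _
        rw [h', Sym2.mem_iff] at m1
        rcases m1 with m1 | m1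
        · exact u1 2 (by decide) (YKFM.mem_eq m1 (D.K.pX 2 _))
        · exact u1 3 (by decide) (YKFM.mem_eq m1 (D.K.qX 2 _))
      · exact h13 (htail _ _ _ h')
  have hne23 : ∀ e : Fin 3 → Bool, e 2 = true → s(t₂, t₃) ∉ insert s(t₁, t₂) (K.pth e) := by
    intro e he h
    rw [mem_insert] at h
    rcases h with h | h
    · exact n23 h
    · have h' : s(t₂, t₃) ∈ D.K.pth e := h
      rw [D.pth_eq, mem_union, mem_union, mem_singleton] at h'
      rcases h' with h' | h' | h'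
      · exact h23 (D.A_edge hTRE e h').1
      · rw [he] at h'
        have h4 := D.bead 2 true (by decide)
        have h5 : G.Adj t₂ t₃ := by
          rw [← mem_edgeSet, h', mem_edgeSet]
          exact h4
        exact h23 h5
      · exact h23 (htail _ _ _ h')
  have hin23 : ∀ e : Fin 3 → Bool, e 2 = false → s(t₂, t₃) ∈ insert s(t₁, t₂) (K.pth e) := by
    intro e he
    apply mem_insert_of_mem
    have h' : s(t₂, t₃) ∈ D.K.pth e := by
      rw [D.pth_eq, mem_union, mem_union, mem_singleton]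
      right; left
      rw [he, D.hp, D.hq, Sym2.eq_swap]
    exact h'
  -- the values
  have hval : ∀ e : Fin 3 → Bool, F (insert s(t₁, t₂) (K.pth e)) =
      f ((D.md hTRE).cyc (Fin.snoc (α := fun _ => Bool) e false)) := by
    intro e
    have g0 : (Fin.snoc (α := fun _ => Bool) e false : Fin 4 → Bool) 0 = e 0 := rfl
    have g1 : (Fin.snoc (α := fun _ => Bool) e false : Fin 4 → Bool) 1 = e 1 := rfl
    have g2 : (Fin.snoc (α := fun _ => Bool) e false : Fin 4 → Bool) 2 = e 2 := rfl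
    have g3 : (Fin.snoc (α := fun _ => Bool) e false : Fin 4 → Bool) 3 = false := rfl
    have he : ∀ c, e 2 = c → ![e 0, e 1, c] = e := by
      intro c hc'
      subst hc'
      ext i
      fin_cases i <;> rfl
    rcases Bool.eq_false_or_eq_true (e 2) with h | h
    · rw [D.cycTF hTRE _ (g2.trans h) g3, g0, g1, he _ h]
      exact hF1 _ (hcyc e) (mem_insert_self _ _) (hne13 e) (hne23 e h)
    · rw [D.cycFF hTRE _ (g2.trans h) g3, g0, g1, he _ h]
      exact hF2 _ (hcyc e) (mem_insert_self _ _) (hne13 e) (hin23 e h)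
  have hzero : ∀ e : Fin 3 → Bool,
      f ((D.md hTRE).cyc (Fin.snoc (α := fun _ => Bool) e true)) = 0 := by
    intro e
    exact h0 _ (hDCB.cyc (D.md hTRE) _).1 (D.cycT hTRE _ rfl)
  have hsum := hf (D.md hTRE)
  rw [← (Fin.snocEquiv (fun _ : Fin 4 => Bool)).sum_comp, Fintype.sum_prod_type,
    Fintype.sum_bool] at hsum
  have hsn : ∀ (c : Bool) (e : Fin 3 → Bool), (Fin.snocEquiv (fun _ : Fin 4 => Bool)) (c, e) =
      Fin.snoc (α := fun _ => Bool) e c := fun _ _ => rfl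
  simp only [hsn] at hsum
  rw [sum_eq_zero (fun e _ => hzero e), zero_add] at hsum
  rw [← hsum]
  exact sum_congr rfl fun e _ => hval e

end DL
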